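import Pool.Agent.P.MP_97ea17_al.F.CDefs

/-! Calculus on rational functions. -/

namespace Pool.Agent.P.MP_97ea17_al.Cx

open MvPolynomial
open scoped Matrix

variable {n : ℕ}

namespace C1Aux

theorem tw_zero (φ : KK n →ₐ[ℂ] KK n) (δ : KK n →ₗ[ℂ] KK n)
    (h : ∀ a b, δ (a * b) = φ a * δ b + φ b * δ a) (hX : ∀ j, δ (toK (X j)) = 0) (f : KK n) :
    δ f = 0 := by
  have h1 : δ 1 = 0 := by
    have := h 1 1
    rw [one_mul, map_one φ, one_mul] at this
    exact left_eq_add.1 this
  have hp : ∀ p : PP n, δ (toK p) = 0 := by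
    intro p
    induction p using MvPolynomial.induction_on with
    | C a =>
      have : toK (C a : PP n) = a • (1 : KK n) := by
        rw [← Algebra.algebraMap_eq_smul_one]; exact toK.commutes a
      rw [this, map_smul, h1, smul_zero]
    | add p q hp hq => rw [map_add, map_add, hp, hq, add_zero]
    | mul_X p i hp => rw [map_mul, h, hp, hX, mul_zero, mul_zero, add_zero]
  obtain ⟨p, q, hq, rfl⟩ := IsFractionRing.div_surjective (A := PP n) f
  have hq' : toK q ≠ 0 := fun h0 =>
    nonZeroDivisors.ne_zero hq (toK_inj (h0.trans (map_zero _).symm))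
  have h2 := h (toK p / toK q) (toK q)
  rw [div_mul_cancel₀ _ hq', hp, hp, mul_zero, zero_add] at h2
  exact (mul_eq_zero.1 h2.symm).resolve_left ((map_ne_zero φ).2 hq')

/-- Directional derivative. -/
noncomputable def dd (y : Fin n → ℂ) : Derivation ℂ (KK n) (KK n) := ∑ i, y i • dK i

theorem dd_apply (y : Fin n → ℂ) (f : KK n) : dd y f = ∑ i, y i • dK i f := by
  have : ∀ s : Finset (Fin n), (∑ i ∈ s, y i • dK i) f = ∑ i ∈ s, y i • dK i f := by
    intro s
    induction s using Finset.induction_on with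
    | empty => simp
    | insert a s ha ih => rw [Finset.sum_insert ha, Finset.sum_insert ha, Derivation.add_apply, ih,
        Derivation.smul_apply]
  exact this _

theorem dd_mul (y : Fin n → ℂ) (a b : KK n) : dd y (a * b) = a * dd y b + b * dd y a := by
  rw [Derivation.leibniz, smul_eq_mul, smul_eq_mul]

theorem dK_lin (i : Fin n) (l : Fin n → ℂ) : dK i (toK (lin l)) = l i • (1 : KK n) := by
  have : pderiv i (lin l) = l i • (1 : PP n) := by
    rw [lin_apply, map_sum, Finset.sum_eq_single i]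
    · simp
    · intro j _ hj; simp [pderiv_X_of_ne hj]
    · simp
  rw [dK_toK, this, map_smul, map_one]

theorem dd_lin (y l : Fin n → ℂ) : dd y (toK (lin l)) = (l ⬝ᵥ y) • (1 : KK n) := by
  simp only [dd_apply, dK_lin, smul_smul, dotProduct, Finset.sum_smul, mul_comm]

theorem dd_single (i : Fin n) (f : KK n) : dd (Pi.single i 1) f = dK i f := by
  rw [dd_apply, Finset.sum_eq_single i] <;> simp +contextual

end C1Aux

open C1Aux

theorem mu_apply (f y : KK n) : mu f y = f * y := rfl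

theorem mem_PK {f : KK n} : f ∈ PK n ↔ ∃ p, toK p = f := Iff.rfl

theorem mem_PK0 {f : KK n} : f ∈ PK0 n ↔ ∃ p : PP n, constantCoeff p = 0 ∧ toK p = f := by
  simp only [PK0, Submodule.mem_map, LinearMap.mem_ker, lcoeff_apply, constantCoeff_eq]
  rfl

theorem dK_comm (i j : Fin n) (f : KK n) : dK i (dK j f) = dK j (dK i f) := by
  have := tw_zero (AlgHom.id ℂ _) ((dK i).toLinearMap ∘ₗ (dK j).toLinearMap -
    (dK j).toLinearMap ∘ₗ (dK i).toLinearMap) (fun a b => by
      simp only [LinearMap.sub_apply, LinearMap.comp_apply, Derivation.coeFn_coe,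
        Derivation.leibniz, smul_eq_mul, map_add, AlgHom.id_apply]
      ring) (fun k => by
      simp only [LinearMap.sub_apply, LinearMap.comp_apply, Derivation.coeFn_coe,
        ← lin_single k, dK_lin, Derivation.map_smul, Derivation.map_one_eq_zero, smul_zero,
        sub_self]) f
  exact sub_eq_zero.1 this

namespace RD

variable {G ι : Type} [Group G] [Fintype G] [DecidableEq G] [Fintype ι] [DecidableEq ι]
variable (D : RD n G ι)

theorem T_apply (w : G) (f : KK n) : D.T w f = D.tK w f := rfl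

theorem T_one : D.T 1 = 1 := by
  have : (D.tK 1 : KK n →+* KK n) = RingHom.id _ :=
    IsLocalization.ringHom_ext (nonZeroDivisors (PP n)) (RingHom.ext fun p => by
      have := D.tK_toK 1 p
      rw [map_one, sub_one] at this
      exact this)
  exact LinearMap.ext fun f => RingHom.congr_fun this f

theorem T_mul (w w' : G) : D.T (w * w') = D.T w' * D.T w := by
  have : (D.tK (w * w') : KK n →+* KK n) = (D.tK w' : KK n →+* KK n).comp (D.tK w) :=
    IsLocalization.ringHom_ext (nonZeroDivisors (PP n)) (RingHom.ext fun p => by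
      have := D.tK_toK (w * w') p
      rw [map_mul, sub_mul, ← D.tK_toK, ← D.tK_toK] at this
      exact this)
  exact LinearMap.ext fun f => RingHom.congr_fun this f

theorem T_mu (w : G) (f : KK n) : D.T w * mu f = mu (D.tK w f) * D.T w := by
  refine LinearMap.ext fun g => ?_
  simp only [Module.End.mul_apply, mu_apply, T_apply, map_mul]

theorem lin_al_ne (U : ι) : lin (D.al U) ≠ 0 := by
  intro h
  have := eval_lin (D.nv U) (D.al U)
  rw [h, D.al_nv, map_zero] at this
  exact zero_ne_one this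

theorem aK_ne (U : ι) : D.aK U ≠ 0 := by
  exact fun h => D.lin_al_ne U (toK_inj (h.trans (map_zero _).symm))

theorem tK_aK (w : G) (U : ι) : ∃ u : ℂ, u ≠ 0 ∧ D.al U ᵥ* D.A w = u • D.al (D.act w U) ∧
    D.tK w (D.aK U) = u • D.aK (D.act w U) := by
  obtain ⟨u, hu, h, -⟩ := D.hact w U
  refine ⟨u, hu, h, ?_⟩
  rw [aK, tK_toK, sub_lin, h, map_smul, map_smul, aK]

theorem act_bij (w : G) : Function.Bijective (D.act w) := by
  refine Function.bijective_iff_has_inverse.2 ⟨D.act w⁻¹, fun U => ?_, fun U => ?_⟩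
  · rw [← D.act_mul, mul_inv_cancel, D.act_one]
  · rw [← D.act_mul, inv_mul_cancel, D.act_one]

theorem A_inv_refl {s : G} (hs : s ∈ D.R) : D.A s⁻¹ =
    1 + ((D.lam s)⁻¹ - 1) • Matrix.vecMulVec (D.nv (D.hy s)) (D.al (D.hy s)) := by
  have hl : D.lam s ≠ 0 := by
    intro h
    have := D.lam_pow s hs
    rw [h, zero_pow (by have := D.two_le (D.hy s); omega)] at this
    exact zero_ne_one this
  have hN : Matrix.vecMulVec (D.nv (D.hy s)) (D.al (D.hy s)) *
      Matrix.vecMulVec (D.nv (D.hy s)) (D.al (D.hy s)) =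
      Matrix.vecMulVec (D.nv (D.hy s)) (D.al (D.hy s)) := by
    rw [Matrix.vecMulVec_mul_vecMulVec, D.al_nv, one_smul]
  have h1 : D.A s * (1 + ((D.lam s)⁻¹ - 1) •
      Matrix.vecMulVec (D.nv (D.hy s)) (D.al (D.hy s))) = 1 := by
    rw [D.A_refl s hs]
    simp only [add_mul, mul_add, one_mul, mul_one, Matrix.smul_mul, Matrix.mul_smul, hN,
      smul_smul]
    have : ((D.lam s)⁻¹ - 1) * (D.lam s - 1) = -(D.lam s - 1) - ((D.lam s)⁻¹ - 1) := by
      field_simp; ring
    rw [this]
    module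
  calc D.A s⁻¹ = D.A s⁻¹ * (D.A s * _) := by rw [h1, mul_one]
    _ = _ := by rw [← mul_assoc, ← map_mul, inv_mul_cancel, map_one, one_mul]

theorem tK_dK (w : G) (y : Fin n → ℂ) (f : KK n) :
    D.tK w (∑ i, y i • dK i f) = ∑ i, (D.A w⁻¹ *ᵥ y) i • dK i (D.tK w f) := by
  rw [← dd_apply, ← dd_apply]
  have := tw_zero (D.tK w) (D.T w ∘ₗ (dd y).toLinearMap - (dd (D.A w⁻¹ *ᵥ y)).toLinearMap ∘ₗ D.T w)
    (fun a b => by
      simp only [LinearMap.sub_apply, LinearMap.comp_apply, Derivation.coeFn_coe, T_apply,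
        dd_mul, map_add, map_mul]
      ring) (fun k => by
      simp only [LinearMap.sub_apply, LinearMap.comp_apply, Derivation.coeFn_coe, T_apply,
        ← lin_single k, tK_toK, sub_lin, dd_lin, map_smul, map_one]
      rw [← Matrix.dotProduct_mulVec, Matrix.mulVec_mulVec, ← map_mul, mul_inv_cancel, map_one,
        Matrix.one_mulVec, sub_self]) f
  exact sub_eq_zero.1 this

theorem tK_lg {E : ι → ℂ} (hE : D.Inv E) (w : G) (y : Fin n → ℂ) :
    D.tK w (D.lg E y) = D.lg E (D.A w⁻¹ *ᵥ y) := by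
  unfold lg
  rw [map_sum]
  refine Fintype.sum_bijective _ (D.act_bij w) _ _ fun U => ?_
  obtain ⟨u, hu, h1, h2⟩ := D.tK_aK w U
  have h3 : D.al U ⬝ᵥ y = u * (D.al (D.act w U) ⬝ᵥ (D.A w⁻¹ *ᵥ y)) := by
    rw [← smul_eq_mul, ← smul_dotProduct, ← h1, ← Matrix.dotProduct_mulVec, Matrix.mulVec_mulVec,
      ← map_mul, mul_inv_cancel, map_one, Matrix.one_mulVec]
  rw [map_smul, map_inv₀, h2, smul_inv₀, smul_smul, hE, h3]
  congr 1
  field_simp

theorem nab_apply (E : ι → ℂ) (y : Fin n → ℂ) (f : KK n) :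
    D.nab E y f = ∑ i, y i • dK i f + D.lg E y * f := by
  simp only [nab, LinearMap.add_apply, LinearMap.sum_apply, LinearMap.smul_apply,
    Derivation.coeFn_coe, mu_apply]

theorem nab_single (E : ι → ℂ) (i : Fin n) (f : KK n) :
    D.nab E (Pi.single i 1) f = dK i f + D.lg E (Pi.single i 1) * f := by
  rw [nab_apply, ← dd_apply, dd_single]

theorem nab_sum (E : ι → ℂ) (y : Fin n → ℂ) :
    D.nab E y = ∑ i, y i • D.nab E (Pi.single i 1) := by
  refine LinearMap.ext fun f => ?_
  have : D.lg E y = ∑ i, y i • D.lg E (Pi.single i 1) := by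
    simp only [lg, Finset.smul_sum, smul_smul, dotProduct_single, mul_one]
    rw [Finset.sum_comm]
    refine Finset.sum_congr rfl fun U _ => ?_
    rw [← Finset.sum_smul, dotProduct, Finset.mul_sum]
    congr 1
    exact Finset.sum_congr rfl fun i _ => by ring
  simp only [LinearMap.sum_apply, LinearMap.smul_apply, nab_single, smul_add,
    Finset.sum_add_distrib]
  rw [nab_apply, this, Finset.sum_mul]
  simp only [smul_mul_assoc]

theorem lg_add (E E' : ι → ℂ) (y : Fin n → ℂ) : D.lg (E + E') y = D.lg E y + D.lg E' y := by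
  simp only [lg, Pi.add_apply, add_mul, add_smul, Finset.sum_add_distrib]

theorem lg_smul (c : ℂ) (E : ι → ℂ) (y : Fin n → ℂ) : D.lg (c • E) y = c • D.lg E y := by
  simp only [lg, Pi.smul_apply, smul_eq_mul, Finset.smul_sum, smul_smul, mul_assoc]

theorem T_nab {E : ι → ℂ} (hE : D.Inv E) (w : G) (y : Fin n → ℂ) :
    D.T w * D.nab E y = D.nab E (D.A w⁻¹ *ᵥ y) * D.T w := by
  refine LinearMap.ext fun f => ?_
  simp only [Module.End.mul_apply, T_apply, nab_apply]
  rw [map_add, map_mul, tK_dK, D.tK_lg hE]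

theorem nab_comm (E : ι → ℂ) (y y' : Fin n → ℂ) :
    D.nab E y * D.nab E y' = D.nab E y' * D.nab E y := by
  refine LinearMap.ext fun f => ?_
  have h1 : ∀ z z', dd z (D.lg E z') =
      -∑ U, (E U * ((D.al U ⬝ᵥ z) * (D.al U ⬝ᵥ z'))) • ((D.aK U)⁻¹ ^ 2) := by
    intro z z'
    rw [lg, map_sum, ← Finset.sum_neg_distrib]
    refine Finset.sum_congr rfl fun U _ => ?_
    rw [Derivation.map_smul, Derivation.leibniz_inv, aK, dd_lin, smul_eq_mul, mul_smul_comm,
      mul_one, smul_smul, smul_neg]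
    congr 2
    ring
  have h2 : dd y (D.lg E y') = dd y' (D.lg E y) := by
    rw [h1, h1]; simp only [mul_comm (D.al _ ⬝ᵥ y)]
  have h3 : dd y (dd y' f) = dd y' (dd y f) := by
    simp only [dd_apply, map_sum, Derivation.map_smul, Finset.smul_sum, smul_smul]
    rw [Finset.sum_comm]
    exact Finset.sum_congr rfl fun i _ => Finset.sum_congr rfl fun j _ => by
      rw [dK_comm, mul_comm]
  simp only [Module.End.mul_apply, nab_apply, ← dd_apply, map_add, dd_mul]
  rw [h2, h3]
  ring

theorem nab_mu (E : ι → ℂ) (y : Fin n → ℂ) (f : KK n) :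
    D.nab E y * mu f = mu f * D.nab E y + mu (∑ i, y i • dK i f) := by
  refine LinearMap.ext fun g => ?_
  simp only [Module.End.mul_apply, LinearMap.add_apply, nab_apply, mu_apply, ← dd_apply, dd_mul]
  ring

theorem dK_Gm (r : ι → ℕ) (i : Fin n) :
    dK i (toK (D.Gm r)) = toK (D.Gm r) * D.lg (fun U => r U) (Pi.single i 1) := by
  have : ∀ s : Finset ι, dK i (∏ U ∈ s, D.aK U ^ r U) = (∏ U ∈ s, D.aK U ^ r U) *
      ∑ U ∈ s, ((r U : ℂ) * (D.al U ⬝ᵥ Pi.single i 1)) • (D.aK U)⁻¹ := by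
    intro s
    induction s using Finset.induction_on with
    | empty => simp
    | insert a s ha ih =>
      have h1 : dK i (D.aK a ^ r a) =
          D.aK a ^ r a * ((r a : ℂ) * (D.al a ⬝ᵥ Pi.single i 1)) • (D.aK a)⁻¹ := by
        have h2 : dK i (D.aK a) = D.al a i • (1 : KK n) := dK_lin i _
        rw [Derivation.leibniz_pow, h2, dotProduct_single, mul_one]
        rcases r a with _ | k
        · simp
        · have := D.aK_ne a
          rw [nsmul_eq_mul, smul_eq_mul, Algebra.smul_def, Algebra.smul_def, map_mul, map_natCast,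
            Nat.add_sub_cancel]
          field_simp
          ring
      rw [Finset.prod_insert ha, Finset.sum_insert ha, Derivation.leibniz, ih, h1, smul_eq_mul,
        smul_eq_mul]
      ring
  have h : toK (D.Gm r) = ∏ U, D.aK U ^ r U := by
    simp only [Gm, map_prod, map_pow, aK]
  rw [h, this, lg]

theorem toK_mem_SK (p : PP n) : toK p ∈ D.SK := by
  induction p using MvPolynomial.induction_on with
  | C a => exact (toK.commutes a).symm ▸ D.SK.algebraMap_mem a
  | add p q hp hq => rw [map_add]; exact add_mem hp hq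
  | mul_X p i hp => rw [map_mul]; exact mul_mem hp (Algebra.subset_adjoin (Or.inl ⟨i, rfl⟩))

theorem inv_aK_mem_SK (U : ι) : (D.aK U)⁻¹ ∈ D.SK := by
  exact Algebra.subset_adjoin (Or.inr ⟨U, rfl⟩)

theorem lg_mem_SK (E : ι → ℂ) (y : Fin n → ℂ) : D.lg E y ∈ D.SK := by
  exact sum_mem fun U _ => D.SK.smul_mem (D.inv_aK_mem_SK U) _

theorem dK_mem_SK (i : Fin n) {f : KK n} (hf : f ∈ D.SK) : dK i f ∈ D.SK := by
  induction hf using Algebra.adjoin_induction with
  | mem x hx =>
    rcases hx with ⟨j, rfl⟩ | ⟨U, rfl⟩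
    · rw [dK_toK]; exact D.toK_mem_SK _
    · rw [Derivation.leibniz_inv, smul_eq_mul]
      refine mul_mem (neg_mem (pow_mem (D.inv_aK_mem_SK U) 2)) ?_
      rw [aK, dK_toK]; exact D.toK_mem_SK _
  | algebraMap r => rw [Derivation.map_algebraMap]; exact zero_mem _
  | add x y _ _ hx hy => rw [map_add]; exact add_mem hx hy
  | mul x y hx hy hx' hy' =>
    rw [Derivation.leibniz, smul_eq_mul, smul_eq_mul]
    exact add_mem (mul_mem hx hy') (mul_mem hy hx')

theorem tK_mem_SK (w : G) {f : KK n} (hf : f ∈ D.SK) : D.tK w f ∈ D.SK := by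
  induction hf using Algebra.adjoin_induction with
  | mem x hx =>
    rcases hx with ⟨j, rfl⟩ | ⟨U, rfl⟩
    · rw [tK_toK]; exact D.toK_mem_SK _
    · obtain ⟨u, -, -, h⟩ := D.tK_aK w U
      rw [map_inv₀, h, smul_inv₀]
      exact D.SK.smul_mem (D.inv_aK_mem_SK _) _
  | algebraMap r => rw [AlgHom.commutes]; exact D.SK.algebraMap_mem r
  | add x y _ _ hx hy => rw [map_add]; exact add_mem hx hy
  | mul x y _ _ hx hy => rw [map_mul]; exact mul_mem hx hy

theorem tK_mem_PK (w : G) {f : KK n} (hf : f ∈ PK n) : D.tK w f ∈ PK n := by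
  obtain ⟨p, rfl⟩ := mem_PK.1 hf
  exact mem_PK.2 ⟨_, (D.tK_toK w p).symm⟩

theorem tK_mem_PK0 (w : G) {f : KK n} (hf : f ∈ PK0 n) : D.tK w f ∈ PK0 n := by
  obtain ⟨p, hp, rfl⟩ := mem_PK0.1 hf
  refine mem_PK0.2 ⟨_, ?_, (D.tK_toK w p).symm⟩
  rw [← eval_zero, eval_sub', Matrix.mulVec_zero, eval_zero, hp]

theorem T_av (w : G) : D.T w * D.av = D.av := by
  have : ∑ v, D.T w * D.T v = ∑ v, D.T v :=
    Fintype.sum_equiv (Equiv.mulRight w) (fun v => D.T w * D.T v) D.T fun v => by
      rw [Equiv.coe_mulRight, D.T_mul]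
  rw [av, mul_smul_comm, Finset.mul_sum, this]

theorem av_T (w : G) : D.av * D.T w = D.av := by
  have : ∑ v, D.T v * D.T w = ∑ v, D.T v :=
    Fintype.sum_equiv (Equiv.mulLeft w) (fun v => D.T v * D.T w) D.T fun v => by
      rw [Equiv.coe_mulLeft, D.T_mul]
  rw [av, smul_mul_assoc, Finset.sum_mul, this]

theorem av_inv (f : KK n) : D.IsInv (D.av f) := by
  exact fun w => LinearMap.congr_fun (D.T_av w) f

theorem av_of_inv {f : KK n} (hf : D.IsInv f) : D.av f = f := by
  have : (Fintype.card G : ℂ) ≠ 0 := Nat.cast_ne_zero.2 Fintype.card_ne_zero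
  simp only [av, LinearMap.smul_apply, LinearMap.sum_apply, T_apply, hf _, Finset.sum_const,
    Finset.card_univ]
  rw [← Nat.cast_smul_eq_nsmul ℂ, smul_smul, inv_mul_cancel₀ this, one_smul]

theorem av_mem {N : Submodule ℂ (KK n)} (hN : ∀ w, ∀ f ∈ N, D.tK w f ∈ N) {f : KK n}
    (hf : f ∈ N) : D.av f ∈ N := by
  simp only [av, LinearMap.smul_apply, LinearMap.sum_apply, T_apply]
  exact N.smul_mem _ (sum_mem fun w _ => hN w f hf)

theorem EE_inv (c : ℂ) {r : ι → ℕ} (hr : D.Inv r) : D.Inv (D.EE c r) := by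
  intro w U
  simp only [EE, hr w U, D.m_act]

theorem Adm.dual {D : RD n G ι} {r : ι → ℕ} (hr : D.Adm r) :
    D.Adm (fun U => D.m U - 1 - r U) ∧ D.EE D.c1 (fun U => D.m U - 1 - r U) = D.EE D.c0 r := by
  refine ⟨⟨fun w U => by simp only [hr.1 w U, D.m_act], fun U => ?_⟩, funext fun U => ?_⟩
  · have := D.two_le U
    dsimp only
    omega
  · have h1 := hr.2 U
    have h2 : ((D.m U - 1 - r U : ℕ) : ℂ) = D.m U - 1 - r U := by
      rw [Nat.cast_sub (by omega), Nat.cast_sub (by omega), Nat.cast_one]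
    simp only [EE, c1, c0, h2]
    ring

theorem adm_zero : D.Adm 0 := by
  exact ⟨fun _ _ => rfl, fun U => by have := D.two_le U; change 0 < _; omega⟩

end RD

end Pool.Agent.P.MP_97ea17_al.Cx
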