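import Pool.Agent.P.MP_97ea17_al.F.C1

/-! Semi-invariants, divisibility by the linear forms, invariants with prescribed differentials. -/

namespace Pool.Agent.P.MP_97ea17_al.Cx.RD

open MvPolynomial
open scoped Matrix

variable {n : ℕ} {G ι : Type} [Group G] [Fintype G] [DecidableEq G] [Fintype ι] [DecidableEq ι]
variable (D : RD n G ι)

namespace C1bAux

theorem vec_refl {s : G} (hs : s ∈ D.R) (l : Fin n → ℂ) :
    l ᵥ* D.A s = l + ((D.lam s - 1) * (l ⬝ᵥ D.nv (D.hy s))) • D.al (D.hy s) := by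
  rw [D.A_refl s hs, Matrix.vecMul_add, Matrix.vecMul_one, Matrix.vecMul_smul,
    Matrix.vecMul_vecMulVec, smul_smul]

theorem sub_al {s : G} (hs : s ∈ D.R) :
    sub (D.A s) (lin (D.al (D.hy s))) = D.lam s • lin (D.al (D.hy s)) := by
  rw [sub_lin, vec_refl D hs, D.al_nv, mul_one, map_add, map_smul, _root_.sub_smul, one_smul]
  abel

theorem fix_pt {s : G} (hs : s ∈ D.R) {p : Fin n → ℂ} (hp : D.al (D.hy s) ⬝ᵥ p = 0) :
    D.A s *ᵥ p = p := by
  rw [D.A_refl s hs, Matrix.add_mulVec, Matrix.one_mulVec, Matrix.smul_mulVec,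
    Matrix.vecMulVec_mulVec, hp]
  simp

theorem dvd_sub {s : G} (hs : s ∈ D.R) (p : PP n) :
    lin (D.al (D.hy s)) ∣ sub (D.A s) p - p := by
  induction p using MvPolynomial.induction_on with
  | C a => simp [sub]
  | add p q hp hq =>
    rw [map_add, add_sub_add_comm]
    exact dvd_add hp hq
  | mul_X p i hp =>
    have h1 : lin (D.al (D.hy s)) ∣ sub (D.A s) (X i) - X i := by
      rw [← lin_single, sub_lin, vec_refl D hs, map_add, map_smul, add_sub_cancel_left,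
        smul_eq_C_mul]
      exact dvd_mul_left _ _
    have e : sub (D.A s) (p * X i) - p * X i
        = sub (D.A s) p * (sub (D.A s) (X i) - X i) + (sub (D.A s) p - p) * X i := by
      rw [map_mul]
      ring
    rw [e]
    exact dvd_add (h1.mul_left _) (hp.mul_right _)

theorem Gm_split (r : ι → ℕ) (U : ι) :
    D.Gm r = lin (D.al U) ^ r U * ∏ V ∈ Finset.univ.erase U, lin (D.al V) ^ r V :=
  (Finset.mul_prod_erase _ (fun V => lin (D.al V) ^ r V) (Finset.mem_univ U)).symm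

theorem rest_ne (r : ι → ℕ) (U : ι) {p : Fin n → ℂ} (hp : ∀ V, V ≠ U → D.al V ⬝ᵥ p ≠ 0) :
    eval p (∏ V ∈ Finset.univ.erase U, lin (D.al V) ^ r V) ≠ 0 := by
  rw [map_prod]
  refine Finset.prod_ne_zero_iff.2 fun V hV => ?_
  rw [map_pow, eval_lin]
  exact pow_ne_zero _ (hp V (Finset.ne_of_mem_erase hV))

theorem prime_al (U : ι) : Prime (lin (D.al U)) := by
  refine (irreducible_of_totalDegree_eq_one ((lin_hom _).totalDegree (D.lin_al_ne U))
    fun c hc => ?_).prime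
  obtain ⟨s, hs⟩ := support_nonempty.2 (D.lin_al_ne U)
  refine isUnit_iff_ne_zero.2 ?_
  rintro rfl
  exact mem_support_iff.1 hs (zero_dvd_iff.1 (hc s))

theorem not_dvd_of_eval {U : ι} {p : Fin n → ℂ} (hp : D.al U ⬝ᵥ p = 0) {J : PP n}
    (hJ : eval p J ≠ 0) : ¬ lin (D.al U) ∣ J := by
  rintro ⟨q, rfl⟩
  rw [map_mul, eval_lin, hp, zero_mul] at hJ
  exact hJ rfl

theorem Gm_dvd (r : ι → ℕ) {p : PP n} (h : ∀ U, lin (D.al U) ^ r U ∣ p) : D.Gm r ∣ p := by
  refine Finset.prod_dvd_of_isRelPrime (fun U _ V _ hUV => ?_) fun U _ => h U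
  obtain ⟨x, hx, hx', -⟩ := D.hpt U
  refine IsRelPrime.pow ((prime_al D U).irreducible.isRelPrime_iff_not_dvd.2 ?_)
  refine not_dvd_of_eval D hx ?_
  rw [eval_lin]
  exact hx' V (Ne.symm hUV)

theorem Gm_ne' (r : ι → ℕ) : D.Gm r ≠ 0 :=
  Finset.prod_ne_zero_iff.2 fun U _ => pow_ne_zero _ (D.lin_al_ne U)

theorem toK_Gm_ne (r : ι → ℕ) : toK (D.Gm r) ≠ 0 :=
  fun h => Gm_ne' D r (toK_inj (h.trans (map_zero _).symm))

theorem mem_LK {r : ι → ℕ} {f : KK n} : f ∈ D.LK r ↔ ∃ p, toK p = toK (D.Gm r) * f := Iff.rfl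

theorem of_dvd {r : ι → ℕ} {f : KK n} {p : PP n} (hp : toK p = toK (D.Gm r) * f)
    (h : ∀ U, lin (D.al U) ^ r U ∣ p) : f ∈ PK n := by
  obtain ⟨q, rfl⟩ := Gm_dvd D r h
  rw [map_mul] at hp
  exact mem_PK.2 ⟨q, mul_left_cancel₀ (toK_Gm_ne D r) hp⟩

theorem pow_dvd {s : G} (hs : s ∈ D.R) {m : ℕ} (hm : IsPrimitiveRoot (D.lam s) m) (k : ℕ) :
    k < m → ∀ p : PP n, sub (D.A s) p = D.lam s ^ k • p → lin (D.al (D.hy s)) ^ k ∣ p := by
  induction k with
  | zero =>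
    intro _ p _
    rw [pow_zero]
    exact one_dvd p
  | succ k ih =>
    intro hk p hp
    have h1 : D.lam s ^ (k + 1) - 1 ≠ 0 :=
      sub_ne_zero.2 (hm.pow_ne_one_of_pos_of_lt (Nat.succ_ne_zero k) hk)
    have h0 : D.lam s ≠ 0 := hm.ne_zero (by omega)
    have h2 : lin (D.al (D.hy s)) ∣ p := by
      have h3 := dvd_sub D hs p
      have e : p = C (D.lam s ^ (k + 1) - 1)⁻¹ * (sub (D.A s) p - p) := by
        have : sub (D.A s) p - p = (D.lam s ^ (k + 1) - 1) • p := by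
          rw [hp, _root_.sub_smul, one_smul]
        rw [this, ← smul_eq_C_mul, smul_smul, inv_mul_cancel₀ h1, one_smul]
      rw [e]
      exact h3.mul_left _
    obtain ⟨q, rfl⟩ := h2
    rw [pow_succ']
    refine mul_dvd_mul_left _ (ih (by omega) q ?_)
    rw [map_mul, sub_al D hs, smul_mul_assoc, pow_succ', mul_smul, ← mul_smul_comm (D.lam s ^ k)]
      at hp
    exact mul_left_cancel₀ (D.lin_al_ne _) (smul_right_injective _ h0 hp)

theorem Gm_add (r r' : ι → ℕ) : D.Gm (r + r') = D.Gm r * D.Gm r' := by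
  simp only [Gm, Pi.add_apply, pow_add, Finset.prod_mul_distrib]

theorem exists_LK {f : KK n} (hf : f ∈ D.SK) : ∃ r p, toK p = toK (D.Gm r) * f := by
  induction hf using Algebra.adjoin_induction with
  | mem x hx =>
    rcases hx with ⟨j, rfl⟩ | ⟨U, rfl⟩
    · exact ⟨0, D.Gm 0 * X j, map_mul _ _ _⟩
    · refine ⟨fun _ => 1, ∏ V ∈ Finset.univ.erase U, lin (D.al V) ^ 1, ?_⟩
      rw [Gm_split D _ U, map_mul, pow_one, mul_right_comm]
      change _ = D.aK U * (D.aK U)⁻¹ * _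
      rw [mul_inv_cancel₀ (D.aK_ne U), one_mul]
  | algebraMap c =>
    refine ⟨0, D.Gm 0 * C c, ?_⟩
    rw [map_mul]
    exact congrArg _ (toK.commutes c)
  | add x y _ _ hx hy =>
    obtain ⟨r, p, hp⟩ := hx
    obtain ⟨r', p', hp'⟩ := hy
    refine ⟨r + r', p * D.Gm r' + p' * D.Gm r, ?_⟩
    rw [Gm_add, map_add, map_mul, map_mul, map_mul, hp, hp']
    ring
  | mul x y _ _ hx hy =>
    obtain ⟨r, p, hp⟩ := hx
    obtain ⟨r', p', hp'⟩ := hy
    refine ⟨r + r', p * p', ?_⟩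
    rw [Gm_add, map_mul, map_mul, hp, hp']
    ring

theorem pderiv_lin' (l : Fin n → ℂ) (i : Fin n) : pderiv i (lin l) = C (l i) := by
  rw [lin_apply, map_sum, Finset.sum_eq_single i]
  · simp [smul_eq_C_mul]
  · intro j _ hj
    simp [pderiv_X_of_ne hj]
  · simp

theorem exists_sep (p : Fin n → ℂ) :
    ∃ h : PP n, eval p h = 1 ∧ ∀ w, D.A w *ᵥ p ≠ p → eval (D.A w *ᵥ p) h = 0 := by
  have h1 : ∀ w, ∃ h : PP n, eval p h = 1 ∧ (D.A w *ᵥ p ≠ p → eval (D.A w *ᵥ p) h = 0) := by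
    intro w
    by_cases hw : D.A w *ᵥ p = p
    · exact ⟨1, map_one _, fun h => absurd hw h⟩
    · obtain ⟨i, hi⟩ := Function.ne_iff.1 hw
      refine ⟨C (p i - (D.A w *ᵥ p) i)⁻¹ * (X i - C ((D.A w *ᵥ p) i)), ?_, fun _ => ?_⟩
      · rw [map_mul, map_sub, eval_C, eval_C, eval_X]
        exact inv_mul_cancel₀ (sub_ne_zero.2 (Ne.symm hi))
      · rw [map_mul, map_sub, eval_C, eval_C, eval_X, sub_self, mul_zero]
  choose h h2 h3 using h1
  refine ⟨∏ w, h w, ?_, fun w hw => ?_⟩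
  · rw [map_prod]
    exact Finset.prod_eq_one fun w _ => h2 w
  · rw [map_prod]
    exact Finset.prod_eq_zero (Finset.mem_univ w) (h3 w hw)

theorem exists_z (p l : Fin n → ℂ) (hl : ∀ w, D.A w *ᵥ p = p → l ᵥ* D.A w = l) :
    ∃ z : PP n, (∀ g, sub (D.A g) z = z) ∧ ∀ j, eval p (pderiv j z) = l j := by
  classical
  obtain ⟨h, h1, h2⟩ := exists_sep D p
  set f : PP n := (lin l - C (l ⬝ᵥ p)) * (h * h) with hf
  set N : ℕ := (Finset.univ.filter fun w => D.A w *ᵥ p = p).card with hN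
  have hN0 : (N : ℂ) ≠ 0 := by
    refine Nat.cast_ne_zero.2 (Finset.card_ne_zero.2 ⟨1, ?_⟩)
    simp
  refine ⟨(N : ℂ)⁻¹ • ∑ w, sub (D.A w) f, fun g => ?_, fun j => ?_⟩
  · have e := Fintype.sum_equiv (Equiv.mulRight g) (fun w => sub (D.A g) (sub (D.A w) f))
      (fun w => sub (D.A w) f) fun w => by
        rw [Equiv.coe_mulRight, map_mul D.A, sub_mul]
    rw [map_smul, map_sum, e]
  · have h3 : ∀ w, eval p (pderiv j (sub (D.A w) f)) = if D.A w *ᵥ p = p then l j else 0 := by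
      intro w
      have e : sub (D.A w) f
          = (lin (l ᵥ* D.A w) - C (l ⬝ᵥ p)) * (sub (D.A w) h * sub (D.A w) h) := by
        rw [hf, map_mul, map_mul, map_sub, sub_lin]
        simp [sub]
      rw [e]
      simp only [Derivation.leibniz, smul_eq_mul, map_add, map_mul, map_sub, pderiv_lin',
        pderiv_C, eval_C, eval_lin, eval_sub', map_zero]
      split_ifs with hw
      · rw [hl w hw, hw, h1]
        ring
      · rw [h2 w hw]
        ring
    rw [Derivation.map_smul, smul_eval, map_sum, map_sum]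
    simp only [h3]
    rw [← Finset.sum_filter, Finset.sum_const, ← hN, nsmul_eq_mul, ← mul_assoc,
      inv_mul_cancel₀ hN0, one_mul]

end C1bAux

open C1bAux

theorem Gm_ne (r : ι → ℕ) : D.Gm r ≠ 0 := Gm_ne' D r

theorem sub_Gm {r : ι → ℕ} (hr : D.Inv r) (w : G) :
    ∃ χ : ℂ, χ ≠ 0 ∧ sub (D.A w) (D.Gm r) = χ • D.Gm r := by
  choose u hu h _ using D.hact w
  refine ⟨∏ U, u U ^ r U, Finset.prod_ne_zero_iff.2 fun U _ => pow_ne_zero _ (hu U), ?_⟩
  have e : D.Gm r = ∏ U, lin (D.al (D.act w U)) ^ r U :=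
    (Fintype.prod_bijective _ (D.act_bij w) _ _ fun U => by rw [hr w U]).symm
  conv_rhs => rw [e]
  rw [Gm, map_prod, ← Finset.prod_smul]
  refine Finset.prod_congr rfl fun U _ => ?_
  rw [map_pow, sub_lin, h, map_smul, smul_pow]

theorem sub_Gm_refl {r : ι → ℕ} (hr : D.Inv r) {s : G} (hs : s ∈ D.R) :
    sub (D.A s) (D.Gm r) = D.lam s ^ r (D.hy s) • D.Gm r := by
  obtain ⟨χ, -, h⟩ := D.sub_Gm hr s
  obtain ⟨p, hp, hp', -⟩ := D.hpt (D.hy s)
  have h1 := h
  rw [Gm_split D r (D.hy s), map_mul, map_pow, sub_al D hs, smul_pow, smul_mul_assoc,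
    ← mul_smul_comm, ← mul_smul_comm] at h1
  have h2 := congrArg (eval p) (mul_left_cancel₀ (pow_ne_zero _ (D.lin_al_ne _)) h1)
  rw [smul_eval, smul_eval, eval_sub', fix_pt D hs hp] at h2
  rw [h, mul_right_cancel₀ (rest_ne D r _ hp') h2]

theorem inv_of_refl {p : PP n} (h : ∀ s ∈ D.R, sub (D.A s) p = p) (w : G) :
    sub (D.A w) p = p := by
  have hw : w ∈ Subgroup.closure (D.R : Set G) := by
    rw [D.gen]
    exact Subgroup.mem_top w
  induction hw using Subgroup.closure_induction with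
  | mem x hx => exact h x hx
  | one => rw [map_one, sub_one]
  | mul x y _ _ hx hy => rw [map_mul, sub_mul, hx, hy]
  | inv x _ hx =>
    conv_lhs => rw [← hx]
    rw [← sub_mul, ← map_mul, mul_inv_cancel, map_one, sub_one]

theorem PK_le_LK (r : ι → ℕ) : PK n ≤ D.LK r := by
  intro f hf
  obtain ⟨p, rfl⟩ := mem_PK.1 hf
  exact (mem_LK D).2 ⟨D.Gm r * p, map_mul _ _ _⟩

theorem LK_zero : D.LK 0 = PK n := by
  refine le_antisymm (fun f hf => ?_) (D.PK_le_LK 0)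
  obtain ⟨p, hp⟩ := (mem_LK D).1 hf
  exact of_dvd D hp fun U => by simp

theorem mul_mem_LK {r : ι → ℕ} (p : PP n) {f : KK n} (hf : f ∈ D.LK r) : toK p * f ∈ D.LK r := by
  obtain ⟨q, hq⟩ := (mem_LK D).1 hf
  refine (mem_LK D).2 ⟨p * q, ?_⟩
  rw [map_mul, hq]
  ring

theorem tK_mem_LK {r : ι → ℕ} (hr : D.Inv r) (w : G) {f : KK n} (hf : f ∈ D.LK r) :
    D.tK w f ∈ D.LK r := by
  obtain ⟨q, hq⟩ := (mem_LK D).1 hf
  obtain ⟨χ, hχ, h⟩ := D.sub_Gm hr w
  have h1 := congrArg (D.tK w) hq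
  rw [map_mul, tK_toK, tK_toK, h, map_smul, smul_mul_assoc] at h1
  refine (mem_LK D).2 ⟨χ⁻¹ • sub (D.A w) q, ?_⟩
  rw [map_smul, h1, smul_smul, inv_mul_cancel₀ hχ, one_smul]

theorem LK_inv {r : ι → ℕ} (hr : D.Adm r) {f : KK n} (hf : f ∈ D.LK r) (hi : D.IsInv f) :
    f ∈ PK n := by
  obtain ⟨p, hp⟩ := (mem_LK D).1 hf
  refine of_dvd D hp fun U => ?_
  obtain ⟨s, hs, rfl, hm⟩ := D.prim U
  refine pow_dvd D hs hm _ (hr.2 _) p (toK_inj ?_)
  have h1 := congrArg (D.tK s) hp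
  rw [map_mul, tK_toK, tK_toK, D.sub_Gm_refl hr.1 hs, hi s, map_smul, smul_mul_assoc, ← hp] at h1
  rw [h1, map_smul]

theorem mem_PK_of_SK {f : KK n} (hf : f ∈ D.SK)
    (h : ∀ U, ∃ J : PP n, ¬ lin (D.al U) ∣ J ∧ toK J * f ∈ PK n) : f ∈ PK n := by
  obtain ⟨r, p, hp⟩ := exists_LK D hf
  refine of_dvd D hp fun U => ?_
  obtain ⟨J, hJ, hf'⟩ := h U
  obtain ⟨q, hq⟩ := mem_PK.1 hf'
  have e : J * p = D.Gm r * q := toK_inj (by
    rw [map_mul, map_mul, hp, hq]
    ring)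
  refine (prime_al D U).pow_dvd_of_dvd_mul_left _ hJ ?_
  rw [e, Gm_split D r U, mul_assoc]
  exact dvd_mul_right _ _

theorem prime_lin (U : ι) : Prime (lin (D.al U)) := prime_al D U

theorem exists_inv (U : ι) (r : ι → ℕ) (hr : r U = 1) :
    ∃ (J : PP n) (u : Fin n → Fin n → PP n) (w z : Fin n → PP n), ¬ lin (D.al U) ∣ J ∧
      (∀ k g, sub (D.A g) (z k) = z k) ∧
      ∀ i j, ∑ k, u i k * pderiv j (z k) + w i * pderiv j (D.Gm r) = if i = j then J else 0 := by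
  obtain ⟨p, hp, hp', hst⟩ := D.hpt U
  have hz : ∀ i : Fin n, ∃ z : PP n, (∀ g, sub (D.A g) z = z) ∧
      ∀ j, eval p (pderiv j z) = (Pi.single i 1 - D.nv U i • D.al U : Fin n → ℂ) j := by
    intro i
    refine exists_z D p _ fun w hw => ?_
    rcases hst w hw with rfl | ⟨hw1, hw2⟩
    · rw [map_one, Matrix.vecMul_one]
    · rw [vec_refl D hw1, hw2, sub_dotProduct, smul_dotProduct, D.al_nv, single_dotProduct]
      simp
  choose z hz1 hz2 using hz
  set κ : ℂ := eval p (∏ V ∈ Finset.univ.erase U, lin (D.al V) ^ r V) with hκ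
  have hκ0 : κ ≠ 0 := rest_ne D r U hp'
  have hG : ∀ j, eval p (pderiv j (D.Gm r)) = κ * D.al U j := by
    intro j
    rw [Gm_split D r U, hr, pow_one, Derivation.leibniz, smul_eq_mul, smul_eq_mul, map_add,
      map_mul, map_mul, eval_lin, hp, zero_mul, zero_add, pderiv_lin', eval_C]
  set M : Matrix (Fin n) (Fin n) (PP n) :=
    Matrix.of fun i j => pderiv j (z i) + C (D.nv U i * κ⁻¹) * pderiv j (D.Gm r) with hM
  have hM1 : (eval p).mapMatrix M = 1 := by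
    ext i j
    rw [RingHom.mapMatrix_apply, Matrix.map_apply, hM, Matrix.of_apply, map_add, map_mul, eval_C,
      hz2, hG, Matrix.one_apply, Pi.sub_apply, Pi.smul_apply, smul_eq_mul, Pi.single_apply]
    field_simp
    simp [eq_comm]
  refine ⟨M.det, fun i k => M.adjugate i k, fun i => ∑ k, M.adjugate i k * C (D.nv U k * κ⁻¹), z,
    not_dvd_of_eval D hp ?_, hz1, fun i j => ?_⟩
  · rw [RingHom.map_det, hM1, Matrix.det_one]
    exact one_ne_zero
  · have h := congrFun (congrFun (Matrix.adjugate_mul M) i) j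
    rw [Matrix.mul_apply, Matrix.smul_apply, Matrix.one_apply, smul_eq_mul, mul_ite, mul_one,
      mul_zero] at h
    rw [← h, Finset.sum_mul, ← Finset.sum_add_distrib]
    refine Finset.sum_congr rfl fun k _ => ?_
    rw [hM, Matrix.of_apply]
    ring

end Pool.Agent.P.MP_97ea17_al.Cx.RD
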