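import Pool.Agent.P.MP_97ea17_al.F.C1

/-! Calculus of symbols. -/

namespace Pool.Agent.P.MP_97ea17_al.Cx

open MvPolynomial
open scoped Matrix

variable {n : ℕ}

theorem coeff_coD (i : Fin n) (q : Sy n) (β : Fin n →₀ ℕ) :
    coeff β (coD i q) = dK i (coeff β q) := by
  unfold coD
  rw [coeff_sum]
  simp only [coeff_monomial]
  rw [Finset.sum_ite_eq']
  split_ifs with h
  · rfl
  · rw [notMem_support_iff.1 h, map_zero]

theorem totalDegree_coD (i : Fin n) (q : Sy n) : (coD i q).totalDegree ≤ q.totalDegree := by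
  refine totalDegree_le_of_support_subset fun β hβ => ?_
  rw [mem_support_iff] at hβ ⊢
  intro h
  exact hβ (by rw [coeff_coD, h, map_zero])

namespace C2Aux

theorem prod_add {M : Type} [Monoid M] : ∀ {m : ℕ} (N : Fin m → M),
    (∀ i j, Commute (N i) (N j)) → ∀ β γ : Fin m → ℕ,
    (List.ofFn fun j => N j ^ (β j + γ j)).prod
      = (List.ofFn fun j => N j ^ β j).prod * (List.ofFn fun j => N j ^ γ j).prod
  | 0, _, _, _, _ => by simp
  | m + 1, N, h, β, γ => by
    simp only [List.ofFn_succ, List.prod_cons]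
    rw [prod_add (fun j => N j.succ) (fun i j => h _ _) (fun j => β j.succ) fun j => γ j.succ,
      pow_add]
    have : Commute (N 0 ^ γ 0) (List.ofFn fun j : Fin m => N j.succ ^ β j.succ).prod := by
      refine Commute.list_prod_right _ _ fun x hx => ?_
      obtain ⟨j, rfl⟩ := List.mem_ofFn.1 hx
      exact (h _ _).pow_pow _ _
    simp only [mul_assoc]
    rw [← mul_assoc (N 0 ^ γ 0), this.eq, mul_assoc]

theorem prod_single {M : Type} [Monoid M] : ∀ {m : ℕ} (f : Fin m → M) (i : Fin m),
    (∀ j, j ≠ i → f j = 1) → (List.ofFn f).prod = f i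
  | 0, _, i, _ => i.elim0
  | m + 1, f, i, h => by
    rw [List.ofFn_succ, List.prod_cons]
    refine Fin.cases (fun h => ?_) (fun i h => ?_) i h
    · rw [List.prod_eq_one, mul_one]
      intro x hx
      obtain ⟨j, rfl⟩ := List.mem_ofFn.1 hx
      exact h _ (Fin.succ_ne_zero j)
    · rw [h 0 (Fin.succ_ne_zero i).symm, one_mul]
      exact prod_single (fun j => f j.succ) i fun j hj => h _ fun e => hj (Fin.succ_injective _ e)

theorem exp_ind {P : (Fin n →₀ ℕ) → Prop} (h0 : P 0)
    (hs : ∀ i β, P β → P (Finsupp.single i 1 + β)) (β : Fin n →₀ ℕ) : P β := by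
  induction β using Finsupp.induction with
  | zero => exact h0
  | single_add a b f _ _ ih =>
    induction b with
    | zero => simpa using ih
    | succ b ihb =>
      rw [add_comm b, Finsupp.single_add, add_assoc]
      by_cases hb : b = 0
      · subst hb; simpa using hs a f ih
      · exact hs a _ (ihb hb)

theorem coD_add (i : Fin n) (p q : Sy n) : coD i (p + q) = coD i p + coD i q := by
  ext β; simp only [coeff_coD, coeff_add, map_add]

theorem coD_monomial (i : Fin n) (β : Fin n →₀ ℕ) (a : KK n) :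
    coD i (monomial β a) = monomial β (dK i a) := by
  ext γ
  simp only [coeff_coD, coeff_monomial]
  split_ifs
  · rfl
  · exact map_zero _

theorem coD_map (i : Fin n) (p : PP n) : coD i (map (algebraMap ℂ (KK n)) p) = 0 := by
  ext γ
  rw [coeff_coD, coeff_map, Derivation.map_algebraMap, coeff_zero]

theorem smul_eq_mu (a : KK n) (L : Module.End ℂ (KK n)) : a • L = mu a * L := rfl

theorem mu_alg (c : ℂ) (L : Module.End ℂ (KK n)) : mu (algebraMap ℂ (KK n) c) * L = c • L := by
  ext f
  exact (Algebra.smul_def c (L f)).symm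

theorem mu_mu (a b : KK n) : mu a * mu b = mu b * mu a := by
  ext f
  exact mul_left_comm a b f

theorem X_mul_mon (i : Fin n) (β : Fin n →₀ ℕ) (a : KK n) :
    X i * monomial β a = monomial (Finsupp.single i 1 + β) a := by
  rw [X, monomial_mul, one_mul]

/-- all monomials have degree below `e` -/
def Low (q : Sy n) (e : ℕ) : Prop := ∀ γ : Fin n →₀ ℕ, e ≤ γ.degree → coeff γ q = 0

theorem Low.add {p q : Sy n} {e : ℕ} (hp : Low p e) (hq : Low q e) : Low (p + q) e :=
  fun γ h => by rw [coeff_add, hp γ h, hq γ h, add_zero]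

theorem Low.mono {p : Sy n} {e e' : ℕ} (hp : Low p e) (h : e ≤ e') : Low p e' :=
  fun γ h' => hp γ (h.trans h')

theorem Low.sum {α : Type} {s : Finset α} {f : α → Sy n} {e : ℕ} (h : ∀ a ∈ s, Low (f a) e) :
    Low (∑ a ∈ s, f a) e :=
  fun γ h' => by rw [coeff_sum]; exact Finset.sum_eq_zero fun a ha => h a ha γ h'

theorem Low.C_mul {p : Sy n} {e : ℕ} (hp : Low p e) (a : KK n) : Low (C a * p) e :=
  fun γ h => by rw [coeff_C_mul, hp γ h, mul_zero]

theorem Low.coD {p : Sy n} {e : ℕ} (hp : Low p e) (i : Fin n) : Low (coD i p) e :=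
  fun γ h => by rw [coeff_coD, hp γ h, map_zero]

theorem Low.X_mul {p : Sy n} {e : ℕ} (hp : Low p (e - 1)) (i : Fin n) : Low (X i * p) e := by
  intro γ h
  rw [coeff_X_mul']
  split_ifs with hi
  · refine hp _ ?_
    have h1 : Finsupp.single i 1 ≤ γ := by
      rw [Finsupp.single_le_iff]; exact Nat.pos_of_ne_zero (Finsupp.mem_support_iff.1 hi)
    have h2 : γ.degree = (γ - Finsupp.single i 1).degree + 1 := by
      conv_lhs => rw [← tsub_add_cancel_of_le h1, map_add, Finsupp.degree_single]
    omega
  · rfl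

theorem Low.pderiv {p : Sy n} {e : ℕ} (hp : Low p (e + 1)) (i : Fin n) : Low (pderiv i p) e := by
  intro γ h
  rw [coeff_pderiv, hp, zero_mul]
  rw [map_add, Finsupp.degree_single]
  omega

theorem low_of_le {p : Sy n} {d : ℕ} (h : p.totalDegree ≤ d) : Low p (d + 1) := by
  intro γ h'
  refine coeff_eq_zero_of_totalDegree_lt ?_
  rw [← Finsupp.degree_apply]
  omega

theorem Low.le {p : Sy n} {d : ℕ} (h : Low p (d + 1)) : p.totalDegree ≤ d := by
  refine Finset.sup_le fun γ hγ => ?_
  by_contra h1
  exact mem_support_iff.1 hγ (h γ (not_le.1 h1))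

theorem Low.comp {p : Sy n} {d : ℕ} (h : Low p d) : homogeneousComponent d p = 0 := by
  ext γ
  rw [coeff_homogeneousComponent]
  split_ifs with e
  · exact h γ e.ge
  · rfl

theorem low_mon (β : Fin n →₀ ℕ) (a : KK n) : Low (monomial β a) (β.degree + 1) := by
  intro γ h
  rw [coeff_monomial, if_neg]
  rintro rfl
  omega

theorem comp_pderiv (d : ℕ) (i : Fin n) (q : Sy n) :
    homogeneousComponent d (pderiv i q) = pderiv i (homogeneousComponent (d + 1) q) := by
  ext γ
  simp only [coeff_homogeneousComponent, coeff_pderiv, map_add, Finsupp.degree_single,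
    Nat.add_right_cancel_iff]
  split_ifs
  · rfl
  · rw [zero_mul]

theorem comp_mon (d : ℕ) (β : Fin n →₀ ℕ) (a : KK n) :
    homogeneousComponent d (monomial β a) = if d = β.degree then monomial β a else 0 :=
  homogeneousComponent_of_mem (isHomogeneous_monomial a rfl)

theorem deg_le {q : Sy n} {β : Fin n →₀ ℕ} (h : β ∈ q.support) : β.degree ≤ q.totalDegree :=
  le_totalDegree h

variable {G ι : Type} [Group G] [Fintype G] [DecidableEq G] [Fintype ι] [DecidableEq ι]
variable (D : RD n G ι)

/-- ordered product of powers of the twisted derivatives -/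
noncomputable def Pw (E : ι → ℂ) (β : Fin n →₀ ℕ) : Module.End ℂ (KK n) :=
  (List.ofFn fun i => D.nab E (Pi.single i 1) ^ β i).prod

theorem Op_mon (E : ι → ℂ) (β : Fin n →₀ ℕ) (a : KK n) :
    D.Op E (monomial β a) = mu a * Pw D E β := by
  have : monomial β a = a • basisMonomials (Fin n) (KK n) β := by
    rw [coe_basisMonomials, smul_monomial, smul_eq_mul, mul_one]
  rw [this, map_smul, RD.Op, Module.Basis.constr_basis]
  rfl

theorem Pw_zero (E : ι → ℂ) : Pw D E 0 = 1 := by
  simp [Pw]

theorem Pw_succ (E : ι → ℂ) (i : Fin n) (β : Fin n →₀ ℕ) :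
    Pw D E (Finsupp.single i 1 + β) = D.nab E (Pi.single i 1) * Pw D E β := by
  unfold Pw
  simp only [Finsupp.add_apply]
  rw [prod_add _ fun _ _ => D.nab_comm E _ _, prod_single _ i fun j hj => by
    rw [Finsupp.single_eq_of_ne hj, pow_zero], Finsupp.single_eq_same, pow_one]

theorem mu_one : mu (1 : KK n) = 1 := by
  ext f
  exact one_mul f

theorem nab_mu1 (E : ι → ℂ) (i : Fin n) (f : KK n) :
    D.nab E (Pi.single i 1) * mu f = mu f * D.nab E (Pi.single i 1) + mu (dK i f) := by
  rw [D.nab_mu, Finset.sum_eq_single i, Pi.single_eq_same, one_smul]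
  · intro j _ hj
    rw [Pi.single_eq_of_ne hj, zero_smul]
  · simp

theorem gact_C (w : G) (a : KK n) : D.gact w (C a) = C (D.tK w a) := eval₂Hom_C _ _ _

theorem gact_X (w : G) (i : Fin n) :
    D.gact w (X i) = ∑ j, C (algebraMap ℂ (KK n) (D.A w⁻¹ j i)) * X j := eval₂Hom_X' _ _ _

theorem gact_hom (w : G) {q : Sy n} {d : ℕ} (h : q.IsHomogeneous d) :
    (D.gact w q).IsHomogeneous d := by
  have := h.eval₂ (C.comp (D.tK w : KK n →+* KK n))
    (fun i => ∑ j, C (algebraMap ℂ (KK n) (D.A w⁻¹ j i)) * X j) (n := 1)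
    (fun r => isHomogeneous_C _ _)
    (fun i => IsHomogeneous.sum _ _ _ fun j _ => (isHomogeneous_X _ j).C_mul _)
  rwa [one_mul] at this

/-- symbols with coefficients in `SK` -/
noncomputable def coR : Subsemiring (Sy n) where
  carrier := {q | D.CoS q}
  add_mem' hp hq β := by rw [coeff_add]; exact add_mem (hp β) (hq β)
  mul_mem' hp hq β := by
    rw [coeff_mul]; exact sum_mem fun x _ => mul_mem (hp _) (hq _)
  zero_mem' β := by rw [coeff_zero]; exact zero_mem _
  one_mem' β := by
    rw [coeff_one]; split_ifs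
    exacts [one_mem _, zero_mem _]

theorem mon_mem {a : KK n} (ha : a ∈ D.SK) (β : Fin n →₀ ℕ) : monomial β a ∈ coR D := by
  intro γ
  rw [coeff_monomial]; split_ifs
  exacts [ha, zero_mem _]

end C2Aux

open C2Aux

namespace RD

variable {G ι : Type} [Group G] [Fintype G] [DecidableEq G] [Fintype ι] [DecidableEq ι]
variable (D : RD n G ι)

theorem Op_C (E : ι → ℂ) (a : KK n) : D.Op E (C a) = mu a := by
  rw [← monomial_zero', Op_mon, Pw_zero, mul_one]

theorem Op_C_mul (E : ι → ℂ) (a : KK n) (q : Sy n) : D.Op E (C a * q) = mu a * D.Op E q := by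
  rw [← smul_eq_C_mul, map_smul, smul_eq_mu]

theorem nab_Op (E : ι → ℂ) (i : Fin n) (q : Sy n) :
    D.nab E (Pi.single i 1) * D.Op E q = D.Op E (X i * q + coD i q) := by
  induction q using MvPolynomial.induction_on' with
  | monomial β a =>
    rw [X_mul_mon, coD_monomial, map_add, Op_mon, Op_mon, Op_mon, Pw_succ, ← mul_assoc, nab_mu1,
      add_mul, mul_assoc]
  | add p q hp hq =>
    rw [map_add, mul_add, hp, hq, ← map_add, coD_add, mul_add, add_add_add_comm]

theorem T_Op {E : ι → ℂ} (hE : D.Inv E) (w : G) (q : Sy n) :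
    D.T w * D.Op E q = D.Op E (D.gact w q) * D.T w := by
  have key : ∀ β : Fin n →₀ ℕ,
      (∃ p : PP n, map (algebraMap ℂ (KK n)) p = D.gact w (monomial β 1)) ∧
      D.T w * Pw D E β = D.Op E (D.gact w (monomial β 1)) * D.T w := by
    intro β
    induction β using exp_ind with
    | h0 =>
      rw [monomial_zero', C_1, map_one, Pw_zero, ← C_1, Op_C, mu_one, mul_one, one_mul]
      exact ⟨⟨1, by rw [map_one, C_1]⟩, rfl⟩
    | hs i β ih =>
      obtain ⟨⟨p, hp⟩, ih⟩ := ih
      rw [← X_mul_mon, map_mul, gact_X]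
      refine ⟨⟨(∑ j, C (D.A w⁻¹ j i) * X j) * p, ?_⟩, ?_⟩
      · rw [map_mul, hp, map_sum]
        simp only [map_mul, map_C, map_X]
      · rw [Pw_succ, ← mul_assoc, D.T_nab hE, mul_assoc, ih, ← mul_assoc, D.nab_sum,
          Finset.sum_mul _ _ (D.Op E _), Finset.sum_mul _ _ (D.gact w _), map_sum]
        congr 1
        refine Finset.sum_congr rfl fun j _ => ?_
        rw [smul_mul_assoc, nab_Op, ← hp, coD_map, add_zero, mul_assoc, Op_C_mul, mu_alg,
          Matrix.mulVec_single_one]
        rfl
  induction q using MvPolynomial.induction_on' with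
  | monomial β a =>
    rw [Op_mon, ← mul_assoc, D.T_mu, mul_assoc, (key β).2, ← mul_assoc, ← Op_C_mul, ← gact_C,
      ← map_mul, C_mul_monomial, mul_one]
  | add p q hp hq => rw [map_add, mul_add, hp, hq, map_add, map_add, add_mul]

theorem gact_one (q : Sy n) : D.gact 1 q = q := by
  have : D.gact 1 = RingHom.id _ := by
    refine MvPolynomial.ringHom_ext (fun a => ?_) fun i => ?_
    · rw [gact_C, ← T_apply, T_one]; rfl
    · rw [gact_X, inv_one, map_one, Finset.sum_eq_single i]
      · simp
      · intro j _ hj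
        simp [Matrix.one_apply_ne hj]
      · simp
  rw [this]; rfl

theorem gact_mul (w w' : G) (q : Sy n) : D.gact (w * w') q = D.gact w' (D.gact w q) := by
  have : D.gact (w * w') = (D.gact w').comp (D.gact w) := by
    refine MvPolynomial.ringHom_ext (fun a => ?_) fun i => ?_
    · rw [RingHom.comp_apply, gact_C, gact_C, gact_C, ← T_apply, T_mul]; rfl
    · rw [RingHom.comp_apply, gact_X, gact_X, map_sum, mul_inv_rev, map_mul]
      simp only [map_mul, gact_C, gact_X, AlgHom.commutes, Matrix.mul_apply, map_sum,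
        Finset.sum_mul, Finset.mul_sum]
      rw [Finset.sum_comm]
      exact Finset.sum_congr rfl fun _ _ => Finset.sum_congr rfl fun _ _ => by ring
  rw [this]; rfl

theorem gact_homComp (w : G) (d : ℕ) (q : Sy n) :
    homogeneousComponent d (D.gact w q) = D.gact w (homogeneousComponent d q) := by
  induction q using MvPolynomial.induction_on' with
  | monomial β a =>
    rw [comp_mon, homogeneousComponent_of_mem (gact_hom D w (isHomogeneous_monomial a rfl))]
    split_ifs
    · rfl
    · rw [map_zero]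
  | add p q hp hq => rw [map_add, map_add, map_add, map_add, hp, hq]

theorem totalDegree_gact (w : G) (q : Sy n) : (D.gact w q).totalDegree ≤ q.totalDegree := by
  conv_lhs => rw [q.as_sum, map_sum]
  exact totalDegree_finsetSum_le fun β hβ =>
    (gact_hom D w (isHomogeneous_monomial _ rfl)).totalDegree_le.trans (deg_le hβ)

theorem CoS.gact {D : RD n G ι} {q : Sy n} (h : D.CoS q) (w : G) : D.CoS (D.gact w q) := by
  refine eval₂_mem (s := coR D) (fun β _ => mon_mem D (D.tK_mem_SK w (h β)) 0) fun i => ?_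
  exact sum_mem fun j _ => mul_mem (mon_mem D (Subalgebra.algebraMap_mem _ _) 0)
    (mon_mem D (one_mem _) _)

theorem CoS.add {D : RD n G ι} {p q : Sy n} (hp : D.CoS p) (hq : D.CoS q) : D.CoS (p + q) := by
  exact (coR D).add_mem hp hq

theorem CoS.mul {D : RD n G ι} {p q : Sy n} (hp : D.CoS p) (hq : D.CoS q) : D.CoS (p * q) := by
  exact (coR D).mul_mem hp hq

theorem CoS.C {D : RD n G ι} {a : KK n} (ha : a ∈ D.SK) : D.CoS (C a) := by
  exact mon_mem D ha 0

theorem CoS.X (i : Fin n) : D.CoS (X i) := by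
  exact mon_mem D (one_mem _) _

theorem CoS.coD {D : RD n G ι} {q : Sy n} (h : D.CoS q) (i : Fin n) : D.CoS (coD i q) := by
  intro β
  rw [coeff_coD]
  exact D.dK_mem_SK i (h β)

theorem Op_comm (z : KK n) (d : ℕ) (q : Sy n) (hq : q.totalDegree ≤ d + 1) :
    ∃ q' : Sy n, q'.totalDegree ≤ d ∧
      homogeneousComponent d q' = ∑ i, C (dK i z) * pderiv i (homogeneousComponent (d + 1) q) ∧
      (z ∈ D.SK → D.CoS q → D.CoS q') ∧
      ∀ E, D.Op E q * mu z - mu z * D.Op E q = D.Op E q' := by
  have key : ∀ β : Fin n →₀ ℕ, ∃ r : Sy n,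
      Low (r - ∑ i, C (dK i z) * pderiv i (monomial β 1)) (β.degree - 1) ∧
      (z ∈ D.SK → D.CoS r) ∧ ∀ E, Pw D E β * mu z - mu z * Pw D E β = D.Op E r := by
    intro β
    induction β using exp_ind with
    | h0 =>
      refine ⟨0, fun γ _ => by simp, fun _ => (coR D).zero_mem, fun E => ?_⟩
      rw [Pw_zero, one_mul, mul_one, sub_self, map_zero]
    | hs i β ih =>
      obtain ⟨r, h1, h2, h3⟩ := ih
      refine ⟨X i * r + coD i r + monomial β (dK i z), ?_, fun hz => ?_, fun E => ?_⟩
      · have e : X i * r + coD i r + monomial β (dK i z)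
            - ∑ j, C (dK j z) * pderiv j (monomial (Finsupp.single i 1 + β) 1)
            = X i * (r - ∑ j, C (dK j z) * pderiv j (monomial β 1)) + coD i r := by
          rw [← X_mul_mon]
          simp only [Derivation.leibniz, smul_eq_mul, mul_add, Finset.sum_add_distrib]
          rw [Finset.sum_eq_single i (f := fun j => C (dK j z) * (monomial β 1 * pderiv j (X i)))]
          · rw [pderiv_X_self, mul_one, C_mul_monomial, mul_one, mul_sub, Finset.mul_sum,
              Finset.sum_congr rfl fun j _ => mul_left_comm (X i) (C (dK j z)) _]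
            ring
          · intro j _ hj
            rw [pderiv_X_of_ne hj.symm, mul_zero, mul_zero]
          · simp
        rw [e, map_add, Finsupp.degree_single, Nat.add_sub_cancel_left]
        refine (h1.X_mul i).add (Low.coD ?_ i)
        rw [← sub_add_cancel r (∑ j, C (dK j z) * pderiv j (monomial β 1))]
        exact (h1.mono (Nat.sub_le _ _)).add
          (Low.sum fun j _ => ((low_mon β 1).pderiv j).C_mul _)
      · exact (((CoS.X D i).mul (h2 hz)).add ((h2 hz).coD i)).add
          (mon_mem D (D.dK_mem_SK i hz) β)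
      · rw [map_add, ← nab_Op, ← h3, Op_mon, Pw_succ, mul_sub, ← mul_assoc _ (mu z), nab_mu1,
          add_mul, mul_assoc, mul_assoc]
        abel
  choose r h1 h2 h3 using key
  have L : Low (∑ β ∈ q.support, C (coeff β q) * r β - ∑ i, C (dK i z) * pderiv i q) d := by
    have e : ∑ i, C (dK i z) * pderiv i q
        = ∑ β ∈ q.support, C (coeff β q) * ∑ i, C (dK i z) * pderiv i (monomial β 1) := by
      conv_lhs => rw [q.as_sum]
      simp only [map_sum, Finset.mul_sum]
      rw [Finset.sum_comm]
      refine Finset.sum_congr rfl fun β _ => Finset.sum_congr rfl fun i _ => ?_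
      rw [mul_left_comm, ← pderiv_C_mul (a := coeff β q), C_mul_monomial, mul_one]
    rw [e, ← Finset.sum_sub_distrib]
    refine Low.sum fun β hβ => ?_
    rw [← mul_sub]
    exact ((h1 β).mono (by have := deg_le hβ; omega)).C_mul _
  refine ⟨∑ β ∈ q.support, C (coeff β q) * r β, Low.le ?_, ?_, fun hz hc => ?_, fun E => ?_⟩
  · rw [← sub_add_cancel (∑ β ∈ q.support, C (coeff β q) * r β) (∑ i, C (dK i z) * pderiv i q)]
    exact (L.mono (Nat.le_succ d)).add
      (Low.sum fun j _ => ((low_of_le hq).pderiv j).C_mul _)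
  · have := L.comp
    rw [map_sub, sub_eq_zero] at this
    rw [this, map_sum]
    exact Finset.sum_congr rfl fun i _ => by rw [homogeneousComponent_C_mul, comp_pderiv]
  · exact (coR D).sum_mem fun β _ => (CoS.C (hc β)).mul (h2 β hz)
  · conv_lhs => rw [q.as_sum]
    rw [map_sum, map_sum, Finset.sum_mul, Finset.mul_sum, ← Finset.sum_sub_distrib]
    refine Finset.sum_congr rfl fun β _ => ?_
    rw [Op_C_mul, ← h3, Op_mon, mul_sub, ← mul_assoc (mu z), mu_mu z, mul_assoc, mul_assoc]

theorem Op_shift {F : KK n} {k : ι → ℂ} (hF : ∀ i, dK i F = F * D.lg k (Pi.single i 1))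
    (E : ι → ℂ) (q : Sy n) (f : KK n) : D.Op E q (F * f) = F * D.Op (E + k) q f := by
  have key : ∀ β : Fin n →₀ ℕ, Pw D E β (F * f) = F * Pw D (E + k) β f := by
    intro β
    induction β using exp_ind with
    | h0 => rw [Pw_zero, Pw_zero]; rfl
    | hs i β ih =>
      rw [Pw_succ, Pw_succ, Module.End.mul_apply, Module.End.mul_apply, ih, nab_single, nab_single,
        Derivation.leibniz, hF, lg_add, smul_eq_mul, smul_eq_mul]
      ring
  induction q using MvPolynomial.induction_on' with
  | monomial β a =>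
    rw [Op_mon, Op_mon, Module.End.mul_apply, Module.End.mul_apply, key, mu_apply, mu_apply,
      mul_left_comm]
  | add p q hp hq =>
    rw [map_add, map_add, LinearMap.add_apply, LinearMap.add_apply, hp, hq, mul_add]

theorem Op_poly (E k : ι → ℂ) (d : ℕ) (q : Sy n) (hq : q.totalDegree ≤ d) (f : KK n) :
    ∃ p : Polynomial (KK n), p.natDegree ≤ d ∧
      p.coeff d = eval (fun i => D.lg k (Pi.single i 1)) (homogeneousComponent d q) * f ∧
      ∀ j : ℂ, D.Op (E + j • k) q f = p.eval (algebraMap ℂ (KK n) j) := by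
  have key : ∀ β : Fin n →₀ ℕ, ∃ p : Polynomial (KK n), p.natDegree ≤ β.degree ∧
      p.coeff β.degree = eval (fun i => D.lg k (Pi.single i 1)) (monomial β 1) * f ∧
      ∀ j : ℂ, Pw D (E + j • k) β f = p.eval (algebraMap ℂ (KK n) j) := by
    intro β
    induction β using exp_ind with
    | h0 =>
      refine ⟨Polynomial.C f, by simp, by simp, fun j => ?_⟩
      rw [Pw_zero, Polynomial.eval_C]; rfl
    | hs i β ih =>
      obtain ⟨p, h1, h2, h3⟩ := ih
      have h4 : (∑ m ∈ Finset.range (β.degree + 1),
          Polynomial.monomial m (D.nab E (Pi.single i 1) (p.coeff m))).natDegree ≤ β.degree :=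
        Polynomial.natDegree_sum_le_of_forall_le _ _ fun m hm =>
          (Polynomial.natDegree_monomial_le _).trans (Nat.lt_succ_iff.1 (Finset.mem_range.1 hm))
      rw [map_add, Finsupp.degree_single, add_comm 1]
      refine ⟨∑ m ∈ Finset.range (β.degree + 1),
          Polynomial.monomial m (D.nab E (Pi.single i 1) (p.coeff m))
        + Polynomial.C (D.lg k (Pi.single i 1)) * (Polynomial.X * p), ?_, ?_, fun j => ?_⟩
      · refine Polynomial.natDegree_add_le_of_degree_le (h4.trans (Nat.le_succ _)) ?_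
        refine (Polynomial.natDegree_C_mul_le _ _).trans (Polynomial.natDegree_mul_le.trans ?_)
        have := Polynomial.natDegree_X_le (R := KK n)
        omega
      · rw [Polynomial.coeff_add, Polynomial.coeff_eq_zero_of_natDegree_lt (Nat.lt_succ_of_le h4),
          zero_add, Polynomial.coeff_C_mul, Polynomial.coeff_X_mul, h2, ← X_mul_mon, map_mul,
          eval_X, mul_assoc]
      · have e : D.nab E (Pi.single i 1) (p.eval (algebraMap ℂ (KK n) j))
            = (∑ m ∈ Finset.range (β.degree + 1), Polynomial.monomial m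
              (D.nab E (Pi.single i 1) (p.coeff m))).eval (algebraMap ℂ (KK n) j) := by
          rw [Polynomial.eval_eq_sum_range' (Nat.lt_succ_of_le h1), map_sum,
            Polynomial.eval_finsetSum]
          refine Finset.sum_congr rfl fun m _ => ?_
          rw [Polynomial.eval_monomial, ← map_pow, mul_comm, ← Algebra.smul_def, map_smul,
            Algebra.smul_def, mul_comm]
        rw [Pw_succ, Module.End.mul_apply, h3, Polynomial.eval_add, ← e, nab_single, nab_single,
          lg_add, lg_smul, Polynomial.eval_mul, Polynomial.eval_mul, Polynomial.eval_C,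
          Polynomial.eval_X, Algebra.smul_def]
        ring
  choose p h1 h2 h3 using key
  refine ⟨∑ β ∈ q.support, Polynomial.C (coeff β q) * p β, ?_, ?_, fun j => ?_⟩
  · exact Polynomial.natDegree_sum_le_of_forall_le _ _ fun β hβ =>
      (Polynomial.natDegree_C_mul_le _ _).trans ((h1 β).trans ((deg_le hβ).trans hq))
  · conv_rhs => rw [q.as_sum]
    rw [Polynomial.finsetSum_coeff, map_sum, map_sum, Finset.sum_mul]
    refine Finset.sum_congr rfl fun β hβ => ?_
    rw [Polynomial.coeff_C_mul, comp_mon]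
    split_ifs with e
    · rw [e, h2, eval_monomial, eval_monomial, one_mul, mul_assoc]
    · have := h1 β
      have := deg_le hβ
      rw [Polynomial.coeff_eq_zero_of_natDegree_lt (by omega), map_zero, mul_zero, zero_mul]
  · conv_lhs => rw [q.as_sum]
    rw [map_sum, LinearMap.sum_apply, Polynomial.eval_finsetSum]
    refine Finset.sum_congr rfl fun β _ => ?_
    rw [Op_mon, Module.End.mul_apply, mu_apply, h3, Polynomial.eval_mul, Polynomial.eval_C]

end RD

end Pool.Agent.P.MP_97ea17_al.Cx
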