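import Pool.Agent.P.MP_97ea17_al.F.C1b
import Pool.Agent.P.MP_97ea17_al.F.C2

/-! The leading symbol of an operator of the class `Cl` has polynomial coefficients. -/

namespace Pool.Agent.P.MP_97ea17_al.Cx.C3Aux

open MvPolynomial
open scoped Matrix

variable {n : ℕ}

theorem PK_toK (p : PP n) : toK p ∈ PK n := ⟨p, rfl⟩

theorem PK_mul {f g : KK n} (hf : f ∈ PK n) (hg : g ∈ PK n) : f * g ∈ PK n := by
  obtain ⟨p, rfl⟩ := mem_PK.1 hf
  obtain ⟨q, rfl⟩ := mem_PK.1 hg
  exact mem_PK.2 ⟨p * q, map_mul _ _ _⟩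

theorem PK_nat {f : KK n} (hf : f ∈ PK n) (a : ℕ) : (a : KK n) * f ∈ PK n := by
  rw [← nsmul_eq_mul]
  exact nsmul_mem hf a

theorem PK_of_nat {f : KK n} (a : ℕ) (h : f * ((a : KK n) + 1) ∈ PK n) : f ∈ PK n := by
  have h1 : ((a : ℂ) + 1) ≠ 0 := Nat.cast_add_one_ne_zero a
  have h2 : f * ((a : KK n) + 1) = ((a : ℂ) + 1) • f := by
    rw [Algebra.smul_def, map_add, map_natCast, map_one, mul_comm]
  rw [h2] at h
  have := (PK n).smul_mem ((a : ℂ) + 1)⁻¹ h
  rwa [smul_smul, inv_mul_cancel₀ h1, one_smul] at this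

/-- Directional derivative of a symbol. -/
noncomputable def Dz (v : Fin n → KK n) (σ : Sy n) : Sy n := ∑ i, C (v i) * pderiv i σ

theorem pd_comm (i j : Fin n) (σ : Sy n) : pderiv i (pderiv j σ) = pderiv j (pderiv i σ) := by
  ext β
  simp only [coeff_pderiv]
  rw [add_right_comm β (Finsupp.single i 1)]
  by_cases h : i = j
  · subst h
    rfl
  · simp only [Finsupp.add_apply, Finsupp.single_eq_of_ne h, Finsupp.single_eq_of_ne (Ne.symm h),
      add_zero]
    ring

theorem Dz_comm (v w : Fin n → KK n) (σ : Sy n) : Dz v (Dz w σ) = Dz w (Dz v σ) := by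
  simp only [Dz, map_sum, pderiv_C_mul, Finset.mul_sum]
  rw [Finset.sum_comm]
  refine Finset.sum_congr rfl fun i _ => Finset.sum_congr rfl fun j _ => ?_
  rw [pd_comm]
  ring

theorem Dz_hom (v : Fin n → KK n) {σ : Sy n} {d : ℕ} (h : σ.IsHomogeneous (d + 1)) :
    (Dz v σ).IsHomogeneous d :=
  IsHomogeneous.sum _ _ _ fun i _ => (h.pderiv (i := i)).C_mul _

theorem eval_Dz (e : Fin n → KK n) {σ : Sy n} {d : ℕ} (h : σ.IsHomogeneous d) :
    eval e (Dz e σ) = (d : KK n) * eval e σ := by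
  have := congrArg (eval e) h.sum_X_mul_pderiv
  simp only [map_sum, map_mul, eval_X, nsmul_eq_mul, map_natCast] at this
  simp only [Dz, map_sum, map_mul, eval_C, this]

theorem eval_scale {σ : Sy n} {d : ℕ} (h : σ.IsHomogeneous d) (c : KK n) (x : Fin n → KK n) :
    eval (fun i => c * x i) σ = c ^ d * eval x σ := by
  rw [eval_eq', eval_eq', Finset.mul_sum]
  refine Finset.sum_congr rfl fun β hβ => ?_
  have h1 : ∑ i, β i = d := by
    by_contra h2
    refine mem_support_iff.1 hβ (h.coeff_eq_zero ?_)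
    rwa [Finsupp.degree_eq_sum]
  simp_rw [mul_pow, Finset.prod_mul_distrib, Finset.prod_pow_eq_pow_sum, h1]
  ring

/-- Symbols all of whose iterated derivatives along `Z` have a polynomial value at `e`. -/
def Good (Z : Set (Fin n → KK n)) (e : Fin n → KK n) : ℕ → Sy n → Prop
  | 0, σ => eval e σ ∈ PK n
  | d + 1, σ => eval e σ ∈ PK n ∧ ∀ v ∈ Z, Good Z e d (Dz v σ)

theorem good_e {Z : Set (Fin n → KK n)} {e : Fin n → KK n} : ∀ (d : ℕ) {σ : Sy n},
    σ.IsHomogeneous (d + 1) → Good Z e (d + 1) σ → Good Z e d (Dz e σ)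
  | 0, σ, h, hg => by
    change eval e (Dz e σ) ∈ PK n
    rw [eval_Dz e h]
    exact PK_nat hg.1 _
  | d + 1, σ, h, hg => by
    refine ⟨?_, fun v hv => ?_⟩
    · rw [eval_Dz e h]
      exact PK_nat hg.1 _
    · rw [Dz_comm]
      exact good_e d (Dz_hom v h) (hg.2 v hv)

theorem good_coeff {Z : Set (Fin n → KK n)} {e : Fin n → KK n} {J : KK n}
    {u : Fin n → Fin n → KK n} {w : Fin n → KK n} {z : Fin n → Fin n → KK n}
    (hu : ∀ i k, u i k ∈ PK n) (hw : ∀ i, w i ∈ PK n) (hz : ∀ k, z k ∈ Z)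
    (hJ : ∀ i j, ∑ k, u i k * z k j + w i * e j = if i = j then J else 0) :
    ∀ (d : ℕ) {σ : Sy n}, σ.IsHomogeneous d → Good Z e d σ → ∀ β, J ^ d * coeff β σ ∈ PK n
  | 0, σ, h, hg, β => by
    have h1 : σ = C (coeff 0 σ) := totalDegree_eq_zero_iff_eq_C.1
      ((totalDegree_zero_iff_isHomogeneous (Fin n)).2 h)
    have h2 : coeff 0 σ ∈ PK n := by
      have h3 : eval e σ ∈ PK n := hg
      rwa [h1, eval_C] at h3
    rw [pow_zero, one_mul, h1, coeff_C]
    split_ifs
    · exact h2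
    · exact zero_mem _
  | d + 1, σ, h, hg, β => by
    by_cases hβ : β = 0
    · rw [h.coeff_eq_zero (by rw [hβ]; simp), mul_zero]
      exact zero_mem _
    obtain ⟨i, hi⟩ : ∃ i, β i ≠ 0 := by
      by_contra h1
      push Not at h1
      exact hβ (Finsupp.ext h1)
    obtain ⟨γ, rfl⟩ : ∃ γ, β = γ + Finsupp.single i 1 :=
      ⟨β - Finsupp.single i 1, (tsub_add_cancel_of_le
        (Finsupp.single_le_iff.2 (Nat.one_le_iff_ne_zero.2 hi))).symm⟩
    have h1 : C J * pderiv i σ = ∑ k, C (u i k) * Dz (z k) σ + C (w i) * Dz e σ := by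
      have h2 : ∑ j, C (∑ k, u i k * z k j + w i * e j) * pderiv j σ = C J * pderiv i σ := by
        rw [Finset.sum_eq_single i (fun j _ hj => by rw [hJ, if_neg (Ne.symm hj), C_0, zero_mul])
          (by simp), hJ, if_pos rfl]
      rw [← h2]
      simp only [Dz, Finset.mul_sum, map_add, map_sum, map_mul, add_mul, Finset.sum_mul,
        Finset.sum_add_distrib, mul_assoc]
      rw [Finset.sum_comm]
    have h3 := congrArg (coeff γ) h1
    simp only [coeff_C_mul, coeff_add, coeff_sum, coeff_pderiv] at h3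
    refine PK_of_nat (γ i) ?_
    have h4 : J ^ (d + 1) * coeff (γ + Finsupp.single i 1) σ * ((γ i : KK n) + 1) =
        ∑ k, u i k * (J ^ d * coeff γ (Dz (z k) σ)) + w i * (J ^ d * coeff γ (Dz e σ)) := by
      simp only [mul_left_comm _ (J ^ d)]
      rw [← Finset.mul_sum, ← mul_add, ← h3]
      ring
    rw [h4]
    refine add_mem (sum_mem fun k _ => PK_mul (hu i k) ?_) (PK_mul (hw i) ?_)
    · exact good_coeff hu hw hz hJ d (Dz_hom _ h) (hg.2 _ (hz k)) γ
    · exact good_coeff hu hw hz hJ d (Dz_hom _ h) (good_e d h hg) γ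

theorem top_mem {p : Polynomial (KK n)} {d : ℕ} (hp : p.natDegree ≤ d) (a : KK n) {j : ℕ → ℂ}
    (hj : Set.InjOn j (Finset.range (d + 1)))
    (h : ∀ k ≤ d, a * p.eval (algebraMap ℂ (KK n) (j k)) ∈ PK n) : a * p.coeff d ∈ PK n := by
  have h1 : Set.InjOn (fun k => algebraMap ℂ (KK n) (j k)) (Finset.range (d + 1)) :=
    fun x hx y hy hxy => hj hx hy ((algebraMap ℂ (KK n)).injective hxy)
  have h2 := Lagrange.coeff_eq_sum h1 (P := p) (by
    rw [Finset.card_range]
    exact Polynomial.degree_le_natDegree.trans_lt (by exact_mod_cast Nat.lt_succ_of_le hp))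
  rw [Finset.card_range, Nat.add_sub_cancel] at h2
  rw [h2, Finset.mul_sum]
  refine sum_mem fun k hk => ?_
  simp only [← map_sub, ← map_prod]
  rw [← mul_div_assoc, div_eq_inv_mul, ← map_inv₀, ← Algebra.smul_def]
  exact (PK n).smul_mem _ (h k (Nat.lt_succ_iff.1 (Finset.mem_range.1 hk)))

theorem node_inj {g m : ℕ} (hg : 0 < g) (hm : 0 < m) (hb : 2 * m < g + 2) :
    Function.Injective fun k : ℕ =>
      (2 * (g : ℂ)⁻¹ + 1) * ((k % m : ℕ) : ℂ) + ((m * (k / m) : ℕ) : ℂ) := by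
  intro k l h
  have hg' : (g : ℂ) ≠ 0 := Nat.cast_ne_zero.2 hg.ne'
  have h1 : (g + 2) * (k % m) + g * (m * (k / m)) = (g + 2) * (l % m) + g * (m * (l / m)) := by
    have h2 : ∀ x y : ℂ, ((g : ℂ) + 2) * x + g * y = g * ((2 * (g : ℂ)⁻¹ + 1) * x + y) := by
      intro x y
      field_simp
      ring
    have h3 := congrArg (fun x => (g : ℂ) * x) h
    simp only [← h2] at h3
    exact_mod_cast h3
  have hk := Nat.mod_lt k hm
  have hl := Nat.mod_lt l hm
  have key : ∀ a b x y : ℕ, a < m → x < y →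
      (g + 2) * a + g * (m * x) ≠ (g + 2) * b + g * (m * y) := by
    intro a b x y ha hxy
    have h4 : m * (x + 1) ≤ m * y := Nat.mul_le_mul_left m hxy
    have h5 : g * (m * (x + 1)) ≤ g * (m * y) := Nat.mul_le_mul_left g h4
    have h6 : (g + 2) * (a + 1) ≤ (g + 2) * m := Nat.mul_le_mul_left _ ha
    nlinarith [Nat.zero_le ((g + 2) * b)]
  have h7 : k / m = l / m := by
    rcases lt_trichotomy (k / m) (l / m) with h8 | h8 | h8
    · exact absurd h1 (key _ _ _ _ hk h8)
    · exact h8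
    · exact absurd h1.symm (key _ _ _ _ hl h8)
  rw [h7] at h1
  have h9 : k % m = l % m := Nat.eq_of_mul_eq_mul_left (by omega) (Nat.add_right_cancel h1)
  rw [← Nat.mod_add_div k m, ← Nat.mod_add_div l m, h7, h9]

variable {G ι : Type} [Group G] [Fintype G] [DecidableEq G] [Fintype ι] [DecidableEq ι]
variable (D : RD n G ι)

/-- Indicator of the hyperplanes with the same order as `U`. -/
def chi (U : ι) : ι → ℕ := fun V => if D.m V = D.m U then 1 else 0

theorem chi_inv (U : ι) (a : ℕ) : D.Inv (a • chi D U) := fun w V => by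
  simp only [Pi.smul_apply, chi, D.m_act]

theorem Gm_smul (a : ℕ) (r : ι → ℕ) : D.Gm (a • r) = D.Gm r ^ a := by
  simp only [RD.Gm, Pi.smul_apply, smul_eq_mul, ← Finset.prod_pow, ← pow_mul, mul_comm]

theorem eval_top (U : ι) {d : ℕ} {q : Sy n} (hq : q.totalDegree ≤ d) (h : D.Cl q) :
    eval (fun i => dK i (toK (D.Gm (chi D U)))) (homogeneousComponent d q) ∈ PK n := by
  have hm : 0 < D.m U := by have := D.two_le U; omega
  obtain ⟨p, hp1, hp2, hp3⟩ := D.Op_poly (D.EE D.c0 0) (fun V => chi D U V) d q hq 1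
  simp only [D.dK_Gm]
  rw [eval_scale (homogeneousComponent_isHomogeneous d q), ← mul_one (eval _ _), ← hp2]
  refine top_mem hp1 _ (node_inj D.g_pos hm (D.big U)).injOn fun k hk => ?_
  have ha : D.m U * (k / D.m U) ≤ d := (Nat.mul_div_le k _).trans hk
  have hadm : D.Adm ((k % D.m U) • chi D U) := by
    refine ⟨chi_inv D U _, fun V => ?_⟩
    simp only [Pi.smul_apply, chi, smul_eq_mul]
    split_ifs with hV
    · rw [hV, mul_one]
      exact Nat.mod_lt k hm
    · have := D.two_le V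
      omega
  have hinv : D.IsInv (toK (D.Gm ((D.m U * (k / D.m U)) • chi D U))) := fun w => by
    rw [D.tK_toK, D.inv_of_refl fun s hs => ?_]
    rw [D.sub_Gm_refl (chi_inv D U _) hs]
    simp only [Pi.smul_apply, chi, smul_eq_mul]
    split_ifs with hV
    · rw [mul_one, pow_mul, ← hV, D.lam_pow s hs, one_pow, one_smul]
    · rw [mul_zero, pow_zero, one_smul]
  have h1 := h.2 _ hadm _ (PK_toK _) hinv
  rw [← mul_one (toK _), D.Op_shift (D.dK_Gm _)] at h1
  have h2 : D.EE D.c0 ((k % D.m U) • chi D U) +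
      (fun V => (((D.m U * (k / D.m U)) • chi D U) V : ℂ)) = D.EE D.c0 0 +
      ((2 * (D.g : ℂ)⁻¹ + 1) * ((k % D.m U : ℕ) : ℂ) + ((D.m U * (k / D.m U) : ℕ) : ℂ)) •
        fun V => (chi D U V : ℂ) := by
    funext V
    simp only [RD.EE, RD.c0, Pi.add_apply, Pi.smul_apply, smul_eq_mul, Pi.zero_apply,
      Nat.cast_mul, Nat.cast_zero]
    ring
  rw [h2, hp3, Gm_smul, map_pow] at h1
  rw [← Nat.sub_add_cancel ha, pow_add, mul_assoc, ← map_pow]
  exact PK_mul (PK_toK _) h1

theorem good_top (U : ι) : ∀ (d : ℕ) {q : Sy n}, q.totalDegree ≤ d → D.Cl q →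
    Good {v | ∃ z, (∀ g, sub (D.A g) z = z) ∧ v = fun i => dK i (toK z)}
      (fun i => dK i (toK (D.Gm (chi D U)))) d (homogeneousComponent d q)
  | 0, _, hq, h => eval_top D U hq h
  | d + 1, q, hq, h => by
    refine ⟨eval_top D U hq h, ?_⟩
    rintro _ ⟨z, hz, rfl⟩
    obtain ⟨q', h1, h2, h3, h4⟩ := D.Op_comm (toK z) d q hq
    rw [Dz, ← h2]
    refine good_top U d h1 ⟨h3 (D.toK_mem_SK z) h.1, fun r hr f hf hi => ?_⟩
    rw [← h4]
    simp only [LinearMap.sub_apply, Module.End.mul_apply, mu_apply]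
    refine sub_mem (h.2 r hr _ (PK_mul (PK_toK z) hf) fun w => ?_)
      (PK_mul (PK_toK z) (h.2 r hr f hf hi))
    rw [map_mul, D.tK_toK, hz, hi]

end Pool.Agent.P.MP_97ea17_al.Cx.C3Aux

namespace Pool.Agent.P.MP_97ea17_al.Cx.RD

open MvPolynomial
open scoped Matrix

variable {n : ℕ} {G ι : Type} [Group G] [Fintype G] [DecidableEq G] [Fintype ι] [DecidableEq ι]
variable (D : RD n G ι)

theorem key (d : ℕ) (q : Sy n) (hq : q.totalDegree ≤ d) (h : D.Cl q) (β : Fin n →₀ ℕ) :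
    coeff β (homogeneousComponent d q) ∈ PK n := by
  refine D.mem_PK_of_SK ?_ fun U => ?_
  · rw [coeff_homogeneousComponent]
    split_ifs
    · exact h.1 β
    · exact zero_mem _
  · obtain ⟨J, u, w, z, hJ, hz, hs⟩ := D.exists_inv U (C3Aux.chi D U) (if_pos rfl)
    refine ⟨J ^ d, fun hd => hJ ((D.prime_lin U).dvd_of_dvd_pow hd), ?_⟩
    rw [map_pow]
    refine C3Aux.good_coeff (u := fun i k => toK (u i k)) (w := fun i => toK (w i))
      (z := fun k i => dK i (toK (z k))) (fun i k => C3Aux.PK_toK _) (fun i => C3Aux.PK_toK _)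
      (fun k => ?_) (fun i j => ?_) d (homogeneousComponent_isHomogeneous d q)
      (C3Aux.good_top D U d hq h) β
    · exact ⟨z k, hz k, rfl⟩
    · simp only [dK_toK, ← map_mul, ← map_sum, ← map_add, hs]
      split_ifs
      · rfl
      · exact map_zero _

end Pool.Agent.P.MP_97ea17_al.Cx.RD
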