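import Pool.Agent.P.MP_97ea17_al.F.C1b

/-! Dunkl operators. -/

namespace Pool.Agent.P.MP_97ea17_al.Cx.RD

open MvPolynomial
open scoped Matrix

variable {n : ℕ} {G ι : Type} [Group G] [Fintype G] [DecidableEq G] [Fintype ι] [DecidableEq ι]
variable (D : RD n G ι)

namespace C4Aux

theorem mu_add (f g : KK n) : mu (f + g) = mu f + mu g := LinearMap.ext fun y => add_mul f g y

theorem mu_smul (a : ℂ) (f : KK n) : mu (a • f) = a • mu f :=
  LinearMap.ext fun y => smul_mul_assoc a f y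

theorem mu_mul (f g : KK n) : mu (f * g) = mu f * mu g := LinearMap.ext fun y => mul_assoc f g y

theorem mu_one : mu (1 : KK n) = 1 := LinearMap.ext fun y => one_mul y

/-- Multiplication by linear forms. -/
noncomputable def XL (n : ℕ) : (Fin n → ℂ) →ₗ[ℂ] Module.End ℂ (KK n) where
  toFun l := mu (toK (lin l))
  map_add' l l' := by rw [map_add, map_add, mu_add]
  map_smul' a l := by rw [map_smul, map_smul, mu_smul]; rfl

/-- The Dunkl operators, linearly in the direction. -/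
noncomputable def YL (c : ℂ) (E : ι → ℂ) : (Fin n → ℂ) →ₗ[ℂ] Module.End ℂ (KK n) where
  toFun y := D.dun c E y
  map_add' y y' := by
    simp only [dun]
    rw [D.nab_sum E (y + y'), D.nab_sum E y, D.nab_sum E y']
    simp only [Pi.add_apply, add_smul, Finset.sum_add_distrib, dotProduct_add, mul_add]
    abel
  map_smul' a y := by
    simp only [dun]
    rw [D.nab_sum E (a • y), D.nab_sum E y]
    simp only [Pi.smul_apply, smul_eq_mul, dotProduct_smul, RingHom.id_apply, smul_add,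
      Finset.smul_sum, smul_smul]
    congr 1
    exact Finset.sum_congr rfl fun s _ => by rw [mul_left_comm]

theorem TX (w : G) (l : Fin n → ℂ) :
    D.T w * mu (toK (lin l)) = mu (toK (lin (l ᵥ* D.A w))) * D.T w := by
  rw [D.T_mu, D.tK_toK, sub_lin]

theorem TY (c : ℂ) {E : ι → ℂ} (hE : D.Inv E) (w : G) (y : Fin n → ℂ) :
    D.T w * D.dun c E y = D.dun c E (D.A w⁻¹ *ᵥ y) * D.T w := by
  simp only [dun, mul_add, add_mul, D.T_nab hE, Finset.mul_sum, Finset.sum_mul]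
  congr 1
  refine Finset.sum_nbij' (fun s => w⁻¹ * s * w) (fun s => w⁻¹⁻¹ * s * w⁻¹)
    (fun s hs => (D.conj w s hs).1) (fun s hs => (D.conj w⁻¹ s hs).1)
    (fun s _ => by group) (fun s _ => by group) fun s hs => ?_
  obtain ⟨-, h1, h2⟩ := D.conj w s hs
  obtain ⟨u, hu, h3, h4⟩ := D.tK_aK w (D.hy s)
  have h5 : D.al (D.hy s) ⬝ᵥ y = u * (D.al (D.act w (D.hy s)) ⬝ᵥ (D.A w⁻¹ *ᵥ y)) := by
    rw [← smul_eq_mul, ← smul_dotProduct, ← h3, Matrix.dotProduct_mulVec, Matrix.vecMul_vecMul,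
      ← map_mul, mul_inv_cancel, map_one, Matrix.vecMul_one]
  have h6 : D.T w * D.T s = D.T (w⁻¹ * s * w) * D.T w := by
    rw [← D.T_mul, ← D.T_mul]; congr 1; group
  rw [h1, h2, mul_smul_comm, smul_mul_assoc, ← mul_assoc, D.T_mu, map_inv₀, h4, smul_inv₀,
    mu_smul, mul_assoc, h6, h5, smul_mul_assoc, smul_smul, mul_assoc (mu _)]
  congr 1
  field_simp

theorem d_lin (y l : Fin n → ℂ) :
    ∑ i, y i • dK i (toK (lin l)) = (l ⬝ᵥ y) • (1 : KK n) := by
  have h : ∀ i, dK i (toK (lin l)) = l i • (1 : KK n) := by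
    intro i
    rw [dK_toK, lin_apply, map_sum, Finset.sum_eq_single i]
    · simp
    · intro j _ hj
      simp [pderiv_X, Pi.single_apply, hj]
    · simp
  simp only [h, smul_smul, dotProduct, Finset.sum_smul, mul_comm]

theorem tK_lin {s : G} (hs : s ∈ D.R) (l : Fin n → ℂ) :
    D.tK s (toK (lin l)) =
      toK (lin l) + ((D.lam s - 1) * (l ⬝ᵥ D.nv (D.hy s))) • D.aK (D.hy s) := by
  rw [D.tK_toK, sub_lin, D.A_refl s hs, Matrix.vecMul_add, Matrix.vecMul_one, Matrix.vecMul_smul,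
    Matrix.vecMul_vecMulVec, map_add, map_add, smul_smul, map_smul, map_smul]
  rfl

theorem YX (c : ℂ) (E : ι → ℂ) (y l : Fin n → ℂ) :
    D.dun c E y * mu (toK (lin l)) - mu (toK (lin l)) * D.dun c E y = (l ⬝ᵥ y) • 1 -
      ∑ s ∈ D.R, (2 * c * (D.al (D.hy s) ⬝ᵥ y) * (l ⬝ᵥ D.nv (D.hy s))) • D.T s := by
  have h : ∀ s ∈ D.R, ((2 * c / (1 - D.lam s) * (D.al (D.hy s) ⬝ᵥ y)) •
      (mu (D.aK (D.hy s))⁻¹ * D.T s)) * mu (toK (lin l)) =
      mu (toK (lin l)) * ((2 * c / (1 - D.lam s) * (D.al (D.hy s) ⬝ᵥ y)) •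
        (mu (D.aK (D.hy s))⁻¹ * D.T s)) -
        (2 * c * (D.al (D.hy s) ⬝ᵥ y) * (l ⬝ᵥ D.nv (D.hy s))) • D.T s := by
    intro s hs
    have h1 : 1 - D.lam s ≠ 0 := sub_ne_zero.2 (D.lam_ne s hs).symm
    rw [smul_mul_assoc, mul_assoc, D.T_mu, tK_lin D hs, ← mul_assoc, ← mu_mul, mul_add,
      mul_smul_comm, inv_mul_cancel₀ (D.aK_ne _), mu_add, mu_smul, mu_one, add_mul, smul_add,
      mul_comm (D.aK (D.hy s))⁻¹, mu_mul, mul_smul_comm, mul_assoc, smul_mul_assoc, one_mul,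
      smul_smul, eq_sub_iff_add_eq, add_assoc, ← add_smul, add_eq_left]
    refine smul_eq_zero_of_left ?_ _
    field_simp
    ring
  simp only [dun, add_mul, mul_add, D.nab_mu, Finset.sum_mul, Finset.mul_sum]
  rw [Finset.sum_congr rfl h, Finset.sum_sub_distrib, d_lin, mu_smul, mu_one]
  abel

theorem dun_mul (c : ℂ) (E : ι → ℂ) (y l : Fin n → ℂ) (f : KK n) :
    D.dun c E y (toK (lin l) * f) = toK (lin l) * D.dun c E y f + ((l ⬝ᵥ y) • f -
      ∑ s ∈ D.R, (2 * c * (D.al (D.hy s) ⬝ᵥ y) * (l ⬝ᵥ D.nv (D.hy s))) • D.tK s f) := by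
  have h := LinearMap.congr_fun (YX D c E y l) f
  simp only [LinearMap.sub_apply, Module.End.mul_apply, mu_apply, LinearMap.smul_apply,
    Module.End.one_apply, LinearMap.sum_apply, T_apply] at h
  rw [← h]
  abel

theorem lg_sum (E : ι → ℂ) (y : Fin n → ℂ) :
    ∑ i, y i • D.lg E (Pi.single i 1) = D.lg E y := by
  simp only [lg, Finset.smul_sum, smul_smul]
  rw [Finset.sum_comm]
  refine Finset.sum_congr rfl fun U _ => ?_
  rw [← Finset.sum_smul]
  congr 1
  simp only [dotProduct_single, mul_one]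
  rw [dotProduct, Finset.mul_sum]
  exact Finset.sum_congr rfl fun i _ => by ring

theorem Gm_ne' (r : ι → ℕ) : toK (D.Gm r) ≠ 0 := fun h =>
  D.Gm_ne r (toK_inj (h.trans (map_zero _).symm))

theorem dun_kill (c : ℂ) {r : ι → ℕ} (hr : D.Adm r) (y : Fin n → ℂ) :
    D.dun c (D.EE c r) y (toK (D.Gm r))⁻¹ = 0 := by
  have h0 := Gm_ne' D r
  have h1 : ∑ i, y i • dK i (toK (D.Gm r))⁻¹ =
      -(D.lg (fun U => r U) y * (toK (D.Gm r))⁻¹) := by
    rw [← lg_sum, Finset.sum_mul, ← Finset.sum_neg_distrib]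
    refine Finset.sum_congr rfl fun i _ => ?_
    rw [Derivation.leibniz_inv, D.dK_Gm, smul_mul_assoc, ← smul_neg, smul_eq_mul]
    congr 1
    field_simp
  have h2 : ∀ s ∈ D.R, ((2 * c / (1 - D.lam s) * (D.al (D.hy s) ⬝ᵥ y)) •
      (mu (D.aK (D.hy s))⁻¹ * D.T s)) (toK (D.Gm r))⁻¹ =
      ((2 * c * ((D.lam s)⁻¹ ^ r (D.hy s) / (1 - D.lam s)) * (D.al (D.hy s) ⬝ᵥ y)) •
        (D.aK (D.hy s))⁻¹) * (toK (D.Gm r))⁻¹ := by
    intro s hs
    rw [LinearMap.smul_apply, Module.End.mul_apply, mu_apply, T_apply, map_inv₀, D.tK_toK,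
      D.sub_Gm_refl hr.1 hs, map_smul, smul_inv₀, mul_smul_comm, smul_smul, smul_mul_assoc, inv_pow]
    congr 1
    ring
  rw [dun, LinearMap.add_apply, D.nab_apply, h1, LinearMap.sum_apply, Finset.sum_congr rfl h2,
    ← Finset.sum_mul, ← neg_mul, ← add_mul, ← add_mul]
  refine mul_eq_zero_of_left ?_ _
  rw [← Finset.sum_fiberwise D.R D.hy, lg, lg, ← Finset.sum_neg_distrib,
    ← Finset.sum_add_distrib, ← Finset.sum_add_distrib]
  refine Finset.sum_eq_zero fun U _ => ?_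
  have h3 : ∑ s ∈ D.R with D.hy s = U,
      (2 * c * ((D.lam s)⁻¹ ^ r (D.hy s) / (1 - D.lam s)) * (D.al (D.hy s) ⬝ᵥ y)) •
        (D.aK (D.hy s))⁻¹ =
      (2 * c * (((D.m U : ℂ) - 1) / 2 - r U) * (D.al U ⬝ᵥ y)) • (D.aK U)⁻¹ := by
    rw [← D.hsum U (r U) (hr.2 U), Finset.mul_sum, Finset.sum_mul, Finset.sum_smul]
    exact Finset.sum_congr rfl fun s hs => by rw [(Finset.mem_filter.1 hs).2]
  rw [h3, ← neg_smul, ← add_smul, ← add_smul, EE]
  refine smul_eq_zero_of_left ?_ _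
  ring

theorem YT (c : ℂ) {E : ι → ℂ} (hE : D.Inv E) {s : G} (hs : s ∈ D.R) (y : Fin n → ℂ) :
    D.T s * D.dun c E y = D.dun c E y * D.T s +
      (((D.lam s)⁻¹ - 1) * (D.al (D.hy s) ⬝ᵥ y)) • (D.dun c E (D.nv (D.hy s)) * D.T s) := by
  have h : D.A s⁻¹ *ᵥ y = y + (((D.lam s)⁻¹ - 1) * (D.al (D.hy s) ⬝ᵥ y)) • D.nv (D.hy s) := by
    rw [D.A_inv_refl hs, Matrix.add_mulVec, Matrix.one_mulVec, Matrix.smul_mulVec,
      Matrix.vecMulVec_mulVec]
    congr 1
    ext i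
    simp only [Pi.smul_apply, smul_eq_mul, MulOpposite.smul_eq_mul_unop, MulOpposite.unop_op]
    ring
  rw [TY D c hE, h]
  change YL D c E _ * _ = _
  rw [map_add, map_smul, add_mul, smul_mul_assoc]
  rfl

theorem YYX (c : ℂ) {E : ι → ℂ} (hE : D.Inv E) (a b l : Fin n → ℂ) :
    D.dun c E a * (D.dun c E b * mu (toK (lin l)) - mu (toK (lin l)) * D.dun c E b) -
      (D.dun c E b * mu (toK (lin l)) - mu (toK (lin l)) * D.dun c E b) * D.dun c E a =
      ∑ s ∈ D.R, (2 * c * (l ⬝ᵥ D.nv (D.hy s)) * ((D.lam s)⁻¹ - 1) *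
        ((D.al (D.hy s) ⬝ᵥ a) * (D.al (D.hy s) ⬝ᵥ b))) • (D.dun c E (D.nv (D.hy s)) * D.T s) := by
  rw [YX, mul_sub, _root_.sub_mul, mul_smul_comm, smul_mul_assoc, mul_one, one_mul, sub_sub_sub_cancel_left,
    Finset.sum_mul, Finset.mul_sum, ← Finset.sum_sub_distrib]
  refine Finset.sum_congr rfl fun s hs => ?_
  rw [smul_mul_assoc, mul_smul_comm, YT D c hE hs, smul_add, add_sub_cancel_left, smul_smul]
  congr 1
  ring

theorem YY (c : ℂ) {r : ι → ℕ} (hr : D.Adm r) (a b : Fin n → ℂ) :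
    D.dun c (D.EE c r) a * D.dun c (D.EE c r) b = D.dun c (D.EE c r) b * D.dun c (D.EE c r) a := by
  rw [← sub_eq_zero]
  generalize hZ : D.dun c (D.EE c r) a * D.dun c (D.EE c r) b -
    D.dun c (D.EE c r) b * D.dun c (D.EE c r) a = Z
  have h1 : ∀ l, Z * mu (toK (lin l)) = mu (toK (lin l)) * Z := by
    intro l
    have e1 := YYX D c (D.EE_inv c hr.1) a b l
    have e2 := YYX D c (D.EE_inv c hr.1) b a l
    simp only [mul_comm (D.al _ ⬝ᵥ b) (D.al _ ⬝ᵥ a)] at e2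
    rw [← e2] at e1
    rw [← hZ, ← sub_eq_zero, ← sub_eq_zero.2 e1]
    simp only [mul_sub, _root_.sub_mul, mul_assoc]
    abel
  have h2 : ∀ (p : PP n) f, Z (toK p * f) = toK p * Z f := by
    intro p
    induction p using MvPolynomial.induction_on with
    | C a =>
      intro f
      have : toK (C a : PP n) = algebraMap ℂ (KK n) a := toK.commutes a
      rw [this, ← Algebra.smul_def, ← Algebra.smul_def, map_smul]
    | add p q hp hq => intro f; rw [map_add, add_mul, map_add, hp, hq, add_mul]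
    | mul_X p i hp =>
      intro f
      have := LinearMap.congr_fun (h1 (Pi.single i 1)) f
      simp only [Module.End.mul_apply, mu_apply, lin_single] at this
      rw [map_mul toK, mul_assoc, hp, this, mul_assoc]
  have h3 : Z (toK (D.Gm r))⁻¹ = 0 := by
    rw [← hZ, LinearMap.sub_apply, Module.End.mul_apply, Module.End.mul_apply, dun_kill D c hr,
      dun_kill D c hr, map_zero, map_zero, sub_zero]
  ext f
  obtain ⟨p, q, hq, rfl⟩ := IsFractionRing.div_surjective (PP n) f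
  have hq' : toK q ≠ 0 := fun h =>
    nonZeroDivisors.ne_zero hq (toK_inj (h.trans (map_zero _).symm))
  have h0 := Gm_ne' D r
  refine (mul_eq_zero.1 ?_).resolve_left hq'
  change toK q * Z (toK p / toK q) = 0
  rw [← h2, mul_div_cancel₀ _ hq', ← mul_inv_cancel_right₀ h0 (toK p), ← map_mul, h2, h3, mul_zero]

theorem Fam_mem (c : ℂ) (E : ι → ℂ) (N : Submodule ℂ (KK n))
    (hX : ∀ l, ∀ f ∈ N, toK (lin l) * f ∈ N) (hT : ∀ w, ∀ f ∈ N, D.tK w f ∈ N)
    (hY : ∀ y, ∀ f ∈ N, D.dun c E y f ∈ N) {B : (ι → ℂ) → Module.End ℂ (KK n)}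
    (hB : B ∈ D.Fam c) : ∀ f ∈ N, B E f ∈ N := by
  induction hB using Algebra.adjoin_induction with
  | mem B h =>
    rcases h with (⟨l, rfl⟩ | ⟨w, rfl⟩) | ⟨y, rfl⟩
    · exact hX l
    · exact hT w
    · exact hY y
  | algebraMap a => exact fun f hf => N.smul_mem a hf
  | add B B' _ _ h h' => exact fun f hf => N.add_mem (h f hf) (h' f hf)
  | mul B B' _ _ h h' => exact fun f hf => h _ (h' f hf)

theorem lin_mul_PK0 (l : Fin n → ℂ) {f : KK n} (hf : f ∈ PK n) : toK (lin l) * f ∈ PK0 n := by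
  obtain ⟨p, rfl⟩ := mem_PK.1 hf
  refine mem_PK0.2 ⟨lin l * p, ?_, map_mul _ _ _⟩
  simp [lin_apply]

theorem schur' (y : Fin n → ℂ) (i : Fin n) :
    ∑ s ∈ D.R, 2 * D.c0 * (D.al (D.hy s) ⬝ᵥ y) * D.nv (D.hy s) i = y i := by
  have h := congrFun (congrArg (· *ᵥ y) D.schur) i
  simp only [Matrix.sum_mulVec, Matrix.vecMulVec_mulVec, Finset.sum_apply, Pi.smul_apply,
    MulOpposite.smul_eq_mul_unop, MulOpposite.unop_op, Matrix.smul_mulVec, Matrix.one_mulVec,
    smul_eq_mul] at h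
  have hg : (D.g : ℂ) ≠ 0 := Nat.cast_ne_zero.2 D.g_pos.ne'
  calc _ = 2 * D.c0 * ∑ s ∈ D.R, D.nv (D.hy s) i * (D.al (D.hy s) ⬝ᵥ y) := by
        rw [Finset.mul_sum]
        exact Finset.sum_congr rfl fun s _ => by ring
    _ = y i := by
        rw [h, c0]
        field_simp

end C4Aux

open C4Aux

theorem exists_cmod (c : ℂ) {r : ι → ℕ} (hr : D.Adm r) :
    ∃ H : D.CMod c (KK n), (∀ l, H.X l = mu (toK (lin l))) ∧
      (∀ y, H.Y y = D.dun c (D.EE c r) y) ∧ ∀ w, H.T w = D.T w :=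
  ⟨{ X := XL n
     Y := YL D c (D.EE c r)
     T := D.T
     T_one := D.T_one
     T_mul := D.T_mul
     TX := TX D
     TY := TY D c (D.EE_inv c hr.1)
     XX := fun l l' => by
       change mu _ * mu _ = mu _ * mu _
       rw [← mu_mul, ← mu_mul, mul_comm]
     YY := YY D c hr
     YX := YX D c _ }, fun _ => rfl, fun _ => rfl, fun _ => rfl⟩

theorem dun_mem_LK (c : ℂ) {r : ι → ℕ} (hr : D.Adm r) (y : Fin n → ℂ) {f : KK n}
    (hf : f ∈ D.LK r) : D.dun c (D.EE c r) y f ∈ D.LK r := by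
  have h0 := Gm_ne' D r
  have h1 : (toK (D.Gm r))⁻¹ ∈ D.LK r :=
    mem_PK.2 ⟨1, by rw [map_one, mu_apply, mul_inv_cancel₀ h0]⟩
  obtain ⟨p, hp⟩ := mem_PK.1 hf
  have e : f = toK p * (toK (D.Gm r))⁻¹ := by
    rw [hp, mu_apply, mul_comm (toK (D.Gm r)), mul_inv_cancel_right₀ h0]
  rw [e]
  clear e hp hf
  induction p using MvPolynomial.induction_on with
  | C a =>
    have : toK (C a : PP n) = algebraMap ℂ (KK n) a := toK.commutes a
    rw [this, ← Algebra.smul_def, map_smul, dun_kill D c hr, smul_zero]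
    exact zero_mem _
  | add p q hp hq => rw [map_add, add_mul, map_add]; exact add_mem hp hq
  | mul_X p i hp =>
    have h2 := D.mul_mem_LK p h1
    rw [map_mul toK, mul_comm (toK p), mul_assoc, ← lin_single, dun_mul]
    exact add_mem (D.mul_mem_LK _ hp) (sub_mem (Submodule.smul_mem _ _ h2)
      (sum_mem fun s _ => Submodule.smul_mem _ _ (D.tK_mem_LK hr.1 s h2)))

theorem dun_mem_PK0 (y : Fin n → ℂ) {f : KK n} (hf : f ∈ PK0 n) :
    D.dun D.c0 (D.EE D.c0 0) y f ∈ PK0 n := by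
  obtain ⟨p, hp, rfl⟩ := mem_PK0.1 hf
  have e : p = p - C (constantCoeff p) := by rw [hp, map_zero, sub_zero]
  rw [e]
  clear e hp hf
  induction p using MvPolynomial.induction_on with
  | C a => rw [constantCoeff_C, sub_self, map_zero, map_zero]; exact zero_mem _
  | add p q hp hq =>
    rw [map_add, map_add, add_sub_add_comm, map_add, map_add]
    exact add_mem hp hq
  | mul_X p i _ =>
    have h1 : D.dun D.c0 (D.EE D.c0 0) y (toK p) ∈ PK n :=
      D.LK_zero ▸ D.dun_mem_LK D.c0 D.adm_zero y (D.PK_le_LK 0 (mem_PK.2 ⟨p, rfl⟩))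
    have h2 : toK (p - C (constantCoeff p)) ∈ PK0 n := mem_PK0.2 ⟨_, by simp, rfl⟩
    have h3 : toK p = toK (p - C (constantCoeff p)) + constantCoeff p • (1 : KK n) := by
      have : toK (C (constantCoeff p) : PP n) = algebraMap ℂ (KK n) _ := toK.commutes _
      rw [map_sub, this, Algebra.algebraMap_eq_smul_one, sub_add_cancel]
    rw [map_mul constantCoeff, constantCoeff_X, mul_zero, map_zero, sub_zero, map_mul toK,
      mul_comm (toK p),
      ← lin_single, dun_mul]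
    refine add_mem (lin_mul_PK0 _ h1) ?_
    generalize toK (p - C (constantCoeff p)) = g at h2 h3
    have h4 : ∑ s ∈ D.R, (2 * D.c0 * (D.al (D.hy s) ⬝ᵥ y) * D.nv (D.hy s) i) •
        constantCoeff p • (1 : KK n) = y i • constantCoeff p • (1 : KK n) := by
      rw [← Finset.sum_smul, schur']
    simp only [h3, map_add, map_smul, map_one, smul_add, Finset.sum_add_distrib,
      single_dotProduct, one_mul, h4, add_sub_add_right_eq_sub]
    exact sub_mem (Submodule.smul_mem _ _ h2)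
      (sum_mem fun s _ => Submodule.smul_mem _ _ (D.tK_mem_PK0 s h2))

theorem eps_one (H : D.CMod D.c1 (KK n)) (hX : ∀ l, H.X l = mu (toK (lin l)))
    (hY : ∀ y, H.Y y = D.dun D.c1 (D.EE D.c0 0) y) (hT : ∀ w, H.T w = D.T w) : H.eps 1 = 0 := by
  have h1 : ∀ (a : ℂ) U, ∑ i, toK (lin (Pi.single i (1 : ℂ))) *
      (a * (D.al U ⬝ᵥ Pi.single i 1)) • (D.aK U)⁻¹ = a • (1 : KK n) := by
    intro a U
    rw [← mul_inv_cancel₀ (D.aK_ne U), ← smul_mul_assoc]
    simp only [mul_smul_comm, ← smul_mul_assoc]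
    rw [← Finset.sum_mul]
    congr 1
    simp only [aK, lin_single, dotProduct_single, mul_one]
    rw [lin_apply, map_sum, Finset.smul_sum]
    exact Finset.sum_congr rfl fun i _ => by rw [map_smul, smul_smul]
  have h2 : ∑ U, D.EE D.c0 0 U = -((n : ℂ) / 2) := by
    have hg : (D.g : ℂ) ≠ 0 := Nat.cast_ne_zero.2 D.g_pos.ne'
    have e1 : ∑ U, ((D.m U : ℂ) - 1) = D.R.card := by
      rw [Finset.card_eq_sum_card_fiberwise (f := D.hy) (t := Finset.univ)
        (fun _ _ => Finset.mem_univ _), Nat.cast_sum]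
      refine Finset.sum_congr rfl fun U _ => ?_
      rw [← D.card U]
      push_cast
      ring
    have e2 : (2 : ℂ) * D.R.card = n * D.g := by exact_mod_cast D.card_R
    simp only [EE, Pi.zero_apply, Nat.cast_zero, mul_zero, zero_sub, Finset.sum_neg_distrib]
    rw [← Finset.mul_sum, e1, c0]
    field_simp
    linear_combination -e2
  simp only [CMod.eps, LinearMap.add_apply, LinearMap.sub_apply, LinearMap.sum_apply,
    Module.End.mul_apply, hX, hY, hT, mu_apply, LinearMap.smul_apply, T_apply, map_one,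
    Module.End.one_apply, dun, D.nab_single, Derivation.map_one_eq_zero, zero_add, mul_one,
    mul_add, Finset.sum_add_distrib, lg, Finset.mul_sum]
  rw [Finset.sum_comm, Finset.sum_comm (t := D.R)]
  simp only [h1]
  rw [add_sub_cancel_right, ← Finset.sum_smul, h2, ← add_smul, neg_add_cancel, zero_smul]

theorem Fam_mem_LK (c : ℂ) {B : (ι → ℂ) → Module.End ℂ (KK n)} (hB : B ∈ D.Fam c) {r : ι → ℕ}
    (hr : D.Adm r) {f : KK n} (hf : f ∈ D.LK r) : B (D.EE c r) f ∈ D.LK r :=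
  Fam_mem D c _ _ (fun _ _ h => D.mul_mem_LK _ h) (fun w _ h => D.tK_mem_LK hr.1 w h)
    (fun y _ h => D.dun_mem_LK c hr y h) hB f hf

theorem Fam_mem_PK0 {B : (ι → ℂ) → Module.End ℂ (KK n)} (hB : B ∈ D.Fam D.c0) {f : KK n}
    (hf : f ∈ PK0 n) : B (D.EE D.c0 0) f ∈ PK0 n :=
  Fam_mem D _ _ _ (fun l _ h => lin_mul_PK0 l (by
      obtain ⟨p, -, rfl⟩ := mem_PK0.1 h
      exact mem_PK.2 ⟨p, rfl⟩)) (fun w _ h => D.tK_mem_PK0 w h)
    (fun y _ h => D.dun_mem_PK0 y h) hB f hf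

end Pool.Agent.P.MP_97ea17_al.Cx.RD
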