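import Pool.Agent.P.MP_97ea17_al.F.C3
import Pool.Agent.P.MP_97ea17_al.F.C4

/-! The shift principle. -/

namespace Pool.Agent.P.MP_97ea17_al.Cx.RD

open MvPolynomial
open scoped Matrix

variable {n : ℕ} {G ι : Type} [Group G] [Fintype G] [DecidableEq G] [Fintype ι] [DecidableEq ι]
variable (D : RD n G ι)

namespace C5Aux

theorem cos_zero : D.CoS 0 := fun β => by
  rw [coeff_zero]; exact zero_mem _

theorem cos_sum {κ : Type} (s : Finset κ) (F : κ → Sy n) (h : ∀ i ∈ s, D.CoS (F i)) :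
    D.CoS (∑ i ∈ s, F i) :=
  Finset.sum_induction F D.CoS (fun _ _ ha hb => CoS.add ha hb) (cos_zero D) h

theorem cos_one : D.CoS 1 := by
  have : D.CoS (C (1 : KK n)) := CoS.C (one_mem _)
  rwa [map_one] at this

theorem cos_sub {p q : Sy n} (hp : D.CoS p) (hq : D.CoS q) : D.CoS (p - q) := fun β => by
  rw [coeff_sub]; exact sub_mem (hp β) (hq β)

theorem Op_C_apply (E : ι → ℂ) (a : KK n) (q : Sy n) (f : KK n) :
    D.Op E (C a * q) f = a * D.Op E q f := by
  rw [D.Op_C_mul]; rfl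

theorem Op_one_apply (E : ι → ℂ) (f : KK n) : D.Op E 1 f = f := by
  have := D.Op_C E (1 : KK n)
  rw [map_one] at this
  rw [this, mu_apply, one_mul]

theorem T_Op_apply {E : ι → ℂ} (hE : D.Inv E) (w : G) (q : Sy n) {f : KK n} (hf : D.IsInv f) :
    D.T w (D.Op E q f) = D.Op E (D.gact w q) f := by
  have := LinearMap.congr_fun (D.T_Op hE w q) f
  rw [Module.End.mul_apply, Module.End.mul_apply, D.T_apply w f, hf w] at this
  exact this

/-- The symbol of a Dunkl operator composed with the operator of symbol `q`. -/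
noncomputable def dsym (c : ℂ) (y : Fin n → ℂ) (q : Sy n) : Sy n :=
  ∑ i, C (algebraMap ℂ (KK n) (y i)) * (X i * q + coD i q) +
    ∑ s ∈ D.R, C (algebraMap ℂ (KK n) (2 * c / (1 - D.lam s) * (D.al (D.hy s) ⬝ᵥ y)) *
      (D.aK (D.hy s))⁻¹) * D.gact s q

theorem cos_dsym (c : ℂ) (y : Fin n → ℂ) {q : Sy n} (hq : D.CoS q) : D.CoS (dsym D c y q) := by
  refine CoS.add (cos_sum D _ _ fun i _ => CoS.mul (CoS.C (Subalgebra.algebraMap_mem _ _))
    (CoS.add (CoS.mul (CoS.X D i) hq) (CoS.coD hq i)))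
    (cos_sum D _ _ fun s _ => CoS.mul (CoS.C (mul_mem (Subalgebra.algebraMap_mem _ _)
      (D.inv_aK_mem_SK _))) (CoS.gact hq s))

theorem dun_Op (c : ℂ) {E : ι → ℂ} (hE : D.Inv E) (y : Fin n → ℂ) (q : Sy n) {f : KK n}
    (hf : D.IsInv f) : D.dun c E y (D.Op E q f) = D.Op E (dsym D c y q) f := by
  rw [dsym, map_add, map_sum, map_sum, LinearMap.add_apply, LinearMap.sum_apply,
    LinearMap.sum_apply, dun, LinearMap.add_apply, LinearMap.sum_apply, D.nab_sum,
    LinearMap.sum_apply]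
  congr 1
  · refine Finset.sum_congr rfl fun i _ => ?_
    rw [Op_C_apply, ← D.nab_Op, LinearMap.smul_apply, Algebra.smul_def, Module.End.mul_apply]
  · refine Finset.sum_congr rfl fun s _ => ?_
    rw [Op_C_apply, LinearMap.smul_apply, Module.End.mul_apply, T_Op_apply D hE s q hf, mu_apply,
      Algebra.smul_def, mul_assoc]

theorem exists_sym (c : ℂ) {B : (ι → ℂ) → Module.End ℂ (KK n)} (hB : B ∈ D.Fam c) :
    ∀ q : Sy n, D.CoS q → ∃ q' : Sy n, D.CoS q' ∧
      ∀ E, D.Inv E → ∀ f, D.IsInv f → B E (D.Op E q f) = D.Op E q' f := by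
  induction hB using Algebra.adjoin_induction with
  | mem x hx =>
    intro q hq
    rcases hx with (⟨l, rfl⟩ | ⟨w, rfl⟩) | ⟨y, rfl⟩
    · exact ⟨C (toK (lin l)) * q, CoS.mul (CoS.C (D.toK_mem_SK _)) hq, fun E _ f _ => by
        rw [Op_C_apply]; rfl⟩
    · exact ⟨D.gact w q, CoS.gact hq w, fun E hE f hf => T_Op_apply D hE w q hf⟩
    · exact ⟨dsym D c y q, cos_dsym D c y hq, fun E hE f hf => dun_Op D c hE y q hf⟩
  | algebraMap r =>
    intro q hq
    exact ⟨C (algebraMap ℂ (KK n) r) * q, CoS.mul (CoS.C (Subalgebra.algebraMap_mem _ _)) hq,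
      fun E _ f _ => by
        rw [Op_C_apply, ← Algebra.smul_def]; rfl⟩
  | add x y _ _ ihx ihy =>
    intro q hq
    obtain ⟨q1, h1, e1⟩ := ihx q hq
    obtain ⟨q2, h2, e2⟩ := ihy q hq
    exact ⟨q1 + q2, CoS.add h1 h2, fun E hE f hf => by
      rw [map_add, LinearMap.add_apply, ← e1 E hE f hf, ← e2 E hE f hf]; rfl⟩
  | mul x y _ _ ihx ihy =>
    intro q hq
    obtain ⟨q2, h2, e2⟩ := ihy q hq
    obtain ⟨q1, h1, e1⟩ := ihx q2 h2
    exact ⟨q1, h1, fun E hE f hf => by
      rw [← e1 E hE f hf, ← e2 E hE f hf]; rfl⟩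

/-- The average of a symbol. -/
noncomputable def avs (q : Sy n) : Sy n :=
  C (algebraMap ℂ (KK n) (Fintype.card G : ℂ)⁻¹) * ∑ w, D.gact w q

theorem cos_avs {q : Sy n} (hq : D.CoS q) : D.CoS (avs D q) :=
  CoS.mul (CoS.C (Subalgebra.algebraMap_mem _ _)) (cos_sum D _ _ fun w _ => CoS.gact hq w)

theorem Op_avs {E : ι → ℂ} (hE : D.Inv E) (q : Sy n) {f : KK n} (hf : D.IsInv f) :
    D.Op E (avs D q) f = D.av (D.Op E q f) := by
  rw [avs, Op_C_apply, map_sum, LinearMap.sum_apply, av, LinearMap.smul_apply,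
    LinearMap.sum_apply, Algebra.smul_def]
  congr 1
  exact Finset.sum_congr rfl fun w _ => (T_Op_apply D hE w q hf).symm

theorem deg_avs (q : Sy n) : (avs D q).totalDegree ≤ q.totalDegree := by
  refine (totalDegree_mul _ _).trans ?_
  rw [totalDegree_C, zero_add]
  exact totalDegree_finsetSum_le fun w _ => D.totalDegree_gact w q

theorem top_avs (d : ℕ) (q : Sy n) :
    homogeneousComponent d (avs D q) = avs D (homogeneousComponent d q) := by
  rw [avs, avs, homogeneousComponent_C_mul, map_sum]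
  congr 1
  exact Finset.sum_congr rfl fun w _ => D.gact_homComp w d q

theorem cl_avs_of {c : ℂ} (hc : ∀ r, D.Adm r → ∃ r', D.Adm r' ∧ D.EE c r' = D.EE D.c0 r)
    {B : (ι → ℂ) → Module.End ℂ (KK n)} (hB : B ∈ D.Fam c) {q : Sy n} (hq : D.CoS q)
    (h : ∀ E, D.Inv E → ∀ f, D.IsInv f → B E f = D.Op E q f) : D.Cl (avs D q) := by
  refine ⟨cos_avs D hq, fun r hr f hf hi => ?_⟩
  obtain ⟨r', hr', e⟩ := hc r hr
  rw [Op_avs D (D.EE_inv _ hr.1) q hi, ← h _ (D.EE_inv _ hr.1) f hi, ← e]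
  exact D.LK_inv hr' (D.av_mem (fun w g hg => D.tK_mem_LK hr'.1 w hg)
    (D.Fam_mem_LK c hB hr' (D.PK_le_LK r' hf))) (D.av_inv _)

theorem cl_avs {q : Sy n} (hq : D.Cl q) : D.Cl (avs D q) := by
  refine ⟨cos_avs D hq.1, fun r hr f hf hi => ?_⟩
  rw [Op_avs D (D.EE_inv _ hr.1) q hi]
  exact D.av_mem (fun w g hg => D.tK_mem_PK w hg) (hq.2 r hr f hf hi)

theorem cl_sub {p q : Sy n} (hp : D.Cl p) (hq : D.Cl q) : D.Cl (p - q) := by
  refine ⟨cos_sub D hp.1 hq.1, fun r hr f hf hi => ?_⟩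
  rw [map_sub, LinearMap.sub_apply]
  exact sub_mem (hp.2 r hr f hf hi) (hq.2 r hr f hf hi)

theorem mu_mem_Fam (c : ℂ) (p : PP n) :
    (fun _ => mu (toK p) : (ι → ℂ) → Module.End ℂ (KK n)) ∈ D.Fam c := by
  induction p using MvPolynomial.induction_on with
  | C a =>
    have : (fun _ => mu (toK (C a)) : (ι → ℂ) → Module.End ℂ (KK n)) = algebraMap ℂ _ a := by
      funext E
      refine LinearMap.ext fun f => ?_
      have e : toK (n := n) (C a) = algebraMap ℂ (KK n) a := toK.commutes a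
      rw [mu_apply, e, ← Algebra.smul_def]; rfl
    rw [this]; exact Subalgebra.algebraMap_mem _ _
  | add p q hp hq =>
    have : (fun _ => mu (toK (p + q)) : (ι → ℂ) → Module.End ℂ (KK n)) =
        (fun _ => mu (toK p)) + fun _ => mu (toK q) := by
      funext E
      refine LinearMap.ext fun f => ?_
      rw [mu_apply, map_add, add_mul]; rfl
    rw [this]; exact add_mem hp hq
  | mul_X p i hp =>
    have : (fun _ => mu (toK (p * X i)) : (ι → ℂ) → Module.End ℂ (KK n)) =
        (fun _ => mu (toK p)) * fun _ => mu (toK (lin (Pi.single i 1))) := by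
      funext E
      refine LinearMap.ext fun f => ?_
      rw [mu_apply, map_mul, mul_assoc, lin_single]; rfl
    rw [this]
    exact mul_mem hp (Algebra.subset_adjoin (Or.inl (Or.inl ⟨Pi.single i 1, rfl⟩)))

/-- Leading symbols realised by a family. -/
def Good (c : ℂ) (d : ℕ) (σ : Sy n) : Prop :=
  ∃ B ∈ D.Fam c, ∃ q : Sy n, D.CoS q ∧ q.totalDegree ≤ d ∧ homogeneousComponent d q = σ ∧
    ∀ E, D.Inv E → ∀ f, D.IsInv f → B E f = D.Op E q f

theorem good_zero (c : ℂ) (d : ℕ) : Good D c d 0 :=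
  ⟨0, zero_mem _, 0, cos_zero D, by simp, map_zero _, fun E _ f _ => by
    rw [map_zero]; rfl⟩

theorem good_one (c : ℂ) : Good D c 0 1 :=
  ⟨1, one_mem _, 1, cos_one D, by simp, by simp, fun E _ f _ => by
    rw [Op_one_apply]; rfl⟩

theorem good_add {c : ℂ} {d : ℕ} {σ τ : Sy n} (h1 : Good D c d σ) (h2 : Good D c d τ) :
    Good D c d (σ + τ) := by
  obtain ⟨B1, hB1, q1, c1, d1, t1, e1⟩ := h1
  obtain ⟨B2, hB2, q2, c2, d2, t2, e2⟩ := h2
  exact ⟨B1 + B2, add_mem hB1 hB2, q1 + q2, CoS.add c1 c2,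
    (totalDegree_add _ _).trans (max_le d1 d2), by rw [map_add, t1, t2], fun E hE f hf => by
      rw [map_add, LinearMap.add_apply, ← e1 E hE f hf, ← e2 E hE f hf]; rfl⟩

theorem good_C {c : ℂ} {d : ℕ} {σ : Sy n} (p : PP n) (h : Good D c d σ) :
    Good D c d (C (toK p) * σ) := by
  obtain ⟨B, hB, q, c1, d1, t1, e1⟩ := h
  refine ⟨(fun _ => mu (toK p)) * B, mul_mem (mu_mem_Fam D c p) hB, C (toK p) * q,
    CoS.mul (CoS.C (D.toK_mem_SK p)) c1, ?_, by rw [homogeneousComponent_C_mul, t1],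
    fun E hE f hf => ?_⟩
  · refine (totalDegree_mul _ _).trans ?_
    rw [totalDegree_C, zero_add]; exact d1
  · rw [Op_C_apply, ← e1 E hE f hf]; rfl

theorem top_X_mul (d : ℕ) (i : Fin n) (q : Sy n) :
    homogeneousComponent (d + 1) (X i * q) = X i * homogeneousComponent d q := by
  classical
  ext β
  rw [coeff_homogeneousComponent, coeff_X_mul', coeff_X_mul', coeff_homogeneousComponent]
  by_cases hi : i ∈ β.support
  · have hle : Finsupp.single i 1 ≤ β := by
      rw [Finsupp.single_le_iff]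
      exact Nat.one_le_iff_ne_zero.2 (Finsupp.mem_support_iff.1 hi)
    have e : β = (β - Finsupp.single i 1) + Finsupp.single i 1 := (tsub_add_cancel_of_le hle).symm
    have e2 : Finsupp.degree β = Finsupp.degree (β - Finsupp.single i 1) + 1 := by
      conv_lhs => rw [e]
      rw [map_add, Finsupp.degree_single]
    simp only [hi, if_true, e2, Nat.add_right_cancel_iff]
  · simp [hi]

theorem good_X {c : ℂ} {d : ℕ} {σ : Sy n} (i : Fin n) (h : Good D c d σ) :
    Good D c (d + 1) (X i * σ) := by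
  obtain ⟨B, hB, q, c1, d1, t1, e1⟩ := h
  have hs : dsym D c (Pi.single i 1) q = X i * q + (coD i q +
      ∑ s ∈ D.R, C (algebraMap ℂ (KK n) (2 * c / (1 - D.lam s) *
        (D.al (D.hy s) ⬝ᵥ Pi.single i 1)) * (D.aK (D.hy s))⁻¹) * D.gact s q) := by
    rw [dsym, Finset.sum_eq_single i, Pi.single_eq_same, map_one, map_one, one_mul, add_assoc]
    · intro j _ hj
      rw [Pi.single_eq_of_ne hj, map_zero, map_zero, zero_mul]
    · intro h; exact absurd (Finset.mem_univ i) h
  have hl : (coD i q + ∑ s ∈ D.R, C (algebraMap ℂ (KK n) (2 * c / (1 - D.lam s) *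
        (D.al (D.hy s) ⬝ᵥ Pi.single i 1)) * (D.aK (D.hy s))⁻¹) * D.gact s q).totalDegree ≤ d := by
    refine (totalDegree_add _ _).trans (max_le ((totalDegree_coD i q).trans d1) ?_)
    refine totalDegree_finsetSum_le fun s _ => (totalDegree_mul _ _).trans ?_
    rw [totalDegree_C, zero_add]
    exact (D.totalDegree_gact s q).trans d1
  refine ⟨(fun E => D.dun c E (Pi.single i 1)) * B,
    mul_mem (Algebra.subset_adjoin (Or.inr ⟨Pi.single i 1, rfl⟩)) hB,
    dsym D c (Pi.single i 1) q, cos_dsym D c _ c1, ?_, ?_, fun E hE f hf => ?_⟩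
  · rw [hs]
    refine (totalDegree_add _ _).trans (max_le ((totalDegree_mul _ _).trans ?_)
      (hl.trans (Nat.le_succ d)))
    rw [totalDegree_X]; omega
  · rw [hs, map_add, top_X_mul, t1, homogeneousComponent_eq_zero _ _ (Nat.lt_succ_of_le hl),
      add_zero]
  · rw [← dun_Op D c hE _ q hf, ← e1 E hE f hf]; rfl

theorem good_monomial (c : ℂ) (d : ℕ) :
    ∀ β : Fin n →₀ ℕ, Finsupp.degree β = d → Good D c d (monomial β 1) := by
  induction d with
  | zero =>
    intro β hβ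
    rw [Finsupp.degree_eq_zero_iff] at hβ
    subst hβ
    exact good_one D c
  | succ d ih =>
    intro β hβ
    have hne : β ≠ 0 := by
      rintro rfl
      simp at hβ
    obtain ⟨i, hi⟩ := Finsupp.ne_iff.1 hne
    have hle : Finsupp.single i 1 ≤ β := by
      rw [Finsupp.single_le_iff]
      exact Nat.one_le_iff_ne_zero.2 hi
    have e : β = Finsupp.single i 1 + (β - Finsupp.single i 1) := (add_tsub_cancel_of_le hle).symm
    have e2 : Finsupp.degree (β - Finsupp.single i 1) = d := by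
      rw [e, map_add, Finsupp.degree_single] at hβ
      omega
    have := good_X D i (ih _ e2)
    rw [X, monomial_mul, one_mul, ← e] at this
    exact this

theorem good_top (c : ℂ) (d : ℕ) (q : Sy n)
    (h : ∀ β, coeff β (homogeneousComponent d q) ∈ PK n) :
    Good D c d (homogeneousComponent d q) := by
  rw [as_sum (homogeneousComponent d q)]
  refine Finset.sum_induction _ (Good D c d) (fun _ _ ha hb => good_add D ha hb) (good_zero D c d)
    fun β hβ => ?_
  obtain ⟨p, hp⟩ := mem_PK.1 (h β)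
  have hd : Finsupp.degree β = d := by
    by_contra hne
    rw [mem_support_iff, coeff_homogeneousComponent, if_neg hne] at hβ
    exact hβ rfl
  rw [← hp, ← mul_one (toK p), ← C_mul_monomial]
  exact good_C D p (good_monomial D c d β hd)

theorem main (d : ℕ) : ∀ q : Sy n, (∀ β, d ≤ Finsupp.degree β → coeff β q = 0) → D.Cl q →
    ∀ f ∈ PK0 n, D.IsInv f → D.av (D.Op (D.EE D.c0 0) q f) ∈ PK0 n := by
  induction d with
  | zero =>
    intro q hq _ f _ _
    have : q = 0 := MvPolynomial.ext _ _ fun β => hq β (Nat.zero_le _)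
    rw [this, map_zero, LinearMap.zero_apply, map_zero]
    exact zero_mem _
  | succ d ih =>
    intro q hq hc f hf hi
    have hE : D.Inv (D.EE D.c0 0) := D.EE_inv _ D.adm_zero.1
    have hd : q.totalDegree ≤ d := by
      rw [totalDegree, Finset.sup_le_iff]
      intro β hβ
      by_contra hlt
      refine mem_support_iff.1 hβ (hq β ?_)
      have : (β.sum fun _ e => e) = Finsupp.degree β := rfl
      omega
    obtain ⟨B, hB, p, c1, d1, t1, e1⟩ := good_top D D.c0 d q (D.key d q hd hc)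
    have h1 : D.Cl (avs D q - avs D p) :=
      cl_sub D (cl_avs D hc) (cl_avs_of D (fun r hr => ⟨r, hr, rfl⟩) hB c1 e1)
    have h2 : ∀ β, d ≤ Finsupp.degree β → coeff β (avs D q - avs D p) = 0 := by
      intro β hβ
      rcases hβ.eq_or_lt with hβ | hβ
      · have : homogeneousComponent d (avs D q - avs D p) = 0 := by
          rw [map_sub, top_avs, top_avs, t1, sub_self]
        have h3 := congrArg (coeff β) this
        rwa [coeff_homogeneousComponent, if_pos hβ.symm, coeff_zero] at h3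
      · refine coeff_eq_zero_of_totalDegree_lt (lt_of_le_of_lt ?_ hβ)
        exact (totalDegree_sub _ _).trans
          (max_le ((deg_avs D q).trans hd) ((deg_avs D p).trans d1))
    have h3 := ih _ h2 h1 f hf hi
    rw [map_sub, LinearMap.sub_apply, map_sub, Op_avs D hE q hi, Op_avs D hE p hi,
      D.av_of_inv (D.av_inv _), D.av_of_inv (D.av_inv _), ← e1 _ hE f hi] at h3
    have h4 : D.av (B (D.EE D.c0 0) f) ∈ PK0 n :=
      D.av_mem (fun w g hg => D.tK_mem_PK0 w hg) (D.Fam_mem_PK0 hB hf)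
    have := add_mem h3 h4
    rwa [sub_add_cancel] at this

end C5Aux

theorem shift {B : (ι → ℂ) → Module.End ℂ (KK n)} (hB : B ∈ D.Fam D.c1) {f : KK n}
    (hf : f ∈ PK0 n) (hi : D.IsInv f) : D.av (B (D.EE D.c0 0) f) ∈ PK0 n := by
  have hE : D.Inv (D.EE D.c0 0) := D.EE_inv _ D.adm_zero.1
  obtain ⟨q, hq, e⟩ := C5Aux.exists_sym D D.c1 hB 1 (C5Aux.cos_one D)
  have e' : ∀ E, D.Inv E → ∀ f, D.IsInv f → B E f = D.Op E q f := fun E hE f hf => by
    rw [← e E hE f hf, C5Aux.Op_one_apply]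
  have hc : D.Cl (C5Aux.avs D q) :=
    C5Aux.cl_avs_of D (fun r hr => ⟨_, hr.dual.1, hr.dual.2⟩) hB hq e'
  have := C5Aux.main D ((C5Aux.avs D q).totalDegree + 1) _
    (fun β hβ => coeff_eq_zero_of_totalDegree_lt (Nat.lt_of_succ_le hβ)) hc f hf hi
  rwa [C5Aux.Op_avs D hE q hi, D.av_of_inv (D.av_inv _), ← e' _ hE f hi] at this

end Pool.Agent.P.MP_97ea17_al.Cx.RD
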