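import Mathlib

/-! An integrality lemma and a divisibility lemma. -/

namespace Pool.Agent.P.MP_97ea17_al.Cx

namespace C6Aux

open Polynomial

/-- An eigenvalue of a combination of the `ρ w` with integral coefficients is integral. -/
theorem eigen_integral {G V : Type} [Group G] [Finite G] [AddCommGroup V] [Module ℂ V]
    (ρ : G → Module.End ℂ V) (h1 : ρ 1 = 1) (hm : ∀ w w', ρ (w * w') = ρ w' * ρ w)
    (R : Finset G) (c : G → ℂ) (hc : ∀ s ∈ R, IsIntegral ℤ (c s))
    {x : ℂ} {v : V} (hv : v ≠ 0) (hx : (∑ s ∈ R, c s • ρ s) v = x • v) : IsIntegral ℤ x := by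
  let O := integralClosure ℤ ℂ
  let Sm : Submonoid (Module.End ℂ V) :=
    { carrier := Set.range ρ
      one_mem' := ⟨1, h1⟩
      mul_mem' := by
        rintro _ _ ⟨a, rfl⟩ ⟨b, rfl⟩
        exact ⟨b * a, hm b a⟩ }
  have hfg : (Algebra.adjoin O (Sm : Set (Module.End ℂ V))).toSubmodule.FG := by
    rw [Algebra.adjoin_eq_span, Submonoid.closure_eq]
    exact Submodule.fg_span (Set.finite_range ρ)
  have hmem : (∑ s ∈ R, c s • ρ s) ∈ Algebra.adjoin O (Sm : Set (Module.End ℂ V)) := by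
    refine Subalgebra.sum_mem _ fun s hs => ?_
    have h : ρ s ∈ Algebra.adjoin O (Sm : Set (Module.End ℂ V)) := Algebra.subset_adjoin ⟨s, rfl⟩
    exact Subalgebra.smul_mem _ h (⟨c s, hc s hs⟩ : O)
  obtain ⟨p, hp, hp0⟩ := IsIntegral.of_mem_of_fg _ hfg _ hmem
  have he : Module.End.HasEigenvector (∑ s ∈ R, c s • ρ s) x v :=
    ⟨Module.End.mem_eigenspace_iff.2 hx, hv⟩
  have h2 := Module.End.aeval_apply_of_hasEigenvector (p := p.map (algebraMap O ℂ)) he
  rw [Polynomial.aeval_map_algebraMap, Polynomial.aeval_def, hp0] at h2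
  have h3 : (p.map (algebraMap O ℂ)).eval x = 0 := by
    rcases smul_eq_zero.1 h2.symm with h | h
    · exact h
    · exact absurd h hv
  have h4 : IsIntegral O x := ⟨p, hp, by rw [← Polynomial.eval_map]; exact h3⟩
  exact isIntegral_trans x h4

theorem root_prime {lam : ℂ} (h1 : lam ≠ 1) {k : ℕ} (hk : 0 < k) (hl : lam ^ k = 1) :
    ∃ l : ℕ, l.Prime ∧ ∃ y : ℂ, IsIntegral ℤ y ∧ (1 - lam) ^ (l - 1) * y = l := by
  have hint : IsIntegral ℤ lam := IsIntegral.of_pow hk (by rw [hl]; exact isIntegral_one)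
  have hfin : IsOfFinOrder lam := isOfFinOrder_iff_pow_eq_one.2 ⟨k, hk, hl⟩
  have hn0 : orderOf lam ≠ 0 := hfin.orderOf_pos.ne'
  have hn1 : orderOf lam ≠ 1 := fun h => h1 (orderOf_eq_one_iff.1 h)
  have hpr := Nat.minFac_prime hn1
  set l := (orderOf lam).minFac with hl'
  set j := orderOf lam / l with hj
  have ho : orderOf (lam ^ j) = l := orderOf_pow_orderOf_div hn0 (Nat.minFac_dvd _)
  obtain ⟨n, hn⟩ : ∃ n, l = n + 1 := ⟨l - 1, by have := hpr.pos; omega⟩
  have hprim : IsPrimitiveRoot (lam ^ j) (n + 1) := by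
    rw [← hn, ← ho]; exact IsPrimitiveRoot.orderOf _
  have hprod := hprim.prod_one_sub_pow_eq_order
  refine ⟨l, hpr, ∏ a ∈ Finset.range n, ∑ i ∈ Finset.range (j * (a + 1)), lam ^ i, ?_, ?_⟩
  · exact IsIntegral.prod _ fun a _ => IsIntegral.sum _ fun i _ => hint.pow i
  · rw [hn, Nat.add_sub_cancel]
    push_cast
    have hc : (1 - lam) ^ n = ∏ _a ∈ Finset.range n, (1 - lam) := by simp
    rw [← hprod, hc, ← Finset.prod_mul_distrib]
    refine Finset.prod_congr rfl fun a _ => ?_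
    rw [mul_neg_geom_sum, pow_mul]

theorem root_local {lam : ℂ} (h1 : lam ≠ 1) {k : ℕ} (hk : 0 < k) (hl : lam ^ k = 1)
    {q : ℕ} (hq : q.Prime) {r : ℂ} (hr : r ^ (q - 1) = q) :
    ∃ N : ℕ, ¬ q ∣ N ∧ IsIntegral ℤ (r * N * (1 - lam)⁻¹) := by
  have hint : IsIntegral ℤ lam := IsIntegral.of_pow hk (by rw [hl]; exact isIntegral_one)
  have hq1 : 0 < q - 1 := by have := hq.two_le; omega
  have hri : IsIntegral ℤ r := IsIntegral.of_pow hq1 (by
    rw [hr]; exact_mod_cast isIntegral_algebraMap (R := ℤ) (A := ℂ) (x := (q : ℤ)))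
  have hne : (1 - lam) ≠ 0 := sub_ne_zero.2 h1.symm
  obtain ⟨l, hlp, y, hy, hyl⟩ := root_prime h1 hk hl
  by_cases hlq : l = q
  · subst hlq
    refine ⟨1, hq.not_dvd_one, IsIntegral.of_pow hq1 ?_⟩
    have : (r * (1 : ℕ) * (1 - lam)⁻¹) ^ (l - 1) = y := by
      rw [Nat.cast_one, mul_one, mul_pow, hr, ← hyl, inv_pow]
      field_simp
    rw [this]
    exact hy
  · refine ⟨l, fun h => hlq ((Nat.prime_dvd_prime_iff_eq hq hlp).1 h).symm, ?_⟩
    obtain ⟨n, hn⟩ : ∃ n, l - 1 = n + 1 := ⟨l - 2, by have := hlp.two_le; omega⟩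
    have : r * l * (1 - lam)⁻¹ = r * ((1 - lam) ^ n * y) := by
      rw [← hyl, hn, pow_succ]
      field_simp
    rw [this]
    exact hri.mul (((isIntegral_one.sub hint).pow n).mul hy)

theorem expand_step (p : ℕ) (n : ℕ) : ∀ (k : ℕ) (H Q : ℤ[X]),
    (1 - X) ^ n * H = (∑ i ∈ Finset.range p, X ^ i) ^ k * expand ℤ p Q →
      (p : ℤ) ^ (n + k) ∣ H.eval 1 := by
  have hΦ : (∑ i ∈ Finset.range p, (X : ℤ[X]) ^ i).eval 1 = p := by
    simp [Polynomial.eval_finsetSum]
  induction n with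
  | zero =>
    intro k H Q h
    rw [pow_zero, one_mul] at h
    rw [h, eval_mul, eval_pow, hΦ, zero_add]
    exact dvd_mul_right _ _
  | succ n ih =>
    intro k H Q h
    by_cases hp : p = 0
    · subst hp
      rcases Nat.eq_zero_or_pos k with rfl | hk
      · have h1 := congrArg (eval 1) h
        simp at h1
        have h2 : (1 - X : ℤ[X]) ^ (n + 1) * H = 0 := by
          rw [h]
          simp [h1]
        have h3 : H = 0 := by
          refine (mul_eq_zero.1 h2).resolve_left (pow_ne_zero _ ?_)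
          intro h4
          have := congrArg (eval 0) h4
          simp at this
        rw [h3]
        simp
      · have h2 : (1 - X : ℤ[X]) ^ (n + 1) * H = 0 := by
          rw [h]
          simp [hk.ne']
        have h3 : H = 0 := by
          refine (mul_eq_zero.1 h2).resolve_left (pow_ne_zero _ ?_)
          intro h4
          have := congrArg (eval 0) h4
          simp at this
        rw [h3]
        simp
    have h1 := congrArg (eval 1) h
    rw [eval_mul, eval_mul, eval_pow, eval_pow, hΦ, expand_eval, one_pow] at h1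
    have h2 : Q.eval 1 = 0 := by
      have h3 : (p : ℤ) ^ k ≠ 0 := pow_ne_zero _ (by exact_mod_cast hp)
      simp only [eval_sub, eval_one, eval_X, sub_self, ne_eq, Nat.add_eq_zero_iff, one_ne_zero,
        and_false, not_false_eq_true, zero_pow, zero_mul] at h1
      exact (mul_eq_zero.1 h1.symm).resolve_left h3
    obtain ⟨Q', hQ'⟩ := (dvd_iff_isRoot (p := Q) (a := 1)).2 h2
    have h4 : expand ℤ p Q = (1 - X) * ((∑ i ∈ Finset.range p, X ^ i) * expand ℤ p (-Q')) := by
      rw [hQ', map_mul, map_neg, map_sub, expand_X, expand_C, C_1, ← mul_assoc,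
        mul_neg_geom_sum]
      ring
    have h5 : (1 - X : ℤ[X]) ≠ 0 := by
      intro h4
      have := congrArg (eval 0) h4
      simp at this
    have h6 : (1 - X) ^ n * H = (∑ i ∈ Finset.range p, X ^ i) ^ (k + 1) * expand ℤ p (-Q') := by
      apply mul_left_cancel₀ h5
      rw [h4] at h
      linear_combination h
    have := ih (k + 1) H (-Q') h6
    rwa [show n + 1 + k = n + (k + 1) by ring]

end C6Aux

theorem two_mul_int {G V : Type} [Group G] [Finite G] [AddCommGroup V] [Module ℂ V]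
    (ρ : G → Module.End ℂ V) (h1 : ρ 1 = 1) (hm : ∀ w w', ρ (w * w') = ρ w' * ρ w)
    (R : Finset G) (lam : G → ℂ) (hl : ∀ s ∈ R, lam s ≠ 1 ∧ ∃ k, 0 < k ∧ lam s ^ k = 1)
    {z : ℚ} {v : V} (hv : v ≠ 0) (hz : (∑ s ∈ R, (1 - lam s)⁻¹ • ρ s) v = (z : ℂ) • v) :
    ∃ k : ℤ, 2 * z = k := by
  classical
  have key : ∀ q : ℕ, q.Prime → ∃ N : ℕ, ¬ q ∣ N ∧ ∃ m : ℤ, (q : ℚ) * (N * z) ^ (q - 1) = m := by
    intro q hq
    have hq1 : 0 < q - 1 := by have := hq.two_le; omega
    obtain ⟨r, hr⟩ := IsAlgClosed.exists_pow_nat_eq (q : ℂ) hq1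
    have hs : ∀ s, ∃ N : ℕ, ¬ q ∣ N ∧ (s ∈ R → IsIntegral ℤ (r * N * (1 - lam s)⁻¹)) := by
      intro s
      by_cases h : s ∈ R
      · obtain ⟨a, k, hk, hk'⟩ := hl s h
        obtain ⟨N, b, c⟩ := C6Aux.root_local a hk hk' hq hr
        exact ⟨N, b, fun _ => c⟩
      · exact ⟨1, hq.not_dvd_one, fun h' => absurd h' h⟩
    choose N hN hI using hs
    refine ⟨∏ s ∈ R, N s, ?_, ?_⟩
    · intro h
      obtain ⟨s, -, hs⟩ := (Prime.dvd_finsetProd_iff hq.prime _).1 h
      exact hN s hs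
    · set M := ∏ s ∈ R, N s with hM
      have hc : ∀ s ∈ R, IsIntegral ℤ (r * M * (1 - lam s)⁻¹) := by
        intro s hs
        obtain ⟨t, ht⟩ : N s ∣ M := Finset.dvd_prod_of_mem N hs
        have : r * M * (1 - lam s)⁻¹ = (t : ℂ) * (r * N s * (1 - lam s)⁻¹) := by
          rw [ht]; push_cast; ring
        rw [this]
        refine IsIntegral.mul ?_ (hI s hs)
        exact_mod_cast isIntegral_algebraMap (R := ℤ) (A := ℂ) (x := (t : ℤ))
      have hx : (∑ s ∈ R, (r * M * (1 - lam s)⁻¹) • ρ s) v = (r * M * (z : ℂ)) • v := by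
        rw [mul_smul (r * M) (z : ℂ) v, ← hz, ← LinearMap.smul_apply, Finset.smul_sum]
        simp only [smul_smul]
      have hi := (C6Aux.eigen_integral ρ h1 hm R _ hc hv hx).pow (q - 1)
      have he : (r * M * (z : ℂ)) ^ (q - 1) = algebraMap ℚ ℂ ((q : ℚ) * (M * z) ^ (q - 1)) := by
        rw [mul_assoc, mul_pow, hr]
        simp
      rw [he, isIntegral_algebraMap_iff (algebraMap ℚ ℂ).injective] at hi
      obtain ⟨m, hm'⟩ := IsIntegrallyClosed.isIntegral_iff.1 hi
      exact ⟨m, by rw [← hm']; simp⟩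
  set y := 2 * z with hy
  by_cases hd : y.den = 1
  · exact ⟨y.num, (Rat.coe_int_num_of_den_eq_one hd).symm⟩
  exfalso
  obtain ⟨q, hq, hqd⟩ := Nat.exists_prime_and_dvd hd
  obtain ⟨N, hN, m, hNm⟩ := key q hq
  have hqz : Prime (q : ℤ) := Nat.prime_iff_prime_int.1 hq
  have hnum : ¬ (q : ℤ) ∣ y.num := by
    intro h
    have h2 : q ∣ y.num.natAbs := Int.natCast_dvd.1 h
    have h3 : q ∣ 1 := by
      rw [← y.reduced]
      exact Nat.dvd_gcd h2 hqd
    exact hq.not_dvd_one h3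
  have hN' : ¬ (q : ℤ) ∣ (N : ℤ) := fun h => hN (Int.natCast_dvd_natCast.1 h)
  have hyd : y * y.den = y.num := Rat.mul_den_eq_num y
  obtain ⟨b, hb⟩ := hqd
  rcases hq.eq_two_or_odd' with h2 | h2
  · subst h2
    have e1 : ((N * y.num : ℤ) : ℚ) = ((m * y.den : ℤ) : ℚ) := by
      have hNm' : (m : ℚ) = 2 * (N * z) := by
        rw [← hNm]
        norm_num
      push_cast
      rw [← hyd, hNm']
      linear_combination ((N : ℚ) * y.den) * hy
    have e2 : (N : ℤ) * y.num = m * y.den := by exact_mod_cast e1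
    have e3 : ((2 : ℕ) : ℤ) ∣ (N : ℤ) * y.num := by
      rw [e2, hb]
      push_cast
      exact Dvd.intro (m * b) (by ring)
    rcases hqz.dvd_or_dvd e3 with h | h
    · exact hN' h
    · exact hnum h
  · obtain ⟨n, hn⟩ : ∃ n, q - 1 = n + 2 := by
      have := hq.two_le
      obtain ⟨c, hc⟩ := h2
      exact ⟨q - 3, by omega⟩
    rw [hn] at hNm
    have e1 : ((q * (N * y.num) ^ (n + 2) : ℤ) : ℚ) = ((m * (2 * y.den) ^ (n + 2) : ℤ) : ℚ) := by
      push_cast
      rw [← hyd, ← hNm, hy]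
      ring
    have e2 : (q : ℤ) * (N * y.num) ^ (n + 2) = m * (2 * y.den) ^ (n + 2) := by exact_mod_cast e1
    have hq0 : (q : ℤ) ≠ 0 := hqz.ne_zero
    have e3 : ((N : ℤ) * y.num) ^ (n + 2) = q * (m * (2 * b) ^ (n + 2) * q ^ n) := by
      apply mul_left_cancel₀ hq0
      rw [e2, hb]
      push_cast
      ring
    have e4 : (q : ℤ) ∣ (N : ℤ) * y.num := hqz.dvd_of_dvd_pow (Dvd.intro _ e3.symm)
    rcases hqz.dvd_or_dvd e4 with h | h
    · exact hN' h
    · exact hnum h

theorem pow_dvd_eval (p n a : ℕ) (hp : 0 < p) (H : Polynomial ℤ)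
    (h : ∀ k, ((1 - Polynomial.X) ^ n * H).coeff k ≠ 0 → k ≡ a [MOD p]) :
    (p : ℤ) ^ n ∣ H.eval 1 := by
  set F := (1 - Polynomial.X) ^ n * H with hF
  set b := (p - 1) * a with hb
  have hex : Polynomial.expand ℤ p (Polynomial.contract p (F * Polynomial.X ^ b)) =
      F * Polynomial.X ^ b := by
    ext k
    rw [Polynomial.coeff_expand hp]
    split_ifs with hk
    · rw [Polynomial.coeff_contract hp.ne', Nat.div_mul_cancel hk]
    · by_contra hne
      rw [Polynomial.coeff_mul_X_pow'] at hne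
      split_ifs at hne with hbk
      · have h1 := h (k - b) (fun e => hne e.symm)
        have h2 : k - b + b ≡ a + b [MOD p] := h1.add_right b
        rw [Nat.sub_add_cancel hbk] at h2
        have h3 : a + b = p * a := by
          obtain ⟨c, rfl⟩ : ∃ c, p = c + 1 := ⟨p - 1, by omega⟩
          rw [hb, Nat.add_sub_cancel]
          ring
        rw [h3] at h2
        exact hk ((Nat.modEq_zero_iff_dvd).1 (h2.trans (Nat.modEq_zero_iff_dvd.2 (dvd_mul_right _ _))))
      · exact hne rfl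
  have := C6Aux.expand_step p n 0 (H * Polynomial.X ^ b)
    (Polynomial.contract p (F * Polynomial.X ^ b)) (by rw [hex, pow_zero, one_mul, hF, mul_assoc])
  simpa using this

end Pool.Agent.P.MP_97ea17_al.Cx
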