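import Mathlib

/-! Creation and annihilation operators on the exterior algebra, as matrices. -/

namespace Pool.Agent.P.MP_97ea17_al.Cx.C7Aux

open scoped Matrix

variable {n : ℕ}

/-- The exterior algebra of the space of covectors. -/
abbrev EA (n : ℕ) := ExteriorAlgebra ℂ (Fin n → ℂ)

/-- Matrices indexed by subsets. -/
abbrev Mt (n : ℕ) := Matrix (Finset (Fin n)) (Finset (Fin n)) ℂ

/-- Pairing with a vector. -/
noncomputable def pr : (Fin n → ℂ) →ₗ[ℂ] Module.Dual ℂ (Fin n → ℂ) :=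
  (dotProductBilin ℂ ℂ).flip

theorem pr_apply (y l : Fin n → ℂ) : pr y l = l ⬝ᵥ y := rfl

/-- Creation. -/
noncomputable def ce : (Fin n → ℂ) →ₗ[ℂ] Module.End ℂ (EA n) :=
  (Algebra.lmul ℂ (EA n)).toLinearMap ∘ₗ ExteriorAlgebra.ι ℂ

/-- Annihilation. -/
noncomputable def ci : (Fin n → ℂ) →ₗ[ℂ] Module.End ℂ (EA n) :=
  (CliffordAlgebra.contractLeft (Q := (0 : QuadraticForm ℂ (Fin n → ℂ)))) ∘ₗ pr

theorem ce_apply (l : Fin n → ℂ) (x : EA n) : ce l x = ExteriorAlgebra.ι ℂ l * x := rfl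

theorem ci_mul (y l : Fin n → ℂ) (x : EA n) :
    ci y (ExteriorAlgebra.ι ℂ l * x) = (l ⬝ᵥ y) • x - ExteriorAlgebra.ι ℂ l * ci y x :=
  CliffordAlgebra.contractLeft_ι_mul (pr y) l x

theorem ci_alg (y : Fin n → ℂ) (r : ℂ) : ci y (algebraMap ℂ (EA n) r) = 0 :=
  CliffordAlgebra.contractLeft_algebraMap _ (pr y) r

theorem ι_swap (l l' : Fin n → ℂ) (x : EA n) :
    ExteriorAlgebra.ι ℂ l * (ExteriorAlgebra.ι ℂ l' * x) =
      -(ExteriorAlgebra.ι ℂ l' * (ExteriorAlgebra.ι ℂ l * x)) := by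
  rw [← mul_assoc, ← mul_assoc, eq_neg_iff_add_eq_zero, ← add_mul,
    ExteriorAlgebra.ι_add_mul_swap, zero_mul]

theorem ce_ce (l l' : Fin n → ℂ) : ce l * ce l' = -(ce l' * ce l) :=
  LinearMap.ext fun x => ι_swap l l' x

theorem ci_ci (y y' : Fin n → ℂ) : ci y * ci y' = -(ci y' * ci y) :=
  LinearMap.ext fun x => CliffordAlgebra.contractLeft_comm (pr y) (pr y') x

theorem ci_ce (y l : Fin n → ℂ) : ci y * ce l + ce l * ci y = (l ⬝ᵥ y) • 1 :=
  LinearMap.ext fun x => by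
    change ci y (ExteriorAlgebra.ι ℂ l * x) + ExteriorAlgebra.ι ℂ l * ci y x = (l ⬝ᵥ y) • x
    rw [ci_mul, sub_add_cancel]

/-- The action of matrices. -/
noncomputable def cl (A : Matrix (Fin n) (Fin n) ℂ) : Module.End ℂ (EA n) :=
  (ExteriorAlgebra.map A.vecMulLinear).toLinearMap

theorem cl_mul_ι (A : Matrix (Fin n) (Fin n) ℂ) (l : Fin n → ℂ) (x : EA n) :
    cl A (ExteriorAlgebra.ι ℂ l * x) = ExteriorAlgebra.ι ℂ (l ᵥ* A) * cl A x := by
  change ExteriorAlgebra.map A.vecMulLinear _ = _ * ExteriorAlgebra.map A.vecMulLinear _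
  rw [map_mul, ExteriorAlgebra.map_apply_ι]
  rfl

theorem cl_alg (A : Matrix (Fin n) (Fin n) ℂ) (r : ℂ) :
    cl A (algebraMap ℂ (EA n) r) = algebraMap ℂ (EA n) r :=
  (ExteriorAlgebra.map A.vecMulLinear).commutes r

theorem cl_mul (A B : Matrix (Fin n) (Fin n) ℂ) : cl (A * B) = cl B * cl A :=
  LinearMap.ext fun x => by
    change cl (A * B) x = cl B (cl A x)
    induction x using CliffordAlgebra.left_induction with
    | algebraMap r => exact (cl_alg _ r).trans (by rw [cl_alg, cl_alg])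
    | add x y hx hy => rw [map_add, map_add, map_add, hx, hy]
    | ι_mul x l hx =>
      refine (cl_mul_ι _ l x).trans ?_
      rw [hx, ← Matrix.vecMul_vecMul, ← cl_mul_ι, ← cl_mul_ι]

theorem cl_refl (t : ℂ) (v a : Fin n → ℂ) :
    cl (1 + t • Matrix.vecMulVec v a) = 1 + t • (ce a * ci v) :=
  LinearMap.ext fun x => by
    change cl _ x = x + t • (ExteriorAlgebra.ι ℂ a * ci v x)
    induction x using CliffordAlgebra.left_induction with
    | algebraMap r => exact (cl_alg _ r).trans (by rw [ci_alg, mul_zero, smul_zero, add_zero])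
    | add x y hx hy => rw [map_add, map_add, hx, hy, mul_add, smul_add]; abel
    | ι_mul x l hx =>
      refine (cl_mul_ι _ l x).trans ?_
      have h1 : l ᵥ* (1 + t • Matrix.vecMulVec v a) = l + (t * (l ⬝ᵥ v)) • a := by
        rw [Matrix.vecMul_add, Matrix.vecMul_one, Matrix.vecMul_smul, Matrix.vecMul_vecMulVec,
          smul_smul]
      have h2 : ExteriorAlgebra.ι ℂ a * (ExteriorAlgebra.ι ℂ a * ci v x) = 0 := by
        rw [← mul_assoc, ExteriorAlgebra.ι_sq_zero, zero_mul]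
      rw [hx, h1, ci_mul, map_add, map_smul, mul_sub, ι_swap a l, add_mul, mul_add, mul_add,
        smul_mul_assoc, smul_mul_assoc, mul_smul_comm, mul_smul_comm, mul_smul_comm, h2]
      module

theorem cl_one : cl (1 : Matrix (Fin n) (Fin n) ℂ) = 1 := by
  simpa using cl_refl (n := n) 0 0 0

theorem deg_ce {B : Type} [Ring B] [Algebra ℂ B] (e i : (Fin n → ℂ) →ₗ[ℂ] B)
    (hee : ∀ l l', e l * e l' = -(e l' * e l))
    (hie : ∀ y l, i y * e l + e l * i y = (l ⬝ᵥ y) • 1) (l : Fin n → ℂ) :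
    (∑ j, e (Pi.single j 1) * i (Pi.single j 1)) * e l =
      e l * (∑ j, e (Pi.single j 1) * i (Pi.single j 1)) + e l := by
  have h1 : e l = ∑ j, l j • e (Pi.single j 1) := by
    conv_lhs => rw [pi_eq_sum_univ' l, map_sum]
    simp only [map_smul]
  rw [Finset.sum_mul, Finset.mul_sum]
  conv_rhs => enter [2]; rw [h1]
  rw [← Finset.sum_add_distrib]
  refine Finset.sum_congr rfl fun j _ => ?_
  rw [mul_assoc, eq_sub_of_add_eq (hie (Pi.single j 1) l), mul_sub, ← mul_assoc,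
    hee (Pi.single j 1) l, dotProduct_single_one, mul_smul_comm, mul_one, neg_mul, sub_neg_eq_add,
    add_comm, mul_assoc]

theorem deg_ci {B : Type} [Ring B] [Algebra ℂ B] (e i : (Fin n → ℂ) →ₗ[ℂ] B)
    (hii : ∀ l l', i l * i l' = -(i l' * i l))
    (hie : ∀ y l, i y * e l + e l * i y = (l ⬝ᵥ y) • 1) (y : Fin n → ℂ) :
    (∑ j, e (Pi.single j 1) * i (Pi.single j 1)) * i y =
      i y * (∑ j, e (Pi.single j 1) * i (Pi.single j 1)) - i y := by
  have h1 : i y = ∑ j, y j • i (Pi.single j 1) := by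
    conv_lhs => rw [pi_eq_sum_univ' y, map_sum]
    simp only [map_smul]
  rw [Finset.sum_mul, Finset.mul_sum]
  conv_rhs => enter [2]; rw [h1]
  rw [← Finset.sum_sub_distrib]
  refine Finset.sum_congr rfl fun j _ => ?_
  rw [mul_assoc, hii (Pi.single j 1) y, ← mul_assoc (i y),
    eq_sub_of_add_eq (hie y (Pi.single j 1)), single_one_dotProduct, sub_mul, smul_mul_assoc,
    one_mul, mul_neg, mul_assoc]
  abel

theorem deg_prod (L : List (Fin n → ℂ)) :
    (∑ j, ce (Pi.single j 1) * ci (Pi.single j 1) : Module.End ℂ (EA n))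
      (L.map (ExteriorAlgebra.ι ℂ)).prod = (L.length : ℂ) • (L.map (ExteriorAlgebra.ι ℂ)).prod := by
  induction L with
  | nil =>
    have := fun y => ci_alg (n := n) y 1
    simp only [map_one] at this
    simp [LinearMap.sum_apply, this]
  | cons l L ih =>
    have h := LinearMap.congr_fun (deg_ce ce ci ce_ce ci_ce l) (L.map (ExteriorAlgebra.ι ℂ)).prod
    rw [List.map_cons, List.prod_cons]
    refine h.trans ?_
    rw [LinearMap.add_apply, Module.End.mul_apply, ih, map_smul, ce_apply, List.length_cons,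
      Nat.cast_succ, add_smul, one_smul]

theorem exists_fermi (n : ℕ) : ∃ (e i : (Fin n → ℂ) →ₗ[ℂ] Mt n)
    (L : Matrix (Fin n) (Fin n) ℂ → Mt n),
    (∀ l l', e l * e l' = -(e l' * e l)) ∧ (∀ y y', i y * i y' = -(i y' * i y)) ∧
    (∀ y l, i y * e l + e l * i y = (l ⬝ᵥ y) • 1) ∧
    (∑ j, e (Pi.single j 1) * i (Pi.single j 1) = Matrix.diagonal fun S => (S.card : ℂ)) ∧
    L 1 = 1 ∧ (∀ A B, L (A * B) = L B * L A) ∧
    ∀ (t : ℂ) v a, L (1 + t • Matrix.vecMulVec v a) = 1 + t • (e a * i v) := by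
  let b := (Pi.basisFun ℂ (Fin n)).ExteriorAlgebra
  let Φ : Module.End ℂ (EA n) ≃ₐ[ℂ] Mt n := LinearMap.toMatrixAlgEquiv b
  refine ⟨Φ.toLinearMap ∘ₗ ce, Φ.toLinearMap ∘ₗ ci, fun A => Φ (cl A), fun l l' => ?_,
    fun y y' => ?_, fun y l => ?_, ?_, ?_, fun A B => ?_, fun t v a => ?_⟩
  · change Φ _ * Φ _ = -(Φ _ * Φ _)
    rw [← map_mul, ce_ce, map_neg, map_mul]
  · change Φ _ * Φ _ = -(Φ _ * Φ _)
    rw [← map_mul, ci_ci, map_neg, map_mul]
  · change Φ _ * Φ _ + Φ _ * Φ _ = _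
    rw [← map_mul, ← map_mul, ← map_add, ci_ce, map_smul, map_one]
  · change ∑ j, Φ (ce (Pi.single j 1)) * Φ (ci (Pi.single j 1)) = _
    simp only [← map_mul]
    rw [← map_sum]
    ext S S'
    have h1 : ∃ L : List (Fin n → ℂ), L.length = S'.card ∧
        b S' = (L.map (ExteriorAlgebra.ι ℂ)).prod := by
      have h5 : ∀ v : Fin S'.card → Fin n → ℂ, ∃ L : List (Fin n → ℂ), L.length = S'.card ∧
          ExteriorAlgebra.ιMulti ℂ S'.card v = (L.map (ExteriorAlgebra.ι ℂ)).prod := fun v =>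
        ⟨List.ofFn v, List.length_ofFn, by
          rw [ExteriorAlgebra.ιMulti_apply, List.map_ofFn]; rfl⟩
      rw [ExteriorAlgebra.basis_apply]
      exact h5 _
    obtain ⟨L, h2, h3⟩ := h1
    have h4 := deg_prod L
    rw [← h3, h2] at h4
    change LinearMap.toMatrixAlgEquiv b _ S S' = _
    rw [LinearMap.toMatrixAlgEquiv_apply, h4, map_smul, Module.Basis.repr_self,
      Matrix.diagonal_apply, Finsupp.smul_apply, Finsupp.single_apply]
    by_cases h : S = S'
    · simp [h]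
    · simp [h, Ne.symm h]
  · change Φ _ = _
    rw [cl_one, map_one]
  · change Φ _ = Φ _ * Φ _
    rw [cl_mul, map_mul]
  · change Φ _ = 1 + t • (Φ _ * Φ _)
    rw [cl_refl, map_add, map_one, map_smul, map_mul]

end Pool.Agent.P.MP_97ea17_al.Cx.C7Aux
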