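import Pool.Agent.P.MP_97ea17_al.F.CDefs
import Pool.Agent.P.MP_97ea17_al.F.C6
import Pool.Agent.P.MP_97ea17_al.F.C7a

/-! A Koszul complex bounds the dimension of finite-dimensional modules from below. -/

namespace Pool.Agent.P.MP_97ea17_al.Cx.C7Aux

open scoped Matrix

variable {n : ℕ} {M : Type} [AddCommGroup M] [Module ℂ M]

theorem lin_expand {B : Type} [AddCommGroup B] [Module ℂ B] (e : (Fin n → ℂ) →ₗ[ℂ] B)
    (l : Fin n → ℂ) : ∑ j, l j • e (Pi.single j 1) = e l := by
  conv_rhs => rw [pi_eq_sum_univ' l, map_sum]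
  simp only [map_smul]

theorem bil_expand {B : Type} [Ring B] [Algebra ℂ B] (e i : (Fin n → ℂ) →ₗ[ℂ] B)
    (a v : Fin n → ℂ) :
    ∑ j, ∑ k, (a k * v j) • (e (Pi.single k 1) * i (Pi.single j 1)) = e a * i v := by
  rw [← lin_expand e a, ← lin_expand i v, Finset.sum_mul_sum, Finset.sum_comm]
  simp only [smul_mul_smul_comm]

/-- Families of vectors indexed by subsets. -/
def NN (n : ℕ) (M : Type) : Type := Finset (Fin n) → M

instance : AddCommGroup (NN n M) := inferInstanceAs (AddCommGroup (Finset (Fin n) → M))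

instance : Module ℂ (NN n M) := inferInstanceAs (Module ℂ (Finset (Fin n) → M))

/-- Componentwise action. -/
noncomputable def fM (n : ℕ) : Module.End ℂ M →ₐ[ℂ] Module.End ℂ (NN n M) where
  toFun a := a.compLeft (Finset (Fin n))
  map_one' := rfl
  map_mul' _ _ := rfl
  map_zero' := rfl
  map_add' _ _ := rfl
  commutes' _ := rfl

theorem fM_apply (a : Module.End ℂ M) (v : NN n M) (S : Finset (Fin n)) :
    fM n a v S = a (v S) := rfl

/-- Action of a matrix on families of vectors. -/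
noncomputable def gL (M : Type) [AddCommGroup M] [Module ℂ M] (B : Mt n) :
    Module.End ℂ (NN n M) where
  toFun v S := ∑ S', B S S' • v S'
  map_add' v w := funext fun S => by
    change ∑ S', B S S' • (v S' + w S') = ∑ S', B S S' • v S' + ∑ S', B S S' • w S'
    simp [Finset.sum_add_distrib]
  map_smul' c v := funext fun S => by
    change ∑ S', B S S' • c • v S' = c • ∑ S', B S S' • v S'
    simp [Finset.smul_sum, smul_comm c]

theorem gL_diag (f : Finset (Fin n) → ℂ) (v : NN n M) (S : Finset (Fin n)) :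
    gL M (Matrix.diagonal f) v S = f S • v S := by
  change ∑ S', Matrix.diagonal f S S' • v S' = _
  simp [Matrix.diagonal_apply, ite_smul]

/-- Action of matrices on families of vectors. -/
noncomputable def gM (M : Type) [AddCommGroup M] [Module ℂ M] :
    Mt n →ₐ[ℂ] Module.End ℂ (NN n M) where
  toFun := gL M
  map_one' := by
    refine LinearMap.ext fun v => funext fun S => ?_
    rw [← Matrix.diagonal_one, gL_diag, one_smul]; rfl
  map_mul' A B := by
    refine LinearMap.ext fun v => funext fun S => ?_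
    change ∑ S', (A * B) S S' • v S' = ∑ S', A S S' • ∑ S'', B S' S'' • v S''
    simp only [Matrix.mul_apply, Finset.sum_smul, Finset.smul_sum, mul_smul]
    exact Finset.sum_comm
  map_zero' := by
    refine LinearMap.ext fun v => funext fun S => ?_
    change ∑ S', (0 : Mt n) S S' • v S' = 0
    simp
  map_add' A B := by
    refine LinearMap.ext fun v => funext fun S => ?_
    change ∑ S', (A + B) S S' • v S' = ∑ S', A S S' • v S' + ∑ S', B S S' • v S'
    simp [add_smul, Finset.sum_add_distrib]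
  commutes' c := by
    refine LinearMap.ext fun v => funext fun S => ?_
    rw [Matrix.algebraMap_eq_diagonal, gL_diag]
    rfl

theorem gM_diag (f : Finset (Fin n) → ℂ) (v : NN n M) (S : Finset (Fin n)) :
    gM M (Matrix.diagonal f) v S = f S • v S := gL_diag f v S

theorem fg_comm (a : Module.End ℂ M) (B : Mt n) : gM M B * fM n a = fM n a * gM M B := by
  refine LinearMap.ext fun v => funext fun S => ?_
  change ∑ S', B S S' • a (v S') = a (∑ S', B S S' • v S')
  simp

theorem fg_mul (a a' : Module.End ℂ M) (B B' : Mt n) :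
    fM n a * gM M B * (fM n a' * gM M B') = fM n (a * a') * gM M (B * B') := by
  rw [map_mul, map_mul, mul_assoc, ← mul_assoc (gM M B), fg_comm, mul_assoc, mul_assoc]

theorem sq_zero (u : Fin n → Module.End ℂ M) (w : Fin n → Mt n)
    (hu : ∀ j k, u j * u k = u k * u j) (hw : ∀ j k, w j * w k = -(w k * w j)) :
    (∑ j, fM n (u j) * gM M (w j)) * (∑ j, fM n (u j) * gM M (w j)) = 0 := by
  rw [Finset.sum_mul_sum]
  simp only [fg_mul]
  have h : ∑ j, ∑ k, fM n (u j * u k) * gM M (w j * w k) =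
      -∑ j, ∑ k, fM n (u j * u k) * gM M (w j * w k) := by
    conv_rhs => rw [Finset.sum_comm]
    simp only [← Finset.sum_neg_distrib]
    refine Finset.sum_congr rfl fun j _ => Finset.sum_congr rfl fun k _ => ?_
    rw [hu j k, hw j k, map_neg, mul_neg]
  have h2 : (2 : ℂ) • ∑ j, ∑ k, fM n (u j * u k) * gM M (w j * w k) = 0 := by
    rw [two_smul]; exact add_eq_zero_iff_eq_neg.2 h
  exact (smul_eq_zero.1 h2).resolve_left two_ne_zero

theorem par_anti (B : Mt n) (t : ℤ) (ht : Odd t)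
    (h : Matrix.diagonal (fun S : Finset (Fin n) => (S.card : ℂ)) * B =
      B * Matrix.diagonal (fun S : Finset (Fin n) => (S.card : ℂ)) + (t : ℂ) • B) :
    Matrix.diagonal (fun S : Finset (Fin n) => (-1 : ℂ) ^ S.card) * B =
      -(B * Matrix.diagonal fun S : Finset (Fin n) => (-1 : ℂ) ^ S.card) := by
  ext S S'
  have h1 := congrFun (congrFun h S) S'
  simp only [Matrix.diagonal_mul, Matrix.mul_diagonal, Matrix.add_apply, Matrix.smul_apply,
    smul_eq_mul, Matrix.neg_apply] at h1 ⊢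
  by_cases h0 : B S S' = 0
  · simp [h0]
  have h2 : (S.card : ℂ) = S'.card + t := mul_right_cancel₀ h0 (by linear_combination h1)
  have h3 : (S.card : ℤ) = S'.card + t := by exact_mod_cast h2
  have h4 : (-1 : ℂ) ^ S.card = -(-1) ^ S'.card := by
    rcases Nat.even_or_odd S'.card with h5 | h5
    · have : Odd S.card := by
        rw [← Int.odd_coe_nat, h3]; exact ((Int.even_coe_nat _).2 h5).add_odd ht
      rw [h5.neg_one_pow, this.neg_one_pow]
    · have : Even S.card := by
        rw [← Int.even_coe_nat, h3]; exact ((Int.odd_coe_nat _).2 h5).add_odd ht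
      rw [h5.neg_one_pow, this.neg_one_pow, neg_neg]
  rw [h4]; ring

/-- Products of subspaces. -/
def piS (U : Finset (Fin n) → Submodule ℂ M) : Submodule ℂ (NN n M) := Submodule.pi Set.univ U

theorem mem_piS (U : Finset (Fin n) → Submodule ℂ M) (v : NN n M) :
    v ∈ piS U ↔ ∀ S, v S ∈ U S := ⟨fun h S => h S trivial, fun h S _ => h S⟩

theorem finrank_pi [Module.Finite ℂ M] (U : Finset (Fin n) → Submodule ℂ M) :
    Module.finrank ℂ (piS U) = ∑ S, Module.finrank ℂ (U S) := by
  let f : (∀ S, U S) →ₗ[ℂ] NN n M :=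
    LinearMap.pi (φ := fun _ => M) fun S => (U S).subtype ∘ₗ LinearMap.proj S
  have hf : Function.Injective f := fun v w h => funext fun S => Subtype.ext (congrFun h S)
  have hr : LinearMap.range f = piS U := by
    ext v
    rw [mem_piS]
    constructor
    · rintro ⟨w, rfl⟩ S
      exact (w S).2
    · intro hv
      exact ⟨fun S => ⟨v S, hv S⟩, rfl⟩
  rw [← hr, LinearMap.finrank_range_of_inj hf, Module.finrank_pi_fintype]

instance [Module.Finite ℂ M] : Module.Finite ℂ (NN n M) :=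
  inferInstanceAs (Module.Finite ℂ (Finset (Fin n) → M))

/-- The abstract dimension count. -/
theorem count [Module.Finite ℂ M] (ε : Module.End ℂ M) (e : ℤ) (E P Δ : Module.End ℂ (NN n M))
    (hE : E = fM n ε + gM M (Matrix.diagonal fun S => (S.card : ℂ)))
    (hP : P = gM M (Matrix.diagonal fun S => (-1 : ℂ) ^ S.card))
    (h1 : E * Δ = Δ * E) (h2 : P * Δ = -(Δ * P))
    (h3 : ∀ v, E v = (e : ℂ) • v → Δ v = 0 → v = 0) :
    ∑ k ∈ Finset.range (n + 1), (-1 : ℤ) ^ k * (n.choose k) *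
      Module.finrank ℂ (ε.eigenspace ((e - k : ℤ) : ℂ)) = 0 := by
  classical
  let U : ℂ → Finset (Fin n) → Submodule ℂ M := fun t S =>
    if (-1 : ℂ) ^ S.card = t then ε.eigenspace ((e - S.card : ℤ) : ℂ) else ⊥
  have hU : ∀ t v, v ∈ piS (U t) ↔ E v = (e : ℂ) • v ∧ P v = t • v := by
    intro t v
    have e1 : E v = (e : ℂ) • v ↔ ∀ S, ε (v S) + (S.card : ℂ) • v S = (e : ℂ) • v S := by
      refine funext_iff.trans (forall_congr' fun S => ?_)
      rw [hE, ← gM_diag (fun S => (S.card : ℂ)) v S]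
      rfl
    have e2 : P v = t • v ↔ ∀ S, (-1 : ℂ) ^ S.card • v S = t • v S := by
      refine funext_iff.trans (forall_congr' fun S => ?_)
      rw [hP, gM_diag]
      rfl
    rw [mem_piS, e1, e2, ← forall_and]
    refine forall_congr' fun S => ?_
    simp only [U]
    split_ifs with h
    · rw [Module.End.mem_eigenspace_iff, h, and_iff_left rfl, Int.cast_sub, Int.cast_natCast,
        _root_.sub_smul, eq_sub_iff_add_eq]
    · rw [Submodule.mem_bot]
      refine ⟨fun h0 => by simp [h0], fun h0 => ?_⟩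
      have := h0.2
      rw [← sub_eq_zero, ← _root_.sub_smul, smul_eq_zero, sub_eq_zero] at this
      exact this.resolve_left h
  have hle : ∀ t, Module.finrank ℂ (piS (U t)) ≤ Module.finrank ℂ (piS (U (-t))) := by
    intro t
    have hm : ∀ v ∈ piS (U t), Δ v ∈ piS (U (-t)) := by
      intro v hv
      rw [hU] at hv ⊢
      constructor
      · rw [← Module.End.mul_apply, h1, Module.End.mul_apply, hv.1, map_smul]
      · rw [← Module.End.mul_apply, h2, LinearMap.neg_apply, Module.End.mul_apply, hv.2, map_smul,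
          neg_smul]
    refine LinearMap.finrank_le_finrank_of_injective (f := Δ.restrict hm) ?_
    rw [← LinearMap.ker_eq_bot, LinearMap.ker_eq_bot']
    intro v hv
    exact Subtype.ext (h3 v.1 ((hU t v.1).1 v.2).1 (congrArg Subtype.val hv))
  have heq := le_antisymm (hle 1) (by have := hle (-1); rwa [neg_neg] at this)
  rw [finrank_pi, finrank_pi] at heq
  have h4 := Finset.sum_powerset_apply_card (x := (Finset.univ : Finset (Fin n)))
    fun k => (-1 : ℤ) ^ k * Module.finrank ℂ (ε.eigenspace ((e - k : ℤ) : ℂ))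
  rw [Finset.powerset_univ, Finset.card_univ, Fintype.card_fin] at h4
  have h5 : ∀ S : Finset (Fin n), (-1 : ℤ) ^ S.card *
      Module.finrank ℂ (ε.eigenspace ((e - S.card : ℤ) : ℂ)) =
      (Module.finrank ℂ (U 1 S) : ℤ) - Module.finrank ℂ (U (-1) S) := by
    intro S
    have h6 : (1 : ℂ) ≠ -1 := by norm_num
    rcases Nat.even_or_odd S.card with h | h
    · have h7 : U 1 S = ε.eigenspace ((e - S.card : ℤ) : ℂ) := if_pos h.neg_one_pow
      have h8 : U (-1) S = ⊥ := if_neg (by rw [h.neg_one_pow]; exact h6)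
      rw [h7, h8, h.neg_one_pow, finrank_bot]; simp
    · have h7 : U (-1) S = ε.eigenspace ((e - S.card : ℤ) : ℂ) := if_pos h.neg_one_pow
      have h8 : U 1 S = ⊥ := if_neg (by rw [h.neg_one_pow]; exact h6.symm)
      rw [h7, h8, h.neg_one_pow, finrank_bot]; simp
  simp only [h5, Finset.sum_sub_distrib, ← Nat.cast_sum, heq, sub_self] at h4
  rw [h4]
  exact Finset.sum_congr rfl fun k _ => by rw [nsmul_eq_mul]; ring

end Pool.Agent.P.MP_97ea17_al.Cx.C7Aux

namespace Pool.Agent.P.MP_97ea17_al.Cx.RD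

open scoped Matrix
open C7Aux

variable {n : ℕ} {G ι : Type} [Group G] [Fintype G] [DecidableEq G] [Fintype ι] [DecidableEq ι]
variable {D : RD n G ι} {M : Type} [AddCommGroup M] [Module ℂ M]

theorem CMod.T_X_refl {c : ℂ} (H : D.CMod c M) {s : G} (hs : s ∈ D.R) (l : Fin n → ℂ) :
    H.T s * H.X l = H.X l * H.T s +
      ((D.lam s - 1) * (l ⬝ᵥ D.nv (D.hy s))) • (H.X (D.al (D.hy s)) * H.T s) := by
  rw [H.TX, D.A_refl s hs, Matrix.vecMul_add, Matrix.vecMul_one, Matrix.vecMul_smul,
    Matrix.vecMul_vecMulVec, smul_smul, map_add, map_smul, add_mul, smul_mul_assoc]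

theorem CMod.Y_T_refl {c : ℂ} (H : D.CMod c M) {s : G} (hs : s ∈ D.R) (y : Fin n → ℂ) :
    H.Y y * H.T s = H.T s * H.Y y +
      ((D.lam s - 1) * (D.al (D.hy s) ⬝ᵥ y)) • (H.T s * H.Y (D.nv (D.hy s))) := by
  have h := H.TY s (D.A s *ᵥ y)
  rw [Matrix.mulVec_mulVec, ← map_mul, inv_mul_cancel, map_one, Matrix.one_mulVec] at h
  rw [← h, D.A_refl s hs, Matrix.add_mulVec, Matrix.one_mulVec, Matrix.smul_mulVec,
    Matrix.vecMulVec_mulVec, op_smul_eq_smul, smul_smul, map_add, map_smul, mul_add,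
    mul_smul_comm]

theorem CMod.eps_X {c : ℂ} (H : D.CMod c M) (l : Fin n → ℂ) :
    H.eps * H.X l = H.X l * (H.eps + 1) := by
  have h1 : (∑ i, H.X (Pi.single i 1) * H.Y (Pi.single i 1)) * H.X l =
      H.X l * (∑ i, H.X (Pi.single i 1) * H.Y (Pi.single i 1)) + H.X l -
        ∑ s ∈ D.R, (2 * c * (l ⬝ᵥ D.nv (D.hy s))) • (H.X (D.al (D.hy s)) * H.T s) := by
    have h2 : ∀ s, H.X (D.al (D.hy s)) * H.T s =
        ∑ i, D.al (D.hy s) i • (H.X (Pi.single i 1) * H.T s) := fun s => by
      rw [← lin_expand H.X (D.al (D.hy s)), Finset.sum_mul]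
      simp only [smul_mul_assoc]
    simp only [h2, Finset.smul_sum]
    rw [Finset.sum_comm, Finset.sum_mul, Finset.mul_sum]
    conv_rhs => enter [1, 2]; rw [← lin_expand H.X l]
    rw [← Finset.sum_add_distrib, ← Finset.sum_sub_distrib]
    refine Finset.sum_congr rfl fun i _ => ?_
    rw [mul_assoc, eq_add_of_sub_eq (H.YX (Pi.single i 1) l), mul_add, mul_sub, ← mul_assoc,
      H.XX (Pi.single i 1) l, mul_assoc, mul_smul_comm, mul_one, dotProduct_single_one,
      Finset.mul_sum, add_comm, add_sub_assoc]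
    congr 2
    refine Finset.sum_congr rfl fun s _ => ?_
    rw [mul_smul_comm, smul_smul, dotProduct_single_one]
    congr 1; ring
  have h3 : (∑ s ∈ D.R, (2 * c / (1 - D.lam s)) • H.T s) * H.X l =
      H.X l * (∑ s ∈ D.R, (2 * c / (1 - D.lam s)) • H.T s) -
        ∑ s ∈ D.R, (2 * c * (l ⬝ᵥ D.nv (D.hy s))) • (H.X (D.al (D.hy s)) * H.T s) := by
    rw [Finset.sum_mul, Finset.mul_sum, ← Finset.sum_sub_distrib]
    refine Finset.sum_congr rfl fun s hs => ?_
    have h4 : 1 - D.lam s ≠ 0 := sub_ne_zero.2 (D.lam_ne s hs).symm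
    rw [smul_mul_assoc, H.T_X_refl hs, smul_add, mul_smul_comm, smul_smul,
      sub_eq_add_neg (_ • _), ← neg_smul]
    congr 2; field_simp; ring
  rw [CMod.eps, add_mul, _root_.sub_mul, h1, h3, mul_add, mul_add, mul_sub, smul_mul_assoc,
    mul_smul_comm, one_mul, mul_one]
  abel

theorem CMod.eps_Y {c : ℂ} (H : D.CMod c M) (y : Fin n → ℂ) :
    H.eps * H.Y y = H.Y y * (H.eps - 1) := by
  have h1 : H.Y y * (∑ i, H.X (Pi.single i 1) * H.Y (Pi.single i 1)) =
      (∑ i, H.X (Pi.single i 1) * H.Y (Pi.single i 1)) * H.Y y + H.Y y -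
        ∑ s ∈ D.R, (2 * c * (D.al (D.hy s) ⬝ᵥ y)) • (H.T s * H.Y (D.nv (D.hy s))) := by
    have h2 : ∀ s, H.T s * H.Y (D.nv (D.hy s)) =
        ∑ i, D.nv (D.hy s) i • (H.T s * H.Y (Pi.single i 1)) := fun s => by
      rw [← lin_expand H.Y (D.nv (D.hy s)), Finset.mul_sum]
      simp only [mul_smul_comm]
    simp only [h2, Finset.smul_sum]
    rw [Finset.sum_comm, Finset.sum_mul, Finset.mul_sum]
    conv_rhs => enter [1, 2]; rw [← lin_expand H.Y y]
    rw [← Finset.sum_add_distrib, ← Finset.sum_sub_distrib]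
    refine Finset.sum_congr rfl fun i _ => ?_
    rw [← mul_assoc, eq_add_of_sub_eq (H.YX y (Pi.single i 1)), add_mul, _root_.sub_mul, mul_assoc,
      H.YY y (Pi.single i 1), ← mul_assoc, smul_mul_assoc, one_mul, single_one_dotProduct,
      Finset.sum_mul, add_comm, add_sub_assoc]
    congr 2
    refine Finset.sum_congr rfl fun s _ => ?_
    rw [smul_mul_assoc, smul_smul, single_one_dotProduct]
  have h3 : H.Y y * (∑ s ∈ D.R, (2 * c / (1 - D.lam s)) • H.T s) =
      (∑ s ∈ D.R, (2 * c / (1 - D.lam s)) • H.T s) * H.Y y -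
        ∑ s ∈ D.R, (2 * c * (D.al (D.hy s) ⬝ᵥ y)) • (H.T s * H.Y (D.nv (D.hy s))) := by
    rw [Finset.sum_mul, Finset.mul_sum, ← Finset.sum_sub_distrib]
    refine Finset.sum_congr rfl fun s hs => ?_
    have h4 : 1 - D.lam s ≠ 0 := sub_ne_zero.2 (D.lam_ne s hs).symm
    rw [mul_smul_comm, H.Y_T_refl hs, smul_add, smul_mul_assoc, smul_smul,
      sub_eq_add_neg (_ • _), ← neg_smul]
    congr 2; field_simp; ring
  rw [CMod.eps, mul_sub, mul_add, mul_sub, h1, h3, add_mul, _root_.sub_mul, smul_mul_assoc,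
    mul_smul_comm, one_mul, mul_one]
  abel

theorem CMod.eps_T {c : ℂ} (H : D.CMod c M) (w : G) : H.eps * H.T w = H.T w * H.eps := by
  have h1 : H.T w * (∑ i, H.X (Pi.single i 1) * H.Y (Pi.single i 1)) =
      (∑ i, H.X (Pi.single i 1) * H.Y (Pi.single i 1)) * H.T w := by
    have h2 : ∑ i, H.X (Pi.single i 1 ᵥ* D.A w) * H.Y (D.A w⁻¹ *ᵥ Pi.single i 1) =
        ∑ i, H.X (Pi.single i 1) * H.Y (Pi.single i 1) := by
      simp only [← bil_expand H.X H.Y (_ ᵥ* _)]
      rw [Finset.sum_comm]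
      refine Finset.sum_congr rfl fun j _ => ?_
      rw [Finset.sum_comm]
      simp only [← Finset.sum_smul]
      have h3 : ∀ k, ∑ i, (Pi.single i 1 ᵥ* D.A w) k * (D.A w⁻¹ *ᵥ Pi.single i 1) j =
          (1 : Matrix (Fin n) (Fin n) ℂ) j k := fun k => by
        rw [← map_one D.A, ← inv_mul_cancel w, map_mul, Matrix.mul_apply]
        simp [mul_comm]
      simp only [h3]
      simp [Matrix.one_apply, ite_smul]
    conv_rhs => rw [← h2]
    rw [Finset.sum_mul, Finset.mul_sum]
    refine Finset.sum_congr rfl fun i _ => ?_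
    rw [← mul_assoc, H.TX, mul_assoc, H.TY, mul_assoc]
  have h3 : H.T w * (∑ s ∈ D.R, (2 * c / (1 - D.lam s)) • H.T s) =
      (∑ s ∈ D.R, (2 * c / (1 - D.lam s)) • H.T s) * H.T w := by
    rw [Finset.sum_mul, Finset.mul_sum]
    refine Finset.sum_nbij' (fun s => w⁻¹ * s * w) (fun s => w⁻¹⁻¹ * s * w⁻¹)
      (fun s hs => (D.conj w s hs).1) (fun s hs => (D.conj w⁻¹ s hs).1) (fun s _ => by group)
      (fun s _ => by group) fun s hs => ?_
    rw [(D.conj w s hs).2.2, mul_smul_comm, smul_mul_assoc, ← H.T_mul, ← H.T_mul]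
    congr 2; group
  rw [CMod.eps, mul_add, mul_sub, h1, h3, add_mul, _root_.sub_mul, smul_mul_assoc, mul_smul_comm,
    one_mul, mul_one]

theorem CMod.omega {c : ℂ} (H : D.CMod c M) (e i : (Fin n → ℂ) →ₗ[ℂ] Mt n)
    (hie : ∀ y l, i y * e l + e l * i y = (l ⬝ᵥ y) • 1) :
    (∑ j, fM n (H.X (Pi.single j 1)) * gM M (i (Pi.single j 1))) *
        (∑ j, fM n (H.Y (Pi.single j 1)) * gM M (e (Pi.single j 1))) +
      (∑ j, fM n (H.Y (Pi.single j 1)) * gM M (e (Pi.single j 1))) *
        (∑ j, fM n (H.X (Pi.single j 1)) * gM M (i (Pi.single j 1))) =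
      fM n H.eps + gM M (∑ j, e (Pi.single j 1) * i (Pi.single j 1)) - ((n : ℂ) / 2) • 1 +
        (2 * c) • ∑ s ∈ D.R, (1 - D.lam s)⁻¹ • (fM n (H.T s) *
          gM M (1 + (D.lam s - 1) • (e (D.al (D.hy s)) * i (D.nv (D.hy s))))) := by
  have h1 : ∀ j k, fM n (H.X (Pi.single j 1) * H.Y (Pi.single k 1)) *
        gM M (i (Pi.single j 1) * e (Pi.single k 1)) +
      fM n (H.Y (Pi.single k 1) * H.X (Pi.single j 1)) *
        gM M (e (Pi.single k 1) * i (Pi.single j 1)) =
      (if j = k then fM n (H.X (Pi.single j 1) * H.Y (Pi.single j 1)) +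
        gM M (e (Pi.single j 1) * i (Pi.single j 1)) else 0) -
      ∑ s ∈ D.R, (2 * c) • (fM n (H.T s) * gM M ((D.al (D.hy s) k * D.nv (D.hy s) j) •
        (e (Pi.single k 1) * i (Pi.single j 1)))) := by
    intro j k
    rw [eq_add_of_sub_eq (H.YX (Pi.single k 1) (Pi.single j 1)),
      eq_sub_of_add_eq (hie (Pi.single j 1) (Pi.single k 1))]
    simp only [map_add, map_sub, map_smul, map_one, map_sum, add_mul, _root_.sub_mul, mul_sub,
      smul_mul_assoc, mul_smul_comm, one_mul, mul_one, Finset.sum_mul, dotProduct_single_one,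
      single_one_dotProduct, smul_smul, mul_assoc (2 * c)]
    by_cases h : j = k
    · subst h
      simp only [Pi.single_eq_same, one_smul, if_true]
      abel
    · simp only [Pi.single_eq_of_ne h, Pi.single_eq_of_ne (Ne.symm h), zero_smul, if_neg h]
      abel
  have h2 : ∀ s ∈ D.R, (2 * c) • (1 - D.lam s)⁻¹ • (fM n (H.T s) *
        gM M (1 + (D.lam s - 1) • (e (D.al (D.hy s)) * i (D.nv (D.hy s))))) =
      fM n ((2 * c / (1 - D.lam s)) • H.T s) -
        (2 * c) • (fM n (H.T s) * gM M (e (D.al (D.hy s)) * i (D.nv (D.hy s)))) := by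
    intro s hs
    have h4 : 1 - D.lam s ≠ 0 := sub_ne_zero.2 (D.lam_ne s hs).symm
    have h5 : (1 - D.lam s)⁻¹ * (D.lam s - 1) = -1 := by field_simp; ring
    rw [map_add, map_one, map_smul, map_smul, mul_add, mul_one, mul_smul_comm, smul_add,
      smul_smul _ (D.lam s - 1), h5, smul_add, smul_smul, div_eq_mul_inv, neg_one_smul, smul_neg,
      sub_eq_add_neg (_ • _)]
  rw [Finset.sum_mul_sum, Finset.sum_mul_sum, Finset.sum_comm (f := fun k j =>
    fM n (H.Y (Pi.single k 1)) * gM M (e (Pi.single k 1)) * _)]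
  simp only [fg_mul, ← Finset.sum_add_distrib, h1, Finset.sum_sub_distrib, Finset.sum_ite_eq,
    Finset.mem_univ, if_true]
  rw [Finset.smul_sum, Finset.sum_congr rfl h2, Finset.sum_sub_distrib, CMod.eps, map_add, map_sub,
    map_smul, map_one, map_sum, map_sum, map_sum, Finset.sum_add_distrib]
  have h3 : ∑ j, ∑ k, ∑ s ∈ D.R, (2 * c) • (fM n (H.T s) *
      gM M ((D.al (D.hy s) k * D.nv (D.hy s) j) • (e (Pi.single k 1) * i (Pi.single j 1)))) =
      ∑ s ∈ D.R, (2 * c) • (fM n (H.T s) * gM M (e (D.al (D.hy s)) * i (D.nv (D.hy s)))) := by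
    simp only [← bil_expand e i (D.al _), map_sum, Finset.mul_sum, Finset.smul_sum]
    conv_rhs => rw [Finset.sum_comm]
    exact Finset.sum_congr rfl fun j _ => Finset.sum_comm
  rw [h3]
  abel

theorem CMod.euler_zero [Module.Finite ℂ M] (H : D.CMod D.c1 M) (e : ℤ)
    (he : ¬ ((D.g : ℤ) + 1 ∣ e + D.R.card)) :
    ∑ k ∈ Finset.range (n + 1), (-1 : ℤ) ^ k * (n.choose k) *
      Module.finrank ℂ (H.eps.eigenspace ((e - k : ℤ) : ℂ)) = 0 := by
  obtain ⟨ee, ii, L, hee, hii, hie, hdeg, hL1, hLm, hLr⟩ := exists_fermi n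
  have hde := deg_ce ee ii hee hie
  have hdi := deg_ci ee ii hii hie
  have hom := H.omega ee ii hie
  rw [hdeg] at hde hdi hom
  set dg : Mt n := Matrix.diagonal fun S => (S.card : ℂ) with hdg
  set d := ∑ j, fM n (H.X (Pi.single j 1)) * gM M (ii (Pi.single j 1)) with hd
  set d' := ∑ j, fM n (H.Y (Pi.single j 1)) * gM M (ee (Pi.single j 1)) with hd'
  have hE : ∀ (a : Module.End ℂ M) (B : Mt n) (t : ℂ), H.eps * a = a * H.eps - t • a →
      dg * B = B * dg + t • B → (fM n H.eps + gM M dg) * (fM n a * gM M B) =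
        fM n a * gM M B * (fM n H.eps + gM M dg) := by
    intro a B t h1 h2
    have h3 := fg_mul H.eps a 1 B
    have h4 := fg_mul 1 a dg B
    have h5 := fg_mul a H.eps B 1
    have h6 := fg_mul a 1 B dg
    simp only [map_one, mul_one, one_mul] at h3 h4 h5 h6
    rw [add_mul, mul_add, h3, h4, h5, h6, h1, h2, map_sub, map_add, map_smul, map_smul, _root_.sub_mul,
      mul_add, smul_mul_assoc, mul_smul_comm]
    abel
  have hP : ∀ (a : Module.End ℂ M) (B : Mt n) (t : ℤ), Odd t → dg * B = B * dg + (t : ℂ) • B →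
      gM M (Matrix.diagonal fun S => (-1 : ℂ) ^ S.card) * (fM n a * gM M B) =
        -(fM n a * gM M B * gM M (Matrix.diagonal fun S => (-1 : ℂ) ^ S.card)) := by
    intro a B t ht h
    rw [← mul_assoc, fg_comm, mul_assoc, mul_assoc, ← map_mul, par_anti B t ht h, map_neg, map_mul,
      mul_neg]
  refine count H.eps e (fM n H.eps + gM M dg) _ (d + d') rfl rfl ?_ ?_ fun v hv h0 => ?_
  · rw [mul_add _ d, add_mul d, hd, hd', Finset.mul_sum, Finset.mul_sum, Finset.sum_mul,
      Finset.sum_mul]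
    congr 1 <;> refine Finset.sum_congr rfl fun j _ => ?_
    · refine hE _ _ (-1) ?_ ?_
      · rw [H.eps_X, mul_add, mul_one, neg_one_smul, sub_neg_eq_add]
      · rw [hdi, neg_one_smul, sub_eq_add_neg]
    · refine hE _ _ 1 ?_ ?_
      · rw [H.eps_Y, mul_sub, mul_one, one_smul]
      · rw [hde, one_smul]
  · rw [mul_add, add_mul, neg_add, hd, hd', Finset.mul_sum, Finset.mul_sum, Finset.sum_mul,
      Finset.sum_mul, ← Finset.sum_neg_distrib, ← Finset.sum_neg_distrib]
    congr 1 <;> refine Finset.sum_congr rfl fun j _ => ?_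
    · exact hP _ _ (-1) odd_neg_one (by rw [hdi]; simp [sub_eq_add_neg])
    · exact hP _ _ 1 odd_one (by rw [hde]; simp)
  by_contra hne
  have h1 : d * d = 0 := sq_zero _ _ (fun _ _ => H.XX _ _) fun _ _ => hii _ _
  have h2 : d' * d' = 0 := sq_zero _ _ (fun _ _ => H.YY _ _) fun _ _ => hee _ _
  have h3 : (d * d' + d' * d) v = 0 := by
    have : d * d' + d' * d = (d + d') * (d + d') := by
      rw [add_mul, mul_add, mul_add, h1, h2, zero_add, add_zero]
    rw [this, Module.End.mul_apply, h0, map_zero]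
  have h4 : ∑ s ∈ D.R, (1 - D.lam s)⁻¹ • (fM n (H.T s) *
        gM M (1 + (D.lam s - 1) • (ee (D.al (D.hy s)) * ii (D.nv (D.hy s))))) =
      ∑ s ∈ D.R, (1 - D.lam s)⁻¹ • (fM n (H.T s) * gM M (L (D.A s))) :=
    Finset.sum_congr rfl fun s hs => by rw [D.A_refl s hs, hLr]
  rw [hom, h4, LinearMap.add_apply, LinearMap.sub_apply, hv, LinearMap.smul_apply,
    LinearMap.smul_apply, Module.End.one_apply] at h3
  have hg : (D.g : ℂ) ≠ 0 := Nat.cast_ne_zero.2 D.g_pos.ne'
  have hg1 : (D.g : ℂ) + 1 ≠ 0 := by exact_mod_cast Nat.succ_ne_zero D.g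
  obtain ⟨k, hk⟩ := two_mul_int (fun w => fM n (H.T w) * gM M (L (D.A w)))
    (by simp only [H.T_one, map_one, hL1, mul_one])
    (fun w w' => by simp only [fg_mul, H.T_mul, map_mul D.A, hLm]) D.R D.lam
    (fun s hs => ⟨D.lam_ne s hs, D.m (D.hy s), lt_of_lt_of_le two_pos (D.two_le _),
      D.lam_pow s hs⟩)
    (z := (D.g : ℚ) * (e - n / 2) / (2 * (D.g + 1))) hne (by
      have h5 : 2 * D.c1 ≠ 0 := by
        have : 2 * D.c1 = -2 * (D.g + 1) / D.g := by rw [c1]; field_simp; ring
        rw [this]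
        exact div_ne_zero (mul_ne_zero (by norm_num) hg1) hg
      refine smul_right_injective _ h5 ?_
      simp only
      rw [eq_neg_of_add_eq_zero_right h3, ← _root_.sub_smul, ← neg_smul, smul_smul, c1]
      congr 1
      push_cast
      field_simp
      ring)
  refine he ⟨e - k, ?_⟩
  have hq : (D.g : ℚ) + 1 ≠ 0 := by positivity
  have h6 : (2 * D.R.card : ℚ) = n * D.g := by exact_mod_cast D.card_R
  have h7 : (D.g : ℚ) * (e - n / 2) = k * (D.g + 1) := by
    rw [← hk]; field_simp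
  have h8 : (e + D.R.card : ℚ) = (D.g + 1) * (e - k) := by linear_combination h6 / 2 - h7
  exact_mod_cast h8

end Pool.Agent.P.MP_97ea17_al.Cx.RD
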