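import Pool.Agent.P.MP_97ea17_al.F.C5
import Pool.Agent.P.MP_97ea17_al.F.C7

/-! The bound for complex reflection groups in abstract form. -/

namespace Pool.Agent.P.MP_97ea17_al.Cx.C7bAux

open scoped Matrix

theorem dvd_sum (p n R K : ℕ) (d : ℤ → ℕ) (hd : ∀ j, d j ≠ 0 → -(K : ℤ) ≤ j ∧ j ≤ K)
    (h : ∀ e : ℤ, ¬ ((p : ℤ) + 1 ∣ e + R) →
      ∑ k ∈ Finset.range (n + 1), (-1 : ℤ) ^ k * (n.choose k) * d (e - k) = 0) :
    (p + 1) ^ n ∣ ∑ i ∈ Finset.range (2 * K + 1), d (i - K) := by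
  set H : Polynomial ℤ :=
    ∑ i ∈ Finset.range (2 * K + 1), Polynomial.monomial i (d (i - K) : ℤ) with hH
  have hc : ∀ i : ℕ, H.coeff i = d (i - K) := by
    intro i
    rw [hH, Polynomial.finsetSum_coeff]
    simp only [Polynomial.coeff_monomial]
    rw [Finset.sum_ite_eq']
    split_ifs with hi
    · rfl
    · by_contra h0
      have := hd (i - K) fun h1 => h0 (by rw [h1]; rfl)
      rw [Finset.mem_range] at hi
      omega
  have key := pow_dvd_eval (p + 1) n (K + p * R) (Nat.succ_pos p) H fun k hk => by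
    by_contra hne
    apply hk
    have h1 : ¬ ((p : ℤ) + 1 ∣ ((k : ℤ) - K) + R) := fun h2 => hne (by
      rw [Nat.modEq_iff_dvd]
      have h3 : ((K + p * R : ℕ) : ℤ) - k = ((p : ℤ) + 1) * R - (((k : ℤ) - K) + R) := by
        push_cast; ring
      rw [h3]
      push_cast
      exact dvd_sub (Dvd.intro _ rfl) h2)
    rw [← h _ h1, sub_eq_neg_add, add_pow, Finset.sum_mul, Polynomial.finsetSum_coeff]
    refine Finset.sum_congr rfl fun m _ => ?_
    have h4 : (-Polynomial.X) ^ m * 1 ^ (n - m) * (n.choose m : Polynomial ℤ) * H =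
        Polynomial.C ((-1 : ℤ) ^ m * (n.choose m)) * (Polynomial.X ^ m * H) := by
      rw [neg_pow]; simp only [map_mul, map_pow, map_neg, map_one, map_natCast]; ring
    rw [h4, Polynomial.coeff_C_mul, Polynomial.coeff_X_pow_mul']
    congr 1
    split_ifs with hm
    · rw [hc, Nat.cast_sub hm]; congr 2; ring
    · by_contra h0
      have := hd ((k : ℤ) - K - m) fun h1 => h0 (by rw [h1]; rfl)
      omega
  rw [hH, Polynomial.eval_finsetSum] at key
  simp only [Polynomial.eval_monomial, one_pow, mul_one] at key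
  exact_mod_cast key

variable {n : ℕ} {G ι : Type} [Group G] [Fintype G] [DecidableEq G] [Fintype ι] [DecidableEq ι]
variable {D : RD n G ι}

theorem koszul' {M : Type} [AddCommGroup M] [Module ℂ M] [Module.Finite ℂ M] (H : D.CMod D.c1 M)
    {v : M} (hv : v ≠ 0) (he : H.eps v = 0) : (D.g + 1) ^ n ≤ Module.finrank ℂ M := by
  classical
  set d : ℤ → ℕ := fun j => Module.finrank ℂ (H.eps.eigenspace (j : ℂ)) with hd
  obtain ⟨K, hK⟩ : ∃ K : ℕ, ∀ j, d j ≠ 0 → -(K : ℤ) ≤ j ∧ j ≤ K := by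
    have h1 : {j : ℤ | H.eps.HasEigenvalue (j : ℂ)}.Finite :=
      H.eps.finite_hasEigenvalue.preimage (f := fun j : ℤ => (j : ℂ)) Int.cast_injective.injOn
    obtain ⟨K, hK⟩ := (h1.image Int.natAbs).bddAbove
    refine ⟨K, fun j hj => ?_⟩
    have h2 : j.natAbs ≤ K := hK ⟨j, fun h3 => hj (by
      have h4 : H.eps.eigenspace (j : ℂ) = ⊥ := h3
      change Module.finrank ℂ (H.eps.eigenspace (j : ℂ)) = 0
      rw [h4, finrank_bot]), rfl⟩
    omega
  have h1 := dvd_sum D.g n D.R.card K d hK fun e he => H.euler_zero e he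
  have h2 : 0 < ∑ i ∈ Finset.range (2 * K + 1), d (i - K) := by
    refine Finset.sum_pos' (fun _ _ => Nat.zero_le _) ⟨K, Finset.mem_range.2 (by omega), ?_⟩
    have h3 : v ∈ H.eps.eigenspace ((((K : ℕ) : ℤ) - K : ℤ) : ℂ) := by
      rw [Module.End.mem_eigenspace_iff, he]; simp
    exact Module.finrank_pos_iff_exists_ne_zero.2 ⟨⟨v, h3⟩, fun h => hv (congrArg Subtype.val h)⟩
  refine (Nat.le_of_dvd h2 h1).trans ?_
  have h3 : iSupIndep fun i : Fin (2 * K + 1) => H.eps.eigenspace ((((i : ℕ) : ℤ) - K : ℤ) : ℂ) :=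
    H.eps.eigenspaces_iSupIndep.comp (f := fun i : Fin (2 * K + 1) => ((((i : ℕ) : ℤ) - K : ℤ) : ℂ))
      fun i j hij => by
        have := Int.cast_injective hij
        exact Fin.ext (by omega)
  have h4 := LinearMap.finrank_le_finrank_of_injective h3.dfinsupp_lsum_injective
  rw [Finset.sum_range]
  exact (Module.finrank_directSum (R := ℂ) fun i : Fin (2 * K + 1) =>
    H.eps.eigenspace ((((i : ℕ) : ℤ) - K : ℤ) : ℂ)).symm.le.trans h4

variable {M M' Q : Type} [AddCommGroup M] [Module ℂ M] [AddCommGroup M'] [Module ℂ M']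
  [AddCommGroup Q] [Module ℂ Q]

/-- Pairs of operators that are compatible along a correspondence. -/
def rel (π : M →ₗ[ℂ] Q) (j : M' →ₗ[ℂ] Q) : Subalgebra ℂ (Module.End ℂ M × Module.End ℂ M') where
  carrier := {a | ∀ x y, π x = j y → π (a.1 x) = j (a.2 y)}
  mul_mem' ha hb x y h := ha _ _ (hb x y h)
  add_mem' {a b} ha hb x y h := by
    change π (a.1 x + b.1 x) = j (a.2 y + b.2 y)
    rw [map_add, map_add, ha x y h, hb x y h]
  algebraMap_mem' r x y h := by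
    change π (r • x) = j (r • y)
    rw [map_smul, map_smul, h]

theorem rel_unique {π : M →ₗ[ℂ] Q} {j : M' →ₗ[ℂ] Q} (hj : Function.Injective j)
    (hπ : ∀ y, ∃ x, π x = j y) {a b : Module.End ℂ M} {a' b' : Module.End ℂ M'}
    (ha : (a, a') ∈ rel π j) (hb : (b, b') ∈ rel π j) (h : a = b) : a' = b' := by
  subst h
  ext y
  obtain ⟨x, hx⟩ := hπ y
  exact hj ((ha x y hx).symm.trans (hb x y hx))

theorem rel_sum {π : M →ₗ[ℂ] Q} {j : M' →ₗ[ℂ] Q} {α : Type} (s : Finset α)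
    {a : α → Module.End ℂ M} {a' : α → Module.End ℂ M'} (h : ∀ i, (a i, a' i) ∈ rel π j) :
    (∑ i ∈ s, a i, ∑ i ∈ s, a' i) ∈ rel π j := by
  rw [prod_mk_sum]
  exact sum_mem fun i _ => h i

theorem exists_transfer {c : ℂ} (H : D.CMod c M) {π : M →ₗ[ℂ] Q} {j : M' →ₗ[ℂ] Q}
    (hj : Function.Injective j) (hπ : ∀ y, ∃ x, π x = j y)
    (hX : ∀ l, ∃ a, (H.X l, a) ∈ rel π j) (hY : ∀ l, ∃ a, (H.Y l, a) ∈ rel π j)
    (hT : ∀ w, ∃ a, (H.T w, a) ∈ rel π j) :
    ∃ H' : D.CMod c M', (∀ l, (H.X l, H'.X l) ∈ rel π j) ∧ (∀ l, (H.Y l, H'.Y l) ∈ rel π j) ∧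
      (∀ w, (H.T w, H'.T w) ∈ rel π j) ∧ (H.eps, H'.eps) ∈ rel π j := by
  choose X' hX using hX
  choose Y' hY using hY
  choose T' hT using hT
  have u := @rel_unique M M' Q _ _ _ _ _ _ π j hj hπ
  let H' : D.CMod c M' :=
    { X := { toFun := X'
             map_add' := fun a b => u (hX _) (add_mem (hX a) (hX b)) (map_add _ _ _)
             map_smul' := fun r a => u (hX _) (Subalgebra.smul_mem _ (hX a) r) (map_smul _ _ _) }
      Y := { toFun := Y'
             map_add' := fun a b => u (hY _) (add_mem (hY a) (hY b)) (map_add _ _ _)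
             map_smul' := fun r a => u (hY _) (Subalgebra.smul_mem _ (hY a) r) (map_smul _ _ _) }
      T := T'
      T_one := u (hT 1) (one_mem _) H.T_one
      T_mul := fun w w' => u (hT _) (mul_mem (hT w') (hT w)) (H.T_mul w w')
      TX := fun w l => u (mul_mem (hT w) (hX l)) (mul_mem (hX _) (hT w)) (H.TX w l)
      TY := fun w l => u (mul_mem (hT w) (hY l)) (mul_mem (hY _) (hT w)) (H.TY w l)
      XX := fun l l' => u (mul_mem (hX l) (hX l')) (mul_mem (hX l') (hX l)) (H.XX l l')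
      YY := fun l l' => u (mul_mem (hY l) (hY l')) (mul_mem (hY l') (hY l)) (H.YY l l')
      YX := fun y l => u (sub_mem (mul_mem (hY y) (hX l)) (mul_mem (hX l) (hY y)))
        (sub_mem (Subalgebra.smul_mem _ (one_mem _) _)
          (rel_sum _ fun s => Subalgebra.smul_mem _ (hT s) _)) (H.YX y l) }
  refine ⟨H', hX, hY, hT, ?_⟩
  exact add_mem (sub_mem (rel_sum _ fun i => mul_mem (hX _) (hY _))
    (rel_sum _ fun s => Subalgebra.smul_mem _ (hT s) _)) (Subalgebra.smul_mem _ (one_mem _) _)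

theorem rel_quot {J : Submodule ℂ M} {a : Module.End ℂ M} (h : ∀ y ∈ J, a y ∈ J) :
    ∃ a', (a, a') ∈ rel J.mkQ LinearMap.id :=
  ⟨J.mapQ J a h, fun x y hxy => by
    obtain rfl : J.mkQ x = y := hxy
    rfl⟩

theorem rel_sub {N : Submodule ℂ M} {a : Module.End ℂ M} (h : ∀ y ∈ N, a y ∈ N) :
    ∃ a', (a, a') ∈ rel LinearMap.id N.subtype :=
  ⟨a.restrict h, fun x y hxy => by
    obtain rfl : x = y := hxy
    rfl⟩

/-- The bracket of two mixed generators lies in the group algebra. -/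
theorem bracket_mem {c : ℂ} (H : D.CMod c M) (a b a' b' : Fin n → ℂ) (y : M) {S : Submodule ℂ M}
    (hy : y ∈ S) (hT : ∀ g, H.T g y ∈ S) :
    (H.X a + H.Y b) ((H.X a' + H.Y b') y) - (H.X a' + H.Y b') ((H.X a + H.Y b) y) ∈ S := by
  have h1 : ∀ u l, (H.Y u * H.X l - H.X l * H.Y u) y ∈ S := fun u l => by
    rw [H.YX, LinearMap.sub_apply, LinearMap.sum_apply]
    exact sub_mem (S.smul_mem _ hy) (sum_mem fun s _ => S.smul_mem _ (hT s))
  have h2 := sub_mem (h1 b a') (h1 b' a)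
  have h3 := LinearMap.congr_fun (H.XX a a') y
  have h4 := LinearMap.congr_fun (H.YY b b') y
  simp only [LinearMap.sub_apply, Module.End.mul_apply, LinearMap.add_apply, map_add] at *
  convert h2 using 1
  rw [h3, h4]
  abel

end Pool.Agent.P.MP_97ea17_al.Cx.C7bAux

namespace Pool.Agent.P.MP_97ea17_al.Cx.RD

open MvPolynomial C7bAux
open scoped Matrix

variable {n : ℕ} {G ι : Type} [Group G] [Fintype G] [DecidableEq G] [Fintype ι] [DecidableEq ι]
variable (D : RD n G ι)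

theorem koszul {M : Type} [AddCommGroup M] [Module ℂ M] [Module.Finite ℂ M] (H : D.CMod D.c1 M)
    {v : M} (hv : v ≠ 0) (he : H.eps v = 0)
    (hgen : ∀ N : Submodule ℂ M, v ∈ N → (∀ l, ∀ y ∈ N, H.X l y ∈ N) →
      (∀ l, ∀ y ∈ N, H.Y l y ∈ N) → N = ⊤) : (D.g + 1) ^ n ≤ Module.finrank ℂ M := by
  have _ := hgen
  exact koszul' H hv he

theorem rd_bound {σ : Type} [Fintype σ] [DecidableEq σ] (c : G →* Matrix σ σ ℂ)
    (pp pm : (σ → ℂ) →ₗ[ℂ] (Fin n → ℂ)) (hs : ∀ a b, ∃ l, pp l = a ∧ pm l = b)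
    (hp : ∀ w l, pp (l ᵥ* c w) = pp l ᵥ* D.A w)
    (hm : ∀ w l, pm (l ᵥ* c w) = D.A w⁻¹ *ᵥ pm l) :
    (D.g + 1) ^ n ≤ Module.finrank ℂ (MvPolynomial σ ℂ ⧸ invI c) := by
  obtain ⟨hr, hE⟩ := D.adm_zero.dual
  generalize (fun U => D.m U - 1 - (0 : ι → ℕ) U) = r at hr hE
  obtain ⟨H, hX, hY, hT⟩ := D.exists_cmod D.c1 hr
  have LX : ∀ l, ∀ y ∈ D.LK r, H.X l y ∈ D.LK r := fun l y hy => by
    rw [hX]; exact D.mul_mem_LK _ hy
  have LY : ∀ l, ∀ y ∈ D.LK r, H.Y l y ∈ D.LK r := fun l y hy => by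
    rw [hY]; exact D.dun_mem_LK _ hr l hy
  have LT : ∀ w, ∀ y ∈ D.LK r, H.T w y ∈ D.LK r := fun w y hy => by
    rw [hT]; exact D.tK_mem_LK hr.1 w hy
  rw [hE] at hY
  let J : Submodule ℂ (KK n) := D.LK r ⊓
    ⨅ B ∈ D.Fam D.c1, (PK0 n).comap (D.av ∘ₗ B (D.EE D.c0 0))
  have hJ : ∀ y, y ∈ J ↔ y ∈ D.LK r ∧ ∀ B ∈ D.Fam D.c1, D.av (B (D.EE D.c0 0) y) ∈ PK0 n := by
    intro y
    simp only [J, Submodule.mem_inf, Submodule.mem_iInf, Submodule.mem_comap, LinearMap.comp_apply]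
  have JS : ∀ B' ∈ D.Fam D.c1, ∀ a : Module.End ℂ (KK n), a = B' (D.EE D.c0 0) →
      (∀ y ∈ D.LK r, a y ∈ D.LK r) → ∀ y ∈ J, a y ∈ J := by
    rintro B' hB' _ rfl h y hy
    rw [hJ] at hy ⊢
    exact ⟨h y hy.1, fun B hB => hy.2 (B * B') (mul_mem hB hB')⟩
  have JX : ∀ l, ∀ y ∈ J, H.X l y ∈ J := fun l =>
    JS _ (Algebra.subset_adjoin (Or.inl (Or.inl ⟨l, rfl⟩))) _ (hX l) (LX l)
  have JY : ∀ l, ∀ y ∈ J, H.Y l y ∈ J := fun l =>
    JS _ (Algebra.subset_adjoin (Or.inr ⟨l, rfl⟩)) _ (hY l) (LY l)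
  have JT : ∀ w, ∀ y ∈ J, H.T w y ∈ J := fun w =>
    JS _ (Algebra.subset_adjoin (Or.inl (Or.inr ⟨w, rfl⟩))) _ (hT w) (LT w)
  obtain ⟨H1, qX, qY, qT, qe⟩ := exists_transfer H (π := J.mkQ) (j := LinearMap.id)
    Function.injective_id J.mkQ_surjective (fun l => rel_quot (JX l)) (fun l => rel_quot (JY l))
    (fun w => rel_quot (JT w))
  have eX : ∀ l x, H1.X l (J.mkQ x) = J.mkQ (H.X l x) := fun l x => (qX l x _ rfl).symm
  have eY : ∀ l x, H1.Y l (J.mkQ x) = J.mkQ (H.Y l x) := fun l x => (qY l x _ rfl).symm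
  have eT : ∀ l x, H1.T l (J.mkQ x) = J.mkQ (H.T l x) := fun l x => (qT l x _ rfl).symm
  have h1PK : (1 : KK n) ∈ PK n := ⟨1, map_one (toK (n := n))⟩
  have h1i : D.IsInv 1 := fun w => map_one _
  obtain ⟨N, -, hv, NX, NT, -, hfin, hle⟩ := filt_bound2 c ((D.LK r).map J.mkQ) id
    Function.surjective_id (H1.X ∘ₗ pp + H1.Y ∘ₗ pm) H1.T (fun _ => 1) (J.mkQ 1)
    (Submodule.mem_map_of_mem (D.PK_le_LK r h1PK))
    (by
      rintro l _ ⟨x, hx, rfl⟩
      simp only [LinearMap.add_apply, LinearMap.comp_apply]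
      rw [eX, eY]
      exact add_mem (Submodule.mem_map_of_mem (LX _ x hx)) (Submodule.mem_map_of_mem (LY _ x hx)))
    (fun g l y _ => by
      have h1 := LinearMap.congr_fun (H1.TX g (pp l)) y
      have h2 := LinearMap.congr_fun (H1.TY g (pm l)) y
      simp only [Module.End.mul_apply] at h1 h2
      simp only [LinearMap.add_apply, LinearMap.comp_apply, map_add, id, hp, hm, h1, h2])
    (fun g => by rw [eT, hT, T_apply, map_one, one_smul]) (fun _ => one_ne_zero)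
    (κ := Empty) Empty.elim Empty.elim (fun k => k.elim) (fun k => k.elim)
    (fun l l' y _ => bracket_mem H1 _ _ _ _ y (Submodule.subset_span (Or.inl rfl))
      fun g => Submodule.subset_span (Or.inr (Or.inl ⟨g, rfl⟩)))
    (by
      rintro _ ⟨f, hf, rfl⟩ hi
      have h1 : J.mkQ (D.av f) = J.mkQ f := by
        have h2 : ∀ w, J.mkQ (D.T w f) = J.mkQ f := fun w => by
          rw [← hT, ← eT, hi, one_smul]
        rw [av, LinearMap.smul_apply, LinearMap.sum_apply, map_smul, map_sum]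
        simp only [h2]
        rw [Finset.sum_const, Finset.card_univ, ← Nat.cast_smul_eq_nsmul ℂ, smul_smul,
          inv_mul_cancel₀ (by simp), one_smul]
      obtain ⟨p, hp⟩ := D.LK_inv hr (D.av_mem (fun w f hf => D.tK_mem_LK hr.1 w hf) hf)
        (D.av_inv f)
      have hp' : toK p = D.av f := hp
      have h3 : toK (p - C (constantCoeff p)) = D.av f - constantCoeff p • 1 := by
        rw [map_sub, hp', ← Algebra.algebraMap_eq_smul_one, ← (toK (n := n)).commutes]; rfl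
      have h4 : D.av f - constantCoeff p • 1 ∈ J := by
        rw [hJ]
        refine ⟨D.PK_le_LK r ⟨_, h3⟩, fun B hB => D.shift hB (mem_PK0.2 ⟨_, by simp, h3⟩) ?_⟩
        intro w
        rw [map_sub, map_smul, map_one, D.av_inv f w]
      rw [← h1, Submodule.mem_span_singleton]
      refine ⟨constantCoeff p, ?_⟩
      rw [← map_smul, eq_comm, ← sub_eq_zero, ← map_sub]
      exact (Submodule.Quotient.mk_eq_zero J).2 h4)
  have NX' : ∀ a, ∀ y ∈ N, H1.X a y ∈ N := fun a y hy => by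
    obtain ⟨l, h1, h2⟩ := hs a 0
    simpa [h1, h2] using NX l y hy
  have NY' : ∀ a, ∀ y ∈ N, H1.Y a y ∈ N := fun a y hy => by
    obtain ⟨l, h1, h2⟩ := hs 0 a
    simpa [h1, h2] using NX l y hy
  obtain ⟨H2, -, -, -, se⟩ := exists_transfer H1 (π := LinearMap.id) (j := N.subtype)
    N.subtype_injective (fun y => ⟨y, rfl⟩) (fun l => rel_sub (NX' l)) (fun l => rel_sub (NY' l))
    (fun w => rel_sub fun y hy => NT w y hy)
  refine (koszul' H2 (v := ⟨_, hv⟩) (fun h => ?_) ?_).trans hle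
  · have h1 : (1 : KK n) ∈ J := (Submodule.Quotient.mk_eq_zero J).1 (congrArg Subtype.val h)
    have h2 := ((hJ 1).1 h1).2 1 (one_mem _)
    rw [Pi.one_apply, Module.End.one_apply, D.av_of_inv h1i] at h2
    obtain ⟨p, hp, hp1⟩ := mem_PK0.1 h2
    have h3 : p = 1 := toK_inj (hp1.trans (map_one _).symm)
    simp [h3] at hp
  · have h1 : H1.eps (J.mkQ 1) = 0 := by
      have h2 : J.mkQ (H.eps 1) = H1.eps (J.mkQ 1) := qe 1 _ rfl
      rw [← h2, D.eps_one H hX hY hT, map_zero]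
    exact Subtype.ext ((se _ ⟨_, hv⟩ rfl).symm.trans h1)

end Pool.Agent.P.MP_97ea17_al.Cx.RD
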