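import Pool.Agent.P.MP_97ea17_al.F.C8a

/-! Reflections, hyperplanes and their pointwise stabilisers in a finite unitary group. -/

namespace Pool.Agent.P.MP_97ea17_al.C8Aux

open Matrix

variable {n : ℕ} {G : Type} [Group G] [Fintype G] (A : G →* Matrix (Fin n) (Fin n) ℂ)

/-- The reflections. -/
noncomputable def RR : Finset G := Finset.univ.filter fun w => (A w - 1).rank = 1

/-- The eigenvalue of a reflection. -/
noncomputable def lam (w : G) : ℂ := 1 + trace (A w - 1)

/-- The projection attached to a reflection. -/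
noncomputable def PM (w : G) : Matrix (Fin n) (Fin n) ℂ := (trace (A w - 1))⁻¹ • (A w - 1)

/-- The hyperplanes, seen as projections on the root lines. -/
def II : Type := {P : Matrix (Fin n) (Fin n) ℂ // ∃ s ∈ RR A, PM A s = P}

instance : Finite (II A) :=
  Finite.of_surjective (fun s : RR A => (⟨PM A s, s, s.2, rfl⟩ : II A)) (by
    rintro ⟨P, s, hs, rfl⟩
    exact ⟨⟨s, hs⟩, rfl⟩)

/-- A unit root. -/
noncomputable def rt (U : II A) : Fin n → ℂ :=
  Classical.epsilon fun a => star a ⬝ᵥ a = 1 ∧ U.1 = pr a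

theorem mem_RR {w : G} : w ∈ RR A ↔ (A w - 1).rank = 1 := by simp [RR]

omit [Fintype G] in
theorem A_inv_mul (w : G) : A w⁻¹ * A w = 1 := by rw [← map_mul, inv_mul_cancel, map_one]

omit [Fintype G] in
theorem A_mul_inv (w : G) : A w * A w⁻¹ = 1 := by rw [← map_mul, mul_inv_cancel, map_one]

omit [Fintype G] in
theorem A_conj (w s : G) : A (w⁻¹ * s * w) - 1 = A w⁻¹ * (A s - 1) * A w := by
  rw [map_mul, map_mul, Matrix.mul_sub, Matrix.sub_mul, Matrix.mul_one, A_inv_mul]

omit [Fintype G] in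
theorem trace_conj (w s : G) : trace (A (w⁻¹ * s * w) - 1) = trace (A s - 1) := by
  rw [A_conj, trace_mul_cycle, A_mul_inv, Matrix.one_mul]

omit [Fintype G] in
theorem lam_conj (w s : G) : lam A (w⁻¹ * s * w) = lam A s := by
  rw [lam, trace_conj, lam]

omit [Fintype G] in
theorem PM_conj (w s : G) : PM A (w⁻¹ * s * w) = A w⁻¹ * PM A s * A w := by
  rw [PM, trace_conj, A_conj, PM, Matrix.mul_smul, Matrix.smul_mul]

omit [Fintype G] in
theorem isUnit_det_A (w : G) : IsUnit (A w).det :=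
  (Matrix.isUnit_iff_isUnit_det _).1 ((Group.isUnit w).map A)

theorem conj_mem (w : G) {s : G} (hs : s ∈ RR A) : w⁻¹ * s * w ∈ RR A := by
  rw [mem_RR] at hs ⊢
  rw [A_conj, rank_mul_eq_left_of_isUnit_det _ _ (isUnit_det_A A w),
    rank_mul_eq_right_of_isUnit_det _ _ (isUnit_det_A A w⁻¹), hs]

/-- The action on hyperplanes. -/
def act (w : G) (U : II A) : II A :=
  ⟨A w⁻¹ * U.1 * A w, by
    obtain ⟨s, hs, h⟩ := U.2
    exact ⟨_, conj_mem A w hs, by rw [PM_conj, h]⟩⟩

open Classical in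
/-- The hyperplane of a reflection. -/
noncomputable def hy (U0 : II A) (w : G) : II A :=
  if h : w ∈ RR A then ⟨PM A w, w, h, rfl⟩ else U0

theorem hy_val (U0 : II A) {w : G} (h : w ∈ RR A) : (hy A U0 w).1 = PM A w := by
  rw [hy, dif_pos h]

theorem hy_conj (U0 : II A) (w : G) {s : G} (hs : s ∈ RR A) :
    hy A U0 (w⁻¹ * s * w) = act A w (hy A U0 s) := by
  refine Subtype.ext ?_
  rw [hy_val A U0 (conj_mem A w hs), PM_conj, ← hy_val A U0 hs]
  rfl

theorem act_one (U : II A) : act A 1 U = U := Subtype.ext (by simp [act])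

theorem act_mul (w w' : G) (U : II A) : act A (w * w') U = act A w' (act A w U) :=
  Subtype.ext (by simp [act, Matrix.mul_assoc])

/-- The pointwise stabiliser of a hyperplane. -/
def St (U : II A) : Subgroup G where
  carrier := {w | A w * (1 - U.1) = 1 - U.1}
  one_mem' := by simp
  mul_mem' {w w'} h h' := by
    change A (w * w') * (1 - U.1) = 1 - U.1
    rw [map_mul, Matrix.mul_assoc, h', h]
  inv_mem' {w} h := by
    change A w⁻¹ * (1 - U.1) = 1 - U.1
    conv_lhs => rw [← h]
    rw [← Matrix.mul_assoc, A_inv_mul, Matrix.one_mul]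

variable {A}

omit [Fintype G] in
theorem trace_of_form {w : G} {a : Fin n → ℂ} (ha : star a ⬝ᵥ a = 1) {μ : ℂ}
    (h : A w - 1 = μ • pr a) : trace (A w - 1) = μ := by
  rw [h, trace_smul, pr_trace ha, smul_eq_mul, mul_one]

omit [Fintype G] in
theorem PM_of_form {w : G} {a : Fin n → ℂ} (ha : star a ⬝ᵥ a = 1) {μ : ℂ} (hμ : μ ≠ 0)
    (h : A w - 1 = μ • pr a) : PM A w = pr a := by
  rw [PM, trace_of_form ha h, h, smul_smul, inv_mul_cancel₀ hμ, one_smul]

section
variable (hu : ∀ w, (A w)ᴴ * A w = 1)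
include hu

theorem rt_spec (U : II A) : star (rt A U) ⬝ᵥ rt A U = 1 ∧ U.1 = pr (rt A U) := by
  refine Classical.epsilon_spec (p := fun a => star a ⬝ᵥ a = 1 ∧ U.1 = pr a) ?_
  obtain ⟨s, hs, h⟩ := U.2
  obtain ⟨a, ha, μ, hμ, hs'⟩ := exists_unit (hu s) ((mem_RR A).1 hs)
  exact ⟨a, ha, by rw [← h, PM_of_form ha hμ hs']⟩

theorem lam_ne {s : G} (hs : s ∈ RR A) : lam A s ≠ 1 := by
  obtain ⟨a, ha, μ, hμ, hs'⟩ := exists_unit (hu s) ((mem_RR A).1 hs)
  rw [lam, trace_of_form ha hs']
  simpa using hμ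

theorem A_refl {s : G} (hs : s ∈ RR A) : A s = 1 + (lam A s - 1) • PM A s := by
  obtain ⟨a, ha, μ, hμ, hs'⟩ := exists_unit (hu s) ((mem_RR A).1 hs)
  rw [PM_of_form ha hμ hs', lam, trace_of_form ha hs', add_sub_cancel_left, ← hs',
    add_sub_cancel]

theorem II_mul_self (U : II A) : U.1 * U.1 = U.1 := by
  rw [(rt_spec hu U).2, pr_mul_pr (rt_spec hu U).1]

theorem lam_of_form {U : II A} {w : G} {l : ℂ} (h : A w = 1 + (l - 1) • U.1) : lam A w = l := by
  have h' : A w - 1 = (l - 1) • pr (rt A U) := by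
    rw [h, add_sub_cancel_left, ← (rt_spec hu U).2]
  rw [lam, trace_of_form (rt_spec hu U).1 h', add_sub_cancel]

theorem form_mul {U : II A} {w w' : G} {l l' : ℂ} (h : A w = 1 + (l - 1) • U.1)
    (h' : A w' = 1 + (l' - 1) • U.1) : A (w * w') = 1 + (l * l' - 1) • U.1 := by
  rw [map_mul, h, h', Matrix.add_mul, Matrix.mul_add, Matrix.mul_add, Matrix.one_mul,
    Matrix.one_mul, Matrix.mul_one, Matrix.smul_mul, Matrix.mul_smul, II_mul_self hu, smul_smul]
  module

theorem mem_St {U : II A} {w : G} : w ∈ St A U ↔ A w = 1 + (lam A w - 1) • U.1 := by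
  constructor
  · intro h
    have h1 : (A w - 1) * pr (rt A U) = A w - 1 := by
      have h2 : A w * (1 - U.1) = 1 - U.1 := h
      rw [← (rt_spec hu U).2, Matrix.sub_mul, Matrix.one_mul]
      rw [Matrix.mul_sub, Matrix.mul_one] at h2
      rw [← sub_eq_zero] at h2 ⊢
      rw [← neg_eq_zero, ← h2]
      abel
    obtain ⟨μ, hμ⟩ := eq_smul_of_right (rt_spec hu U).1 (hu w) h1
    rw [lam, trace_of_form (rt_spec hu U).1 hμ, add_sub_cancel_left, (rt_spec hu U).2, ← hμ,
      add_sub_cancel]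
  · intro h
    change A w * (1 - U.1) = 1 - U.1
    rw [h, Matrix.add_mul, Matrix.one_mul, Matrix.smul_mul, Matrix.mul_sub, Matrix.mul_one,
      II_mul_self hu, sub_self, smul_zero, add_zero]

/-- The eigenvalue as a character of the stabiliser. -/
noncomputable def chi (U : II A) : St A U →* ℂ where
  toFun w := lam A w
  map_one' := by simp [lam]
  map_mul' w w' := lam_of_form hu (form_mul hu ((mem_St hu).1 w.2) ((mem_St hu).1 w'.2))

theorem chi_apply (U : II A) (w : St A U) : chi hu U w = lam A w := rfl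

theorem chi_inj (hinj : Function.Injective A) (U : II A) : Function.Injective (chi hu U) := by
  rw [injective_iff_map_eq_one]
  intro w hw
  have h := (mem_St hu).1 w.2
  rw [← chi_apply hu, hw, sub_self, zero_smul, add_zero, ← map_one A] at h
  exact Subtype.ext (hinj h)

theorem mem_St_iff (hinj : Function.Injective A) (U0 : II A) {U : II A} {w : G} :
    w ∈ St A U ↔ w = 1 ∨ (w ∈ RR A ∧ hy A U0 w = U) := by
  constructor
  · intro h
    by_cases h1 : lam A w = 1
    · left
      exact congrArg Subtype.val (chi_inj hu hinj U (a₁ := ⟨w, h⟩) (a₂ := 1)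
        (by rw [map_one]; exact h1))
    · right
      have h2 : A w - 1 = (lam A w - 1) • pr (rt A U) := by
        conv_lhs => rw [(mem_St hu).1 h]
        rw [add_sub_cancel_left, ← (rt_spec hu U).2]
      have h3 : w ∈ RR A := by
        rw [mem_RR, h2]
        exact rank_smul_pr (rt_spec hu U).1 (sub_ne_zero.2 h1)
      refine ⟨h3, Subtype.ext ?_⟩
      rw [hy_val A U0 h3, PM_of_form (rt_spec hu U).1 (sub_ne_zero.2 h1) h2, ← (rt_spec hu U).2]
  · rintro (rfl | ⟨h1, rfl⟩)
    · exact one_mem _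
    · rw [mem_St hu, hy_val A U0 h1]
      exact A_refl hu h1

omit hu in
theorem one_notMem_RR : (1 : G) ∉ RR A := by
  rw [mem_RR, map_one, sub_self, rank_zero]
  exact zero_ne_one

open Classical in
theorem sum_St (hinj : Function.Injective A) (U0 U : II A) {β : Type} [AddCommMonoid β]
    (f : G → β) :
    ∑ w : St A U, f w = f 1 + ∑ s ∈ (RR A).filter fun s => hy A U0 s = U, f s := by
  rw [← Finset.sum_insert (s := (RR A).filter fun s => hy A U0 s = U) (a := 1)
    (fun h => one_notMem_RR (Finset.mem_filter.1 h).1)]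
  symm
  refine Finset.sum_subtype _ (fun w => ?_) f
  rw [mem_St_iff hu hinj U0, Finset.mem_insert, Finset.mem_filter]

open Classical in
theorem card_St (hinj : Function.Injective A) (U0 U : II A) :
    Nat.card (St A U) = ((RR A).filter fun s => hy A U0 s = U).card + 1 := by
  have := sum_St hu hinj U0 U (fun _ => (1 : ℕ))
  rw [Nat.card_eq_fintype_card, add_comm]
  simpa using this

theorem exists_prim (hinj : Function.Injective A) (U : II A) :
    ∃ s : St A U, IsPrimitiveRoot (lam A s) (Nat.card (St A U)) := by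
  have := isCyclic_of_injective_ringHom (chi hu U) (chi_inj hu hinj U)
  obtain ⟨s, hs⟩ := IsCyclic.exists_ofOrder_eq_natCard (α := St A U)
  refine ⟨s, ?_⟩
  rw [← hs, ← chi_apply hu, ← orderOf_injective (chi hu U) (chi_inj hu hinj U) s]
  exact IsPrimitiveRoot.orderOf _

theorem lam_pow_card {U : II A} {w : G} (h : w ∈ St A U) :
    lam A w ^ Nat.card (St A U) = 1 := by
  have := map_pow (chi hu U) ⟨w, h⟩ (Nat.card (St A U))
  rw [pow_card_eq_one', map_one] at this
  exact this.symm

theorem inv_mem_fib (hinj : Function.Injective A) (U0 : II A) {s : G} (hs : s ∈ RR A) :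
    s⁻¹ ∈ RR A ∧ hy A U0 s⁻¹ = hy A U0 s ∧ lam A s⁻¹ * lam A s = 1 := by
  have h1 : s ∈ St A (hy A U0 s) := (mem_St_iff hu hinj U0).2 (Or.inr ⟨hs, rfl⟩)
  rcases (mem_St_iff hu hinj U0).1 (inv_mem h1) with h | h
  · rw [inv_eq_one] at h
    exact absurd (h ▸ hs) one_notMem_RR
  · refine ⟨h.1, h.2, ?_⟩
    have := map_mul (chi hu _) ⟨s, h1⟩⁻¹ ⟨s, h1⟩
    rw [inv_mul_cancel, map_one] at this
    exact this.symm

open Classical in
theorem hsum (hinj : Function.Injective A) (U0 U : II A) (r : ℕ) (hr : r < Nat.card (St A U)) :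
    ∑ s ∈ (RR A).filter fun s => hy A U0 s = U, (lam A s)⁻¹ ^ r / (1 - lam A s) =
      ((Nat.card (St A U) : ℂ) - 1) / 2 - r := by
  induction r with
  | zero =>
    simp only [pow_zero, one_div, Nat.cast_zero, sub_zero]
    rw [sum_inv_half _ (lam A), card_St hu hinj U0 U]
    · push_cast
      ring
    · intro s hs
      rw [Finset.mem_filter] at hs ⊢
      exact ⟨(inv_mem_fib hu hinj U0 hs.1).1, (inv_mem_fib hu hinj U0 hs.1).2.1.trans hs.2⟩
    · exact fun s hs => lam_ne hu (Finset.mem_filter.1 hs).1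
    · exact fun s hs => (inv_mem_fib hu hinj U0 (Finset.mem_filter.1 hs).1).2.2
  | succ r ih =>
    have e1 : ∑ w : St A U, (lam A w)⁻¹ ^ (r + 1) = 0 := by
      have := sum_hom_units_eq_zero ((powMonoidHom (r + 1)).comp
        ((invMonoidWithZeroHom (G₀ := ℂ)).toMonoidHom.comp (chi hu U))) (by
          intro h
          obtain ⟨s, hs⟩ := exists_prim hu hinj U
          have h1 : (lam A s)⁻¹ ^ (r + 1) = 1 := DFunLike.congr_fun h s
          exact absurd (Nat.le_of_dvd (Nat.succ_pos r) (hs.inv.dvd_of_pow_eq_one _ h1))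
            (not_le.2 hr))
      exact this
    rw [sum_St hu hinj U0 U (fun w => (lam A w)⁻¹ ^ (r + 1))] at e1
    have e2 : lam A 1 = 1 := by simp [lam]
    rw [e2, inv_one, one_pow] at e1
    have e3 : ∑ s ∈ (RR A).filter fun s => hy A U0 s = U, (lam A s)⁻¹ ^ (r + 1) / (1 - lam A s) =
        ∑ s ∈ (RR A).filter fun s => hy A U0 s = U, (lam A s)⁻¹ ^ r / (1 - lam A s) +
        ∑ s ∈ (RR A).filter fun s => hy A U0 s = U, (lam A s)⁻¹ ^ (r + 1) := by
      rw [← Finset.sum_add_distrib]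
      refine Finset.sum_congr rfl fun s hs => ?_
      have hs' := (Finset.mem_filter.1 hs).1
      have a1 : 1 - lam A s ≠ 0 := sub_ne_zero.2 (lam_ne hu hs').symm
      have a2 : lam A s ≠ 0 := right_ne_zero_of_mul_eq_one (inv_mem_fib hu hinj U0 hs').2.2
      rw [pow_succ]
      field_simp
      ring
    rw [e3, ih (Nat.lt_of_succ_lt hr)]
    push_cast
    linear_combination e1

end

end Pool.Agent.P.MP_97ea17_al.C8Aux
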