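import Pool.Agent.P.MP_97ea17_al.F.CDefs
import Pool.Agent.P.MP_97ea17_al.F.C6
import Pool.Agent.P.MP_97ea17_al.F.C8b

/-! The data attached to an irreducible unitary reflection group. -/

namespace Pool.Agent.P.MP_97ea17_al.C8Aux

open Matrix

variable {n : ℕ} {G : Type} [Group G] [Fintype G] {A : G →* Matrix (Fin n) (Fin n) ℂ}

omit [Fintype G] in
/-- No line is stable under all the reflections. -/
theorem no_line (hn : 2 ≤ n) (hgen : Subgroup.closure {w | (A w - 1).rank = 1} = ⊤)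
    (hirr : ∀ U : Submodule ℂ (Fin n → ℂ), (∀ w, ∀ v ∈ U, A w *ᵥ v ∈ U) → U = ⊥ ∨ U = ⊤)
    {a : Fin n → ℂ} (ha : a ≠ 0)
    (h : ∀ s, (A s - 1).rank = 1 → ∃ c : ℂ, A s *ᵥ a = c • a) : False := by
  have h1 : ∀ w, ∃ c : ℂ, A w *ᵥ a = c • a := by
    intro w
    have hw : w ∈ Subgroup.closure {w | (A w - 1).rank = 1} := by
      rw [hgen]
      trivial
    induction hw using Subgroup.closure_induction with
    | mem s hs => exact h s hs
    | one => exact ⟨1, by simp⟩
    | mul x y _ _ hx hy =>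
      obtain ⟨c, hc⟩ := hx
      obtain ⟨d, hd⟩ := hy
      exact ⟨d * c, by rw [map_mul, ← mulVec_mulVec, hd, mulVec_smul, hc, smul_smul]⟩
    | inv x _ hx =>
      obtain ⟨c, hc⟩ := hx
      have e : c • (A x⁻¹ *ᵥ a) = a := by
        rw [← mulVec_smul, ← hc, mulVec_mulVec, A_inv_mul, one_mulVec]
      have hc0 : c ≠ 0 := by
        rintro rfl
        rw [zero_smul] at e
        exact ha e.symm
      exact ⟨c⁻¹, by rw [eq_inv_smul_iff₀ hc0, e]⟩
  rcases hirr (Submodule.span ℂ {a}) (fun w v hv => by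
    obtain ⟨d, rfl⟩ := Submodule.mem_span_singleton.1 hv
    obtain ⟨c, hc⟩ := h1 w
    exact Submodule.mem_span_singleton.2 ⟨d * c, by rw [mulVec_smul, hc, smul_smul]⟩) with h2 | h2
  · exact ha (Submodule.span_singleton_eq_bot.1 h2)
  · have h3 := finrank_span_singleton (K := ℂ) ha
    rw [h2, finrank_top, Module.finrank_fin_fun] at h3
    omega

theorem sum_PM_conj (w : G) : A w⁻¹ * (∑ s ∈ RR A, PM A s) * A w = ∑ s ∈ RR A, PM A s := by
  rw [Finset.mul_sum, Finset.sum_mul]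
  refine Finset.sum_nbij' (fun s => w⁻¹ * s * w) (fun s => w⁻¹⁻¹ * s * w⁻¹)
    (fun s hs => conj_mem A w hs) (fun s hs => conj_mem A w⁻¹ hs) (fun s _ => by group)
    (fun s _ => by group) fun s _ => (PM_conj A w s).symm

theorem schur_aux (hn : 2 ≤ n) (hu : ∀ w, (A w)ᴴ * A w = 1)
    (hirr : ∀ U : Submodule ℂ (Fin n → ℂ), (∀ w, ∀ v ∈ U, A w *ᵥ v ∈ U) → U = ⊥ ∨ U = ⊤) :
    ∑ s ∈ RR A, PM A s = (((RR A).card : ℂ) / n) • 1 := by
  set S := ∑ s ∈ RR A, PM A s with hS
  have : Nonempty (Fin n) := ⟨⟨0, by omega⟩⟩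
  obtain ⟨c, hc⟩ := Module.End.exists_eigenvalue (Matrix.toLin' S)
  have hcomm : ∀ w, S * A w = A w * S := fun w => by
    conv_rhs => rw [hS, ← sum_PM_conj w, ← hS]
    rw [← Matrix.mul_assoc, ← Matrix.mul_assoc, A_mul_inv, Matrix.one_mul]
  have h1 : Module.End.eigenspace (Matrix.toLin' S) c = ⊤ := by
    refine (hirr _ fun w v hv => ?_).resolve_left hc
    rw [Module.End.mem_eigenspace_iff, Matrix.toLin'_apply] at hv ⊢
    rw [mulVec_mulVec, hcomm, ← mulVec_mulVec, hv, mulVec_smul]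
  have h2 : S = c • 1 := by
    refine Matrix.ext_of_mulVec_single fun i => ?_
    have : Pi.single i 1 ∈ Module.End.eigenspace (Matrix.toLin' S) c := by
      rw [h1]
      trivial
    rw [Module.End.mem_eigenspace_iff, Matrix.toLin'_apply] at this
    rw [this, smul_mulVec, one_mulVec]
  have h3 : trace S = (RR A).card := by
    rw [hS, trace_sum, Finset.card_eq_sum_ones, Nat.cast_sum]
    refine Finset.sum_congr rfl fun s hs => ?_
    have := rt_spec hu ⟨PM A s, s, hs, rfl⟩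
    rw [Nat.cast_one, ← pr_trace this.1]
    exact congrArg trace this.2
  have hn0 : (n : ℂ) ≠ 0 := Nat.cast_ne_zero.2 (by omega)
  rw [h2, trace_smul, trace_one, Fintype.card_fin, smul_eq_mul] at h3
  rw [h2, ← h3, mul_div_cancel_right₀ _ hn0]

theorem exists_g (hn : 2 ≤ n) (hinj : Function.Injective A) (hu : ∀ w, (A w)ᴴ * A w = 1)
    (hirr : ∀ U : Submodule ℂ (Fin n → ℂ), (∀ w, ∀ v ∈ U, A w *ᵥ v ∈ U) → U = ⊥ ∨ U = ⊤)
    (U0 : II A) : ∃ g : ℕ, 2 * (RR A).card = n * g := by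
  have hn0 : (n : ℂ) ≠ 0 := Nat.cast_ne_zero.2 (by omega)
  have hv : (Pi.single ⟨0, by omega⟩ 1 : Fin n → ℂ) ≠ 0 := by simp
  have hM : ∑ s ∈ RR A, (1 - lam A s)⁻¹ • A s =
      ((((RR A).card : ℚ) / 2 - (RR A).card / n : ℚ) : ℂ) • 1 := by
    have e : ∀ s ∈ RR A, (1 - lam A s)⁻¹ • A s = (1 - lam A s)⁻¹ • 1 - PM A s := fun s hs => by
      have a1 : 1 - lam A s ≠ 0 := sub_ne_zero.2 (lam_ne hu hs).symm
      conv_lhs => rw [A_refl hu hs]
      rw [smul_add, smul_smul, ← neg_sub 1 (lam A s), mul_neg, inv_mul_cancel₀ a1, neg_smul,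
        one_smul, ← sub_eq_add_neg]
    rw [Finset.sum_congr rfl e, Finset.sum_sub_distrib, ← Finset.sum_smul, schur_aux hn hu hirr,
      sum_inv_half _ (lam A) (fun s hs => (inv_mem_fib hu hinj U0 hs).1)
        (fun s hs => lam_ne hu hs) (fun s hs => (inv_mem_fib hu hinj U0 hs).2.2), ← _root_.sub_smul]
    push_cast
    rfl
  obtain ⟨k, hk⟩ := Cx.two_mul_int (fun w => Matrix.toLin' (A w)ᵀ)
    (by simp [Module.End.one_eq_id])
    (fun w w' => by rw [map_mul, transpose_mul, Matrix.toLin'_mul]; rfl) (RR A) (lam A)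
    (fun s hs => ⟨lam_ne hu hs, _, Nat.card_pos,
      lam_pow_card hu ((mem_St_iff hu hinj U0).2 (Or.inr ⟨hs, rfl⟩))⟩)
    (z := ((RR A).card : ℚ) / 2 - (RR A).card / n) hv (by
      have : ∑ s ∈ RR A, (1 - lam A s)⁻¹ • Matrix.toLin' (A s)ᵀ =
          Matrix.toLin' (∑ s ∈ RR A, (1 - lam A s)⁻¹ • A s)ᵀ := by
        rw [transpose_sum, map_sum]
        exact Finset.sum_congr rfl fun s _ => by rw [transpose_smul, map_smul]
      rw [this, hM, transpose_smul, transpose_one, Matrix.toLin'_apply, smul_mulVec, one_mulVec])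
  have hnq : (n : ℚ) ≠ 0 := Nat.cast_ne_zero.2 (by omega)
  have h1 : (2 * (RR A).card : ℤ) = n * ((RR A).card - k) := by
    have : (2 * (RR A).card : ℚ) = n * ((RR A).card - k) := by
      rw [← hk]
      field_simp
      ring
    exact_mod_cast this
  have h2 : n ∣ 2 * (RR A).card := by
    have : (n : ℤ) ∣ ((2 * (RR A).card : ℕ) : ℤ) := ⟨_, by push_cast; exact h1⟩
    exact Int.natCast_dvd_natCast.1 this
  exact h2

theorem nonprop (hu : ∀ w, (A w)ᴴ * A w = 1) {U U' : II A} {u : ℂ}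
    (h : star (rt A U) = u • star (rt A U')) : U = U' :=
  Subtype.ext ((rt_spec hu U).2.trans
    ((pr_eq_of_smul (rt_spec hu U).1 (rt_spec hu U').1 h).trans (rt_spec hu U').2.symm))

theorem hact (hu : ∀ w, (A w)ᴴ * A w = 1) (w : G) (U : II A) :
    ∃ u : ℂ, u ≠ 0 ∧ star (rt A U) ᵥ* A w = u • star (rt A (act A w U)) ∧
      A w⁻¹ *ᵥ rt A U = u⁻¹ • rt A (act A w U) := by
  refine vec_unique ?_ ?_ (rt_spec hu _).1
  · rw [← vecMulVec_mul, ← mul_vecMulVec, ← pr, ← pr, ← (rt_spec hu U).2,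
      ← (rt_spec hu (act A w U)).2]
    rfl
  · rw [← dotProduct_mulVec, mulVec_mulVec, A_mul_inv, one_mulVec, (rt_spec hu U).1]

theorem hpt (hinj : Function.Injective A) (hu : ∀ w, (A w)ᴴ * A w = 1) (U0 U : II A) :
    ∃ p, star (rt A U) ⬝ᵥ p = 0 ∧ (∀ U', U' ≠ U → star (rt A U') ⬝ᵥ p ≠ 0) ∧
      ∀ w, A w *ᵥ p = p → w = 1 ∨ (w ∈ RR A ∧ hy A U0 w = U) := by
  obtain ⟨x, hx⟩ := exists_generic (κ := {U' : II A // U' ≠ U} ⊕ {w : G // w ∉ St A U})
    (Sum.elim (fun U' => U'.1.1 * (1 - U.1)) fun w => (A w - 1) * (1 - U.1)) (by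
      rintro (U' | w) h
      · refine U'.2 (Subtype.ext ?_)
        have h' : U'.1.1 * (1 - U.1) = 0 := h
        rw [Matrix.mul_sub, Matrix.mul_one, sub_eq_zero, (rt_spec hu U).2, (rt_spec hu U'.1).2]
          at h'
        rw [(rt_spec hu U).2, (rt_spec hu U'.1).2]
        exact pr_eq_of_mul (rt_spec hu U).1 (rt_spec hu U'.1).1 h'.symm
      · refine w.2 ?_
        have h' : (A w - 1) * (1 - U.1) = 0 := h
        rw [Matrix.sub_mul, Matrix.one_mul, sub_eq_zero] at h'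
        exact h')
  refine ⟨(1 - U.1) *ᵥ x, ?_, fun U' hU' h => hx (Sum.inl ⟨U', hU'⟩) ?_, fun w hw => ?_⟩
  · rw [sub_mulVec, one_mulVec, dotProduct_sub]
    conv_lhs => rw [(rt_spec hu U).2]
    rw [pr_mulVec, dotProduct_smul, (rt_spec hu U).1, smul_eq_mul, mul_one, sub_self]
  · change (U'.1 * (1 - U.1)) *ᵥ x = 0
    rw [← mulVec_mulVec, (rt_spec hu U').2, pr_mulVec, h, zero_smul]
  · rw [← mem_St_iff hu hinj U0]
    by_contra hw'
    refine hx (Sum.inr ⟨w, hw'⟩) ?_
    change ((A w - 1) * (1 - U.1)) *ᵥ x = 0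
    rw [← mulVec_mulVec, sub_mulVec, hw, one_mulVec, sub_self]

open Classical in
theorem big (hn : 2 ≤ n) (hu : ∀ w, (A w)ᴴ * A w = 1)
    (hgen : Subgroup.closure {w | (A w - 1).rank = 1} = ⊤)
    (hirr : ∀ U : Submodule ℂ (Fin n → ℂ), (∀ w, ∀ v ∈ U, A w *ᵥ v ∈ U) → U = ⊥ ∨ U = ⊤)
    (U0 U : II A) :
    n * ((RR A).filter fun s => hy A U0 s = U).card < (RR A).card := by
  set a := rt A U with ha
  have ha1 : star a ⬝ᵥ a = 1 := (rt_spec hu U).1
  let f : G → ℝ := fun s => Complex.normSq (star (rt A (hy A U0 s)) ⬝ᵥ a)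
  have hP : ∀ s ∈ RR A, PM A s = pr (rt A (hy A U0 s)) := fun s hs => by
    rw [← hy_val A U0 hs]
    exact (rt_spec hu _).2
  have h1 : ((∑ s ∈ RR A, f s : ℝ) : ℂ) = ((RR A).card : ℂ) / n := by
    have := congrArg (fun M => star a ⬝ᵥ M *ᵥ a) (schur_aux hn hu hirr)
    simp only [smul_mulVec, one_mulVec, dotProduct_smul, ha1, smul_eq_mul, mul_one] at this
    rw [← this, sum_mulVec, dotProduct_sum, Complex.ofReal_sum]
    refine Finset.sum_congr rfl fun s hs => ?_
    rw [hP s hs, pr_mulVec, dotProduct_smul, smul_eq_mul, star_dotProduct a, Complex.star_def,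
      Complex.mul_conj]
  have h2 : ∑ s ∈ RR A, f s = ((RR A).card : ℝ) / n := by
    apply Complex.ofReal_injective
    rw [h1]
    push_cast
    rfl
  have h3 : ∑ s ∈ (RR A).filter fun s => hy A U0 s = U, f s =
      ((RR A).filter fun s => hy A U0 s = U).card := by
    rw [Finset.card_eq_sum_ones, Nat.cast_sum]
    refine Finset.sum_congr rfl fun s hs => ?_
    simp only [f, (Finset.mem_filter.1 hs).2, ← ha, ha1, map_one, Nat.cast_one]
  have h4 : 0 < ∑ s ∈ (RR A).filter fun s => ¬ hy A U0 s = U, f s := by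
    by_contra h0
    have h5 := (Finset.sum_eq_zero_iff_of_nonneg fun s _ => Complex.normSq_nonneg _).1
      (le_antisymm (not_lt.1 h0) (Finset.sum_nonneg fun s _ => Complex.normSq_nonneg _))
    refine no_line hn hgen hirr (unit_ne_zero ha1) fun s hs => ?_
    have hs' := (mem_RR A).2 hs
    rw [A_refl hu hs', hP s hs', add_mulVec, one_mulVec, smul_mulVec, pr_mulVec]
    by_cases hU : hy A U0 s = U
    · exact ⟨lam A s, by rw [hU, ← ha, ha1, one_smul, _root_.sub_smul, one_smul, add_sub_cancel]⟩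
    · have := h5 s (Finset.mem_filter.2 ⟨hs', hU⟩)
      rw [Complex.normSq_eq_zero] at this
      exact ⟨1, by rw [this, zero_smul, smul_zero, add_zero, one_smul]⟩
  have h5 := Finset.sum_filter_add_sum_filter_not (RR A) (fun s => hy A U0 s = U) f
  have hn0 : (0 : ℝ) < n := by exact_mod_cast (by omega : 0 < n)
  have h6 : (((RR A).filter fun s => hy A U0 s = U).card : ℝ) < ((RR A).card : ℝ) / n := by
    linarith
  rw [lt_div_iff₀ hn0, mul_comm] at h6
  exact_mod_cast h6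

end Pool.Agent.P.MP_97ea17_al.C8Aux

namespace Pool.Agent.P.MP_97ea17_al.Cx

open scoped Matrix

open C8Aux in
theorem exists_RD {n : ℕ} (hn : 2 ≤ n) {G : Type} [Group G] [Fintype G] [DecidableEq G]
    (A : G →* Matrix (Fin n) (Fin n) ℂ) (hinj : Function.Injective A)
    (hu : ∀ w, (A w)ᴴ * A w = 1)
    (hgen : Subgroup.closure {w | (A w - 1).rank = 1} = ⊤)
    (hirr : ∀ U : Submodule ℂ (Fin n → ℂ), (∀ w, ∀ v ∈ U, A w *ᵥ v ∈ U) → U = ⊥ ∨ U = ⊤) :
    ∃ (ι : Type) (_ : Fintype ι) (_ : DecidableEq ι) (D : RD n G ι),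
      D.A = A ∧ ∀ w, w ∈ D.R ↔ (A w - 1).rank = 1 := by
  obtain ⟨s0, hs0⟩ : ∃ s, s ∈ RR A := by
    by_contra h
    exact no_line hn hgen hirr (a := Pi.single ⟨0, by omega⟩ 1) (by simp)
      fun s hs => absurd ⟨s, (mem_RR A).2 hs⟩ h
  let U0 : II A := ⟨PM A s0, s0, hs0, rfl⟩
  let _ : Fintype (II A) := Fintype.ofFinite _
  let _ : DecidableEq (II A) := Classical.decEq _
  obtain ⟨g, hg⟩ := exists_g hn hinj hu hirr U0
  have hP : ∀ s ∈ RR A, PM A s = pr (rt A (hy A U0 s)) := fun s hs => by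
    rw [← hy_val A U0 hs]
    exact (rt_spec hu _).2
  have two_le : ∀ U : II A, 2 ≤ Nat.card (St A U) := fun U => by
    rw [card_St hu hinj U0 U]
    obtain ⟨s, hs, h⟩ := U.2
    exact Nat.succ_le_succ (Finset.card_pos.2
      ⟨s, Finset.mem_filter.2 ⟨hs, Subtype.ext ((hy_val A U0 hs).trans h)⟩⟩)
  refine ⟨II A, inferInstance, inferInstance,
    { A := A
      al := fun U => star (rt A U)
      nv := rt A
      R := RR A
      hy := hy A U0
      lam := lam A
      m := fun U => Nat.card (St A U)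
      act := act A
      g := g
      al_nv := fun U => (rt_spec hu U).1
      nonprop := fun U U' u h => nonprop hu h
      A_refl := fun s hs => by rw [A_refl hu hs, hP s hs, pr]
      lam_ne := fun s hs => lam_ne hu hs
      lam_pow := fun s hs => lam_pow_card hu ((mem_St_iff hu hinj U0).2 (Or.inr ⟨hs, rfl⟩))
      hact := hact hu
      act_one := act_one A
      act_mul := act_mul A
      conj := fun w s hs => ⟨conj_mem A w hs, hy_conj A U0 w hs, lam_conj A w s⟩
      two_le := two_le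
      m_act := fun w U => ?_
      card := fun U => (card_St hu hinj U0 U).symm
      prim := fun U => ?_
      hsum := fun U r hr => hsum hu hinj U0 U r hr
      hpt := hpt hinj hu U0
      gen := ?_
      schur := ?_
      card_R := hg
      big := fun U => ?_
      g_pos := ?_ }, rfl, fun w => mem_RR A⟩
  · rw [card_St hu hinj U0, card_St hu hinj U0]
    congr 1
    symm
    refine Finset.card_nbij' (fun s => w⁻¹ * s * w) (fun s => w⁻¹⁻¹ * s * w⁻¹)
      (fun s hs => ?_) (fun s hs => ?_) (fun s _ => by group) (fun s _ => by group)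
    · rw [Finset.mem_coe, Finset.mem_filter] at hs ⊢
      exact ⟨conj_mem A w hs.1, by rw [hy_conj A U0 w hs.1, hs.2]⟩
    · rw [Finset.mem_coe, Finset.mem_filter] at hs ⊢
      exact ⟨conj_mem A w⁻¹ hs.1, by
        rw [hy_conj A U0 w⁻¹ hs.1, hs.2, ← act_mul, mul_inv_cancel, act_one]⟩
  · obtain ⟨s, hs⟩ := exists_prim hu hinj U
    rcases (mem_St_iff hu hinj U0).1 s.2 with h | h
    · rw [h] at hs
      exact absurd (by simp [lam]) (hs.ne_one (two_le U))
    · exact ⟨s, h.1, h.2, hs⟩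
  · rw [← hgen]
    congr 1
    ext w
    exact mem_RR A
  · rw [← Finset.sum_congr rfl fun s hs => (hP s hs).trans (pr.eq_1 _), schur_aux hn hu hirr]
    congr 1
    have hn0 : (n : ℂ) ≠ 0 := Nat.cast_ne_zero.2 (by omega)
    have : (2 * (RR A).card : ℂ) = n * g := by exact_mod_cast hg
    field_simp
    linear_combination this
  · have h1 := big hn hu hgen hirr U0 U
    rw [card_St hu hinj U0 U]
    have h2 : n * (2 * ((RR A).filter fun s => hy A U0 s = U).card) < n * g := by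
      rw [← hg]
      linarith
    have := Nat.lt_of_mul_lt_mul_left h2
    omega
  · have := Finset.card_pos.2 ⟨s0, hs0⟩
    rcases Nat.eq_zero_or_pos g with h | h
    · rw [h] at hg
      omega
    · exact h

end Pool.Agent.P.MP_97ea17_al.Cx
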