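import Mathlib

/-! Rank one perturbations of the identity that are unitary. -/

namespace Pool.Agent.P.MP_97ea17_al.C8Aux

open Matrix

variable {n : ℕ}

/-- Orthogonal projection on the line of the unit vector `a`. -/
noncomputable def pr (a : Fin n → ℂ) : Matrix (Fin n) (Fin n) ℂ := vecMulVec a (star a)

theorem vmv_mulVec (x y z : Fin n → ℂ) : vecMulVec x y *ᵥ z = (y ⬝ᵥ z) • x := by
  rw [vecMulVec_mulVec, op_smul_eq_smul]

theorem pr_mulVec (a x : Fin n → ℂ) : pr a *ᵥ x = (star a ⬝ᵥ x) • a := vmv_mulVec _ _ _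

theorem pr_mul_pr {a : Fin n → ℂ} (ha : star a ⬝ᵥ a = 1) : pr a * pr a = pr a := by
  rw [pr, vecMulVec_mul_vecMulVec, ha, one_smul]

theorem pr_conj (a : Fin n → ℂ) : (pr a)ᴴ = pr a := by
  rw [pr, conjTranspose_vecMulVec, star_star]

theorem pr_trace {a : Fin n → ℂ} (ha : star a ⬝ᵥ a = 1) : trace (pr a) = 1 := by
  rw [pr, trace_vecMulVec, dotProduct_comm, ha]

theorem pr_sandwich (a : Fin n → ℂ) (N : Matrix (Fin n) (Fin n) ℂ) :
    pr a * N * pr a = (star a ⬝ᵥ N *ᵥ a) • pr a := by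
  rw [pr, vecMulVec_mul, vecMulVec_mul_vecMulVec, vecMulVec_smul, dotProduct_mulVec]

theorem unit_ne_zero {a : Fin n → ℂ} (ha : star a ⬝ᵥ a = 1) : a ≠ 0 := by
  rintro rfl
  simp at ha

theorem pr_ne_zero {a : Fin n → ℂ} (ha : star a ⬝ᵥ a = 1) : pr a ≠ 0 := by
  intro h
  have := pr_trace ha
  rw [h, trace_zero] at this
  exact zero_ne_one this

theorem right_of_left {a : Fin n → ℂ} (ha : star a ⬝ᵥ a = 1) {M : Matrix (Fin n) (Fin n) ℂ}
    (hu : Mᴴ * M = 1) (h : pr a * (M - 1) = M - 1) : (M - 1) * pr a = M - 1 := by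
  have hu' : M * Mᴴ = 1 := mul_eq_one_comm.1 hu
  have h1 : M - 1 = -(M * (M - 1)ᴴ) := by
    rw [conjTranspose_sub, conjTranspose_one, Matrix.mul_sub, hu', Matrix.mul_one, neg_sub]
  have h2 : (M - 1)ᴴ = (M - 1)ᴴ * pr a := by
    conv_lhs => rw [← h, conjTranspose_mul, pr_conj]
  rw [h1, h2, Matrix.neg_mul, Matrix.mul_assoc, Matrix.mul_assoc, pr_mul_pr ha]

theorem left_of_right {a : Fin n → ℂ} (ha : star a ⬝ᵥ a = 1) {M : Matrix (Fin n) (Fin n) ℂ}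
    (hu : Mᴴ * M = 1) (h : (M - 1) * pr a = M - 1) : pr a * (M - 1) = M - 1 := by
  have h1 : M - 1 = -((M - 1)ᴴ * M) := by
    rw [conjTranspose_sub, conjTranspose_one, Matrix.sub_mul, hu, Matrix.one_mul, neg_sub]
  have h2 : (M - 1)ᴴ = pr a * (M - 1)ᴴ := by
    conv_lhs => rw [← h, conjTranspose_mul, pr_conj]
  rw [h1, h2, Matrix.mul_neg, ← Matrix.mul_assoc, ← Matrix.mul_assoc, pr_mul_pr ha]

theorem eq_smul_of_right {a : Fin n → ℂ} (ha : star a ⬝ᵥ a = 1) {M : Matrix (Fin n) (Fin n) ℂ}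
    (hu : Mᴴ * M = 1) (h : (M - 1) * pr a = M - 1) : ∃ μ : ℂ, M - 1 = μ • pr a := by
  refine ⟨_, Eq.trans ?_ (pr_sandwich a (M - 1))⟩
  rw [left_of_right ha hu h, h]

open scoped ComplexOrder in
theorem exists_normalise {u : Fin n → ℂ} (hu : u ≠ 0) :
    ∃ c : ℂ, c ≠ 0 ∧ star (c • u) ⬝ᵥ (c • u) = 1 := by
  have h0 : star u ⬝ᵥ u ≠ 0 := fun h => hu (dotProduct_star_self_eq_zero.1 h)
  have h1 : star u ⬝ᵥ u = ((∑ i, Complex.normSq (u i) : ℝ) : ℂ) := by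
    simp [dotProduct, Complex.normSq_eq_conj_mul_self]
  set t : ℝ := ∑ i, Complex.normSq (u i) with ht
  have ht0 : 0 ≤ t := Finset.sum_nonneg fun i _ => Complex.normSq_nonneg _
  have htne : t ≠ 0 := fun h => h0 (by rw [h1, h, Complex.ofReal_zero])
  have hs : Real.sqrt t ≠ 0 := by
    rw [Ne, Real.sqrt_eq_zero ht0]
    exact htne
  refine ⟨(((Real.sqrt t)⁻¹ : ℝ) : ℂ), by exact_mod_cast inv_ne_zero hs, ?_⟩
  rw [star_smul, smul_dotProduct, dotProduct_smul, h1, smul_eq_mul, smul_eq_mul,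
    Complex.star_def, Complex.conj_ofReal, ← Complex.ofReal_mul, ← Complex.ofReal_mul,
    ← mul_assoc, ← mul_inv, Real.mul_self_sqrt ht0, inv_mul_cancel₀ htne, Complex.ofReal_one]

theorem exists_unit {M : Matrix (Fin n) (Fin n) ℂ} (hu : Mᴴ * M = 1) (hr : (M - 1).rank = 1) :
    ∃ a : Fin n → ℂ, star a ⬝ᵥ a = 1 ∧ ∃ μ : ℂ, μ ≠ 0 ∧ M - 1 = μ • pr a := by
  obtain ⟨v, hv0, hv⟩ := finrank_eq_one_iff'.1 hr
  have hv1 : (v : Fin n → ℂ) ≠ 0 := fun h => hv0 (Subtype.ext h)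
  obtain ⟨c, hc, ha⟩ := exists_normalise hv1
  refine ⟨_, ha, ?_⟩
  have hl : pr (c • (v : Fin n → ℂ)) * (M - 1) = M - 1 := by
    refine Matrix.ext_of_mulVec_single fun i => ?_
    obtain ⟨d, hd⟩ := hv ⟨(M - 1) *ᵥ Pi.single i 1, ⟨Pi.single i 1, rfl⟩⟩
    have hd' : (M - 1) *ᵥ Pi.single i 1 = (d * c⁻¹) • c • (v : Fin n → ℂ) := by
      rw [smul_smul, mul_assoc, inv_mul_cancel₀ hc, mul_one]
      exact (congrArg Subtype.val hd).symm
    rw [← mulVec_mulVec, hd', mulVec_smul, pr_mulVec, ha, one_smul]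
  obtain ⟨μ, hμ⟩ := eq_smul_of_right ha hu (right_of_left ha hu hl)
  refine ⟨μ, ?_, hμ⟩
  rintro rfl
  rw [hμ, zero_smul, rank_zero] at hr
  exact zero_ne_one hr

theorem rank_smul_pr {a : Fin n → ℂ} (ha : star a ⬝ᵥ a = 1) {μ : ℂ} (hμ : μ ≠ 0) :
    (μ • pr a).rank = 1 := by
  rw [rank_smul_of_mem_nonZeroDivisors _ (mem_nonZeroDivisors_of_ne_zero hμ)]
  refine le_antisymm (rank_vecMulVec_le _ _) ?_
  rw [Nat.one_le_iff_ne_zero]
  intro h
  have h1 : LinearMap.range (pr a).mulVecLin = ⊥ := Submodule.finrank_eq_zero.1 h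
  have h2 : a ∈ LinearMap.range (pr a).mulVecLin :=
    ⟨a, by rw [mulVecLin_apply, pr_mulVec, ha, one_smul]⟩
  rw [h1] at h2
  exact unit_ne_zero ha h2

theorem vec_unique {x y x' y' : Fin n → ℂ} (h : vecMulVec x y = vecMulVec x' y')
    (h1 : y ⬝ᵥ x = 1) (h2 : y' ⬝ᵥ x' = 1) : ∃ u : ℂ, u ≠ 0 ∧ y = u • y' ∧ x = u⁻¹ • x' := by
  have e1 : x = (y' ⬝ᵥ x) • x' := by
    have := congrArg (· *ᵥ x) h
    simpa only [vmv_mulVec, h1, one_smul] using this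
  have e2 : (y' ⬝ᵥ x) • y = y' := by
    have := congrArg (y' ᵥ* ·) h
    simpa only [vecMul_vecMulVec, h2, one_smul] using this
  have hc : y' ⬝ᵥ x ≠ 0 := by
    intro h0
    rw [h0, zero_smul] at e1
    rw [e1, dotProduct_zero] at h1
    exact zero_ne_one h1
  refine ⟨(y' ⬝ᵥ x)⁻¹, inv_ne_zero hc, ?_, by rw [inv_inv]; exact e1⟩
  rw [eq_inv_smul_iff₀ hc, e2]

theorem pr_eq_of_smul {a b : Fin n → ℂ} (ha : star a ⬝ᵥ a = 1) (hb : star b ⬝ᵥ b = 1) {u : ℂ}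
    (h : star a = u • star b) : pr a = pr b := by
  have h1 : a = star u • b := by
    have := congrArg star h
    rwa [star_star, star_smul, star_star] at this
  have h2 : u * star u = 1 := by
    rw [h] at ha
    conv_lhs at ha => rw [h1]
    rwa [smul_dotProduct, dotProduct_smul, hb, smul_eq_mul, smul_eq_mul, mul_one] at ha
  rw [pr, h, vecMulVec_smul]
  conv_lhs => rw [h1]
  rw [smul_vecMulVec, smul_smul, h2, one_smul, pr]

theorem pr_eq_of_mul {a b : Fin n → ℂ} (ha : star a ⬝ᵥ a = 1) (hb : star b ⬝ᵥ b = 1)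
    (h : pr b * pr a = pr b) : pr b = pr a := by
  have := congrArg (star b ᵥ* ·) h
  simp only [← vecMul_vecMul, pr, vecMul_vecMulVec, hb, one_smul] at this
  exact pr_eq_of_smul hb ha this.symm

theorem exists_generic {κ : Type} [Finite κ] (M : κ → Matrix (Fin n) (Fin n) ℂ)
    (h : ∀ k, M k ≠ 0) : ∃ x : Fin n → ℂ, ∀ k, M k *ᵥ x ≠ 0 := by
  by_contra hx
  push Not at hx
  obtain ⟨k, hk⟩ := Subspace.exists_eq_top_of_iUnion_eq_univ
    (p := fun k => LinearMap.ker (M k).mulVecLin) (Set.eq_univ_of_forall fun x => by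
      obtain ⟨k, hk⟩ := hx x
      exact Set.mem_iUnion.2 ⟨k, hk⟩)
  refine h k (Matrix.ext_of_mulVec_single fun i => ?_)
  have : Pi.single i 1 ∈ LinearMap.ker (M k).mulVecLin := by
    rw [hk]
    trivial
  rw [zero_mulVec]
  exact this

/-- Sum of `1 / (1 - λ)` over a set stable under inversion. -/
theorem sum_inv_half {G : Type} [Group G] (F : Finset G) (lam : G → ℂ)
    (hF : ∀ s ∈ F, s⁻¹ ∈ F) (h1 : ∀ s ∈ F, lam s ≠ 1) (hi : ∀ s ∈ F, lam s⁻¹ * lam s = 1) :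
    ∑ s ∈ F, (1 - lam s)⁻¹ = (F.card : ℂ) / 2 := by
  have e : ∑ s ∈ F, (1 - lam s)⁻¹ = ∑ s ∈ F, (1 - lam s⁻¹)⁻¹ :=
    Finset.sum_nbij' (·⁻¹) (·⁻¹) hF hF (by simp) (by simp) (by simp)
  have e2 : ∑ s ∈ F, (1 - lam s)⁻¹ + ∑ s ∈ F, (1 - lam s⁻¹)⁻¹ = F.card := by
    rw [← Finset.sum_add_distrib, Finset.card_eq_sum_ones, Nat.cast_sum]
    refine Finset.sum_congr rfl fun s hs => ?_
    have a1 : 1 - lam s ≠ 0 := sub_ne_zero.2 (h1 s hs).symm
    have a2 : 1 - lam s⁻¹ ≠ 0 := sub_ne_zero.2 (h1 _ (hF s hs)).symm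
    have a3 := hi s hs
    field_simp
    push_cast
    linear_combination -a3
  rw [← e] at e2
  linear_combination e2 / 2

end Pool.Agent.P.MP_97ea17_al.C8Aux
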