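import Pool.Agent.P.MP_97ea17_al.F.Filt2

/-! Complex reflection groups in abstract form, Dunkl operators on rational functions,
differential operators given by symbols. -/

namespace Pool.Agent.P.MP_97ea17_al.Cx

open MvPolynomial
open scoped Matrix

/-- Polynomial functions. -/
abbrev PP (n : ℕ) := MvPolynomial (Fin n) ℂ

/-- Rational functions. -/
def KK (n : ℕ) : Type := FractionRing (PP n)

noncomputable instance (n : ℕ) : Field (KK n) := inferInstanceAs (Field (FractionRing (PP n)))

noncomputable instance (n : ℕ) : Algebra (PP n) (KK n) :=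
  inferInstanceAs (Algebra (PP n) (FractionRing (PP n)))

instance (n : ℕ) : IsFractionRing (PP n) (KK n) :=
  inferInstanceAs (IsFractionRing (PP n) (FractionRing (PP n)))

noncomputable instance (n : ℕ) : Algebra ℂ (KK n) :=
  ((algebraMap (PP n) (KK n)).comp (algebraMap ℂ (PP n))).toAlgebra

instance (n : ℕ) : IsScalarTower ℂ (PP n) (KK n) := IsScalarTower.of_algebraMap_eq fun _ => rfl

attribute [irreducible] KK

/-- Symbols of differential operators. -/
abbrev Sy (n : ℕ) := MvPolynomial (Fin n) (KK n)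

/-- Data of a complex reflection group `G`, with hyperplanes indexed by `ι`. -/
structure RD (n : ℕ) (G ι : Type) [Group G] [Fintype G] [DecidableEq G] [Fintype ι]
    [DecidableEq ι] where
  /-- the representation on column vectors -/
  A : G →* Matrix (Fin n) (Fin n) ℂ
  /-- the linear form of a hyperplane -/
  al : ι → Fin n → ℂ
  /-- the normal vector of a hyperplane -/
  nv : ι → Fin n → ℂ
  /-- the reflections -/
  R : Finset G
  /-- the hyperplane of a reflection -/
  hy : G → ι
  /-- the eigenvalue of a reflection -/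
  lam : G → ℂ
  /-- the order of the pointwise stabiliser of a hyperplane -/
  m : ι → ℕ
  /-- the right action on hyperplanes -/
  act : G → ι → ι
  /-- twice the number of reflections divided by the rank -/
  g : ℕ
  al_nv : ∀ U, al U ⬝ᵥ nv U = 1
  nonprop : ∀ U U' (u : ℂ), al U = u • al U' → U = U'
  A_refl : ∀ s ∈ R, A s = 1 + (lam s - 1) • Matrix.vecMulVec (nv (hy s)) (al (hy s))
  lam_ne : ∀ s ∈ R, lam s ≠ 1
  lam_pow : ∀ s ∈ R, lam s ^ m (hy s) = 1
  hact : ∀ w U, ∃ u : ℂ, u ≠ 0 ∧ al U ᵥ* A w = u • al (act w U) ∧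
    A w⁻¹ *ᵥ nv U = u⁻¹ • nv (act w U)
  act_one : ∀ U, act 1 U = U
  act_mul : ∀ w w' U, act (w * w') U = act w' (act w U)
  conj : ∀ w, ∀ s ∈ R, w⁻¹ * s * w ∈ R ∧ hy (w⁻¹ * s * w) = act w (hy s) ∧
    lam (w⁻¹ * s * w) = lam s
  two_le : ∀ U, 2 ≤ m U
  m_act : ∀ w U, m (act w U) = m U
  card : ∀ U, (R.filter fun s => hy s = U).card + 1 = m U
  prim : ∀ U, ∃ s ∈ R, hy s = U ∧ IsPrimitiveRoot (lam s) (m U)
  hsum : ∀ U r, r < m U →
    ∑ s ∈ R.filter fun s => hy s = U, (lam s)⁻¹ ^ r / (1 - lam s) = ((m U : ℂ) - 1) / 2 - r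
  hpt : ∀ U, ∃ p, al U ⬝ᵥ p = 0 ∧ (∀ U', U' ≠ U → al U' ⬝ᵥ p ≠ 0) ∧
    ∀ w, A w *ᵥ p = p → w = 1 ∨ (w ∈ R ∧ hy w = U)
  gen : Subgroup.closure (R : Set G) = ⊤
  schur : ∑ s ∈ R, Matrix.vecMulVec (nv (hy s)) (al (hy s)) = ((g : ℂ) / 2) • 1
  card_R : 2 * R.card = n * g
  big : ∀ U, 2 * m U < g + 2
  g_pos : 0 < g

variable {n : ℕ}

/-- Polynomials as rational functions. -/
noncomputable abbrev toK : PP n →ₐ[ℂ] KK n := IsScalarTower.toAlgHom ℂ (PP n) (KK n)

theorem toK_inj : Function.Injective (toK (n := n)) := IsFractionRing.injective (PP n) (KK n)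

theorem exists_dK (i : Fin n) :
    ∃ d : Derivation ℂ (KK n) (KK n), ∀ p, d (toK p) = toK (pderiv i p) := by
  let φ : PP n →ₐ[ℂ] TrivSqZeroExt (KK n) (KK n) :=
    { toFun := fun p => (toK p, toK (pderiv i p))
      map_one' := TrivSqZeroExt.ext (map_one _) (by
        change toK (pderiv i 1) = 0
        simp)
      map_mul' := fun p q => TrivSqZeroExt.ext (map_mul _ _ _) (by
        change toK (pderiv i (p * q)) = toK p * toK (pderiv i q) + toK (pderiv i p) * toK q
        rw [← map_mul, ← map_mul, ← map_add, Derivation.leibniz, smul_eq_mul, smul_eq_mul,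
          mul_comm q])
      map_zero' := TrivSqZeroExt.ext (map_zero _) (by
        change toK (pderiv i 0) = 0
        simp)
      map_add' := fun p q => TrivSqZeroExt.ext (map_add _ _ _) (by
        change toK (pderiv i (p + q)) = toK (pderiv i p) + toK (pderiv i q)
        rw [map_add, map_add])
      commutes' := fun c => TrivSqZeroExt.ext (toK.commutes c) (by
        change toK (pderiv i (C c)) = 0
        simp) }
  have hφ : ∀ y : nonZeroDivisors (PP n), IsUnit (φ y) := fun y => by
    rw [TrivSqZeroExt.isUnit_iff_isUnit_fst, isUnit_iff_ne_zero]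
    exact fun h => nonZeroDivisors.ne_zero y.2 (toK_inj (h.trans (map_zero _).symm))
  let ψ : KK n →ₐ[ℂ] TrivSqZeroExt (KK n) (KK n) := IsLocalization.liftAlgHom (f := φ) hφ
  have h1 : ∀ p, ψ (toK p) = φ p := fun p => IsLocalization.lift_eq hφ p
  have h2 : ∀ x, (ψ x).fst = x := fun x => by
    have : ((TrivSqZeroExt.fstHom ℂ (KK n) (KK n)).comp ψ : KK n →+* KK n) = RingHom.id _ :=
      IsLocalization.ringHom_ext (nonZeroDivisors (PP n)) (RingHom.ext fun p =>
        congrArg TrivSqZeroExt.fst (h1 p))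
    exact RingHom.congr_fun this x
  refine ⟨Derivation.mk' ((TrivSqZeroExt.sndHom (KK n) (KK n)).restrictScalars ℂ ∘ₗ ψ.toLinearMap)
    fun a b => ?_, fun p => congrArg TrivSqZeroExt.snd (h1 p)⟩
  simp [h2, mul_comm]

/-- Partial derivative of rational functions. -/
noncomputable def dK (i : Fin n) : Derivation ℂ (KK n) (KK n) := (exists_dK i).choose

theorem dK_toK (i : Fin n) (p : PP n) : dK i (toK p) = toK (pderiv i p) :=
  (exists_dK i).choose_spec p

/-- Multiplication operator. -/
noncomputable def mu (f : KK n) : Module.End ℂ (KK n) := LinearMap.mulLeft ℂ f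

/-- Polynomials, as a subspace of the rational functions. -/
noncomputable def PK (n : ℕ) : Submodule ℂ (KK n) := LinearMap.range (toK (n := n)).toLinearMap

/-- Polynomials without constant term. -/
noncomputable def PK0 (n : ℕ) : Submodule ℂ (KK n) :=
  (LinearMap.ker (lcoeff ℂ (0 : Fin n →₀ ℕ))).map (toK (n := n)).toLinearMap

/-- Derivative of the coefficients of a symbol. -/
noncomputable def coD (i : Fin n) (q : Sy n) : Sy n := ∑ β ∈ q.support, monomial β (dK i (coeff β q))

namespace RD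

variable {G ι : Type} [Group G] [Fintype G] [DecidableEq G] [Fintype ι] [DecidableEq ι]
variable (D : RD n G ι)

theorem sub_inj (w : G) : Function.Injective ((toK (n := n)).comp (sub (D.A w))) := by
  refine toK_inj.comp (Function.LeftInverse.injective (g := sub (D.A w⁻¹)) fun p => ?_)
  change sub _ (sub _ p) = p
  rw [← sub_mul, ← map_mul, mul_inv_cancel, map_one, sub_one]

/-- Action on rational functions (`tK (w * w') = tK w' ∘ tK w`). -/
noncomputable def tK (w : G) : KK n →ₐ[ℂ] KK n := IsFractionRing.liftAlgHom (D.sub_inj w)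

theorem tK_toK (w : G) (p : PP n) : D.tK w (toK p) = toK (sub (D.A w) p) :=
  IsFractionRing.lift_algebraMap (D.sub_inj w) p

/-- The action as a linear operator. -/
noncomputable def T (w : G) : Module.End ℂ (KK n) := (D.tK w).toLinearMap

/-- Invariant rational functions. -/
def IsInv (f : KK n) : Prop := ∀ w, D.tK w f = f

/-- Averaging operator. -/
noncomputable def av : Module.End ℂ (KK n) := (Fintype.card G : ℂ)⁻¹ • ∑ w, D.T w

/-- The linear form of a hyperplane as a rational function. -/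
noncomputable def aK (U : ι) : KK n := toK (lin (D.al U))

/-- Invariant functions on the set of hyperplanes. -/
def Inv {β : Type} (E : ι → β) : Prop := ∀ w U, E (D.act w U) = E U

/-- Admissible exponents. -/
def Adm (r : ι → ℕ) : Prop := D.Inv r ∧ ∀ U, r U < D.m U

/-- Logarithmic derivative of `∏ α_U ^ E U` in the direction `y`. -/
noncomputable def lg (E : ι → ℂ) (y : Fin n → ℂ) : KK n :=
  ∑ U, (E U * (D.al U ⬝ᵥ y)) • (D.aK U)⁻¹

/-- Twisted derivative. -/
noncomputable def nab (E : ι → ℂ) (y : Fin n → ℂ) : Module.End ℂ (KK n) :=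
  ∑ i, y i • (dK i).toLinearMap + mu (D.lg E y)

/-- The differential operator with symbol `q`. -/
noncomputable def Op (E : ι → ℂ) : Sy n →ₗ[KK n] Module.End ℂ (KK n) :=
  (basisMonomials (Fin n) (KK n)).constr (KK n) fun β =>
    (List.ofFn fun i => D.nab E (Pi.single i 1) ^ β i).prod

/-- Action on symbols. -/
noncomputable def gact (w : G) : Sy n →+* Sy n :=
  eval₂Hom (C.comp (D.tK w : KK n →+* KK n)) fun i =>
    ∑ j, C (algebraMap ℂ (KK n) (D.A w⁻¹ j i)) * X j

/-- Dunkl operator. -/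
noncomputable def dun (c : ℂ) (E : ι → ℂ) (y : Fin n → ℂ) : Module.End ℂ (KK n) :=
  D.nab E y + ∑ s ∈ D.R, (2 * c / (1 - D.lam s) * (D.al (D.hy s) ⬝ᵥ y)) •
    (mu (D.aK (D.hy s))⁻¹ * D.T s)

/-- The twist attached to the exponents `r`. -/
noncomputable def EE (c : ℂ) (r : ι → ℕ) : ι → ℂ := fun U =>
  (2 * c + 1) * r U - c * ((D.m U : ℂ) - 1)

/-- Product of powers of the linear forms. -/
noncomputable def Gm (r : ι → ℕ) : PP n := ∏ U, lin (D.al U) ^ r U

/-- The space `Γ_r⁻¹ P`. -/
noncomputable def LK (r : ι → ℕ) : Submodule ℂ (KK n) := (PK n).comap (mu (toK (D.Gm r)))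

/-- Rational functions with poles only along the hyperplanes. -/
noncomputable def SK : Subalgebra ℂ (KK n) :=
  Algebra.adjoin ℂ (Set.range (fun i => toK (X i)) ∪ Set.range fun U => (D.aK U)⁻¹)

/-- Symbols with coefficients in `SK`. -/
def CoS (q : Sy n) : Prop := ∀ β, coeff β q ∈ D.SK

/-- The first parameter. -/
noncomputable def c0 : ℂ := (D.g : ℂ)⁻¹

/-- The second parameter. -/
noncomputable def c1 : ℂ := -1 - (D.g : ℂ)⁻¹

/-- Symbols whose operators send invariant polynomials to polynomials in all admissible twists. -/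
def Cl (q : Sy n) : Prop :=
  D.CoS q ∧ ∀ r, D.Adm r → ∀ f ∈ PK n, D.IsInv f → D.Op (D.EE D.c0 r) q f ∈ PK n

/-- Families of operators, depending on the twist, generated by coordinates, group elements and
Dunkl operators. -/
noncomputable def Fam (c : ℂ) : Subalgebra ℂ ((ι → ℂ) → Module.End ℂ (KK n)) :=
  Algebra.adjoin ℂ (Set.range (fun l _ => mu (toK (lin l))) ∪ Set.range (fun w _ => D.T w) ∪
    Set.range fun y E => D.dun c E y)

/-- Modules over the rational Cherednik algebra with parameter `c`. -/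
structure CMod (c : ℂ) (M : Type) [AddCommGroup M] [Module ℂ M] where
  /-- covectors -/
  X : (Fin n → ℂ) →ₗ[ℂ] Module.End ℂ M
  /-- vectors -/
  Y : (Fin n → ℂ) →ₗ[ℂ] Module.End ℂ M
  /-- group elements -/
  T : G → Module.End ℂ M
  T_one : T 1 = 1
  T_mul : ∀ w w', T (w * w') = T w' * T w
  TX : ∀ w l, T w * X l = X (l ᵥ* D.A w) * T w
  TY : ∀ w y, T w * Y y = Y (D.A w⁻¹ *ᵥ y) * T w
  XX : ∀ l l', X l * X l' = X l' * X l
  YY : ∀ y y', Y y * Y y' = Y y' * Y y
  YX : ∀ y l, Y y * X l - X l * Y y = (l ⬝ᵥ y) • 1 -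
    ∑ s ∈ D.R, (2 * c * (D.al (D.hy s) ⬝ᵥ y) * (l ⬝ᵥ D.nv (D.hy s))) • T s

/-- The grading element. -/
noncomputable def CMod.eps {D : RD n G ι} {c : ℂ} {M : Type} [AddCommGroup M] [Module ℂ M]
    (H : D.CMod c M) : Module.End ℂ M :=
  ∑ i, H.X (Pi.single i 1) * H.Y (Pi.single i 1) -
    ∑ s ∈ D.R, (2 * c / (1 - D.lam s)) • H.T s + ((n : ℂ) / 2) • 1

end RD

end Pool.Agent.P.MP_97ea17_al.Cx
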