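import Pool.Agent.P.MP_97ea17_al.F.E2

/-! Admissible triangles. -/

namespace Pool.Agent.P.MP_97ea17_al.Geo

open scoped Quaternion Matrix

variable {n : ℕ} {W : Subgroup (GH n)}

namespace E1

/-- The six values, exactly. -/
def cd : ℕ → ℤ√5
  | 0 => ⟨0, 0⟩
  | 1 => ⟨2, 0⟩
  | 2 => ⟨4, 0⟩
  | 3 => ⟨3, -1⟩
  | 4 => ⟨3, 1⟩
  | _ => ⟨8, 0⟩

/-- The real value. -/
noncomputable def ev : ℤ√5 →+* ℝ := Zsqrtd.toReal (by norm_num)

theorem ev_eq (z : ℤ√5) : ev z = z.re + z.im * √5 := by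
  simp [ev, Zsqrtd.toReal]

theorem ev_cd (s : ℕ) : ev (cd s) = vl s := by
  rw [ev_eq]
  match s with
  | 0 => simp [cd, vl]
  | 1 => simp [cd, vl]
  | 2 => simp [cd, vl]
  | 3 => simp [cd, vl, sub_eq_add_neg]
  | 4 => simp [cd, vl]
  | k + 5 => simp [cd, vl]

theorem ev_inj : Function.Injective ev :=
  Zsqrtd.toReal_injective _ fun k h => by
    have h1 : k ≤ 2 := by nlinarith
    have h2 : -2 ≤ k := by nlinarith
    interval_cases k <;> omega

/-- A necessary condition for a nonnegative value. -/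
def nn (z : ℤ√5) : Prop :=
  0 ≤ 10000 * z.re + 22361 * z.im ∨ 0 ≤ 10000 * z.re + 22360 * z.im

instance (z : ℤ√5) : Decidable (nn z) := by unfold nn; infer_instance

theorem nn_of {z : ℤ√5} (h : 0 ≤ ev z) : nn z := by
  rw [ev_eq] at h
  have h1 : √5 ≤ 22361 / 10000 := Real.sqrt_le_iff.2 ⟨by norm_num, by norm_num⟩
  have h2 : 22360 / 10000 ≤ √5 := Real.le_sqrt_of_sq_le (by norm_num)
  rcases le_total 0 (z.im : ℝ) with h3 | h3
  · left
    have : (0 : ℝ) ≤ 10000 * z.re + 22361 * z.im := by nlinarith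
    exact_mod_cast this
  · right
    have : (0 : ℝ) ≤ 10000 * z.re + 22360 * z.im := by nlinarith
    exact_mod_cast this

/-- The real part of the product of the three inner products, normalised. -/
noncomputable def rho (a b x : V n) : ℝ :=
  64 * (ip a b * ip b x * ip x a).re / (nq a * nq b * nq x)

theorem normSq_comb (r s : ℝ) (p q : ℍ[ℝ]) : Quaternion.normSq (r • p - s • q) =
    r ^ 2 * Quaternion.normSq p - 2 * r * s * (p * star q).re + s ^ 2 * Quaternion.normSq q := by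
  simp [Quaternion.normSq_def']
  ring

theorem re_cyc (p q r : ℍ[ℝ]) : (q * (r * p)).re = (p * q * r).re := by
  simp
  ring

theorem normSq_two (a b x : V n) (r s : ℝ) :
    Quaternion.normSq (r • ip b x - s • (ip b a * ip a x)) = r ^ 2 * tt b x -
      2 * r * s * (ip a b * ip b x * ip x a).re + s ^ 2 * (tt a b * tt a x) := by
  rw [normSq_comb, star_mul, star_ip, star_ip, re_cyc, map_mul, tt_comm a b]
  rfl

variable {a b x : V n}

theorem f1 (ha : a ≠ 0) (hb : b ≠ 0) (hx : x ≠ 0) :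
    rho a b x = 2 * rat b x + rat a b * rat a x - 2 * rat (sr a b) x := by
  have ha' := (nq_pos ha).ne'
  have hb' := (nq_pos hb).ne'
  have hx' := (nq_pos hx).ne'
  have h : tt (sr a b) x = _ :=
    (congrArg Quaternion.normSq (E2.ip_sr_left a b x)).trans (normSq_two a b x _ _)
  rw [rat, rat, rat, rat, h, E2.nq_sr, rho]
  field_simp
  ring

theorem f2 (ha : a ≠ 0) (hb : b ≠ 0) (hx : x ≠ 0) :
    8 * rat a b * rat a x * rat b x - rho a b x * rho a b x =
      4096 * Quaternion.normSq (ip a b * ip b x * ip x a).im / (nq a * nq b * nq x) ^ 2 := by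
  have ha' := (nq_pos ha).ne'
  have hb' := (nq_pos hb).ne'
  have hx' := (nq_pos hx).ne'
  have h : Quaternion.normSq (ip a b * ip b x * ip x a).im =
      tt a b * tt b x * tt a x - (ip a b * ip b x * ip x a).re ^ 2 := by
    rw [tt_comm a x, tt, tt, tt, ← map_mul, ← map_mul]
    generalize ip a b * ip b x * ip x a = z
    simp [Quaternion.normSq_def']
    ring
  rw [h, rat, rat, rat, rho]
  field_simp
  ring

theorem ip_pr (a b x : V n) :
    ip (rs b (nq a : ℝ) - rs a (ip a b)) (rs x (nq a : ℝ) - rs a (ip a x)) =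
      nq a ^ 2 • ip b x - nq a • (ip b a * ip a x) := by
  simp only [ip_sub_left, ip_sub_right, ip_rs_left, ip_rs_right, star_ip, ip_self,
    Quaternion.star_coe, Quaternion.mul_coe_eq_smul, Quaternion.coe_mul_eq_smul]
  generalize ip b x = p, ip b a = q, ip a x = r, nq a = A
  ext <;> simp <;> ring

theorem nq_pr (a b : V n) :
    nq (rs b (nq a : ℝ) - rs a (ip a b)) = nq a ^ 2 * nq b - nq a * tt a b := by
  rw [nq_eq, ip_pr, ip_self, ip_mul_ip, tt_comm]
  simp

theorem f3 (ha : a ≠ 0) (hb : b ≠ 0) (hx : x ≠ 0) :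
    0 ≤ 32 - 4 * (rat a b + rat a x + rat b x) + rho a b x := by
  have ha' := nq_pos ha
  have hb' := nq_pos hb
  have hx' := nq_pos hx
  have h := tt_le (rs b (nq a : ℝ) - rs a (ip a b)) (rs x (nq a : ℝ) - rs a (ip a x))
  rw [tt, ip_pr, normSq_two, nq_pr, nq_pr] at h
  have e : 32 - 4 * (rat a b + rat a x + rat b x) + rho a b x =
      32 * ((nq a ^ 2 * nq b - nq a * tt a b) * (nq a ^ 2 * nq x - nq a * tt a x) -
        ((nq a ^ 2) ^ 2 * tt b x - 2 * nq a ^ 2 * nq a * (ip a b * ip b x * ip x a).re +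
          nq a ^ 2 * (tt a b * tt a x))) / (nq a ^ 4 * nq b * nq x) := by
    rw [rat, rat, rat, rho]
    field_simp
    ring
  rw [e]
  have := sub_nonneg.2 h
  positivity

theorem re_swap (a b x : V n) :
    (ip b a * ip a x * ip x b).re = (ip a b * ip b x * ip x a).re := by
  rw [← Quaternion.re_star, star_mul, star_mul, star_ip, star_ip, star_ip, re_cyc]

theorem f4 (a b x : V n) : rho b a x = rho a b x := by
  rw [rho, rho, re_swap, mul_comm (nq b)]

theorem ip_self_sr (a b : V n) : ip b (sr a b) = ((nq a * nq b - 2 * tt a b : ℝ) : ℍ[ℝ]) := by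
  rw [E2.ip_sr_right, ip_self, ip_mul_ip, tt_comm]
  ext <;> simp

theorem f5 (ha : a ≠ 0) (hb : b ≠ 0) (hx : x ≠ 0) :
    2 * rho b (sr a b) x = (4 - rat a b) * (4 * rat b x - rho a b x) := by
  have ha' := (nq_pos ha).ne'
  have hb' := (nq_pos hb).ne'
  have hx' := (nq_pos hx).ne'
  have h : (ip b (sr a b) * ip (sr a b) x * ip x b).re = (nq a * nq b - 2 * tt a b) *
      (nq a * tt b x - 2 * (ip a b * ip b x * ip x a).re) := by
    have e : tt b x = (ip b x * ip x b).re := by rw [ip_mul_ip, Quaternion.re_coe]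
    rw [ip_self_sr, E2.ip_sr_left, ← re_swap, e]
    generalize ip b x = p, ip b a = q, ip a x = r, ip x b = z, nq a * nq b - 2 * tt a b = C
    simp
    ring
  rw [rho, h, E2.nq_sr, rat, rat, rho]
  field_simp
  ring

theorem f6 (ha : a ≠ 0) (hb : b ≠ 0) : 2 * rat b (sr a b) = (4 - rat a b) * (4 - rat a b) := by
  have ha' := (nq_pos ha).ne'
  have hb' := (nq_pos hb).ne'
  rw [rat, tt, ip_self_sr, Quaternion.normSq_coe, E2.nq_sr, rat]
  field_simp
  ring

theorem f7 (ha : a ≠ 0) (hb : b ≠ 0) : rat a (sr a b) = rat a b := by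
  have ha' := (nq_pos ha).ne'
  have hb' := (nq_pos hb).ne'
  have h : ip a (sr a b) = (-nq a) • ip a b := by
    rw [E2.ip_sr_right, ip_self, Quaternion.coe_mul_eq_smul]
    module
  rw [rat, tt, h, Quaternion.normSq_smul, E2.nq_sr, rat, tt]
  field_simp

/-- The exact value of `rho`. -/
def ro (s t u v : ℕ) : ℤ√5 := 2 * cd u + cd s * cd t - 2 * cd v

/-- All the data of a triangle of roots. -/
structure Dt (W : Subgroup (GH n)) (a b x : V n) (s t u v : ℕ) : Prop where
  ha : Sg W a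
  hb : Sg W b
  hx : Sg W x
  hs : s < 6
  ht : t < 6
  hu : u < 6
  hv : v < 6
  h : Tr a b x s t u v

variable {s t u v : ℕ}

theorem Dt.ev_ro (d : Dt W a b x s t u v) : ev (ro s t u v) = rho a b x := by
  obtain ⟨h1, h2, h3, h4⟩ := d.h
  rw [f1 d.ha.1 d.hb.1 d.hx.1, h1, h2, h3, h4]
  simp only [ro, map_sub, map_add, map_mul, map_ofNat, ev_cd]

theorem Dt.ev_im (d : Dt W a b x s t u v) :
    ev (8 * cd s * cd t * cd u - ro s t u v * ro s t u v) =
      4096 * Quaternion.normSq (ip a b * ip b x * ip x a).im / (nq a * nq b * nq x) ^ 2 := by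
  obtain ⟨h1, h2, h3, h4⟩ := d.h
  rw [← f2 d.ha.1 d.hb.1 d.hx.1, h1, h2, h3]
  simp only [map_sub, map_mul, map_ofNat, ev_cd, d.ev_ro]

theorem Dt.b1 (d : Dt W a b x s t u v) :
    nn (8 * cd s * cd t * cd u - ro s t u v * ro s t u v) := by
  refine nn_of ?_
  rw [d.ev_im]
  exact div_nonneg (mul_nonneg (by norm_num) Quaternion.normSq_nonneg) (sq_nonneg _)

theorem Dt.b2 (d : Dt W a b x s t u v) : nn (32 - 4 * (cd s + cd t + cd u) + ro s t u v) := by
  obtain ⟨h1, h2, h3, h4⟩ := d.h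
  refine nn_of ?_
  have := f3 d.ha.1 d.hb.1 d.hx.1
  rw [h1, h2, h3] at this
  simpa only [map_sub, map_add, map_mul, map_ofNat, ev_cd, d.ev_ro] using this

theorem Dt.m1 (hA : Ang W) (d : Dt W a b x s t u v) :
    ∃ w < 6, ro s u t w = ro s t u v ∧ Dt W b a x s u t w := by
  obtain ⟨h1, h2, h3, h4⟩ := d.h
  obtain ⟨w, hw, e⟩ := hA _ _ (d.hb.sr d.ha) d.hx
  have d' : Dt W b a x s u t w :=
    ⟨d.hb, d.ha, d.hx, d.hs, d.hu, d.ht, hw, (rat_comm _ _).trans h1, h3, h2, e⟩
  exact ⟨w, hw, ev_inj (by rw [d.ev_ro, d'.ev_ro, f4]), d'⟩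

theorem Dt.m2 (d : Dt W a b x s t u v) : Dt W a x b t s u v := by
  obtain ⟨h1, h2, h3, h4⟩ := d.h
  exact ⟨d.ha, d.hx, d.hb, d.ht, d.hs, d.hu, d.hv, h2, h1, (rat_comm _ _).trans h3,
    by rw [rat_sr, rat_comm, h4]⟩

theorem Dt.m3 (d : Dt W a b x s t u v) : Dt W a (sr a b) x s t v u := by
  obtain ⟨h1, h2, h3, h4⟩ := d.h
  exact ⟨d.ha, d.ha.sr d.hb, d.hx, d.hs, d.ht, d.hv, d.hu, (f7 d.ha.1 d.hb.1).trans h1, h2, h4,
    ((pl_sr_sr d.ha.1 b).rat_left x).symm.trans h3⟩

theorem Dt.m4 (hA : Ang W) (d : Dt W a b x s t u v) :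
    ∃ r < 6, 2 * cd r = (4 - cd s) * (4 - cd s) ∧ ∃ w < 6,
      2 * ro r u v w = (4 - cd s) * (4 * cd u - ro s t u v) ∧ Dt W b (sr a b) x r u v w := by
  obtain ⟨h1, h2, h3, h4⟩ := d.h
  have hc := d.ha.sr d.hb
  obtain ⟨r, hr, e'⟩ := hA _ _ d.hb hc
  obtain ⟨w, hw, e⟩ := hA _ _ (d.hb.sr hc) d.hx
  have d' : Dt W b (sr a b) x r u v w := ⟨d.hb, hc, d.hx, hr, d.hu, d.hv, hw, e', h3, h4, e⟩
  refine ⟨r, hr, ev_inj ?_, w, hw, ev_inj ?_, d'⟩
  · simp only [map_sub, map_mul, map_ofNat, ev_cd, ← h1, ← e', f6 d.ha.1 d.hb.1]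
  · simp only [map_sub, map_mul, map_ofNat, ev_cd, d.ev_ro, d'.ev_ro, ← h1, ← h3,
      f5 d.ha.1 d.hb.1 d.hx.1]

/-- The table of ranks. -/
def RK : ℕ := nat_lit 0x4000000000000000000000000000000000040000000000000040000000000000000000000000000400000000000000000000000000000000000000000000000000000000000000000000000000000000000000000000400000000000000000000000000004000000000000000000000000000040000000000000000000000400004000000010240000000010040040440000000040200400000009500106400000000000000000000010600000000070500000000000000409000001400a1160004750000000000000000040000000000000040000000000000000040000000000000000000000000000000000004020040000000a6001074000000000400000100442322200100200103404114400000000107001020000132008015000000000000000104001492000a0600417500000000000000000000000400000000040000000000000000000000000000000000000000000000000000000000010700000000080600000000000000010800102000013200901600000000004000c010000c12242252400115400144400000000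1870010770098960088750000000000000000000000000000040000400000000000000000000000000000000000040000000000000040a000001400b1170004860000000000000001040014a2000b0700418600000000000000019800108800a9a700998600000000000400090740a1174001474488854044444000000004000040000000000000040000000000000000000000000000400000000000000000000000040000000000000040000000000000000000000000040000000004000000000000000000000000000000040000400000000000000004000040000000000000040000000000004000004000004000004000004444444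

/-- Below `4`: the round in which the codes are removed; `4`: real; above: distance to a
representative. -/
def rk (s t u v : ℕ) : ℕ := RK / 16 ^ (s + 6 * t + 36 * u + 216 * v) % 16

set_option synthInstance.maxSize 2000 in
theorem cA : ∀ s < 6, ∀ t < 6, ∀ u < 6, ∀ v < 6, 4 ≤ rk s t u v ∨ rk t s u v < rk s t u v ∨
    rk s t v u < rk s t u v ∨ ¬ nn (32 - 4 * (cd s + cd t + cd u) + ro s t u v) ∨
    ¬ nn (8 * cd s * cd t * cd u - ro s t u v * ro s t u v) ∨
    (∀ w < 6, ro s u t w = ro s t u v → rk s u t w < rk s t u v) ∨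
    ∀ r < 6, 2 * cd r = (4 - cd s) * (4 - cd s) → ∀ w < 6,
      2 * ro r u v w = (4 - cd s) * (4 * cd u - ro s t u v) → rk r u v w < rk s t u v := by
  decide +kernel

theorem cB : ∀ s < 6, ∀ t < 6, ∀ u < 6, ∀ v < 6, 4 ≤ rk s t u v →
    TT / 2 ^ (s + 8 * t + 64 * u + 512 * v) % 2 = 1 := by
  decide +kernel

set_option synthInstance.maxSize 20000 in
theorem cC : ∀ s < 6, ∀ t < 6, ∀ u < 6, ∀ v < 6, 4 < rk s t u v →
    (s, t, u, v) ∈ [(1, 1, 1, 1), (1, 1, 1, 2), (1, 1, 1, 3), (1, 1, 1, 4), (1, 1, 2, 2),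
      (1, 1, 2, 3), (1, 1, 2, 4), (1, 2, 3, 4), (2, 2, 2, 2)] ∨
    (4 < rk t s u v ∧ rk t s u v < rk s t u v) ∨ (4 < rk s t v u ∧ rk s t v u < rk s t u v) ∨
    ∀ w < 6, ro s u t w = ro s t u v → 4 < rk s u t w ∧ rk s u t w < rk s t u v := by
  decide +kernel

theorem cD : ∀ s < 6, ∀ t < 6, ∀ u < 6, ∀ v < 6, rk s t u v = 4 →
    8 * cd s * cd t * cd u - ro s t u v * ro s t u v = 0 := by
  decide +kernel

theorem four_le (hA : Ang W) (k : ℕ) : ∀ {a b x : V n} {s t u v : ℕ}, Dt W a b x s t u v →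
    rk s t u v = k → 4 ≤ k := by
  induction k using Nat.strong_induction_on with
  | _ k ih =>
    intro a b x s t u v d e
    subst e
    rcases cA s d.hs t d.ht u d.hu v d.hv with h | h | h | h | h | h | h
    · exact h
    · exact (ih _ h d.m2 rfl).trans h.le
    · exact (ih _ h d.m3 rfl).trans h.le
    · exact absurd d.b2 h
    · exact absurd d.b1 h
    · obtain ⟨w, hw, e, d'⟩ := d.m1 hA
      exact (ih _ (h w hw e) d' rfl).trans (h w hw e).le
    · obtain ⟨r, hr, e, w, hw, e', d'⟩ := d.m4 hA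
      exact (ih _ (h r hr e w hw e') d' rfl).trans (h r hr e w hw e').le

end E1

theorem tri_ok (hA : Ang W) {a b x : V n} (ha : Sg W a) (hb : Sg W b) (hx : Sg W x) {s t u v : ℕ}
    (hs : s < 6) (ht : t < 6) (hu : u < 6) (hv : v < 6) (h : Tr a b x s t u v) :
    TT / 2 ^ (s + 8 * t + 64 * u + 512 * v) % 2 = 1 :=
  E1.cB s hs t ht u hu v hv (E1.four_le hA _ ⟨ha, hb, hx, hs, ht, hu, hv, h⟩ rfl)

theorem tri_ind (hA : Ang W) (P : V n → V n → V n → Prop) (h1 : ∀ a b x, P b a x → P a b x)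
    (h2 : ∀ a b x, P a x b → P a b x) (h3 : ∀ a b x, Sg W a → P a (sr a b) x → P a b x)
    (h : ∀ a b x, Sg W a → Sg W b → Sg W x → ∀ s ∈ [(1, 1, 1, 1), (1, 1, 1, 2), (1, 1, 1, 3),
      (1, 1, 1, 4), (1, 1, 2, 2), (1, 1, 2, 3), (1, 1, 2, 4), (1, 2, 3, 4), (2, 2, 2, 2)],
      Tr a b x s.1 s.2.1 s.2.2.1 s.2.2.2 → P a b x)
    {a b x : V n} (ha : Sg W a) (hb : Sg W b) (hx : Sg W x)
    (hT : (ip a b * ip b x * ip x a).im ≠ 0) : P a b x := by
  have key : ∀ (k : ℕ) {a b x : V n} {s t u v : ℕ}, E1.Dt W a b x s t u v →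
      E1.rk s t u v = k → 4 < k → P a b x := by
    intro k
    induction k using Nat.strong_induction_on with
    | _ k ih =>
      intro a b x s t u v d e hk
      subst e
      rcases E1.cC s d.hs t d.ht u d.hu v d.hv hk with g | g | g | g
      · exact h a b x d.ha d.hb d.hx _ g d.h
      · exact h2 _ _ _ (ih _ g.2 d.m2 rfl g.1)
      · exact h3 _ _ _ d.ha (ih _ g.2 d.m3 rfl g.1)
      · obtain ⟨w, hw, e, d'⟩ := d.m1 hA
        exact h1 _ _ _ (ih _ (g w hw e).2 d' rfl (g w hw e).1)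
  obtain ⟨s, hs, e1⟩ := hA _ _ ha hb
  obtain ⟨t, ht, e2⟩ := hA _ _ ha hx
  obtain ⟨u, hu, e3⟩ := hA _ _ hb hx
  obtain ⟨v, hv, e4⟩ := hA _ _ (ha.sr hb) hx
  have d : E1.Dt W a b x s t u v := ⟨ha, hb, hx, hs, ht, hu, hv, e1, e2, e3, e4⟩
  refine key _ d rfl (lt_of_le_of_ne (E1.four_le hA _ d rfl) fun e => hT ?_)
  have g := d.ev_im
  rw [E1.cD s hs t ht u hu v hv e.symm, map_zero, eq_comm, div_eq_zero_iff] at g
  rcases g with g | g
  · exact Quaternion.normSq_eq_zero.1 (by linarith)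
  · exact absurd g (pow_pos (mul_pos (mul_pos (nq_pos ha.1) (nq_pos hb.1)) (nq_pos hx.1)) 2).ne'

end Pool.Agent.P.MP_97ea17_al.Geo
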