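import Pool.Agent.P.MP_97ea17_al.F.GDefs

/-! Root systems of reflections of order two: definitions. -/

namespace Pool.Agent.P.MP_97ea17_al.Geo

open scoped Quaternion Matrix
open Finset

variable {n : ℕ}

/-- `v` is a root of a reflection of order two in `H`. -/
def Sg (H : Subgroup (GH n)) (v : V n) : Prop := v ≠ 0 ∧ ∃ w ∈ H, w.val = reflMat v (-1)

/-- The mirror image of `v` in `u`, multiplied by the square of the norm of `u`. -/
noncomputable def sr (u v : V n) : V n := rs v (nq u : ℝ) - rs u (2 * ip u v)

/-- Eight times the squared cosine. -/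
noncomputable def rat (u v : V n) : ℝ := 8 * tt u v / (nq u * nq v)

/-- The six admissible values. -/
noncomputable def vl : ℕ → ℝ
  | 0 => 0
  | 1 => 2
  | 2 => 4
  | 3 => 3 - √5
  | 4 => 3 + √5
  | _ => 8

/-- All angles between roots are admissible. -/
def Ang (W : Subgroup (GH n)) : Prop := ∀ u v, Sg W u → Sg W v → ∃ s < 6, rat u v = vl s

/-- The data of a triangle. -/
def Tr (a b x : V n) (s t u v : ℕ) : Prop :=
  rat a b = vl s ∧ rat a x = vl t ∧ rat b x = vl u ∧ rat (sr a b) x = vl v

/-- Nonzero multiples. -/
def Pl (u v : V n) : Prop := ∃ q, q ≠ 0 ∧ u = rs v q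

/-- The first `m` vectors are orthonormal. -/
def On (m : ℕ) (e : ℕ → V n) : Prop := ∀ i < m, ∀ j < m, ip (e i) (e j) = if i = j then 1 else 0

/-- The vector with coordinates `c`. -/
noncomputable def vc (m : ℕ) (e : ℕ → V n) (c : ℕ → ℍ[ℝ]) : V n := ∑ i ∈ range m, rs (e i) (c i)

/-- Inner product in coordinates. -/
noncomputable def ipc (m : ℕ) (c d : ℕ → ℍ[ℝ]) : ℍ[ℝ] := ∑ i ∈ range m, star (c i) * d i

/-- Square of the norm in coordinates. -/
noncomputable def nqc (m : ℕ) (c : ℕ → ℍ[ℝ]) : ℝ := ∑ i ∈ range m, Quaternion.normSq (c i)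

/-- `v` lies in the span. -/
def Sp (m : ℕ) (e : ℕ → V n) (v : V n) : Prop := ∃ c, v = vc m e c

/-- `v` is orthogonal to the span. -/
def Zr (m : ℕ) (e : ℕ → V n) (v : V n) : Prop := ∀ i < m, ip (e i) v = 0

/-- The coordinates of `v` are complex up to a common factor. -/
def Cr (ω : ℍ[ℝ]) (m : ℕ) (e : ℕ → V n) (v : V n) : Prop :=
  ∀ i < m, ∀ j < m, Commute (ip (e i) v * star (ip (e j) v)) ω

/-- A multiple of `x` has the first `m` coordinates and the norm of `y`. -/
def Mt (m : ℕ) (e : ℕ → V n) (y : ℕ → ℍ[ℝ]) (x : V n) : Prop :=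
  ∃ q, q ≠ 0 ∧ (∀ i < m, ip (e i) x * q = y i) ∧ nq x * Quaternion.normSq q = nqc (m + 1) y

/-- `D` anticommutes with `ω`. -/
def AC (ω D : ℍ[ℝ]) : Prop := D * ω + ω * D = 0

/-- `X` is the part of `l • P` that commutes with `ω`. -/
def Kn (ω : ℍ[ℝ]) (l : ℝ) (X P : ℍ[ℝ]) : Prop := Commute X ω ∧ AC ω (l • P - X)

/-- The root `a` makes the angles of an axis with `x`. -/
def Ax (W : Subgroup (GH n)) (a x : V n) : Prop :=
  rat a x = 0 ∨ rat a x = 8 ∨ (rat a x = 4 ∧ ∃ z, Sg W z ∧ rat z x = 2)

/-- The table of admissible triangles. -/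
def TT : ℕ := nat_lit 0x20000000000100000000080000000000001000000000000000000000000000000000000002000000000000040000000000000000000000000000000000000000000008000000000010200100010b00000008100606000000000002000a000000001402120e000000000200001000000000000000000000000000000000000000001000000000000000081006060000000801200001130000000200001200000000020c0a160000000000020008000000000000000000000000000000000000000000000000000000000002000a000000000200001200000004100825030700000006061e1e0000000000000204000000000000000000000000000000000000000000000002000000001402120e00000000020c0a160000000006061e1e000000020b13073f1f00000008100002000000000000000000000000000000000000000000000400000000000200001000000000000200080000000000000204000000000810000200000001010101013f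

end Pool.Agent.P.MP_97ea17_al.Geo
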