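import Pool.Agent.P.MP_97ea17_al.F.G1b
import Pool.Agent.P.MP_97ea17_al.F.EDefs

/-! Roots, angles and coordinates: basic facts. -/

namespace Pool.Agent.P.MP_97ea17_al.Geo

open scoped Quaternion Matrix
open Finset

variable {n m : ℕ} {W H : Subgroup (GH n)} {e : ℕ → V n} {u v x g : V n} {c d : ℕ → ℍ[ℝ]}

namespace E2

theorem coe_ne {r : ℝ} (h : r ≠ 0) : (r : ℍ[ℝ]) ≠ 0 := by
  intro e
  exact h (by simpa using congrArg QuaternionAlgebra.re e)

theorem rs_ne {v : V n} {q : ℍ[ℝ]} (hv : v ≠ 0) (hq : q ≠ 0) : rs v q ≠ 0 := by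
  intro e
  have h := nq_rs v q
  rw [e, nq_eq_zero.2 rfl] at h
  exact mul_ne_zero (nq_pos hv).ne' (Quaternion.normSq_ne_zero.2 hq) h.symm

theorem refl_rs (v : V n) {q : ℍ[ℝ]} (hq : q ≠ 0) : reflMat (rs v q) (-1) = reflMat v (-1) := by
  have h := reflMat_rs v (-1) hq
  rwa [mul_neg, mul_one, neg_mul, inv_mul_cancel₀ hq] at h

theorem star_rsmul (r : ℝ) (q : ℍ[ℝ]) : star (r • q) = r • star q := by
  ext <;> simp

theorem ip_sr_right (c u v : V n) :
    ip c (sr u v) = nq u • ip c v - (2 : ℝ) • (ip c u * ip u v) := by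
  rw [sr, ip_sub_right, ip_rs_right, ip_rs_right, Quaternion.mul_coe_eq_smul, two_mul, mul_add,
    two_smul]

theorem ip_sr_left (u v x : V n) :
    ip (sr u v) x = nq u • ip v x - (2 : ℝ) • (ip v u * ip u x) := by
  rw [← star_ip, ip_sr_right, star_sub, star_rsmul, star_rsmul, star_mul, star_ip, star_ip,
    star_ip]

theorem nq_sr (u v : V n) : nq (sr u v) = nq u ^ 2 * nq v := by
  have h : ip (sr u v) (sr u v) = (nq u ^ 2 * nq v) • (1 : ℍ[ℝ]) := by
    rw [ip_sr_left, ip_sr_right, ip_sr_right, ip_self, ip_self, ip_mul_ip,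
      Quaternion.coe_mul_eq_smul, mul_sub, mul_smul_comm, mul_smul_comm, mul_smul_comm, ip_mul_ip,
      ← mul_one (nq v : ℍ[ℝ]), ← mul_one (tt v u : ℍ[ℝ]), Quaternion.coe_mul_eq_smul,
      Quaternion.coe_mul_eq_smul]
    module
  rw [nq_eq, h]
  simp

theorem normSq_comb (r : ℝ) (p q : ℍ[ℝ]) : Quaternion.normSq (r • p - (2 : ℝ) • q) =
    r ^ 2 * Quaternion.normSq p - 4 * r * (p * star q).re + 4 * Quaternion.normSq q := by
  simp [Quaternion.normSq_def']
  ring

theorem commute_star {a ω : ℍ[ℝ]} (h : Commute a ω) : Commute (star a) ω := by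
  rw [Quaternion.star_eq_two_re_sub]
  exact Commute.sub_left (Quaternion.coe_commute _ _) h

theorem vc_rs (c : ℕ → ℍ[ℝ]) (q : ℍ[ℝ]) : rs (vc m e c) q = vc m e fun i => c i * q := by
  simp only [vc, sum_rs, rs_rs]

theorem vc_sub (c d : ℕ → ℍ[ℝ]) : vc m e c - vc m e d = vc m e fun i => c i - d i := by
  simp only [vc, rs_sub, Finset.sum_sub_distrib]

theorem ipc_self (c : ℕ → ℍ[ℝ]) : ipc m c c = (nqc m c : ℝ) := by
  simp only [ipc, nqc, Quaternion.star_mul_self]
  exact (map_sum (algebraMap ℝ ℍ[ℝ]) _ _).symm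

theorem re_sum {ι : Type} (s : Finset ι) (f : ι → ℍ[ℝ]) :
    (∑ i ∈ s, f i).re = ∑ i ∈ s, (f i).re :=
  map_sum (AddMonoidHom.mk' (fun a : ℍ[ℝ] => a.re) fun _ _ => rfl) f s

end E2

theorem Pl.refl (u : V n) : Pl u u := by
  exact ⟨1, one_ne_zero, (rs_one u).symm⟩

theorem Pl.symm (h : Pl u v) : Pl v u := by
  obtain ⟨q, hq, rfl⟩ := h
  exact ⟨q⁻¹, inv_ne_zero hq, by rw [rs_rs, mul_inv_cancel₀ hq, rs_one]⟩

theorem Pl.trans (h : Pl u v) (h' : Pl v x) : Pl u x := by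
  obtain ⟨q, hq, rfl⟩ := h
  obtain ⟨p, hp, rfl⟩ := h'
  exact ⟨p * q, mul_ne_zero hp hq, rs_rs _ _ _⟩

theorem Pl.ne_zero (h : Pl u v) (hv : v ≠ 0) : u ≠ 0 := by
  obtain ⟨q, hq, rfl⟩ := h
  exact E2.rs_ne hv hq

theorem pl_of_tt (hu : u ≠ 0) (hv : v ≠ 0) (h : tt u v = nq u * nq v) : Pl u v := by
  have h1 := eq_rs_of_tt (nq_pos hv).ne' (by rw [tt_comm, h, mul_comm])
  refine ⟨_, fun h0 => hu ?_, h1⟩
  rw [h1, h0, rs_zero]

theorem Sg.mono (h : Sg H v) (hle : H ≤ W) : Sg W v := by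
  obtain ⟨h0, w, hw, e⟩ := h
  exact ⟨h0, w, hle hw, e⟩

theorem Sg.pl (h : Sg H v) (hp : Pl u v) : Sg H u := by
  obtain ⟨h0, w, hw, e⟩ := h
  refine ⟨hp.ne_zero h0, w, hw, ?_⟩
  obtain ⟨q, hq, rfl⟩ := hp
  rw [e, E2.refl_rs v hq]

theorem sr_eq (hu : u ≠ 0) (v : V n) : sr u v = rs (reflMat u (-1) *ᵥ v) (nq u : ℝ) := by
  rw [reflMat_vec, sub_rs, rs_rs, Quaternion.mul_coe_eq_smul, smul_smul,
    mul_inv_cancel₀ (nq_pos hu).ne', one_smul, sub_neg_eq_add, one_add_one_eq_two, sr]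

theorem sr_zero_left (v : V n) : sr 0 v = 0 := by
  rw [sr, zero_rs, nq_eq_zero.2 rfl, Quaternion.coe_zero, rs_zero, sub_zero]

theorem sr_zero_right (u : V n) : sr u 0 = 0 := by
  rw [sr, zero_rs, ip_zero_right, mul_zero, rs_zero, sub_zero]

theorem Sg.sr (hu : Sg H u) (hv : Sg H v) : Sg H (sr u v) := by
  obtain ⟨hu0, w, hw, e⟩ := hu
  obtain ⟨hv0, r, hr, e'⟩ := hv
  have hU : IsU (reflMat u (-1)) := reflMat_isU (nq_pos hu0).ne' (by simp)
  have h1 : Sg H (reflMat u (-1) *ᵥ v) := by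
    refine ⟨fun h0 => hv0 ?_, w * r * w⁻¹, H.mul_mem (H.mul_mem hw hr) (H.inv_mem hw), ?_⟩
    · rw [← nq_eq_zero, ← hU.nq v, h0, nq_eq_zero]
    · rw [Units.val_mul, Units.val_mul, e', ← e, ← reflMat_conj (e ▸ hU), mul_assoc,
        ← Units.val_mul, mul_inv_cancel, Units.val_one, mul_one]
  exact h1.pl ⟨_, E2.coe_ne (nq_pos hu0).ne', sr_eq hu0 v⟩

theorem pl_sr_sr (hg : g ≠ 0) (x : V n) : Pl x (sr g (sr g x)) := by
  have h0 := (nq_pos hg).ne'
  refine Pl.symm ⟨(nq g : ℝ) * (nq g : ℝ), mul_ne_zero (E2.coe_ne h0) (E2.coe_ne h0), ?_⟩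
  rw [sr_eq hg, sr_eq hg, mulVec_rs, Matrix.mulVec_mulVec, reflMat_mul' h0, neg_mul_neg, one_mul,
    reflMat_one', Matrix.one_mulVec, rs_rs]

theorem Sg.of_sr (hg : Sg H g) (h : Sg H (Geo.sr g x)) : Sg H x := by
  exact (hg.sr h).pl (pl_sr_sr hg.1 x)

theorem Sg.of_rl {a : V n} (h : Rl W a (-1)) : Sg W a := by
  obtain ⟨h1, -, -, h4⟩ := h
  refine ⟨fun h0 => ?_, h4⟩
  rw [nq_eq_zero.2 h0] at h1
  exact zero_ne_one h1

theorem Sg.exists_rl (h : Sg W v) : ∃ r : ℝ, 0 < r ∧ Rl W (rs v r) (-1) := by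
  obtain ⟨r, hr, h1⟩ := exists_unit_rs h.1
  refine ⟨r, hr, h1, by simp, fun e => ?_, (h.pl ⟨_, E2.coe_ne hr.ne', rfl⟩).2⟩
  have := congrArg QuaternionAlgebra.re e
  norm_num at this

theorem Sg.act (hW : Std W) (h : Sg W v) {w : GH n} (hw : w ∈ W) : Sg W (w.val *ᵥ v) := by
  obtain ⟨r, hr, h1⟩ := h.exists_rl
  have h2 := Sg.of_rl (h1.act hW hw)
  rw [mulVec_rs] at h2
  exact h2.pl (Pl.symm ⟨_, E2.coe_ne hr.ne', rfl⟩)

theorem rat_comm (u v : V n) : rat u v = rat v u := by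
  rw [rat, rat, tt_comm, mul_comm (nq u)]

theorem Pl.rat_left (h : Pl u v) (x : V n) : rat u x = rat v x := by
  obtain ⟨q, hq, rfl⟩ := h
  have h1 : Quaternion.normSq q ≠ 0 := Quaternion.normSq_ne_zero.2 hq
  rw [rat, rat, tt_rs_left, nq_rs, show 8 * (Quaternion.normSq q * tt v x) =
    Quaternion.normSq q * (8 * tt v x) by ring, show nq v * Quaternion.normSq q * nq x =
    Quaternion.normSq q * (nq v * nq x) by ring, mul_div_mul_left _ _ h1]

theorem Pl.rat_right (h : Pl u v) (x : V n) : rat x u = rat x v := by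
  rw [rat_comm, h.rat_left, rat_comm]

theorem rat_sr (g u x : V n) : rat (sr g u) x = rat u (sr g x) := by
  rw [rat, rat, tt, tt, E2.ip_sr_left, E2.ip_sr_right, E2.nq_sr, E2.nq_sr]
  congr 1
  ring

theorem rat_eq (hu : u ≠ 0) (hv : v ≠ 0) {r : ℝ} :
    rat u v = r ↔ 8 * tt u v = r * (nq u * nq v) := by
  rw [rat, div_eq_iff (mul_pos (nq_pos hu) (nq_pos hv)).ne']

theorem rat_der {b c x : V n} (hb : b ≠ 0) (hc : c ≠ 0) (hx : x ≠ 0) :
    2 * rat c (sr x b) = 2 * rat b c + rat b x * rat c x - 2 * rat c x - rat b c * rat b x +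
      2 * rat (sr b c) x := by
  have hb' := (nq_pos hb).ne'
  have hc' := (nq_pos hc).ne'
  have hx' := (nq_pos hx).ne'
  have h1 : tt c (sr x b) = nq x ^ 2 * tt b c - 4 * nq x * (ip c b * ip b x * ip x c).re +
      4 * (tt c x * tt b x) := by
    rw [tt, E2.ip_sr_right, E2.normSq_comb, star_mul, star_ip, star_ip, map_mul, mul_assoc (ip c b),
      tt_comm b c, tt_comm b x]
    rfl
  have h2 : tt (sr b c) x = nq b ^ 2 * tt c x - 4 * nq b * (ip c b * ip b x * ip x c).re +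
      4 * (tt b c * tt b x) := by
    rw [tt, E2.ip_sr_left, E2.normSq_comb, ← Quaternion.re_star (ip c x * _), star_mul, star_star,
      star_ip, map_mul, tt_comm b c]
    rfl
  simp only [rat, h1, h2, E2.nq_sr]
  field_simp
  ring

theorem ang_of_s4 (h4 : ∀ a b, Rl W a (-1) → Rl W b (-1) → S4 (4 * tt a b)) : Ang W := by
  intro u v hu hv
  obtain ⟨r, hr, h1⟩ := hu.exists_rl
  obtain ⟨s, hs, h2⟩ := hv.exists_rl
  have e1 : rat u v = 2 * (4 * tt (rs u r) (rs v s)) := by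
    have p1 : Pl (rs u r) u := ⟨_, E2.coe_ne hr.ne', rfl⟩
    have p2 : Pl (rs v s) v := ⟨_, E2.coe_ne hs.ne', rfl⟩
    rw [← p1.rat_left, ← p2.rat_right, rat, h1.1, h2.1]
    ring
  rw [e1]
  rcases h4 _ _ h1 h2 with h | h | h | h | h | h <;> rw [h]
  · exact ⟨0, by norm_num, by simp [vl]⟩
  · exact ⟨1, by norm_num, by simp [vl]⟩
  · exact ⟨2, by norm_num, by simp only [vl]; ring⟩
  · exact ⟨4, by norm_num, by simp only [vl]; ring⟩
  · exact ⟨3, by norm_num, by simp only [vl]; ring⟩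
  · exact ⟨5, by norm_num, by simp only [vl]; ring⟩

theorem ip_vc_left (x : V n) : ip (vc m e c) x = ipc m c fun i => ip (e i) x := by
  simp only [vc, ipc, ip_sum_left, ip_rs_left]

theorem On.ip_e (he : On m e) {i : ℕ} (hi : i < m) : ip (e i) (vc m e c) = c i := by
  simp only [vc, ip_sum_right, ip_rs_right]
  rw [Finset.sum_eq_single i]
  · rw [he i hi i hi, if_pos rfl, one_mul]
  · intro j hj hne
    rw [he i hi j (mem_range.1 hj), if_neg hne.symm, zero_mul]
  · intro h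
    exact absurd (mem_range.2 hi) h

theorem On.ip_vc (he : On m e) : ip (vc m e c) (vc m e d) = ipc m c d := by
  rw [ip_vc_left]
  exact Finset.sum_congr rfl fun i hi => congrArg (star (c i) * ·) (he.ip_e (mem_range.1 hi))

theorem On.nq_vc (he : On m e) : nq (vc m e c) = nqc m c := by
  rw [nq_eq, he.ip_vc, E2.ipc_self]
  rfl

theorem On.mono (he : On m e) {k : ℕ} (hk : k ≤ m) : On k e := by
  exact fun i hi j hj => he i (hi.trans_le hk) j (hj.trans_le hk)

theorem vc_congr {e' : ℕ → V n} (h1 : ∀ i < m, e i = e' i) (h2 : ∀ i < m, c i = d i) :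
    vc m e c = vc m e' d := by
  exact Finset.sum_congr rfl fun i hi => by
    rw [h1 i (mem_range.1 hi), h2 i (mem_range.1 hi)]

theorem vc_short {k : ℕ} (hk : m ≤ k) (h : ∀ i, m ≤ i → c i = 0) : vc k e c = vc m e c := by
  refine (Finset.sum_subset (range_subset_range.2 hk) fun i _ hi => ?_).symm
  rw [h i (by simpa using hi), rs_zero]

theorem On.vc_sr (he : On m e) :
    vc m e (fun i => nqc m c • d i + c i * ((-2 : ℝ) • ipc m c d)) = sr (vc m e c) (vc m e d) := by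
  rw [sr, he.ip_vc, he.nq_vc, E2.vc_rs, E2.vc_rs, E2.vc_sub]
  refine vc_congr (fun _ _ => rfl) fun i _ => ?_
  rw [Quaternion.mul_coe_eq_smul, neg_smul, mul_neg, two_smul, two_mul, sub_eq_add_neg]

theorem On.nq_res (he : On m e) (x : V n) :
    nq (x - vc m e fun i => ip (e i) x) = nq x - nqc m (fun i => ip (e i) x) := by
  have h1 : ip (vc m e fun i => ip (e i) x) x = (nqc m (fun i => ip (e i) x) : ℝ) := by
    rw [ip_vc_left, E2.ipc_self]
  have h2 : ip x (vc m e fun i => ip (e i) x) = (nqc m (fun i => ip (e i) x) : ℝ) := by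
    rw [← star_ip, h1, Quaternion.star_coe]
  rw [nq_eq, ip_sub_left, ip_sub_right, ip_sub_right, h1, h2, he.ip_vc, E2.ipc_self, ip_self,
    sub_self, sub_zero]
  rfl

theorem On.bessel (he : On m e) (x : V n) : nqc m (fun i => ip (e i) x) ≤ nq x := by
  have h := nq_nonneg (x - vc m e fun i => ip (e i) x)
  rw [he.nq_res] at h
  linarith

theorem On.eq_vc (he : On m e) (h : nqc m (fun i => ip (e i) x) = nq x) :
    x = vc m e fun i => ip (e i) x := by
  rw [← sub_eq_zero, ← nq_eq_zero, he.nq_res, h, sub_self]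

theorem Sp.pl (h : Sp m e v) (hp : Pl u v) : Sp m e u := by
  obtain ⟨c, rfl⟩ := h
  obtain ⟨q, -, rfl⟩ := hp
  exact ⟨_, E2.vc_rs c q⟩

theorem Sp.sr (hu : Sp m e u) (hv : Sp m e v) : Sp m e (sr u v) := by
  obtain ⟨c, hc⟩ := hu
  obtain ⟨d, hd⟩ := hv
  refine ⟨fun i => d i * (nq u : ℝ) - c i * (2 * ip u v), ?_⟩
  rw [← E2.vc_sub, ← E2.vc_rs, ← E2.vc_rs, ← hc, ← hd]
  rfl

theorem Sp.of_sr (hg : Sp m e g) (h0 : g ≠ 0) (h : Sp m e (Geo.sr g x)) : Sp m e x := by
  exact (hg.sr h).pl (pl_sr_sr h0 x)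

theorem Sp.mono (h : Sp m e v) {k : ℕ} {e' : ℕ → V n} (hk : m ≤ k) (he : ∀ i < m, e' i = e i) :
    Sp k e' v := by
  obtain ⟨c, rfl⟩ := h
  refine ⟨fun i => if i < m then c i else 0, ?_⟩
  rw [vc_short hk fun i hi => if_neg (not_lt.2 hi)]
  exact vc_congr (fun i hi => (he i hi).symm) fun i hi => (if_pos hi).symm

theorem Zr.of_sr (hg : Sp m e g) (h0 : g ≠ 0) (h : Zr m e (sr g x)) : Zr m e x := by
  obtain ⟨q, -, hq⟩ := pl_sr_sr h0 x
  have h1 : ip g (sr g x) = 0 := by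
    obtain ⟨c, hc⟩ := hg
    have h2 : ip (vc m e c) (sr g x) = 0 := by
      rw [ip_vc_left]
      exact Finset.sum_eq_zero fun i hi => by
        simp only [h i (mem_range.1 hi), mul_zero]
    rwa [← hc] at h2
  intro i hi
  rw [hq, ip_rs_right, E2.ip_sr_right, h i hi, h1, mul_zero, smul_zero, smul_zero, sub_zero,
    zero_mul]

theorem Cr.of_sr {ω : ℍ[ℝ]} (he : On m e) (hc : ∀ i < m, Commute (c i) ω) (h0 : vc m e c ≠ 0)
    (h : Cr ω m e (sr (vc m e c) x)) : Cr ω m e x := by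
  obtain ⟨q, -, hq⟩ := pl_sr_sr h0 x
  generalize sr (vc m e c) x = y at h hq
  have key : ∀ b : ℍ[ℝ], (∀ k < m, Commute (ip (e k) y * star b) ω) →
      ∀ i < m, Commute (ip (e i) (sr (vc m e c) y) * star b) ω := by
    intro b hb i hi
    rw [E2.ip_sr_right, he.ip_e hi, ip_vc_left, _root_.sub_mul, smul_mul_assoc, smul_mul_assoc,
      mul_assoc, ipc, Finset.sum_mul]
    refine ((hb i hi).smul_left _).sub_left (((hc i hi).mul_left ?_).smul_left _)
    refine Commute.sum_left _ _ _ fun k hk => ?_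
    rw [mul_assoc]
    exact (E2.commute_star (hc k (mem_range.1 hk))).mul_left (hb k (mem_range.1 hk))
  intro i hi j hj
  have h1 : Commute (ip (e i) (sr (vc m e c) y) * star (ip (e j) (sr (vc m e c) y))) ω := by
    refine key _ (fun k hk => ?_) i hi
    have := E2.commute_star (key _ (fun l hl => h l hl k hk) j hj)
    rwa [star_mul, star_star] at this
  rw [hq, ip_rs_right, ip_rs_right, star_mul, mul_assoc, ← mul_assoc q, Quaternion.self_mul_star,
    Quaternion.coe_mul_eq_smul, mul_smul_comm]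
  exact h1.smul_left _

theorem Zr.cr {ω : ℍ[ℝ]} (h : Zr m e x) : Cr ω m e x := by
  intro i hi j _
  rw [h i hi, zero_mul]
  exact Commute.zero_left _

theorem exists_on (m : ℕ) : ∃ f : ℕ → V m, On m f := by
  refine ⟨fun i k => if (k : ℕ) = i then 1 else 0, fun i hi j _ => ?_⟩
  rw [ip, Finset.sum_eq_single (⟨i, hi⟩ : Fin m)]
  · simp
  · intro k _ hk
    have : ¬ (k : ℕ) = i := fun e => hk (Fin.ext e)
    simp only [if_neg this, star_zero, zero_mul]
  · intro h
    exact absurd (mem_univ _) h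

/-- A weighted sum of squared inner products, as a Hermitian form. -/
theorem sum_tt {ι : Type} (l : List ι) (μ : ι → ℝ) (c : ι → ℕ → ℍ[ℝ]) (T : ℕ → ℕ → ℍ[ℝ])
    (hT : ∀ a b, T b a = star (T a b))
    (h : ∀ b < m, ∀ a ≤ b, (l.map fun t => μ t • (c t a * star (c t b))).sum = T a b) (x : V n) :
    (l.map fun t => μ t * tt (vc m e (c t)) x).sum =
      ∑ a ∈ range m, ∑ b ∈ range m, (star (ip (e a) x) * T a b * ip (e b) x).re := by
  have h1 : ∀ l : List ι, (l.map fun t => μ t * tt (vc m e (c t)) x).sum =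
      ∑ a ∈ range m, ∑ b ∈ range m, (star (ip (e a) x) *
        (l.map fun t => μ t • (c t a * star (c t b))).sum * ip (e b) x).re := by
    intro l
    induction l with
    | nil => simp
    | cons t l ih =>
      simp only [List.map_cons, List.sum_cons, mul_add, add_mul, Quaternion.re_add,
        Finset.sum_add_distrib, ih]
      congr 1
      have h2 : tt (vc m e (c t)) x = (star (ip (vc m e (c t)) x) * ip (vc m e (c t)) x).re := by
        rw [Quaternion.star_mul_self]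
        rfl
      rw [h2, ip_vc_left, ipc, star_sum, Finset.sum_mul_sum, E2.re_sum, Finset.mul_sum]
      refine Finset.sum_congr rfl fun a _ => ?_
      rw [E2.re_sum, Finset.mul_sum]
      refine Finset.sum_congr rfl fun b _ => ?_
      rw [mul_smul_comm, smul_mul_assoc, Quaternion.re_smul, smul_eq_mul, star_mul, star_star]
      simp only [mul_assoc]
  have h3 : ∀ (l : List ι) (a b : ℕ), star (l.map fun t => μ t • (c t a * star (c t b))).sum =
      (l.map fun t => μ t • (c t b * star (c t a))).sum := by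
    intro l a b
    induction l with
    | nil => simp
    | cons t l ih =>
      simp only [List.map_cons, List.sum_cons, star_add, ih, E2.star_rsmul, star_mul, star_star]
  rw [h1]
  refine Finset.sum_congr rfl fun a ha => Finset.sum_congr rfl fun b hb => ?_
  rcases le_total a b with hab | hab
  · rw [h b (mem_range.1 hb) a hab]
  · rw [← h3, h a (mem_range.1 ha) b hab, ← hT]

theorem sum_single (p : ℕ → ℍ[ℝ]) (β : ℍ[ℝ]) {i j : ℕ} (hi : i < m) (hj : j < m) :
    ∑ a ∈ range m, ∑ b ∈ range m, (star (p a) * ((if a = i ∧ b = j then β else 0) +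
      (if a = j ∧ b = i then star β else 0)) * p b).re = 2 * (star (p i) * β * p j).re := by
  have h1 : ∀ (γ : ℍ[ℝ]) {k l : ℕ}, k < m → l < m → ∑ a ∈ range m, ∑ b ∈ range m,
      (star (p a) * (if a = k ∧ b = l then γ else 0) * p b).re = (star (p k) * γ * p l).re := by
    intro γ k l hk hl
    rw [Finset.sum_eq_single k, Finset.sum_eq_single l]
    · simp
    · intro b _ hb
      simp [hb]
    · intro h
      exact absurd (mem_range.2 hl) h
    · intro a _ ha
      simp [ha]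
    · intro h
      exact absurd (mem_range.2 hk) h
  simp only [mul_add, add_mul, Quaternion.re_add, Finset.sum_add_distrib]
  rw [h1 β hi hj, h1 (star β) hj hi, ← Quaternion.re_star (star (p j) * star β * p i), star_mul,
    star_mul, star_star, star_star, two_mul, mul_assoc]

end Pool.Agent.P.MP_97ea17_al.Geo
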