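import Mathlib

/-! Commuting quaternions. -/

namespace Pool.Agent.P.MP_97ea17_al.G5Aux

open scoped Quaternion

theorem commute_iff {p q : ℍ[ℝ]} : Commute p q ↔
    p.imI * q.imJ = p.imJ * q.imI ∧ p.imJ * q.imK = p.imK * q.imJ ∧
      p.imK * q.imI = p.imI * q.imK := by
  rw [Commute, SemiconjBy, Quaternion.ext_iff]
  simp only [Quaternion.re_mul, Quaternion.imI_mul, Quaternion.imJ_mul, Quaternion.imK_mul]
  constructor
  · rintro ⟨-, h1, h2, h3⟩
    exact ⟨by linarith, by linarith, by linarith⟩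
  · rintro ⟨h1, h2, h3⟩
    exact ⟨by linarith, by linarith, by linarith, by linarith⟩

theorem commute_im {p q : ℍ[ℝ]} : Commute p.im q.im ↔ Commute p q := by
  rw [commute_iff, commute_iff]
  rfl

theorem commute_star_left {p q : ℍ[ℝ]} : Commute (star p) q ↔ Commute p q := by
  rw [← commute_im, Quaternion.im_star, Commute.neg_left_iff, commute_im]

theorem commute_star_right {p q : ℍ[ℝ]} : Commute p (star q) ↔ Commute p q := by
  rw [← commute_im, Quaternion.im_star, Commute.neg_right_iff, commute_im]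

theorem commute_of_im {p : ℍ[ℝ]} (h : p.im = 0) (q : ℍ[ℝ]) : Commute p q := by
  rw [← commute_im, h]
  exact Commute.zero_left _

theorem eq_coe_of_im {p : ℍ[ℝ]} (h : p.im = 0) : p = (p.re : ℝ) := by
  conv_lhs => rw [← Quaternion.re_add_im p, h, add_zero]

theorem commute_trans {e p q : ℍ[ℝ]} (he : e.im ≠ 0) (hp : Commute e p) (hq : Commute e q) :
    Commute p q := by
  rw [commute_iff] at hp hq ⊢
  obtain ⟨p1, p2, p3⟩ := hp
  obtain ⟨q1, q2, q3⟩ := hq
  have h0 : e.imI ^ 2 + e.imJ ^ 2 + e.imK ^ 2 ≠ 0 := by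
    intro h
    refine he (Quaternion.ext _ _ rfl ?_ ?_ ?_) <;> simp <;> nlinarith
  refine ⟨mul_left_cancel₀ h0 ?_, mul_left_cancel₀ h0 ?_, mul_left_cancel₀ h0 ?_⟩
  · linear_combination (e.imI * p.imI + e.imJ * p.imJ + e.imK * p.imK) * q1 -
      (e.imI * q.imI + e.imJ * q.imJ + e.imK * q.imK) * p1 +
      (e.imK * q.imJ - e.imJ * q.imK) * p3 + (e.imK * q.imI - e.imI * q.imK) * p2
  · linear_combination (e.imI * p.imI + e.imJ * p.imJ + e.imK * p.imK) * q2 -
      (e.imI * q.imI + e.imJ * q.imJ + e.imK * q.imK) * p2 +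
      (e.imI * q.imK - e.imK * q.imI) * p1 + (e.imI * q.imJ - e.imJ * q.imI) * p3
  · linear_combination (e.imI * p.imI + e.imJ * p.imJ + e.imK * p.imK) * q3 -
      (e.imI * q.imI + e.imJ * q.imJ + e.imK * q.imK) * p3 +
      (e.imJ * q.imI - e.imI * q.imJ) * p2 + (e.imJ * q.imK - e.imK * q.imJ) * p1

theorem eq_or_eq_neg {p q : ℍ[ℝ]} (hp : p * p = -1) (hq : q * q = -1) (h : Commute p q) :
    p = q ∨ p = -q := by
  have : (p - q) * (p + q) = 0 := by
    rw [sub_mul, mul_add, mul_add, hp, hq, h.eq]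
    abel
  rcases mul_eq_zero.1 this with h | h
  · exact Or.inl (sub_eq_zero.1 h)
  · exact Or.inr (add_eq_zero_iff_eq_neg.1 h)

theorem exists_axis {e : ℍ[ℝ]} (he : e.im ≠ 0) : ∃ u : ℍ[ℝ], u * u = -1 ∧ Commute e u := by
  have h0 : 0 < Quaternion.normSq e.im :=
    lt_of_le_of_ne Quaternion.normSq_nonneg (Quaternion.normSq_ne_zero.2 he).symm
  refine ⟨(√(Quaternion.normSq e.im))⁻¹ • e.im, ?_, ?_⟩
  · rw [smul_mul_smul_comm, ← sq e.im, Quaternion.im_sq, ← mul_inv, Real.mul_self_sqrt h0.le,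
      smul_neg, Quaternion.smul_coe, inv_mul_cancel₀ h0.ne', Quaternion.coe_one]
  · refine Commute.smul_right ?_ _
    rw [← commute_im, Quaternion.im_idem]

theorem im_ne_zero {e : ℍ[ℝ]} (h1 : Quaternion.normSq e = 1) (h2 : e ≠ 1) (h3 : e.re ≠ -1) :
    e.im ≠ 0 := by
  intro h
  have h4 := eq_coe_of_im h
  rw [h4, Quaternion.normSq_coe, sq_eq_one_iff] at h1
  rcases h1 with h1 | h1
  · exact h2 (by rw [h4, h1, Quaternion.coe_one])
  · exact h3 h1

theorem normSq_of_sq {u : ℍ[ℝ]} (hu : u * u = -1) : Quaternion.normSq u = 1 := by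
  have h := congrArg Quaternion.normSq hu
  rw [map_mul, Quaternion.normSq_neg, map_one] at h
  have h0 : 0 ≤ Quaternion.normSq u := Quaternion.normSq_nonneg
  nlinarith

theorem star_eq_neg {u : ℍ[ℝ]} (hu : u * u = -1) : star u = -u := by
  have h := Quaternion.star_mul_self u
  rw [normSq_of_sq hu, Quaternion.coe_one] at h
  have h0 : u ≠ 0 := by
    rintro rfl
    simp at hu
  refine mul_right_cancel₀ h0 ?_
  rw [h, neg_mul, hu, neg_neg]

theorem conj_re (q : ℍ[ℝ]) {r : ℍ[ℝ]} (hr : r ≠ 0) : (r⁻¹ * q * r).re = q.re := by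
  have h : ∀ a b : ℍ[ℝ], (a * b).re = (b * a).re := fun a b => by
    simp only [Quaternion.re_mul]
    ring
  rw [h, ← mul_assoc, mul_inv_cancel₀ hr, one_mul]

theorem comm_or_anti {u η ζ r : ℍ[ℝ]} (hu : u * u = -1) (hη : η.im ≠ 0) (hζ : ζ.im ≠ 0)
    (h1 : Commute η u) (h2 : Commute ζ u) (h : Commute η (r * ζ * star r)) :
    r * u = u * r ∨ r * u = -(u * r) := by
  by_cases hr : r = 0
  · left
    rw [hr, zero_mul, mul_zero]
  have hn : Quaternion.normSq r ≠ 0 := Quaternion.normSq_ne_zero.2 hr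
  have h3 : Commute u (r * ζ * r⁻¹) := by
    rw [Quaternion.inv_def, mul_smul_comm]
    exact (commute_trans hη h1 h).smul_right _
  have h4 : Commute ζ (r⁻¹ * u * r) := by
    have := h3.eq
    rw [Commute, SemiconjBy]
    refine mul_left_cancel₀ hr (mul_right_cancel₀ (inv_ne_zero hr) ?_)
    simp only [← mul_assoc, mul_inv_cancel₀ hr, one_mul, mul_inv_cancel_right₀ hr] at this ⊢
    exact this.symm
  have h5 : (r⁻¹ * u * r) * (r⁻¹ * u * r) = -1 := by
    simp only [← mul_assoc, mul_inv_cancel_right₀ hr]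
    rw [mul_assoc r⁻¹, hu, mul_neg, mul_one, neg_mul, inv_mul_cancel₀ hr]
  rcases eq_or_eq_neg h5 hu (commute_trans hζ h4 h2) with h6 | h6
  · left
    conv_lhs => rw [← h6]
    simp only [← mul_assoc, mul_inv_cancel₀ hr, one_mul]
  · right
    rw [← neg_eq_iff_eq_neg] at h6
    conv_lhs => rw [← h6]
    simp only [mul_neg, ← mul_assoc, mul_inv_cancel₀ hr, one_mul]

end Pool.Agent.P.MP_97ea17_al.G5Aux
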