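import Pool.Agent.P.MP_97ea17_al.F.E2
import Pool.Agent.P.MP_97ea17_al.F.G5a

/-! Frames adapted to triangles, changes of frame, extensions. -/

namespace Pool.Agent.P.MP_97ea17_al.Geo

open scoped Quaternion Matrix
open Finset

variable {n m : ℕ} {e : ℕ → V n}

namespace E3Aux

open Quaternion

theorem re_comm (a b : ℍ[ℝ]) : (a * b).re = (b * a).re := by
  simp only [Quaternion.re_mul]
  ring

/-- Quaternions with the same real part and the same norm are conjugate. -/
theorem conj_of_re {S T : ℍ[ℝ]} (h1 : S.re = T.re) (h2 : normSq S = normSq T) :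
    ∃ q : ℍ[ℝ], q ≠ 0 ∧ S * q = q * T := by
  rw [normSq_def', normSq_def', h1] at h2
  by_cases h : S.im + T.im = 0
  · have e1 : T.imI = -S.imI := by have := congrArg QuaternionAlgebra.imI h; simp at this; linarith
    have e2 : T.imJ = -S.imJ := by have := congrArg QuaternionAlgebra.imJ h; simp at this; linarith
    have e3 : T.imK = -S.imK := by have := congrArg QuaternionAlgebra.imK h; simp at this; linarith
    by_cases h0 : S.imI = 0
    · refine ⟨⟨0, 1, 0, 0⟩, fun e => ?_, ?_⟩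
      · have := congrArg QuaternionAlgebra.imI e
        simp at this
      · ext <;> simp [h1, e1, e2, e3, h0]
    · refine ⟨⟨0, S.imJ, -S.imI, 0⟩, fun e => ?_, ?_⟩
      · have := congrArg QuaternionAlgebra.imJ e
        simp at this
        exact h0 this
      · ext <;> simp [h1, e1, e2, e3] <;> ring
  · refine ⟨S.im + T.im, h, ?_⟩
    ext <;> simp [h1]
    · linear_combination -h2
    all_goals ring

theorem core {p q r P Q R : ℍ[ℝ]} {s t u : ℝ} (hs : 0 < s) (ht : 0 < t) (hu : 0 < u)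
    (hP : normSq P = s * t * normSq p) (hQ : normSq Q = s * u * normSq q)
    (hR : normSq R = t * u * normSq r) (hT : (P * R * Q).re = s * t * u * (p * r * q).re)
    (hp : p ≠ 0) (hq : q ≠ 0) :
    ∃ x y z : ℍ[ℝ], normSq x = s ∧ normSq y = t ∧ normSq z = u ∧ star x * p * y = P ∧
      star y * r * z = R ∧ star z * q * x = Q := by
  obtain ⟨w, hw, hc⟩ := conj_of_re (S := (s * t * u) • (p * r * q)) (T := P * R * Q)
    (by rw [hT, re_smul, smul_eq_mul])
    (by rw [normSq_smul, map_mul, map_mul, map_mul, map_mul, hP, hQ, hR]; ring)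
  have hw' : 0 < normSq w := lt_of_le_of_ne normSq_nonneg (normSq_ne_zero.2 hw).symm
  have hp' := normSq_ne_zero.2 hp
  have hq' := normSq_ne_zero.2 hq
  set x : ℍ[ℝ] := √(s / normSq w) • w with hx
  have nx : normSq x = s := by
    rw [hx, normSq_smul, Real.sq_sqrt (by positivity)]
    field_simp
  have x0 : x ≠ 0 := normSq_ne_zero.1 (nx.trans_ne hs.ne')
  have hc' : (s * t * u) • (p * r * q) * x = x * (P * R * Q) := by
    rw [hx, mul_smul_comm, hc, smul_mul_assoc]
  have P0 : P ≠ 0 := normSq_ne_zero.1 (by rw [hP]; positivity)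
  have Q0 : Q ≠ 0 := normSq_ne_zero.1 (by rw [hQ]; positivity)
  have a0 : star x * p ≠ 0 := mul_ne_zero (star_ne_zero.2 x0) hp
  have b0 : q * x ≠ 0 := mul_ne_zero hq x0
  set y : ℍ[ℝ] := (star x * p)⁻¹ * P with hy
  set z : ℍ[ℝ] := star (Q * (q * x)⁻¹) with hz
  have ny : normSq y = t := by
    rw [hy, map_mul, normSq_inv, map_mul, normSq_star, nx, hP]
    field_simp
  have nz : normSq z = u := by
    rw [hz, normSq_star, map_mul, normSq_inv, map_mul, nx, hQ]
    field_simp
  have e1 : star x * p * y = P := by rw [hy, mul_inv_cancel_left₀ a0]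
  have e3 : star z * q * x = Q := by rw [hz, star_star, mul_assoc, inv_mul_cancel_right₀ b0]
  refine ⟨x, y, z, nx, ny, nz, e1, ?_, e3⟩
  refine mul_left_cancel₀ P0 (mul_right_cancel₀ Q0 (mul_left_cancel₀ x0 ?_))
  rw [← hc']
  calc x * (P * (star y * r * z) * Q)
      = (x * star x) * p * (y * star y) * r * (z * star z) * q * x := by
        conv_lhs => rw [← e1, ← e3]
        simp only [mul_assoc]
    _ = _ := by
      rw [self_mul_star, self_mul_star, self_mul_star, nx, ny, nz]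
      simp only [coe_mul_eq_smul, mul_coe_eq_smul, smul_mul_assoc, smul_smul]

theorem rat_sr_eq {a b x : V n} (ha : a ≠ 0) (hb : b ≠ 0) (hx : x ≠ 0) :
    rat (sr a b) x = rat b x + rat a b * rat a x / 2 -
      32 * ((ip a b * ip b x * ip x a).re / (nq a * nq b * nq x)) := by
  have h1 := (nq_pos ha).ne'
  have h2 := (nq_pos hb).ne'
  have h3 := (nq_pos hx).ne'
  have e1 : nq (sr a b) = nq a ^ 2 * nq b := by
    rw [sr, nq_sub_rs, nq_rs, ip_rs_left, normSq_coe, star_coe, map_mul, mul_assoc,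
      coe_mul_eq_smul, re_smul, two_mul (ip a b), mul_add, ip_mul_ip, re_add, re_coe, tt_comm b a,
      show (2 : ℍ[ℝ]) = ((2 : ℝ) : ℍ[ℝ]) from rfl, normSq_coe, smul_eq_mul, tt]
    ring
  have e2 : tt (sr a b) x = nq a ^ 2 * tt b x + 4 * tt a b * tt a x -
      4 * nq a * (ip a b * ip b x * ip x a).re := by
    rw [tt, sr, ip_sub_left, ip_rs_left, ip_rs_left, star_coe, ← star_ip a x, tt, tt, tt,
      show (2 : ℍ[ℝ]) = ((2 : ℝ) : ℍ[ℝ]) from rfl]
    simp only [normSq_def', coe_mul_eq_smul]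
    simp
    ring
  rw [rat, rat, rat, rat, e1, e2]
  field_simp
  ring

theorem ip_vec_eq {k r : ℕ} {E : Fin r → V n} {F : Fin r → V k}
    (h : ∀ i j, ip (E i) (E j) = ip (F i) (F j)) (c : Fin r → ℍ[ℝ]) (j : Fin r) :
    ip (vec E c) (E j) = ip (vec F c) (F j) := by
  simp only [ip_vec_left, h]

theorem transfer {k r : ℕ} {E : Fin r → V n} {F : Fin r → V k} {f : ℕ → V k} (hf : On m f)
    (h : ∀ i j, ip (E i) (E j) = ip (F i) (F j)) (c : ℕ → Fin r → ℍ[ℝ])
    (hc : ∀ i < m, f i = vec F (c i)) :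
    On m (fun i => vec E (c i)) ∧
      ∀ y t, vc m f y = F t → vc m (fun i => vec E (c i)) y = E t := by
  have h1 : On m (fun i => vec E (c i)) := fun i hi j hj => by
    rw [← hf i hi j hj, hc j hj, hc i hi]
    simp only [ip_vec_right, ip_vec_eq h]
  refine ⟨h1, fun y t hy => ?_⟩
  have h2 : ip (vc m (fun i => vec E (c i)) y) (E t) = ip (F t) (F t) := by
    conv_rhs => enter [1]; rw [← hy]
    rw [ip_vc_left, ip_vc_left, ipc, ipc]
    exact Finset.sum_congr rfl fun i hi => by rw [ip_vec_eq h, hc i (mem_range.1 hi)]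
  have h3 : ip (E t) (vc m (fun i => vec E (c i)) y) = ip (F t) (F t) := by
    rw [← star_ip, h2, star_ip]
  rw [← sub_eq_zero, ← nq_eq_zero, nq_eq, ip_sub_left, ip_sub_right, ip_sub_right, h1.ip_vc,
    ← hf.ip_vc, hy, h2, h3, h]
  simp

theorem vc_rs (c : ℕ → ℍ[ℝ]) (q : ℍ[ℝ]) : rs (vc m e c) q = vc m e fun i => c i * q := by
  simp only [vc, sum_rs, rs_rs]

theorem vc_add (c d : ℕ → ℍ[ℝ]) : vc m e c + vc m e d = vc m e fun i => c i + d i := by
  simp only [vc, rs_add, Finset.sum_add_distrib]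

theorem vc_single {c : ℕ → ℍ[ℝ]} {i : ℕ} (hi : i < m) (h1 : c i = 1)
    (h : ∀ j < m, j ≠ i → c j = 0) : vc m e c = e i := by
  rw [vc, Finset.sum_eq_single i, h1, rs_one]
  · intro j hj hji
    rw [h j (mem_range.1 hj) hji, rs_zero]
  · intro h'
    exact absurd (mem_range.2 hi) h'

theorem ip_sp (he : On m e) {a : V n} (ha : Sp m e a) (x : V n) :
    ip a x = ∑ i ∈ range m, star (ip (e i) a) * ip (e i) x := by
  obtain ⟨c, rfl⟩ := ha
  rw [ip_vc_left, ipc]
  exact Finset.sum_congr rfl fun i hi => by rw [he.ip_e (mem_range.1 hi)]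

end E3Aux

open E3Aux Quaternion

theorem tri_frame {k : ℕ} {f : ℕ → V k} (hf : On m f) {α β γ : ℕ → ℍ[ℝ]} {a b x : V n}
    (ha : a ≠ 0) (hb : b ≠ 0) (hx : x ≠ 0) (hα : vc m f α ≠ 0) (hβ : vc m f β ≠ 0)
    (hγ : vc m f γ ≠ 0) (h1 : rat a b = rat (vc m f α) (vc m f β))
    (h2 : rat a x = rat (vc m f α) (vc m f γ)) (h3 : rat b x = rat (vc m f β) (vc m f γ))
    (h4 : rat (sr a b) x = rat (sr (vc m f α) (vc m f β)) (vc m f γ))
    (h5 : rat a b ≠ 0) (h6 : rat a x ≠ 0)
    (hs : ∀ i < m, ∃ p q r : ℍ[ℝ], α i * p + β i * q + γ i * r ≠ 0 ∧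
      ∀ j < m, j ≠ i → α j * p + β j * q + γ j * r = 0) :
    ∃ e : ℕ → V n, On m e ∧ Pl (vc m e α) a ∧ Pl (vc m e β) b ∧ Pl (vc m e γ) x := by
  set A := vc m f α with hA
  set B := vc m f β with hB
  set C := vc m f γ with hC
  rw [rat_sr_eq ha hb hx, rat_sr_eq hα hβ hγ, h1, h2, h3, sub_right_inj,
    mul_right_inj' (by norm_num)] at h4
  have na := nq_pos ha
  have nb := nq_pos hb
  have nx := nq_pos hx
  have nA := nq_pos hα
  have nB := nq_pos hβ
  have nC := nq_pos hγ
  have p0 : ip a b ≠ 0 := fun h => h5 (by rw [rat, tt_eq_zero.2 h]; simp)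
  have q0 : ip x a ≠ 0 := fun h => h6 (by rw [rat, tt_comm, tt_eq_zero.2 h]; simp)
  rw [rat, rat] at h1 h2 h3
  obtain ⟨u, v, w, nu, nv, nw, e1, e2, e3⟩ := core (p := ip a b) (q := ip x a) (r := ip b x)
    (P := ip A B) (Q := ip C A) (R := ip B C) (s := nq A / nq a) (t := nq B / nq b)
    (u := nq C / nq x) (by positivity) (by positivity) (by positivity)
    (by
      change tt A B = _ * tt a b
      field_simp at h1 ⊢
      linarith)
    (by
      change tt C A = _ * tt x a
      rw [tt_comm C A, tt_comm x a]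
      field_simp at h2 ⊢
      linarith)
    (by
      change tt B C = _ * tt b x
      field_simp at h3 ⊢
      linarith)
    (by
      field_simp at h4 ⊢
      linarith) p0 q0
  have u0 : u ≠ 0 := normSq_ne_zero.1 (by rw [nu]; positivity)
  have v0 : v ≠ 0 := normSq_ne_zero.1 (by rw [nv]; positivity)
  have w0 : w ≠ 0 := normSq_ne_zero.1 (by rw [nw]; positivity)
  have g1 : ip (rs a u) (rs a u) = ip A A := by
    rw [ip_self, ip_self, nq_rs, nu, mul_div_cancel₀ _ na.ne']
  have g2 : ip (rs b v) (rs b v) = ip B B := by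
    rw [ip_self, ip_self, nq_rs, nv, mul_div_cancel₀ _ nb.ne']
  have g3 : ip (rs x w) (rs x w) = ip C C := by
    rw [ip_self, ip_self, nq_rs, nw, mul_div_cancel₀ _ nx.ne']
  have g4 : ip (rs a u) (rs b v) = ip A B := by rw [ip_rs_right, ip_rs_left, e1]
  have g5 : ip (rs b v) (rs x w) = ip B C := by rw [ip_rs_right, ip_rs_left, e2]
  have g6 : ip (rs x w) (rs a u) = ip C A := by rw [ip_rs_right, ip_rs_left, e3]
  have g7 : ip (rs b v) (rs a u) = ip B A := by rw [← star_ip, g4, star_ip]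
  have g8 : ip (rs x w) (rs b v) = ip C B := by rw [← star_ip, g5, star_ip]
  have g9 : ip (rs a u) (rs x w) = ip A C := by rw [← star_ip, g6, star_ip]
  have hG : ∀ i j : Fin 3, ip (![rs a u, rs b v, rs x w] i) (![rs a u, rs b v, rs x w] j) =
      ip (![A, B, C] i) (![A, B, C] j) := fun i j => by
    fin_cases i <;> fin_cases j <;> simp [g1, g2, g3, g4, g5, g6, g7, g8, g9]
  have hc : ∀ i, ∃ c : Fin 3 → ℍ[ℝ], i < m → f i = vec ![A, B, C] c := fun i => by
    by_cases hi : i < m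
    · obtain ⟨p, q, r, hne, hz⟩ := hs i hi
      set d := (α i * p + β i * q + γ i * r)⁻¹ with hd
      refine ⟨![p * d, q * d, r * d], fun _ => ?_⟩
      rw [vec, Fin.sum_univ_three]
      change _ = rs A (p * d) + rs B (q * d) + rs C (r * d)
      rw [hA, hB, hC, vc_rs, vc_rs, vc_rs, vc_add, vc_add]
      refine (vc_single hi ?_ fun j hj hji => ?_).symm
      · simp only [← mul_assoc, ← add_mul]
        exact mul_inv_cancel₀ hne
      · simp only [← mul_assoc, ← add_mul]
        rw [hz j hj hji, zero_mul]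
    · exact ⟨0, fun h => absurd h hi⟩
  choose c hc using hc
  obtain ⟨t1, t2⟩ := transfer hf hG c hc
  exact ⟨_, t1, ⟨u, u0, t2 α 0 rfl⟩, ⟨v, v0, t2 β 1 rfl⟩, ⟨w, w0, t2 γ 2 rfl⟩⟩

theorem commute_of_cr {ω : ℍ[ℝ]} (he : On m e) (hω : ω.im ≠ 0) {a b x y : V n} (ha : Sp m e a)
    (hb : Sp m e b) (h1 : Cr ω m e a) (h2 : Cr ω m e b) (h3 : Cr ω m e x) (h4 : Cr ω m e y) :
    Commute (ip a b * ip b x * ip x a) (ip a b * ip b y * ip y a) := by
  by_cases h0 : ∀ i < m, ip (e i) a = 0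
  · have : ip a b = 0 := by
      rw [ip_sp he ha]
      exact Finset.sum_eq_zero fun i hi => by rw [h0 i (mem_range.1 hi), star_zero, zero_mul]
    rw [this, zero_mul, zero_mul]
    exact Commute.zero_left _
  push Not at h0
  obtain ⟨i, hi, q0⟩ := h0
  set q := ip (e i) a with hq
  have key : ∀ z, Cr ω m e z → Commute ω (q * (ip a b * ip b z * ip z a) * star q) := fun z hz => by
    rw [← star_ip a z, ip_sp he ha b, ip_sp he hb z, ip_sp he ha z, star_sum]
    simp only [Finset.sum_mul, Finset.mul_sum]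
    refine Commute.sum_right _ _ _ fun j hj => Commute.sum_right _ _ _ fun k hk =>
      Commute.sum_right _ _ _ fun l hl => ?_
    rw [mem_range] at hj hk hl
    have := (((h1 i hi l hl).mul_left (h2 l hl k hk)).mul_left (hz k hk j hj)).mul_left
      (h1 j hj i hi)
    simp only [star_mul, star_star, mul_assoc] at this ⊢
    exact this.symm
  have hc := (G5Aux.commute_trans hω (key x h3) (key y h4)).eq
  have n0 : normSq q ≠ 0 := normSq_ne_zero.2 q0
  have e1 : ∀ S T : ℍ[ℝ], q * S * star q * (q * T * star q) = q * (normSq q • (S * T)) * star q :=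
    fun S T => by
      rw [mul_assoc q T, ← mul_assoc, mul_assoc (q * S), star_mul_self, mul_coe_eq_smul]
      simp only [smul_mul_assoc, mul_smul_comm, mul_assoc]
  rw [e1, e1] at hc
  exact smul_right_injective _ n0
    (mul_left_cancel₀ q0 (mul_right_cancel₀ (star_ne_zero.2 q0) hc))

theorem ext_short {k : ℕ} (he : On k e) (hk : m ≤ k) {y : ℕ → ℍ[ℝ]} {x : V n} (h : Mt m e y x)
    (hy : ∀ i, m ≤ i → y i = 0) : Pl (vc k e y) x := by
  obtain ⟨q, q0, h1, h2⟩ := h
  refine ⟨q, q0, ?_⟩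
  have h3 : ∀ i < m, ip (e i) (rs x q) = y i := fun i hi => by rw [ip_rs_right, h1 i hi]
  rw [vc_short hk hy, (he.mono hk).eq_vc (x := rs x q) ?_]
  · exact vc_congr (fun _ _ => rfl) fun i hi => (h3 i hi).symm
  · rw [nq_rs, h2, nqc, nqc, Finset.sum_range_succ, hy m le_rfl, map_zero, add_zero]
    exact Finset.sum_congr rfl fun i hi => by rw [h3 i (mem_range.1 hi)]

theorem ext_long (he : On m e) {y : ℕ → ℍ[ℝ]} {x : V n} (h : Mt m e y x) (hy : y m ≠ 0) :
    ∃ e' : ℕ → V n, On (m + 1) e' ∧ (∀ i < m, e' i = e i) ∧ Pl (vc (m + 1) e' y) x := by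
  obtain ⟨q, q0, h1, h2⟩ := h
  have h3 : ∀ i < m, ip (e i) (rs x q) = y i := fun i hi => by rw [ip_rs_right, h1 i hi]
  set r := rs x q - vc m e y with hr
  have h4 : ∀ i < m, ip (e i) r = 0 := fun i hi => by
    rw [hr, ip_sub_right, h3 i hi, he.ip_e hi, sub_self]
  have h5 : ip (vc m e y) (rs x q) = ip (vc m e y) (vc m e y) := by
    rw [he.ip_vc, ip_vc_left, ipc, ipc]
    exact Finset.sum_congr rfl fun i hi => by rw [h3 i (mem_range.1 hi)]
  have h6 : nq r = normSq (y m) := by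
    rw [nq_eq, hr, ip_sub_left, ip_sub_right, ip_sub_right, ← star_ip (vc m e y) (rs x q), h5,
      sub_self, sub_zero, star_ip, ip_self, ip_self, he.nq_vc, nq_rs, h2, nqc, nqc,
      Finset.sum_range_succ, re_sub, re_coe, re_coe, add_sub_cancel_left]
  have h7 : ∀ i < m, (if i = m then rs r (y m)⁻¹ else e i) = e i := fun i hi => if_neg hi.ne
  refine ⟨fun i => if i = m then rs r (y m)⁻¹ else e i, fun i hi j hj => ?_, h7, q, q0, ?_⟩
  · rcases (Nat.lt_succ_iff_lt_or_eq.1 hi) with hi | rfl <;>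
      rcases (Nat.lt_succ_iff_lt_or_eq.1 hj) with hj | rfl
    · simp only [h7 i hi, h7 j hj, he i hi j hj]
    · simp only [h7 i hi, if_true, if_neg hi.ne, ip_rs_right, h4 i hi, zero_mul]
    · simp only [h7 j hj, if_true, if_neg hj.ne', ip_rs_left, ip_eq_zero_comm.1 (h4 j hj),
        mul_zero]
    · simp only [if_true]
      rw [ip_self, nq_rs, h6, normSq_inv, mul_inv_cancel₀ (normSq_ne_zero.2 hy),
        Quaternion.coe_one]
  · rw [vc, Finset.sum_range_succ, if_pos rfl, rs_rs, inv_mul_cancel₀ hy, rs_one, ← vc,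
      vc_congr h7 fun _ _ => rfl, hr, add_sub_cancel]

theorem trans_frame (he : On m e) (M : ℕ → ℕ → ℍ[ℝ]) {l : ℝ} (hl : l ≠ 0)
    (hM : ∀ i < m, ∀ j < m, ipc m (M i) (M j) = if i = j then (l : ℍ[ℝ]) else 0) :
    ∃ e' : ℕ → V n, On m e' ∧
      (∀ c, Pl (vc m e' c) (vc m e fun i => ∑ j ∈ range m, M j i * c j)) ∧
      ∀ v, Sp m e v → Sp m e' v := by
  rcases Nat.eq_zero_or_pos m with rfl | hm
  · exact ⟨e, he, fun c => ⟨1, one_ne_zero, by simp [vc, zero_rs]⟩, fun _ h => h⟩
  have l0 : 0 < l := by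
    have h := hM 0 hm 0 hm
    rw [← he.ip_vc, ip_self, if_pos rfl] at h
    exact lt_of_le_of_ne (Quaternion.coe_injective h ▸ nq_nonneg _) hl.symm
  set s : ℝ := (√l)⁻¹ with hs
  have s0 : s ≠ 0 := by positivity
  have ss : s * s * l = 1 := by
    rw [hs, ← mul_inv, Real.mul_self_sqrt l0.le, inv_mul_cancel₀ hl]
  have h1 : ∀ i < m, ∀ j < m, ∑ t ∈ range m, star (s • M i t) * (s • M j t) =
      if i = j then 1 else 0 := fun i hi j hj => by
    simp only [Quaternion.star_smul, smul_mul_smul_comm, ← Finset.smul_sum]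
    rw [← ipc, hM i hi j hj]
    split_ifs
    · rw [smul_coe, ss, Quaternion.coe_one]
    · rw [smul_zero]
  have h2 : ∀ c : ℕ → ℍ[ℝ], vc m (fun j => vc m e fun i => s • M j i) c =
      vc m e fun i => ∑ j ∈ range m, s • M j i * c j := fun c => by
    ext1 t
    simp only [vc, Finset.sum_apply, rs, Finset.sum_mul, Finset.mul_sum, mul_assoc]
    exact Finset.sum_comm
  refine ⟨fun j => vc m e fun i => s • M j i, fun i hi j hj => ?_, fun c => ⟨s, ?_, ?_⟩, ?_⟩
  · rw [he.ip_vc, ipc, h1 i hi j hj]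
  · exact fun h => s0 (coe_injective h)
  · rw [h2, vc_rs]
    refine vc_congr (fun _ _ => rfl) fun i _ => ?_
    simp only [mul_coe_eq_smul, smul_mul_assoc, Finset.smul_sum]
  · rintro v ⟨c, rfl⟩
    have hU : IsU (Matrix.of fun i j : Fin m => s • M j i) := by
      ext i j : 1
      rw [Matrix.mul_apply, Matrix.one_apply]
      simp only [Matrix.conjTranspose_apply, Matrix.of_apply, Fin.ext_iff]
      rw [← h1 i i.2 j j.2, Finset.sum_range]
    refine ⟨fun j => ∑ t ∈ range m, star (s • M j t) * c t, ?_⟩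
    rw [h2]
    refine vc_congr (fun _ _ => rfl) fun i hi => ?_
    simp only [Finset.mul_sum, ← mul_assoc]
    rw [Finset.sum_comm, Finset.sum_eq_single i]
    · have := congrFun (congrFun hU.mul_star ⟨i, hi⟩) ⟨i, hi⟩
      rw [Matrix.mul_apply, Matrix.one_apply_eq] at this
      simp only [Matrix.conjTranspose_apply, Matrix.of_apply] at this
      rw [← Finset.sum_mul, Finset.sum_range, this, one_mul]
    · intro t ht hti
      have := congrFun (congrFun hU.mul_star ⟨i, hi⟩) ⟨t, mem_range.1 ht⟩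
      rw [Matrix.mul_apply, Matrix.one_apply_ne fun h => hti (congrArg Fin.val h).symm] at this
      simp only [Matrix.conjTranspose_apply, Matrix.of_apply] at this
      rw [← Finset.sum_mul, Finset.sum_range, this, zero_mul]
    · intro h
      exact absurd (mem_range.2 hi) h

theorem theta_frame (he : On m e) {θ : ℍ[ℝ]} (hθ : Quaternion.normSq θ = 1) :
    On m (fun i => rs (e i) θ) ∧
      (∀ c : ℕ → ℍ[ℝ], (∀ i < m, Commute (c i) θ) →
        Pl (vc m (fun i => rs (e i) θ) c) (vc m e c)) ∧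
      ∀ v, Sp m e v → Sp m (fun i => rs (e i) θ) v := by
  have h0 : θ ≠ 0 := normSq_ne_zero.1 (hθ.trans_ne one_ne_zero)
  have h1 : ∀ c : ℕ → ℍ[ℝ], vc m (fun i => rs (e i) θ) c = vc m e fun i => θ * c i := fun c => by
    simp only [vc, rs_rs]
  refine ⟨fun i hi j hj => ?_, fun c hc => ⟨θ, h0, ?_⟩, ?_⟩
  · rw [ip_rs_right, ip_rs_left, he i hi j hj]
    split_ifs
    · rw [mul_one, star_mul_self, hθ, Quaternion.coe_one]
    · rw [mul_zero, zero_mul]
  · rw [h1, vc_rs]
    exact vc_congr (fun _ _ => rfl) fun i hi => (hc i hi).eq.symm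
  · rintro v ⟨c, rfl⟩
    refine ⟨fun i => θ⁻¹ * c i, ?_⟩
    rw [h1]
    exact vc_congr (fun _ _ => rfl) fun i _ => (mul_inv_cancel_left₀ h0 _).symm

end Pool.Agent.P.MP_97ea17_al.Geo
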