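import Pool.Agent.P.MP_97ea17_al.F.EDefs
import Pool.Agent.P.MP_97ea17_al.F.G5a

/-! The known part of a Hermitian matrix of rank one. -/

namespace Pool.Agent.P.MP_97ea17_al.Geo

open scoped Quaternion
open Quaternion

variable {ω a b c X Y Z P X₁ X₂ X₃ : ℍ[ℝ]} {l : ℝ}

namespace E4Aux

theorem ac_mul {D E : ℍ[ℝ]} (h : AC ω D) (h' : AC ω E) : Commute (D * E) ω := by
  have e1 : D * ω = -(ω * D) := eq_neg_of_add_eq_zero_left h
  have e2 : E * ω = -(ω * E) := eq_neg_of_add_eq_zero_left h'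
  change D * E * ω = ω * (D * E)
  rw [mul_assoc, e2, mul_neg, ← mul_assoc, e1, neg_mul, neg_neg, mul_assoc]

theorem ac_left {D : ℍ[ℝ]} (h' : Commute X ω) (h : AC ω D) : AC ω (X * D) := by
  have e1 : D * ω = -(ω * D) := eq_neg_of_add_eq_zero_left h
  change X * D * ω + ω * (X * D) = 0
  rw [mul_assoc, e1, ← mul_assoc ω, ← h'.eq, mul_neg, mul_assoc, neg_add_cancel]

theorem ac_right {D : ℍ[ℝ]} (h : AC ω D) (h' : Commute X ω) : AC ω (D * X) := by
  have e1 : D * ω = -(ω * D) := eq_neg_of_add_eq_zero_left h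
  change D * X * ω + ω * (D * X) = 0
  rw [mul_assoc, h'.eq, ← mul_assoc, e1, neg_mul, mul_assoc, neg_add_cancel]

theorem ac_smul {D : ℍ[ℝ]} (r : ℝ) (h : AC ω D) : AC ω (r • D) := by
  change r • D * ω + ω * r • D = 0
  rw [smul_mul_assoc, mul_smul_comm, ← smul_add, show D * ω + ω * D = 0 from h, smul_zero]

theorem ac_sub {D E : ℍ[ℝ]} (h : AC ω D) (h' : AC ω E) : AC ω (D - E) := by
  change (D - E) * ω + ω * (D - E) = 0
  rw [_root_.sub_mul, _root_.mul_sub, sub_add_sub_comm, show D * ω + ω * D = 0 from h,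
    show E * ω + ω * E = 0 from h', sub_zero]

theorem ac_add {D E : ℍ[ℝ]} (h : AC ω D) (h' : AC ω E) : AC ω (D + E) := by
  change (D + E) * ω + ω * (D + E) = 0
  rw [add_mul, mul_add, add_add_add_comm, show D * ω + ω * D = 0 from h,
    show E * ω + ω * E = 0 from h', add_zero]

theorem ac_zero (hω : ω ≠ 0) {D : ℍ[ℝ]} (h : AC ω D) (h' : Commute D ω) : D = 0 := by
  have e : (2 : ℝ) • (D * ω) = 0 := by
    rw [two_smul]
    nth_rewrite 2 [h'.eq]
    exact h
  rcases smul_eq_zero.1 e with e | e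
  · norm_num at e
  · exact (mul_eq_zero.1 e).resolve_right hω

theorem ac_re (hω : ω ≠ 0) {D : ℍ[ℝ]} (h : AC ω D) : D.re = 0 := by
  have e1 : D * ω = -(ω * D) := eq_neg_of_add_eq_zero_left h
  have e2 := G5Aux.conj_re D hω
  rw [mul_assoc, e1, mul_neg, ← mul_assoc, inv_mul_cancel₀ hω, one_mul, Quaternion.re_neg] at e2
  linarith

theorem ac_star_eq (hω : ω ≠ 0) {D : ℍ[ℝ]} (h : AC ω D) : star D = -D :=
  Quaternion.star_eq_neg.2 (ac_re hω h)

theorem ac_star {D : ℍ[ℝ]} (h : AC ω D) : AC ω (star D) := by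
  by_cases hω : ω = 0
  · simp [AC, hω]
  · rw [ac_star_eq hω h, ← neg_one_smul ℝ D]
    exact ac_smul _ h

theorem ac_normSq (hω : ω ≠ 0) {D : ℍ[ℝ]} (h' : Commute X ω) (h : AC ω D) :
    normSq (X + D) = normSq X + normSq D := by
  rw [Quaternion.normSq_add, ac_re hω (ac_left h' (ac_star h)), mul_zero, add_zero]

theorem kn_unique (hω : ω ≠ 0) (h : Kn ω l X P) (h' : Kn ω l Y P) : X = Y := by
  have e := ac_sub h'.2 h.2
  rw [sub_sub_sub_cancel_left] at e
  exact sub_eq_zero.1 (ac_zero hω e (h.1.sub_left h'.1))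

theorem kn_normSq (hω : ω ≠ 0) (h : Kn ω l X (a * star b)) :
    normSq (l • (a * star b) - X) = l * normSq a * (l * normSq b) - normSq X := by
  have e := ac_normSq hω h.1 h.2
  rw [add_sub_cancel, Quaternion.normSq_smul, map_mul, Quaternion.normSq_star] at e
  linarith

theorem chain (a b c : ℍ[ℝ]) : a * star b * (b * star c) = normSq b • (a * star c) := by
  rw [mul_assoc, ← mul_assoc (star b), Quaternion.star_mul_self, Quaternion.coe_mul_eq_smul,
    mul_smul_comm]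

theorem finish {m : ℕ} {p y : ℕ → ℍ[ℝ]} {ρ N : ℝ} (hρ : ρ ≠ 0) {j : ℕ} (hj : j < m)
    (hy : y j ≠ 0) (h : ∀ i < m, N • (p i * star (p j)) = ρ • (y i * star (y j))) :
    ∃ q, q ≠ 0 ∧ (∀ i < m, p i * q = y i) ∧ ρ * normSq q = N := by
  have hy' : normSq (y j) ≠ 0 := Quaternion.normSq_ne_zero.2 hy
  have key : ∀ i < m, p i * ((N / (ρ * normSq (y j))) • (star (p j) * y j)) = y i := by
    intro i hi
    rw [mul_smul_comm, div_eq_inv_mul, mul_smul, ← mul_assoc, ← smul_mul_assoc N, h i hi,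
      smul_mul_assoc, mul_assoc, Quaternion.star_mul_self, Quaternion.mul_coe_eq_smul, smul_smul,
      smul_smul, mul_assoc, inv_mul_cancel₀ (mul_ne_zero hρ hy'), one_smul]
  refine ⟨_, ?_, key, ?_⟩
  · intro h0
    have := key j hj
    rw [h0, mul_zero] at this
    exact hy this.symm
  · have e1 := congrArg normSq (key j hj)
    rw [map_mul] at e1
    have e2 := congrArg QuaternionAlgebra.re (h j hj)
    rw [Quaternion.self_mul_star, Quaternion.self_mul_star] at e2
    simp only [Quaternion.re_smul, Quaternion.re_coe, smul_eq_mul] at e2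
    have hp : normSq (p j) ≠ 0 := by
      intro h0
      rw [h0, zero_mul] at e1
      exact hy' e1.symm
    apply mul_right_cancel₀ hp
    linear_combination ρ * e1 - e2

theorem exists_sqrt (hω : ω ≠ 0) (hω' : ω.re = 0) {u : ℍ[ℝ]} (hu : normSq u = 1)
    (hc : Commute u ω) : ∃ φ : ℍ[ℝ], normSq φ = 1 ∧ Commute φ ω ∧ φ * φ = u := by
  have unit : ∀ v : ℍ[ℝ], v ≠ 0 → Commute v ω → v * v = normSq v • u →
      ∃ φ : ℍ[ℝ], normSq φ = 1 ∧ Commute φ ω ∧ φ * φ = u := by
    intro v hv hv1 hv2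
    have h0 : 0 < normSq v :=
      lt_of_le_of_ne Quaternion.normSq_nonneg (Quaternion.normSq_ne_zero.2 hv).symm
    have e : (√(normSq v))⁻¹ ^ 2 * normSq v = 1 := by
      rw [inv_pow, Real.sq_sqrt h0.le, inv_mul_cancel₀ h0.ne']
    refine ⟨(√(normSq v))⁻¹ • v, ?_, hv1.smul_left _, ?_⟩
    · rw [Quaternion.normSq_smul, e]
    · rw [smul_mul_smul_comm, hv2, smul_smul, ← pow_two, e, one_smul]
  by_cases h1 : u = -1
  · refine unit ω hω (Commute.refl ω) ?_
    have e := Quaternion.star_mul_self ω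
    rw [Quaternion.star_eq_neg.2 hω', neg_mul] at e
    rw [h1, smul_neg, ← Quaternion.coe_mul_eq_smul, mul_one, ← e, neg_neg]
  · refine unit (1 + u) (fun h0 => h1 (eq_neg_of_add_eq_zero_right h0))
      ((Commute.one_left ω).add_left hc) ?_
    have e := Quaternion.star_mul_self u
    rw [hu, Quaternion.coe_one] at e
    rw [← Quaternion.coe_mul_eq_smul, ← Quaternion.self_mul_star, star_add, star_one, mul_assoc,
      add_mul 1 (star u) u, e, one_mul, add_comm u 1]

end E4Aux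

open E4Aux

theorem kn_full {L k₁ k₂ k₃ k₄ ρ : ℝ} {u₁ u₂ u₃ u₄ : ℍ[ℝ]} (hρ : ρ ≠ 0) (e1 : u₁ = 1)
    (e2 : u₂ = ⟨0, 1, 0, 0⟩) (e3 : u₃ = ⟨0, 0, 1, 0⟩) (e4 : u₄ = ⟨0, 0, 0, 1⟩)
    (h1 : k₁ * ρ = 2 * (star a * (L • u₁) * b).re) (h2 : k₂ * ρ = 2 * (star a * (L • u₂) * b).re)
    (h3 : k₃ * ρ = 2 * (star a * (L • u₃) * b).re)
    (h4 : k₄ * ρ = 2 * (star a * (L • u₄) * b).re) :
    Kn 1 (2 * L / ρ) ⟨k₁, k₂, k₃, k₄⟩ (a * star b) := by
  obtain ⟨K, hK⟩ : ∃ K : ℍ[ℝ], K = ⟨k₁, k₂, k₃, k₄⟩ := ⟨_, rfl⟩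
  rw [← hK]
  refine ⟨Commute.one_right _, ?_⟩
  have e : (2 * L / ρ) • (a * star b) = K := by
    rw [mul_smul_comm, smul_mul_assoc, Quaternion.re_smul] at h1 h2 h3 h4
    simp only [Quaternion.re_mul, Quaternion.imI_mul, Quaternion.imJ_mul, Quaternion.imK_mul]
      at h1 h2 h3 h4
    subst e1 e2 e3 e4 hK
    simp at h1 h2 h3 h4
    ext <;> simp [Quaternion.re_mul, Quaternion.imI_mul, Quaternion.imJ_mul,
      Quaternion.imK_mul] <;> field_simp <;> linarith
  rw [AC, e, sub_self]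
  simp

theorem kn_cx {L k₁ k₂ ρ : ℝ} {u : ℍ[ℝ]} (hρ : ρ ≠ 0) (hω : ω.re = 0) (e1 : u = 1)
    (h1 : k₁ * ρ = 2 * (star a * (L • u) * b).re)
    (h2 : k₂ * ρ = 2 * (star a * (L • ω) * b).re) :
    Kn ω (2 * L * normSq ω / ρ) ((k₁ * normSq ω : ℝ) + k₂ • ω) (a * star b) := by
  subst e1
  refine ⟨((Quaternion.coe_commute _ _).add_left ((Commute.refl ω).smul_left _)), ?_⟩
  have g1 : k₁ = 2 * (star a * (L • (1 : ℍ[ℝ])) * b).re / ρ := (eq_div_iff hρ).2 h1
  have g2 : k₂ = 2 * (star a * (L • ω) * b).re / ρ := (eq_div_iff hρ).2 h2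
  obtain ⟨t, ht⟩ : ∃ t, t = k₁ * normSq ω := ⟨_, rfl⟩
  obtain ⟨w, hw⟩ : ∃ t, t = 2 * L * normSq ω / ρ := ⟨_, rfl⟩
  rw [AC, ← ht, ← hw]
  rw [Quaternion.normSq_def'] at ht hw
  simp [Quaternion.re_mul, Quaternion.imI_mul, Quaternion.imJ_mul, Quaternion.imK_mul, hω]
    at g1 g2
  ext <;> simp [Quaternion.re_mul, Quaternion.imI_mul, Quaternion.imJ_mul,
    Quaternion.imK_mul, hω] <;> simp only [ht, hw, g1, g2, hω] <;> field_simp <;> ring

theorem Kn.star (h : Kn ω l X P) : Kn ω l (star X) (star P) := by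
  refine ⟨G5Aux.commute_star_left.2 h.1, ?_⟩
  have e := ac_star h.2
  rwa [star_sub, Quaternion.star_smul] at e

theorem Kn.full (h : Kn 1 l X P) : X = l • P := by
  exact (sub_eq_zero.1 (ac_zero one_ne_zero h.2 (Commute.one_right _))).symm

theorem Kn.diag (hω : ω ≠ 0) (h : Kn ω l X (a * Star.star a)) : X.re = l * normSq a := by
  have e := ac_re hω h.2
  rw [Quaternion.self_mul_star] at e
  simp only [Quaternion.re_sub, Quaternion.re_smul, Quaternion.re_coe, smul_eq_mul] at e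
  linarith

theorem Kn.minor (hω : ω ≠ 0) (h1 : Kn ω l X₁ (a * Star.star a)) (h2 : Kn ω l X₂ (b * Star.star b))
    (h : Kn ω l X (a * Star.star b)) :
    normSq X ≤ X₁.re * X₂.re ∧ (normSq X = X₁.re * X₂.re → X = l • (a * Star.star b)) := by
  have e := kn_normSq hω h
  rw [h1.diag hω, h2.diag hω]
  refine ⟨?_, fun h0 => ?_⟩
  · have := Quaternion.normSq_nonneg (a := l • (a * Star.star b) - X)
    linarith
  · rw [h0, sub_self] at e
    exact (sub_eq_zero.1 (Quaternion.normSq_eq_zero.1 e)).symm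

theorem Kn.triple (hω : ω ≠ 0) (h1 : Kn ω l X₁ (a * Star.star a))
    (h2 : Kn ω l X₂ (b * Star.star b)) (h3 : Kn ω l X₃ (c * Star.star c))
    (hX : Kn ω l X (a * Star.star b)) (hY : Kn ω l Y (b * Star.star c))
    (hZ : Kn ω l Z (a * Star.star c)) :
    normSq (X * Y - X₂.re • Z) = (X₁.re * X₂.re - normSq X) * (X₂.re * X₃.re - normSq Y) := by
  rw [h1.diag hω, h2.diag hω, h3.diag hω, ← kn_normSq hω hX, ← kn_normSq hω hY, ← map_mul,
    ← Quaternion.normSq_neg]
  congr 1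
  obtain ⟨D, hD⟩ : ∃ D, D = l • (a * Star.star b) - X := ⟨_, rfl⟩
  obtain ⟨E, hE⟩ : ∃ E, E = l • (b * Star.star c) - Y := ⟨_, rfl⟩
  obtain ⟨G, hG⟩ : ∃ G, G = l • (a * Star.star c) - Z := ⟨_, rfl⟩
  have aD : AC ω D := hD ▸ hX.2
  have aE : AC ω E := hE ▸ hY.2
  have aG : AC ω G := hG ▸ hZ.2
  have e : (X + D) * (Y + E) = (l * normSq b) • (Z + G) := by
    rw [hD, hE, hG, add_sub_cancel, add_sub_cancel, add_sub_cancel, smul_mul_smul_comm, chain,
      smul_smul, smul_smul]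
    congr 1
    ring
  rw [← hD, ← hE]
  have e2 : X * Y + D * E - (l * normSq b) • Z = (l * normSq b) • G - (X * E + D * Y) := by
    rw [smul_add, add_mul, mul_add, mul_add] at e
    rw [sub_eq_sub_iff_add_eq_add, add_comm (_ • G), ← e]
    abel
  have e3 := ac_zero hω (e2 ▸ ac_sub (ac_smul _ aG) (ac_add (ac_left hX.1 aE) (ac_right aD hY.1)))
    (((hX.1.mul_left hY.1).add_left (ac_mul aD aE)).sub_left (hZ.1.smul_left _))
  rw [← sub_eq_zero, ← neg_eq_zero, ← e3]
  abel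

theorem match_one {m : ℕ} {p y : ℕ → ℍ[ℝ]} {X : ℕ → ℕ → ℍ[ℝ]} {ρ N : ℝ} (hω : ω ≠ 0) (hl : l ≠ 0)
    (hρ : ρ ≠ 0) (hN : N ≠ 0) (hX : ∀ i < m, ∀ j < m, Kn ω l (X i j) (p i * star (p j))) {j : ℕ}
    (hj : j < m) (hy : y j ≠ 0) (h1 : ∀ i < m, N • X i j = (l * ρ) • (y i * star (y j)))
    (h2 : ∀ i < m, N * (X i i).re = l * ρ * normSq (y i)) :
    ∃ q, q ≠ 0 ∧ (∀ i < m, p i * q = y i) ∧ ρ * normSq q = N := by
  refine finish hρ hj hy fun i hi => ?_
  have d : ∀ i < m, N * normSq (p i) = ρ * normSq (y i) := fun i hi => by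
    have e := h2 i hi
    rw [(hX i hi i hi).diag hω] at e
    apply mul_left_cancel₀ hl
    linarith
  have e := ((hX i hi i hi).minor hω (hX j hj j hj) (hX i hi j hj)).2 (by
    have e := congrArg normSq (h1 i hi)
    rw [Quaternion.normSq_smul, Quaternion.normSq_smul, map_mul, Quaternion.normSq_star] at e
    apply mul_left_cancel₀ (pow_ne_zero 2 hN)
    rw [e, (hX i hi i hi).diag hω, (hX j hj j hj).diag hω]
    linear_combination (-(l ^ 2) * ρ * normSq (y j)) * d i hi - l ^ 2 * N * normSq (p i) * d j hj)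
  have e2 := h1 i hi
  rw [e, smul_comm, mul_smul] at e2
  exact smul_right_injective _ hl e2

theorem match_two {m : ℕ} {p y : ℕ → ℍ[ℝ]} {X : ℕ → ℕ → ℍ[ℝ]} {ρ N : ℝ} (hω : ω ≠ 0)
    (hω' : ω.re = 0) (hl : l ≠ 0) (hρ : ρ ≠ 0) (hN : N ≠ 0)
    (hX : ∀ i < m, ∀ j < m, Kn ω l (X i j) (p i * star (p j))) {i j : ℕ} (hi : i < m) (hj : j < m)
    (hy : ¬ Commute (y i * star (y j)) ω)
    (h : ∀ b < m, ∀ a ≤ b, AC ω (N • X a b - (l * ρ) • (y a * star (y b)))) :
    ∃ θ q, normSq θ = 1 ∧ Commute θ ω ∧ q ≠ 0 ∧ (∀ i < m, star θ * p i * q = y i) ∧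
      ρ * normSq q = N := by
  have hall : ∀ a < m, ∀ b < m, AC ω (N • X a b - (l * ρ) • (y a * star (y b))) := by
    intro a ha b hb
    rcases le_total a b with hab | hab
    · exact h b hb a hab
    · have e := (hX b hb a ha).star
      rw [star_mul, star_star] at e
      have e2 := ac_star (h a ha b hab)
      rwa [star_sub, Quaternion.star_smul, Quaternion.star_smul, star_mul,
        star_star, ← kn_unique hω (hX a ha b hb) e] at e2
  have aZ : ∀ a < m, ∀ b < m, AC ω (N • (p a * star (p b)) - (N / l) • X a b) := by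
    intro a ha b hb
    have e := ac_smul (N / l) (hX a ha b hb).2
    rwa [smul_sub, smul_smul, div_mul_cancel₀ _ hl] at e
  have aW : ∀ a < m, ∀ b < m, AC ω (ρ • (y a * star (y b)) - (N / l) • X a b) := by
    intro a ha b hb
    have e := ac_smul (-l⁻¹) (hall a ha b hb)
    rwa [neg_smul, ← smul_neg, neg_sub, smul_sub, smul_smul, smul_smul, inv_mul_cancel_left₀ hl,
      ← div_eq_inv_mul] at e
  have cC : ∀ a < m, ∀ b < m, Commute ((N / l) • X a b) ω := fun a ha b hb =>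
    (hX a ha b hb).1.smul_left _
  have d : ∀ a < m, N * normSq (p a) = ρ * normSq (y a) := fun a ha => by
    have e := ac_re hω (ac_sub (aZ a ha a ha) (aW a ha a ha))
    rw [sub_sub_sub_cancel_right, Quaternion.self_mul_star, Quaternion.self_mul_star] at e
    simp only [Quaternion.re_sub, Quaternion.re_smul, Quaternion.re_coe, smul_eq_mul] at e
    linarith
  obtain ⟨Z, hZ⟩ : ∃ Z, Z = N • (p i * star (p j)) - (N / l) • X i j := ⟨_, rfl⟩
  obtain ⟨V, hV⟩ : ∃ V, V = ρ • (y i * star (y j)) - (N / l) • X i j := ⟨_, rfl⟩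
  have aZ0 : AC ω Z := hZ ▸ aZ i hi j hj
  have aV : AC ω V := hV ▸ aW i hi j hj
  have hV0 : V ≠ 0 := by
    intro h0
    have e := cC i hi j hj
    rw [← sub_eq_zero.1 (hV.symm.trans h0)] at e
    have e2 := e.smul_left ρ⁻¹
    rw [inv_smul_smul₀ hρ] at e2
    exact hy e2
  have hn : normSq Z = normSq V := by
    have e1 := ac_normSq hω (cC i hi j hj) aZ0
    have e2 := ac_normSq hω (cC i hi j hj) aV
    rw [hZ, add_sub_cancel, ← hZ, Quaternion.normSq_smul, map_mul, Quaternion.normSq_star] at e1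
    rw [hV, add_sub_cancel, ← hV, Quaternion.normSq_smul, map_mul, Quaternion.normSq_star] at e2
    linear_combination e2 - e1 + ρ * normSq (y j) * d i hi + N * normSq (p i) * d j hj
  have hVn : normSq V ≠ 0 := Quaternion.normSq_ne_zero.2 hV0
  obtain ⟨φ, f1, f2, f3⟩ := exists_sqrt hω hω' (u := (normSq V)⁻¹ • (V * star Z))
    (by rw [Quaternion.normSq_smul, map_mul, Quaternion.normSq_star, hn]; field_simp)
    ((ac_mul aV (ac_star aZ0)).smul_left _)
  have him : ω.im ≠ 0 := fun h0 => hω (by rw [G5Aux.eq_coe_of_im h0, hω', Quaternion.coe_zero])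
  have f4 : φ * star φ = 1 := by rw [Quaternion.self_mul_star, f1, Quaternion.coe_one]
  have f2' : Commute (star φ) ω := G5Aux.commute_star_left.2 f2
  have conj : ∀ a < m, ∀ b < m, N • (φ * p a * star (φ * p b)) - (N / l) • X a b =
      φ * (N • (p a * star (p b)) - (N / l) • X a b) * star φ := by
    intro a ha b hb
    have e := G5Aux.commute_trans him f2.symm (cC a ha b hb).symm
    rw [_root_.mul_sub, _root_.sub_mul, e.eq, mul_assoc _ φ, f4, mul_one, star_mul, mul_smul_comm,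
      smul_mul_assoc]
    simp only [mul_assoc]
  have aA : ∀ a < m, ∀ b < m, AC ω (N • (φ * p a * star (φ * p b)) - ρ • (y a * star (y b))) := by
    intro a ha b hb
    have e := ac_sub (conj a ha b hb ▸ ac_right (ac_left f2 (aZ a ha b hb)) f2') (aW a ha b hb)
    rwa [sub_sub_sub_cancel_right] at e
  have hij : N • (φ * p i * star (φ * p j)) = ρ • (y i * star (y j)) := by
    have e := conj i hi j hj
    have e2 := ac_star_eq hω (ac_right aZ0 f2')
    rw [star_mul, star_star, ac_star_eq hω aZ0, mul_neg, neg_inj] at e2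
    rw [← hZ, mul_assoc φ Z, ← e2, ← mul_assoc φ φ, f3, smul_mul_assoc, mul_assoc V,
      Quaternion.star_mul_self, Quaternion.mul_coe_eq_smul, hn, inv_smul_smul₀ hVn, hV] at e
    exact sub_left_inj.1 e
  have hyj : y j ≠ 0 := fun h0 => hy (by
    rw [h0, star_zero, mul_zero]
    exact Commute.zero_left _)
  have row : ∀ a < m, N • (φ * p j * star (φ * p a)) = ρ • (y j * star (y a)) := by
    intro a ha
    obtain ⟨A, hA⟩ : ∃ A, A = N • (φ * p j * star (φ * p a)) - ρ • (y j * star (y a)) := ⟨_, rfl⟩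
    have aA0 : AC ω A := hA ▸ aA j hj a ha
    have e : ((N / l) • X i j + V) * A = (ρ * normSq (y j)) •
        (N • (φ * p i * star (φ * p a)) - ρ • (y i * star (y a))) := by
      rw [hV, add_sub_cancel, hA, mul_sub, smul_sub]
      congr 1
      · rw [← hij, smul_mul_smul_comm, chain, map_mul, f1, one_mul, ← d j hj, smul_smul, smul_smul]
        congr 1
        ring
      · rw [smul_mul_smul_comm, chain, smul_smul, smul_smul]
        congr 1
        ring
    have e2 := ac_sub (e ▸ ac_smul _ (aA i hi a ha)) (ac_left (cC i hi j hj) aA0)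
    rw [add_mul, add_sub_cancel_left] at e2
    have e3 := (mul_eq_zero.1 (ac_zero hω e2 (ac_mul aV aA0))).resolve_left hV0
    exact sub_eq_zero.1 (hA.symm.trans e3)
  obtain ⟨q, q1, q2, q3⟩ := finish (p := fun a => φ * p a) (N := N) hρ hj hyj fun a ha => by
    have e := congrArg star (row a ha)
    rwa [Quaternion.star_smul, Quaternion.star_smul, star_mul (φ * p j), star_star,
      star_mul (y j), star_star] at e
  exact ⟨star φ, q, by rw [Quaternion.normSq_star, f1], f2', q1,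
    fun a ha => by rw [star_star]; exact q2 a ha, q3⟩

end Pool.Agent.P.MP_97ea17_al.Geo
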