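import Pool.Agent.P.MP_97ea17_al.F.G1b

/-! Imprimitivity, connectedness, orders of reflections. -/

namespace Pool.Agent.P.MP_97ea17_al.Geo

open scoped Quaternion Matrix

variable {n : ℕ} {W : Subgroup (GH n)}

namespace G2Aux

theorem on_single : ON (fun i : Fin n => (Pi.single i 1 : V n)) := by
  intro i j
  simp only [ip, Pi.single_apply]
  rw [Finset.sum_eq_single i]
  · by_cases h : i = j <;> simp [h]
  · intro k _ hk
    simp [hk]
  · simp

theorem act_mul (w w' : GH n) (v : V n) : (w * w').val *ᵥ v = w.val *ᵥ (w'.val *ᵥ v) := by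
  rw [Units.val_mul, Matrix.mulVec_mulVec]

theorem act_inv (w : GH n) (v : V n) : w.val *ᵥ ((w⁻¹).val *ᵥ v) = v := by
  rw [← act_mul, mul_inv_cancel, Units.val_one, Matrix.one_mulVec]

theorem ip_act (hW : Std W) {w : GH n} (hw : w ∈ W) (x v : V n) :
    ip x (w.val *ᵥ v) = ip ((w⁻¹).val *ᵥ x) v := by
  rw [← (hW.uni w hw).ip ((w⁻¹).val *ᵥ x) v, act_inv]

theorem ip_one {a : V n} (ha : nq a = 1) : ip a a = 1 := by
  rw [ip_self, ha]; rfl

theorem tt_self {a : V n} (ha : nq a = 1) : tt a a = 1 := by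
  rw [tt, ip_one ha, map_one]

theorem tt_le_one {a b : V n} (ha : nq a = 1) (hb : nq b = 1) : tt a b ≤ 1 := by
  simpa [ha, hb] using tt_le a b

theorem eq_rs {a b : V n} (ha : nq a = 1) (hb : nq b = 1) (h : tt a b = 1) :
    b = rs a (ip a b) := by
  have := eq_rs_of_tt (a := a) (b := b) (by rw [ha]; exact one_ne_zero) (by rw [h, ha, hb, mul_one])
  rwa [ha, inv_one, one_smul] at this

/-- The vectors orthogonal to a nonempty stable set of unit vectors vanish. -/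
theorem span (hW : Std W) (C : V n → Prop) {a : V n} (ha : nq a = 1) (hC : C a)
    (hst : ∀ w ∈ W, ∀ x, C x → C (w.val *ᵥ x)) (v : V n) (hv : ∀ x, C x → ip x v = 0) :
    v = 0 := by
  rcases hW.irred (fun v => ∀ x, C x → ip x v = 0) (fun x _ => ip_zero_right x)
    (fun u v hu hv x hx => by rw [ip_add_right, hu x hx, hv x hx, add_zero])
    (fun v q hv x hx => by rw [ip_rs_right, hv x hx, zero_mul])
    (fun w hw v hv x hx => by rw [ip_act hW hw]; exact hv _ (hst _ (W.inv_mem hw) x hx)) with h | h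
  · exact h v hv
  · exact absurd ((ip_one ha).symm.trans (h a a hC)) one_ne_zero

theorem sq_eq {q : ℍ[ℝ]} (h : Quaternion.normSq q = 1) : q * q = (2 * q.re) • q - 1 := by
  have h1 : q * star q = 1 := by rw [Quaternion.self_mul_star, h]; rfl
  have h2 : star q = ((2 * q.re : ℝ) : ℍ[ℝ]) - q := Quaternion.star_eq_two_re_sub q
  rw [h2, mul_sub, Quaternion.mul_coe_eq_smul] at h1
  rw [← h1, sub_sub_cancel]

theorem re_pow {q : ℍ[ℝ]} (h : Quaternion.normSq q = 1) (k : ℕ) :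
    (q ^ (k + 2)).re = 2 * q.re * (q ^ (k + 1)).re - (q ^ k).re := by
  rw [pow_add q k 2, sq, sq_eq h, mul_sub, mul_smul_comm, mul_one, ← pow_succ, Quaternion.re_sub,
    Quaternion.re_smul, smul_eq_mul]

theorem re_sq_le {q : ℍ[ℝ]} (h : Quaternion.normSq q = 1) : q.re ^ 2 ≤ 1 := by
  rw [Quaternion.normSq_def'] at h
  nlinarith [sq_nonneg q.imI, sq_nonneg q.imJ, sq_nonneg q.imK]

theorem eq_coe {q : ℍ[ℝ]} (h : Quaternion.normSq q = 1) (h' : q.re ^ 2 = 1) :
    q = (q.re : ℍ[ℝ]) := by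
  rw [Quaternion.normSq_def'] at h
  have h1 : q.imI ^ 2 = 0 := by nlinarith [sq_nonneg q.imI, sq_nonneg q.imJ, sq_nonneg q.imK]
  have h2 : q.imJ ^ 2 = 0 := by nlinarith [sq_nonneg q.imI, sq_nonneg q.imJ, sq_nonneg q.imK]
  have h3 : q.imK ^ 2 = 0 := by nlinarith [sq_nonneg q.imI, sq_nonneg q.imJ, sq_nonneg q.imK]
  ext
  · rfl
  · simpa using h1
  · simpa using h2
  · simpa using h3

theorem re_lt_one {q : ℍ[ℝ]} (h : Quaternion.normSq q = 1) (h' : q ≠ 1) : q.re < 1 := by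
  have h1 := re_sq_le h
  by_contra hc
  have h2 : q.re = 1 := by nlinarith
  exact h' (by rw [eq_coe h (by rw [h2]; norm_num), h2]; rfl)

theorem cover {x : ℝ} (h1 : x < 1 / 2) (h2 : 2 * x ^ 2 - 1 < 1 / 2) (h3 : 4 * x ^ 3 - 3 * x < 1 / 2)
    (h4 : 8 * x ^ 4 - 8 * x ^ 2 + 1 < 1 / 2) (h5 : 16 * x ^ 5 - 20 * x ^ 3 + 5 * x < 1 / 2) :
    False := by
  rcases le_total x (1 / 5) with a | a
  · rcases le_total x (-1 / 5) with b | b
    · rcases le_total x (-7 / 10) with c | c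
      · have d : -7 / 8 ≤ x := by nlinarith
        have e : 0 ≤ (-7 / 10 - x) * (x + 7 / 8) := mul_nonneg (by linarith) (by linarith)
        have f : 0 ≤ -x := by linarith
        nlinarith [mul_nonneg e f, mul_nonneg e (sq_nonneg x), mul_nonneg (mul_nonneg e f) (sq_nonneg x),
          sq_nonneg (x + 4 / 5)]
      · have e : 0 ≤ (-1 / 5 - x) * (x + 7 / 10) := mul_nonneg (by linarith) (by linarith)
        nlinarith [mul_nonneg e (show 0 ≤ -x by linarith)]
    · have e : x ^ 2 ≤ 1 / 25 := by nlinarith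
      nlinarith [sq_nonneg (x ^ 2)]
  · have e : 0 ≤ 1 / 2 - x := by linarith
    have f : x ^ 2 ≤ 1 / 4 := by nlinarith
    have g : 16 * x ^ 4 + 8 * x ^ 3 - 16 * x ^ 2 - 8 * x + 1 ≤ 0 := by
      nlinarith [mul_nonneg (sq_nonneg x) (show 0 ≤ 1 / 4 - x ^ 2 by linarith),
        mul_nonneg (show 0 ≤ x by linarith) (show 0 ≤ 1 / 4 - x ^ 2 by linarith)]
    nlinarith [mul_nonneg e (neg_nonneg.2 g)]

theorem max_orth {ι : Type*} [Finite ι] (o : ι → V n) (ho : ∀ w, nq (o w) = 1)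
    (h01 : ∀ w w', ip (o w) (o w') = 0 ∨ ∃ q, o w' = rs (o w) q) :
    ∃ (m : ℕ) (f : Fin m → ι), ON (fun i => o (f i)) ∧ ∀ w, ∃ i q, o w = rs (o (f i)) q := by
  classical
  have := Fintype.ofFinite ι
  obtain ⟨T, hT, hmax⟩ := Finset.exists_max_image
    (Finset.univ.filter fun T : Finset ι => ∀ x ∈ T, ∀ y ∈ T, x ≠ y → ip (o x) (o y) = 0)
    Finset.card ⟨∅, Finset.mem_filter.2 ⟨Finset.mem_univ _, fun _ hx => absurd hx
      (Finset.notMem_empty _)⟩⟩
  have hT := (Finset.mem_filter.1 hT).2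
  have hl : ∀ w, ∃ x ∈ T, ∃ q, o w = rs (o x) q := by
    intro w
    by_contra hc
    have h0 : ∀ x ∈ T, ip (o x) (o w) = 0 := fun x hx =>
      (h01 x w).resolve_right fun e => hc ⟨x, hx, e⟩
    have hw : w ∉ T := fun hw => hc ⟨w, hw, 1, (rs_one _).symm⟩
    have := hmax (insert w T) (Finset.mem_filter.2 ⟨Finset.mem_univ _, by
      intro x hx y hy hxy
      rcases Finset.mem_insert.1 hx with hx' | hx' <;>
        rcases Finset.mem_insert.1 hy with hy' | hy'
      · exact absurd (hx'.trans hy'.symm) hxy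
      · rw [hx']; exact ip_eq_zero_comm.1 (h0 y hy')
      · rw [hy']; exact h0 x hx'
      · exact hT x hx' y hy' hxy⟩)
    rw [Finset.card_insert_of_notMem hw] at this
    omega
  refine ⟨T.card, fun i => T.equivFin.symm i, fun i j => ?_, fun w => ?_⟩
  · split_ifs with hij
    · rw [hij]; exact ip_one (ho _)
    · exact hT _ (T.equivFin.symm i).2 _ (T.equivFin.symm j).2
        fun e => hij (T.equivFin.symm.injective (Subtype.ext e))
  · obtain ⟨x, hx, q, hq⟩ := hl w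
    exact ⟨T.equivFin ⟨x, hx⟩, q, by simpa only [Equiv.symm_apply_apply] using hq⟩

end G2Aux

open G2Aux

theorem mono_small (hW : Std W) (hn : n ≤ 1) : Mono W := by
  have _ := hW
  have : Subsingleton (Fin n) := Fin.subsingleton_iff_le_one.2 hn
  refine ⟨_, on_single, fun w _ i => ⟨i, (w.val *ᵥ (Pi.single i 1 : V n)) i, ?_⟩⟩
  ext1 k
  rw [Subsingleton.elim k i]
  simp [rs]

theorem imp (hW : Std W) {a : V n} (ha : nq a = 1)
    (h : ∀ w ∈ W, tt a (w.val *ᵥ a) = 0 ∨ tt a (w.val *ᵥ a) = 1) : Mono W := by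
  have := hW.finite
  obtain ⟨o, hd⟩ : ∃ o : W → V n, ∀ w, o w = w.val.val *ᵥ a := ⟨_, fun _ => rfl⟩
  have hmul : ∀ w w' : W, o (w * w') = w.val.val *ᵥ o w' := fun w w' => by
    rw [hd, hd, Subgroup.coe_mul, act_mul]
  have h1 : o 1 = a := by rw [hd, Subgroup.coe_one, Units.val_one, Matrix.one_mulVec]
  have ho : ∀ w, nq (o w) = 1 := fun w => by rw [hd, (hW.uni _ w.2).nq a, ha]
  have h01 : ∀ w w', ip (o w) (o w') = 0 ∨ ∃ q, o w' = rs (o w) q := by
    intro w w'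
    have e : tt (o w) (o w') = tt a ((w⁻¹ * w' : W).val.val *ᵥ a) := by
      rw [← (hW.uni _ w.2).tt a, ← hd, ← hd, ← hmul, mul_inv_cancel_left]
    rcases h _ (w⁻¹ * w').2 with h' | h'
    · exact Or.inl (tt_eq_zero.1 (e.trans h'))
    · exact Or.inr ⟨_, eq_rs (ho w) (ho w') (e.trans h')⟩
  obtain ⟨m, f, he, hl⟩ := max_orth o ho h01
  have hc : m = n := he.card_eq fun v hv =>
    span hW (fun x => ∃ w, x = o w) ha ⟨1, h1.symm⟩
      (by
        rintro w hw _ ⟨w', rfl⟩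
        exact ⟨⟨w, hw⟩ * w', (hmul ⟨w, hw⟩ w').symm⟩) v
      (by
        rintro _ ⟨w, rfl⟩
        obtain ⟨i, q, hq⟩ := hl w
        rw [hq, ip_rs_left, hv, mul_zero])
  subst hc
  refine ⟨_, he, fun w hw i => ?_⟩
  obtain ⟨j, q, hq⟩ := hl (⟨w, hw⟩ * f i)
  exact ⟨j, q, (hmul ⟨w, hw⟩ (f i)).symm.trans hq⟩

theorem comp (hW : Std W) (hM : ¬ Mono W) (S : V n → Prop) (hS : ∀ x, S x → nq x = 1)
    (hst : ∀ w ∈ W, ∀ x, S x → S (w.val *ᵥ x)) (hne : ∃ a, S a) : Conn S := by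
  obtain ⟨a0, ha0⟩ := hne
  refine ⟨fun P a ha hP hcl x hx => ?_, span hW S (hS a0 ha0) ha0 hst⟩
  let R : V n → V n → Prop := fun x y => S x ∧ S y ∧ ip x y ≠ 0
  have hsym : ∀ c d, Relation.ReflTransGen R c d → Relation.ReflTransGen R d c := by
    intro c d hc
    induction hc with
    | refl => exact Relation.ReflTransGen.refl
    | tail _ h ih => exact ih.head ⟨h.2.1, h.1, fun e => h.2.2 (ip_eq_zero_comm.1 e)⟩
  have hCS : ∀ c, Relation.ReflTransGen R a c → S c := by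
    intro c hc
    cases hc with
    | refl => exact ha
    | tail _ h => exact h.2.1
  have hCP : ∀ c, Relation.ReflTransGen R a c → P c := by
    intro c hc
    induction hc with
    | refl => exact hP
    | tail _ h ih => exact hcl _ _ h.1 h.2.1 ih h.2.2
  have hact : ∀ w ∈ W, ∀ c d, Relation.ReflTransGen R c d →
      Relation.ReflTransGen R (w.val *ᵥ c) (w.val *ᵥ d) := by
    intro w hw c d hc
    induction hc with
    | refl => exact Relation.ReflTransGen.refl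
    | tail _ h ih =>
      exact ih.tail ⟨hst w hw _ h.1, hst w hw _ h.2.1, by rw [(hW.uni w hw).ip]; exact h.2.2⟩
  by_cases hA : ∀ r ∈ W, ∀ b ξ, Rl W b ξ → r.val = reflMat b ξ →
      Relation.ReflTransGen R a (r.val *ᵥ a)
  · have hC : ∀ w ∈ W, ∀ c, Relation.ReflTransGen R a c →
        Relation.ReflTransGen R a (w.val *ᵥ c) := by
      refine hW.induction _ (fun c hc => by simpa using hc) ?_
      intro r hr b ξ h1 h2 w _ ih c hc
      rw [act_mul]
      exact (hA r hr b ξ h1 h2).trans (hact r hr _ _ (ih c hc))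
    by_contra hc
    have h0 := span hW _ (hS a ha) Relation.ReflTransGen.refl hC x fun c hc' => by
      by_contra h
      exact hc (hCP x (hc'.tail ⟨hCS c hc', hx, h⟩))
    have := hS x hx
    rw [h0, nq_eq_zero.2 rfl] at this
    exact zero_ne_one this
  · exfalso
    push Not at hA
    obtain ⟨r, hr, b, ξ, h1, h2, h3⟩ := hA
    have h0 : ∀ c d, Relation.ReflTransGen R a c → Relation.ReflTransGen R a d →
        ip d (r.val *ᵥ c) = 0 := by
      intro c d hc hd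
      by_contra h
      exact h3 ((hd.tail ⟨hCS d hd, hst r hr _ (hCS c hc), h⟩).trans
        (hact r hr _ _ (hsym _ _ hc)))
    have hba : ip b a ≠ 0 := fun e => by
      have := h0 a a Relation.ReflTransGen.refl Relation.ReflTransGen.refl
      rw [h2, reflMat_orth e, ip_one (hS a ha)] at this
      exact one_ne_zero this
    refine hM (imp hW (hS a ha) fun w hw => ?_)
    by_cases h4 : ip a (w.val *ᵥ a) = 0
    · exact Or.inl (tt_eq_zero.2 h4)
    · right
      have hc : Relation.ReflTransGen R a (w.val *ᵥ a) :=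
        Relation.ReflTransGen.single ⟨ha, hst w hw a ha, h4⟩
      have hn := hS _ (hCS _ hc)
      generalize w.val *ᵥ a = c at hc hn
      have h5 : ip b (c - rs a ((ip b a)⁻¹ * ip b c)) = 0 := by
        rw [ip_sub_right, ip_rs_right, mul_inv_cancel_left₀ hba, sub_self]
      have h6 := reflMat_orth h5 ξ
      have h7 : nq (c - rs a ((ip b a)⁻¹ * ip b c)) = 0 := by
        rw [nq_eq]
        conv_lhs => enter [1, 2]; rw [← h6, ← h2]
        rw [Matrix.mulVec_sub, mulVec_rs, ip_sub_left, ip_sub_right, ip_sub_right, ip_rs_left,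
          ip_rs_left, ip_rs_right, ip_rs_right, h0 c c hc hc, h0 a c .refl hc, h0 c a hc .refl,
          h0 a a .refl .refl]
        simp
      rw [nq_eq_zero, sub_eq_zero] at h7
      rw [h7, nq_rs, hS a ha, one_mul] at hn
      rw [h7, tt_rs_right, hn, tt_self (hS a ha), mul_one]

theorem exists_refl (hW : Std W) (hM : ¬ Mono W) : ∃ a ξ, Rl W a ξ := by
  by_contra hc
  have h := hW.le_of_refl ⊥ fun w _ a ξ h _ => absurd ⟨a, ξ, h⟩ hc
  refine hM ⟨_, on_single, fun w hw i => ⟨i, 1, ?_⟩⟩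
  rw [Subgroup.mem_bot.1 (h hw), Units.val_one, Matrix.one_mulVec, rs_one]

theorem ord_cases {q : ℍ[ℝ]} (h1 : Quaternion.normSq q = 1) (h2 : IsOfFinOrder q) (h3 : q ≠ 1) :
    Re5 q.re ∨ ∃ k : ℕ, 1 / 2 ≤ (q ^ k).re ∧ q ^ k ≠ 1 := by
  have _ := h2
  by_contra hc
  rw [not_or] at hc
  obtain ⟨hR, hc⟩ := hc
  push Not at hc
  have hk : ∀ k, (q ^ k).re < 1 / 2 ∨ (q ^ k).re = 1 := fun k =>
    (lt_or_ge _ _).imp_right fun h => by rw [hc k h]; rfl
  have e2 : (q ^ 2).re = 2 * q.re ^ 2 - 1 := by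
    rw [re_pow h1 0]; simp; ring
  have e3 : (q ^ 3).re = 4 * q.re ^ 3 - 3 * q.re := by
    rw [re_pow h1 1, e2, pow_one]; ring
  have e4 : (q ^ 4).re = 8 * q.re ^ 4 - 8 * q.re ^ 2 + 1 := by
    rw [re_pow h1 2, e3, e2]; ring
  have e5 : (q ^ 5).re = 16 * q.re ^ 5 - 20 * q.re ^ 3 + 5 * q.re := by
    rw [re_pow h1 3, e4, e3]; ring
  have hx := re_lt_one h1 h3
  have k1 := hk 1
  have k2 := hk 2
  have k3 := hk 3
  have k4 := hk 4
  have k5 := hk 5
  rw [pow_one] at k1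
  rw [e2] at k2
  rw [e3] at k3
  rw [e4] at k4
  rw [e5] at k5
  generalize q.re = x at *
  simp only [Re5, not_or] at hR
  obtain ⟨r1, r2, r3, r4, r5⟩ := hR
  have hx1 : x - 1 ≠ 0 := by linarith [hx] |> fun (h : x - 1 < 0) => h.ne
  have hx2 : x + 1 ≠ 0 := fun e => r1 (by linarith)
  refine cover (k1.resolve_right hx.ne) (k2.resolve_right fun e => ?_)
    (k3.resolve_right fun e => ?_) (k4.resolve_right fun e => ?_) (k5.resolve_right fun e => ?_)
  · exact mul_ne_zero hx1 hx2 (by linarith)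
  · have : 2 * x + 1 ≠ 0 := fun e => r2 (by linarith)
    exact mul_ne_zero hx1 (mul_ne_zero this this) (by linarith)
  · exact mul_ne_zero (mul_ne_zero hx1 hx2) (mul_ne_zero r3 r3) (by linarith)
  · have h5 : √5 * √5 = 5 := Real.mul_self_sqrt (by norm_num)
    have : (x - (√5 - 1) / 4) * (x - (-√5 - 1) / 4) ≠ 0 :=
      mul_ne_zero (sub_ne_zero.2 r4) (sub_ne_zero.2 r5)
    have h6 : 4 * x ^ 2 + 2 * x - 1 ≠ 0 := fun e => this (by linarith)
    exact mul_ne_zero hx1 (mul_ne_zero h6 h6) (by linarith)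

theorem tt_refl {a b : V n} {ξ : ℍ[ℝ]} (ha : nq a = 1) (hb : nq b = 1)
    (hξ : Quaternion.normSq ξ = 1) :
    tt b (reflMat a ξ *ᵥ b) = 1 - (2 - 2 * ξ.re) * tt a b * (1 - tt a b) := by
  rw [reflMat_unit ha, tt, ip_sub_right, ip_rs_right, ip_one hb, ← star_ip a b, tt]
  generalize ip a b = c
  have h1 : ∀ z : ℍ[ℝ], Quaternion.normSq (1 - z) = 1 - 2 * z.re + Quaternion.normSq z := by
    intro z
    simp only [Quaternion.normSq_def', Quaternion.re_sub, Quaternion.imI_sub, Quaternion.imJ_sub,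
      Quaternion.imK_sub, Quaternion.re_one, Quaternion.imI_one, Quaternion.imJ_one,
      Quaternion.imK_one]
    ring
  have h2 : ∀ z : ℍ[ℝ], (star c * (z * c)).re = z.re * Quaternion.normSq c := by
    intro z
    simp [Quaternion.normSq_def']
    ring
  rw [h1, h2, map_mul, map_mul, Quaternion.normSq_star, h1, hξ, Quaternion.re_sub,
    Quaternion.re_one]
  ring

theorem re_cases (hW : Std W) (hM : ¬ Mono W) {a : V n} {ξ : ℍ[ℝ]} (h : Rl W a ξ) :
    Re5 ξ.re := by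
  refine (ord_cases h.2.1 (h.fin_order hW) h.2.2.1).resolve_right ?_
  rintro ⟨k, h1, h2⟩
  have hη := h.pow k h2
  generalize ξ ^ k = η at h1 h2 hη
  have h3 := re_lt_one hη.2.1 h2
  let T : Set ℝ := {t | (∃ b c, Rl W b η ∧ Rl W c η ∧ t = tt b c) ∧ 0 < t ∧ t < 1}
  have hT : T.Finite := hW.finite_tt.subset fun t ⟨⟨b, c, hb, hc, e⟩, _⟩ => ⟨b, η, c, η, hb, hc, e⟩
  rcases T.eq_empty_or_nonempty with h0 | h0
  · refine hM (imp hW hη.1 fun w hw => ?_)
    by_contra hc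
    rw [not_or] at hc
    have hb := hη.act hW hw
    have : tt a (w.val *ᵥ a) ∈ T := ⟨⟨_, _, hη, hb, rfl⟩,
      (tt_nonneg _ _).lt_of_ne (Ne.symm hc.1), (tt_le_one hη.1 hb.1).lt_of_ne hc.2⟩
    rw [h0] at this
    exact this
  · obtain ⟨t, ⟨⟨b, c, hb, hc, e⟩, t0, t1⟩, hmax⟩ := Set.exists_max_image T id hT h0
    have e' := tt_refl hb.1 hc.1 hb.2.1
    rw [← e] at e'
    have p1 : 0 < (2 - 2 * η.re) * t * (1 - t) :=
      mul_pos (mul_pos (by linarith) t0) (by linarith)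
    have p2 : 0 < (1 - t) * (1 - (2 - 2 * η.re) * t) :=
      mul_pos (by linarith) (by nlinarith)
    have := hmax _ ⟨⟨_, _, hc, hb.refl hW hc, rfl⟩, by rw [e']; nlinarith, by rw [e']; linarith⟩
    simp only [id, e'] at this
    nlinarith

theorem eq_neg_one_of_re {ξ : ℍ[ℝ]} (h1 : Quaternion.normSq ξ = 1) (h : ξ.re = -1) : ξ = -1 := by
  rw [eq_coe h1 (by rw [h]; norm_num), h]
  simp

theorem order4 (hW : Std W) (hM : ¬ Mono W) (hn : 3 ≤ n) {a : V n} {ξ : ℍ[ℝ]} (h : Rl W a ξ) :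
    ξ.re ≠ 0 := by
  intro h0
  let S : V n → Prop := fun x => ∃ η, Rl W x η ∧ η.re = 0
  have hS : ∀ x, S x → nq x = 1 := fun x ⟨_, hx, _⟩ => hx.1
  have hst : ∀ w ∈ W, ∀ x, S x → S (w.val *ᵥ x) := fun w hw x ⟨η, hx, e⟩ => ⟨η, hx.act hW hw, e⟩
  have hf : ∀ x y, S x → S y → ∃ z, S z ∧ tt y z = 1 - 2 * tt x y * (1 - tt x y) := by
    rintro x y ⟨η, hx, e⟩ ⟨ζ, hy, e'⟩
    refine ⟨_, ⟨ζ, hx.refl hW hy, e'⟩, ?_⟩
    rw [tt_refl hx.1 hy.1 hx.2.1, e]
    ring
  have hbig : ∀ x y, S x → S y → ¬ (1 / 2 < tt x y ∧ tt x y < 1) := by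
    intro x y hx hy hxy
    let T : Set ℝ := {t | (∃ b c, S b ∧ S c ∧ t = tt b c) ∧ 1 / 2 < t ∧ t < 1}
    have hT : T.Finite := hW.finite_tt.subset
      fun t ⟨⟨b, c, ⟨η, hb, _⟩, ⟨ζ, hc, _⟩, e⟩, _⟩ => ⟨b, η, c, ζ, hb, hc, e⟩
    obtain ⟨t, ⟨⟨b, c, hb, hc, e⟩, t0, t1⟩, hmin⟩ :=
      Set.exists_min_image T id hT ⟨_, ⟨x, y, hx, hy, rfl⟩, hxy⟩
    obtain ⟨z, hz, e'⟩ := hf b c hb hc
    rw [← e] at e'
    have p2 : 0 < (1 - t) * (2 * t - 1) := mul_pos (by linarith) (by linarith)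
    have := hmin _ ⟨⟨_, _, hc, hz, rfl⟩, by rw [e']; nlinarith, by rw [e']; nlinarith⟩
    simp only [id, e'] at this
    nlinarith
  have h3 : ∀ x y, S x → S y → tt x y = 0 ∨ tt x y = 1 / 2 ∨ tt x y = 1 := by
    intro x y hx hy
    by_contra hc
    simp only [not_or] at hc
    have t0 := (tt_nonneg x y).lt_of_ne (Ne.symm hc.1)
    have t1 := (tt_le_one (hS x hx) (hS y hy)).lt_of_ne hc.2.2
    obtain ⟨z, hz, e⟩ := hf x y hx hy
    have p1 : 0 < (2 * tt x y - 1) ^ 2 :=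
      sq_pos_of_ne_zero fun e => hc.2.1 (by linarith)
    have p2 := mul_pos t0 (sub_pos.2 t1)
    exact hbig y z hy hz ⟨by rw [e]; nlinarith, by rw [e]; nlinarith⟩
  have hneg : ∀ x, S x → Rl W x (-1) := by
    rintro x ⟨η, hx, e⟩
    have : η * η = -1 := by rw [sq_eq hx.2.1, e]; simp
    rw [← this]
    refine hx.mul hx ?_
    rw [this]
    intro e
    have := congrArg (fun z : ℍ[ℝ] => z.re) e
    norm_num at this
  have ha : S a := ⟨ξ, h, h0⟩
  obtain ⟨b, hb, hab⟩ : ∃ b, S b ∧ tt a b = 1 / 2 := by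
    by_contra hc
    refine hM (imp hW h.1 fun w hw => ?_)
    rcases h3 a _ ha (hst w hw a ha) with e | e | e
    · exact Or.inl e
    · exact absurd ⟨_, hst w hw a ha, e⟩ hc
    · exact Or.inr e
  obtain ⟨v, hv, hv'⟩ := exists_orth (r := 2) (by omega) ![a, b]
  obtain ⟨c1, c2⟩ := comp hW hM S hS hst ⟨a, ha⟩
  have key := c1 (fun x => ip x v = 0 ∧ ∃ x', S x' ∧ tt x x' = 1 / 2 ∧ ip x' v = 0) a ha
    ⟨hv' 0, b, hb, hab, hv' 1⟩ ?_
  · have := c2 v fun x hx => (key x hx).1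
    rw [this, nq_eq_zero.2 rfl] at hv
    exact zero_ne_one hv
  rintro x y hx hy ⟨hxv, x', hx', hxx', hx'v⟩ hxy
  rcases h3 x y hx hy with e | e | e
  · exact absurd (tt_eq_zero.1 e) hxy
  · refine ⟨?_, x, hx, by rw [tt_comm, e], hxv⟩
    obtain ⟨η, hη, eη⟩ := id hx
    have hz : S (reflMat x' (-1) *ᵥ x) := ⟨η, (hneg x' hx').refl hW hη, eη⟩
    have hxz : ip x (reflMat x' (-1) *ᵥ x) = 0 := by
      rw [← tt_eq_zero, tt_refl (hS x' hx') (hS x hx) (by simp), tt_comm x' x, hxx']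
      norm_num
    have hz' := reflMat_unit (hS x' hx') x (-1)
    generalize reflMat x' (-1) *ᵥ x = z at hz hxz hz'
    have hzv : ip z v = 0 := by rw [hz', ip_sub_left, ip_rs_left, hxv, hx'v, mul_zero, sub_zero]
    have q1 : nq (y - rs x (ip x y)) = 1 / 2 := by
      have := nq_proj (a := x) (by rw [hS x hx]; exact one_ne_zero) y
      rw [hS x hx, hS y hy, inv_one, one_smul, one_mul, e] at this
      rw [this]; norm_num
    have q2 : tt z (y - rs x (ip x y)) = tt z y := by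
      rw [tt, ip_sub_right, ip_rs_right, ip_eq_zero_comm.1 hxz, zero_mul, sub_zero, tt]
    rcases h3 z y hz hy with e' | e' | e'
    · exfalso
      have q3 : ip x y = star ((1 - -1) * ip x' x) * ip x' y := by
        rw [← sub_eq_zero, ← ip_rs_left, ← ip_sub_left, ← hz']
        exact tt_eq_zero.1 e'
      have q4 : tt x y = 4 * tt x' x * tt x' y := by
        rw [tt, q3, map_mul, Quaternion.normSq_star, map_mul, tt, tt]
        have : Quaternion.normSq (1 - -1 : ℍ[ℝ]) = 4 := by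
          simp [Quaternion.normSq_def']; norm_num
        rw [this]
      rw [e, tt_comm x' x, hxx'] at q4
      rcases h3 x' y hx' hy with f | f | f <;> rw [f] at q4 <;> norm_num at q4
    · have q3 := eq_rs_of_tt (a := z) (b := y - rs x (ip x y))
        (by rw [hS z hz]; exact one_ne_zero) (by rw [q2, e', hS z hz, q1, one_mul])
      rw [sub_eq_iff_eq_add] at q3
      rw [q3, ip_add_left, ip_rs_left, ip_rs_left, hzv, hxv, mul_zero, mul_zero, add_zero]
    · have := tt_le z (y - rs x (ip x y))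
      rw [q2, e', hS z hz, q1] at this
      norm_num at this
  · have q := eq_rs (hS x hx) (hS y hy) e
    refine ⟨by rw [q, ip_rs_left, hxv, mul_zero], x', hx', ?_, hx'v⟩
    rw [q, tt_rs_left, hxx']
    change tt x y * _ = _
    rw [e, one_mul]

end Pool.Agent.P.MP_97ea17_al.Geo
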