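import Pool.Agent.P.MP_97ea17_al.F.E2
import Pool.Agent.P.MP_97ea17_al.F.G2

/-! Conclusions drawn from a complete list of positions of the roots. -/

namespace Pool.Agent.P.MP_97ea17_al.Geo

open scoped Quaternion Matrix

variable {n m : ℕ} {W : Subgroup (GH n)} {e : ℕ → V n}

namespace E5Aux

theorem ip_zero {x y : V n} (hx : Sp m e x) (hy : Zr m e y) : ip x y = 0 := by
  obtain ⟨c, rfl⟩ := hx
  rw [ip_vc_left]
  exact Finset.sum_eq_zero fun i hi => mul_eq_zero_of_right _ (hy i (Finset.mem_range.1 hi))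

theorem pl_real (x : V n) {r : ℝ} (hr : 0 < r) : Pl (rs x r) x :=
  ⟨r, fun h => hr.ne' (congrArg QuaternionAlgebra.re h), rfl⟩

theorem rat_act {g : Matrix (Fin n) (Fin n) ℍ[ℝ]} (hg : IsU g) (u v : V n) :
    rat (g *ᵥ u) (g *ᵥ v) = rat u v := by
  rw [rat, hg.tt, hg.nq, hg.nq, rat]

theorem pl_of_rat {u v : V n} (hu : u ≠ 0) (hv : v ≠ 0) (h : rat u v = 8) : Pl v u := by
  have h1 := (rat_eq hu hv).1 h
  exact (pl_of_tt hu hv (by linarith)).symm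

theorem vl_cases {s : ℕ} (hs : s < 6) :
    vl s = 0 ∨ vl s = 2 ∨ vl s = 4 ∨ vl s = 3 - √5 ∨ vl s = 3 + √5 ∨ vl s = 8 := by
  interval_cases s <;> simp [vl]

theorem sqrt5 : 2236 / 1000 < √(5 : ℝ) ∧ √(5 : ℝ) < 2237 / 1000 :=
  ⟨Real.lt_sqrt_of_sq_lt (by norm_num), (Real.sqrt_lt' (by norm_num)).2 (by norm_num)⟩

theorem vl_four {s t : ℕ} (hs : s < 6) (ht : t < 6) (h : vl s = 4 * vl t) :
    vl s = 0 ∨ vl s = 8 := by
  obtain ⟨h1, h2⟩ := sqrt5
  rcases vl_cases hs with a | a | a | a | a | a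
  · exact Or.inl a
  rotate_right
  · exact Or.inr a
  all_goals
    exfalso
    rcases vl_cases ht with b | b | b | b | b | b <;> linarith

theorem vl_sum {s t u : ℕ} (hs : s < 6) (ht : t < 6) (hu : u < 6) (h : vl u ≤ 2)
    (h' : vl s + vl t = 9 + vl u / 2) : vl s = 8 ∨ vl t = 8 := by
  obtain ⟨h1, h2⟩ := sqrt5
  have h3 : ∀ k < 6, vl k ≤ 2 ∨ vl k = 4 ∨ vl k = 3 + √5 ∨ vl k = 8 := fun k hk => by
    rcases vl_cases hk with a | a | a | a | a | a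
    exacts [Or.inl (by linarith), Or.inl a.le, Or.inr (Or.inl a), Or.inl (by linarith),
      Or.inr (Or.inr (Or.inl a)), Or.inr (Or.inr (Or.inr a))]
  rcases h3 s hs with a | a | a | a
  rotate_right
  · exact Or.inl a
  all_goals
    rcases h3 t ht with b | b | b | b
    rotate_right
    · exact Or.inr b
    all_goals
      exfalso
      rcases vl_cases hu with c | c | c | c | c | c <;> linarith

/-- The vector with the first three coordinates `x`, `y`, `z` and orthogonal part `v`. -/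
noncomputable def fr (e : ℕ → V n) (v : V n) (x y z : ℍ[ℝ]) : V n :=
  v + (rs (e 0) x + rs (e 1) y + rs (e 2) z)

theorem vc_three (c : ℕ → ℍ[ℝ]) : vc 3 e c = rs (e 0) (c 0) + rs (e 1) (c 1) + rs (e 2) (c 2) := by
  simp [vc, Finset.sum_range_succ]

theorem ip_fr (he : On 3 e) {v : V n} (hv : Zr 3 e v) (x y z : ℍ[ℝ]) :
    ip (e 0) (fr e v x y z) = x ∧ ip (e 1) (fr e v x y z) = y ∧ ip (e 2) (fr e v x y z) = z := by
  simp [fr, ip_add_right, ip_rs_right, hv 0, hv 1, hv 2, he 0 _ 0, he 0 _ 1, he 0 _ 2, he 1 _ 0,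
    he 1 _ 1, he 1 _ 2, he 2 _ 0, he 2 _ 1, he 2 _ 2]

theorem exists_fr (he : On 3 e) (w : V n) : ∃ v x y z, Zr 3 e v ∧ w = fr e v x y z := by
  refine ⟨w - vc 3 e fun i => ip (e i) w, ip (e 0) w, ip (e 1) w, ip (e 2) w, fun i hi => ?_, ?_⟩
  · rw [ip_sub_right, he.ip_e hi, sub_self]
  · rw [fr, vc_three, sub_add_cancel]

theorem refl_fr (he : On 3 e) {v : V n} (hv : Zr 3 e v) (c : ℕ → ℍ[ℝ]) (x y z t : ℍ[ℝ])
    (ht : (nqc 3 c)⁻¹ • (2 * (star (c 0) * x + star (c 1) * y + star (c 2) * z)) = t) :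
    reflMat (vc 3 e c) (-1) *ᵥ fr e v x y z =
      fr e v (x - c 0 * t) (y - c 1 * t) (z - c 2 * t) := by
  obtain ⟨h0, h1, h2⟩ := ip_fr he hv x y z
  have h3 : ip (vc 3 e c) (fr e v x y z) = star (c 0) * x + star (c 1) * y + star (c 2) * z := by
    rw [vc_three, ip_add_left, ip_add_left, ip_rs_left, ip_rs_left, ip_rs_left, h0, h1, h2]
  rw [reflMat_vec, he.nq_vc, h3, sub_neg_eq_add, one_add_one_eq_two, ht, vc_three, add_rs, add_rs,
    rs_rs, rs_rs, rs_rs, fr, fr, rs_sub, rs_sub, rs_sub]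
  abel

theorem half_two (w : ℍ[ℝ]) : (2 : ℝ)⁻¹ • (2 * w) = w := by
  rw [two_mul, ← two_smul ℝ w, smul_smul, inv_mul_cancel₀ two_ne_zero, one_smul]

theorem refl_one (he : On 3 e) {v : V n} (hv : Zr 3 e v) {c : ℕ → ℍ[ℝ]} {u : ℍ[ℝ]}
    (hu : Quaternion.normSq u = 1) (hc : c 0 = 1 ∧ c 1 = -u ∧ c 2 = 0) (x y z : ℍ[ℝ]) :
    reflMat (vc 3 e c) (-1) *ᵥ fr e v x y z = fr e v (star u * y) (u * x) z := by
  obtain ⟨h0, h1, h2⟩ := hc
  have h3 : nqc 3 c = 2 := by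
    simp [nqc, Finset.sum_range_succ, h0, h1, h2, hu, one_add_one_eq_two]
  have h4 : u * star u = 1 := by rw [Quaternion.self_mul_star, hu, Quaternion.coe_one]
  rw [refl_fr he hv c x y z (x - star u * y) (by simp [h3, half_two, h0, h1, h2, sub_eq_add_neg])]
  simp [h0, h1, h2, mul_sub, ← mul_assoc, h4]

theorem refl_two (he : On 3 e) {v : V n} (hv : Zr 3 e v) {c : ℕ → ℍ[ℝ]} {u : ℍ[ℝ]}
    (hu : Quaternion.normSq u = 1) (hc : c 0 = 1 ∧ c 1 = 0 ∧ c 2 = -u) (x y z : ℍ[ℝ]) :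
    reflMat (vc 3 e c) (-1) *ᵥ fr e v x y z = fr e v (star u * z) y (u * x) := by
  obtain ⟨h0, h1, h2⟩ := hc
  have h3 : nqc 3 c = 2 := by
    simp [nqc, Finset.sum_range_succ, h0, h1, h2, hu, one_add_one_eq_two]
  have h4 : u * star u = 1 := by rw [Quaternion.self_mul_star, hu, Quaternion.coe_one]
  rw [refl_fr he hv c x y z (x - star u * z) (by simp [h3, half_two, h0, h1, h2, sub_eq_add_neg])]
  simp [h0, h1, h2, mul_sub, ← mul_assoc, h4]

theorem nq_e (he : On m e) {i : ℕ} (hi : i < m) : nq (e i) = 1 := by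
  rw [nq_eq, he i hi i hi, if_pos rfl]
  rfl

theorem refl_zero (he : On 3 e) {v : V n} (hv : Zr 3 e v) (x y z : ℍ[ℝ]) :
    reflMat (e 0) (-1) *ᵥ fr e v x y z = fr e v (-x) y z := by
  rw [reflMat_unit (nq_e he (by omega)), (ip_fr he hv x y z).1, sub_neg_eq_add, add_mul, one_mul,
    rs_add, fr, fr, rs_neg]
  abel

end E5Aux

open E5Aux

theorem fin_span (hW : Std W) (hM : ¬ Mono W) (he : On m e) {a : V n} (ha : Sg W a)
    (ha' : Sp m e a) (h : ∀ x, Sg W x → Zr m e x ∨ Sp m e x) :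
    m = n ∧ ∀ x, Sg W x → ¬ Zr m e x := by
  obtain ⟨r, hr, hl⟩ := ha.exists_rl
  obtain ⟨h1, h2⟩ := comp hW hM (fun x => Rl W x (-1)) (fun _ hx => hx.1)
    (fun _ hw _ hx => hx.act hW hw) ⟨_, hl⟩
  have h3 := h1 (Sp m e) _ hl (ha'.pl (pl_real a hr)) fun x y _ hy hx hxy =>
    (h y (Sg.of_rl hy)).resolve_left fun hz => hxy (ip_zero hx hz)
  refine ⟨ON.card_eq (e := fun i : Fin m => e i) (fun i j => ?_) fun v hv =>
    h2 v fun x hx => ip_zero (h3 x hx) fun i hi => hv ⟨i, hi⟩, fun x hx hz => ?_⟩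
  · rw [he i i.2 j j.2]
    simp only [Fin.ext_iff]
  · obtain ⟨s, hs, hl'⟩ := hx.exists_rl
    have h4 := ip_zero ((h3 _ hl').pl (pl_real x hs).symm) hz
    exact hx.1 (nq_eq_zero.1 (by rw [nq_eq, h4]; rfl))

theorem fin_grp (hW : Std W) (hM : ¬ Mono W) (h2 : ∀ a ξ, Rl W a ξ → ξ = -1) {D : ℕ}
    {R : List (List ℤ × List (List ℤ))} (hB : Bound (grp m D R)) (hR : ∀ r ∈ R, r.1 = [-2])
    (h0 : R ≠ []) (he : On m e) (h1 : ∀ r ∈ R, Sg W (vc m e fun i => quat D (r.2.getD i [])))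
    (h : ∀ H : Subgroup (GH n), H ≤ W →
      (∀ r ∈ R, Sg H (vc m e fun i => quat D (r.2.getD i []))) →
      ∀ x, Sg W x → Zr m e x ∨ (Sp m e x ∧ Sg H x)) : Bound W := by
  obtain ⟨r0, hr0⟩ := List.exists_mem_of_ne_nil R h0
  obtain ⟨rfl, hz⟩ := fin_span hW hM he (h1 r0 hr0) ⟨_, rfl⟩
    fun x hx => (h W le_rfl h1 x hx).imp_right And.left
  have hf : ON fun i : Fin m => e i := fun i j => by
    rw [he i i.2 j j.2]
    simp only [Fin.ext_iff]
  obtain ⟨g, hg, hgv⟩ := hf.exists_GL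
  have h3 : ∀ r ∈ R, reflMat (vc m e fun i => quat D (r.2.getD i [])) (-1) =
      reflMat (g.val *ᵥ rt m D r) (xi D r) := fun r hr => by
    have h4 : xi D r = -1 := by
      rw [xi, hR r hr]
      ext <;> simp [quat]
    rw [h4, hgv, vec, vc, ← Fin.sum_univ_eq_sum_range
      (fun i => rs (e i) (quat D (r.2.getD i []))) m]
    rfl
  refine bound_of_grp hB hg (fun r hr => h3 r hr ▸ (h1 r hr).2)
    (hW.le_of_refl _ fun w _ a ξ hl hw => ?_)
  obtain rfl := h2 a ξ hl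
  have h4 := h (W ⊓ cj g (grp m D R)) inf_le_left (fun r hr => by
    obtain ⟨h5, u, hu, h6⟩ := h1 r hr
    exact ⟨h5, u, ⟨hu, gen_mem_cj hg hr (h6.trans (h3 r hr))⟩, h6⟩) a (Sg.of_rl hl)
  obtain ⟨-, -, u, hu, h5⟩ := h4.resolve_left (hz a (Sg.of_rl hl))
  exact (Units.ext (h5.trans hw.symm) : u = w) ▸ hu.2

theorem mono_of_axis (hW : Std W) {a : V n} (ha : Sg W a) (h : ∀ x, Sg W x → Ax W a x) :
    Mono W := by
  obtain ⟨r, hr, hl⟩ := ha.exists_rl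
  refine imp hW hl.1 fun w hw => ?_
  have h1 : rat a (w.val *ᵥ a) = 8 * tt (rs a r) (w.val *ᵥ rs a r) := by
    rw [← (pl_real a hr).rat_left, ← (pl_real _ hr).rat_right, ← mulVec_rs, rat,
      (hW.uni w hw).nq, hl.1, mul_one, div_one]
  rcases h _ (ha.act hW hw) with h2 | h2 | ⟨-, z, hz, h2⟩
  · exact Or.inl (by linarith)
  · exact Or.inr (by linarith)
  · rw [← G2Aux.act_inv w z, rat_act (hW.uni w hw), rat_comm] at h2
    rcases h _ (hz.act hW (W.inv_mem hw)) with h3 | h3 | ⟨h3, -⟩ <;> linarith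

theorem axis_root {H : Subgroup (GH n)} (he : On 3 e) {a b c d : ℕ → ℍ[ℝ]}
    (ha : a 0 = 1 ∧ a 1 = -1 ∧ a 2 = 0) (hb : b 0 = 1 ∧ b 1 = ⟨0, -1, 0, 0⟩ ∧ b 2 = 0)
    (hc : c 0 = 1 ∧ c 1 = 0 ∧ c 2 = -1) (hd : d 0 = 1 ∧ d 1 = 0 ∧ d 2 = ⟨0, 0, -1, 0⟩)
    (h1 : Sg H (vc 3 e a)) (h2 : Sg H (vc 3 e b)) (h3 : Sg H (vc 3 e c)) (h4 : Sg H (vc 3 e d)) :
    Sg H (e 0) := by
  obtain ⟨-, A, hA, eA⟩ := h1
  obtain ⟨-, B, hB, eB⟩ := h2
  obtain ⟨-, C, hC, eC⟩ := h3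
  obtain ⟨-, D, hD, eD⟩ := h4
  refine ⟨fun h => ?_, B * (A * (D * (C * (A * (B * (C * D)))))), by
    simp only [H.mul_mem_cancel_left, hA, hB, hC, hD], ext_mulVec fun w => ?_⟩
  · have h5 := nq_e he (show 0 < 3 by omega)
    rw [h, nq_eq_zero.2 rfl] at h5
    exact zero_ne_one h5
  obtain ⟨v, x, y, z, hv, rfl⟩ := exists_fr he w
  obtain ⟨i, hi⟩ : ∃ i : ℍ[ℝ], i = ⟨0, 1, 0, 0⟩ := ⟨_, rfl⟩
  obtain ⟨j, hj⟩ : ∃ j : ℍ[ℝ], j = ⟨0, 0, 1, 0⟩ := ⟨_, rfl⟩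
  have n1 : Quaternion.normSq i = 1 := by simp [hi, Quaternion.normSq_def']
  have n2 : Quaternion.normSq j = 1 := by simp [hj, Quaternion.normSq_def']
  have rA := refl_one he hv (map_one _) ha
  have rB := refl_one he hv n1 ⟨hb.1, hb.2.1.trans (by rw [hi]; ext <;> simp), hb.2.2⟩
  have rC := refl_two he hv (map_one _) hc
  have rD := refl_two he hv n2 ⟨hd.1, hd.2.1, hd.2.2.trans (by rw [hj]; ext <;> simp)⟩
  have e1 : i * star i = 1 := by rw [Quaternion.self_mul_star, n1, Quaternion.coe_one]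
  have e2 : j * star j = 1 := by rw [Quaternion.self_mul_star, n2, Quaternion.coe_one]
  have e3 : star i * star j * i * j = -1 := by
    rw [hi, hj]
    ext <;> simp
  simp only [G2Aux.act_mul, eA, eB, eC, eD, rA, rB, rC, rD, refl_zero he hv, star_one, one_mul,
    ← mul_assoc, e1, e2, e3, neg_mul]

theorem u_zero (hA : Ang W) (he : On 5 e) {z : ℕ → ℍ[ℝ]} (h4 : Sg W (e 4)) (hz : Sg W (vc 5 e z))
    (hz4 : 4 * Quaternion.normSq (z 4) = nqc 5 z) {x : V n} (hx : Sg W x) (h : Zr 4 e x) :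
    Zr 5 e x ∨ Pl x (e 4) := by
  have h1 : ip (vc 5 e z) x = star (z 4) * ip (e 4) x := by
    rw [ip_vc_left, ipc, Finset.sum_range_succ, Finset.sum_eq_zero
      fun i hi => by rw [h i (Finset.mem_range.1 hi), mul_zero], zero_add]
  have h2 := nq_pos hz.1
  have h3 := nq_pos hx.1
  have h5 : rat (e 4) x = 4 * rat (vc 5 e z) x := by
    rw [he.nq_vc, ← hz4] at h2
    have h6 : Quaternion.normSq (z 4) ≠ 0 := by linarith
    rw [rat, rat, tt, tt, h1, map_mul, Quaternion.normSq_star, he.nq_vc, ← hz4,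
      nq_e he (show 4 < 5 by omega)]
    field_simp
  obtain ⟨s, hs, e1⟩ := hA _ _ h4 hx
  obtain ⟨t, ht, e2⟩ := hA _ _ hz hx
  rcases vl_four hs ht (by rw [← e1, ← e2, h5]) with h6 | h6
  · have h7 := (rat_eq h4.1 hx.1).1 (e1.trans h6)
    refine Or.inl fun i hi => ?_
    rcases Nat.lt_succ_iff_lt_or_eq.1 hi with hi | rfl
    · exact h i hi
    · exact tt_eq_zero.1 (by linarith)
  · exact Or.inr (pl_of_rat h4.1 hx.1 (e1.trans h6))

theorem u_type (hA : Ang W) (he : On 5 e) {z : ℕ → ℍ[ℝ]} (h4 : Sg W (e 4)) (hz : Sg W (vc 5 e z))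
    (hz4 : 4 * Quaternion.normSq (z 4) = nqc 5 z) {x : V n} (hx : Sg W x) (h : Mt 4 e z x) :
    Pl x (vc 5 e z) ∨ Pl x (sr (e 4) (vc 5 e z)) := by
  obtain ⟨q, hq, h1, h2⟩ := h
  have hp : Pl (rs x q) x := ⟨q, hq, rfl⟩
  have hy := hx.pl hp
  suffices H : Pl (rs x q) (vc 5 e z) ∨ Pl (rs x q) (sr (e 4) (vc 5 e z)) from
    H.imp hp.symm.trans hp.symm.trans
  rw [← nq_rs] at h2
  simp only [← ip_rs_right] at h1
  generalize rs x q = y at h1 h2 hy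
  have hs := h4.sr hz
  have n4 := nq_e he (show 4 < 5 by omega)
  have hN : 0 < Quaternion.normSq (z 4) := by
    have := nq_pos hz.1
    rw [he.nq_vc] at this
    linarith
  have h3 : nqc 4 z = 3 * Quaternion.normSq (z 4) := by
    rw [nqc, Finset.sum_range_succ] at hz4
    rw [nqc]
    linarith
  have h5 : tt (e 4) y ≤ Quaternion.normSq (z 4) := by
    have h6 := he.bessel y
    rw [nqc, Finset.sum_range_succ, Finset.sum_congr rfl
      fun i hi => by rw [h1 i (Finset.mem_range.1 hi)]] at h6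
    change nqc 4 z + tt (e 4) y ≤ nq y at h6
    linarith
  have h6 : ip (vc 5 e z) y = ((3 * Quaternion.normSq (z 4) : ℝ) : ℍ[ℝ]) +
      star (z 4) * ip (e 4) y := by
    rw [ip_vc_left, ipc, Finset.sum_range_succ, Finset.sum_congr rfl
      fun i hi => by rw [h1 i (Finset.mem_range.1 hi), Quaternion.star_mul_self], ← h3, nqc]
    congr 1
    exact (map_sum (algebraMap ℝ ℍ[ℝ]) _ _).symm
  have h7 : sr (e 4) (vc 5 e z) = vc 5 e z - rs (e 4) (2 * z 4) := by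
    rw [sr, n4, Quaternion.coe_one, rs_one, he.ip_e (show 4 < 5 by omega)]
  have h8 : ip (sr (e 4) (vc 5 e z)) y = ((3 * Quaternion.normSq (z 4) : ℝ) : ℍ[ℝ]) -
      star (z 4) * ip (e 4) y := by
    rw [h7, ip_sub_left, h6, ip_rs_left, two_mul, star_add, add_mul]
    abel
  have h9 : nq (sr (e 4) (vc 5 e z)) = 4 * Quaternion.normSq (z 4) := by
    rw [h7, nq_sub_rs, he.nq_vc, ← hz4, n4, ← star_ip, he.ip_e (show 4 < 5 by omega), two_mul (z 4),
      mul_add, Quaternion.star_mul_self, ← two_smul ℝ (z 4), Quaternion.normSq_smul]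
    simp only [Quaternion.re_add, Quaternion.re_coe]
    ring
  have h10 : ∀ (r : ℝ) (w : ℍ[ℝ]), Quaternion.normSq ((r : ℍ[ℝ]) + w) +
      Quaternion.normSq ((r : ℍ[ℝ]) - w) = 2 * r ^ 2 + 2 * Quaternion.normSq w := fun r w => by
    simp [Quaternion.normSq_def']
    ring
  have h11 := h10 (3 * Quaternion.normSq (z 4)) (star (z 4) * ip (e 4) y)
  rw [← h6, ← h8, map_mul, Quaternion.normSq_star] at h11
  change tt _ _ + tt _ _ = _ + 2 * (_ * tt _ _) at h11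
  rw [← hz4] at h2
  obtain ⟨s, hs', e1⟩ := hA _ _ hz hy
  obtain ⟨t, ht, e2⟩ := hA _ _ hs hy
  obtain ⟨u, hu, e3⟩ := hA _ _ h4 hy
  have h12 : rat (e 4) y ≤ 2 := by
    rw [rat, n4, h2, div_le_iff₀ (by positivity)]
    linarith
  have h13 : rat (vc 5 e z) y + rat (sr (e 4) (vc 5 e z)) y = 9 + rat (e 4) y / 2 := by
    rw [rat, rat, rat, he.nq_vc, ← hz4, h9, n4, h2, ← add_div, ← mul_add, h11]
    field_simp
    ring
  rcases vl_sum hs' ht hu (e3 ▸ h12) (by rw [← e1, ← e2, ← e3, h13]) with h14 | h14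
  · exact Or.inl (pl_of_rat hz.1 hy.1 (e1.trans h14))
  · exact Or.inr (pl_of_rat hs.1 hy.1 (e2.trans h14))

end Pool.Agent.P.MP_97ea17_al.Geo
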