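import Pool.Agent.P.MP_97ea17_al.Chk

/-! Boolean checkers for the classification of root systems. -/

namespace Pool.Agent.P.MP_97ea17_al.Ck

/-- Octal digit. -/
def dg (A i : ℕ) : ℕ := Nat.mod (Nat.shiftRight A (Nat.mul (nat_lit 3) i)) (nat_lit 8)

/-- Byte. -/
def byt (T i : ℕ) : ℕ := Nat.mod (Nat.shiftRight T (Nat.mul (nat_lit 8) i)) (nat_lit 256)

/-- First byte. -/
def b0 (t : ℕ) : ℕ := Nat.mod t (nat_lit 256)

/-- Second byte. -/
def b1 (t : ℕ) : ℕ := Nat.mod (Nat.shiftRight t (nat_lit 8)) (nat_lit 256)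

/-- Third byte. -/
def b2 (t : ℕ) : ℕ := Nat.mod (Nat.shiftRight t (nat_lit 16)) (nat_lit 256)

/-- The remaining bytes. -/
def b3 (t : ℕ) : ℕ := Nat.shiftRight t (nat_lit 24)

/-- The table of admissible triangles. -/
def tT : ℕ := nat_lit 0x20000000000100000000080000000000001000000000000000000000000000000000000002000000000000040000000000000000000000000000000000000000000008000000000010200100010b00000008100606000000000002000a000000001402120e000000000200001000000000000000000000000000000000000000001000000000000000081006060000000801200001130000000200001200000000020c0a160000000000020008000000000000000000000000000000000000000000000000000000000002000a000000000200001200000004100825030700000006061e1e0000000000000204000000000000000000000000000000000000000000000002000000001402120e00000000020c0a160000000006061e1e000000020b13073f1f00000008100002000000000000000000000000000000000000000000000400000000000200001000000000000200080000000000000204000000000810000200000001010101013f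

/-- Lookup in the table. -/
def tb (s t u v : ℕ) : Bool :=
  Nat.beq (Nat.mod (Nat.shiftRight tT (Nat.add (Nat.add s (Nat.mul (nat_lit 8) t))
    (Nat.add (Nat.mul (nat_lit 64) u) (Nat.mul (nat_lit 512) v)))) (nat_lit 2)) (nat_lit 1)

/-- Disjunction. -/
noncomputable def orr (a b : Bool) : Bool := Bool.rec b true a

/-- Negation. -/
noncomputable def nt (a : Bool) : Bool := Bool.rec true false a

/-- Conditional. -/
noncomputable def cnd {α : Type} (c : Bool) (a b : α) : α := Bool.rec (motive := fun _ => α) b a c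

/-- Check `f` on some member of a list. -/
noncomputable def anyL {α : Type} (l : List α) (f : α → Bool) : Bool :=
  List.rec (motive := fun _ => Bool) false (fun x _ ih => Bool.rec ih true (f x)) l

/-- Check `f` on corresponding members of two lists. -/
noncomputable def all2 {α β : Type} (f : α → β → Bool) (l : List α) : List β → Bool :=
  List.rec (motive := fun _ => List β → Bool) (fun _ => true)
    (fun x _ ih l' => List.rec (motive := fun _ => Bool) false
      (fun y ys _ => nd (f x y) (ih ys)) l') l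

/-- Zero. -/
def R4.z : R4 := ⟨nat_lit 0, nat_lit 0, nat_lit 0, nat_lit 0⟩

/-- Hexadecimal digit. -/
def nib (T s : ℕ) : ℕ := Nat.mod (Nat.shiftRight T (Nat.mul (nat_lit 4) s)) (nat_lit 16)

/-- The six values. -/
def wv (s : ℕ) : R4 :=
  ⟨nib (nat_lit 0x833420) s, nat_lit 0, nib (nat_lit 0x10000) s, nib (nat_lit 0x1000) s⟩

/-- Positive part of a coded integer. -/
def dP (f : ℕ) : ℕ := Nat.mul (Nat.div f (nat_lit 2)) (Nat.sub (nat_lit 1) (Nat.mod f (nat_lit 2)))

/-- Negative part of a coded integer. -/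
def dN (f : ℕ) : ℕ := Nat.mul (Nat.div f (nat_lit 2)) (Nat.mod f (nat_lit 2))

/-- A number given by two coded integers. -/
def dD (f g : ℕ) : R4 := ⟨dP f, dN f, dP g, dN g⟩

/-- The coefficient of a term. -/
def dM (t : ℕ) : R4 := dD (Nat.mod (Nat.shiftRight t (nat_lit 8)) (nat_lit 16777216))
  (Nat.shiftRight t (nat_lit 32))

/-- A linear combination of the values of the digits of `A`. -/
noncomputable def lnr (A : ℕ) (r : List ℕ) : R4 :=
  List.rec (motive := fun _ => R4) R4.z
    (fun t _ ih => (R4.mul (nat_lit 5) (dM t) (wv (dg A (b0 t)))).add ih) r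

/-- The constraints of one level. -/
structure Lv where
  /-- symmetries -/
  ss : List (ℕ × List ℕ)
  /-- triangles -/
  ts : List ℕ
  /-- relations -/
  rs : List (List ℕ)

/-- The constraints hold. -/
noncomputable def Lv.ok (v : Lv) (A c : ℕ) : Bool :=
  nd (allL v.ss fun s => Nat.ble c (dg A s.1)) <|
  nd (allL v.ts fun t => tb (b0 t) (dg A (b1 t)) (dg A (b2 t)) (dg A (b3 t))) <|
  allL v.rs fun r => (lnr A r).beq R4.z

/-- Depth first search. -/
noncomputable def dfs (lf : ℕ → Bool) (ls : List Lv) : ℕ → ℕ → Bool :=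
  List.rec (motive := fun _ => ℕ → ℕ → Bool) (fun _ A => lf A)
    (fun v _ ih s A => frc (Nat.add s (nat_lit 3)) fun s' => allN (nat_lit 6) fun c =>
      frc (Nat.add A (Nat.shiftLeft c s)) fun A' => Bool.rec true (ih s' A') (v.ok A' c)) ls

/-- Application of table number `g`. -/
noncomputable def apg (mt : List ℕ) : ℕ → ℕ → ℕ :=
  List.rec (motive := fun _ => ℕ → ℕ → ℕ) (fun _ i => i)
    (fun T _ ih g i => Nat.rec (motive := fun _ => ℕ) (byt T i) (fun j _ => ih j i) g) mt

/-- Application of a word. -/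
noncomputable def apw (mt w : List ℕ) (i : ℕ) : ℕ :=
  List.rec (motive := fun _ => ℕ) i (fun g _ ih => apg mt g ih) w

/-- Lexicographic comparison. -/
noncomputable def lexg (A : ℕ) (f : ℕ → ℕ) (n : ℕ) : ℕ → Bool :=
  Nat.rec (motive := fun _ => ℕ → Bool) (fun _ => false)
    (fun _ ih j => frc (dg A (f j)) fun a => frc (dg A j) fun b =>
      Bool.rec (nd (Nat.beq a b) (frc (Nat.succ j) ih)) true (Nat.blt b a)) n

/-- Treatment of a leaf. -/
noncomputable def lfk {α : Type} (R : ℕ) (mt : List ℕ) (rp : List (ℕ × α))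
    (ds : List (ℕ × List ℕ)) (A : ℕ) : Bool :=
  orr (anyL rp fun p => Nat.beq p.1 A)
    (anyL ds fun p => nd (Nat.beq p.1 A) (lexg A (apw mt p.2) R (nat_lit 0)))

/-- The constraints involve only known digits. -/
noncomputable def stat (R : ℕ) (mt : List ℕ) (ls : List Lv) : ℕ → Bool :=
  List.rec (motive := fun _ => ℕ → Bool) (fun k => Nat.beq k R)
    (fun v _ ih k =>
      nd (allL v.ss fun s => nd (Nat.beq (apw mt s.2 s.1) k) <| nd (Nat.blt s.1 k) <|
        allN s.1 fun i => Nat.beq (apw mt s.2 i) i) <|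
      nd (allL v.ts fun t => nd (Nat.ble (b1 t) k) <| nd (Nat.ble (b2 t) k) (Nat.ble (b3 t) k)) <|
      nd (allL v.rs fun r => allL r fun t => Nat.ble (b0 t) k) (frc (Nat.succ k) ih)) ls

/-- Decoding of a quaternion. -/
def dZ (x : ℕ) : Q4 := ⟨dD (byt x 0) (byt x 4), dD (byt x 1) (byt x 5), dD (byt x 2) (byt x 6),
  dD (byt x 3) (byt x 7)⟩

/-- Decoding of a vector. -/
def dV (c : List ℕ) : List Q4 := c.map dZ

/-- Decoding of a list of vectors. -/
def dL (L : List (List ℕ)) : List (List Q4) := L.map dV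

/-- The roots of a list of generators. -/
def zL (R : List (List ℤ × List (List ℤ))) : List (List Q4) := R.map fun r => r.2.map zQ

/-- Evaluation of a list of vectors. -/
noncomputable def frcL (L : List (List Q4)) : (List (List Q4) → Bool) → Bool :=
  List.rec (motive := fun _ => (List (List Q4) → Bool) → Bool) (fun k => k [])
    (fun v _ ih k => frcQ v fun u => ih fun M => k (u :: M)) L

/-- Coordinate. -/
noncomputable def qt (u : List Q4) (i : ℕ) : Q4 := nth Q4.zero u i

/-- Negative. -/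
noncomputable def Q4.ng (x : Q4) : Q4 := Q4.rec (fun a b c d => ⟨a.neg, b.neg, c.neg, d.neg⟩) x

/-- A real quaternion. -/
def rQ4 (r : R4) : Q4 := ⟨r, R4.z, R4.z, R4.z⟩

/-- One. -/
def R4.o : R4 := ⟨nat_lit 1, nat_lit 0, nat_lit 0, nat_lit 0⟩

/-- Norm. -/
noncomputable def nqR (x : Q4) : R4 := Q4.rec (fun a b c d =>
  ((R4.mul 5 a a).add (R4.mul 5 b b)).add ((R4.mul 5 c c).add (R4.mul 5 d d))) x

/-- Sum over the numbers below `n`. -/
noncomputable def sumR (n : ℕ) (f : ℕ → R4) : R4 :=
  Nat.rec (motive := fun _ => R4) R4.z (fun k ih => (f k).add ih) n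

/-- Inner product. -/
noncomputable def ipL (m : ℕ) (u v : List Q4) : Q4 :=
  sumQ m fun i => Q4.mul 5 (qt u i).cnj (qt v i)

/-- Square of the norm. -/
noncomputable def nqL (m : ℕ) (u : List Q4) : R4 := sumR m fun i => nqR (qt u i)

/-- Not zero. -/
noncomputable def nzR (x : R4) : Bool := nt (x.beq R4.z)

/-- Negative. -/
noncomputable def ngR (x : R4) : Bool := x.frc fun y => R4.rec (fun a b c d =>
  Nat.blt (Nat.add (Nat.mul a 1000000000) (Nat.mul c 2236067978))
    (Nat.add (Nat.mul b 1000000000) (Nat.mul d 2236067977))) y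

/-- Commuting elements. -/
noncomputable def cmQ (x y : Q4) : Bool := (Q4.mul 5 x y).beq (Q4.mul 5 y x)

/-- The vector with coordinates `f`. -/
noncomputable def mkV (m : ℕ) (f : ℕ → Q4) (k : List Q4 → Bool) : Bool :=
  frcQ ((List.range m).map f) k

/-- Reflection. -/
noncomputable def srL (m : ℕ) (u v : List Q4) (k : List Q4 → Bool) : Bool :=
  ((ipL m u v).sm 2).ng.frc fun z => (nqL m u).frc fun N =>
    mkV m (fun i => (Q4.rm 5 N (qt v i)).add (Q4.mul 5 (qt u i) z)) k

/-- Denominator and numerator of the squared cosine. -/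
noncomputable def rtK (m : ℕ) (u v : List Q4) (k : R4 → R4 → Bool) : Bool :=
  (nqL m u).frc fun a => (nqL m v).frc fun b => (ipL m u v).frc fun z =>
    nd (nzR a) <| nd (nzR b) <| (R4.mul 5 a b).frc fun p => ((nqR z).sm 8).frc fun q => k p q

/-- The angle has code `s`. -/
noncomputable def ratL (m : ℕ) (u v : List Q4) (s : ℕ) : Bool :=
  rtK m u v fun p q => q.beq (R4.mul 5 (wv s) p)

/-- The angle is not admissible. -/
noncomputable def badL (m : ℕ) (u v : List Q4) : Bool :=
  rtK m u v fun p q => allN 6 fun s => nt (q.beq (R4.mul 5 (wv s) p))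

/-- The mirror image of `b` in `a` is parallel to `c`. -/
noncomputable def mirL (m : ℕ) (a b c : List Q4) : Bool := srL m a b fun v => ratL m c v 5

/-- A triangle. -/
noncomputable def triL (m : ℕ) (a b c : List Q4) (s : ℕ) : Bool :=
  nd (Nat.blt s 6) <| nd (ratL m a b s) (mirL m a b c)

/-- Successive reflections. -/
noncomputable def wdA (m : ℕ) (B : List (List Q4)) (w : List ℕ) :
    List Q4 → (List Q4 → Bool) → Bool :=
  List.rec (motive := fun _ => List Q4 → (List Q4 → Bool) → Bool) (fun v k => k v)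
    (fun g _ ih v k => srL m (nth [] B g) v fun u => ih u k) w

/-- The vector described by a word. -/
noncomputable def wd (m : ℕ) (B : List (List Q4)) (w : List ℕ) (k : List Q4 → Bool) : Bool :=
  List.rec (motive := fun _ => Bool) false (fun j r _ => wdA m B r (nth [] B j) k) w

/-- The vector `c` is parallel to the vector described by `w`. -/
noncomputable def chkW (m : ℕ) (B : List (List Q4)) (c : List Q4) (w : List ℕ) : Bool :=
  wd m B w fun v => ratL m c v 5

/-- All vectors of `C` are obtained from those of `B`. -/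
noncomputable def chkL (m : ℕ) (B C : List (List Q4)) (ws : List (List ℕ)) : Bool :=
  frcL B fun B' => frcL C fun C' => all2 (chkW m B') C' ws

/-- Linear combination of the `r` columns `M`. -/
noncomputable def mvL (m r : ℕ) (M : List (List Q4)) (c : List Q4) (k : List Q4 → Bool) : Bool :=
  mkV m (fun i => sumQ r fun j => Q4.mul 5 (qt (nth [] M j) i) (qt c j)) k

/-- Change of frame. -/
noncomputable def trW (m : ℕ) (B M C : List (List Q4)) (ws : List (List ℕ)) : Bool :=
  (nqL m (nth [] M 0)).frc fun l => nd (nzR l) <|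
    nd (allN m fun i => allN m fun j =>
      (ipL m (nth [] M i) (nth [] M j)).beq (cnd (Nat.beq i j) (rQ4 l) Q4.zero)) <|
    all2 (fun c w => mvL m m M c fun v => chkW m B v w) C ws

/-- Treatment of a new root. -/
inductive Po where
  | non : Po
  | bad : List ℕ → List ℕ → Po
  | tr : ℕ → List (List ℕ) → List (List ℕ) → Po
  | mem : List ℕ → Po
  | uu : Po

/-- The system `B` is impossible. -/
noncomputable def kil (tg : List (ℕ × List (List Q4))) (m : ℕ) (B : List (List Q4)) : Po → Bool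
  | .bad u v => wd m B u fun a => wd m B v fun b => badL m a b
  | .tr t M ws => nd (Nat.blt 0 m) <| nd (Nat.beq (nth (0, []) tg t).1 m) <|
      frcL (dL M) fun M' => frcL (nth (0, []) tg t).2 fun C => trW m B M' C ws
  | _ => false

/-- Analysis of a list of angles. -/
inductive Hd where
  | neg : ℕ → ℕ → Hd
  | ful : ℕ → ℕ → Hd
  | tri : ℕ → ℕ → ℕ → Hd
  | bes : Hd
  | der : ℕ → ℕ → ℕ → ℕ → ℕ → Hd
  | zer : Hd
  | cx : Hd
  | spn : Hd
  | dig : Hd
  | m1 : List ℕ → ℕ → Hd
  | m2 : List ℕ → ℕ → ℕ → Hd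

/-- The data of a search. -/
structure Sr where
  /-- dimension -/
  m : ℕ
  /-- number of roots -/
  R : ℕ
  /-- quaternionic case -/
  fl : Bool
  /-- complex structure -/
  w : ℕ
  /-- common norm -/
  n0 : ℕ
  /-- denominator -/
  L : ℕ
  /-- roots -/
  rt : List (List ℕ)
  /-- generators and their tables -/
  mv : List (ℕ × ℕ)
  /-- levels -/
  ls : List Lv
  /-- descents -/
  ds : List (ℕ × List ℕ)
  /-- representatives -/
  rp : List (ℕ × Hd)
  /-- dual basis -/
  ce : List (List (List (List ℕ)))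

/-- The complex structure. -/
noncomputable def Sr.om (S : Sr) : Q4 := cnd S.fl (rQ4 R4.o) (dZ S.w)

/-- The scale. -/
noncomputable def Sr.la (S : Sr) : R4 := (nqR S.om).sm (Nat.mul 2 S.L)

/-- A combination of projections. -/
noncomputable def chkM (S : Sr) (Rt : List (List Q4)) (r : List ℕ) (i j : ℕ) (β : Q4) : Bool :=
  nd (allL r fun t => Nat.blt (b0 t) S.R) <| allN S.m fun b => allN (Nat.succ b) fun a =>
    ((List.rec (motive := fun _ => Q4) Q4.zero (fun t _ ih => (Q4.rm 5 (dM t)
      (Q4.mul 5 (qt (nth [] Rt (b0 t)) a) (qt (nth [] Rt (b0 t)) b).cnj)).add ih) r).sm 8).beq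
    (((cnd (nd (Nat.beq a i) (Nat.beq b j)) β Q4.zero).add
      (cnd (nd (Nat.beq a j) (Nat.beq b i)) β.cnj Q4.zero)).sm S.n0)

/-- Norms and generators. -/
noncomputable def Sr.c1 (S : Sr) : Bool :=
  frcL (dL S.rt) fun Rt => nd (Nat.blt 0 S.m) <| nd (Nat.blt 0 S.n0) <|
    nd (Nat.beq Rt.length S.R) <| nd (nzR S.la) <|
    nd (orr S.fl (S.om.a.beq R4.z)) <|
    nd (allL Rt fun c => nd (Nat.ble c.length S.m) <| nd ((nqL S.m c).beq (R4.o.sm S.n0)) <|
      orr S.fl (allN S.m fun i => cmQ (qt c i) S.om)) <|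
    allL S.mv fun g => nd (Nat.blt g.1 S.R) <| allN S.R fun k => nd (Nat.blt (byt g.2 k) S.R) <|
      mirL S.m (nth [] Rt g.1) (nth [] Rt k) (nth [] Rt (byt g.2 k))

/-- Triangles. -/
noncomputable def Sr.c2 (S : Sr) : Bool :=
  frcL (dL S.rt) fun Rt => allL S.ls fun v => allL v.ts fun t =>
    triL S.m (nth [] Rt (b1 t)) (nth [] Rt (b2 t)) (nth [] Rt (b3 t)) (b0 t)

/-- Relations. -/
noncomputable def Sr.c3 (S : Sr) : Bool :=
  frcL (dL S.rt) fun Rt => allL S.ls fun v => allL v.rs fun r => chkM S Rt r 0 0 Q4.zero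

/-- The certificate for an entry. -/
noncomputable def Sr.en (S : Sr) (i j t : ℕ) : List ℕ := nth [] (nth [] (nth [] S.ce j) i) t

/-- The dual basis. -/
noncomputable def Sr.c4 (S : Sr) : Bool :=
  frcL (dL S.rt) fun Rt => allN S.m fun j => allN (Nat.succ j) fun i =>
    nd (chkM S Rt (S.en i j 0) i j ((rQ4 R4.o).sm S.L)) <|
    cnd S.fl (nd (chkM S Rt (S.en i j 1) i j (Q4.sm S.L ⟨R4.z, R4.o, R4.z, R4.z⟩)) <|
      nd (chkM S Rt (S.en i j 2) i j (Q4.sm S.L ⟨R4.z, R4.z, R4.o, R4.z⟩)) <|
        chkM S Rt (S.en i j 3) i j (Q4.sm S.L ⟨R4.z, R4.z, R4.z, R4.o⟩))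
      (chkM S Rt (S.en i j 1) i j (S.om.sm S.L))

/-- The search. -/
noncomputable def Sr.c5 (S : Sr) : Bool :=
  nd (stat S.R (S.mv.map Prod.snd) S.ls 0) <|
    dfs (lfk S.R (S.mv.map Prod.snd) S.rp S.ds) S.ls (nat_lit 0) (nat_lit 0)

/-- The known part of an entry above the diagonal. -/
noncomputable def Sr.x0 (S : Sr) (A i j : ℕ) : Q4 :=
  cnd S.fl ⟨lnr A (S.en i j 0), lnr A (S.en i j 1), lnr A (S.en i j 2), lnr A (S.en i j 3)⟩
    ((rQ4 (R4.mul 5 (lnr A (S.en i j 0)) (nqR S.om))).add (Q4.rm 5 (lnr A (S.en i j 1)) S.om))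

/-- Entry of a Hermitian matrix. -/
noncomputable def xe (X : List (List Q4)) (i j : ℕ) : Q4 :=
  cnd (Nat.ble i j) (qt (nth [] X j) i) (qt (nth [] X i) j).cnj

/-- Principal minor. -/
noncomputable def mnr (X : List (List Q4)) (i j : ℕ) : R4 :=
  (R4.mul 5 (xe X i i).a (xe X j j).a).add (nqR (xe X i j)).neg

/-- The angle between root `c` and the mirror image of root `b` has code `b2 p`. -/
noncomputable def drv (S : Sr) (Rt : List (List Q4)) (A b c p : ℕ) : Bool :=
  nd (Nat.blt c S.R) <| nd (Nat.blt (b1 p) S.R) <| nd (Nat.blt (b2 p) 6) <|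
  nd (triL S.m (nth [] Rt b) (nth [] Rt c) (nth [] Rt (b1 p)) (b0 p)) <|
  ((((wv (b2 p)).sm 2).add ((wv (dg A c)).sm 2)).add (R4.mul 5 (wv (b0 p)) (wv (dg A b)))).beq
    ((((wv (b0 p)).sm 2).add (R4.mul 5 (wv (dg A b)) (wv (dg A c)))).add
      ((wv (dg A (b1 p))).sm 2))

/-- Verification of the analysis. -/
noncomputable def chkH (S : Sr) (Rt : List (List Q4)) (A : ℕ) (X : List (List Q4)) : Hd → Bool
  | .neg i j => nd (Nat.blt i S.m) <| nd (Nat.blt j S.m) <| ngR (mnr X i j)
  | .ful i j => nd (Nat.blt i S.m) <| nd (Nat.blt j S.m) <| nd S.fl <| nzR (mnr X i j)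
  | .tri i j k => nd (Nat.blt i S.m) <| nd (Nat.blt j S.m) <| nd (Nat.blt k S.m) <|
      ((Q4.mul 5 (xe X i j) (xe X j k)).add (Q4.rm 5 (xe X j j).a (xe X i k)).ng).frc fun z =>
        (mnr X i j).frc fun p => (mnr X j k).frc fun q => nt ((nqR z).beq (R4.mul 5 p q))
  | .bes => ngR (S.la.add (sumR S.m fun i => (xe X i i).a).neg)
  | .der b t p q r => nd (Nat.blt b S.R) <|
      nd (triL S.m (nth [] Rt (b1 t)) (nth [] Rt (b2 t)) (nth [] Rt (b3 t)) (b0 t)) <|
      nd (drv S Rt A b (b1 t) p) <| nd (drv S Rt A b (b2 t) q) <| nd (drv S Rt A b (b3 t) r) <|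
      nt (tb (b0 t) (b2 p) (b2 q) (b2 r))
  | .zer => allN S.m fun i => (xe X i i).a.beq R4.z
  | .cx => allN S.m fun i => allN S.m fun j => (mnr X i j).beq R4.z
  | .spn => (sumR S.m fun i => (xe X i i).a).beq S.la
  | .dig => nd (Nat.ble 3 S.R) <| allN 3 fun k => orr (Nat.beq (dg A k) 0) <|
      orr (Nat.beq (dg A k) 5) <| nd (Nat.beq (dg A k) 2) <|
        nt (allN S.R fun j => nt (Nat.beq (dg A j) 1))
  | .m1 y j => frcQ (dV y) fun Y => (nqL (Nat.succ S.m) Y).frc fun N => S.la.frc fun l =>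
      nd (nzR N) <| nd (Nat.blt j S.m) <| nd (nzR (nqR (qt Y j))) <| allN S.m fun i =>
        nd ((Q4.rm 5 N (xe X i j)).beq (Q4.rm 5 l (Q4.mul 5 (qt Y i) (qt Y j).cnj))) <|
          (R4.mul 5 N (xe X i i).a).beq (R4.mul 5 l (nqR (qt Y i)))
  | .m2 y i j => frcQ (dV y) fun Y => (nqL (Nat.succ S.m) Y).frc fun N => S.la.frc fun l =>
      S.om.frc fun w => nd (nzR N) <| nd (Nat.blt i S.m) <| nd (Nat.blt j S.m) <| nd (nt S.fl) <|
        nd ((Q4.mul 5 (qt Y i) (qt Y j).cnj).frc fun z => nt (cmQ z w)) <|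
        allN S.m fun b => allN (Nat.succ b) fun a =>
          ((Q4.rm 5 N (xe X a b)).add (Q4.rm 5 l (Q4.mul 5 (qt Y a) (qt Y b).cnj)).ng).frc fun E =>
            ((Q4.mul 5 E w).add (Q4.mul 5 w E)).beq Q4.zero

/-- The representatives. -/
noncomputable def Sr.c6 (S : Sr) : Bool :=
  frcL (dL S.rt) fun Rt => allL S.rp fun p =>
    frcL ((List.range S.m).map fun j => (List.range (Nat.succ j)).map fun i => S.x0 p.1 i j)
      fun X => chkH S Rt p.1 X p.2

/-- The data of a state. -/
structure Sa where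
  /-- dimension -/
  k : ℕ
  /-- further roots -/
  ex : List (List Q4)
  /-- excluded systems -/
  tg : List (ℕ × List (List Q4))
  /-- allowed outcomes -/
  f : ℕ
  /-- distinguished root -/
  z : List ℕ
  /-- treatments -/
  ps : List Po

/-- Outcome number `i` is allowed. -/
def Sa.al (T : Sa) (i : ℕ) : Bool := Nat.beq (nib T.f i) 1

/-- The extended system is impossible. -/
noncomputable def kix (S : Sr) (T : Sa) (B : List (List Q4)) (y : List ℕ) (p : Po) : Bool :=
  frcQ (dV y) fun Y => cnd (Nat.ble y.length S.m) (kil T.tg T.k (Y :: B) p) <|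
    nd (Nat.beq T.k S.m) <| nd (nzR (nqR (qt Y S.m))) <|
      nd (allL B fun c => Nat.ble c.length S.m) <| kil T.tg (Nat.succ S.m) (Y :: B) p

/-- Verification of the treatment. -/
noncomputable def chkP (S : Sr) (T : Sa) (B : List (List Q4)) : Hd → Po → Bool
  | .zer, _ => T.al 0
  | .cx, _ => T.al 1
  | .spn, _ => T.al 2
  | .dig, _ => T.al 3
  | .m1 y _, .mem w => nd (T.al 4) <| nd (Nat.ble y.length S.m) <|
      frcQ (dV y) fun Y => chkW T.k B Y w
  | .m1 y _, .uu => nd (T.al 5) (eqL y T.z)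
  | .m1 y _, p => kix S T B y p
  | .m2 y _ _, p => nd (Nat.beq T.k S.m) <| nd (Nat.beq T.ex.length 0) <| kix S T B y p
  | _, _ => true

/-- Verification of a state. -/
noncomputable def Sa.ok (T : Sa) (S : Sr) : Bool :=
  nd (Nat.ble S.m T.k) <| frcL (dL S.rt ++ T.ex) fun B =>
    all2 (fun h p => chkP S T B h.2 p) S.rp T.ps

/-- A model of a triangle. -/
noncomputable def chkS (m s t u v : ℕ) (M C : List (List Q4)) : Bool :=
  frcL M fun M => frcL C fun C => nd (ratL m (nth [] M 0) (nth [] M 1) s) <|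
    nd (ratL m (nth [] M 0) (nth [] M 2) t) <| nd (ratL m (nth [] M 1) (nth [] M 2) u) <|
    nd (srL m (nth [] M 0) (nth [] M 1) fun z => ratL m z (nth [] M 2) v) <|
    nd (nzR (wv s)) <| nd (nzR (wv t)) <| nd (Nat.beq M.length 3) <|
    allN m fun i => mvL m 3 M (nth [] C i) fun z =>
      allN m fun j => cnd (Nat.beq j i) (nzR (nqR (qt z j))) ((qt z j).beq Q4.zero)

end Pool.Agent.P.MP_97ea17_al.Ck
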