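import Pool.Agent.P.MP_97ea17_al.S1
import Pool.Agent.P.MP_97ea17_al.DQ
import Pool.Agent.P.MP_97ea17_al.DS2
import Pool.Agent.P.MP_97ea17_al.DS3
import Pool.Agent.P.MP_97ea17_al.DU

/-! The bound for the exceptional groups of rank at least three. -/

namespace Pool.Agent.P.MP_97ea17_al.Geo

open Ck

theorem bd_Q : Bound (grp 3 5 rQ) :=
  DQ.z.bound Nat.prime_five DQ.h0 DQ.h1 DQ.hr DQ.h2 DQ.h3 DQ.h4 DQ.h5 DQ.h6 DQ.h7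

theorem bd_R : Bound (grp 3 5 rR) :=
  DR.z.bound Nat.prime_five DR.h0 DR.h1 DR.hr DR.h2 DR.h3 DR.h4 DR.h5 DR.h6 DR.h7

theorem bd_S2 : Bound (grp 4 2 rS2) :=
  DS2.z.bound Nat.prime_two DS2.h0 DS2.h1 DS2.hr DS2.h2 DS2.h3 DS2.h4 DS2.h5 DS2.h6 DS2.h7

theorem bd_S3 : Bound (grp 4 2 rS3) :=
  DS3.z.bound Nat.prime_two DS3.h0 DS3.h1 DS3.hr DS3.h2 DS3.h3 DS3.h4 DS3.h5 DS3.h6 DS3.h7

theorem bd_T : Bound (grp 4 5 rT) :=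
  DT.z.bound Nat.prime_five DT.h0 DT.h1 DT.hr DT.h2 DT.h3 DT.h4 DT.h5 DT.h6 DT.h7

theorem bd_U : Bound (grp 5 2 rU) :=
  DU.z.bound Nat.prime_two DU.h0 DU.h1 DU.hr DU.h2 DU.h3 DU.h4 DU.h5 DU.h6 DU.h7

theorem bd_S1 : Bound (grp 4 2 rS1) := bound_S1

end Pool.Agent.P.MP_97ea17_al.Geo
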