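import Pool.Agent.P.MP_97ea17_al.F.X0

/-! Data and kernel checks. -/

namespace Pool.Agent.P.MP_97ea17_al.Ck

set_option maxRecDepth 100000
set_option exponentiation.threshold 100000
set_option linter.all false

def rtA : List (List ℕ) := [[2, 2], [2, 3], [0, 514], [514], [2, 768], [2, 512]]

def lsA : List Lv := [⟨[], [], []⟩, ⟨[(nat_lit 0, [1])], [nat_lit 16842752], []⟩, ⟨[], [nat_lit 16777730],
    []⟩, ⟨[(nat_lit 2, [0])], [nat_lit 50462722], [[nat_lit 771, nat_lit 512, nat_lit 513, nat_lit 770]]⟩,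
    ⟨[], [nat_lit 16778242, nat_lit 50463746], []⟩, ⟨[], [nat_lit 84148226, nat_lit 16778498,
    nat_lit 84148994], [[nat_lit 773, nat_lit 512, nat_lit 513, nat_lit 772]]⟩]

def dsA : List (ℕ × List ℕ) := [(nat_lit 66121, [0]), (nat_lit 0x28492, [0])]

def rpA : List (ℕ × Hd) := [(nat_lit 0, .zer), (nat_lit 37449, .m2 [2, 0x20000, 514] 0 1),
    (nat_lit 8777, .m1 [2, 768, 514] 0), (nat_lit 37001, .m1 [0, 2, 2] 1), (nat_lit 37442, .m1 [2,
    2, 514] 0), (nat_lit 70282, .m2 [4, 0x2000002000202, 4] 0 1), (nat_lit 41610, .m2 [4,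
    0x2000002000302, 4] 0 1), (nat_lit 0x2328a, .m2 [4, 0x20002020002, 4] 0 1), (nat_lit 0x1c28a,
    .m2 [4, 0x30002020002, 4] 0 1), (nat_lit 71434, .m2 [0x20200000303, 0x2020000020200, 1028] 0
    1), (nat_lit 42762, .m2 [0x20200000303, 0x2000200020002, 1028] 0 1), (nat_lit 74898, .spn),
    (nat_lit 21650, .spn), (nat_lit 74066, .spn), (nat_lit 0x192cb, .m2 [0x200000002, 0x2020303,
    0x200000006] 0 1), (nat_lit 45771, .m2 [0x200000002, 0x2020203, 0x200000006] 0 1), (nat_lit 0x2130c,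
    .m2 [0x200000003, 0x2020202, 0x300000006] 0 1), (nat_lit 49932, .m2 [0x200000003, 0x2020302,
    0x300000006] 0 1), (nat_lit 70300, .m2 [4, 0x202020200, 4] 0 1), (nat_lit 41628, .m2 [4,
    0x202020300, 4] 0 1), (nat_lit 74885, .spn)]

def ceA : List (List (List (List ℕ))) := [[[[nat_lit 1027], []]], [[[nat_lit 512, nat_lit 769],
    [nat_lit 516, nat_lit 773]], [[nat_lit 1026], []]]]

def sA : Sr := ⟨2, 6, false, 512, 2, 8, rtA, [(0, nat_lit 0x40502030100), (2, nat_lit 0x40503020001)],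
    lsA, dsA, rpA, ceA⟩

theorem sA_1 : sA.c1 = true := by decide +kernel

theorem sA_2 : sA.c2 = true := by decide +kernel

theorem sA_3 : sA.c3 = true := by decide +kernel

theorem sA_4 : sA.c4 = true := by decide +kernel

theorem sA_5 : sA.c5 = true := by decide +kernel

theorem sA_6 : sA.c6 = true := by decide +kernel

def aA : Sa := ⟨2, [], [(3, gC)], 0x101, [], [.non, .tr 0 [[0, 0, 0x3030203], [0x20300,
    0x2000003], [0x3000002, 0x30200]] [[0], [0, 1, 3], [1]], .tr 0 [[0, 0, 771], [2, 768], [512,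
    3]] [[0], [0, 1, 3], [1]], .tr 0 [[2], [0, 2], [0, 0, 2]] [[2], [5], [0, 3]], .tr 0 [[0, 0,
    771], [2, 2], [2, 3]] [[0], [0, 3, 5], [3]], .tr 0 [[2], [0, 2], [0, 0, 2]] [[2], [5], [3, 0,
    1]], .tr 0 [[2], [0, 2], [0, 0, 2]] [[2], [5], [3, 0, 1]], .tr 0 [[2], [0, 2], [0, 0, 2]]
    [[2], [5], [3, 0, 1]], .tr 0 [[2], [0, 2], [0, 0, 2]] [[2], [5], [3, 0, 1]], .tr 0
    [[0x300020003040600, 0x200020402040604, 0x30205000702], [0x2040305020407, 0x3000305030007,
    0x30300040307], [0x300020003040600, 0x200030002050700, 0x5020204050602]] [[0], [1], [0, 3, 0,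
    6]], .tr 0 [[0x3020004030309, 0x3020005030300, 0x20305000202], [0x200000302050002,
    0x200000302040902, 0x20200040302], [0x2030004020200, 0x3020005030300, 0x30204000606]] [[0],
    [1], [0, 4, 0, 5]], .non, .non, .non, .tr 0 [[0x300020002000705, 0x3000200020502,
    0x30304000703], [0x300020002000204, 0x2050200030002, 0x20204000302], [0x200030006000304,
    0x3000200020502, 0x20205000307]] [[0], [0, 1, 3], [3, 0, 6]], .tr 0 [[0x2030005070200,
    0x200000202050003, 0x303000003070400], [0x2030004020200, 0x205000302000002,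
    0x202000002030400], [0x3020004030600, 0x200000202050003, 0x202000007030500]] [[0], [0, 1, 3],
    [3, 0, 5]], .tr 0 [[0x300030003000705, 0x3000300030502, 0x30304000602], [0x300030003000204,
    0x2040300020002, 0x20204000203], [0x200020007000304, 0x3000300030502, 0x20205000206]] [[0],
    [0, 1, 3], [3, 0, 6]], .tr 0 [[0x3030005070300, 0x300000202050002, 0x303000002060400],
    [0x3030004020300, 0x304000302000003, 0x202000003020400], [0x2020004030700, 0x300000202050002,
    0x202000006020500]] [[0], [0, 1, 3], [3, 0, 5]], .tr 0 [[2], [0, 2], [0, 0, 2]] [[2], [5], [3,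
    0, 1]], .tr 0 [[2], [0, 2], [0, 0, 2]] [[2], [5], [3, 0, 1]], .non]⟩

theorem aA_ok : aA.ok sA = true := by decide +kernel

def m2222 : List (List Q4) := dL [[2, 2], [0, 514], [2, 768]]

theorem m2222_s : chkS 2 2 2 2 2 m2222 (dL [[514, 3], [0, 2]]) = true := by decide +kernel

theorem m2222_g : chkL 2 m2222 (dL sA.rt ++ aA.ex) [[0], [0, 1], [1], [1, 0], [2], [2, 0]] = true
    := by decide +kernel

end Pool.Agent.P.MP_97ea17_al.Ck
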