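import Pool.Agent.P.MP_97ea17_al.F.X0

/-! Data and kernel checks. -/

namespace Pool.Agent.P.MP_97ea17_al.Ck

set_option maxRecDepth 100000
set_option exponentiation.threshold 100000
set_option linter.all false

def rtC : List (List ℕ) := [[0, 2, 2], [0, 2, 3], [0, 2, 768], [0, 2, 512], [2, 3], [2, 0, 2], [2,
    768], [2, 512], [2, 2], [2, 0, 768], [2, 0, 512], [2, 0, 3]]

def lsC : List Lv := [⟨[], [], []⟩, ⟨[(nat_lit 0, [1])], [nat_lit 16842752], []⟩, ⟨[(nat_lit 0,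
    [0, 2, 1, 0])], [nat_lit 16777730], []⟩, ⟨[(nat_lit 0, [0, 1, 2, 0]), (nat_lit 2, [2])],
    [nat_lit 50462722], [[nat_lit 771, nat_lit 512, nat_lit 513, nat_lit 770]]⟩, ⟨[(nat_lit 0, [0,
    1, 0])], [], []⟩, ⟨[(nat_lit 0, [2, 1, 0])], [nat_lit 84148225], []⟩, ⟨[(nat_lit 0, [2, 0,
    1]), (nat_lit 4, [0, 1, 2, 1, 2, 0, 1, 2])], [nat_lit 100991489], []⟩, ⟨[(nat_lit 0, [2, 0]),
    (nat_lit 4, [0, 1, 0, 2, 1, 0, 2, 0])], [nat_lit 117834754, nat_lit 117768961], []⟩,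
    ⟨[(nat_lit 0, [1, 0]), (nat_lit 4, [1, 2, 1, 2])], [nat_lit 134481410, nat_lit 134481666,
    nat_lit 134545665], [[nat_lit 776, nat_lit 518, nat_lit 519, nat_lit 772]]⟩, ⟨[(nat_lit 0, [0,
    1])], [nat_lit 151257601, nat_lit 151388417, nat_lit 151453697, nat_lit 151520001], []⟩,
    ⟨[(nat_lit 0, [0])], [nat_lit 168363266, nat_lit 168165377, nat_lit 168231169, nat_lit 168296961],
    []⟩, ⟨[(nat_lit 0, [1, 2, 0])], [nat_lit 184879618, nat_lit 185008641, nat_lit 168364802],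
    [[nat_lit 779, nat_lit 521, nat_lit 522, nat_lit 773]]⟩]

def dsC : List (ℕ × List ℕ) := [(nat_lit 0x248008249, [1]), (nat_lit 0x48944a242, [0]), (nat_lit 0x45128a242,
    [0, 1]), (nat_lit 0x48924928a, [0, 2]), (nat_lit 0x45124928a, [0, 1, 2]), (nat_lit 0x28925128a,
    [1, 2, 0, 1]), (nat_lit 0x25125128a, [0, 2, 1, 2]), (nat_lit 0x49125128a, [0]), (nat_lit 0x44928228a,
    [1, 2, 1, 0]), (nat_lit 0x48824a28a, [1, 0, 2, 1, 0]), (nat_lit 0x24944a28a, [0, 1, 2, 1, 0,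
    2, 1]), (nat_lit 0x24a48a28a, [1, 0]), (nat_lit 0x490010492, [1]), (nat_lit 0x489249492, [1]),
    (nat_lit 0x451249492, [1]), (nat_lit 0x289251492, [1, 2]), (nat_lit 0x251251492, [1]),
    (nat_lit 0x491251492, [1]), (nat_lit 0x24944a492, [1, 2]), (nat_lit 0x4892492cb, [1, 2, 1,
    2]), (nat_lit 0x4512492cb, [1, 2, 1, 2]), (nat_lit 0x2892512cb, [0, 1, 2, 0, 1]), (nat_lit 0x2512512cb,
    [0, 2, 1, 0, 2]), (nat_lit 0x4912512cb, [0, 1, 2, 0, 1]), (nat_lit 0x24944a2cb, [0, 1, 0, 2,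
    1, 0, 2, 0]), (nat_lit 0x48924930c, [1, 2, 1, 2]), (nat_lit 0x6c924930c, [1, 2, 1, 2]),
    (nat_lit 0x45124930c, [1, 2, 1, 2]), (nat_lit 0x65924930c, [1, 2, 1, 2]), (nat_lit 0x28925130c,
    [0, 1, 2, 0, 1]), (nat_lit 0x25125130c, [0, 2, 1, 0, 2]), (nat_lit 0x49125130c, [0, 1, 2, 0,
    1]), (nat_lit 0x2c925930c, [0, 1, 2, 0, 1]), (nat_lit 0x25925930c, [0, 2, 1, 0, 2]), (nat_lit 0x24944a30c,
    [0, 1, 0, 2, 1, 0, 2, 0]), (nat_lit 0x6c944a30c, [0, 1, 2, 0, 1]), (nat_lit 0x65944a30c, [1,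
    0, 2, 1, 0]), (nat_lit 0x6c928a30c, [0, 1, 2, 0, 1]), (nat_lit 0x65928a30c, [1, 0, 2, 1, 0]),
    (nat_lit 0x6ca48a30c, [1, 2, 1, 2]), (nat_lit 0x65a48a30c, [1, 2, 1, 2]), (nat_lit 0x2c945a30c,
    [0, 1, 2, 0, 1]), (nat_lit 0x25945a30c, [0, 2, 1, 0, 2]), (nat_lit 0x2c929a30c, [0, 1, 2, 0,
    1]), (nat_lit 0x25929a30c, [0, 2, 1, 0, 2]), (nat_lit 0x2ca49a30c, [0, 1, 2, 0, 1]), (nat_lit 0x25a49a30c,
    [0, 2, 1, 0, 2]), (nat_lit 0x24964b30c, [0, 1, 0, 2, 1, 0, 2, 0]), (nat_lit 0x48964b30c, [0,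
    1, 0, 2, 1, 0, 2, 0]), (nat_lit 0x45164b30c, [0, 1, 0, 2, 1, 0, 2, 0]), (nat_lit 0x4892cb30c,
    [0, 1, 2, 1, 2, 0, 1, 2]), (nat_lit 0x25165330c, [0, 1, 0, 2, 1, 0, 2, 0]), (nat_lit 0x49165330c,
    [0, 1, 0, 2, 1, 0, 2, 0]), (nat_lit 0x48924929c, [1, 2, 1, 2]), (nat_lit 0x45124929c, [1, 2,
    1, 2]), (nat_lit 0x28925129c, [0, 1, 2, 1, 2, 0, 1, 2]), (nat_lit 0x24944a29c, [0, 1, 0, 2, 1,
    0, 2, 0])]

def rpC : List (ℕ × Hd) := [(nat_lit 0, .cx), (nat_lit 0x1241249, .cx), (nat_lit 0x249249249, .tri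
    0 1 2), (nat_lit 0x249249242, .m2 [2, 0x20000, 0x20000, 2] 0 1), (nat_lit 0x448242242, .cx),
    (nat_lit 0x24924928a, .tri 0 1 2), (nat_lit 0x28144a28a, .m2 [4, 0x2000002000203, 1024] 0 1),
    (nat_lit 0x24928a28a, .tri 0 1 2), (nat_lit 0x249249492, .m2 [0, 2, 0x20000] 1 2), (nat_lit 0x2482492,
    .cx), (nat_lit 0x24928a492, .bes), (nat_lit 0x24a48a492, .bes), (nat_lit 0x2492492cb, .tri 0 1
    2), (nat_lit 0x24928a2cb, .tri 0 1 2), (nat_lit 0x24a48a2cb, .neg 0 2), (nat_lit 0x24924930c,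
    .tri 0 1 2), (nat_lit 0x24928a30c, .bes), (nat_lit 0x24a48a30c, .bes), (nat_lit 0x2492cb30c,
    .neg 0 1), (nat_lit 0x4512cb30c, .tri 0 1 2), (nat_lit 0x28965330c, .tri 0 1 2), (nat_lit 0x2892d330c,
    .m2 [0x20200000303, 0x40400, 0x300020003000200] 0 1), (nat_lit 0x2512d330c, .m2
    [0x20200000303, 0x40400, 0x2000200020002] 0 1), (nat_lit 0x4912d330c, .bes), (nat_lit 0x24924929c,
    .tri 0 1 2), (nat_lit 0x25125129c, .m2 [4, 0x40000, 0x2000003000302] 0 1), (nat_lit 0x49125129c,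
    .neg 1 2), (nat_lit 0x24928a29c, .m2 [4, 0x2000002000303, 0x40000] 0 1), (nat_lit 0x24a48a29c,
    .neg 1 2), (nat_lit 0x88825a29c, .m2 [4, 5, 0x302020200] 0 2), (nat_lit 0x44b28429c, .m2 [4,
    0x302020300, 5] 0 1), (nat_lit 0x249249485, .cx)]

def ceC : List (List (List (List ℕ))) := [[[[nat_lit 516, nat_lit 517, nat_lit 520, nat_lit 768,
    nat_lit 523, nat_lit 769], []]], [[[nat_lit 772, nat_lit 520], [nat_lit 518, nat_lit 775]],
    [[nat_lit 512, nat_lit 513, nat_lit 516, nat_lit 773, nat_lit 520, nat_lit 779], []]],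
    [[[nat_lit 517, nat_lit 779], [nat_lit 521, nat_lit 778]], [[nat_lit 512, nat_lit 769],
    [nat_lit 514, nat_lit 771]], [[nat_lit 512, nat_lit 513, nat_lit 772, nat_lit 517, nat_lit 776,
    nat_lit 523], []]]]

def sC : Sr := ⟨3, 12, false, 512, 2, 8, rtC, [(6, nat_lit 0x3000104070602080b05090a), (2, nat_lit 0x708040a0b05060903020001),
    (1, nat_lit 0x40706050a09080b02030100)], lsC, dsC, rpC, ceC⟩

theorem sC_1 : sC.c1 = true := by decide +kernel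

theorem sC_2 : sC.c2 = true := by decide +kernel

theorem sC_3 : sC.c3 = true := by decide +kernel

theorem sC_4 : sC.c4 = true := by decide +kernel

theorem sC_5 : sC.c5 = true := by decide +kernel

theorem sC_6 : sC.c6 = true := by decide +kernel

def aC : Sa := ⟨3, [], [(3, zL rQ), (4, zL rS1), (3, gM)], 0x10, [], [.non, .non, .non, .tr 1
    [[0x2030202, 0x2030303, 0x3020202, 0x3020303], [0x2020302, 0x2020203, 0x2020203, 0x2020302],
    [0x3030203, 0x2020203, 0x2020203, 0x3030203], [0x3020303, 0x2030303, 0x3020202, 0x2030202]]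
    [[0], [0, 1], [0, 5, 9], [3], [5]], .non, .non, .tr 0 [[0x302000c0202, 0x2070c000703,
    0x2020c000203], [0x203000d0303, 0x2020c000203, 0x2070c000703], [0x2070d000703, 0x203000c0303,
    0x302000d0202]] [[0], [1], [10], [3]], .non, .tr 2 [[2], [0, 2], [0, 0, 2]] [[5], [7], [12],
    [0, 9]], .non, .non, .non, .non, .non, .non, .non, .non, .non, .non, .non, .non, .tr 0
    [[0x3000204020007, 0x3000300030402, 0x3000204070002], [0x3000204070002, 0x2000200020503,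
    0x3000204020007], [0x3000300030502, 0x503000300020003, 0x2000200020403]] [[0], [6], [0, 11],
    [5, 0, 8]], .tr 0 [[0x2000200070403, 0x300020002040200, 0x2000200020406], [0x2000200020406,
    0x200030003050300, 0x2000200070403], [0x3000204020002, 0x300020403000300, 0x2000305030003]]
    [[0], [6], [0, 10], [7, 0, 9]], .non, .non, .tr 0 [[0x200000005020302, 0x20002020503,
    0x202030005000403], [0x300000004030203, 0x203000200040305, 0x203020205], [0x302030004000402,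
    0x2000002050302, 0x200000005030202]] [[0], [3], [0, 6], [0, 1, 3, 8]], .non, .tr 0
    [[0x302030304, 0x2020202050005, 0x3000002040202], [0x203020205, 0x300000004030203,
    0x300030204020400], [0x3030202040005, 0x203030305, 0x20003020502]] [[0], [3], [0, 5], [0, 1,
    3, 11]], .non, .tr 0 [[2], [0, 2], [0, 0, 2]] [[5, 0, 6], [9], [4], [0, 2, 11, 0, 10]], .tr 0
    [[0x30002030002, 0x302020600, 0x20003020003], [0x20003020003, 0x302020300, 0x20003020006],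
    [0x202020700, 0x30003020002, 0x202020200]] [[0], [3], [6], [1, 0, 9]], .non]⟩

theorem aC_ok : aC.ok sC = true := by decide +kernel

theorem aC_g : chkL 3 gC (dL sC.rt ++ aC.ex) [[0, 1, 2, 0], [2], [1, 2, 0], [0, 2, 1], [0], [0, 1,
    2], [1], [1, 0], [0, 1], [1, 2], [1, 0, 2], [0, 2]] = true := by decide +kernel

def m1112 : List (List Q4) := dL [[0, 2, 2], [2, 3], [2, 0, 768]]

theorem m1112_s : chkS 3 1 1 1 2 m1112 (dL [[2, 2, 768], [2, 512, 768], [2, 2, 3]]) = true := by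
    decide +kernel

theorem m1112_g : chkL 3 m1112 (dL sC.rt ++ aC.ex) [[0], [0, 1, 2, 1], [1, 2], [1, 2, 0], [1], [0,
    1], [0, 2, 1], [0, 2], [0, 1, 2, 0], [2], [0, 2, 1, 0], [0, 1, 2]] = true := by decide +kernel

end Pool.Agent.P.MP_97ea17_al.Ck
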