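import Pool.Agent.P.MP_97ea17_al.F.X0

/-! Data and kernel checks. -/

namespace Pool.Agent.P.MP_97ea17_al.Ck

set_option maxRecDepth 100000
set_option exponentiation.threshold 100000
set_option linter.all false

def rtD : List (List ℕ) := [[0, 8, 0x2000300020402], [8, 0, 9], [8, 0x3000300030502], [8,
    0x20200040302], [8, 9], [8, 0x2000300020402], [8, 0x30200050202], [0, 8, 0x3000300030502], [0,
    8, 0x30200050202], [0, 8, 9], [0, 8, 0x20200040302], [8, 0, 0x2000300020402], [8, 0,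
    0x3000300030502], [8, 0, 0x30200050202], [8, 0, 0x20200040302]]

def lsD : List Lv := [⟨[], [], []⟩, ⟨[(nat_lit 0, [0])], [], []⟩, ⟨[(nat_lit 0, [1, 2, 0, 1]),
    (nat_lit 1, [1, 0, 2, 0, 1, 0, 2, 0, 1])], [nat_lit 33619969], []⟩, ⟨[(nat_lit 0, [2, 1]),
    (nat_lit 1, [2, 1, 0])], [], []⟩, ⟨[(nat_lit 0, [2]), (nat_lit 1, [0, 1, 2, 0, 1, 2, 0, 1,
    2])], [nat_lit 67240707], []⟩, ⟨[(nat_lit 0, [0, 2, 1]), (nat_lit 1, [0, 1, 2])], [nat_lit 84083203,
    nat_lit 84018180, nat_lit 67306756], []⟩, ⟨[(nat_lit 0, [0, 2]), (nat_lit 1, [2, 1, 0, 2, 1,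
    0, 2, 1, 0])], [nat_lit 100795651, nat_lit 50464260, nat_lit 100991748], []⟩, ⟨[(nat_lit 0,
    [1])], [nat_lit 117768449], []⟩, ⟨[(nat_lit 0, [0, 2, 0])], [nat_lit 134676483, nat_lit 134414593],
    []⟩, ⟨[(nat_lit 0, [0, 2, 0, 1])], [nat_lit 150996995, nat_lit 117442820, nat_lit 151257345],
    []⟩, ⟨[(nat_lit 0, [1, 0, 2, 0])], [nat_lit 168361988, nat_lit 167773955, nat_lit 168165633],
    []⟩, ⟨[(nat_lit 0, [1, 0, 2, 1]), (nat_lit 1, [2, 1, 0, 2, 1, 0])], [nat_lit 184811521,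
    nat_lit 185008897, nat_lit 185205249], []⟩, ⟨[(nat_lit 0, [2, 0, 1]), (nat_lit 1, [0, 1, 2, 0,
    1, 2])], [nat_lit 202047748, nat_lit 201719809], []⟩, ⟨[(nat_lit 0, [0, 1]), (nat_lit 1, [0,
    2, 0, 1, 2, 0, 1, 2, 0, 1])], [nat_lit 218893059, nat_lit 184618243], []⟩, ⟨[(nat_lit 0, [2,
    0]), (nat_lit 1, [0, 2, 0, 1, 0, 2, 1, 0, 2, 1])], [nat_lit 235733251, nat_lit 234949380],
    []⟩]

def dsD : List (ℕ × List ℕ) := [(nat_lit 0x4920b24924b, [0, 1, 2]), (nat_lit 0x4930904924c, [0, 1,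
    2]), (nat_lit 0x9130909929c, [0, 1, 2])]

def rpD : List (ℕ × Hd) := [(nat_lit 0, .cx), (nat_lit 0x49249200009, .cx), (nat_lit 0x49249249249,
    .tri 0 1 2), (nat_lit 0x4924a44924b, .tri 0 1 2), (nat_lit 0x4924164924b, .m2 [4,
    0x200000003000000, 0x200000003000000, 4] 0 1), (nat_lit 0x4926024924c, .m2 [0x20200000303,
    0x4040000, 0x3000003000203, 0x202020205] 0 1), (nat_lit 0x4929124924c, .tri 0 1 2), (nat_lit 0x9129124925c,
    .m2 [0x40004, 0x200030002000300, 0x2020202000004] 0 1), (nat_lit 0x9126024a69c, .m2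
    [0x40400000505, 0x30006020003, 0x3000003000602] 0 1), (nat_lit 0x4a4912cb224, .m2 [0x40004,
    0x2000002000203, 0x203030302030303] 0 2), (nat_lit 0x4932364924d, .cx)]

def ceD : List (List (List (List ℕ))) := [[[[nat_lit 8589937153, nat_lit 12884904450, nat_lit 12884904704,
    nat_lit 17179869189, nat_lit 8589937165, nat_lit 12884904711, nat_lit 21474836492, nat_lit 12884904454,
    nat_lit 17179869193], []]], [[[nat_lit 12884904708, nat_lit 17179869187, nat_lit 12884904450],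
    [nat_lit 10242, nat_lit 10501]], [[nat_lit 8589937152, nat_lit 8589937154, nat_lit 12884904705,
    nat_lit 8589937155, nat_lit 8589937159, nat_lit 12884904717, nat_lit 21474836486, nat_lit 21474836489,
    nat_lit 17179869196], []]], [[[nat_lit 12884904705, nat_lit 17179869197, nat_lit 12884904459],
    [nat_lit 10507, nat_lit 10252]], [[nat_lit 12884904713, nat_lit 17179869192, nat_lit 12884904448],
    [nat_lit 10496, nat_lit 10247]], [[nat_lit 17179869184, nat_lit 12884904449, nat_lit 21474836482,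
    nat_lit 12884904455, nat_lit 17179869197, nat_lit 8589937411, nat_lit 12884904459, nat_lit 8589937413,
    nat_lit 12884904456], []]]]

def sD : Sr := ⟨3, 15, false, 0x2000000020400, 32, 40, rtD, [(2, nat_lit 0x807090a0b0c0e0d04030605020001),
    (9, nat_lit 0x306020508090a000d0b010e0c0407), (11, nat_lit 0x10c0d0b02050603080900070a0e04)],
    lsD, dsD, rpD, ceD⟩

theorem sD_1 : sD.c1 = true := by decide +kernel

theorem sD_2 : sD.c2 = true := by decide +kernel

theorem sD_3 : sD.c3 = true := by decide +kernel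

theorem sD_4 : sD.c4 = true := by decide +kernel

theorem sD_5 : sD.c5 = true := by decide +kernel

theorem sD_6 : sD.c6 = true := by decide +kernel

def aD : Sa := ⟨3, [], [(3, zL rQ), (4, zL rS1)], 0x10, [], [.non, .non, .non, .non, .tr 1
    [[0x3000000020400, 0, 0, 0x2000000030500], [1024, 0x2000000030000, 0x2000000030000, 1024], [0,
    0x3000000020400, 0x2000000030500], [0x3000000020000, 1280, 1280, 0x3000000020000]] [[0], [10],
    [1, 0, 8], [2], [0, 3, 11]], .tr 1 [[0xa0302020a0b0a0a, 0, 0, 0x70307060b0a0b0a],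
    [0x2030302030f0206, 0x400080008050c05, 0x90005000d050905, 0x400040d0804], [0,
    0x3020b030b0a0b0b, 0xb0203030b0a0b0b], [0x80004000c040804, 0x30302020207030e,
    0x3020203020e0307, 0x60202070602020f]] [[0], [9], [1, 0, 10], [2], [0, 1, 5]], .non, .tr 0
    [[0x304000306000002, 0x30305000b02, 0x2020004060a0009], [0x205000207000003, 0x3030005070b0008,
    0x20204000a03], [0x403020408030605, 0x302000403030505, 0x302000403030505]] [[0], [10], [0,
    11], [0, 4, 10]], .tr 0 [[0x200050303000003, 0x300020007050200, 0x2030004020700],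
    [0x2030005020700, 0x2000309020402, 0x3020005030600], [0x300000203050006, 0x2000205060002,
    0x2030004020208]] [[0], [3], [9], [0, 2, 5, 15]], .tr 0 [[0x300000206040003,
    0x202020303030302, 0x303030306030303], [0x200000307050002, 0x202020207020202,
    0x303030202020203], [0x3020004060600, 0x203020203020303, 0x203020203020303]] [[0], [10], [3],
    [1, 0, 2, 12]], .non]⟩

theorem aD_ok : aD.ok sD = true := by decide +kernel

def m1113 : List (List Q4) := dL [[8, 0, 9], [8, 9], [0, 8, 0x30200050202]]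

theorem m1113_s : chkS 3 1 1 1 3 m1113 (dL [[1028, 0x20003020002, 0x20003020002], [1028, 1285,
    0x20003020002], [2, 3, 3]]) = true := by decide +kernel

theorem m1113_g : chkL 3 m1113 (dL sD.rt ++ aD.ex) [[0, 1, 2], [0], [0, 1, 2, 0], [0, 2], [1], [0,
    1, 2, 0, 1], [0, 2, 1], [0, 2, 1, 0, 2], [2], [0, 1], [0, 2, 1, 0], [0, 1, 2, 1], [0, 1, 2, 1,
    0], [1, 2], [1, 2, 0]] = true := by decide +kernel

def m1114 : List (List Q4) := dL [[8, 0, 9], [8, 9], [0, 8, 0x2000300020402]]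

theorem m1114_s : chkS 3 1 1 1 4 m1114 (dL [[0x40004, 0x3000003000302, 0x3000003000302], [0x40004,
    0x50005, 0x3000003000302], [2, 3, 3]]) = true := by decide +kernel

theorem m1114_g : chkL 3 m1114 (dL sD.rt ++ aD.ex) [[2], [0], [0, 2], [0, 1, 2, 0, 1], [1], [0, 2,
    1], [0, 1, 2, 0], [0, 2, 1, 0], [0, 2, 1, 0, 2], [0, 1], [0, 1, 2], [1, 2], [1, 2, 0], [0, 1,
    2, 1, 0], [0, 1, 2, 1]] = true := by decide +kernel

end Pool.Agent.P.MP_97ea17_al.Ck
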