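import Pool.Agent.P.MP_97ea17_al.F.X0

/-! Data and kernel checks. -/

namespace Pool.Agent.P.MP_97ea17_al.Ck

set_option maxRecDepth 100000
set_option exponentiation.threshold 100000
set_option linter.all false

def rtE : List (List ℕ) := [[8, 8, 0x2020008030204], [9, 0x2020008030204, 8], [0x2020008030204, 8,
    9], [0, 0x2020008030205, 0x2020008030205], [0x3030009020305, 8, 9], [0x2020008030205, 0,
    0x2020008030205], [9, 0x3030009020305, 8], [8, 8, 0x3030009020305], [0x2020008030205,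
    0x3030009020304], [0, 0x2020008030205, 0x3030009020304], [16], [0, 0, 16], [0, 16],
    [0x2020008030205, 0x2020008030205], [0x2020008030205, 0, 0x3030009020304], [0x2020008030204,
    8, 8], [0x3030009020305, 8, 8], [8, 9, 0x2020008030204], [8, 0x3030009020305, 8], [8, 9,
    0x3030009020305], [8, 0x2020008030204, 8]]

def lsE : List Lv := [⟨[], [], []⟩, ⟨[(nat_lit 0, [1])], [nat_lit 16842752], []⟩, ⟨[(nat_lit 0,
    [2, 0])], [nat_lit 16777730], []⟩, ⟨[(nat_lit 0, [0, 1, 0, 2]), (nat_lit 2, [0, 1, 2, 1, 0])],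
    [nat_lit 50462722], [[nat_lit 771, nat_lit 512, nat_lit 513, nat_lit 770]]⟩, ⟨[(nat_lit 0,
    [2]), (nat_lit 1, [1, 2, 1])], [nat_lit 67371264], []⟩, ⟨[(nat_lit 0, [1, 2, 0, 1, 0, 2])],
    [nat_lit 67110146], []⟩, ⟨[(nat_lit 0, [1, 0]), (nat_lit 5, [0, 2, 0, 1, 0, 2, 0])], [nat_lit 100990978,
    nat_lit 100992002], [[nat_lit 774, nat_lit 512, nat_lit 516, nat_lit 773]]⟩, ⟨[(nat_lit 0, [2,
    0, 1, 0, 2])], [nat_lit 67176194, nat_lit 117768705], []⟩, ⟨[(nat_lit 0, [0])], [nat_lit 134676738,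
    nat_lit 134742016], [[nat_lit 776, nat_lit 513, nat_lit 516, nat_lit 775]]⟩, ⟨[(nat_lit 0, [0,
    1, 0, 1])], [nat_lit 67242242], []⟩, ⟨[(nat_lit 0, [0, 1, 0])], [nat_lit 168362498, nat_lit 168363010],
    [[nat_lit 778, nat_lit 514, nat_lit 516, nat_lit 777]]⟩, ⟨[(nat_lit 0, [0, 1])], [nat_lit 185206018,
    nat_lit 117443330], []⟩, ⟨[(nat_lit 0, [1, 2, 0, 1, 0, 1])], [nat_lit 201984002, nat_lit 202048258,
    nat_lit 202049794], [[nat_lit 780, nat_lit 515, nat_lit 779, nat_lit 521]]⟩, ⟨[(nat_lit 0, [0,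
    2])], [nat_lit 218824706, nat_lit 218826498], [[nat_lit 781, nat_lit 524, nat_lit 522, nat_lit 776]]⟩,
    ⟨[(nat_lit 0, [1, 2, 0, 1, 0])], [nat_lit 235667714, nat_lit 235211522], [[nat_lit 782,
    nat_lit 523, nat_lit 522, nat_lit 773]]⟩, ⟨[(nat_lit 0, [1, 0, 1])], [nat_lit 252249858,
    nat_lit 252575745, nat_lit 252445697], []⟩, ⟨[(nat_lit 0, [2, 0, 1, 0, 1])], [nat_lit 268897794,
    nat_lit 269222401, nat_lit 269157377], [[nat_lit 784, nat_lit 522, nat_lit 515, nat_lit 783]]⟩,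
    ⟨[(nat_lit 0, [1, 0, 2])], [nat_lit 286195970, nat_lit 286196994], [[nat_lit 785, nat_lit 517,
    nat_lit 513, nat_lit 783]]⟩, ⟨[(nat_lit 0, [2, 0, 1, 0])], [nat_lit 302450946, nat_lit 303040514],
    [[nat_lit 786, nat_lit 520, nat_lit 512, nat_lit 784]]⟩, ⟨[(nat_lit 0, [0, 2, 0])], [nat_lit 318901762,
    nat_lit 318902786], [[nat_lit 787, nat_lit 530, nat_lit 526, nat_lit 770]]⟩, ⟨[(nat_lit 0, [2,
    0, 1])], [nat_lit 336725250, nat_lit 336727042, nat_lit 336790530], []⟩]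

def dsE : List (ℕ × List ℕ) := [(nat_lit 0x129224928a05128a, [0, 1, 0]), (nat_lit 0x205225128925128a,
    [2, 0]), (nat_lit 0x128945128925128a, [2, 1, 0, 1]), (nat_lit 0x125228848925128a, [0, 1, 2, 0,
    1, 0]), (nat_lit 0x1289452249248492, [1]), (nat_lit 0x129124b85326129c, [0, 1, 0, 1, 2, 1,
    0]), (nat_lit 0x13094d128966129c, [2, 0, 1, 0, 1, 2, 1])]

def rpE : List (ℕ × Hd) := [(nat_lit 0, .cx), (nat_lit 0x1249249249249249, .tri 0 1 2), (nat_lit 0x129124945125128a,
    .tri 0 1 2), (nat_lit 0x1252289449248492, .m2 [0x4000004, 0x3000003000302, 0x3020000030305] 0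
    1), (nat_lit 0x13112c945166129c, .m2 [0x4000004, 0x3000003000302, 0x200000202000403] 0 1),
    (nat_lit 0x205425331966129c, .m2 [0x2000200020002, 0x2000002050202, 0x200000000020302] 0 1),
    (nat_lit 0x128a251448090485, .cx)]

def ceE : List (List (List (List ℕ))) := [[[[nat_lit 1034], []]], [[[nat_lit 776, nat_lit 525],
    [nat_lit 3073, nat_lit 2324, nat_lit 2320, nat_lit 2053, nat_lit 1284, nat_lit 1037, nat_lit 1287]],
    [[nat_lit 1036], []]], [[[nat_lit 517, nat_lit 782], [nat_lit 2304, nat_lit 2067, nat_lit 2063,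
    nat_lit 2312, nat_lit 2052, nat_lit 1294, nat_lit 1285]], [[nat_lit 515, nat_lit 777],
    [nat_lit 2065, nat_lit 2304, nat_lit 2323, nat_lit 2055, nat_lit 1289, nat_lit 1027]],
    [[nat_lit 1035], []]]]

def sE : Sr := ⟨3, 21, false, 0x2020008030200, 64, 8, rtE, [(18, nat_lit 0x1402120310090e040501060f00070a0c0d11130b08),
    (2, nat_lit 0x14130e0d0c0b1211100f090a060508070403020001), (6, nat_lit 0xb0d0a11090f0c130e141210020306050007080104)],
    lsE, dsE, rpE, ceE⟩

theorem sE_1 : sE.c1 = true := by decide +kernel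

theorem sE_2 : sE.c2 = true := by decide +kernel

theorem sE_3 : sE.c3 = true := by decide +kernel

theorem sE_4 : sE.c4 = true := by decide +kernel

theorem sE_5 : sE.c5 = true := by decide +kernel

theorem sE_6 : sE.c6 = true := by decide +kernel

def aE : Sa := ⟨3, [], [(3, zL rQ)], 0x10, [], [.non, .non, .non, .tr 0 [[0x200030002000204,
    0x5050504, 0x303020302070302], [0x3000300030502, 0x203030306020202, 0x4050404],
    [0x300020006000605, 0x5040505, 0x4050404]] [[0], [1], [0, 15], [17]], .tr 0 [[0x20204000203,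
    0x3030004030200, 0x202020303030602], [0x5020200000302, 0x300000202000502, 0x5040505],
    [0x20300040303, 0x2030009030304, 0x5040404]] [[0], [3], [0, 10], [12, 0, 20]], .tr 0
    [[0x3040304070403, 0x503000308020003, 0x2000305030803], [0x3040200030903, 0x403000204030506,
    0x2000209020503], [0x2000305030903, 0x3000204020802, 0x30403040a0403]] [[0], [3], [1, 0, 5],
    [2, 0, 17]], .non]⟩

theorem aE_ok : aE.ok sE = true := by decide +kernel

def m1122 : List (List Q4) := dL [[8, 8, 0x2020008030204], [0x2020008030204, 8, 8], [8, 9,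
    0x3030009020305]]

theorem m1122_s : chkS 3 1 1 2 2 m1122 (dL [[2, 0, 2], [0x20200000202, 0x202030500040007,
    0x202040200040600], [0x303000200050304, 0x202020000040403, 0x20200000202]]) = true := by
    decide +kernel

theorem m1122_g : chkL 3 m1122 (dL sE.rt ++ aE.ex) [[0], [1, 2, 0, 1], [0, 2, 1, 0], [0, 2, 1],
    [0, 2, 1, 2], [1, 2, 0], [1, 2], [0, 1, 2, 1], [2, 1, 0, 2], [1, 2, 0, 1, 2], [0, 2], [2, 1,
    0], [0, 1, 2, 1, 2], [2, 1], [0, 1], [1], [0, 1, 2, 0], [0, 1, 2, 1, 2, 0], [0, 1, 2], [2],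
    [2, 1, 0, 2, 1]] = true := by decide +kernel

end Pool.Agent.P.MP_97ea17_al.Ck
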