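import Pool.Agent.P.MP_97ea17_al.F.X0

/-! Data and kernel checks. -/

namespace Pool.Agent.P.MP_97ea17_al.Ck

set_option maxRecDepth 100000
set_option exponentiation.threshold 100000
set_option linter.all false

def rtQ : List (List ℕ) := [[1028, 1028, 0x203000002020500], [8, 0x300000000030303,
    0x2000003000302], [1028, 0x202000003020005, 1029], [1028, 0x202000003020004, 1285], [1028,
    1029, 0x203000002020400], [8, 0x3000002000302, 0x3000002000302], [1028, 0x203000002020500,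
    1028], [8, 0x2000003000203, 0x2000003000203], [0, 8, 9], [1028, 1029, 0x202000003020005], [8,
    0x2000003000302, 0x300000000030303], [8, 0x200000000020303, 0x200000000020303], [1028, 1285,
    0x202000003020004], [1028, 1029, 0x303000002030004], [1028, 0x302000003030500, 1029], [8, 0,
    2304], [8, 0x2000003000203, 0x3000002000302], [1028, 1284, 0x302000003030500], [8,
    0x200000000020202, 0x3000002000203], [1028, 1028, 0x303000002030005], [1028, 1028,
    0x302000003030400], [8, 9], [1028, 1028, 0x202000003020004], [1028, 1029, 0x302000003030500],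
    [8, 0x3000002000203, 0x300000000030303], [8, 2304], [0, 8, 2304], [8, 0x300000000030202,
    0x300000000030202], [1028, 0x203000002020500, 1285], [1028, 0x303000002030004, 1029], [8,
    0x2000003000302, 0x200000000020202], [1028, 0x303000002030005, 1285], [1028,
    0x302000003030400, 1285], [8, 0x200000000020303, 0x300000000030202], [1028, 1285,
    0x302000003030400], [1028, 0x303000002030004, 1284], [1028, 0x303000002030005, 1028], [1028,
    0x203000002020400, 1029], [8, 0, 2048], [1028, 0x202000003020005, 1284], [1028,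
    0x302000003030400, 1028], [8, 0, 9], [8, 0x300000000030303, 0x3000002000203], [8, 0, 8],
    [1028, 0x202000003020004, 1028], [1028, 1285, 0x203000002020500], [2056], [8, 0x3000002000203,
    0x200000000020202], [1028, 1284, 0x303000002030004], [8, 2048], [1028, 1284,
    0x202000003020005], [8, 0x3000002000302, 0x2000003000203], [8, 0x200000000020202,
    0x2000003000302], [0, 0, 2056], [1028, 1285, 0x303000002030005], [1028, 0x203000002020400,
    1284], [0, 2056], [1028, 0x302000003030500, 1284], [0, 8, 2048], [0, 8, 8], [8,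
    0x300000000030202, 0x200000000020303], [1028, 1284, 0x203000002020400], [8, 8]]

def lsQ : List Lv := [⟨[], [], []⟩, ⟨[(nat_lit 0, [1, 3, 2, 0])], [nat_lit 16842752], []⟩,
    ⟨[(nat_lit 0, [2]), (nat_lit 1, [0, 2, 0, 3, 0, 2, 0])], [nat_lit 33685760], []⟩, ⟨[(nat_lit 0,
    [2, 3, 2, 0])], [nat_lit 33555202], []⟩, ⟨[(nat_lit 0, [3, 2, 0]), (nat_lit 3, [0, 1, 0])],
    [nat_lit 67305474, nat_lit 67305986], [[nat_lit 772, nat_lit 512, nat_lit 514, nat_lit 771]]⟩,
    ⟨[(nat_lit 0, [0, 2, 3, 0])], [], []⟩, ⟨[(nat_lit 0, [0, 1, 3, 0]), (nat_lit 1, [2, 0, 3, 2,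
    0, 1, 3, 2])], [nat_lit 100664578, nat_lit 33621506], []⟩, ⟨[(nat_lit 0, [0, 3, 0]), (nat_lit 1,
    [2, 0, 3, 0, 1, 3, 2])], [nat_lit 117833986, nat_lit 33621762], [[nat_lit 775, nat_lit 513,
    nat_lit 514, nat_lit 774]]⟩, ⟨[(nat_lit 0, [1, 3, 2])], [nat_lit 134545410, nat_lit 100665346,
    nat_lit 134546946], [[nat_lit 776, nat_lit 512, nat_lit 518, nat_lit 773]]⟩, ⟨[(nat_lit 0, [3,
    1, 2]), (nat_lit 5, [0, 1, 0, 2, 0, 1, 0, 2])], [nat_lit 117442818, nat_lit 151322881, nat_lit 151519745],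
    []⟩, ⟨[(nat_lit 0, [2, 1, 3])], [nat_lit 168361986, nat_lit 117443074, nat_lit 168296705,
    nat_lit 168100353], [[nat_lit 778, nat_lit 519, nat_lit 512, nat_lit 777]]⟩, ⟨[(nat_lit 0, [0,
    1, 0, 3, 1])], [nat_lit 185074434, nat_lit 117771010, nat_lit 185205761], []⟩, ⟨[(nat_lit 0,
    [2, 1])], [nat_lit 201526018, nat_lit 201525250, nat_lit 151391234], [[nat_lit 780, nat_lit 520,
    nat_lit 523, nat_lit 771]]⟩, ⟨[(nat_lit 0, [3, 1])], [nat_lit 218825218, nat_lit 218432257,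
    nat_lit 218892033, nat_lit 218694658], []⟩, ⟨[(nat_lit 0, [0, 2, 1, 3, 0])], [nat_lit 235601921,
    nat_lit 235733249, nat_lit 235209730, nat_lit 201985538], [[nat_lit 782, nat_lit 514, nat_lit 520,
    nat_lit 781, nat_lit 522, nat_lit 771]]⟩, ⟨[(nat_lit 0, [2, 0, 1, 0, 3])], [nat_lit 252578306,
    nat_lit 252578818, nat_lit 251792642], [[nat_lit 783, nat_lit 525, nat_lit 523, nat_lit 770]]⟩,
    ⟨[(nat_lit 0, [0, 1, 3]), (nat_lit 5, [0, 2, 1, 0, 2, 1])], [nat_lit 201986050, nat_lit 252579842],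
    []⟩, ⟨[(nat_lit 0, [3, 0, 2])], [nat_lit 286263810, nat_lit 286264322, nat_lit 252580098],
    [[nat_lit 785, nat_lit 524, nat_lit 522, nat_lit 784]]⟩, ⟨[(nat_lit 0, [0, 1, 2, 1]), (nat_lit 3,
    [3, 0, 2, 0, 1, 3, 0, 2, 3])], [nat_lit 303106818, nat_lit 33559042], []⟩, ⟨[(nat_lit 0, [3,
    0, 1, 3, 0]), (nat_lit 5, [1, 2, 0, 1, 2, 0])], [nat_lit 319492354, nat_lit 319815937, nat_lit 319492610,
    nat_lit 303108866], [[nat_lit 787, nat_lit 529, nat_lit 530, nat_lit 779]]⟩, ⟨[(nat_lit 0, [0,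
    1, 0, 3]), (nat_lit 1, [1, 3, 2, 0, 3])], [nat_lit 336596226, nat_lit 335549186, nat_lit 33625090],
    []⟩, ⟨[(nat_lit 0, [3]), (nat_lit 1, [3, 0, 2, 3, 1])], [nat_lit 353632514, nat_lit 33625346],
    []⟩, ⟨[(nat_lit 0, [0, 3])], [nat_lit 370477826, nat_lit 370349058, nat_lit 370147841, nat_lit 370281729],
    [[nat_lit 790, nat_lit 512, nat_lit 532, nat_lit 787]]⟩, ⟨[(nat_lit 0, [0, 2, 0])], [nat_lit 386209282,
    nat_lit 386662913, nat_lit 386598401], [[nat_lit 791, nat_lit 521, nat_lit 525, nat_lit 772]]⟩,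
    ⟨[(nat_lit 0, [0, 3, 2])], [nat_lit 404096258, nat_lit 404100866], [[nat_lit 792, nat_lit 782,
    nat_lit 533, nat_lit 531]]⟩, ⟨[(nat_lit 0, [2, 0])], [nat_lit 420283906, nat_lit 420216833],
    [[nat_lit 793, nat_lit 515, nat_lit 791, nat_lit 513]]⟩, ⟨[(nat_lit 0, [0, 2, 1]), (nat_lit 3,
    [3, 2, 0, 3, 1, 0, 2, 0, 3])], [nat_lit 436277506, nat_lit 437387778], [[nat_lit 794, nat_lit 514,
    nat_lit 786, nat_lit 512]]⟩, ⟨[(nat_lit 0, [1, 2, 1])], [nat_lit 453771522, nat_lit 453707522,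
    nat_lit 454623745], []⟩, ⟨[(nat_lit 0, [3, 0, 1, 3])], [nat_lit 471077122, nat_lit 470816002,
    nat_lit 470945281], [[nat_lit 796, nat_lit 533, nat_lit 512, nat_lit 784]]⟩, ⟨[(nat_lit 0, [2,
    3])], [nat_lit 487522306, nat_lit 487522562, nat_lit 487326977, nat_lit 486673922, nat_lit 487393282],
    []⟩, ⟨[(nat_lit 0, [1, 3, 1])], [nat_lit 504889602, nat_lit 504430593], [[nat_lit 798, nat_lit 513,
    nat_lit 530, nat_lit 792]]⟩, ⟨[(nat_lit 0, [0])], [nat_lit 520297474, nat_lit 521537794,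
    nat_lit 521736705, nat_lit 67182338, nat_lit 403578626], []⟩, ⟨[(nat_lit 0, [0, 3, 2, 1])],
    [nat_lit 538706690, nat_lit 538713858, nat_lit 537203202], [[nat_lit 800, nat_lit 543, nat_lit 515,
    nat_lit 796]]⟩, ⟨[(nat_lit 0, [1, 0, 3])], [nat_lit 555090690, nat_lit 555353345, nat_lit 555683330,
    nat_lit 555745537, nat_lit 420290818], [[nat_lit 801, nat_lit 536, nat_lit 526, nat_lit 799]]⟩,
    ⟨[(nat_lit 0, [0, 1, 2, 1, 3])], [nat_lit 570760194, nat_lit 571613442, nat_lit 572069377,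
    nat_lit 571607298, nat_lit 572524290], [[nat_lit 802, nat_lit 521, nat_lit 545, nat_lit 786]]⟩,
    ⟨[(nat_lit 0, [0, 1, 2, 0, 1, 3])], [nat_lit 589431042, nat_lit 588390402, nat_lit 588383490],
    [[nat_lit 803, nat_lit 518, nat_lit 522, nat_lit 801]]⟩, ⟨[(nat_lit 0, [1, 0, 3, 1])],
    [nat_lit 605094146, nat_lit 605552641, nat_lit 604706050, nat_lit 605946369], [[nat_lit 804,
    nat_lit 541, nat_lit 525, nat_lit 787]]⟩, ⟨[(nat_lit 0, [2, 0, 1, 3])], [nat_lit 621544962,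
    nat_lit 621745922, nat_lit 621608961, nat_lit 621675010], []⟩, ⟨[(nat_lit 0, [1, 2, 0, 1, 0,
    3])], [nat_lit 639833090, nat_lit 638649601, nat_lit 639567361, nat_lit 639110145, nat_lit 621684226],
    []⟩, ⟨[(nat_lit 0, [1, 2, 0, 1, 3])], [nat_lit 656806402, nat_lit 201533186, nat_lit 656672001,
    nat_lit 655754753, nat_lit 656345601, nat_lit 656810498, nat_lit 656412929], [[nat_lit 807,
    nat_lit 806, nat_lit 545, nat_lit 521]]⟩, ⟨[(nat_lit 0, [0, 2, 3, 2])], [nat_lit 117450754,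
    nat_lit 673579777, nat_lit 672668418, nat_lit 673124097, nat_lit 673385473, nat_lit 656091138],
    [[nat_lit 808, nat_lit 551, nat_lit 792, nat_lit 539]]⟩, ⟨[(nat_lit 0, [0, 2, 3])], [nat_lit 690487298,
    nat_lit 690489090], [[nat_lit 809, nat_lit 522, nat_lit 521, nat_lit 808]]⟩, ⟨[(nat_lit 0, [0,
    3, 1, 2])], [nat_lit 707198978, nat_lit 707204354], [[nat_lit 810, nat_lit 528, nat_lit 807,
    nat_lit 540]]⟩, ⟨[(nat_lit 0, [0, 2])], [nat_lit 723452162, nat_lit 723264002], [[nat_lit 811,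
    nat_lit 527, nat_lit 550, nat_lit 809]]⟩, ⟨[(nat_lit 0, [0, 3, 1])], [nat_lit 740951298,
    nat_lit 740953602, nat_lit 740558338, nat_lit 740298497, nat_lit 740695041], [[nat_lit 812,
    nat_lit 551, nat_lit 532, nat_lit 791]]⟩, ⟨[(nat_lit 0, [2, 3, 2])], [nat_lit 757206018,
    nat_lit 757465345, nat_lit 756883202, nat_lit 756617985], []⟩, ⟨[(nat_lit 0, [3, 0, 2, 1])],
    [nat_lit 773980161, nat_lit 773458434, nat_lit 774380545, nat_lit 774046209, nat_lit 774112001,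
    nat_lit 773000193, nat_lit 774643457], [[nat_lit 814, nat_lit 776, nat_lit 528, nat_lit 553,
    nat_lit 813, nat_lit 518]]⟩, ⟨[(nat_lit 0, [1, 3, 2, 1])], [nat_lit 789195266, nat_lit 790626818,
    nat_lit 791219457, nat_lit 791484161, nat_lit 789196290, nat_lit 790691841, nat_lit 773467906],
    [[nat_lit 815, nat_lit 558, nat_lit 778, nat_lit 538]]⟩, ⟨[(nat_lit 0, [3, 2, 1])], [nat_lit 808387842,
    nat_lit 808395266, nat_lit 805448706, nat_lit 807799553, nat_lit 808061953, nat_lit 808259073,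
    nat_lit 807342081], [[nat_lit 816, nat_lit 815, nat_lit 546, nat_lit 517]]⟩, ⟨[(nat_lit 0, [2,
    3, 0])], [nat_lit 823727362, nat_lit 825239554, nat_lit 824777217], [[nat_lit 817, nat_lit 816,
    nat_lit 552, nat_lit 536]]⟩, ⟨[(nat_lit 0, [1, 2, 1, 3])], [nat_lit 841419778, nat_lit 842072578,
    nat_lit 841878785], [[nat_lit 818, nat_lit 524, nat_lit 515, nat_lit 807]]⟩, ⟨[(nat_lit 0,
    [1])], [nat_lit 858268162, nat_lit 858588674, nat_lit 857670145, nat_lit 857999873, nat_lit 856820737,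
    nat_lit 858393857, nat_lit 858852865], [[nat_lit 819, nat_lit 559, nat_lit 531, nat_lit 772]]⟩,
    ⟨[(nat_lit 0, [1, 3, 0])], [nat_lit 874448642, nat_lit 875367682], [[nat_lit 820, nat_lit 563,
    nat_lit 552, nat_lit 797]]⟩, ⟨[(nat_lit 0, [2, 1, 3, 0])], [nat_lit 890571778, nat_lit 892216834,
    nat_lit 892407042], [[nat_lit 821, nat_lit 521, nat_lit 525, nat_lit 817]]⟩, ⟨[(nat_lit 0, [0,
    1, 3, 1])], [nat_lit 906761474, nat_lit 908853762, nat_lit 908989953, nat_lit 909180929],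
    [[nat_lit 822, nat_lit 557, nat_lit 546, nat_lit 780]]⟩, ⟨[(nat_lit 0, [1, 2, 3])], [nat_lit 924716034,
    nat_lit 923209986, nat_lit 925696769], [[nat_lit 823, nat_lit 561, nat_lit 529, nat_lit 775]]⟩,
    ⟨[(nat_lit 0, [2, 0, 3, 1, 2])], [nat_lit 942211842, nat_lit 942219010, nat_lit 942014978,
    nat_lit 940968961, nat_lit 942673153], []⟩, ⟨[(nat_lit 0, [1, 2])], [nat_lit 959643906,
    nat_lit 958332929, nat_lit 959119873, nat_lit 959513857, nat_lit 958793474, nat_lit 958008321,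
    nat_lit 959188225, nat_lit 959778305, nat_lit 959586817], []⟩, ⟨[(nat_lit 0, [0, 2, 1, 3])],
    [nat_lit 976093442, nat_lit 975372289, nat_lit 975307265, nat_lit 975703297, nat_lit 976621057],
    [[nat_lit 826, nat_lit 521, nat_lit 815, nat_lit 518]]⟩, ⟨[(nat_lit 0, [1, 3])], [nat_lit 992871682,
    nat_lit 992872194, nat_lit 993070849, nat_lit 992352513, nat_lit 992218113, nat_lit 992414977],
    [[nat_lit 827, nat_lit 538, nat_lit 570, nat_lit 776]]⟩, ⟨[(nat_lit 0, [0, 3, 0, 1, 3])],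
    [nat_lit 1009778690, nat_lit 1009778946, nat_lit 1006772226, nat_lit 1010435329, nat_lit 1008863745,
    nat_lit 1009126657, nat_lit 1010044417], []⟩, ⟨[(nat_lit 0, [3, 0])], [nat_lit 1027014658,
    nat_lit 1024537858, nat_lit 1025248257, nat_lit 1027280385], [[nat_lit 829, nat_lit 512,
    nat_lit 518, nat_lit 823]]⟩, ⟨[(nat_lit 0, [3, 2])], [nat_lit 1041570050, nat_lit 1043992321,
    nat_lit 1042940417, nat_lit 1044188417, nat_lit 1040981506, nat_lit 1042221825, nat_lit 1043271169,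
    nat_lit 1043141122, nat_lit 1042684417, nat_lit 1042423042, nat_lit 1042555137], []⟩]

def dsQ : List (ℕ × List ℕ) := [(nat_lit 0x9145228924a24928a25244925249128924924828925144a, [2,
    3]), (nat_lit 0x9124928944a28929129125125245224948924828925144a, [2, 3]), (nat_lit 0x8945244a24a24a24a40944924a29128925144948925144a,
    [0, 1, 2]), (nat_lit 0x8a20944a48948929124944924a29128925144948925144a, [1, 2, 3]), (nat_lit 0x5145129128225129124944924a29128925144948925144a,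
    [0, 3]), (nat_lit 0x8924944a44a28a25144825124a25224949144948925144a, [1, 3, 0]), (nat_lit 0x9125124a24a28a44a44925108925128928a44948925144a,
    [0, 2]), (nat_lit 0x9225124928929129124940a28925128928a44948925144a, [2, 1, 3]), (nat_lit 0x9149224924a24a24a45124929225128928924145125144a,
    [2, 3]), (nat_lit 0x9224924948948929129124929225128928924145125144a, [2, 3]), (nat_lit 0x8a24944a45148925145124924a24a48928940945125144a,
    [3, 0, 2, 0]), (nat_lit 0x5149129124a25125145124924a24a48928940945125144a, [0, 2, 3, 1, 0]),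
    (nat_lit 0x8a24944944a289291249449452452249451449289251212, [1, 2, 0, 1, 2, 0]), (nat_lit 0x1094d244c24a25a24c40944964a31331925144b5092d185c,
    [0, 2, 0, 1]), (nat_lit 0x514d13112822537212494492cc31128b25144b5092d185c, [1, 2, 1, 0])]

def rpQ : List (ℕ × Hd) := [(nat_lit 0, .zer), (nat_lit 0x49249249249249249249249249249249249249249249249,
    .ful 0 1), (nat_lit 0x9225124924a28948a24a44929145128924a449289251212, .ful 0 1), (nat_lit 0x12149224924a24a24a4612c96922513193192c345166185c,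
    .m1 [0x30402050b040a05, 0xb0404020b080403, 0x6000600060006] 0), (nat_lit 0x1222492494894892912a12c96922513193192c345166185c,
    .m1 [0x203020200, 4, 0x4000000] 0), (nat_lit 0x9224945124a24929244924925228928048a449292012405,
    .m1 [4, 4, 0x3000002000303] 0)]

def ceQ : List (List (List (List ℕ))) := [[[[nat_lit 3118], [], [], []]], [[[nat_lit 1813, nat_lit 1598],
    [nat_lit 1561, nat_lit 1841], [nat_lit 8589935159, nat_lit 12884902432, nat_lit 12884902440,
    nat_lit 8589935141, nat_lit 1324, nat_lit 1283, nat_lit 537, nat_lit 817], [nat_lit 8589934619,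
    nat_lit 528, nat_lit 12884901906, nat_lit 12884901940, nat_lit 8589934652, nat_lit 815,
    nat_lit 519, nat_lit 792]], [[nat_lit 3128], [], [], []]], [[[nat_lit 1833, nat_lit 1579],
    [nat_lit 1551, nat_lit 1830], [nat_lit 8589935122, nat_lit 12884902451, nat_lit 12884902407,
    nat_lit 8589935146, nat_lit 1291, nat_lit 1340, nat_lit 527, nat_lit 806], [nat_lit 8589934619,
    nat_lit 12884901935, nat_lit 12884901918, nat_lit 8589934625, nat_lit 513, nat_lit 784,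
    nat_lit 773, nat_lit 564]], [[nat_lit 1800, nat_lit 1595], [nat_lit 1562, nat_lit 1850],
    [nat_lit 8589934621, nat_lit 12884901894, nat_lit 8589934631, nat_lit 12884901920, nat_lit 804,
    nat_lit 771, nat_lit 567, nat_lit 526], [nat_lit 8589934647, nat_lit 12884901924, nat_lit 12884901891,
    nat_lit 8589934606, nat_lit 547, nat_lit 514, nat_lit 796, nat_lit 808]], [[nat_lit 3125], [],
    [], []]]]

def sQ : Sr := ⟨3, 63, true, 0, 32, 24, rtQ, [(57, nat_lit 0x18071c100a390f371e0e06332205202f25280d02091d2d23262e0b273214300036293c120c173e19151621131b083b38352c1a243a2a113d343104012b031f),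
    (43, nat_lit 0x83413153102381d0b2e3d000a3a2f303507242b112906250f272c0e0516201f0d371c0c191a0912213b103c172a1426231e1b3632183e2d28220103390433),
    (18, nat_lit 0x2d31060a2e1b2a322834350c373d07083a3e2917382c3626271024232209051918150e391a1f1e2b0d1d0f0b121125141c1633133b212f303c200304000102),
    (42, nat_lit 0x21f361e3a0912213c01340d1b030c0a1a1d2c112a240b27232029260f37253d3b2d10322e04081707001406382b1c22053330282f391816130e19313e3515)],
    lsQ, dsQ, rpQ, ceQ⟩

theorem sQ_1 : sQ.c1 = true := by decide +kernel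

theorem sQ_2 : sQ.c2 = true := by decide +kernel

theorem sQ_3 : sQ.c3 = true := by decide +kernel

theorem sQ_4 : sQ.c4 = true := by decide +kernel

theorem sQ_5 : sQ.c5 = true := by decide +kernel

theorem sQ_6 : sQ.c6 = true := by decide +kernel

def aQ : Sa := ⟨3, [], [(3, zL rR)], 0x10001, [], [.non, .non, .non, .tr 0 [[0x3050205070402,
    0x30502000a090708, 0x300020006090605], [0x4030002080a0907, 0x300020407040205,
    0x300020006090605], [0x305020003040605, 0x502000304020507, 0x407040300030503]] [[0], [10], [0,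
    40], [0, 41], [0, 18]], .tr 0 [[2], [0, 2], [0, 0, 2]] [[47], [63], [59], [0, 2, 56], [0, 4,
    11]], .mem [0]]⟩

theorem aQ_ok : aQ.ok sQ = true := by decide +kernel

theorem aQ_g : chkL 3 (zL rQ) (dL sQ.rt ++ aQ.ex) [[1, 3, 0], [2, 3, 0, 1, 3], [1, 3, 2], [2, 3,
    0, 1], [3, 1, 0, 2, 1], [0, 1, 2, 3], [3, 0, 1], [0, 1, 3], [0, 3], [3, 0, 1, 2], [0, 1, 3, 2,
    1, 3], [2, 3], [1, 3, 0, 2, 1, 3], [3, 1, 2], [0, 3, 1, 2, 3], [1, 2], [3, 0], [2, 3, 0, 1,
    2], [1, 3, 0, 2, 1], [1, 0, 2, 3, 2, 1], [1, 3, 0, 1], [1, 0], [1, 0, 2, 3, 2], [1, 2, 3, 0],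
    [3, 1, 0, 2, 3], [0, 3, 1, 0, 2], [1, 0, 2, 1], [2, 3, 0], [3, 1, 0], [1, 3, 0, 1, 0, 2], [1,
    0, 2, 3, 1], [2, 3, 1], [1, 0, 3], [0, 1, 3, 2], [1, 3], [1, 3, 0, 2], [0, 1, 3, 2, 1], [2, 3,
    0, 1, 2, 3], [1, 0, 2], [1, 3, 0, 1, 2], [3, 1], [0, 3, 1, 0], [1, 3, 2, 1], [0, 3, 1], [2, 3,
    1, 0], [1, 3, 0, 1, 0], [0], [0, 3, 1, 2, 3, 1], [1, 0, 3, 2], [0, 3, 1, 2], [3, 1, 0, 2],
    [3], [1, 3, 2, 1, 0], [0, 1, 2], [1, 3, 0, 2, 3], [1, 0, 2, 3], [0, 1], [3, 1, 0, 2, 3, 1],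
    [2], [0, 3, 2], [0, 1, 2, 3, 2], [1, 2, 3], [1]] = true := by decide +kernel

def aR : Sa := ⟨3, zL rR, [], 0x10001, [], [.non, .non, .non, .bad [0] [67], .mem [1, 66, 40],
    .mem [0]]⟩

theorem aR_ok : aR.ok sQ = true := by decide +kernel

theorem aR_g : chkL 3 (zL rR) (dL sQ.rt ++ aR.ex) [[3, 4, 3, 2], [1, 2, 4, 0, 1], [3, 4, 0, 3],
    [2, 4, 1, 3], [2, 4, 1, 2, 3], [4, 1, 0, 4, 3], [1, 4, 0, 3, 1], [1, 4, 1, 3, 2, 4], [0, 4, 1,
    4, 2], [1, 4, 0, 3, 1, 2], [0, 4, 1, 4, 1, 3, 4], [1, 4, 3, 2], [1, 4, 1, 3, 1, 4], [1, 4, 3,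
    1, 2], [1, 3, 4, 3, 2], [1, 2], [1, 4, 0, 3], [2, 4, 1, 3, 2], [3, 4, 3, 1], [1, 3, 4, 0, 1,
    4], [1, 2, 4, 0, 2], [1, 0], [1, 3, 4, 0, 3], [2, 4, 0, 1, 3, 2], [4, 2, 3, 1, 4], [0, 4, 1,
    4, 1, 2], [2, 3], [1, 4, 2, 3], [1, 4, 3, 1, 0], [1, 2, 4], [1, 3, 4, 2, 3, 1], [1, 4, 3, 2,
    1], [1, 4, 0, 3, 1, 0], [1, 0, 3, 4, 2, 4], [3, 4, 2, 3], [3, 4, 3], [2, 4, 1, 0, 3], [0, 4,
    1, 3, 4, 2, 4], [1, 0, 2], [1, 2, 4, 0], [1, 4, 3, 1], [0, 4, 1, 4, 1], [1, 2, 4, 1, 0], [0,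
    4, 1, 4, 1, 0], [2, 4, 0, 1, 3], [1, 2, 4, 2], [0], [1, 3, 4, 3, 2, 1], [0, 4, 1, 3, 4, 3],
    [4, 1, 2, 3, 4], [0, 4, 2, 1, 4], [1, 4, 3], [1, 2, 4, 1], [0, 1, 2], [1, 3, 4, 3], [1, 3, 4,
    2, 3], [0, 1], [4, 1, 2, 4, 1, 3], [2], [0, 4, 1, 4], [2, 4, 0, 1, 3, 1], [1, 0, 4, 3, 1, 4],
    [1], [0], [1], [2], [3], [4]] = true := by decide +kernel

end Pool.Agent.P.MP_97ea17_al.Ck
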