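import Pool.Agent.P.MP_97ea17_al.F.XS

/-! Data and kernel checks. -/

namespace Pool.Agent.P.MP_97ea17_al.Ck

set_option maxRecDepth 100000
set_option exponentiation.threshold 100000
set_option linter.all false

theorem sS_1 : sS.c1 = true := by decide +kernel

theorem sS_2 : sS.c2 = true := by decide +kernel

theorem sS_3 : sS.c3 = true := by decide +kernel

theorem sS_4 : sS.c4 = true := by decide +kernel

theorem sS_6 : sS.c6 = true := by decide +kernel

end Pool.Agent.P.MP_97ea17_al.Ck
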