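import Pool.Agent.P.MP_97ea17_al.F.XS

/-! Data and kernel checks. -/

namespace Pool.Agent.P.MP_97ea17_al.Ck

set_option maxRecDepth 100000
set_option exponentiation.threshold 100000
set_option linter.all false

theorem sS_5 : sS.c5 = true := by decide +kernel

end Pool.Agent.P.MP_97ea17_al.Ck
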