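import Pool.Agent.P.MP_97ea17_al.F.K4
import Pool.Agent.P.MP_97ea17_al.F.ExcB
import Pool.Agent.P.MP_97ea17_al.F.XA
import Pool.Agent.P.MP_97ea17_al.F.XB7
import Pool.Agent.P.MP_97ea17_al.F.XC
import Pool.Agent.P.MP_97ea17_al.F.XD
import Pool.Agent.P.MP_97ea17_al.F.XE
import Pool.Agent.P.MP_97ea17_al.F.XM
import Pool.Agent.P.MP_97ea17_al.F.XQ
import Pool.Agent.P.MP_97ea17_al.F.XS1
import Pool.Agent.P.MP_97ea17_al.F.XS5
import Pool.Agent.P.MP_97ea17_al.F.XS7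

/-! Groups of rank at least three generated by reflections of order two. -/

namespace Pool.Agent.P.MP_97ea17_al.Geo

open scoped Quaternion Matrix
open Ck

theorem goodS : Good sS := ⟨sS_1, sS_2, sS_3, sS_4, sS_5, sS_6⟩

theorem goodQ : Good sQ := ⟨sQ_1, sQ_2, sQ_3, sQ_4, sQ_5, sQ_6⟩

theorem val_eq {x : Q4} {l : List ℤ} (h : x.beq (zQ l) = true) : x.val 5 = quat 5 l :=
  (Q4.val_beq h).trans (val_zQ l)

theorem qv_eq {c : List Q4} {i : ℕ} {q : ℍ[ℝ]} (l : List ℤ) (h : (qt c i).beq (zQ l) = true)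
    (hq : quat 5 l = q) : qv c i = q := (val_eq h).trans hq

variable {n : ℕ} {W : Subgroup (GH n)}

theorem notU (hW : Std W) (hM : ¬ Mono W) (h2 : ∀ a ξ, Rl W a ξ → ξ = -1) (hA : Ang W)
    (hB : ¬ Bound W) (U : V n → Prop) : ¬ Has W U 5 (zL rU) := by
  refine fin_gen (T := aU) hW hM h2 hA hB goodS aU_ok aU_g bd_U (by decide) (by simp [aU])
    (fun e H he hH hR x hx h => ?_) U
  have hz : Sg H (vc 5 e (qv (dV zU))) := hR _ List.mem_cons_self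
  have e4 : vc 5 e (qv (dV [0, 0, 0, 0, 2])) = e 4 := by
    have h0 : ∀ i < 4, qv (dV [0, 0, 0, 0, 2]) i = 0 := fun i hi =>
      qv_eq [] (by interval_cases i <;> decide +kernel) (by ext <;> simp [quat])
    have h1 : qv (dV [0, 0, 0, 0, 2]) 4 = 1 :=
      qv_eq [1] (by decide +kernel) (by ext <;> simp [quat])
    rw [vc, Finset.sum_range_succ, h1, rs_one, Finset.sum_eq_zero, zero_add]
    exact fun i hi => by rw [h0 i (Finset.mem_range.1 hi), rs_zero]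
  have h4 : Sg H (e 4) := e4 ▸ hR _ (List.mem_cons_of_mem _ List.mem_cons_self)
  have s4 : Sp 5 e (e 4) := ⟨_, e4.symm⟩
  have sz : Sp 5 e (vc 5 e (qv (dV zU))) := ⟨_, rfl⟩
  have hn : 4 * Quaternion.normSq (qv (dV zU) 4) = nqc 5 (qv (dV zU)) := by
    have := R4.val_beq (D := 5) (x := (nqR (qt (dV zU) 4)).sm 4) (y := nqL 5 (dV zU))
      (by decide +kernel)
    rwa [R4.val_sm, val_nqR, val_nqL, Nat.cast_ofNat] at this
  rcases h with h | ⟨-, h⟩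
  · exact (u_zero hA he (h4.mono hH) (hz.mono hH) hn hx h).imp_right fun h => ⟨s4.pl h, h4.pl h⟩
  · rcases u_type hA he (h4.mono hH) (hz.mono hH) hn hx h with h | h
    exacts [Or.inr ⟨sz.pl h, hz.pl h⟩, Or.inr ⟨(s4.sr sz).pl h, (h4.sr hz).pl h⟩]

theorem notS (hW : Std W) (hM : ¬ Mono W) (h2 : ∀ a ξ, Rl W a ξ → ξ = -1) (hA : Ang W)
    (hB : ¬ Bound W) : ∀ U, ¬ Has W U 4 (zL rS1) := by
  have s3 := fin_full (T := aS3) hW hM h2 hA hB goodS aS3_ok aS3_g bd_S3 (by decide)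
    (by simp [aS3])
  have s2 := fin_full (T := aS2) hW hM h2 hA hB goodS aS2_ok aS2_g bd_S2 (by decide)
    (List.forall_mem_singleton.2 s3)
  have t := fin_full (T := aT) hW hM h2 hA hB goodS aT_ok aT_g bd_T (by decide) (by simp [aT])
  exact fin_full (T := aS1) hW hM h2 hA hB goodS aS1_ok aS1_g bd_S1 (by decide)
    (List.forall_mem_cons.2 ⟨s2, List.forall_mem_cons.2
      ⟨t, List.forall_mem_singleton.2 (notU hW hM h2 hA hB)⟩⟩)

theorem notQ (hW : Std W) (hM : ¬ Mono W) (h2 : ∀ a ξ, Rl W a ξ → ξ = -1) (hA : Ang W)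
    (hB : ¬ Bound W) : ∀ U, ¬ Has W U 3 (zL rQ) :=
  fin_full (T := aQ) hW hM h2 hA hB goodQ aQ_ok aQ_g bd_Q (by decide)
    (List.forall_mem_singleton.2 (fin_full (T := aR) hW hM h2 hA hB goodQ aR_ok aR_g bd_R
      (by decide) (by simp [aR])))

theorem notM (hW : Std W) (hM : ¬ Mono W) (hA : Ang W) (hQ : ∀ U, ¬ Has W U 3 (zL rQ))
    (hS : ∀ U, ¬ Has W U 4 (zL rS1)) (U : V n → Prop) : ¬ Has W U 3 gM := by
  rintro ⟨e, he, hR, -⟩
  have q : ∀ (k i : ℕ) (l : List ℤ) {z : ℍ[ℝ]}, (qt (nth [] gM k) i).beq (zQ l) = true →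
      quat 5 l = z → qv (nth [] gM k) i = z := fun _ _ l _ => qv_eq l
  have h0 : quat 5 [] = 0 := by ext <;> simp [quat]
  have h1 : quat 5 [1] = 1 := by ext <;> simp [quat]
  have h2 : quat 5 [-1] = -1 := by ext <;> simp [quat]
  have h3 : Sg W (e 0) := axis_root he
    ⟨q 0 0 _ (by decide +kernel) h1, q 0 1 _ (by decide +kernel) h2, q 0 2 _ (by decide +kernel) h0⟩
    ⟨q 1 0 _ (by decide +kernel) h1, q 1 1 [0, -1] (by decide +kernel) (by simp [quat]),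
      q 1 2 _ (by decide +kernel) h0⟩
    ⟨q 2 0 _ (by decide +kernel) h1, q 2 1 _ (by decide +kernel) h0, q 2 2 _ (by decide +kernel) h2⟩
    ⟨q 3 0 _ (by decide +kernel) h1, q 3 1 _ (by decide +kernel) h0,
      q 3 2 [0, 0, -1] (by decide +kernel) (by simp [quat])⟩
    (hR _ (.head _)) (hR _ (.tail _ (.head _))) (hR _ (.tail _ (.tail _ (.head _))))
    (hR _ (.tail _ (.tail _ (.tail _ (.head _)))))
  refine hM (axis_gen (T := aM) hW hA ⟨sM_1, sM_2, sM_3, sM_4, sM_5, sM_6⟩ aM_ok aM_g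
    (by decide +kernel) (List.forall_mem_cons.2 ⟨hQ, List.forall_mem_singleton.2 hS⟩) he
    (List.forall_mem_cons.2 ⟨?_, hR⟩))
  rw [vc_short (m := 1) (by decide) fun i hi => qv_short hi, vc, Finset.sum_range_one,
    qv_eq [1] (by decide +kernel) h1, rs_one]
  exact h3

theorem engine {n : ℕ} {W : Subgroup (GH n)} (hW : Std W) (hM : ¬ Mono W) (hn : 3 ≤ n)
    (h2 : ∀ a ξ, Rl W a ξ → ξ = -1)
    (h4 : ∀ a b, Rl W a (-1) → Rl W b (-1) → S4 (4 * tt a b))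
    (hH : ¬ H4 fun a => Rl W a (-1)) : Bound W := by
  by_contra hB
  have hA := ang_of_s4 h4
  have hQ := notQ hW hM h2 hA hB
  have hS := notS hW hM h2 hA hB
  have h1 : ∀ t ∈ [(3, zL rQ)], ∀ U, ¬ Has W U t.1 t.2 := List.forall_mem_singleton.2 hQ
  have h2 : ∀ t ∈ [(3, zL rQ), (4, zL rS1)], ∀ U, ¬ Has W U t.1 t.2 :=
    List.forall_mem_cons.2 ⟨hQ, List.forall_mem_singleton.2 hS⟩
  have h3 : ∀ t ∈ [(3, zL rQ), (4, zL rS1), (3, gM)], ∀ U, ¬ Has W U t.1 t.2 :=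
    List.forall_mem_cons.2 ⟨hQ, List.forall_mem_cons.2
      ⟨hS, List.forall_mem_singleton.2 (notM hW hM hA hQ hS)⟩⟩
  have cB := fun U G ws hg => cx_gen (U := U) (T := aB) (G := G) (ws := ws) hA
    ⟨sB_1, sB_2, sB_3, sB_4, sB_5, sB_6⟩ aB_ok hg (by decide) h2
  have cC := fun U G ws hg => cx_gen (U := U) (T := aC) (G := G) (ws := ws) hA
    ⟨sC_1, sC_2, sC_3, sC_4, sC_5, sC_6⟩ aC_ok hg (by decide) h3
  have cD := fun U G ws hg => cx_gen (U := U) (T := aD) (G := G) (ws := ws) hA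
    ⟨sD_1, sD_2, sD_3, sD_4, sD_5, sD_6⟩ aD_ok hg (by decide) h2
  have cE := fun U G ws hg => cx_gen (U := U) (T := aE) (G := G) (ws := ws) hA
    ⟨sE_1, sE_2, sE_3, sE_4, sE_5, sE_6⟩ aE_ok hg (by decide) h1
  have cA : ∀ U, Has W U 2 m2222 → Gd W U := fun U h => by
    by_contra hG
    have := plane_gen (T := aA) hW hM hA ⟨sA_1, sA_2, sA_3, sA_4, sA_5, sA_6⟩ aA_ok m2222_g
      (by decide) (List.forall_mem_singleton.2 fun h => hG (cC U _ _ aC_g h)) h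
    change 2 = n at this
    omega
  refine hH fun a b x y ha hb hx hy => ?_
  by_cases hT : (ip a b * ip b x * ip x a).im = 0
  · exact G5Aux.commute_of_im hT _
  obtain ⟨ω, m, e, he, hω, hC, hU⟩ := tri_ind hA (fun a b x => Gd W fun y => y = a ∨ y = b ∨ y = x)
    (fun a b x ⟨ω, m, e, h1, h2, h3, h⟩ => ⟨ω, m, e, h1, h2, h3, fun v hv => h v (by tauto)⟩)
    (fun a b x ⟨ω, m, e, h1, h2, h3, h⟩ => ⟨ω, m, e, h1, h2, h3, fun v hv => h v (by tauto)⟩)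
    (fun a b x ha ⟨ω, m, e, h1, h2, h3, h⟩ => ⟨ω, m, e, h1, h2, h3, by
      rintro v (rfl | rfl | rfl)
      exacts [h _ (by simp), Sp.of_sr (h _ (Or.inl rfl)) ha.1 (h _ (by simp)), h _ (by simp)]⟩)
    (fun a b x ha hb hx => by
      have k := fun m s t k l M C hs ht hk hl h =>
        chkS_spec (m := m) (s := s) (t := t) (k := k) (l := l) (M := M) (C := C) hs ht hk hl h
          ha hb hx
      simp only [List.forall_mem_cons, List.not_mem_nil, false_imp_iff, implies_true, and_true]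
      refine ⟨fun h => cB _ _ _ m1111_g (k _ _ _ _ _ _ _ ?_ ?_ ?_ ?_ m1111_s h),
        fun h => cC _ _ _ m1112_g (k _ _ _ _ _ _ _ ?_ ?_ ?_ ?_ m1112_s h),
        fun h => cD _ _ _ m1113_g (k _ _ _ _ _ _ _ ?_ ?_ ?_ ?_ m1113_s h),
        fun h => cD _ _ _ m1114_g (k _ _ _ _ _ _ _ ?_ ?_ ?_ ?_ m1114_s h),
        fun h => cE _ _ _ m1122_g (k _ _ _ _ _ _ _ ?_ ?_ ?_ ?_ m1122_s h),
        fun h => cB _ _ _ m1123_g (k _ _ _ _ _ _ _ ?_ ?_ ?_ ?_ m1123_s h),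
        fun h => cB _ _ _ m1124_g (k _ _ _ _ _ _ _ ?_ ?_ ?_ ?_ m1124_s h),
        fun h => cB _ _ _ m1234_g (k _ _ _ _ _ _ _ ?_ ?_ ?_ ?_ m1234_s h),
        fun h => cA _ (k _ _ _ _ _ _ _ ?_ ?_ ?_ ?_ m2222_s h)⟩ <;> norm_num)
    (Sg.of_rl ha) (Sg.of_rl hb) (Sg.of_rl hx) hT
  exact commute_of_cr he hω (hU _ (by simp)) (hU _ (by simp)) (hC _ (Sg.of_rl ha))
    (hC _ (Sg.of_rl hb)) (hC _ (Sg.of_rl hx)) (hC _ (Sg.of_rl hy))

end Pool.Agent.P.MP_97ea17_al.Geo
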