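import Pool.Agent.P.MP_97ea17_al.Num
import Pool.Agent.P.MP_97ea17_al.DO1
import Pool.Agent.P.MP_97ea17_al.DO2
import Pool.Agent.P.MP_97ea17_al.DA5
import Pool.Agent.P.MP_97ea17_al.DD5
import Pool.Agent.P.MP_97ea17_al.DP1
import Pool.Agent.P.MP_97ea17_al.DP2

/-! The bound for the exceptional groups of rank two. -/

namespace Pool.Agent.P.MP_97ea17_al.Geo

open Ck

/-- Generators of the group of order 1440, given by simple roots of type `A₅`. -/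
def rA5 : List (List ℤ × List (List ℤ)) :=
  [([-2], [[1], [0]]),
   ([-2], [[1], [-1, 0, -1, -1]]),
   ([-2], [[1], [1]]),
   ([-2], [[4], [-2, 2, 1, 1, 0, 0, -1, 1]]),
   ([-2], [[1], [0, -1]])]

/-- Generators of the group of order 3840, given by simple roots of type `D₅`. -/
def rD5 : List (List ℤ × List (List ℤ)) :=
  [([-2], [[1, 0, 0, 0, 1], [-1]]),
   ([-2], [[0, 0, 0, 0, 1], [1, 1]]),
   ([-2], [[0, 0, 0, 0, 1], [0, -1, 1]]),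
   ([-2], [[0, 0, 0, 0, 1], [0, 0, -1, 1]]),
   ([-2], [[0, 0, 0, 0, 1], [0, 0, -1, -1]])]

theorem bd_O1 : Bound (grp 2 3 rO1) :=
  DO1.z.bound Nat.prime_three DO1.h0 DO1.h1 DO1.hr DO1.h2 DO1.h3 DO1.h4 DO1.h5 DO1.h6 DO1.h7

theorem bd_O2 : Bound (grp 2 3 rO2) :=
  DO2.z.bound Nat.prime_three DO2.h0 DO2.h1 DO2.hr DO2.h2 DO2.h3 DO2.h4 DO2.h5 DO2.h6 DO2.h7

theorem bd_A5 : Bound (grp 2 3 rA5) :=
  DA5.z.bound Nat.prime_three DA5.h0 DA5.h1 DA5.hr DA5.h2 DA5.h3 DA5.h4 DA5.h5 DA5.h6 DA5.h7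

theorem bd_D5 : Bound (grp 2 2 rD5) :=
  DD5.z.bound Nat.prime_two DD5.h0 DD5.h1 DD5.hr DD5.h2 DD5.h3 DD5.h4 DD5.h5 DD5.h6 DD5.h7

theorem bd_P1 : Bound (grp 2 2 rP1) :=
  DP1.z.bound Nat.prime_two DP1.h0 DP1.h1 DP1.hr DP1.h2 DP1.h3 DP1.h4 DP1.h5 DP1.h6 DP1.h7

theorem bd_P2 : Bound (grp 2 2 rP2) :=
  DP2.z.bound Nat.prime_two DP2.h0 DP2.h1 DP2.hr DP2.h2 DP2.h3 DP2.h4 DP2.h5 DP2.h6 DP2.h7

end Pool.Agent.P.MP_97ea17_al.Geo
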