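import Pool.Agent.P.MP_97ea17_al.Filt

/-! The filtration bound with extra operators; it also gives finite dimensionality. -/

namespace Pool.Agent.P.MP_97ea17_al

open MvPolynomial
open scoped Matrix

variable {σ : Type} [Fintype σ] [DecidableEq σ] {G : Type} [Group G]
variable {L : Type} [AddCommGroup L] [Module ℂ L]

theorem filt_bound2 [Finite G] (c : G →* Matrix σ σ ℂ) (L0 : Submodule ℂ L) {ι : Type}
    (γ : ι → G) (hγ : Function.Surjective γ)
    (Xh : (σ → ℂ) →ₗ[ℂ] Module.End ℂ L) (T : ι → Module.End ℂ L) (ψ : ι → ℂ) (v : L)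
    (hv : v ∈ L0) (hX : ∀ l y, y ∈ L0 → Xh l y ∈ L0)
    (hT : ∀ g l y, y ∈ L0 → T g (Xh l y) = Xh (l ᵥ* c (γ g)) (T g y))
    (hTv : ∀ g, T g v = ψ g • v) (hψ : ∀ g, ψ g ≠ 0)
    {κ : Type} (Q : κ → Module.End ℂ L) (φ : κ → (σ → ℂ) → σ → ℂ)
    (hQ : ∀ k l y, y ∈ L0 → Q k (Xh l y) = Xh (φ k l) (Q k y))
    (hQv : ∀ k, Q k v ∈ Submodule.span ℂ {v})
    (hcomm : ∀ l l' y, y ∈ L0 → Xh l (Xh l' y) - Xh l' (Xh l y) ∈
      Submodule.span ℂ (insert y (Set.range (fun g => T g y) ∪ Set.range fun k => Q k y)))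
    (huniq : ∀ y ∈ L0, (∀ g, T g y = ψ g • y) → y ∈ Submodule.span ℂ {v}) :
    ∃ N : Submodule ℂ L, N ≤ L0 ∧ v ∈ N ∧ (∀ l y, y ∈ N → Xh l y ∈ N) ∧
      (∀ g y, y ∈ N → T g y ∈ N) ∧
      (∀ N' : Submodule ℂ L, v ∈ N' → (∀ l y, y ∈ N' → Xh l y ∈ N') → N ≤ N') ∧
      Module.Finite ℂ N ∧
      Module.finrank ℂ N ≤ Module.finrank ℂ (MvPolynomial σ ℂ ⧸ invI c) := by
  classical
  have := Fintype.ofFinite G
  have hL : ∀ d, fil Xh v d ≤ L0 := by
    intro d
    induction d with
    | zero => exact bot_le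
    | succ d ih => exact fil_le hv fun l y hy => hX l y (ih hy)
  have hTF : ∀ g d y, y ∈ fil Xh v d → T g y ∈ fil Xh v d := by
    intro g d
    induction d with
    | zero => intro y hy; have : y = 0 := hy; simp [this]
    | succ d ih =>
      refine fil_le (N := (fil Xh v (d + 1)).comap (T g)) ?_ fun l y hy => ?_
      · rw [Submodule.mem_comap, hTv]; exact Submodule.smul_mem _ _ (fil_v _)
      · rw [Submodule.mem_comap, hT g l y (hL d hy)]; exact fil_X (ih y hy) _
  have hQF : ∀ k d y, y ∈ fil Xh v d → Q k y ∈ fil Xh v d := by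
    intro k d
    induction d with
    | zero => intro y hy; have : y = 0 := hy; simp [this]
    | succ d ih =>
      refine fil_le (N := (fil Xh v (d + 1)).comap (Q k)) ?_ fun l y hy => ?_
      · exact (Submodule.span_singleton_le_iff_mem _ _).2 (fil_v _) (hQv k)
      · rw [Submodule.mem_comap, hQ k l y (hL d hy)]; exact fil_X (ih y hy) _
  have hc : ∀ d l l' y, y ∈ fil Xh v d → Xh l (Xh l' y) - Xh l' (Xh l y) ∈ fil Xh v d := by
    intro d l l' y hy
    refine Submodule.span_le.2 ?_ (hcomm l l' y (hL d hy))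
    rintro _ (rfl | ⟨g, rfl⟩ | ⟨k, rfl⟩)
    · exact hy
    · exact hTF g d y hy
    · exact hQF k d y hy
  set T' : ι → Module.End ℂ L := fun g => (ψ g)⁻¹ • T g with hT'
  have hT'v : ∀ g, T' g v = v := fun g => by simp [hT', hTv, smul_smul, hψ]
  have hT'X : ∀ g l y, y ∈ L0 → T' g (Xh l y) = Xh (l ᵥ* c (γ g)) (T' g y) := fun g l y hy => by
    simp [hT', hT g l y hy]
  have hT'F : ∀ g d y, y ∈ fil Xh v d → T' g y ∈ fil Xh v d := fun g d y hy =>
    Submodule.smul_mem _ _ (hTF g d y hy)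
  have hmul : ∀ g h k, γ k = γ g * γ h → ∀ d y, y ∈ fil Xh v d → T' h (T' g y) = T' k y := by
    intro g h k hk d
    induction d with
    | zero => intro y hy; have : y = 0 := hy; simp [this]
    | succ d ih =>
      intro y hy
      have := fil_le (N := LinearMap.ker (T' h ∘ₗ T' g - T' k)) (by simp [hT'v])
        (fun l y hy => by
          simp [hT'X _ l y (hL d hy), hT'X h _ _ (hL d (hT'F g d y hy)), ih y hy, hk]) hy
      simpa [sub_eq_zero] using this
  have hK2 : ∀ g d (p : MvPolynomial σ ℂ), p.IsHomogeneous d →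
      T' g (symb Xh v p) - symb Xh v (sub (c (γ g)) p) ∈ fil Xh v d := by
    intro g
    refine hom_ind (by simp) (fun d p q h1 h2 => ?_) (fun a => ?_) (fun d i q hq ih => ?_)
    · have := add_mem h1 h2
      simp only [map_add]
      convert this using 1
      abel
    · have h1 : sub (c (γ g)) (C a) = C a := by simp [sub]
      have h2 : symb Xh v (C a) = a • v := symb_monomial (0 : σ →₀ ℕ) a |>.trans (by simp [wrd])
      rw [h1, h2, map_smul, hT'v, sub_self]
      exact zero_mem _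
    · have h1 := hT'F g _ _ (symb_lin_mul hc hq (Pi.single i 1))
      have h2 := symb_lin_mul hc (sub_hom (c (γ g)) hq) (Pi.single i 1 ᵥ* c (γ g))
      have h3 := fil_X ih (Pi.single i 1 ᵥ* c (γ g))
      rw [map_sub, hT'X g _ _ (hL _ (symb_mem hq)), lin_single] at h1
      rw [← sub_lin, lin_single, ← map_mul] at h2
      rw [map_sub] at h3
      convert sub_mem (add_mem h1 h3) h2 using 1
      abel
  have hK3 : ∀ d (p : MvPolynomial σ ℂ), 0 < d → p.IsHomogeneous d → (∀ g, sub (c g) p = p) →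
      symb Xh v p ∈ fil Xh v d := by
    intro d p hd hp hinv
    choose s hsγ using hγ
    have hs := symb_mem (Xh := Xh) (v := v) hp
    have h1 : ∑ g, T' (s g) (symb Xh v p) ∈ Submodule.span ℂ {v} := by
      refine huniq _ (L0.sum_mem fun g _ => hL _ (hT'F _ _ _ hs)) fun h => ?_
      have : T' h (∑ g, T' (s g) (symb Xh v p)) = ∑ g, T' (s g) (symb Xh v p) := by
        rw [map_sum]
        exact Fintype.sum_equiv (Equiv.mulRight (γ h)) _ _ fun g =>
          hmul _ h _ (by simp [hsγ]) _ _ hs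
      generalize ∑ g, T' (s g) (symb Xh v p) = z at this
      conv_rhs => rw [← this]
      simp [hT', smul_smul, hψ]
    have h2 : ∑ g, T' (s g) (symb Xh v p) ∈ fil Xh v d :=
      fil_mono (show 0 + 1 ≤ d from hd) ((Submodule.span_singleton_le_iff_mem _ _).2 (fil_v 0) h1)
    have h3 : ∑ g, (T' (s g) (symb Xh v p) - symb Xh v p) ∈ fil Xh v d :=
      Submodule.sum_mem _ fun g _ => by simpa [hinv] using hK2 (s g) d p hp
    have h4 := sub_mem h2 h3
    rw [Finset.sum_sub_distrib, sub_sub_cancel, Finset.sum_const, ← Nat.cast_smul_eq_nsmul ℂ] at h4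
    exact (Submodule.smul_mem_iff _ (by simp)).1 h4
  have hK4 : ∀ d (p : MvPolynomial σ ℂ), 0 < d → p.IsHomogeneous d → (∀ g, sub (c g) p = p) →
      ∀ e (q : MvPolynomial σ ℂ), q.IsHomogeneous e → (q * p).IsHomogeneous (d + e) ∧
        symb Xh v (q * p) ∈ fil Xh v (d + e) := by
    intro d p hd hp hinv
    refine hom_ind (fun e => ⟨by simpa using isHomogeneous_zero _ _ _, by simp⟩)
      (fun e q r h1 h2 => ?_) (fun a => ?_) (fun e i q hq ih => ?_)
    · rw [add_mul, map_add]; exact ⟨h1.1.add h2.1, add_mem h1.2 h2.2⟩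
    · refine ⟨hp.C_mul a, ?_⟩
      rw [C_mul', map_smul]
      exact Submodule.smul_mem _ _ (hK3 d p hd hp hinv)
    · have h1 := symb_lin_mul hc ih.1 (Pi.single i 1)
      rw [lin_single] at h1
      rw [mul_assoc, ← add_assoc]
      refine ⟨?_, by simpa using add_mem h1 (fil_X ih.2 (Pi.single i 1))⟩
      have := (isHomogeneous_X ℂ i).mul ih.1
      rwa [add_comm] at this
  have hbd : ∀ K, Module.finrank ℂ (fil Xh v K) ≤
      Module.finrank ℂ (MvPolynomial σ ℂ ⧸ invI c) := by
    intro K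
    have h1 := (finrank_fil hc K).2
    have : ∀ k, Module.Finite ℂ ↥(homogeneousSubmodule σ ℂ k ⊓
        (fil Xh v k).comap (symb Xh v)) := fun k => Submodule.finiteDimensional_of_le inf_le_left
    have h2 := sum_le_finrank c K
      (fun k => homogeneousSubmodule σ ℂ k ⊓ (fil Xh v k).comap (symb Xh v))
      (fun k _ f hf => homComp_mem_invI c k _ (fun d e p q hd hde hp hinv hq => by
        subst hde; exact hK4 d p hd hp hinv e q hq) hf)
    omega
  obtain ⟨K, hK⟩ : ∃ K, ∀ K', Module.finrank ℂ (fil Xh v K') ≤ Module.finrank ℂ (fil Xh v K) := by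
    obtain ⟨_, ⟨K, rfl⟩, h⟩ := Set.Finite.exists_maximal (s := Set.range fun K =>
      Module.finrank ℂ (fil Xh v K)) ((Set.finite_le_nat _).subset (by
        rintro _ ⟨K, rfl⟩; exact hbd K)) ⟨_, 0, rfl⟩
    exact ⟨K, fun K' => (le_total _ _).elim id (h ⟨K', rfl⟩)⟩
  have hfin := fun K => (finrank_fil hc K).1
  have hst : ∀ K', fil Xh v K' ≤ fil Xh v K := fun K' => by
    have h1 : fil Xh v K = fil Xh v (max K K') :=
      Submodule.eq_of_le_of_finrank_le (fil_mono (le_max_left _ _)) (hK _)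
    rw [h1]
    exact fil_mono (le_max_right _ _)
  refine ⟨fil Xh v K, hL K, hst _ (fil_v 0), fun l y hy => hst _ (fil_X hy l), fun g => hTF g K,
    fun N' h1 h2 => ?_, hfin K, hbd K⟩
  generalize K = d
  induction d with
  | zero => exact bot_le
  | succ d ih => exact fil_le h1 fun l y hy => h2 l y (ih hy)

end Pool.Agent.P.MP_97ea17_al
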