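import Pool.Agent.P.MP_97ea17_al.F.GDefs

/-! Basic facts on the Hermitian inner product and on unitary reflections. -/

namespace Pool.Agent.P.MP_97ea17_al.Geo

open scoped Quaternion Matrix

variable {n : ℕ}

theorem ip_add_left (u v w : V n) : ip (u + v) w = ip u w + ip v w := by
  simp [ip, add_mul, Finset.sum_add_distrib]

theorem ip_add_right (u v w : V n) : ip u (v + w) = ip u v + ip u w := by
  simp [ip, mul_add, Finset.sum_add_distrib]

theorem ip_sub_left (u v w : V n) : ip (u - v) w = ip u w - ip v w := by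
  simp [ip, _root_.sub_mul]

theorem ip_sub_right (u v w : V n) : ip u (v - w) = ip u v - ip u w := by
  simp [ip, mul_sub]

theorem ip_neg_left (u v : V n) : ip (-u) v = -ip u v := by simp [ip]

theorem ip_neg_right (u v : V n) : ip u (-v) = -ip u v := by simp [ip]

theorem ip_zero_left (v : V n) : ip 0 v = 0 := by simp [ip]

theorem ip_zero_right (v : V n) : ip v 0 = 0 := by simp [ip]

theorem ip_rs_left (u v : V n) (q : ℍ[ℝ]) : ip (rs u q) v = star q * ip u v := by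
  simp [ip, rs, Finset.mul_sum, mul_assoc]

theorem ip_rs_right (u v : V n) (q : ℍ[ℝ]) : ip u (rs v q) = ip u v * q := by
  simp [ip, rs, Finset.sum_mul, mul_assoc]

theorem ip_sum_left {ι : Type} (s : Finset ι) (f : ι → V n) (v : V n) :
    ip (∑ i ∈ s, f i) v = ∑ i ∈ s, ip (f i) v :=
  map_sum (AddMonoidHom.mk' (fun u => ip u v) fun a b => ip_add_left a b v) f s

theorem ip_sum_right {ι : Type} (s : Finset ι) (f : ι → V n) (v : V n) :
    ip v (∑ i ∈ s, f i) = ∑ i ∈ s, ip v (f i) :=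
  map_sum (AddMonoidHom.mk' (ip v) (ip_add_right v)) f s

theorem star_ip (u v : V n) : star (ip u v) = ip v u := by simp [ip]

theorem ip_eq_zero_comm {u v : V n} : ip u v = 0 ↔ ip v u = 0 := by
  rw [← star_ip u v, star_eq_zero]

theorem ip_self (v : V n) : ip v v = (nq v : ℝ) := by
  simp only [ip, nq, Quaternion.star_mul_self]
  exact (map_sum (algebraMap ℝ ℍ[ℝ]) _ _).symm

theorem nq_eq (v : V n) : nq v = (ip v v).re := by rw [ip_self]; rfl

theorem nq_nonneg (v : V n) : 0 ≤ nq v :=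
  Finset.sum_nonneg fun _ _ => Quaternion.normSq_nonneg

theorem nq_eq_zero {v : V n} : nq v = 0 ↔ v = 0 := by
  rw [nq, Finset.sum_eq_zero_iff_of_nonneg fun _ _ => Quaternion.normSq_nonneg]
  simp [funext_iff]

theorem nq_pos {v : V n} (h : v ≠ 0) : 0 < nq v :=
  (nq_nonneg v).lt_of_ne fun e => h (nq_eq_zero.1 e.symm)

theorem nq_rs (v : V n) (q : ℍ[ℝ]) : nq (rs v q) = nq v * Quaternion.normSq q := by
  simp [nq, rs, Finset.sum_mul]

theorem rs_rs (v : V n) (p q : ℍ[ℝ]) : rs (rs v p) q = rs v (p * q) := by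
  ext1 i; simp [rs, mul_assoc]

theorem rs_one (v : V n) : rs v 1 = v := by ext1 i; simp [rs]

theorem rs_zero (v : V n) : rs v 0 = 0 := by ext1 i; simp [rs]

theorem zero_rs (q : ℍ[ℝ]) : rs (0 : V n) q = 0 := by ext1 i; simp [rs]

theorem rs_add (v : V n) (p q : ℍ[ℝ]) : rs v (p + q) = rs v p + rs v q := by
  ext1 i; simp [rs, mul_add]

theorem rs_sub (v : V n) (p q : ℍ[ℝ]) : rs v (p - q) = rs v p - rs v q := by
  ext1 i; simp [rs, mul_sub]

theorem rs_neg (v : V n) (q : ℍ[ℝ]) : rs v (-q) = -rs v q := by ext1 i; simp [rs]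

theorem add_rs (u v : V n) (q : ℍ[ℝ]) : rs (u + v) q = rs u q + rs v q := by
  ext1 i; simp [rs, add_mul]

theorem sub_rs (u v : V n) (q : ℍ[ℝ]) : rs (u - v) q = rs u q - rs v q := by
  ext1 i; simp [rs, _root_.sub_mul]

theorem neg_rs (v : V n) (q : ℍ[ℝ]) : rs (-v) q = -rs v q := by ext1 i; simp [rs]

theorem sum_rs {ι : Type} (s : Finset ι) (f : ι → V n) (q : ℍ[ℝ]) :
    rs (∑ i ∈ s, f i) q = ∑ i ∈ s, rs (f i) q := by
  ext1 i; simp [rs, Finset.sum_mul]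

theorem mulVec_rs {m : ℕ} (A : Matrix (Fin m) (Fin n) ℍ[ℝ]) (v : V n) (q : ℍ[ℝ]) :
    A *ᵥ rs v q = rs (A *ᵥ v) q := by
  ext1 i; simp [rs, Matrix.mulVec, dotProduct, Finset.sum_mul, mul_assoc]

theorem ip_mulVec_left {m : ℕ} (A : Matrix (Fin m) (Fin n) ℍ[ℝ]) (u : V n) (v : V m) :
    ip (A *ᵥ u) v = ip u (Aᴴ *ᵥ v) := by
  simp only [ip, Matrix.mulVec, dotProduct, star_sum, star_mul, Finset.sum_mul, Finset.mul_sum,
    Matrix.conjTranspose_apply, mul_assoc]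
  exact Finset.sum_comm

theorem IsU.ip {g : Matrix (Fin n) (Fin n) ℍ[ℝ]} (h : IsU g) (u v : V n) :
    ip (g *ᵥ u) (g *ᵥ v) = ip u v := by
  rw [ip_mulVec_left, Matrix.mulVec_mulVec, h, Matrix.one_mulVec]

theorem IsU.nq {g : Matrix (Fin n) (Fin n) ℍ[ℝ]} (h : IsU g) (v : V n) : nq (g *ᵥ v) = nq v := by
  rw [nq_eq, h.ip, nq_eq]

theorem IsU.tt {g : Matrix (Fin n) (Fin n) ℍ[ℝ]} (h : IsU g) (u v : V n) :
    tt (g *ᵥ u) (g *ᵥ v) = tt u v := by
  rw [Geo.tt, h.ip, Geo.tt]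

theorem IsU.mul {g h : Matrix (Fin n) (Fin n) ℍ[ℝ]} (hg : IsU g) (hh : IsU h) : IsU (g * h) := by
  rw [IsU, Matrix.conjTranspose_mul, mul_assoc, ← mul_assoc gᴴ, hg, one_mul, hh]

theorem IsU.inv_val {w : GH n} (h : IsU w.val) : (w⁻¹).val = w.valᴴ :=
  Units.inv_eq_of_mul_eq_one_left h

theorem ext_ip {u v : V n} (h : ∀ x, ip x u = ip x v) : u = v := by
  rw [← sub_eq_zero, ← nq_eq_zero, nq_eq, ip_sub_right, h, sub_self]
  rfl

theorem ext_mulVec {A B : Matrix (Fin n) (Fin n) ℍ[ℝ]} (h : ∀ v, A *ᵥ v = B *ᵥ v) : A = B :=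
  Matrix.ext_of_mulVec_single fun _ => h _

theorem tt_comm (a b : V n) : tt a b = tt b a := by
  rw [tt, ← star_ip, Quaternion.normSq_star, tt]

theorem tt_nonneg (a b : V n) : 0 ≤ tt a b := Quaternion.normSq_nonneg

theorem tt_eq_zero {a b : V n} : tt a b = 0 ↔ ip a b = 0 := Quaternion.normSq_eq_zero

theorem tt_rs_left (a b : V n) (q : ℍ[ℝ]) : tt (rs a q) b = Quaternion.normSq q * tt a b := by
  rw [tt, ip_rs_left, map_mul, Quaternion.normSq_star, tt]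

theorem tt_rs_right (a b : V n) (q : ℍ[ℝ]) : tt a (rs b q) = tt a b * Quaternion.normSq q := by
  rw [tt, ip_rs_right, map_mul, tt]

theorem ip_mul_ip (a b : V n) : ip a b * ip b a = (tt a b : ℝ) := by
  rw [← star_ip a b, Quaternion.self_mul_star, tt]

theorem nq_sub_rs (a b : V n) (q : ℍ[ℝ]) : nq (b - rs a q) =
    nq b - 2 * (ip b a * q).re + nq a * Quaternion.normSq q := by
  have h : (star q * ip a b).re = (ip b a * q).re := by
    rw [← star_ip a b, ← Quaternion.re_star, star_mul, star_star]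
  rw [nq_eq, ip_sub_left, ip_sub_right, ip_sub_right, ip_self, ip_self, nq_rs, ip_rs_left,
    ip_rs_right]
  simp only [Quaternion.re_sub, Quaternion.re_coe, h]
  ring

theorem nq_proj {a : V n} (ha : nq a ≠ 0) (b : V n) :
    nq a * nq (b - rs a ((nq a)⁻¹ • ip a b)) = nq a * nq b - tt a b := by
  rw [nq_sub_rs, mul_smul_comm, ip_mul_ip, Quaternion.normSq_smul, tt_comm b a]
  simp only [Quaternion.re_smul, Quaternion.re_coe, smul_eq_mul]
  change _ * (_ - _ + _ * (_ * tt a b)) = _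
  field_simp
  ring

/-- The inequality of Cauchy and Schwarz. -/
theorem tt_le (a b : V n) : tt a b ≤ nq a * nq b := by
  by_cases ha : nq a = 0
  · rw [ha, nq_eq_zero.1 ha, tt, ip_zero_left]; simp
  · have := mul_nonneg (nq_nonneg a) (nq_nonneg (b - rs a ((nq a)⁻¹ • ip a b)))
    rw [nq_proj ha] at this
    linarith

theorem eq_rs_of_tt {a b : V n} (ha : nq a ≠ 0) (h : tt a b = nq a * nq b) :
    b = rs a ((nq a)⁻¹ • ip a b) := by
  have := nq_proj ha b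
  rw [h, sub_self, mul_eq_zero, or_iff_right ha, nq_eq_zero, sub_eq_zero] at this
  exact this

theorem exists_unit_rs {v : V n} (h : v ≠ 0) : ∃ r : ℝ, 0 < r ∧ nq (rs v r) = 1 := by
  have := nq_pos h
  refine ⟨(√(nq v))⁻¹, by positivity, ?_⟩
  rw [nq_rs, Quaternion.normSq_coe, inv_pow, Real.sq_sqrt this.le, mul_inv_cancel₀ this.ne']

theorem ip_vec_left {r : ℕ} (e : Fin r → V n) (c : Fin r → ℍ[ℝ]) (v : V n) :
    ip (vec e c) v = ∑ i, star (c i) * ip (e i) v := by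
  simp only [vec, ip_sum_left, ip_rs_left]

theorem ip_vec_right {r : ℕ} (e : Fin r → V n) (c : Fin r → ℍ[ℝ]) (v : V n) :
    ip v (vec e c) = ∑ i, ip v (e i) * c i := by
  simp only [vec, ip_sum_right, ip_rs_right]

theorem ON.ip_vec {r : ℕ} {e : Fin r → V n} (h : ON e) (i : Fin r) (c : Fin r → ℍ[ℝ]) :
    ip (e i) (vec e c) = c i := by
  simp [ip_vec_right, h i]

theorem ON.ip_vec_vec {r : ℕ} {e : Fin r → V n} (h : ON e) (c d : Fin r → ℍ[ℝ]) :
    ip (vec e c) (vec e d) = ip c d := by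
  simp only [ip_vec_left, h.ip_vec]
  rfl

theorem ON.nq {r : ℕ} {e : Fin r → V n} (h : ON e) (i : Fin r) : nq (e i) = 1 := by
  rw [nq_eq, h i i, if_pos rfl]
  rfl

theorem reflMat_vec (a v : V n) (ξ : ℍ[ℝ]) :
    reflMat a ξ *ᵥ v = v - rs a ((nq a)⁻¹ • ((1 - ξ) * ip a v)) := by
  ext1 i
  rw [reflMat, Matrix.sub_mulVec, Matrix.one_mulVec, Pi.sub_apply, Pi.sub_apply]
  simp only [Matrix.mulVec, dotProduct, Matrix.of_apply, rs, ip, nq, Finset.mul_sum,
    Finset.smul_sum, smul_mul_assoc, mul_smul_comm, mul_assoc]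

theorem reflMat_unit {a : V n} (ha : nq a = 1) (v : V n) (ξ : ℍ[ℝ]) :
    reflMat a ξ *ᵥ v = v - rs a ((1 - ξ) * ip a v) := by
  rw [reflMat_vec, ha, inv_one, one_smul]

theorem reflMat_self {a : V n} (ha : nq a ≠ 0) (ξ : ℍ[ℝ]) : reflMat a ξ *ᵥ a = rs a ξ := by
  rw [reflMat_vec, ip_self, Quaternion.mul_coe_eq_smul, smul_smul, inv_mul_cancel₀ ha, one_smul,
    rs_sub, rs_one, sub_sub_cancel]

theorem reflMat_orth {a v : V n} (h : ip a v = 0) (ξ : ℍ[ℝ]) : reflMat a ξ *ᵥ v = v := by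
  rw [reflMat_vec, h, mul_zero, smul_zero, rs_zero, sub_zero]

theorem reflMat_mul' {a : V n} (ha : nq a ≠ 0) (ξ η : ℍ[ℝ]) :
    reflMat a ξ * reflMat a η = reflMat a (ξ * η) := by
  refine ext_mulVec fun v => ?_
  rw [← Matrix.mulVec_mulVec, reflMat_vec a v η, Matrix.mulVec_sub, mulVec_rs, reflMat_self ha,
    reflMat_vec, reflMat_vec, rs_rs, sub_sub, ← rs_add, mul_smul_comm, ← smul_add, ← mul_assoc,
    ← add_mul]
  congr 4
  noncomm_ring

theorem reflMat_one' (a : V n) : reflMat a 1 = 1 :=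
  ext_mulVec fun v => by simp [reflMat_vec, rs_zero]

theorem reflMat_star (a : V n) (ξ : ℍ[ℝ]) : (reflMat a ξ)ᴴ = reflMat a (star ξ) := by
  ext i j : 1
  simp [reflMat, Matrix.one_apply, eq_comm, mul_assoc]
  split_ifs <;> simp

theorem reflMat_isU {a : V n} (ha : nq a ≠ 0) {ξ : ℍ[ℝ]} (hξ : Quaternion.normSq ξ = 1) :
    IsU (reflMat a ξ) := by
  rw [IsU, reflMat_star, reflMat_mul' ha, Quaternion.star_mul_self, hξ]
  exact reflMat_one' a

theorem reflMat_rs (a : V n) (ξ : ℍ[ℝ]) {q : ℍ[ℝ]} (hq : q ≠ 0) :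
    reflMat (rs a q) (q⁻¹ * ξ * q) = reflMat a ξ := by
  refine ext_mulVec fun v => ?_
  have h1 : Quaternion.normSq q ≠ 0 := Quaternion.normSq_ne_zero.2 hq
  have h2 : q * ((1 - q⁻¹ * ξ * q) * (star q * ip a v)) =
      Quaternion.normSq q • ((1 - ξ) * ip a v) := by
    have h3 : q * (1 - q⁻¹ * ξ * q) = (1 - ξ) * q := by
      rw [mul_sub, _root_.sub_mul, ← mul_assoc, ← mul_assoc, mul_inv_cancel₀ hq]; simp
    rw [← mul_assoc, h3, mul_assoc, ← mul_assoc q, Quaternion.self_mul_star,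
      Quaternion.coe_mul_eq_smul, mul_smul_comm]
  rw [reflMat_vec, reflMat_vec, rs_rs, nq_rs, ip_rs_left, mul_smul_comm, h2, smul_smul, mul_inv,
    mul_assoc, inv_mul_cancel₀ h1, mul_one]

theorem reflMat_conj {g : Matrix (Fin n) (Fin n) ℍ[ℝ]} (hg : IsU g) (a : V n) (ξ : ℍ[ℝ]) :
    reflMat (g *ᵥ a) ξ * g = g * reflMat a ξ := by
  refine ext_mulVec fun v => ?_
  rw [← Matrix.mulVec_mulVec, ← Matrix.mulVec_mulVec, reflMat_vec, reflMat_vec, hg.ip, hg.nq,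
    Matrix.mulVec_sub, mulVec_rs]

section
variable {W : Subgroup (GH n)} {a : V n} {ξ η : ℍ[ℝ]}

theorem Rl.act (hW : Std W) (h : Rl W a ξ) {w : GH n} (hw : w ∈ W) : Rl W (w.val *ᵥ a) ξ := by
  obtain ⟨h1, h2, h3, r, hr, h4⟩ := h
  refine ⟨((hW.uni w hw).nq a).trans h1, h2, h3, w * r * w⁻¹,
    W.mul_mem (W.mul_mem hw hr) (W.inv_mem hw), ?_⟩
  rw [Units.val_mul, Units.val_mul, h4, ← reflMat_conj (hW.uni w hw), mul_assoc, ← Units.val_mul,
    mul_inv_cancel, Units.val_one, mul_one]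

theorem Rl.refl (hW : Std W) {b : V n} (ha : Rl W a ξ) (hb : Rl W b η) :
    Rl W (reflMat a ξ *ᵥ b) η := by
  obtain ⟨-, -, -, r, hr, h4⟩ := ha
  exact h4 ▸ hb.act hW hr

theorem Rl.rs (h : Rl W a ξ) {q : ℍ[ℝ]} (hq : Quaternion.normSq q = 1) :
    Rl W (rs a q) (q⁻¹ * ξ * q) := by
  obtain ⟨h1, h2, h3, r, hr, h4⟩ := h
  have h0 : q ≠ 0 := by rintro rfl; simp at hq
  refine ⟨by rw [nq_rs, h1, hq, mul_one], by simp [h2, hq], fun e => h3 ?_, r, hr,
    h4.trans (reflMat_rs a ξ h0).symm⟩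
  rw [mul_assoc, inv_mul_eq_one₀ h0] at e
  exact (mul_right_cancel₀ h0 ((one_mul q).trans e)).symm

theorem Rl.mul (h : Rl W a ξ) (h' : Rl W a η) (hne : ξ * η ≠ 1) : Rl W a (ξ * η) := by
  obtain ⟨h1, h2, -, r, hr, h4⟩ := h
  obtain ⟨-, h5, -, s, hs, h6⟩ := h'
  exact ⟨h1, by rw [map_mul, h2, h5, mul_one], hne, r * s, W.mul_mem hr hs, by
    rw [Units.val_mul, h4, h6, reflMat_mul' (by rw [h1]; exact one_ne_zero)]⟩

theorem Rl.star (hW : Std W) (h : Rl W a ξ) : Rl W a (star ξ) := by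
  obtain ⟨h1, h2, h3, r, hr, h4⟩ := h
  exact ⟨h1, by rwa [Quaternion.normSq_star], fun e => h3 (by simpa using congrArg Star.star e),
    r⁻¹, W.inv_mem hr, by rw [(hW.uni r hr).inv_val, h4, reflMat_star]⟩

theorem Rl.pow (h : Rl W a ξ) (k : ℕ) (hne : ξ ^ k ≠ 1) : Rl W a (ξ ^ k) := by
  obtain ⟨h1, h2, -, r, hr, h4⟩ := h
  refine ⟨h1, by rw [map_pow, h2, one_pow], hne, r ^ k, W.pow_mem hr k, ?_⟩
  clear hne
  induction k with
  | zero => simp [reflMat_one']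
  | succ k ih =>
    rw [pow_succ, Units.val_mul, ih, h4, reflMat_mul' (by rw [h1]; exact one_ne_zero), pow_succ]

end

end Pool.Agent.P.MP_97ea17_al.Geo
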