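import Pool.Agent.P.MP_97ea17_al.F.G1

/-! Orthonormal frames, unitary forms of finite groups, the shape of reflections. -/

namespace Pool.Agent.P.MP_97ea17_al.Geo

open scoped Quaternion Matrix

variable {n : ℕ} {W : Subgroup (GH n)}

theorem exists_orth {r : ℕ} (h : r < n) (e : Fin r → V n) :
    ∃ v, nq v = 1 ∧ ∀ i, ip (e i) v = 0 := by
  let φ := Matrix.mulVecBilin ℍ[ℝ] ℍ[ℝ]ᵐᵒᵖ (Matrix.of fun i j => star (e i j))
  have h1 := φ.finrank_range_add_finrank_ker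
  have h2 := (LinearMap.range φ).finrank_le
  rw [finrank_V] at h1 h2
  have h3 : LinearMap.ker φ ≠ ⊥ := fun h0 => by
    rw [h0, finrank_bot] at h1
    omega
  obtain ⟨v, hv, hv0⟩ := (Submodule.ne_bot_iff _).1 h3
  obtain ⟨c, -, hc⟩ := exists_unit_rs hv0
  refine ⟨rs v c, hc, fun i => ?_⟩
  have h4 : ip (e i) v = 0 := congrFun (LinearMap.mem_ker.1 hv) i
  rw [ip_rs_right, h4, zero_mul]

theorem ON.card_eq {r : ℕ} {e : Fin r → V n} (he : ON e)
    (hs : ∀ v, (∀ i, ip (e i) v = 0) → v = 0) : r = n := by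
  rcases lt_trichotomy r n with h | h | h
  · obtain ⟨v, h1, h2⟩ := exists_orth h e
    rw [hs v h2, nq_eq_zero.2 rfl] at h1
    exact absurd h1 zero_ne_one
  · exact h
  · obtain ⟨c, h1, h2⟩ := exists_orth h fun k i => star (e i k)
    have h3 : vec e c = 0 := by
      ext1 k
      simpa [vec, rs, Geo.ip] using h2 k
    have h4 : c = 0 := funext fun i => by rw [← he.ip_vec i c, h3, ip_zero_right]; rfl
    rw [h4, nq_eq_zero.2 rfl] at h1
    exact absurd h1 zero_ne_one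

theorem ON.exists_GL {f : Fin n → V n} (hf : ON f) :
    ∃ g : GH n, IsU g.val ∧ ∀ c, g.val *ᵥ c = vec f c := by
  have h : IsU (Matrix.of fun k i => f i k) := by
    ext i j : 1
    rw [Matrix.one_apply, ← hf i j]
    rfl
  refine ⟨Units.mkOfMulEqOne _ _ (mul_eq_one_comm.1 h), h, fun c => ?_⟩
  ext1 k
  simp [vec, rs, Matrix.mulVec, dotProduct]

theorem ON.expand {f : Fin n → V n} (hf : ON f) (v : V n) : v = vec f fun i => ip (f i) v := by
  refine sub_eq_zero.1 ?_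
  obtain ⟨g, hg, h⟩ := hf.exists_GL
  have h1 : vec f ((g⁻¹).val *ᵥ v) = v := by
    rw [← h, Matrix.mulVec_mulVec, ← Units.val_mul, mul_inv_cancel, Units.val_one,
      Matrix.one_mulVec]
  have h2 : (fun i => ip (f i) v) = (g⁻¹).val *ᵥ v :=
    funext fun i => by rw [← hf.ip_vec i ((g⁻¹).val *ᵥ v), h1]
  rw [h2, h1, sub_self]

theorem IsU.exists_GL {g : Matrix (Fin n) (Fin n) ℍ[ℝ]} (hg : IsU g) : ∃ w : GH n, w.val = g :=
  ⟨Units.mkOfMulEqOne _ _ (mul_eq_one_comm.1 hg), rfl⟩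

theorem IsU.mul_star {g : Matrix (Fin n) (Fin n) ℍ[ℝ]} (hg : IsU g) : g * gᴴ = 1 :=
  mul_eq_one_comm.1 hg

namespace G1bAux

theorem gram {B : Matrix (Fin n) (Fin n) ℍ[ℝ]} (hB : Bᴴ = B)
    (hp : ∀ v, v ≠ 0 → 0 < (ip v (B *ᵥ v)).re) :
    ∃ h : Matrix (Fin n) (Fin n) ℍ[ℝ], hᴴ * B * h = 1 := by
  have hs : ∀ u v, star (ip u (B *ᵥ v)) = ip v (B *ᵥ u) := fun u v => by
    rw [star_ip, ip_mulVec_left, hB]
  have key : ∀ r ≤ n, ∃ e : Fin r → V n,
      ∀ i j, ip (e i) (B *ᵥ e j) = if i = j then 1 else 0 := by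
    intro r
    induction r with
    | zero => exact fun _ => ⟨Fin.elim0, fun i => i.elim0⟩
    | succ r ih =>
      intro hr
      obtain ⟨e, he⟩ := ih (Nat.le_of_succ_le hr)
      obtain ⟨v, h1, h2⟩ := exists_orth hr fun i => B *ᵥ e i
      have h3 := hp v fun e => by
        rw [e, nq_eq_zero.2 rfl] at h1
        exact zero_ne_one h1
      obtain ⟨c, hc⟩ : ∃ c : ℝ, ip v (B *ᵥ v) = c := ⟨_, Quaternion.star_eq_self.1 (hs v v)⟩
      rw [hc, Quaternion.re_coe] at h3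
      have h4 : ∀ i, ip (e i) (B *ᵥ rs v (√c)⁻¹) = 0 := fun i => by
        rw [mulVec_rs, ip_rs_right, ← hB, ← ip_mulVec_left, h2, zero_mul]
      refine ⟨Fin.cons (rs v (√c)⁻¹) e, fun i j => ?_⟩
      refine Fin.cases ?_ (fun i => ?_) i <;> refine Fin.cases ?_ (fun j => ?_) j
      · rw [Fin.cons_zero, if_pos rfl, mulVec_rs, ip_rs_right, ip_rs_left, hc,
          ← Quaternion.coe_inv, Quaternion.star_coe, ← Quaternion.coe_mul, ← Quaternion.coe_mul,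
          ← Quaternion.coe_one]
        congr 1
        have h5 := Real.mul_self_sqrt h3.le
        have h6 := (Real.sqrt_pos.2 h3).ne'
        field_simp
        nlinarith
      · rw [Fin.cons_zero, Fin.cons_succ, if_neg (Fin.succ_ne_zero j).symm, ← hs, h4, star_zero]
      · rw [Fin.cons_zero, Fin.cons_succ, if_neg (Fin.succ_ne_zero i), h4]
      · simp only [Fin.cons_succ, Fin.succ_inj, he]
  obtain ⟨e, he⟩ := key n le_rfl
  refine ⟨Matrix.of fun k i => e i k, ?_⟩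
  ext i j : 1
  rw [Matrix.one_apply, ← he i j, Matrix.mul_assoc]
  rfl

theorem isU_inv {g : GH n} (hg : IsU g.val) : IsU (g⁻¹).val := by
  rw [hg.inv_val, IsU, Matrix.conjTranspose_conjTranspose, hg.mul_star]

theorem rs_inj {a : V n} (ha : nq a = 1) {p q : ℍ[ℝ]} (h : rs a p = rs a q) : p = q := by
  have := congrArg (ip a) h
  rwa [ip_rs_right, ip_rs_right, ip_self, ha, Quaternion.coe_one, one_mul, one_mul] at this

theorem conj_iff {g w : GH n} (hg : IsU g.val) {a : V n} {ξ : ℍ[ℝ]} :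
    w.val = reflMat (g.val *ᵥ a) ξ ↔ (g⁻¹ * w * g).val = reflMat a ξ := by
  rw [Units.val_mul, Units.val_mul, mul_assoc, Units.inv_mul_eq_iff_eq_mul, ← reflMat_conj hg,
    Units.mul_left_inj]

theorem conj_mem (g : GH n) {w : GH n} (hw : w ∈ W) : g * w * g⁻¹ ∈ cj g W :=
  Subgroup.mem_map_of_mem _ hw

theorem conj_sq (g : GH n) {J : Matrix (Fin n) (Fin n) ℍ[ℝ]} (h : J * J = -1) :
    (g⁻¹).val * J * g.val * ((g⁻¹).val * J * g.val) = -1 := by
  rw [mul_assoc, mul_assoc (g⁻¹).val J, mul_assoc (g⁻¹).val J, Units.mul_inv_cancel_left,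
    ← mul_assoc J, h, neg_mul, one_mul, mul_neg, Units.inv_mul]

theorem conj_left (g w : GH n) (J : Matrix (Fin n) (Fin n) ℍ[ℝ]) :
    w.val * ((g⁻¹).val * J * g.val) = (g⁻¹).val * ((g * w * g⁻¹).val * J) * g.val := by
  simp only [Units.val_mul, mul_assoc, Units.inv_mul_cancel_left]

theorem conj_right (g w : GH n) (J : Matrix (Fin n) (Fin n) ℍ[ℝ]) :
    (g⁻¹).val * J * g.val * w.val = (g⁻¹).val * (J * (g * w * g⁻¹).val) * g.val := by
  simp only [Units.val_mul, mul_assoc, Units.inv_mul, mul_one]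

end G1bAux

theorem exists_uni (W : Subgroup (GH n)) [Finite W] : ∃ g : GH n, ∀ w ∈ cj g W, IsU w.val := by
  classical
  have := Fintype.ofFinite W
  obtain ⟨h, hh⟩ := G1bAux.gram (B := ∑ w : W, w.1.valᴴ * w.1.val)
    (by simp [Matrix.conjTranspose_sum]) fun v hv => by
      rw [Matrix.sum_mulVec, ip_sum_right]
      have h1 : ∀ w : W, ip v ((w.1.valᴴ * w.1.val) *ᵥ v) = (nq (w.1.val *ᵥ v) : ℝ) := fun w => by
        rw [← ip_self, ip_mulVec_left, Matrix.mulVec_mulVec]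
      simp only [h1]
      rw [← Quaternion.algebraMap_def, ← map_sum, Quaternion.algebraMap_def, Quaternion.re_coe]
      exact Finset.sum_pos' (fun w _ => nq_nonneg _)
        ⟨1, Finset.mem_univ _, by simpa using nq_pos hv⟩
  let u : GH n := Units.mkOfMulEqOne h _ (mul_eq_one_comm.1 hh)
  refine ⟨u⁻¹, fun w hw => ?_⟩
  rw [mem_cj, inv_inv] at hw
  have h1 : h * w.val = (u * w * u⁻¹).val * h := by
    change (u * w).val = (u * w * u⁻¹ * u).val
    rw [inv_mul_cancel_right]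
  have h2 : (u * w * u⁻¹).valᴴ * (∑ x : W, x.1.valᴴ * x.1.val) * (u * w * u⁻¹).val =
      ∑ x : W, x.1.valᴴ * x.1.val := by
    rw [Finset.mul_sum, Finset.sum_mul]
    refine Fintype.sum_equiv (Equiv.mulRight (⟨_, hw⟩ : W)) _ _ fun x => ?_
    simp only [Equiv.coe_mulRight, Subgroup.coe_mul, Units.val_mul x.1, Matrix.conjTranspose_mul,
      mul_assoc]
  calc w.valᴴ * w.val = (h * w.val)ᴴ * (∑ x : W, x.1.valᴴ * x.1.val) * (h * w.val) := by
        rw [Matrix.conjTranspose_mul, mul_assoc, mul_assoc, ← mul_assoc _ h, ← mul_assoc hᴴ,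
          ← mul_assoc hᴴ, hh, one_mul]
    _ = 1 := by
        rw [h1, Matrix.conjTranspose_mul, mul_assoc hᴴ, mul_assoc hᴴ, ← mul_assoc _ _ h, h2,
          ← mul_assoc, hh]

theorem exists_std (h : IsIrredReflGroup W) : ∃ g : GH n, Std (cj g W) := by
  have := h.1
  obtain ⟨g, hg⟩ := exists_uni W
  exact ⟨g, h.cj g, hg⟩

theorem Std.cj (hW : Std W) {g : GH n} (hg : IsU g.val) : Std (cj g W) := by
  refine ⟨hW.irr.cj g, fun w hw => ?_⟩
  have h : w = g * (g⁻¹ * w * g) * g⁻¹ := by group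
  rw [h, Units.val_mul, Units.val_mul]
  exact (hg.mul (hW.uni _ (mem_cj.1 hw))).mul (G1bAux.isU_inv hg)

theorem Std.finite (hW : Std W) : Finite W := hW.irr.1

theorem isRefl_reflMat {w : GH n} (hw : IsOfFinOrder w) {a : V n} {ξ : ℍ[ℝ]} (ha : a ≠ 0)
    (hξ : ξ ≠ 1) (h : w.val = reflMat a ξ) : IsRefl w := by
  refine ⟨hw, ?_⟩
  set φ := Matrix.mulVecBilin ℍ[ℝ] ℍ[ℝ]ᵐᵒᵖ (w.val - 1) with hφ
  have h1 := φ.finrank_range_add_finrank_ker
  rw [finrank_V] at h1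
  have h2 : ∀ v, φ v = reflMat a ξ *ᵥ v - v := fun v => by
    rw [← h]
    change (w.val - 1) *ᵥ v = _
    rw [Matrix.sub_mulVec, Matrix.one_mulVec]
  have h3 : a ∈ LinearMap.range φ := ⟨rs a (ξ - 1)⁻¹, by
    rw [h2, mulVec_rs, reflMat_self (nq_pos ha).ne', ← sub_rs, ← rs_one a, rs_rs, one_mul,
      ← rs_sub, rs_rs, mul_inv_cancel₀ (sub_ne_zero.2 hξ)]⟩
  have h4 : Module.finrank ℍ[ℝ]ᵐᵒᵖ (LinearMap.range φ) = 1 := by
    refine finrank_eq_one_iff'.2 ⟨⟨a, h3⟩, fun e => ha (congrArg Subtype.val e), ?_⟩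
    rintro ⟨_, v, rfl⟩
    refine ⟨MulOpposite.op (-((nq a)⁻¹ • ((1 - ξ) * ip a v))), Subtype.ext ?_⟩
    change rs a _ = φ v
    rw [h2, reflMat_vec, MulOpposite.unop_op, rs_neg, sub_sub_cancel_left]
  omega

theorem Std.refl_iff (hW : Std W) {w : GH n} (hw : w ∈ W) : IsRefl w ↔
    ∃ a ξ, nq a = 1 ∧ Quaternion.normSq ξ = 1 ∧ ξ ≠ 1 ∧ w.val = reflMat a ξ := by
  constructor
  · intro hr
    have hu := hW.uni w hw
    obtain ⟨a₀, b, ha₀, hb, hab⟩ := hr.rank_one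
    obtain ⟨c, hc, ha⟩ := exists_unit_rs ha₀
    have hc' : (c : ℍ[ℝ]) ≠ 0 := fun e => hc.ne' (Quaternion.coe_injective e)
    obtain ⟨a, ha'⟩ : ∃ a, a = rs a₀ c := ⟨_, rfl⟩
    rw [← ha'] at ha
    obtain ⟨β, hβ⟩ : ∃ β : V n → ℍ[ℝ], ∀ v, w.val *ᵥ v = v + rs a (β v) := by
      refine ⟨fun v => (c : ℍ[ℝ])⁻¹ * ∑ j, b j * v j, fun v => ?_⟩
      rw [ha', rs_rs, mul_inv_cancel_left₀ hc', ← sub_eq_iff_eq_add']
      conv_lhs => rw [← Matrix.one_mulVec v, Matrix.mulVec_mulVec, mul_one, ← Matrix.sub_mulVec]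
      ext1 i
      simp only [Matrix.mulVec, dotProduct, hab, rs, Finset.mul_sum, mul_assoc]
    have h1 : ∀ v, ip a v = 0 → w.val *ᵥ v = v := fun v hv => by
      have h2 := hu.ip v v
      rw [hβ, ip_add_left, ip_add_right, ip_add_right, ip_rs_left, ip_rs_right, hv,
        ip_eq_zero_comm.1 hv, ip_self (rs a _), nq_rs, ha, mul_zero, zero_mul, add_zero, zero_add,
        one_mul, add_eq_left] at h2
      rw [hβ, Quaternion.normSq_eq_zero.1 (Quaternion.coe_injective h2), rs_zero, add_zero]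
    have h2 : w.val *ᵥ a = rs a (1 + β a) := by rw [hβ, rs_add, rs_one]
    have h3 : w.val = reflMat a (1 + β a) := ext_mulVec fun v => by
      have h4 := h1 (v - rs a (ip a v)) (by
        rw [ip_sub_right, ip_rs_right, ip_self, ha, Quaternion.coe_one, one_mul, sub_self])
      rw [Matrix.mulVec_sub, mulVec_rs, h2, sub_eq_iff_eq_add, rs_rs] at h4
      rw [h4, reflMat_unit ha, _root_.sub_mul, one_mul, rs_sub]
      abel
    refine ⟨a, 1 + β a, ha, ?_, fun e => ?_, h3⟩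
    · have h4 := hu.nq a
      rwa [h2, nq_rs, ha, one_mul] at h4
    · rw [e, reflMat_one'] at h3
      obtain ⟨i, hi⟩ := Function.ne_iff.1 ha₀
      obtain ⟨j, hj⟩ := Function.ne_iff.1 hb
      have h4 := hab i j
      rw [h3, sub_self] at h4
      exact mul_ne_zero hi hj h4.symm
  · rintro ⟨a, ξ, ha, -, hξ, h⟩
    have := hW.finite
    have hf := W.subtype.isOfFinOrder (isOfFinOrder_of_finite (⟨w, hw⟩ : W))
    rw [Subgroup.subtype_apply] at hf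
    refine isRefl_reflMat hf (fun e => ?_) hξ h
    rw [e, nq_eq_zero.2 rfl] at ha
    exact zero_ne_one ha

theorem Std.le_of_refl (hW : Std W) (H : Subgroup (GH n))
    (h : ∀ w ∈ W, ∀ a ξ, Rl W a ξ → w.val = reflMat a ξ → w ∈ H) : W ≤ H := by
  refine hW.irr.2.1.ge.trans ((Subgroup.closure_le _).2 ?_)
  rintro w ⟨hw, hr⟩
  obtain ⟨a, ξ, h1, h2, h3, h4⟩ := (hW.refl_iff hw).1 hr
  exact h w hw a ξ ⟨h1, h2, h3, w, hw, h4⟩ h4

theorem Std.induction (hW : Std W) (P : GH n → Prop) (h1 : P 1)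
    (hm : ∀ r ∈ W, ∀ a ξ, Rl W a ξ → r.val = reflMat a ξ → ∀ w ∈ W, P w → P (r * w)) :
    ∀ w ∈ W, P w := by
  intro w hw
  rw [← hW.irr.2.1] at hw
  induction hw using Subgroup.closure_induction_left with
  | one => exact h1
  | mul_left x hx y hy ih =>
    obtain ⟨a, ξ, e1, e2, e3, e4⟩ := (hW.refl_iff hx.1).1 hx.2
    exact hm x hx.1 a ξ ⟨e1, e2, e3, x, hx.1, e4⟩ e4 y (hW.irr.2.1.le hy) ih
  | inv_mul_cancel x hx y hy ih =>
    obtain ⟨a, ξ, e1, e2, e3, e4⟩ := (hW.refl_iff hx.1).1 hx.2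
    exact hm x⁻¹ (W.inv_mem hx.1) a (star ξ) (Rl.star hW ⟨e1, e2, e3, x, hx.1, e4⟩)
      (by rw [(hW.uni x hx.1).inv_val, e4, reflMat_star]) y (hW.irr.2.1.le hy) ih

theorem Std.irred (hW : Std W) (S : V n → Prop) (h0 : S 0) (ha : ∀ u v, S u → S v → S (u + v))
    (hr : ∀ v q, S v → S (rs v q)) (hs : ∀ w ∈ W, ∀ v, S v → S (w.val *ᵥ v)) :
    (∀ v, S v → v = 0) ∨ ∀ v, S v := by
  let U : Submodule ℍ[ℝ]ᵐᵒᵖ (V n) :=
    { carrier := {v | S v}
      add_mem' := ha _ _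
      zero_mem' := h0
      smul_mem' := fun c v hv => hr v c.unop hv }
  rcases hW.irr.2.2 U hs with h | h
  · exact Or.inl fun v hv => (Submodule.eq_bot_iff _).1 h v hv
  · exact Or.inr fun v => (Submodule.eq_top_iff'.1 h v :)

theorem refl_unique {a b : V n} {ξ η : ℍ[ℝ]} (ha : nq a = 1) (hb : nq b = 1) (hξ : ξ ≠ 1)
    (h : reflMat a ξ = reflMat b η) :
    ∃ q, Quaternion.normSq q = 1 ∧ b = rs a q ∧ η = q⁻¹ * ξ * q := by
  have h1 := reflMat_unit ha a ξ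
  rw [h, reflMat_unit hb, sub_right_inj, ip_self, ha, Quaternion.coe_one, mul_one] at h1
  obtain ⟨p, hp⟩ : ∃ p, a = rs b p := ⟨(1 - η) * ip b a * (1 - ξ)⁻¹, by
    rw [← rs_rs, h1, rs_rs, mul_inv_cancel₀ (sub_ne_zero.2 hξ.symm), rs_one]⟩
  have h2 : Quaternion.normSq p = 1 := by rwa [hp, nq_rs, hb, one_mul] at ha
  have h3 : p ≠ 0 := by rintro rfl; simp at h2
  have h4 : b = rs a p⁻¹ := by rw [hp, rs_rs, mul_inv_cancel₀ h3, rs_one]
  refine ⟨p⁻¹, by rw [map_inv₀, h2, inv_one], h4, ?_⟩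
  have h5 := reflMat_rs a ξ (inv_ne_zero h3)
  rw [← h4, h] at h5
  have h6 := reflMat_self (hb.trans_ne one_ne_zero) η
  rw [← h5, reflMat_self (hb.trans_ne one_ne_zero)] at h6
  exact (G1bAux.rs_inj hb h6).symm

theorem Rl.fin_order (hW : Std W) {a : V n} {ξ : ℍ[ℝ]} (h : Rl W a ξ) : IsOfFinOrder ξ := by
  obtain ⟨h1, -, -, w, hw, h4⟩ := h
  have := hW.finite
  have h0 : nq a ≠ 0 := h1.trans_ne one_ne_zero
  obtain ⟨k, hk, e⟩ := isOfFinOrder_iff_pow_eq_one.1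
    (W.subtype.isOfFinOrder (isOfFinOrder_of_finite (⟨w, hw⟩ : W)))
  have h5 : ∀ k : ℕ, (w ^ k).val = reflMat a (ξ ^ k) := fun k => by
    induction k with
    | zero => simp [reflMat_one']
    | succ k ih => rw [pow_succ, Units.val_mul, ih, h4, reflMat_mul' h0, pow_succ]
  refine isOfFinOrder_iff_pow_eq_one.2 ⟨k, hk, G1bAux.rs_inj h1 ?_⟩
  rw [← reflMat_self h0, ← h5, show w ^ k = 1 from e, Units.val_one, Matrix.one_mulVec, rs_one]

theorem Std.finite_tt (hW : Std W) :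
    Set.Finite {t | ∃ a ξ b η, Rl W a ξ ∧ Rl W b η ∧ t = tt a b} := by
  have := hW.finite
  refine (Set.finite_iUnion (f := fun p : W × W => {t | ∃ a ξ b η, nq a = 1 ∧ ξ ≠ 1 ∧ nq b = 1 ∧
    η ≠ 1 ∧ p.1.1.val = reflMat a ξ ∧ p.2.1.val = reflMat b η ∧ t = tt a b}) fun p =>
      Set.Subsingleton.finite ?_).subset ?_
  · rintro _ ⟨a, ξ, b, η, h1, h2, h3, h4, h5, h6, rfl⟩ _ ⟨a', ξ', b', η', e1, -, e3, -, e5, e6, rfl⟩
    obtain ⟨p, hp, rfl, -⟩ := refl_unique h1 e1 h2 (h5.symm.trans e5)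
    obtain ⟨q, hq, rfl, -⟩ := refl_unique h3 e3 h4 (h6.symm.trans e6)
    rw [tt_rs_left, tt_rs_right, hp, hq, one_mul, mul_one]
  · rintro _ ⟨a, ξ, b, η, ⟨h1, -, h2, w, hw, h3⟩, ⟨h4, -, h5, w', hw', h6⟩, rfl⟩
    exact Set.mem_iUnion.2 ⟨(⟨w, hw⟩, ⟨w', hw'⟩), a, ξ, b, η, h1, h2, h4, h5, h3, h6, rfl⟩

theorem rl_cj {g : GH n} (hg : IsU g.val) {a : V n} {ξ : ℍ[ℝ]} :
    Rl (cj g W) (g.val *ᵥ a) ξ ↔ Rl W a ξ := by
  unfold Rl
  rw [hg.nq]
  refine and_congr_right fun _ => and_congr_right fun _ => and_congr_right fun _ => ⟨?_, ?_⟩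
  · rintro ⟨w, hw, h⟩
    exact ⟨_, mem_cj.1 hw, (G1bAux.conj_iff hg).1 h⟩
  · rintro ⟨w, hw, h⟩
    have e : g⁻¹ * (g * w * g⁻¹) * g = w := by group
    exact ⟨g * w * g⁻¹, mem_cj.2 (e.symm ▸ hw), (G1bAux.conj_iff hg).2 (e.symm ▸ h)⟩

theorem Mono.of_cj {g : GH n} (hg : IsU g.val) (h : Mono (cj g W)) : Mono W := by
  obtain ⟨f, hf, h⟩ := h
  refine ⟨fun i => (g⁻¹).val *ᵥ f i, fun i j => ((G1bAux.isU_inv hg).ip _ _).trans (hf i j),
    fun w hw i => ?_⟩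
  obtain ⟨j, q, e⟩ := h _ (G1bAux.conj_mem g hw) i
  refine ⟨j, q, ?_⟩
  rw [← mulVec_rs, ← e, Matrix.mulVec_mulVec, Matrix.mulVec_mulVec, ← Units.val_mul,
    ← Units.val_mul, mul_assoc, inv_mul_cancel_left]

theorem NJ.of_cj {g : GH n} (hg : IsU g.val) (h : NJ (cj g W)) : NJ W := by
  obtain ⟨J, h1, h2, h⟩ := h
  refine ⟨(g⁻¹).val * J * g.val, ((G1bAux.isU_inv hg).mul h1).mul hg, G1bAux.conj_sq g h2,
    fun w hw => ?_⟩
  rw [G1bAux.conj_left, G1bAux.conj_right]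
  rcases h _ (G1bAux.conj_mem g hw) with e | e
  · exact Or.inl (by rw [e])
  · exact Or.inr (by rw [e, mul_neg, neg_mul])

theorem Cpx.of_cj {g : GH n} (hg : IsU g.val) (h : Cpx (cj g W)) : Cpx W := by
  obtain ⟨J, h1, h2, h⟩ := h
  refine ⟨(g⁻¹).val * J * g.val, ((G1bAux.isU_inv hg).mul h1).mul hg, G1bAux.conj_sq g h2,
    fun w hw => ?_⟩
  rw [G1bAux.conj_left, G1bAux.conj_right, h _ (G1bAux.conj_mem g hw)]

theorem Cpx.nj (h : Cpx W) : NJ W := by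
  obtain ⟨J, h1, h2, h⟩ := h
  exact ⟨J, h1, h2, fun w hw => Or.inl (h w hw)⟩

/-- The root of a listed generator. -/
noncomputable def rt (n D : ℕ) (r : List ℤ × List (List ℤ)) : V n := fun i => quat D (r.2.getD i [])

/-- The value of a listed generator. -/
noncomputable def xi (D : ℕ) (r : List ℤ × List (List ℤ)) : ℍ[ℝ] := (2 : ℝ)⁻¹ • quat D r.1

theorem gen_mem_cj {D : ℕ} {R : List (List ℤ × List (List ℤ))} {g w : GH n} (hg : IsU g.val)
    {r : List ℤ × List (List ℤ)} (hr : r ∈ R)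
    (h : w.val = reflMat (g.val *ᵥ rt n D r) (xi D r)) : w ∈ cj g (grp n D R) :=
  mem_cj.2 (Subgroup.subset_closure ⟨r, hr, (G1bAux.conj_iff hg).1 h⟩)

theorem cj_grp_le {D : ℕ} {R : List (List ℤ × List (List ℤ))} {g : GH n} (hg : IsU g.val)
    (h : ∀ r ∈ R, ∃ w ∈ W, w.val = reflMat (g.val *ᵥ rt n D r) (xi D r)) :
    cj g (grp n D R) ≤ W := by
  refine Subgroup.map_le_iff_le_comap.2 ((Subgroup.closure_le _).2 ?_)
  rintro u ⟨r, hr, hu⟩
  obtain ⟨w, hw, e⟩ := h r hr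
  have h1 : g⁻¹ * w * g = u := Units.ext (((G1bAux.conj_iff hg).1 e).trans hu.symm)
  have h2 : g * u * g⁻¹ = w := by rw [← h1]; group
  change g * u * g⁻¹ ∈ W
  rwa [h2]

theorem bound_of_grp {D : ℕ} {R : List (List ℤ × List (List ℤ))} (hB : Bound (grp n D R))
    {g : GH n} (hg : IsU g.val)
    (h1 : ∀ r ∈ R, ∃ w ∈ W, w.val = reflMat (g.val *ᵥ rt n D r) (xi D r))
    (h2 : W ≤ cj g (grp n D R)) : Bound W := by
  rw [le_antisymm h2 (cj_grp_le hg h1)]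
  exact (bound_cj g _).2 hB

end Pool.Agent.P.MP_97ea17_al.Geo
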