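import Pool.Agent.P.MP_97ea17_al.F.G2

/-! The theorem of Blichfeldt and the angles between roots of reflections of order two. -/

namespace Pool.Agent.P.MP_97ea17_al.Geo

open scoped Quaternion Matrix

namespace G3Aux

open scoped RealInnerProductSpace

variable {E : Type} [NormedAddCommGroup E] [InnerProductSpace ℝ E] [Module.Finite ℝ E]
  {Γ : Type} [Group Γ] {ρ : Γ →* Module.End ℝ E}

omit [Module.Finite ℝ E] in
theorem rho_inv (x : Γ) (v : E) : ρ x (ρ x⁻¹ v) = v := by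
  rw [← Module.End.mul_apply, ← map_mul, mul_inv_cancel, map_one, Module.End.one_apply]

omit [Module.Finite ℝ E] in
theorem rho_inv' (x : Γ) (v : E) : ρ x⁻¹ (ρ x v) = v := by
  simpa using rho_inv (ρ := ρ) x⁻¹ v

omit [Module.Finite ℝ E] in
theorem rho_adj (hρ : ∀ w x y, ⟪ρ w x, ρ w y⟫ = ⟪x, y⟫) (w : Γ) (x y : E) :
    ⟪ρ w x, y⟫ = ⟪x, ρ w⁻¹ y⟫ := by
  rw [← hρ w x, rho_inv]

/-- The fixed space. -/
def fx (ρ : Γ →* Module.End ℝ E) (g : Γ) : Submodule ℝ E := LinearMap.ker (ρ g - 1)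

omit [Module.Finite ℝ E] in
theorem mem_fx {g : Γ} {v : E} : v ∈ fx ρ g ↔ ρ g v = v := by
  rw [fx, LinearMap.mem_ker, LinearMap.sub_apply, Module.End.one_apply, sub_eq_zero]

/-- The defect of invariance of a subspace. -/
noncomputable def df (U : Submodule ℝ E) (T : Module.End ℝ E) : ℝ :=
  ∑ i, ⟪T (U.starProjection (stdOrthonormalBasis ℝ E i)) -
      U.starProjection (T (U.starProjection (stdOrthonormalBasis ℝ E i))),
    T (U.starProjection (stdOrthonormalBasis ℝ E i)) -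
      U.starProjection (T (U.starProjection (stdOrthonormalBasis ℝ E i)))⟫

theorem pyth (U : Submodule ℝ E) (v : E) : ⟪v - U.starProjection v, v - U.starProjection v⟫ =
    ⟪v, v⟫ - ⟪U.starProjection v, U.starProjection v⟫ := by
  have h := U.starProjection_inner_eq_zero v _ (U.starProjection_apply_mem v)
  rw [inner_sub_left] at h
  rw [inner_sub_left, inner_sub_right, inner_sub_right, real_inner_comm v (U.starProjection v)]
  linarith

theorem df_inv (hρ : ∀ w x y, ⟪ρ w x, ρ w y⟫ = ⟪x, y⟫) (U : Submodule ℝ E) (x : Γ) :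
    df U (ρ x⁻¹) = df U (ρ x) := by
  simp only [df, pyth, hρ, Finset.sum_sub_distrib]
  congr 1
  simp only [real_inner_self_eq_norm_sq, ← (stdOrthonormalBasis ℝ E).sum_sq_inner_right]
  rw [Finset.sum_comm]
  refine Finset.sum_congr rfl fun i _ => Finset.sum_congr rfl fun j _ => ?_
  rw [← U.inner_starProjection_left_eq_right, ← rho_adj hρ, ← U.inner_starProjection_left_eq_right,
    real_inner_comm]

theorem df_zero {U : Submodule ℝ E} {T : Module.End ℝ E} (h : df U T = 0) {u : E} (hu : u ∈ U) :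
    T u ∈ U := by
  rw [df, Finset.sum_eq_zero_iff_of_nonneg fun _ _ => real_inner_self_nonneg] at h
  have h1 : ∀ i, T (U.starProjection (stdOrthonormalBasis ℝ E i)) ∈ U := fun i => by
    have := h i (Finset.mem_univ i)
    rw [inner_self_eq_zero, sub_eq_zero] at this
    rw [this]
    exact U.starProjection_apply_mem _
  rw [← U.starProjection_eq_self_iff.2 hu, ← (stdOrthonormalBasis ℝ E).sum_repr u, map_sum, map_sum]
  refine U.sum_mem fun i _ => ?_
  rw [map_smul, map_smul]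
  exact U.smul_mem _ (h1 i)

/-- The pointwise comparison in the argument of Blichfeldt. -/
theorem point (hρ : ∀ w x y, ⟪ρ w x, ρ w y⟫ = ⟪x, y⟫) {g x : Γ}
    (hg : ∀ v, ⟪v, v⟫ ≤ 2 * ⟪ρ g v, v⟫) (hx : ∀ v, ⟪v, v⟫ ≤ 2 * ⟪ρ x v, v⟫) {u z s : E}
    (hu : u ∈ fx ρ g) (hz : z = ρ x⁻¹ u - (fx ρ g).starProjection (ρ x⁻¹ u))
    (hs : s = ρ (x * g * x⁻¹) u - (fx ρ g).starProjection (ρ (x * g * x⁻¹) u)) :
    ⟪s, s⟫ ≤ ⟪z, z⟫ ∧ (⟪s, s⟫ = 0 ∨ ⟪s, s⟫ = ⟪z, z⟫ → ⟪z, z⟫ = 0) := by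
  set U := fx ρ g with hU
  have z0 : ∀ a ∈ U, ⟪z, a⟫ = 0 := fun a ha => hz ▸ U.starProjection_inner_eq_zero _ a ha
  obtain ⟨v, hv⟩ : ∃ v, v = ρ g z - z := ⟨_, rfl⟩
  have v0 : ∀ a ∈ U, ⟪v, a⟫ = 0 := fun a ha => by
    have := hρ g z a
    rw [mem_fx.1 ha] at this
    rw [hv, inner_sub_left, this, sub_self]
  have vv : ⟪v, v⟫ = 2 * ⟪z, z⟫ - 2 * ⟪ρ g z, z⟫ := by
    rw [hv, inner_sub_left, inner_sub_right, inner_sub_right, hρ, real_inner_comm (ρ g z) z]
    ring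
  have e1 : ρ (x * g * x⁻¹) u = u + ρ x v := by
    have e : ρ g (ρ x⁻¹ u) = ρ x⁻¹ u + v := by
      rw [hv, hz, map_sub, mem_fx.1 (U.starProjection_apply_mem _)]
      abel
    rw [map_mul, map_mul, Module.End.mul_apply, Module.End.mul_apply, e, map_add, rho_inv]
  have e2 : s = ρ x v - U.starProjection (ρ x v) := by
    rw [hs, e1, map_add, U.starProjection_eq_self_iff.2 hu]
    abel
  have e3 := pyth U (ρ x v)
  rw [← e2, hρ] at e3
  have p0 : 0 ≤ ⟪U.starProjection (ρ x v), U.starProjection (ρ x v)⟫ := real_inner_self_nonneg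
  have g0 := hg z
  have fin : ⟪v, v⟫ ≤ 0 → ⟪z, z⟫ = 0 := fun h => by
    have : v = 0 := real_inner_self_nonpos.1 h
    rw [hv, sub_eq_zero] at this
    exact z0 z (mem_fx.2 this)
  refine ⟨by linarith, fun h => fin ?_⟩
  rcases h with h | h
  · rw [inner_self_eq_zero, e2, sub_eq_zero] at h
    have := v0 _ (U.starProjection_apply_mem (ρ x v))
    rw [← h, real_inner_comm] at this
    have := hx v
    linarith
  · have h1 : U.starProjection (ρ x v) = 0 := real_inner_self_nonpos.1 (by linarith)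
    have h2 := U.starProjection_inner_eq_zero (ρ x v) u hu
    rw [h1, sub_zero, rho_adj hρ] at h2
    have h3 := v0 _ (U.starProjection_apply_mem (ρ x⁻¹ u))
    have h4 : ⟪v, z⟫ = 0 := by rw [hz, inner_sub_right, h2, h3, sub_self]
    rw [hv, inner_sub_left] at h4
    linarith

omit [Module.Finite ℝ E] in
theorem conj_near (hρ : ∀ w x y, ⟪ρ w x, ρ w y⟫ = ⟪x, y⟫) {g : Γ}
    (hg : ∀ v, ⟪v, v⟫ ≤ 2 * ⟪ρ g v, v⟫) (w : Γ) (v : E) :
    ⟪v, v⟫ ≤ 2 * ⟪ρ (w * g * w⁻¹) v, v⟫ := by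
  have := hg (ρ w⁻¹ v)
  rwa [hρ, ← rho_adj hρ, ← Module.End.mul_apply, ← Module.End.mul_apply, ← map_mul,
    ← map_mul] at this

/-- Every conjugate of `g` preserves the fixed space of `g`. -/
theorem step1 [Finite Γ] (hρ : ∀ w x y, ⟪ρ w x, ρ w y⟫ = ⟪x, y⟫) {g : Γ}
    (hg : ∀ v, ⟪v, v⟫ ≤ 2 * ⟪ρ g v, v⟫) (w : Γ) : df (fx ρ g) (ρ (w * g * w⁻¹)) = 0 := by
  by_contra hw
  obtain ⟨⟨w₀, h0⟩, hmin⟩ := @Finite.exists_min {w : Γ // df (fx ρ g) (ρ (w * g * w⁻¹)) ≠ 0} ℝ _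
    ⟨⟨w, hw⟩⟩ _ fun w => df (fx ρ g) (ρ (w.1 * g * w.1⁻¹))
  obtain ⟨x, hx⟩ : ∃ x, x = w₀ * g * w₀⁻¹ := ⟨_, rfl⟩
  have hn : ∀ v, ⟪v, v⟫ ≤ 2 * ⟪ρ x v, v⟫ := hx ▸ conj_near hρ hg w₀
  have hp := fun i => point hρ hg hn
    ((fx ρ g).starProjection_apply_mem (stdOrthonormalBasis ℝ E i)) rfl rfl
  rw [← hx, ← df_inv hρ] at h0
  refine h0 (Finset.sum_eq_zero fun i hi => (hp i).2 ?_)
  by_cases hy : df (fx ρ g) (ρ (x * g * x⁻¹)) = 0
  · rw [df, Finset.sum_eq_zero_iff_of_nonneg fun _ _ => real_inner_self_nonneg] at hy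
    exact Or.inl (hy i hi)
  · have h1 := hmin ⟨x, hy⟩
    simp only [← hx] at h1
    rw [← df_inv hρ] at h1
    have h2 := Finset.sum_le_sum fun i (_ : i ∈ Finset.univ) => (hp i).1
    exact Or.inr ((Finset.sum_eq_sum_iff_of_le fun i _ => (hp i).1).1 (le_antisymm h2 h1) i hi)

theorem atoms' [Finite Γ] (hρ : ∀ w x y, ⟪ρ w x, ρ w y⟫ = ⟪x, y⟫) (g : Γ)
    (hg : ∀ v, ⟪v, v⟫ ≤ 2 * ⟪ρ g v, v⟫) {v₀ : E} (h0 : v₀ ≠ 0) :
    ∃ x, x ≠ 0 ∧ ∀ w, ρ g (ρ w x) = ρ w x ∨ ∀ v, ρ g v = v → ⟪v, ρ w x⟫ = 0 := by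
  obtain ⟨S, hS⟩ := exists_minimal_of_wellFoundedLT
    (fun S : Submodule ℝ E => S ≠ ⊥ ∧ ∀ w, ∀ v ∈ S, ρ (w * g * w⁻¹) v ∈ S)
    ⟨⊤, fun h => h0 ((Submodule.eq_bot_iff _).1 h v₀ trivial), fun _ _ _ => trivial⟩
  obtain ⟨x, hx, hx0⟩ := (Submodule.ne_bot_iff _).1 hS.prop.1
  refine ⟨x, hx0, fun w => ?_⟩
  by_cases hb : S ⊓ (fx ρ g).comap (ρ w) = ⊥
  · right
    intro v hv
    have hst : ∀ a ∈ S, (ρ (w⁻¹ * g * w⁻¹⁻¹) - 1) a ∈ S := fun a ha =>
      S.sub_mem (hS.prop.2 _ a ha) ha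
    have e : ∀ a, ρ w (ρ (w⁻¹ * g * w⁻¹⁻¹) a) = ρ g (ρ w a) := fun a => by
      rw [← Module.End.mul_apply, ← Module.End.mul_apply, ← map_mul, ← map_mul]
      congr 2
      group
    have inj : Function.Injective ((ρ (w⁻¹ * g * w⁻¹⁻¹) - 1).restrict hst) := by
      refine (injective_iff_map_eq_zero _).2 fun a ha => Subtype.ext ?_
      have h1 : ρ (w⁻¹ * g * w⁻¹⁻¹) a.1 - a.1 = 0 := congrArg Subtype.val ha
      refine (Submodule.eq_bot_iff _).1 hb a.1 ⟨a.2, mem_fx.2 ?_⟩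
      rw [← e, sub_eq_zero.1 h1]
    obtain ⟨a, ha⟩ := LinearMap.injective_iff_surjective.1 inj ⟨x, hx⟩
    have h1 : ρ (w⁻¹ * g * w⁻¹⁻¹) a.1 - a.1 = x := congrArg Subtype.val ha
    have h2 := hρ g v (ρ w a.1)
    rw [hv] at h2
    rw [← h1, map_sub, e, inner_sub_right, h2, sub_self]
  · left
    have hle := hS.le_of_le (y := S ⊓ (fx ρ g).comap (ρ w)) ⟨hb, fun w' v hv => ⟨hS.prop.2 w' v hv.1, ?_⟩⟩
      inf_le_left
    · exact mem_fx.1 (hle hx).2
    · have h1 := df_zero (step1 hρ hg (w * w')) (u := ρ w v) hv.2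
      have e : ρ (w * w' * g * (w * w')⁻¹) (ρ w v) = ρ w (ρ (w' * g * w'⁻¹) v) := by
        rw [← Module.End.mul_apply, ← Module.End.mul_apply, ← map_mul, ← map_mul]
        congr 2
        group
      rw [e] at h1
      exact h1

end G3Aux

theorem atoms {E : Type} [AddCommGroup E] [Module ℝ E] [Module.Finite ℝ E]
    (B : E →ₗ[ℝ] E →ₗ[ℝ] ℝ) (hs : ∀ x y, B x y = B y x) (hp : ∀ x, x ≠ 0 → 0 < B x x)
    {Γ : Type} [Group Γ] [Finite Γ] (ρ : Γ →* Module.End ℝ E)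
    (hρ : ∀ w x y, B (ρ w x) (ρ w y) = B x y) (g : Γ) (hg : ∀ v, B v v ≤ 2 * B (ρ g v) v)
    {v₀ : E} (h0 : v₀ ≠ 0) :
    ∃ x, x ≠ 0 ∧ ∀ w, ρ g (ρ w x) = ρ w x ∨ ∀ v, ρ g v = v → B v (ρ w x) = 0 := by
  let c : InnerProductSpace.Core ℝ E :=
    { inner := fun x y => B x y
      conj_inner_symm := fun x y => hs y x
      re_inner_nonneg := fun x => by
        by_cases hx : x = 0
        · simp [hx]
        · exact (hp x hx).le
      add_left := fun x y z => by simp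
      smul_left := fun x y r => by simp
      definite := fun x hx => by
        by_contra h
        exact (hp x h).ne' hx }
  letI : NormedAddCommGroup E := c.toNormedAddCommGroup
  letI : InnerProductSpace ℝ E := InnerProductSpace.ofCore c.toCore
  exact G3Aux.atoms' (E := E) (ρ := ρ) hρ g hg h0

variable {n : ℕ} {W : Subgroup (GH n)}

namespace G3Aux

theorem smul_eq_rs (r : ℝ) (v : V n) : r • v = rs v r := by
  ext1 i
  simp [rs, Quaternion.mul_coe_eq_smul]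

theorem re_ip_comm (u v : V n) : (ip u v).re = (ip v u).re := by
  rw [← star_ip u v, Quaternion.re_star]

theorem re_ip_smul (r : ℝ) (u v : V n) : (ip u (r • v)).re = r * (ip u v).re := by
  rw [smul_eq_rs, ip_rs_right, Quaternion.mul_coe_eq_smul, Quaternion.re_smul, smul_eq_mul]

theorem re_ip_smul' (r : ℝ) (u v : V n) : (ip (r • u) v).re = r * (ip u v).re := by
  rw [re_ip_comm, re_ip_smul, re_ip_comm]

/-- The real inner product. -/
noncomputable def bil (n : ℕ) : V n →ₗ[ℝ] V n →ₗ[ℝ] ℝ :=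
  LinearMap.mk₂ ℝ (fun u v => (ip u v).re)
    (fun _ _ _ => by rw [ip_add_left, Quaternion.re_add]) (fun r u v => re_ip_smul' r u v)
    (fun _ _ _ => by rw [ip_add_right, Quaternion.re_add]) (fun r u v => re_ip_smul r u v)

/-- The real representation. -/
noncomputable def rep (W : Subgroup (GH n)) : W →* Module.End ℝ (V n) where
  toFun w :=
    { toFun := fun v => w.1.val *ᵥ v
      map_add' := Matrix.mulVec_add _
      map_smul' := fun r v => by rw [smul_eq_rs, mulVec_rs, ← smul_eq_rs]; rfl }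
  map_one' := LinearMap.ext fun v => Matrix.one_mulVec v
  map_mul' w w' := LinearMap.ext fun v => (Matrix.mulVec_mulVec v w.1.val w'.1.val).symm

/-- The sequence of cosines. -/
def xs (t : ℝ) : ℕ → ℝ
  | 0 => 1
  | 1 => t
  | k + 2 => 2 * t * xs t (k + 1) - xs t k

end G3Aux

open G3Aux

theorem blich (hW : Std W) (hM : ¬ Mono W) {g : GH n} (hg : g ∈ W)
    (h : ∀ v, nq v ≤ 2 * (ip (g.val *ᵥ v) v).re) {v₀ : V n} (h0 : v₀ ≠ 0)
    (h1 : g.val *ᵥ v₀ = v₀) : g = 1 := by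
  have := hW.finite
  obtain ⟨x, hx0, hx⟩ := atoms (bil n) (fun x y => re_ip_comm x y)
    (fun x hx => by have := nq_pos hx; rwa [nq_eq] at this) (rep W)
    (fun w x y => congrArg QuaternionAlgebra.re ((hW.uni w.1 w.2).ip x y)) ⟨g, hg⟩
    (fun v => by have := h v; rwa [nq_eq] at this) h0
  have hx' : ∀ w ∈ W, g.val *ᵥ (w.val *ᵥ x) = w.val *ᵥ x ∨
      ∀ v, g.val *ᵥ v = v → ip v (w.val *ᵥ x) = 0 := fun w hw => by
    refine (hx ⟨w, hw⟩).imp id fun h2 v hv => ?_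
    have h3 : (ip (rs v (ip v (w.val *ᵥ x))) (w.val *ᵥ x)).re = 0 :=
      h2 (rs v (ip v (w.val *ᵥ x))) (by
        change g.val *ᵥ _ = _
        rw [mulVec_rs, hv])
    rw [ip_rs_left, Quaternion.star_mul_self, Quaternion.re_coe] at h3
    exact Quaternion.normSq_eq_zero.1 h3
  obtain ⟨r, -, hr⟩ := exists_unit_rs hx0
  obtain ⟨c1, c2⟩ := comp hW hM (fun y => nq y = 1 ∧ ∀ w ∈ W,
    g.val *ᵥ (w.val *ᵥ y) = w.val *ᵥ y ∨ ∀ v, g.val *ᵥ v = v → ip v (w.val *ᵥ y) = 0)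
    (fun _ hy => hy.1)
    (fun w hw y hy => ⟨((hW.uni w hw).nq y).trans hy.1, fun w' hw' => by
      have := hy.2 (w' * w) (W.mul_mem hw' hw)
      rwa [Units.val_mul, ← Matrix.mulVec_mulVec] at this⟩)
    ⟨rs x r, hr, fun w hw => by
      refine (hx' w hw).imp (fun h2 => ?_) fun h2 v hv => ?_
      · rw [mulVec_rs, mulVec_rs, h2]
      · rw [mulVec_rs, ip_rs_right, h2 v hv, zero_mul]⟩
  by_cases hc : ∃ a, (nq a = 1 ∧ ∀ w ∈ W, g.val *ᵥ (w.val *ᵥ a) = w.val *ᵥ a ∨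
      ∀ v, g.val *ᵥ v = v → ip v (w.val *ᵥ a) = 0) ∧ g.val *ᵥ a = a
  · obtain ⟨a, ha, ha'⟩ := hc
    have c3 := c1 (fun y => g.val *ᵥ y = y) a ha ha' fun y z _ hz hy hne => by
      have := hz.2 1 W.one_mem
      rw [Units.val_one, Matrix.one_mulVec] at this
      exact this.resolve_right fun h2 => hne (h2 y hy)
    refine Units.ext (ext_mulVec fun v => ?_)
    rw [Units.val_one, Matrix.one_mulVec, ← sub_eq_zero]
    refine c2 _ fun y hy => ?_
    have := (hW.uni g hg).ip y v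
    rw [c3 y hy] at this
    rw [ip_sub_right, this, sub_self]
  · refine (h0 (c2 _ fun y hy => ?_)).elim
    have := hy.2 1 W.one_mem
    rw [Units.val_one, Matrix.one_mulVec] at this
    exact ip_eq_zero_comm.1 (this.resolve_left (fun h2 => hc ⟨y, hy, h2⟩) v₀ h1)

/-- The rotation attached to a number `c`: if `x k = cos (2 k θ)` with `c = cos θ`. -/
theorem s4_of_seq {c : ℝ} (hc : c ^ 2 ≤ 1) (x : ℕ → ℝ) (h0 : x 0 = 1) (h1 : x 1 = 2 * c ^ 2 - 1)
    (h2 : ∀ k, x (k + 2) = 2 * x 1 * x (k + 1) - x k) (hf : ∃ k, 0 < k ∧ x k = 1)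
    (h : ∀ k, 1 / 2 ≤ x k → x k = 1) : S4 (4 * c ^ 2) := by
  have c0 := sq_nonneg c
  have s0 : 0 ≤ 1 - x 1 ^ 2 := by rw [h1]; nlinarith
  obtain ⟨q, hq⟩ : ∃ q : ℍ[ℝ], q = ⟨x 1, √(1 - x 1 ^ 2), 0, 0⟩ := ⟨_, rfl⟩
  have q1 : q.re = x 1 := by rw [hq]
  have qn : Quaternion.normSq q = 1 := by
    rw [Quaternion.normSq_def', hq]
    simp only [Real.sq_sqrt s0]
    ring
  have qq : q * q = (2 * x 1) • q - 1 := by
    have e1 := Quaternion.self_mul_star q
    have e2 := Quaternion.star_eq_two_re_sub q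
    rw [qn, e2, mul_sub, Quaternion.mul_coe_eq_smul, q1, Quaternion.coe_one] at e1
    rw [← e1]
    abel
  have key : ∀ k, (q ^ k).re = x k ∧ (q ^ (k + 1)).re = x (k + 1) := by
    intro k
    induction k with
    | zero => exact ⟨by rw [pow_zero, h0]; rfl, by rw [zero_add, pow_one, q1]⟩
    | succ k ih =>
      refine ⟨ih.2, ?_⟩
      have e : q ^ (k + 1 + 1) = (2 * x 1) • q ^ (k + 1) - q ^ k := by
        rw [pow_succ, pow_succ, mul_assoc, qq, mul_sub, mul_smul_comm, mul_one]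
      rw [e, Quaternion.re_sub, Quaternion.re_smul, ih.1, ih.2, h2, smul_eq_mul]
  have one : ∀ k, x k = 1 → q ^ k = 1 := fun k hk => by
    have := eq_neg_one_of_re (ξ := -q ^ k) (by rw [Quaternion.normSq_neg, map_pow, qn, one_pow])
      (by rw [Quaternion.re_neg, (key k).1, hk])
    exact neg_injective this
  by_cases hq1 : q = 1
  · rw [hq1] at q1
    have : (1 : ℝ) = x 1 := q1
    exact Or.inr (Or.inr (Or.inr (Or.inr (Or.inr (by linarith)))))
  obtain ⟨k, hk, hk'⟩ := hf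
  rcases ord_cases qn (isOfFinOrder_iff_pow_eq_one.2 ⟨k, hk, one k hk'⟩) hq1 with h3 | ⟨j, h3, h4⟩
  · rw [q1, h1] at h3
    rcases h3 with h3 | h3 | h3 | h3 | h3
    · exact Or.inl (by linarith)
    · exact Or.inr (Or.inl (by linarith))
    · exact Or.inr (Or.inr (Or.inl (by linarith)))
    · exact Or.inr (Or.inr (Or.inr (Or.inl (by linarith))))
    · exact Or.inr (Or.inr (Or.inr (Or.inr (Or.inl (by linarith)))))
  · rw [(key j).1] at h3
    exact (h4 (one j (h j h3))).elim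

namespace G3Aux

theorem refl_two {a b : V n} (ha : nq a = 1) {c : ℝ} (hc : ip a b = c) (α β : ℍ[ℝ]) :
    reflMat a (-1) *ᵥ (rs a α + rs b β) = rs a (-α - (2 * c) • β) + rs b β := by
  rw [reflMat_unit ha, ip_add_right, ip_rs_right, ip_rs_right, ip_self, ha, hc, add_sub_right_comm,
    ← rs_sub, Quaternion.coe_one, one_mul, Quaternion.coe_mul_eq_smul, sub_neg_eq_add, add_mul,
    one_mul]
  congr 2
  module

theorem rot_plane {a b : V n} (ha : nq a = 1) (hb : nq b = 1) {c : ℝ} (hc : ip a b = c)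
    (α β : ℍ[ℝ]) : (reflMat a (-1) * reflMat b (-1)) *ᵥ (rs a α + rs b β) =
      rs a ((4 * c ^ 2 - 1) • α + (2 * c) • β) + rs b (-β - (2 * c) • α) := by
  have hc' : ip b a = c := by rw [← star_ip, hc, Quaternion.star_coe]
  rw [← Matrix.mulVec_mulVec, add_comm (rs a α), refl_two hb hc', add_comm _ (rs a α),
    refl_two ha hc]
  congr 2
  module

theorem rs_smul (v : V n) (r : ℝ) (q : ℍ[ℝ]) : rs v (r • q) = r • rs v q := by
  ext1 i
  simp [rs]

theorem re_pow {a b : V n} (ha : nq a = 1) (hb : nq b = 1) {c : ℝ} (hc : ip a b = c) {g : GH n}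
    (hg : g.val = reflMat a (-1) * reflMat b (-1)) (hU : IsU g.val) (α β : ℍ[ℝ]) (k : ℕ) :
    (ip ((g ^ k).val *ᵥ (rs a α + rs b β)) (rs a α + rs b β)).re =
      xs (2 * c ^ 2 - 1) k * nq (rs a α + rs b β) := by
  obtain ⟨u, hu⟩ : ∃ u, u = rs a α + rs b β := ⟨_, rfl⟩
  have e : g.val *ᵥ (g.val *ᵥ u) = (2 * (2 * c ^ 2 - 1)) • (g.val *ᵥ u) - u := by
    rw [hg, hu, rot_plane ha hb hc, rot_plane ha hb hc]
    simp only [rs_add, rs_sub, rs_neg, rs_smul]
    module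
  rw [← hu]
  induction k using Nat.twoStepInduction with
  | zero => rw [pow_zero, Units.val_one, Matrix.one_mulVec, xs, one_mul, nq_eq]
  | one =>
    have h1 := congrArg (fun v => (ip v (g.val *ᵥ u)).re) e
    simp only [hU.ip, ip_sub_left, Quaternion.re_sub, re_ip_smul', ← nq_eq] at h1
    rw [re_ip_comm u] at h1
    rw [pow_one, xs]
    linarith
  | more k ih1 ih2 =>
    have e2 : (g ^ (k + 2)).val *ᵥ u =
        (2 * (2 * c ^ 2 - 1)) • ((g ^ (k + 1)).val *ᵥ u) - (g ^ k).val *ᵥ u := by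
      rw [pow_succ, pow_succ, Units.val_mul, Units.val_mul, ← Matrix.mulVec_mulVec,
        ← Matrix.mulVec_mulVec, e, Matrix.mulVec_sub, smul_eq_rs, mulVec_rs, ← smul_eq_rs,
        ← Matrix.mulVec_mulVec]
    rw [e2, ip_sub_left, Quaternion.re_sub, re_ip_smul', ih1, ih2, xs]
    ring

theorem decomp {a b : V n} (ha : nq a = 1) (hb : nq b = 1) {c : ℝ} (hc : ip a b = c)
    (h1 : c ^ 2 ≠ 1) (v : V n) :
    ∃ α β w, v = w + (rs a α + rs b β) ∧ ip a w = 0 ∧ ip b w = 0 := by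
  have hc' : ip b a = c := by rw [← star_ip, hc, Quaternion.star_coe]
  have h2 : 1 - c ^ 2 ≠ 0 := fun h => h1 (by linarith)
  refine ⟨(1 - c ^ 2)⁻¹ • (ip a v - c • ip b v), (1 - c ^ 2)⁻¹ • (ip b v - c • ip a v), _,
    (sub_add_cancel _ _).symm, ?_, ?_⟩
  · rw [ip_sub_right, ip_add_right, ip_rs_right, ip_rs_right, ip_self, ha, hc, Quaternion.coe_one,
      one_mul, Quaternion.coe_mul_eq_smul]
    match_scalars <;> field_simp <;> ring
  · rw [ip_sub_right, ip_add_right, ip_rs_right, ip_rs_right, ip_self, hb, hc', Quaternion.coe_one,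
      one_mul, Quaternion.coe_mul_eq_smul]
    match_scalars <;> field_simp <;> ring

theorem s4_real (hW : Std W) (hM : ¬ Mono W) (hn : 3 ≤ n) {a b : V n} (ha : Rl W a (-1))
    (hb : Rl W b (-1)) {c : ℝ} (hc : ip a b = c) : S4 (4 * c ^ 2) := by
  by_cases h1 : c ^ 2 = 1
  · exact Or.inr (Or.inr (Or.inr (Or.inr (Or.inr (by linarith)))))
  obtain ⟨a1, -, -, r, hr, hr'⟩ := ha
  obtain ⟨b1, -, -, s, hs, hs'⟩ := hb
  have hg : r * s ∈ W := W.mul_mem hr hs
  have hv : (r * s).val = reflMat a (-1) * reflMat b (-1) := by rw [Units.val_mul, hr', hs']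
  have hU := hW.uni _ hg
  have fix : ∀ w, ip a w = 0 → ip b w = 0 → ∀ k, ((r * s) ^ k).val *ᵥ w = w := by
    intro w h2 h3 k
    induction k with
    | zero => rw [pow_zero, Units.val_one, Matrix.one_mulVec]
    | succ k ih =>
      rw [pow_succ, Units.val_mul, ← Matrix.mulVec_mulVec, hv, ← Matrix.mulVec_mulVec,
        reflMat_orth h3, reflMat_orth h2, ih]
  have one : ∀ k, (r * s) ^ k = 1 → xs (2 * c ^ 2 - 1) k = 1 := fun k hk => by
    have := re_pow a1 b1 hc hv hU 1 0 k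
    rw [hk, Units.val_one, Matrix.one_mulVec, rs_one, rs_zero, add_zero, ← nq_eq, a1] at this
    linarith
  have hle : c ^ 2 ≤ 1 := by
    have := tt_le a b
    rwa [tt, hc, Quaternion.normSq_coe, a1, b1, one_mul] at this
  refine s4_of_seq hle (xs (2 * c ^ 2 - 1)) rfl rfl (fun _ => rfl) ?_ fun k hk => one k ?_
  · have := hW.finite
    obtain ⟨k, hk, hk'⟩ := isOfFinOrder_iff_pow_eq_one.1 (isOfFinOrder_of_finite (⟨_, hg⟩ : W))
    exact ⟨k, hk, one k (congrArg Subtype.val hk')⟩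
  · obtain ⟨v₀, h2, h3⟩ := exists_orth (r := 2) (n := n) (by omega) ![a, b]
    refine blich hW hM (W.pow_mem hg k) (fun v => ?_) (v₀ := v₀)
      (fun h => by rw [nq_eq_zero.2 h] at h2; exact zero_ne_one h2) (fix v₀ (h3 0) (h3 1) k)
    obtain ⟨α, β, w, rfl, w1, w2⟩ := decomp a1 b1 hc h1 v
    have e := re_pow a1 b1 hc hv hU α β k
    have o1 : ip (rs a α + rs b β) w = 0 := by
      rw [ip_add_left, ip_rs_left, ip_rs_left, w1, w2, mul_zero, mul_zero, add_zero]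
    generalize rs a α + rs b β = u at e o1
    have o2 := ip_eq_zero_comm.1 o1
    have o3 := (hW.uni _ (W.pow_mem hg k)).ip u w
    rw [fix w w1 w2 k, o1] at o3
    rw [nq_eq, Matrix.mulVec_add, fix w w1 w2 k]
    simp only [ip_add_left, ip_add_right, o1, o2, o3, add_zero, zero_add, Quaternion.re_add, e,
      ← nq_eq]
    have := nq_nonneg w
    have := nq_nonneg u
    nlinarith

end G3Aux

theorem s4 (hW : Std W) (hM : ¬ Mono W) (hn : 3 ≤ n) {a b : V n} (ha : Rl W a (-1))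
    (hb : Rl W b (-1)) : S4 (4 * tt a b) := by
  by_cases h0 : ip a b = 0
  · exact Or.inl (by rw [tt_eq_zero.2 h0, mul_zero])
  have h1 : 0 < tt a b := (tt_nonneg a b).lt_of_ne fun e => h0 (tt_eq_zero.1 e.symm)
  have h2 : √(tt a b) ≠ 0 := (Real.sqrt_pos.2 h1).ne'
  have hq : Quaternion.normSq ((√(tt a b))⁻¹ • ip b a) = 1 := by
    rw [Quaternion.normSq_smul, inv_pow, Real.sq_sqrt h1.le, ← tt, tt_comm b a,
      inv_mul_cancel₀ h1.ne']
  have hq0 : (√(tt a b))⁻¹ • ip b a ≠ 0 := fun e => by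
    rw [e, map_zero] at hq
    exact zero_ne_one hq
  have hb' := hb.rs hq
  rw [mul_neg_one, neg_mul, inv_mul_cancel₀ hq0] at hb'
  have := s4_real hW hM hn ha hb' (c := √(tt a b)) (by
    rw [ip_rs_right, mul_smul_comm, ip_mul_ip, ← Quaternion.coe_smul, smul_eq_mul]
    congr 1
    field_simp
    rw [Real.sq_sqrt h1.le])
  rwa [Real.sq_sqrt h1.le] at this

end Pool.Agent.P.MP_97ea17_al.Geo
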