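import Mathlib

/-! Identities for quaternions and dynamics of quadratic maps, used for pairs of reflections. -/

namespace Pool.Agent.P.MP_97ea17_al.G4Aux

open scoped Quaternion

theorem normSq_im (x : ℍ[ℝ]) : Quaternion.normSq x.im = Quaternion.normSq x - x.re ^ 2 := by
  simp [Quaternion.normSq_def']
  ring

theorem conj_re (p y : ℍ[ℝ]) (hy : y.re = 0) : (p * y * star p).re = 0 := by
  simp [hy]
  ring

theorem cyc (x y p : ℍ[ℝ]) : (y * (star p * x * p)).re = (x * (p * y * star p)).re := by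
  simp
  ring

theorem key (x y : ℍ[ℝ]) (t A : ℝ) (hx : x.re = 0) (hy : y.re = 0)
    (nx : Quaternion.normSq x = A * (2 - A)) (ny : Quaternion.normSq y = t ^ 2 * (A * (2 - A))) :
    Quaternion.normSq ((t : ℍ[ℝ]) - (((t * A : ℝ) : ℍ[ℝ]) - y) - t • ((A : ℍ[ℝ]) + x) +
      t • (((A : ℍ[ℝ]) + x) * (((t * A : ℝ) : ℍ[ℝ]) - y))) =
      t * (t + 2 * A ^ 2 * t * (1 - t) * (1 - 2 * t) + 2 * (1 - t) * (x * y).re) := by
  rw [Quaternion.normSq_def'] at nx ny ⊢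
  simp [hx, hy] at nx ny ⊢
  linear_combination ((1 - t * A) ^ 2 + t ^ 2 * (x.imI ^ 2 + x.imJ ^ 2 + x.imK ^ 2)) * ny +
    (t ^ 2 * (1 - t * A) ^ 2 + t ^ 4 * (A * (2 - A))) * nx

theorem commute_of_sq (x y : ℍ[ℝ]) (hx : x.re = 0) (hy : y.re = 0)
    (h : (x * y).re ^ 2 = Quaternion.normSq x * Quaternion.normSq y) : Commute x y := by
  rw [Quaternion.normSq_def', Quaternion.normSq_def'] at h
  simp [hx, hy] at h
  have h0 : (x.imJ * y.imK - x.imK * y.imJ) ^ 2 + (x.imK * y.imI - x.imI * y.imK) ^ 2 +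
      (x.imI * y.imJ - x.imJ * y.imI) ^ 2 = 0 := by linear_combination -h
  have h1 : x.imJ * y.imK - x.imK * y.imJ = 0 := by
    nlinarith [sq_nonneg (x.imJ * y.imK - x.imK * y.imJ), sq_nonneg (x.imK * y.imI - x.imI * y.imK),
      sq_nonneg (x.imI * y.imJ - x.imJ * y.imI)]
  have h2 : x.imK * y.imI - x.imI * y.imK = 0 := by
    nlinarith [sq_nonneg (x.imJ * y.imK - x.imK * y.imJ), sq_nonneg (x.imK * y.imI - x.imI * y.imK),
      sq_nonneg (x.imI * y.imJ - x.imJ * y.imI)]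
  have h3 : x.imI * y.imJ - x.imJ * y.imI = 0 := by
    nlinarith [sq_nonneg (x.imJ * y.imK - x.imK * y.imJ), sq_nonneg (x.imK * y.imI - x.imI * y.imK),
      sq_nonneg (x.imI * y.imJ - x.imJ * y.imI)]
  change x * y = y * x
  ext <;> simp [hx, hy] <;> linarith

theorem sq_le (x y : ℍ[ℝ]) (hx : x.re = 0) (hy : y.re = 0) :
    (x * y).re ^ 2 ≤ Quaternion.normSq x * Quaternion.normSq y := by
  rw [Quaternion.normSq_def', Quaternion.normSq_def']
  simp [hx, hy]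
  nlinarith [sq_nonneg (x.imJ * y.imK - x.imK * y.imJ), sq_nonneg (x.imK * y.imI - x.imI * y.imK),
      sq_nonneg (x.imI * y.imJ - x.imJ * y.imI)]

theorem derived (y z : ℍ[ℝ]) (r : ℝ) (hy : y.re = 0) (hz : z.re = 0) :
    (y * (((r : ℍ[ℝ]) + z) * y * star ((r : ℍ[ℝ]) + z))).re =
      Quaternion.normSq y * (Quaternion.normSq z - r ^ 2) - 2 * (y * z).re ^ 2 := by
  rw [Quaternion.normSq_def', Quaternion.normSq_def']
  simp [hy, hz]
  ring

theorem re_add_re (x y : ℍ[ℝ]) : (x * y).re + (star x * y).re = 2 * x.re * y.re := by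
  simp
  ring

/-- A finite set has no point that a map of the set moves strictly closer to `c`. -/
theorem empty_of_closer {T : Set ℝ} (hT : T.Finite) (μ : ℝ → ℝ)
    (h : ∀ t ∈ T, ∃ s ∈ T, μ s < μ t) (t : ℝ) : t ∉ T := fun ht => by
  obtain ⟨s, hs, hm⟩ := Set.exists_min_image T μ hT ⟨t, ht⟩
  obtain ⟨u, hu, h'⟩ := h s hs
  exact absurd (hm u hu) (not_le.2 h')

theorem s5 : 2.236 < √5 ∧ √5 < 2.2361 ∧ √5 ^ 2 = 5 :=
  ⟨Real.lt_sqrt_of_sq_lt (by norm_num), (Real.sqrt_lt' (by norm_num)).2 (by norm_num),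
    Real.sq_sqrt (by norm_num)⟩

theorem dyn5 {T : Set ℝ} (hT : T.Finite) (h1 : ∀ t ∈ T, 0 ≤ t ∧ t ≤ 1)
    (hφ : ∀ t ∈ T, 1 - (5 - √5) / 2 * t * (1 - t) ∈ T) {t : ℝ} (ht : t ∈ T) :
    t = 0 ∨ t = (5 - √5) / 10 ∨ t = (5 + √5) / 10 ∨ t = 1 := by
  obtain ⟨a, b, c⟩ := s5
  have e : ∀ t : ℝ, 1 - (5 - √5) / 2 * t * (1 - t) - (5 + √5) / 10 =
      (5 - √5) / 2 * (t - (5 - √5) / 10) * (t - (5 + √5) / 10) := fun t => by
    linear_combination (1 / 40 - √5 / 200) * c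
  have lo : ∀ t : ℝ, 1 / 2 ≤ 1 - (5 - √5) / 2 * t * (1 - t) := fun t => by
    nlinarith [sq_nonneg (t - 1 / 2)]
  have A : ∀ t, t ∉ {t ∈ T | 1 / 2 ≤ t ∧ t < 1 ∧ t ≠ (5 + √5) / 10} := by
    refine empty_of_closer (hT.subset fun _ h => h.1) (fun t => (t - (5 + √5) / 10) ^ 2) ?_
    rintro t ⟨h, h2, h3, h4⟩
    have f0 : 0 < (5 - √5) / 2 * (t - (5 - √5) / 10) := mul_pos (by linarith) (by linarith)
    have f1 : (5 - √5) / 2 * (t - (5 - √5) / 10) < 1 := by nlinarith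
    have h5 : t - (5 + √5) / 10 ≠ 0 := sub_ne_zero.2 h4
    refine ⟨_, ⟨hφ t h, lo t, ?_, ?_⟩, ?_⟩
    · have : 0 < (5 - √5) / 2 * t * (1 - t) := by
        have : 0 < (5 - √5) / 2 := by linarith
        have : 0 < t := by linarith
        have : 0 < 1 - t := by linarith
        positivity
      linarith
    · rw [← sub_ne_zero, e]
      exact mul_ne_zero f0.ne' h5
    · simp only [e, mul_pow]
      rw [← mul_pow]
      have : 0 < (t - (5 + √5) / 10) ^ 2 := by positivity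
      have h6 : ((5 - √5) / 2 * (t - (5 - √5) / 10)) ^ 2 < 1 := by nlinarith
      nlinarith
  have B := A (1 - (5 - √5) / 2 * t * (1 - t))
  simp only [Set.mem_ofPred_eq, not_and, not_not] at B
  rcases (h1 _ (hφ t ht)).2.lt_or_eq with h | h
  · have := B (hφ t ht) (lo t) h
    rw [← sub_eq_zero, e, mul_eq_zero, mul_eq_zero] at this
    rcases this with (h' | h') | h'
    · linarith
    · exact Or.inr (Or.inl (by linarith))
    · exact Or.inr (Or.inr (Or.inl (by linarith)))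
  · have : (5 - √5) / 2 * t * (1 - t) = 0 := by linarith
    rw [mul_eq_zero, mul_eq_zero] at this
    rcases this with (h' | h') | h'
    · linarith
    · exact Or.inl h'
    · exact Or.inr (Or.inr (Or.inr (by linarith)))

theorem dyn3 {T : Set ℝ} (hT : T.Finite) (h1 : ∀ t ∈ T, 0 ≤ t ∧ t ≤ 1)
    (hφ : ∀ t ∈ T, 1 - 3 * t * (1 - t) ∈ T)
    (hF : ∀ t ∈ T, ∃ D : ℝ, D ^ 2 ≤ 9 / 16 * t ^ 2 ∧
      t + 9 / 2 * t * (1 - t) * (1 - 2 * t) + 2 * (1 - t) * D ∈ T) {t : ℝ} (ht : t ∈ T) :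
    t = 0 ∨ t = 1 / 3 ∨ t = 2 / 3 ∨ t = (3 + √5) / 6 ∨ t = (3 - √5) / 6 ∨ t = 1 := by
  obtain ⟨a, b, c⟩ := s5
  -- the middle interval
  have A : ∀ t, t ∉ {t ∈ T | (3 - √5) / 6 < t ∧ t < 2 / 3 ∧ t ≠ 1 / 3} := by
    refine empty_of_closer (hT.subset fun _ h => h.1) (fun t => (t - 1 / 3) ^ 2) ?_
    rintro t ⟨h, h2, h3, h4⟩
    have e : 1 - 3 * (1 - 3 * t * (1 - t)) * (1 - (1 - 3 * t * (1 - t))) - 1 / 3 =
        (1 - 9 * (t - 1 / 3) ^ 2 * (3 - 3 * t)) * (t - 1 / 3) := by ring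
    have h5 : t - 1 / 3 ≠ 0 := sub_ne_zero.2 h4
    have h6 : 0 < (t - 1 / 3) ^ 2 := by positivity
    have f1 : 0 < 9 * (t - 1 / 3) ^ 2 * (3 - 3 * t) := by
      have : 0 < 3 - 3 * t := by linarith
      positivity
    have f0 : 0 < 1 - 9 * (t - 1 / 3) ^ 2 * (3 - 3 * t) := by
      have e' : 1 - 9 * (t - 1 / 3) ^ 2 * (3 - 3 * t) =
          27 * ((2 / 3 - t) * ((t - (3 - √5) / 6) * ((3 + √5) / 6 - t))) := by
        linear_combination (3 / 4 * t - 1 / 2) * c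
      rw [e']
      have : 0 < 2 / 3 - t := by linarith
      have : 0 < t - (3 - √5) / 6 := by linarith
      have : 0 < (3 + √5) / 6 - t := by linarith
      positivity
    set f := 1 - 9 * (t - 1 / 3) ^ 2 * (3 - 3 * t) with hf
    have f2 : f < 1 := by linarith
    refine ⟨_, ⟨hφ _ (hφ t h), ?_, ?_, ?_⟩, ?_⟩
    · rw [sub_eq_iff_eq_add.1 e]
      nlinarith
    · rw [sub_eq_iff_eq_add.1 e]
      nlinarith
    · rw [← sub_ne_zero, e]
      exact mul_ne_zero f0.ne' h5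
    · simp only [e, mul_pow]
      have : f ^ 2 < 1 := by nlinarith
      nlinarith
  have A' : ∀ t ∈ T, (3 - √5) / 6 < t → t < 2 / 3 → t = 1 / 3 := fun t h h2 h3 => by
    by_contra h4
    exact A t ⟨h, h2, h3, h4⟩
  have B : ∀ t ∈ T, 2 / 3 < t → (3 + √5) / 6 ≤ t := fun t h h2 => by
    by_contra h3
    rw [not_le] at h3
    have h4 : 1 / 3 < 1 - 3 * t * (1 - t) := by nlinarith
    have h5 : 1 - 3 * t * (1 - t) < 2 / 3 := by nlinarith
    exact h4.ne' (A' _ (hφ t h) (by linarith) h5)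
  have C : ∀ t ∈ T, 1 - 3 * t * (1 - t) ≠ (3 + √5) / 6 := fun t h h2 => by
    obtain ⟨D, hD, hm⟩ := hF t h
    obtain ⟨t0, t1⟩ := h1 t h
    have hs : t * (1 - t) = (3 - √5) / 18 := by linarith
    have hD' : |D| ≤ 3 / 4 * t := abs_le_of_sq_le_sq' (by nlinarith) (by linarith) |> abs_le.2
    obtain ⟨d1, d2⟩ := abs_le.1 hD'
    have u1 : 2 * (1 - t) * D ≤ (3 - √5) / 12 := by nlinarith
    have u2 : -((3 - √5) / 12) ≤ 2 * (1 - t) * D := by nlinarith
    have e : t + 9 / 2 * t * (1 - t) * (1 - 2 * t) = (√5 - 1) / 2 * t + (3 - √5) / 4 := by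
      linear_combination (9 / 2 * (1 - 2 * t)) * hs
    rw [e] at hm
    rcases le_total t (1 / 2) with h3 | h3
    · have l1 : 0.044 < t := by nlinarith
      have l2 : t < 0.045 := by nlinarith
      have := A' _ hm (by nlinarith) (by nlinarith)
      nlinarith
    · have l1 : 0.955 < t := by nlinarith
      have l2 : t < 0.956 := by nlinarith
      have := B _ hm (by nlinarith)
      nlinarith
  have E : ∀ t, t ∉ {t ∈ T | (3 + √5) / 6 < t ∧ t < 1} := by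
    refine empty_of_closer (hT.subset fun _ h => h.1) id ?_
    rintro t ⟨h, h2, h3⟩
    have h4 : 1 - 3 * t * (1 - t) < t := by nlinarith
    exact ⟨_, ⟨hφ t h, (B _ (hφ t h) (by nlinarith)).lt_of_ne (C t h).symm, by linarith⟩, h4⟩
  obtain ⟨t0, t1⟩ := h1 t ht
  rcases t0.eq_or_lt with h | t0
  · exact Or.inl h.symm
  rcases t1.eq_or_lt with h | t1
  · simp [h]
  rcases lt_trichotomy t ((3 - √5) / 6) with h | h | h
  · exact absurd ⟨hφ t ht, (B _ (hφ t ht) (by nlinarith)).lt_of_ne (C t ht).symm, by nlinarith⟩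
      (E (1 - 3 * t * (1 - t)))
  · simp [h]
  rcases lt_trichotomy t (2 / 3) with h' | h' | h'
  · exact Or.inr (Or.inl (A' t ht h h'))
  · exact Or.inr (Or.inr (Or.inl h'))
  rcases (B t ht h').eq_or_lt with h'' | h''
  · exact Or.inr (Or.inr (Or.inr (Or.inl h''.symm)))
  · exact absurd ⟨ht, h'', t1⟩ (E t)

end Pool.Agent.P.MP_97ea17_al.G4Aux
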