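import Pool.Agent.P.MP_97ea17_al.F.G2
import Pool.Agent.P.MP_97ea17_al.F.G4a

/-! Pairs of reflections of order three and of order five. -/

namespace Pool.Agent.P.MP_97ea17_al.G4Aux

open scoped Quaternion Matrix
open Geo

variable {n : ℕ} {W : Subgroup (GH n)} {a b : V n} {ξ η : ℍ[ℝ]}

/-- The transported inner product of the axes. -/
noncomputable def dd (a : V n) (ξ : ℍ[ℝ]) (b : V n) (η : ℍ[ℝ]) : ℝ :=
  (ξ.im * (ip a b * η.im * ip b a)).re

theorem dd_star (a : V n) (ξ : ℍ[ℝ]) (b : V n) (η : ℍ[ℝ]) :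
    dd a (star ξ) b η = -dd a ξ b η := by
  rw [dd, dd, Quaternion.im_star, neg_mul, Quaternion.re_neg]

theorem y_re (a b : V n) (η : ℍ[ℝ]) : (ip a b * η.im * ip b a).re = 0 := by
  rw [← star_ip a b]
  exact conj_re _ _ (Quaternion.re_im η)

theorem y_normSq (a b : V n) (η : ℍ[ℝ]) :
    Quaternion.normSq (ip a b * η.im * ip b a) = tt a b ^ 2 * Quaternion.normSq η.im := by
  rw [map_mul, map_mul, ← star_ip a b, Quaternion.normSq_star, tt]
  ring

theorem y_eq (a b : V n) (η : ℍ[ℝ]) :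
    ip a b * η * ip b a = ((tt a b * η.re : ℝ) : ℍ[ℝ]) + ip a b * η.im * ip b a := by
  conv_lhs => rw [← Quaternion.re_add_im η]
  rw [mul_add, add_mul, Quaternion.mul_coe_eq_smul, smul_mul_assoc, ip_mul_ip,
    Quaternion.smul_coe, mul_comm η.re]

theorem dd_sq_le (a : V n) (ξ : ℍ[ℝ]) (b : V n) (η : ℍ[ℝ]) :
    dd a ξ b η ^ 2 ≤ Quaternion.normSq ξ.im * (tt a b ^ 2 * Quaternion.normSq η.im) := by
  rw [← y_normSq]
  exact sq_le _ _ (Quaternion.re_im ξ) (y_re a b η)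

theorem par_of_sq (h : dd a ξ b η ^ 2 =
    Quaternion.normSq ξ.im * (tt a b ^ 2 * Quaternion.normSq η.im)) : Par a ξ b η := by
  rw [← y_normSq] at h
  have hc := commute_of_sq _ _ (Quaternion.re_im ξ) (y_re a b η) h
  rw [Par, y_eq, ← Quaternion.re_add_im ξ]
  exact (Quaternion.coe_commute _ _).add_left ((Quaternion.coe_commute _ _).symm.add_right hc)

theorem tt_cross (ha : nq a = 1) (hb : nq b = 1) (hξ : Quaternion.normSq ξ = 1)
    (hη : Quaternion.normSq η = 1) (h : η.re = ξ.re) :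
    tt (reflMat a ξ *ᵥ b) (reflMat b η *ᵥ a) = tt a b + 2 * (1 - ξ.re) ^ 2 * tt a b *
      (1 - tt a b) * (1 - 2 * tt a b) + 2 * (1 - tt a b) * dd a ξ b η := by
  have e : ip (reflMat a ξ *ᵥ b) (reflMat b η *ᵥ a) = ip b a - (1 - η) * ip b a -
      ip b a * star (1 - ξ) + ip b a * star (1 - ξ) * (ip a b * (1 - η) * ip b a) := by
    rw [reflMat_unit ha, reflMat_unit hb, ip_sub_left, ip_sub_right, ip_sub_right, ip_rs_right,
      ip_rs_left, ip_rs_left, ip_rs_right, ip_self, ip_self, ha, hb, star_mul, star_ip]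
    simp only [Quaternion.coe_one]
    noncomm_ring
  by_cases h0 : tt a b = 0
  · have h1 := tt_eq_zero.1 h0
    rw [tt, e, dd, h0, h1, ip_eq_zero_comm.1 h1]
    simp
  have e1 : star (1 - ξ) = ((1 - ξ.re : ℝ) : ℍ[ℝ]) + ξ.im := by ext <;> simp
  have e2 : ip a b * (1 - η) * ip b a =
      ((tt a b * (1 - ξ.re) : ℝ) : ℍ[ℝ]) - ip a b * η.im * ip b a := by
    rw [mul_sub, _root_.sub_mul, mul_one, ip_mul_ip, y_eq, h, mul_sub, mul_one, Quaternion.coe_sub,
      sub_sub]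
  have nx : Quaternion.normSq ξ.im = (1 - ξ.re) * (2 - (1 - ξ.re)) := by
    rw [normSq_im, hξ]; ring
  have ny : Quaternion.normSq (ip a b * η.im * ip b a) =
      tt a b ^ 2 * ((1 - ξ.re) * (2 - (1 - ξ.re))) := by
    rw [y_normSq, normSq_im, hη, h]; ring
  have k := key _ _ (tt a b) (1 - ξ.re) (Quaternion.re_im ξ) (y_re a b η) nx ny
  refine mul_left_cancel₀ h0 (Eq.trans ?_ k)
  rw [← e1, ← e2, tt, tt, ← map_mul, e]
  congr 1
  change _ = (tt a b : ℍ[ℝ]) - _ - tt a b • _ + tt a b • _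
  rw [← Quaternion.coe_mul_eq_smul, ← Quaternion.coe_mul_eq_smul, ← ip_mul_ip]
  noncomm_ring

theorem dd_refl (ha : nq a = 1) (hb : nq b = 1) (ξ η : ℍ[ℝ]) :
    dd b η (reflMat a ξ *ᵥ b) η = Quaternion.normSq η.im * (tt a b ^ 2 * Quaternion.normSq ξ.im -
      (1 - tt a b * (1 - ξ.re)) ^ 2) - 2 * dd a ξ b η ^ 2 := by
  have e : ip b (reflMat a ξ *ᵥ b) =
      ((1 - tt a b * (1 - ξ.re) : ℝ) : ℍ[ℝ]) + ip b a * ξ.im * ip a b := by
    rw [reflMat_unit ha, ip_sub_right, ip_rs_right, ip_self, hb, ← mul_assoc, mul_sub,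
      _root_.sub_mul, mul_one, ip_mul_ip, y_eq, tt_comm b a, mul_sub, mul_one, Quaternion.coe_sub,
      Quaternion.coe_sub]
    abel
  rw [dd, ← star_ip b, e, derived _ _ _ (Quaternion.re_im η) (y_re b a ξ), y_normSq, tt_comm b a,
    dd, ← star_ip a b, cyc]

theorem par_of_one (hW : Std W) (hM : ¬ Mono W) (ha : Rl W a ξ) (hb : Rl W b η)
    (h : ∀ x y, Re5 x → Re5 y → x + y ≠ 2 * ξ.re * η.re) (h1 : tt a b = 1) : Par a ξ b η := by
  have hq : Quaternion.normSq (ip b a) = 1 := (tt_comm b a).trans h1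
  have e : a = rs b (ip b a) := by
    have := eq_rs_of_tt (a := b) (b := a) (by rw [hb.1]; exact one_ne_zero)
      (by rw [ha.1, hb.1, mul_one]; exact hq)
    rwa [hb.1, inv_one, one_smul] at this
  have hi : (ip b a)⁻¹ = ip a b :=
    inv_eq_of_mul_eq_one_left (by rw [ip_mul_ip, h1, Quaternion.coe_one])
  have hc := hb.rs hq
  rw [← e, hi] at hc
  have hr : (ip a b * η * ip b a).re = η.re := by
    rw [y_eq, Quaternion.re_add, y_re, h1, Quaternion.re_coe, one_mul, add_zero]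
  by_cases c1 : ξ * (ip a b * η * ip b a) = 1
  · rw [Par, eq_inv_of_mul_eq_one_right c1]
    exact (Commute.refl ξ).inv_right₀
  by_cases c2 : star ξ * (ip a b * η * ip b a) = 1
  · have : star ξ * ξ = 1 := by rw [Quaternion.star_mul_self, ha.2.1, Quaternion.coe_one]
    rw [Par, eq_inv_of_mul_eq_one_right c2, ← eq_inv_of_mul_eq_one_right this]
  exact absurd (hr ▸ re_add_re ξ _)
    (h _ _ (re_cases hW hM (ha.mul hc c1)) (re_cases hW hM ((ha.star hW).mul hc c2)))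

/-- The squared cosines between roots whose values have real part `ρ`. -/
def TT (W : Subgroup (GH n)) (ρ : ℝ) : Set ℝ :=
  {t | ∃ a ξ b η, Rl W a ξ ∧ Rl W b η ∧ ξ.re = ρ ∧ η.re = ρ ∧ t = tt a b}

variable {ρ : ℝ}

theorem TT_finite (hW : Std W) : (TT W ρ).Finite :=
  hW.finite_tt.subset fun _ ⟨a, ξ, b, η, h1, h2, _, _, h3⟩ => ⟨a, ξ, b, η, h1, h2, h3⟩

theorem TT_mem (t : ℝ) (h : t ∈ TT W ρ) : 0 ≤ t ∧ t ≤ 1 := by
  obtain ⟨a, ξ, b, η, h1, h2, -, -, rfl⟩ := h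
  exact ⟨tt_nonneg a b, by simpa [h1.1, h2.1] using tt_le a b⟩

theorem TT_phi (hW : Std W) (t : ℝ) (h : t ∈ TT W ρ) : 1 - (2 - 2 * ρ) * t * (1 - t) ∈ TT W ρ := by
  obtain ⟨a, ξ, b, η, h1, h2, h3, h4, rfl⟩ := h
  exact ⟨b, η, _, η, h2, h1.refl hW h2, h4, h4, by rw [tt_refl h1.1 h2.1 h1.2.1, h3]⟩

theorem TT_cross (hW : Std W) (ha : Rl W a ξ) (hb : Rl W b η) (hξ : ξ.re = ρ) (hη : η.re = ρ) :
    tt a b + 2 * (1 - ρ) ^ 2 * tt a b * (1 - tt a b) * (1 - 2 * tt a b) +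
      2 * (1 - tt a b) * dd a ξ b η ∈ TT W ρ :=
  ⟨_, η, _, ξ, ha.refl hW hb, hb.refl hW ha, hη, hξ, by
    rw [tt_cross ha.1 hb.1 ha.2.1 hb.2.1 (hη.trans hξ.symm), hξ]⟩

theorem TT_cross' (hW : Std W) (ha : Rl W a ξ) (hb : Rl W b η) (hξ : ξ.re = ρ) (hη : η.re = ρ) :
    tt a b + 2 * (1 - ρ) ^ 2 * tt a b * (1 - tt a b) * (1 - 2 * tt a b) -
      2 * (1 - tt a b) * dd a ξ b η ∈ TT W ρ := by
  have := TT_cross hW (ha.star hW) hb (by rw [Quaternion.re_star, hξ]) hη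
  rwa [dd_star, mul_neg, ← sub_eq_add_neg] at this

theorem im3 (ha : Rl W a ξ) (hξ : ξ.re = -1 / 2) : Quaternion.normSq ξ.im = 3 / 4 := by
  rw [normSq_im, ha.2.1, hξ]
  norm_num

theorem T3_of (hW : Std W) {t : ℝ} (h : t ∈ TT W (-1 / 2)) : T3 t := by
  refine dyn3 (TT_finite hW) TT_mem (fun t h => ?_) (fun t h => ?_) h
  · convert TT_phi hW t h using 4
    norm_num
  · obtain ⟨a, ξ, b, η, h1, h2, h3, h4, rfl⟩ := h
    refine ⟨dd a ξ b η, ?_, ?_⟩
    · have := dd_sq_le a ξ b η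
      rw [im3 h1 h3, im3 h2 h4] at this
      linarith
    · convert TT_cross hW h1 h2 h3 h4 using 6
      norm_num

theorem sum3 {x y : ℝ} (p : T3 x) (q : T3 y) (h : x + y = 4 / 3 ∨ x + y = 2 / 3) :
    x = 0 ∨ x = 1 / 3 ∨ x = 2 / 3 ∨ x = 1 := by
  obtain ⟨s1, s2, -⟩ := s5
  rw [T3] at p q
  generalize √5 = s at *
  rcases p with p | p | p | p | p | p
  · exact Or.inl p
  · exact Or.inr (Or.inl p)
  · exact Or.inr (Or.inr (Or.inl p))
  · rcases h with h | h <;> rcases q with q | q | q | q | q | q <;> exfalso <;> linarith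
  · rcases h with h | h <;> rcases q with q | q | q | q | q | q <;> exfalso <;> linarith
  · exact Or.inr (Or.inr (Or.inr p))

theorem T3.mem {x : ℝ} (p : T3 x) : 0 ≤ x ∧ x ≤ 1 := by
  obtain ⟨s1, s2, -⟩ := s5
  rcases p with p | p | p | p | p | p <;> constructor <;> linarith

theorem mid3 {x : ℝ} (p : T3 (1 / 2 + x)) (h : x ^ 2 ≤ (1 / 6) ^ 2) : x ^ 2 = (1 / 6) ^ 2 := by
  obtain ⟨s1, s2, -⟩ := s5
  obtain ⟨l1, l2⟩ := abs_le_of_sq_le_sq' h (by norm_num)
  rcases p with p | p | p | p | p | p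
  · linarith
  · rw [show x = -(1 / 6) by linarith, neg_sq]
  · rw [show x = 1 / 6 by linarith]
  all_goals linarith

theorem sum5 {x c : ℝ} (hc : c = (5 + √5) / 20 ∨ c = (15 - √5) / 20)
    (p : c + x = 0 ∨ c + x = (5 - √5) / 10 ∨ c + x = (5 + √5) / 10 ∨ c + x = 1)
    (q : c - x = 0 ∨ c - x = (5 - √5) / 10 ∨ c - x = (5 + √5) / 10 ∨ c - x = 1) :
    x ^ 2 = ((5 + √5) / 20) ^ 2 := by
  obtain ⟨s1, s2, -⟩ := s5
  generalize √5 = s at *
  refine sq_eq_sq_iff_eq_or_eq_neg.2 ?_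
  rcases hc with rfl | rfl <;> rcases p with p | p | p | p <;> rcases q with q | q | q | q <;>
    first
    | (exfalso; linarith)
    | (left; linarith)
    | (right; linarith)

theorem re5_sum {x y : ℝ} (hx : Re5 x) (hy : Re5 y) : x + y ≠ 1 / 2 ∧ x + y ≠ (3 - √5) / 4 := by
  obtain ⟨s1, s2, -⟩ := s5
  rw [Re5] at hx hy
  generalize √5 = s at *
  rcases hx with p | p | p | p | p <;> rcases hy with q | q | q | q | q <;>
    exact ⟨fun h => by linarith, fun h => by linarith⟩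

theorem third (hW : Std W) (ha : Rl W a ξ) (hb : Rl W b η) (hξ : ξ.re = -1 / 2)
    (hη : η.re = -1 / 2) (h : tt a b = 1 / 3) :
    dd a ξ b η = 0 ∨ dd a ξ b η = 1 / 4 ∨ dd a ξ b η = -1 / 4 := by
  have p := T3_of hW (TT_cross hW ha hb hξ hη)
  have q := T3_of hW (TT_cross' hW ha hb hξ hη)
  rw [h] at p q
  have q1 := (T3.mem q).2
  rcases sum3 p q (Or.inl (by ring)) with r | r | r | r
  · exfalso; linarith
  · right; right; linarith
  · left; linarith
  · right; left; linarith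

end Pool.Agent.P.MP_97ea17_al.G4Aux

namespace Pool.Agent.P.MP_97ea17_al.Geo

open scoped Quaternion Matrix
open G4Aux

variable {n : ℕ} {W : Subgroup (GH n)} {a b : V n} {ξ η : ℍ[ℝ]}

theorem order3 (hW : Std W) (hM : ¬ Mono W) (ha : Rl W a ξ) (hb : Rl W b η)
    (hξ : ξ.re = -1 / 2) (hη : η.re = -1 / 2) :
    T3 (tt a b) ∧ (Par a ξ b η ∨ (tt a b = 2 / 3 ∧ Perp a ξ b η)) := by
  obtain ⟨-, -, s3⟩ := s5
  have h3 : T3 (tt a b) := T3_of hW ⟨a, ξ, b, η, ha, hb, hξ, hη, rfl⟩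
  refine ⟨h3, ?_⟩
  have par : dd a ξ b η ^ 2 = 9 / 16 * tt a b ^ 2 → Par a ξ b η := fun h =>
    par_of_sq (by rw [im3 ha hξ, im3 hb hη]; linarith)
  have le : dd a ξ b η ^ 2 ≤ 9 / 16 * tt a b ^ 2 := by
    have := dd_sq_le a ξ b η
    rw [im3 ha hξ, im3 hb hη] at this
    linarith
  have p := T3_of hW (TT_cross hW ha hb hξ hη)
  have q := T3_of hW (TT_cross' hW ha hb hξ hη)
  have gold : tt a b * (1 - tt a b) = 1 / 9 → Par a ξ b η := fun h => by
    have e : tt a b + 2 * (1 - -1 / 2) ^ 2 * tt a b * (1 - tt a b) * (1 - 2 * tt a b) = 1 / 2 := by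
      linear_combination (9 / 2 * (1 - 2 * tt a b)) * h
    rw [e] at p
    have h0 : (1 - tt a b) ^ 2 ≠ 0 := pow_ne_zero _ fun h' => by rw [h'] at h; norm_num at h
    have l : (2 * (1 - tt a b) * dd a ξ b η) ^ 2 ≤ (1 / 6) ^ 2 := by
      have := mul_le_mul_of_nonneg_left le (sq_nonneg (1 - tt a b))
      have e' : (1 - tt a b) ^ 2 * (9 / 16 * tt a b ^ 2) = 1 / 144 := by
        linear_combination (9 / 16 * (tt a b * (1 - tt a b) + 1 / 9)) * h
      nlinarith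
    have := mid3 p l
    refine par (mul_left_cancel₀ h0 ?_)
    linear_combination (1 / 4) * this - (9 / 16 * (tt a b * (1 - tt a b) + 1 / 9)) * h
  rcases h3 with h | h | h | h | h | h
  · left
    rw [Par, tt_eq_zero.1 h, zero_mul, zero_mul]
    exact Commute.zero_right _
  · left
    rcases third hW ha hb hξ hη h with d | d | d
    · have t' : tt b (reflMat a ξ *ᵥ b) = 1 / 3 := by
        rw [tt_refl ha.1 hb.1 ha.2.1, hξ, h]; norm_num
      have d' := third hW hb (ha.refl hW hb) hη hη t'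
      rw [dd_refl ha.1 hb.1, im3 ha hξ, im3 hb hη, h, hξ, d] at d'
      norm_num at d'
    all_goals exact par (by rw [d, h]; norm_num)
  · have : dd a ξ b η = 0 ∨ dd a ξ b η = 1 / 2 ∨ dd a ξ b η = -1 / 2 := by
      rw [h] at p q
      have q0 := (T3.mem q).1
      rcases sum3 p q (Or.inr (by ring)) with r | r | r | r
      · right; right; linarith
      · left; linarith
      · right; left; linarith
      · exfalso; linarith
    rcases this with d | d | d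
    · exact Or.inr ⟨h, d⟩
    all_goals exact Or.inl (par (by rw [d, h]; norm_num))
  · exact Or.inl (gold (by rw [h]; linear_combination (-1 / 36) * s3))
  · exact Or.inl (gold (by rw [h]; linear_combination (-1 / 36) * s3))
  · refine Or.inl (par_of_one hW hM ha hb (fun x y hx hy => ?_) h)
    rw [hξ, hη, show (2 : ℝ) * (-1 / 2) * (-1 / 2) = 1 / 2 by norm_num]
    exact (re5_sum hx hy).1

theorem order5 (hW : Std W) (hM : ¬ Mono W) (ha : Rl W a ξ) (hb : Rl W b η)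
    (hξ : ξ.re = (√5 - 1) / 4) (hη : η.re = (√5 - 1) / 4) : Par a ξ b η := by
  obtain ⟨-, -, s3⟩ := s5
  have T5 : ∀ {t}, t ∈ TT W ((√5 - 1) / 4) →
      t = 0 ∨ t = (5 - √5) / 10 ∨ t = (5 + √5) / 10 ∨ t = 1 := fun h => by
    refine dyn5 (TT_finite hW) TT_mem (fun t h => ?_) h
    convert TT_phi hW t h using 4
    ring
  have p := T5 (TT_cross hW ha hb hξ hη)
  have q := T5 (TT_cross' hW ha hb hξ hη)
  have gold : tt a b * (1 - tt a b) = 1 / 5 →
      (2 * (1 - tt a b) * dd a ξ b η) ^ 2 = ((5 + √5) / 20) ^ 2 → Par a ξ b η := fun h h' => by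
    have h0 : (1 - tt a b) ^ 2 ≠ 0 := pow_ne_zero _ fun h' => by rw [h'] at h; norm_num at h
    have i : 1 - ((√5 - 1) / 4) ^ 2 = (5 + √5) / 8 := by linear_combination (-1 / 16) * s3
    refine par_of_sq (mul_left_cancel₀ h0 ?_)
    rw [normSq_im, normSq_im, ha.2.1, hb.2.1, hξ, hη, i]
    linear_combination (1 / 4) * h' -
      (((5 + √5) / 8) ^ 2 * (tt a b * (1 - tt a b) + 1 / 5)) * h
  rcases T5 ⟨a, ξ, b, η, ha, hb, hξ, hη, rfl⟩ with h | h | h | h
  · rw [Par, tt_eq_zero.1 h, zero_mul, zero_mul]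
    exact Commute.zero_right _
  · have e : tt a b + 2 * (1 - (√5 - 1) / 4) ^ 2 * tt a b * (1 - tt a b) * (1 - 2 * tt a b) =
        (5 + √5) / 20 := by
      rw [h]
      linear_combination (-√5 ^ 3 / 4000 + √5 ^ 2 / 400 - √5 / 800 - 1 / 20) * s3
    rw [e] at p q
    exact gold (by rw [h]; linear_combination (-1 / 100) * s3) (sum5 (Or.inl rfl) p q)
  · have e : tt a b + 2 * (1 - (√5 - 1) / 4) ^ 2 * tt a b * (1 - tt a b) * (1 - 2 * tt a b) =
        (15 - √5) / 20 := by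
      rw [h]
      linear_combination (√5 ^ 3 / 4000 - √5 ^ 2 / 400 + √5 / 800 + 1 / 20) * s3
    rw [e] at p q
    exact gold (by rw [h]; linear_combination (-1 / 100) * s3) (sum5 (Or.inr rfl) p q)
  · refine par_of_one hW hM ha hb (fun x y hx hy => ?_) h
    rw [hξ, hη, show 2 * ((√5 - 1) / 4) * ((√5 - 1) / 4) = (3 - √5) / 4 by
      linear_combination (1 / 8) * s3]
    exact (re5_sum hx hy).2

end Pool.Agent.P.MP_97ea17_al.Geo
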