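import Pool.Agent.P.MP_97ea17_al.F.G2
import Pool.Agent.P.MP_97ea17_al.F.G5a

/-! Construction of complex structures. -/

namespace Pool.Agent.P.MP_97ea17_al.Geo

open scoped Quaternion Matrix
open G5Aux

variable {n : ℕ} {W : Subgroup (GH n)}

namespace G5Aux

theorem exists_frame (F : V n → Prop) {u : ℍ[ℝ]} (hF : ∀ x y, F x → F y → Commute u (ip x y))
    (hs : ∀ v, (∀ x, F x → ip x v = 0) → v = 0) (r : ℕ) (hr : r ≤ n) :
    ∃ e : Fin r → V n, ON e ∧ ∀ i x, F x → Commute u (ip x (e i)) := by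
  induction r with
  | zero => exact ⟨Fin.elim0, fun i => i.elim0, fun i => i.elim0⟩
  | succ r ih =>
    obtain ⟨e, he, hc⟩ := ih (Nat.le_of_succ_le hr)
    obtain ⟨v, hv, hve⟩ := exists_orth (Nat.lt_of_succ_le hr) e
    obtain ⟨x, hx, hxv⟩ : ∃ x, F x ∧ ip x v ≠ 0 := by
      by_contra h
      push Not at h
      rw [hs v h, nq_eq_zero.2 rfl] at hv
      exact zero_ne_one hv
    set y := x - vec e fun i => ip (e i) x with hy
    have hy0 : y ≠ 0 := by
      intro h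
      have : ip y v = ip x v := by
        rw [hy, ip_sub_left, ip_vec_left]
        simp [hve]
      rw [h, ip_zero_left] at this
      exact hxv this.symm
    have hye : ∀ i, ip (e i) y = 0 := fun i => by rw [hy, ip_sub_right, he.ip_vec, sub_self]
    obtain ⟨c, -, hc1⟩ := exists_unit_rs hy0
    have hze : ∀ i, ip (e i) (rs y c) = 0 := fun i => by rw [ip_rs_right, hye, zero_mul]
    refine ⟨Fin.cons (rs y c) e, fun i j => ?_, fun i x' hx' => ?_⟩
    · refine Fin.cases ?_ (fun i => ?_) i <;> refine Fin.cases ?_ (fun j => ?_) j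
      · simp [ip_self, hc1]
      · simp [ip_eq_zero_comm.1 (hze j), (Fin.succ_ne_zero j).symm]
      · simp [hze i]
      · simp [he i j]
    · refine Fin.cases ?_ (fun i => ?_) i
      · rw [Fin.cons_zero, ip_rs_right, hy, ip_sub_right, ip_vec_right]
        refine Commute.mul_right (Commute.sub_right (hF _ _ hx' hx)
          (Commute.sum_right _ _ _ fun i _ => Commute.mul_right (hc i x' hx') ?_))
          (Quaternion.coe_commute _ _).symm
        rw [← star_ip, commute_star_right]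
        exact hc i x hx
      · rw [Fin.cons_succ]
        exact hc i x' hx'

end G5Aux

theorem exists_J (F : V n → Prop) {u : ℍ[ℝ]} (hu : u * u = -1)
    (hF : ∀ x y, F x → F y → Commute u (ip x y))
    (hs : ∀ v, (∀ x, F x → ip x v = 0) → v = 0) :
    ∃ J : Matrix (Fin n) (Fin n) ℍ[ℝ], IsU J ∧ J * J = -1 ∧ ∀ x, F x → J *ᵥ x = rs x u := by
  obtain ⟨f, hf, hc⟩ := G5Aux.exists_frame F hF hs n le_rfl
  let J : Matrix (Fin n) (Fin n) ℍ[ℝ] := Matrix.of fun i j => ∑ k, f k i * u * star (f k j)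
  have hJ : ∀ v, J *ᵥ v = vec f fun k => u * ip (f k) v := fun v => by
    ext1 i
    simp only [J, Matrix.mulVec, dotProduct, Matrix.of_apply, vec, Finset.sum_apply, rs, ip,
      Finset.sum_mul, Finset.mul_sum, mul_assoc]
    exact Finset.sum_comm
  have hJJ : J * J = -1 := by
    refine ext_mulVec fun v => ?_
    rw [← Matrix.mulVec_mulVec, hJ, hJ, Matrix.neg_mulVec, Matrix.one_mulVec]
    conv_rhs => rw [hf.expand v]
    simp only [hf.ip_vec, ← mul_assoc, hu, neg_mul, one_mul]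
    simp only [vec, rs_neg, Finset.sum_neg_distrib]
  have hJs : Jᴴ = -J := by
    ext i j : 1
    simp only [J, Matrix.conjTranspose_apply, Matrix.of_apply, Matrix.neg_apply, star_sum,
      star_mul, star_star, star_eq_neg hu, neg_mul, mul_neg, Finset.sum_neg_distrib, mul_assoc]
  refine ⟨J, by rw [IsU, hJs, neg_mul, hJJ, neg_neg], hJJ, fun x hx => ?_⟩
  rw [hJ]
  conv_rhs => rw [hf.expand x]
  simp only [vec, sum_rs, rs_rs]
  refine Finset.sum_congr rfl fun k _ => ?_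
  rw [← star_ip, (commute_star_right.2 (hc k x hx)).eq]

namespace G5Aux

theorem coe_ne {c : ℝ} (h : 0 < c) : (c : ℍ[ℝ]) ≠ 0 := fun e => h.ne' (congrArg (·.re) e)

/-- The star lemma. -/
theorem star_lemma (hW : Std W) (hM : ¬ Mono W) {t : ℝ} {a : V n} {ξ : ℍ[ℝ]} (ha : Rl W a ξ)
    (hξ : ξ.re = t) (H : Subgroup (GH n))
    (hH : ∀ w : GH n, ∀ y η, Rl W y η → η.re = t → ip a y ≠ 0 → w.val = reflMat y η → w ∈ H) :
    ∀ x η, Rl W x η → η.re = t → ∃ h ∈ W, h ∈ H ∧ ip a (h.val *ᵥ x) ≠ 0 := by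
  have hc := comp hW hM (fun x => ∃ η, Rl W x η ∧ η.re = t) (fun x ⟨_, h, _⟩ => h.1)
    (fun w hw x ⟨η, h, h'⟩ => ⟨η, h.act hW hw, h'⟩) ⟨a, ξ, ha, hξ⟩
  intro x η hx hη
  refine hc.1 (fun x => ∃ h ∈ W, h ∈ H ∧ ip a (h.val *ᵥ x) ≠ 0) a ⟨ξ, ha, hξ⟩
    ⟨1, W.one_mem, H.one_mem, ?_⟩ ?_ x ⟨η, hx, hη⟩
  · rw [Units.val_one, Matrix.one_mulVec, ip_self, ha.1]
    simp
  · rintro y z ⟨ζ, hy, hζ⟩ - ⟨h, hw, hh, hay⟩ hyz
    by_cases h0 : ip a (h.val *ᵥ z) = 0
    · have hy' := hy.act hW hw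
      obtain ⟨r, hr, hr'⟩ := hy'.2.2.2
      refine ⟨r * h, W.mul_mem hr hw, H.mul_mem (hH r _ ζ hy' hζ hay hr') hh, ?_⟩
      rw [Units.val_mul, ← Matrix.mulVec_mulVec, hr', reflMat_unit hy'.1, ip_sub_right, h0,
        ip_rs_right, (hW.uni h hw).ip, zero_sub, neg_ne_zero]
      exact mul_ne_zero hay (mul_ne_zero (sub_ne_zero.2 hy.2.2.1.symm) hyz)
    · exact ⟨h, hw, hh, h0⟩

/-- The stabiliser of a vector. -/
def stab (v : V n) : Subgroup (GH n) where
  carrier := {h | h.val *ᵥ v = v}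
  one_mem' := Matrix.one_mulVec v
  mul_mem' {g h} hg hh := by
    change (g * h).val *ᵥ v = v
    rw [Units.val_mul, ← Matrix.mulVec_mulVec, hh, hg]
  inv_mem' {g} hg := by
    change (g⁻¹).val *ᵥ v = v
    conv_lhs => rw [← hg]
    rw [Matrix.mulVec_mulVec, Units.inv_mul, Matrix.one_mulVec]

/-- The centraliser of a matrix. -/
def cent (J : Matrix (Fin n) (Fin n) ℍ[ℝ]) : Subgroup (GH n) where
  carrier := {h | Commute h.val J}
  one_mem' := Commute.one_left J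
  mul_mem' hg hh := Commute.mul_left hg hh
  inv_mem' hg := Commute.units_inv_left hg

/-- Roots of the class whose inner product with `a` is real and positive. -/
def FF (W : Subgroup (GH n)) (t : ℝ) (a b : V n) : Prop :=
  (∃ η, Rl W b η ∧ η.re = t) ∧ ∃ β : ℝ, 0 < β ∧ ip a b = β

theorem rescale {t : ℝ} {a y : V n} {η : ℍ[ℝ]} (hy : Rl W y η) (hη : η.re = t)
    (h : ip a y ≠ 0) : ∃ q : ℍ[ℝ], q ≠ 0 ∧ Rl W (rs y q) (q⁻¹ * η * q) ∧
      (q⁻¹ * η * q).re = t ∧ FF W t a (rs y q) := by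
  have h0 : 0 < Quaternion.normSq (ip a y) :=
    lt_of_le_of_ne Quaternion.normSq_nonneg (Quaternion.normSq_ne_zero.2 h).symm
  have hs := Real.sqrt_pos.2 h0
  have h1 : Quaternion.normSq ((√(Quaternion.normSq (ip a y)))⁻¹ • star (ip a y)) = 1 := by
    rw [Quaternion.normSq_smul, Quaternion.normSq_star, inv_pow, Real.sq_sqrt h0.le,
      inv_mul_cancel₀ h0.ne']
  have h2 : (√(Quaternion.normSq (ip a y)))⁻¹ • star (ip a y) ≠ 0 := by
    intro e
    rw [e, map_zero] at h1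
    exact zero_ne_one h1
  refine ⟨_, h2, hy.rs h1, (conj_re _ h2).trans hη, ⟨_, hy.rs h1, (conj_re _ h2).trans hη⟩,
    (√(Quaternion.normSq (ip a y)))⁻¹ * Quaternion.normSq (ip a y), by positivity, ?_⟩
  rw [ip_rs_right, mul_smul_comm, Quaternion.self_mul_star, Quaternion.smul_coe]

theorem FF_span (hW : Std W) (hM : ¬ Mono W) {t : ℝ} {a : V n} {ξ : ℍ[ℝ]} (ha : Rl W a ξ)
    (hξ : ξ.re = t) (v : V n) (hv : ∀ x, FF W t a x → ip x v = 0) : v = 0 := by
  have h1 : ∀ y η, Rl W y η → η.re = t → ip a y ≠ 0 → ip y v = 0 := fun y η hy hη h => by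
    obtain ⟨q, hq, -, -, hF⟩ := rescale hy hη h
    have := hv _ hF
    rw [ip_rs_left] at this
    exact (mul_eq_zero.1 this).resolve_left (star_ne_zero.2 hq)
  refine (comp hW hM (fun x => ∃ η, Rl W x η ∧ η.re = t) (fun x ⟨_, h, _⟩ => h.1)
    (fun w hw x ⟨η, h, h'⟩ => ⟨η, h.act hW hw, h'⟩) ⟨a, ξ, ha, hξ⟩).2 v ?_
  rintro x ⟨η, hx, hη⟩
  obtain ⟨h, hw, hh, h2⟩ := star_lemma hW hM ha hξ (stab v) (fun w y ζ hy hζ h e => by
    change w.val *ᵥ v = v
    rw [e, reflMat_orth (h1 y ζ hy hζ h)]) x η hx hη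
  have h3 : h.val *ᵥ v = v := hh
  rw [← (hW.uni h hw).ip, h3]
  exact h1 _ η (hx.act hW hw) hη h2

theorem refl_eq_conj {w : GH n} (hw : IsU w.val) (x : V n) (η : ℍ[ℝ]) :
    reflMat x η = (w⁻¹).val * reflMat (w.val *ᵥ x) η * w.val := by
  rw [mul_assoc, reflMat_conj hw, Units.inv_mul_cancel_left]

theorem exists_comm (hW : Std W) (hM : ¬ Mono W) {t : ℝ} {a : V n} {ξ : ℍ[ℝ]} (ha : Rl W a ξ)
    (hξ : ξ.re = t) {u : ℍ[ℝ]} (hu : u * u = -1)
    (hF : ∀ x y, FF W t a x → FF W t a y → Commute u (ip x y))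
    (hv : ∀ x η, Rl W x η → η.re = t → FF W t a x → Commute η u) :
    ∃ J : Matrix (Fin n) (Fin n) ℍ[ℝ], IsU J ∧ J * J = -1 ∧
      ∀ x η, Rl W x η → η.re = t → Commute (reflMat x η) J := by
  obtain ⟨J, hJ, hJJ, hJx⟩ := exists_J (FF W t a) hu hF (FF_span hW hM ha hξ)
  have hu0 : u ≠ 0 := by
    rintro rfl
    simp at hu
  have key : ∀ y ζ, Rl W y ζ → ζ.re = t → ip a y ≠ 0 → Commute (reflMat y ζ) J := by
    intro y ζ hy hζ h
    obtain ⟨q, hq, h1, h2, hF⟩ := rescale hy hζ h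
    have h3 := reflMat_conj hJ (rs y q) (q⁻¹ * ζ * q)
    have h4 := reflMat_rs (rs y q) (q⁻¹ * ζ * q) hu0
    rw [mul_assoc u⁻¹, (hv _ _ h1 h2 hF).eq, ← mul_assoc, inv_mul_cancel₀ hu0, one_mul] at h4
    rw [hJx _ hF, h4, reflMat_rs y ζ hq] at h3
    exact h3
  refine ⟨J, hJ, hJJ, fun x η hx hη => ?_⟩
  obtain ⟨h, hw, hh, h2⟩ := star_lemma hW hM ha hξ (cent J) (fun w y ζ hy hζ h e => by
    change Commute w.val J
    rw [e]
    exact key y ζ hy hζ h) x η hx hη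
  rw [refl_eq_conj (hW.uni h hw) x η]
  exact Commute.mul_left (Commute.mul_left ((cent J).inv_mem hh)
    (key _ η (hx.act hW hw) hη h2)) hh

theorem eigen {J : Matrix (Fin n) (Fin n) ℍ[ℝ]} (hJ : J * J = -1) {x : V n} {η : ℍ[ℝ]}
    (hx : nq x = 1) (hη : η ≠ 1) (h : Commute (reflMat x η) J) :
    ∃ p : ℍ[ℝ], J *ᵥ x = rs x p ∧ p * p = -1 ∧ Commute η p := by
  have h0 : 1 - η ≠ 0 := sub_ne_zero.2 hη.symm
  have hxx : ip x x = 1 := by rw [ip_self, hx, Quaternion.coe_one]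
  have h1 : rs (J *ᵥ x) (1 - η) = rs x ((1 - η) * ip x (J *ᵥ x)) := by
    have := congrArg (· *ᵥ x) h.eq
    simp only [← Matrix.mulVec_mulVec] at this
    rw [reflMat_unit hx, reflMat_self (by rw [hx]; exact one_ne_zero), mulVec_rs] at this
    rw [rs_sub, rs_one, ← this, sub_sub_cancel]
  have h2 : ip x (J *ᵥ x) * (1 - η) = (1 - η) * ip x (J *ᵥ x) := by
    have := congrArg (ip x) h1
    rwa [ip_rs_right, ip_rs_right, hxx, one_mul] at this
  have h3 : J *ᵥ x = rs x (ip x (J *ᵥ x)) := by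
    have := congrArg (rs · (1 - η)⁻¹) h1
    simp only [rs_rs] at this
    rwa [mul_inv_cancel₀ h0, rs_one, ← h2, mul_inv_cancel_right₀ h0] at this
  refine ⟨_, h3, ?_, ?_⟩
  · have h4 : J *ᵥ (J *ᵥ x) = -x := by
      rw [Matrix.mulVec_mulVec, hJ, Matrix.neg_mulVec, Matrix.one_mulVec]
    conv_lhs at h4 => rw [h3, mulVec_rs]
    have := congrArg (ip x) h4
    rwa [ip_rs_right, ip_neg_right, hxx] at this
  · rw [mul_sub, _root_.sub_mul, mul_one, one_mul, sub_right_inj] at h2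
    exact h2.symm

theorem eq_of_span {S : V n → Prop} (hs : ∀ v, (∀ x, S x → ip x v = 0) → v = 0)
    {A B : Matrix (Fin n) (Fin n) ℍ[ℝ]} (h : ∀ x, S x → A *ᵥ x = B *ᵥ x) : A = B := by
  have h1 : (A - B)ᴴ = 0 := ext_mulVec fun v => by
    rw [Matrix.zero_mulVec]
    refine hs _ fun x hx => ?_
    rw [← ip_mulVec_left, Matrix.sub_mulVec, h x hx, sub_self, ip_zero_left]
  rwa [Matrix.conjTranspose_eq_zero, sub_eq_zero] at h1

theorem sign_of_conn {S : V n → Prop} (hc : Conn S) {a : V n} (ha : S a)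
    {A B : Matrix (Fin n) (Fin n) ℍ[ℝ]} (hA : IsU A) (hB : IsU B)
    (h : ∀ x, S x → A *ᵥ x = B *ᵥ x ∨ A *ᵥ x = -(B *ᵥ x)) (h0 : A *ᵥ a = B *ᵥ a) : A = B := by
  refine eq_of_span hc.2 (hc.1 (fun x => A *ᵥ x = B *ᵥ x) a ha h0 fun x y _ hy hx hxy => ?_)
  refine (h y hy).resolve_right fun e => hxy ?_
  have := hA.ip x y
  rw [hx, e, ip_neg_right, hB.ip] at this
  have h2 : (2 : ℝ) • ip x y = 0 := by rw [two_smul, ← eq_neg_iff_add_eq_zero, this]
  exact (smul_eq_zero.1 h2).resolve_left two_ne_zero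

end G5Aux

theorem nj_of_par (hW : Std W) (hM : ¬ Mono W) {t : ℝ} (ht : t ≠ -1)
    (hne : ∃ a ξ, Rl W a ξ ∧ ξ.re = t)
    (h : ∀ a ξ b η, Rl W a ξ → Rl W b η → ξ.re = t → η.re = t → Par a ξ b η) : NJ W := by
  obtain ⟨a, ξ, ha, hξ⟩ := hne
  have him : ∀ x η, Rl W x η → η.re = t → η.im ≠ 0 := fun x η hx hη =>
    im_ne_zero hx.2.1 hx.2.2.1 (hη ▸ ht)
  obtain ⟨u, hu, hξu⟩ := exists_axis (him a ξ ha hξ)
  have hu0 : u ≠ 0 := by
    rintro rfl
    simp at hu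
  have hv : ∀ x η, Rl W x η → η.re = t → G5Aux.FF W t a x → Commute η u := by
    rintro x η hx hη ⟨-, β, hβ, e⟩
    have := h a ξ x η ha hx hξ hη
    rw [Par, ← star_ip a x, e, Quaternion.star_coe, Quaternion.coe_mul_eq_smul,
      Quaternion.mul_coe_eq_smul, Commute.smul_right_iff₀ hβ.ne',
      Commute.smul_right_iff₀ hβ.ne'] at this
    exact commute_trans (him a ξ ha hξ) this hξu
  have hca : ∀ x η y ζ, Rl W x η → Rl W y ζ → η.re = t → ζ.re = t → Commute η u → Commute ζ u →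
      ip x y * u = u * ip x y ∨ ip x y * u = -(u * ip x y) := fun x η y ζ hx hy hη hζ h1 h2 =>
    comm_or_anti hu (him x η hx hη) (him y ζ hy hζ) h1 h2 (by
      rw [star_ip]
      exact h x η y ζ hx hy hη hζ)
  have two : ∀ z : ℍ[ℝ], u * z = -(u * z) → z = 0 := fun z hz => by
    have h2 : (2 : ℝ) • (u * z) = 0 := by rw [two_smul, ← eq_neg_iff_add_eq_zero, ← hz]
    exact (mul_eq_zero.1 ((smul_eq_zero.1 h2).resolve_left two_ne_zero)).resolve_left hu0
  obtain ⟨J, hJ, hJJ, hJc⟩ := G5Aux.exists_comm hW hM ha hξ hu (fun x y hx hy => by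
    obtain ⟨⟨η, hx1, hη⟩, β, hβ, e⟩ := id hx
    obtain ⟨⟨ζ, hy1, hζ⟩, γ, hγ, e'⟩ := id hy
    have c1 := hv x η hx1 hη hx
    have c2 := hv y ζ hy1 hζ hy
    have hz : Commute u (star ((1 - ξ) * β) * γ) :=
      (commute_star_right.2 (((Commute.one_right u).sub_right hξu.symm).mul_right
        (Quaternion.coe_commute _ _).symm)).mul_right (Quaternion.coe_commute _ _).symm
    have hz0 : star ((1 - ξ) * β) * γ ≠ 0 :=
      mul_ne_zero (star_ne_zero.2 (mul_ne_zero (sub_ne_zero.2 ha.2.2.1.symm)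
        (G5Aux.coe_ne hβ))) (G5Aux.coe_ne hγ)
    have h3 := hca _ η y ζ (ha.refl hW hx1) hy1 hη hζ c1 c2
    rw [reflMat_unit ha.1, ip_sub_left, ip_rs_left, e, e', _root_.sub_mul, mul_sub, ← hz.eq] at h3
    rcases hca x η y ζ hx1 hy1 hη hζ c1 c2 with h1 | h1
    · exact h1.symm
    · rcases h3 with h3 | h3
      · exact (sub_left_inj.1 h3).symm
      · rw [h1, neg_sub, sub_eq_iff_eq_add, sub_add_eq_add_sub, eq_sub_iff_add_eq,
          neg_add_cancel, eq_comm, add_eq_zero_iff_eq_neg] at h3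
        exact absurd (two _ h3) hz0) hv
  have hc := comp hW hM (fun x => ∃ η, Rl W x η ∧ η.re = t) (fun x ⟨_, h, _⟩ => h.1)
    (fun w hw x ⟨η, h, h'⟩ => ⟨η, h.act hW hw, h'⟩) ⟨a, ξ, ha, hξ⟩
  refine ⟨J, hJ, hJJ, fun w hw => ?_⟩
  have hw' := W.inv_mem hw
  have hJ' : IsU (w.val * J * (w⁻¹).val) := ((hW.uni w hw).mul hJ).mul (hW.uni _ hw')
  have hJJ' : w.val * J * (w⁻¹).val * (w.val * J * (w⁻¹).val) = -1 := by
    simp only [mul_assoc, Units.inv_mul_cancel_left]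
    rw [← mul_assoc J, hJJ, neg_mul, one_mul, mul_neg, Units.mul_inv]
  have hsg : ∀ x, (∃ η, Rl W x η ∧ η.re = t) → (w.val * J * (w⁻¹).val) *ᵥ x = J *ᵥ x ∨
      (w.val * J * (w⁻¹).val) *ᵥ x = -(J *ᵥ x) := by
    rintro x ⟨η, hx, hη⟩
    obtain ⟨p, p1, p2, p3⟩ := G5Aux.eigen hJJ hx.1 hx.2.2.1 (hJc x η hx hη)
    obtain ⟨q, q1, q2, q3⟩ := G5Aux.eigen hJJ' hx.1 hx.2.2.1 (by
      rw [G5Aux.refl_eq_conj (hW.uni _ hw') x η, inv_inv, Commute, SemiconjBy]
      simp only [mul_assoc, Units.inv_mul_cancel_left]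
      rw [← mul_assoc _ J, (hJc _ η (hx.act hW hw') hη).eq, mul_assoc])
    rw [p1, q1, ← rs_neg]
    exact (eq_or_eq_neg q2 p2 (commute_trans (him x η hx hη) q3 p3)).imp (congrArg _) (congrArg _)
  rcases hsg a ⟨ξ, ha, hξ⟩ with h0 | h0
  · left
    conv_rhs => rw [← G5Aux.sign_of_conn hc ⟨ξ, ha, hξ⟩ hJ' hJ hsg h0]
    rw [Units.inv_mul_cancel_right]
  · right
    have hJn : IsU (-J) := by rw [IsU, Matrix.conjTranspose_neg, neg_mul_neg, hJ]
    have := G5Aux.sign_of_conn hc ⟨ξ, ha, hξ⟩ hJ' hJn (fun x hx => by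
      rw [Matrix.neg_mulVec, neg_neg]
      exact (hsg x hx).symm) (by rw [Matrix.neg_mulVec]; exact h0)
    rw [← neg_mul, ← this, Units.inv_mul_cancel_right]

theorem cpx_of_h4 (hW : Std W) (hM : ¬ Mono W) (h2 : ∀ a ξ, Rl W a ξ → ξ = -1)
    (h : H4 fun a => Rl W a (-1)) : Cpx W := by
  obtain ⟨a, ξ, ha⟩ := exists_refl hW hM
  obtain rfl := h2 a ξ ha
  have hre : (-1 : ℍ[ℝ]).re = -1 := by simp
  have hR : ∀ x, G5Aux.FF W (-1) a x → Rl W x (-1) := fun x ⟨⟨η, hx, _⟩, _⟩ => h2 x η hx ▸ hx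
  have hE : ∀ b x y, G5Aux.FF W (-1) a b → G5Aux.FF W (-1) a x → G5Aux.FF W (-1) a y →
      Commute (ip b x) (ip b y) := fun b x y hb hx hy => by
    have := h a b x y ha (hR b hb) (hR x hx) (hR y hy)
    obtain ⟨-, β, hβ, e1⟩ := hb
    obtain ⟨-, χ, hχ, e2⟩ := hx
    obtain ⟨-, γ, hγ, e3⟩ := hy
    rw [← star_ip a x, ← star_ip a y, e1, e2, e3] at this
    simpa only [Quaternion.star_coe, Quaternion.coe_mul_eq_smul, Quaternion.mul_coe_eq_smul,
      Commute.smul_right_iff₀ hβ.ne', Commute.smul_left_iff₀ hβ.ne',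
      Commute.smul_left_iff₀ hχ.ne', Commute.smul_right_iff₀ hγ.ne'] using this
  have flip : ∀ b y, G5Aux.FF W (-1) a b → G5Aux.FF W (-1) a y → ∃ b', G5Aux.FF W (-1) a b' ∧
      ip b' y ≠ 0 ∧ ∃ ε : ℝ, ε ≠ 0 ∧ ∀ v, G5Aux.FF W (-1) a v → (ip b' v).im = ε • (ip b v).im := by
    intro b y hb hy
    by_cases h0 : ip b y = 0
    · obtain ⟨-, β, hβ, e1⟩ := id hb
      have e : ∀ v, ip (rs (reflMat a (-1) *ᵥ b) (-1)) v = (2 * β : ℝ) • ip a v - ip b v := by
        intro v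
        rw [reflMat_unit ha.1, ip_rs_left, ip_sub_left, ip_rs_left, e1, sub_neg_eq_add,
          one_add_one_eq_two, star_neg, star_one, neg_mul, one_mul, neg_sub,
          two_mul, two_mul, add_smul, ← Quaternion.coe_mul_eq_smul, star_add,
          Quaternion.star_coe, add_mul]
      refine ⟨rs (reflMat a (-1) *ᵥ b) (-1), ⟨⟨_, (ha.refl hW (hR b hb)).rs (by simp), by simp⟩,
        β, hβ, ?_⟩, ?_, -1, by norm_num, fun v hv => ?_⟩
      · rw [← star_ip, e, ip_self, ha.1, ← star_ip a b, e1, Quaternion.star_coe,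
          Quaternion.smul_coe, ← Quaternion.coe_sub, Quaternion.star_coe]
        congr 1
        ring
      · obtain ⟨-, γ, hγ, e2⟩ := hy
        rw [e, h0, sub_zero, e2]
        exact smul_ne_zero (by positivity) (G5Aux.coe_ne hγ)
      · obtain ⟨-, γ, -, e2⟩ := hv
        rw [e, e2]
        simp
    · exact ⟨b, hb, h0, 1, one_ne_zero, fun v _ => (one_smul _ _).symm⟩
  have ims : ∀ x y : V n, (ip x y).im = -(ip y x).im := fun x y => by
    rw [← star_ip, Quaternion.im_star]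
  have hG : ∀ b x y z, G5Aux.FF W (-1) a b → G5Aux.FF W (-1) a x → G5Aux.FF W (-1) a y →
      G5Aux.FF W (-1) a z → Commute (ip b x) (ip y z) := fun b x y z hb hx hy hz => by
    have sl : ∀ {p q : V n} {r : ℍ[ℝ]}, Commute (ip p q) r → Commute (ip q p) r := fun e => by
      rwa [← star_ip, commute_star_left]
    by_cases h1 : (ip y b).im = 0
    swap
    · exact commute_trans h1 (sl (hE b y x hb hy hx)) (hE y b z hy hb hz)
    by_cases h3 : (ip y x).im = 0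
    swap
    · exact sl (commute_trans h3 (sl (hE x y b hx hy hb)) (hE y x z hy hx hz))
    by_cases h4 : (ip z b).im = 0
    swap
    · exact (sl (commute_trans h4 (hE z b y hz hb hy) (sl (hE b z x hb hz hx)))).symm
    obtain ⟨b', hb', n1, ε1, m1, k1⟩ := flip b y hb hy
    obtain ⟨x', hx', n2, ε2, m2, k2⟩ := flip x y hx hy
    obtain ⟨z', hz', n3, ε3, m3, k3⟩ := flip z b' hz hb'
    have r1 : (ip b' y).im = 0 := by rw [k1 y hy, ims, h1, neg_zero, smul_zero]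
    have r2 : (ip x' y).im = 0 := by rw [k2 y hy, ims, h3, neg_zero, smul_zero]
    have r3 : (ip z' b').im = 0 := by
      rw [k3 b' hb', ims, k1 z hz, ims, h4, neg_zero, smul_zero, neg_zero, smul_zero]
    have := h b' y x' z' (hR _ hb') (hR _ hy) (hR _ hx') (hR _ hz')
    have ne : ∀ {q : ℍ[ℝ]}, q ≠ 0 → q.im = 0 → q.re ≠ 0 := fun hq e e' =>
      hq (by rw [eq_coe_of_im e, e', Quaternion.coe_zero])
    rw [← star_ip x' y, eq_coe_of_im r1, eq_coe_of_im r2, eq_coe_of_im r3] at this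
    simp only [Quaternion.star_coe, Quaternion.coe_mul_eq_smul, Quaternion.mul_coe_eq_smul,
      smul_mul_assoc, Commute.smul_right_iff₀ (ne n1 r1), Commute.smul_left_iff₀ (ne n1 r1),
      Commute.smul_left_iff₀ (ne n2 r2), Commute.smul_right_iff₀ (ne n3 r3)] at this
    rw [← commute_im, k2 b' hb', ims x b', k1 x hx, ims y z', k3 y hy, ims z y] at this
    rw [← commute_im]
    simpa only [Commute.smul_left_iff₀ m1, Commute.smul_left_iff₀ m2, Commute.smul_right_iff₀ m3,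
      Commute.neg_left_iff, Commute.neg_right_iff] using this
  obtain ⟨u, hu, huc⟩ : ∃ u : ℍ[ℝ], u * u = -1 ∧ ∀ y z, G5Aux.FF W (-1) a y →
      G5Aux.FF W (-1) a z → Commute u (ip y z) := by
    by_cases h0 : ∃ b x, G5Aux.FF W (-1) a b ∧ G5Aux.FF W (-1) a x ∧ (ip b x).im ≠ 0
    · obtain ⟨b, x, hb, hx, h0⟩ := h0
      obtain ⟨u, hu, hc⟩ := exists_axis h0
      exact ⟨u, hu, fun y z hy hz => commute_trans h0 hc (hG b x y z hb hx hy hz)⟩
    · push Not at h0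
      exact ⟨⟨0, 1, 0, 0⟩, by ext <;> simp, fun y z hy hz =>
        (commute_of_im (h0 y z hy hz) _).symm⟩
  obtain ⟨J, hJ, hJJ, hJc⟩ := G5Aux.exists_comm hW hM ha hre hu huc fun x η hx _ _ => by
    rw [h2 x η hx]
    exact Commute.neg_one_left u
  refine ⟨J, hJ, hJJ, hW.le_of_refl (G5Aux.cent J) fun w _ x η hx e => ?_⟩
  change Commute w.val J
  rw [e]
  exact hJc x η hx (by rw [h2 x η hx, hre])

end Pool.Agent.P.MP_97ea17_al.Geo
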