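import Mathlib

/-! A finite root system without orthogonal roots lies in a plane. -/

namespace Pool.Agent.P.MP_97ea17_al.Geo.G6Aux

open scoped RealInnerProductSpace

variable {E : Type} [NormedAddCommGroup E] [InnerProductSpace ℝ E]

theorem eq_of_inner_one {x y : E} (hx : ⟪x, x⟫ = 1) (hy : ⟪y, y⟫ = 1) (h : 1 ≤ ⟪x, y⟫) :
    x = y := by
  rw [← sub_eq_zero, ← real_inner_self_nonpos, inner_sub_left, inner_sub_right, inner_sub_right,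
    hx, hy, real_inner_comm x y]
  linarith

theorem mem_of_bessel {P : Submodule ℝ E} {a b c : E} {κ : ℝ} (ha : a ∈ P) (hb : b ∈ P)
    (haa : ⟪a, a⟫ = 1) (hbb : ⟪b, b⟫ = 1) (hcc : ⟪c, c⟫ = 1) (hab : ⟪a, b⟫ = κ) (h0 : 0 ≤ κ)
    (h1 : κ < 1) (h2 : ⟪c, a⟫ * ⟪c, b⟫ ≤ -⟪c, a⟫ ^ 2) (h3 : ⟪c, a⟫ ^ 2 ≤ ⟪c, b⟫ ^ 2)
    (h4 : 1 - κ ≤ 2 * ⟪c, a⟫ ^ 2) : c ∈ P := by
  set x := ⟪c, a⟫ with hx
  set y := ⟪c, b⟫ with hy
  have hk : 0 < 1 - κ ^ 2 := by nlinarith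
  have h5 : (1 - κ ^ 2) • c - ((x - κ * y) • a + (y - κ * x) • b) = 0 := by
    rw [← real_inner_self_nonpos]
    simp only [inner_sub_left, inner_sub_right, inner_add_left, inner_add_right,
      real_inner_smul_left, real_inner_smul_right, haa, hbb, hcc, hab, real_inner_comm c a,
      real_inner_comm c b, real_inner_comm a b, ← hx, ← hy]
    have h6 : 1 - κ ^ 2 ≤ x ^ 2 - 2 * κ * (x * y) + y ^ 2 := by nlinarith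
    nlinarith
  rw [sub_eq_zero] at h5
  have h7 : (1 - κ ^ 2) • c ∈ P := h5 ▸ P.add_mem (P.smul_mem _ ha) (P.smul_mem _ hb)
  exact (P.smul_mem_iff hk.ne').1 h7

theorem plane (Φ : Set E) (hf : Φ.Finite) (hu : ∀ x ∈ Φ, ⟪x, x⟫ = 1) (hneg : ∀ x ∈ Φ, -x ∈ Φ)
    (hr : ∀ x ∈ Φ, ∀ y ∈ Φ, (2 * ⟪x, y⟫) • x - y ∈ Φ) (ho : ∀ x ∈ Φ, ∀ y ∈ Φ, ⟪x, y⟫ ≠ 0)
    {e : E} (he : e ∈ Φ) : ∃ a b : E, ∀ c ∈ Φ, ∃ α β : ℝ, α • a + β • b = c := by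
  obtain ⟨⟨a, b⟩, ⟨⟨ha, hb⟩, h1⟩, hmax⟩ := Set.exists_max_image
    {p : E × E | p ∈ Φ ×ˢ Φ ∧ ⟪p.1, p.2⟫ < 1} (fun p => ⟪p.1, p.2⟫)
    ((hf.prod hf).subset fun p hp => hp.1)
    ⟨(e, -e), ⟨he, hneg e he⟩, by simp only [inner_neg_right, hu e he]; norm_num⟩
  simp only at ha hb h1 hmax
  set κ := ⟪a, b⟫ with hκ
  have hm : ∀ x ∈ Φ, ∀ y ∈ Φ, x = y ∨ ⟪x, y⟫ ≤ κ := fun x hx y hy => by
    rcases le_or_gt 1 ⟪x, y⟫ with h | h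
    · exact Or.inl (eq_of_inner_one (hu x hx) (hu y hy) h)
    · exact Or.inr (hmax (x, y) ⟨⟨hx, hy⟩, h⟩)
  refine ⟨a, b, fun c hc => ?_⟩
  rcases lt_or_ge κ 0 with h0 | h0
  · rcases hm a ha c hc with h | h
    · exact ⟨1, 0, by simp [h]⟩
    rcases hm a ha (-c) (hneg c hc) with h' | h'
    · exact ⟨-1, 0, by simp [h']⟩
    · rw [inner_neg_right] at h'
      linarith
  have hlow : ∀ x ∈ Φ, 1 - κ ≤ 2 * ⟪c, x⟫ ^ 2 := fun x hx => by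
    have h2 : ⟪c, -((2 * ⟪x, c⟫) • x - c)⟫ = 1 - 2 * ⟪c, x⟫ ^ 2 := by
      rw [inner_neg_right, inner_sub_right, real_inner_smul_right, hu c hc, real_inner_comm c x]
      ring
    have h3 := hmax (c, -((2 * ⟪x, c⟫) • x - c)) ⟨⟨hc, hneg _ (hr x hx c hc)⟩, by
      have := pow_pos (abs_pos.2 (ho c hc x hx)) 2
      rw [sq_abs] at this
      simp only [h2]
      linarith⟩
    simp only [h2] at h3
    linarith
  rw [← Submodule.mem_span_pair]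
  set P := Submodule.span ℝ ({a, b} : Set E)
  obtain ⟨⟨x, y⟩, ⟨⟨hx, hy⟩, hxP, hyP, hxy⟩, hmin⟩ := Set.exists_min_image
    {p : E × E | p ∈ Φ ×ˢ Φ ∧ p.1 ∈ P ∧ p.2 ∈ P ∧ ⟪p.1, p.2⟫ = κ} (fun p => ⟪c, p.1⟫ ^ 2)
    ((hf.prod hf).subset fun p hp => hp.1)
    ⟨(a, b), ⟨ha, hb⟩, Submodule.subset_span (by simp), Submodule.subset_span (by simp), rfl⟩
  simp only at hx hy hxP hyP hxy hmin
  have hy' := hr x hx y hy
  have hy'P : (2 * ⟪x, y⟫) • x - y ∈ P := P.sub_mem (P.smul_mem _ hxP) hyP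
  have hxy' : ⟪x, (2 * ⟪x, y⟫) • x - y⟫ = κ := by
    rw [inner_sub_right, real_inner_smul_right, hu x hx, hxy]; ring
  have hs : ⟪c, (2 * ⟪x, y⟫) • x - y⟫ = 2 * κ * ⟪c, x⟫ - ⟪c, y⟫ := by
    rw [inner_sub_right, real_inner_smul_right, hxy]
  generalize (2 * ⟪x, y⟫) • x - y = z at hy' hy'P hxy' hs
  have a1 := hmin (y, x) ⟨⟨hy, hx⟩, hyP, hxP, by rw [real_inner_comm, hxy]⟩
  have a2 := hmin (z, x) ⟨⟨hy', hx⟩, hy'P, hxP, by rw [real_inner_comm, hxy']⟩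
  simp only at a1 a2
  have a3 := pow_pos (abs_pos.2 (ho c hc x hx)) 2
  rw [sq_abs] at a3
  have key : ∀ t : ℝ, ⟪c, x⟫ ^ 2 ≤ t ^ 2 →
      ⟪c, x⟫ * t ≤ -⟪c, x⟫ ^ 2 ∨ ⟪c, x⟫ ^ 2 ≤ ⟪c, x⟫ * t := fun t ht => by
    by_contra hh
    push Not at hh
    nlinarith [mul_pos (sub_pos.2 hh.1) (sub_pos.2 hh.2)]
  rcases key _ a1 with b1 | b1
  · exact mem_of_bessel hxP hyP (hu x hx) (hu y hy) (hu c hc) hxy h0 h1 b1 a1 (hlow x hx)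
  rcases key _ a2 with b2 | b2
  · exact mem_of_bessel hxP hy'P (hu x hx) (hu z hy') (hu c hc) hxy' h0 h1 b2 a2 (hlow x hx)
  rw [hs] at b2
  nlinarith

end Pool.Agent.P.MP_97ea17_al.Geo.G6Aux
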