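import Pool.Agent.P.MP_97ea17_al.F.G1b
import Pool.Agent.P.MP_97ea17_al.F.G6a
import Pool.Agent.P.MP_97ea17_al.Rank2b

/-! Groups that normalise a complex structure. -/

namespace Pool.Agent.P.MP_97ea17_al.Geo

open scoped Quaternion Matrix

namespace G6Aux

open scoped RealInnerProductSpace ComplexConjugate

theorem refl_eq {x y : ℍ[ℝ]} (hx : Quaternion.normSq x = 1) (hy : Quaternion.normSq y = 1) :
    (2 * ⟪x, y⟫) • x - y = x * y⁻¹ * x := by
  have h1 : y⁻¹ = star y := by rw [Quaternion.inv_def, hy, inv_one, one_smul]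
  rw [h1, Quaternion.inner_def]
  rw [Quaternion.normSq_def'] at hx
  ext <;> simp
  · linear_combination y.re * hx
  · linear_combination y.imI * hx
  · linear_combination y.imJ * hx
  · linear_combination y.imK * hx

theorem commute_of_plane {a b l m : ℍ[ℝ]} {α₀ β₀ α₁ β₁ α₂ β₂ : ℝ} (h0 : α₀ • a + β₀ • b = 1)
    (h1 : α₁ • a + β₁ • b = l) (h2 : α₂ • a + β₂ • b = m) : Commute l m := by
  have hc : ∀ (r s : ℝ) (x y : ℍ[ℝ]), r ≠ 0 → Commute y (r • x) → Commute y x :=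
    fun r s x y hr h => by
      have := h.smul_right r⁻¹
      rwa [smul_smul, inv_mul_cancel₀ hr, one_smul] at this
  by_cases hd : α₀ * β₁ - α₁ * β₀ = 0
  · by_cases ha : α₀ = 0
    · have hb : β₀ ≠ 0 := by
        rintro rfl
        simp [ha] at h0
      have : β₀ • l = β₁ • (1 : ℍ[ℝ]) := by
        rw [← h0, ← h1]
        linear_combination (norm := module) (-hd) • a
      exact (hc β₀ 0 l m hb (this ▸ (Commute.one_right m).smul_right β₁)).symm
    · have : α₀ • l = α₁ • (1 : ℍ[ℝ]) := by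
        rw [← h0, ← h1]
        linear_combination (norm := module) hd • b
      exact (hc α₀ 0 l m ha (this ▸ (Commute.one_right m).smul_right α₁)).symm
  · have : (α₀ * β₁ - α₁ * β₀) • m =
        (α₂ * β₁ - α₁ * β₂) • (1 : ℍ[ℝ]) + (α₀ * β₂ - α₂ * β₀) • l := by
      rw [← h0, ← h1, ← h2]
      module
    exact hc _ 0 m l hd (this ▸ ((Commute.one_right l).smul_right _).add_right
      ((Commute.refl l).smul_right _))

theorem exists_axis (l : ℍ[ℝ]) (h : l.im ≠ 0) :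
    ∃ u : ℍ[ℝ], u * u = -1 ∧ ∀ m, Commute l m → Commute u m := by
  have h1 : 0 < Quaternion.normSq l.im :=
    lt_of_le_of_ne Quaternion.normSq_nonneg (Quaternion.normSq_ne_zero.2 h).symm
  refine ⟨(√(Quaternion.normSq l.im))⁻¹ • l.im, ?_, fun m hm => Commute.smul_left ?_ _⟩
  · rw [smul_mul_smul_comm, ← sq l.im, Quaternion.im_sq, ← mul_inv, Real.mul_self_sqrt h1.le,
      smul_neg, Quaternion.smul_coe, inv_mul_cancel₀ h1.ne', Quaternion.coe_one]
  · rw [← Quaternion.sub_re_self]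
    exact hm.sub_left (Quaternion.coe_commute _ _)

variable {n : ℕ}

theorem comm_of_refl {J : Matrix (Fin n) (Fin n) ℍ[ℝ]} {W : Subgroup (GH n)} (hW : Std W)
    (h : ∀ r ∈ W, ∀ a ξ, Rl W a ξ → r.val = reflMat a ξ → r.val * J = J * r.val) :
    ∀ w ∈ W, w.val * J = J * w.val :=
  hW.induction (fun w => w.val * J = J * w.val) (by simp) fun r hr a ξ h1 h2 w _ hw => by
    rw [Units.val_mul, mul_assoc, hw, ← mul_assoc, h r hr a ξ h1 h2, mul_assoc]

theorem anti_vec {J r : Matrix (Fin n) (Fin n) ℍ[ℝ]} (h : r * J = -(J * r)) {v : V n}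
    (hv : r *ᵥ v = v) : r *ᵥ (J *ᵥ v) = -(J *ᵥ v) := by
  rw [Matrix.mulVec_mulVec, h, Matrix.neg_mulVec, ← Matrix.mulVec_mulVec, hv]

theorem eq_zero_of_neg {v : V n} (h : v = -v) : v = 0 := by
  rw [eq_neg_iff_add_eq_zero, ← two_smul ℝ, smul_eq_zero] at h
  exact h.resolve_left two_ne_zero

theorem exists_rq {A : Matrix (Fin 2) (Fin 2) ℍ[ℝ]} (hA : IsU A)
    (h : A * rq Complex.I 1 = rq Complex.I 1 * A) :
    ∃ (z : ℂ) (q : ℍ[ℝ]), ‖z‖ = 1 ∧ Quaternion.normSq q = 1 ∧ A = rq z q := by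
  have a1 := congrFun (congrFun h 0) 0
  have a2 := congrFun (congrFun h 1) 0
  have a3 := congrFun (congrFun hA 0) 0
  have a4 := congrFun (congrFun hA 0) 1
  simp [rq, Matrix.mul_apply] at a1 a2 a3 a4
  rw [Quaternion.star_mul_self, Quaternion.star_mul_self, ← Quaternion.coe_add,
    ← Quaternion.coe_one] at a3
  have a5 := Quaternion.coe_injective a3
  rw [Matrix.eta_fin_two A, a1, a2]
  rw [a1, a2] at a4
  generalize A 0 0 = p at a4 a5
  generalize A 1 0 = q at a4 a5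
  obtain ⟨z, hz, h1⟩ : ∃ z : ℂ, z ≠ 0 ∧ z.im • p = z.re • q := by
    by_cases hp : p = 0
    · exact ⟨Complex.I, Complex.I_ne_zero, by simp [hp]⟩
    refine ⟨⟨Quaternion.normSq p, (star p * q).re⟩, fun e => hp ?_, ?_⟩
    · exact Quaternion.normSq_eq_zero.1 (congrArg Complex.re e)
    · have h2 : star (star p * q) = star p * q := by
        rw [star_mul, star_star]
        linear_combination (norm := noncomm_ring) a4
      rw [Quaternion.star_eq_self] at h2
      rw [← Quaternion.mul_coe_eq_smul, ← h2, ← mul_assoc, Quaternion.self_mul_star,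
        Quaternion.coe_mul_eq_smul]
  obtain ⟨z, hz, h1⟩ : ∃ z : ℂ, ‖z‖ = 1 ∧ z.im • p = z.re • q := by
    refine ⟨(‖z‖⁻¹ : ℝ) * z, by simp [hz], ?_⟩
    rw [Complex.re_ofReal_mul, Complex.im_ofReal_mul, mul_smul, mul_smul, h1]
  have h2 : z.re * z.re + z.im * z.im = 1 := by
    rw [← Complex.normSq_apply, Complex.normSq_eq_norm_sq, hz, one_pow]
  obtain ⟨t, ht⟩ : ∃ t, t = z.re • p + z.im • q := ⟨_, rfl⟩
  have h3 : p = z.re • t := by
    linear_combination (norm := module) (-z.re) • ht + z.im • h1 - h2 • p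
  have h4 : q = z.im • t := by
    linear_combination (norm := module) (-z.im) • ht - z.re • h1 - h2 • q
  refine ⟨z, t, hz, ?_, by rw [rq, ← h3, ← h4]⟩
  rw [h3, h4, Quaternion.normSq_smul, Quaternion.normSq_smul] at a5
  linear_combination a5 - Quaternion.normSq t * h2

theorem rq_left_inj {y : ℂ} (h : rq y 1 = 1) : y = 1 := by
  have a1 := congrArg QuaternionAlgebra.re (congrFun (congrFun h 0) 0)
  have a2 := congrArg QuaternionAlgebra.re (congrFun (congrFun h 1) 0)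
  simp [rq] at a1 a2
  exact Complex.ext a1 a2

theorem rq_neg_one : rq (-1) 1 = -1 := by
  ext i j : 1
  fin_cases i <;> fin_cases j <;> simp [rq]

theorem rq_pow {x : GH 2} {y : ℂ} (h : x.val = rq y 1) (k : ℕ) : (x ^ k).val = rq (y ^ k) 1 := by
  induction k with
  | zero => simp [rq_one]
  | succ k ih => rw [pow_succ, Units.val_mul, ih, h, rq_mul, pow_succ, one_mul]

theorem exists_root {W : Subgroup (GH 2)} [Finite W] (hneg : -1 ∉ W) {x : GH 2} (hx : x ∈ W)
    {z : ℂ} (h : x.val = rq (z * z) 1) : ∃ w ∈ W, w.val = rq z 1 ∨ w.val = rq (-z) 1 := by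
  have h1 : IsOfFinOrder (z * z) := by
    obtain ⟨N, hN, e⟩ := (isOfFinOrder_of_finite (⟨x, hx⟩ : W)).exists_pow_eq_one
    refine isOfFinOrder_iff_pow_eq_one.2 ⟨N, hN, rq_left_inj ?_⟩
    rw [← rq_pow h, show x ^ N = 1 from congrArg Subtype.val e, Units.val_one]
  have h2 := pow_orderOf_eq_one (z * z)
  have h3 := h1.orderOf_pos
  obtain ⟨k, hk | hk⟩ := Nat.even_or_odd' (orderOf (z * z))
  · exfalso
    rw [hk, pow_mul', sq, mul_self_eq_one_iff] at h2
    rcases h2 with e | e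
    · exact pow_ne_one_of_lt_orderOf (by omega) (by omega) e
    · have h4 : x ^ k = -1 := Units.ext (by rw [rq_pow h, e, rq_neg_one]; rfl)
      exact hneg (h4 ▸ W.pow_mem hx k)
  · rw [hk, ← sq, ← pow_mul, pow_mul', sq, mul_self_eq_one_iff] at h2
    refine ⟨x ^ (k + 1), W.pow_mem hx _, ?_⟩
    rw [rq_pow h, show (z * z) ^ (k + 1) = z ^ (2 * k + 1) * z by ring]
    rcases h2 with e | e <;> simp [e]

theorem cpx_of_rq {W : Subgroup (GH 2)} [Finite W] (hneg : -1 ∉ W) {s : GH 2} (hs : s ∈ W)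
    (hs' : s.val = sd)
    (hW : ∀ w ∈ W, ∃ (ε : Bool) (z : ℂ) (q : ℍ[ℝ]), ‖z‖ = 1 ∧ Quaternion.normSq q = 1 ∧
      w.val = rq z q * if ε then sd else 1)
    (ql : ∀ L : Set ℍ[ℝ], L.Finite → (∀ l ∈ L, Quaternion.normSq l = 1) → 1 ∈ L →
      (∀ l ∈ L, ∀ m ∈ L, l * m⁻¹ * l ∈ L) → (∀ l ∈ L, -l ∉ L) →
      ∃ u : ℍ[ℝ], u * u = -1 ∧ ∀ l ∈ L, Commute u l) : Cpx W := by
  have hinv : ∀ {w : GH 2} {z : ℂ} {q : ℍ[ℝ]}, ‖z‖ = 1 → Quaternion.normSq q = 1 →
      w.val = rq z q → (w⁻¹).val = rq (conj z) (star q) := fun hz hq h =>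
    Units.inv_eq_of_mul_eq_one_right (by rw [h, rq_inv hz hq])
  have hst : ∀ {q : ℍ[ℝ]}, Quaternion.normSq q = 1 → q⁻¹ = star q := fun hq => by
    rw [Quaternion.inv_def, hq, inv_one, one_smul]
  obtain ⟨u, hu, hc⟩ := ql {q | Quaternion.normSq q = 1 ∧ ∃ w ∈ W, w.val = rq 1 q}
    ((Set.finite_range fun w : W => w.val.val 0 0).subset (by
      rintro q ⟨-, w, hw, h⟩
      exact ⟨⟨w, hw⟩, by simp [h, rq]⟩))
    (fun l h => h.1) ⟨by simp, 1, W.one_mem, rq_one.symm⟩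
    (by
      rintro l ⟨hl, v, hv, h1⟩ m ⟨hm, w, hw, h2⟩
      refine ⟨by simp [hl, hm], v * w⁻¹ * v, W.mul_mem (W.mul_mem hv (W.inv_mem hw)) hv, ?_⟩
      rw [Units.val_mul, Units.val_mul, hinv (by simp) hm h2, h1, rq_mul, rq_mul, hst hm]
      simp)
    (by
      rintro l ⟨hl, v, hv, h1⟩ ⟨-, w, hw, h2⟩
      suffices h3 : w * v⁻¹ = -1 from hneg (h3 ▸ W.mul_mem hw (W.inv_mem hv))
      refine Units.ext ?_
      rw [Units.val_mul, hinv (by simp) hl h1, h2, rq_mul, neg_mul, Quaternion.self_mul_star, hl,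
        ← rq_neg]
      simpa using rq_neg_one)
  have hu1 : Quaternion.normSq u = 1 := by
    have := congrArg Quaternion.normSq hu
    rw [map_mul, Quaternion.normSq_neg, map_one, mul_self_eq_one_iff] at this
    exact this.resolve_right fun e => by linarith [Quaternion.normSq_nonneg (a := u)]
  have key : ∀ w ∈ W, ∀ z q, ‖z‖ = 1 → Quaternion.normSq q = 1 → w.val = rq z q →
      Commute u q := fun w hw z q hz hq h => by
    have h1 : (s * w * s).val = rq (conj z) q := by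
      rw [Units.val_mul, Units.val_mul, hs', h, sd_rq, mul_assoc, sd_sd, mul_one]
    obtain ⟨x, hx, h2⟩ := exists_root hneg
      (W.mul_mem hw (W.inv_mem (W.mul_mem (W.mul_mem hs hw) hs))) (z := z) (by
        rw [Units.val_mul, hinv (by simpa using hz) hq h1, h, rq_mul, Quaternion.self_mul_star, hq]
        simp)
    have h3 : conj z * z = 1 := by
      rw [mul_comm, Complex.mul_conj, Complex.normSq_eq_norm_sq, hz]; simp
    rcases h2 with h2 | h2
    · refine hc q ⟨hq, x⁻¹ * w, W.mul_mem (W.inv_mem hx) hw, ?_⟩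
      rw [Units.val_mul, hinv hz (by simp) h2, h, rq_mul, h3]
      simp
    · refine Commute.neg_right_iff.1 (hc (-q) ⟨by simpa using hq, x⁻¹ * w,
        W.mul_mem (W.inv_mem hx) hw, ?_⟩)
      rw [Units.val_mul, hinv (by simpa using hz) (by simp) h2, h, rq_mul, map_neg, neg_mul, h3,
        rq_neg]
      simp
  refine ⟨rq 1 u, ?_, ?_, fun w hw => ?_⟩
  · have : (rq 1 u)ᴴ = rq 1 (star u) := by
      ext i j : 1
      fin_cases i <;> fin_cases j <;> simp [rq]
    rw [IsU, this, rq_mul, Quaternion.star_mul_self, hu1]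
    simpa using rq_one
  · rw [rq_mul, hu, ← rq_neg, one_mul, rq_neg_one]
  · obtain ⟨ε, z, q, hz, hq, h⟩ := hW w hw
    have h1 : Commute u q := by
      cases ε
      · exact key w hw z q hz hq (by simpa using h)
      · exact key (w * s) (W.mul_mem hw hs) z q hz hq (by
          rw [Units.val_mul, h, hs', if_pos rfl, mul_assoc, sd_sd, mul_one])
    have h2 : (if ε then sd else 1) * rq 1 u = rq 1 u * if ε then sd else 1 := by
      cases ε
      · simp
      · simpa using sd_rq 1 u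
    rw [h, mul_assoc, h2, ← mul_assoc, ← mul_assoc, rq_mul, rq_mul, h1.eq, mul_comm z]

theorem frame_entry {f : Fin n → V n} {g : GH n} (hg : ∀ c, g.val *ᵥ c = vec f c)
    (A : Matrix (Fin n) (Fin n) ℍ[ℝ]) (i j : Fin n) :
    (g.valᴴ * A * g.val) i j = ip (f i) (A *ᵥ f j) := by
  have h1 : ∀ k, f k = g.val *ᵥ Pi.single k 1 := fun k => by
    rw [hg, vec, Finset.sum_eq_single k (fun l _ hl => by simp [hl, rs_zero]) (by simp)]
    simp [rs_one]
  rw [h1 i, h1 j, ip_mulVec_left, Matrix.mulVec_mulVec, Matrix.mulVec_mulVec, ip,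
    Finset.sum_eq_single i (fun l _ hl => by simp [hl]) (by simp)]
  simp

theorem frame_two {b c : V 2} {g : GH 2} (hg : ∀ x, g.val *ᵥ x = vec ![b, c] x)
    (A : Matrix (Fin 2) (Fin 2) ℍ[ℝ]) : g.valᴴ * A * g.val =
      !![ip b (A *ᵥ b), ip b (A *ᵥ c); ip c (A *ᵥ b), ip c (A *ᵥ c)] := by
  ext i j : 1
  rw [frame_entry hg]
  fin_cases i <;> fin_cases j <;> rfl

end G6Aux

open G6Aux

theorem ql (L : Set ℍ[ℝ]) (hf : L.Finite) (hu : ∀ l ∈ L, Quaternion.normSq l = 1) (h1 : 1 ∈ L)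
    (hc : ∀ l ∈ L, ∀ m ∈ L, l * m⁻¹ * l ∈ L) (hn : ∀ l ∈ L, -l ∉ L) :
    ∃ u : ℍ[ℝ], u * u = -1 ∧ ∀ l ∈ L, Commute u l := by
  have hu' : ∀ x ∈ L ∪ -L, Quaternion.normSq x = 1 := by
    rintro x (h | h)
    · exact hu x h
    · simpa using hu _ h
  have hr : ∀ x ∈ L ∪ -L, ∀ y ∈ L, x * y⁻¹ * x ∈ L := by
    rintro x (h | h) y hy
    · exact hc x h y hy
    · simpa using hc _ h y hy
  obtain ⟨a, b, h⟩ := plane (L ∪ -L) (hf.union hf.neg)
    (fun x hx => by rw [Quaternion.inner_self, hu' x hx])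
    (by rintro x (h | h); exacts [Or.inr (by simpa using h), Or.inl h])
    (fun x hx y hy => by
      rw [refl_eq (hu' x hx) (hu' y hy)]
      rcases hy with hy | hy
      · exact Or.inl (hr x hx y hy)
      · exact Or.inr (by simpa using hr x hx _ hy))
    (fun x hx y hy e => by
      have h2 := refl_eq (hu' x hx) (hu' y hy)
      rw [e, mul_zero, zero_smul, zero_sub] at h2
      rcases hy with hy | hy
      · exact hn y hy (h2 ▸ hr x hx y hy)
      · have h3 := hr x hx _ hy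
        rw [inv_neg, mul_neg, neg_mul, ← h2] at h3
        exact hn _ hy h3)
    (Or.inl h1)
  by_cases hl : ∃ l ∈ L, l.im ≠ 0
  · obtain ⟨l, hl, h2⟩ := hl
    obtain ⟨u, h3, h4⟩ := exists_axis l h2
    refine ⟨u, h3, fun m hm => h4 m ?_⟩
    obtain ⟨_, _, e0⟩ := h 1 (Or.inl h1)
    obtain ⟨_, _, e1⟩ := h l (Or.inl hl)
    obtain ⟨_, _, e2⟩ := h m (Or.inl hm)
    exact commute_of_plane e0 e1 e2
  · push Not at hl
    refine ⟨⟨0, 1, 0, 0⟩, by ext <;> simp, fun l h2 => ?_⟩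
    rw [← Quaternion.re_add_im l, hl l h2, add_zero]
    exact (Quaternion.coe_commute _ _).symm

theorem cpx_of_nj {n : ℕ} {W : Subgroup (GH n)} (hW : Std W) (hn : 3 ≤ n) (h : NJ W) : Cpx W := by
  obtain ⟨J, h1, h2, h3⟩ := h
  refine ⟨J, h1, h2, comm_of_refl hW fun r hr a ξ _ h4 => (h3 r hr).resolve_right fun h5 => ?_⟩
  obtain ⟨v, hv, h6⟩ := exists_orth (r := 2) (by omega) ![a, Jᴴ *ᵥ a]
  have h7 : ip a v = 0 := h6 0
  have h8 : ip (Jᴴ *ᵥ a) v = 0 := h6 1
  rw [ip_mulVec_left, Matrix.conjTranspose_conjTranspose] at h8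
  have h9 := anti_vec h5 (v := v) (by rw [h4, reflMat_orth h7])
  rw [h4, reflMat_orth h8] at h9
  have := h1.nq v
  rw [eq_zero_of_neg h9, nq_eq_zero.2 rfl, hv] at this
  exact zero_ne_one this

theorem nj_two {W : Subgroup (GH 2)} (hW : Std W) (h : NJ W) : Cpx W ∨ Bound W := by
  obtain ⟨J, h1, h2, h3⟩ := h
  by_cases hc : ∀ r ∈ W, ∀ a ξ, Rl W a ξ → r.val = reflMat a ξ → r.val * J = J * r.val
  · exact Or.inl ⟨J, h1, h2, comm_of_refl hW hc⟩
  push Not at hc
  obtain ⟨r, hr, a, ξ, -, h4, h5⟩ := hc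
  have h6 := (h3 r hr).resolve_left h5
  obtain ⟨b, hb, h7⟩ := exists_orth (r := 1) (by omega) ![a]
  have h8 : r.val *ᵥ b = b := by rw [h4, reflMat_orth (show ip a b = 0 from h7 0)]
  have h9 := anti_vec h6 h8
  have b1 : ip b (J *ᵥ b) = 0 := by
    have := (hW.uni r hr).ip b (J *ᵥ b)
    rw [h8, h9, ip_neg_right, neg_eq_iff_add_eq_zero, ← two_smul ℝ, smul_eq_zero] at this
    exact this.resolve_left two_ne_zero
  have b2 : ip (J *ᵥ b) b = 0 := ip_eq_zero_comm.1 b1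
  have b3 : ip b b = 1 := by rw [ip_self, hb, Quaternion.coe_one]
  have b4 : ip (J *ᵥ b) (J *ᵥ b) = 1 := by rw [h1.ip, b3]
  have b5 : J *ᵥ (J *ᵥ b) = -b := by
    rw [Matrix.mulVec_mulVec, h2, Matrix.neg_mulVec, Matrix.one_mulVec]
  have hf : ON ![b, J *ᵥ b] := fun i j => by
    fin_cases i <;> fin_cases j
    exacts [b3, b1, b2, b4]
  obtain ⟨g, hg, hg'⟩ := hf.exists_GL
  have hgi : IsU (g⁻¹).val := by
    rw [IsU, hg.inv_val, Matrix.conjTranspose_conjTranspose, hg.mul_star]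
  have c1 : g.valᴴ * J * g.val = rq Complex.I 1 := by
    rw [frame_two hg', b5, ip_neg_right, ip_neg_right, b1, b2, b3, b4]
    simp [rq]
  have c2 : (g⁻¹ * r * g).val = sd := by
    rw [Units.val_mul, Units.val_mul, hg.inv_val, frame_two hg', h8, h9, ip_neg_right,
      ip_neg_right, b1, b2, b3, b4, neg_zero, sd]
  have hW' := hW.cj hgi
  have := hW'.finite
  have hs : g⁻¹ * r * g ∈ cj g⁻¹ W := mem_cj.2 (by simpa [mul_assoc] using hr)
  have hsU : IsU sd := c2 ▸ hW'.uni _ hs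
  have hall : ∀ w ∈ cj g⁻¹ W, ∃ (ε : Bool) (z : ℂ) (q : ℍ[ℝ]), ‖z‖ = 1 ∧
      Quaternion.normSq q = 1 ∧ w.val = rq z q * if ε then sd else 1 := fun w hw => by
    have d1 := h3 _ (mem_cj.1 hw)
    rw [inv_inv, Units.val_mul, Units.val_mul, hg.inv_val] at d1
    have d2 : g.valᴴ * (g.val * w.val * g.valᴴ * J) * g.val = w.val * rq Complex.I 1 := by
      rw [← c1]
      simp only [← mul_assoc]
      rw [show g.valᴴ * g.val = 1 from hg, one_mul]
    have d3 : g.valᴴ * (J * (g.val * w.val * g.valᴴ)) * g.val = rq Complex.I 1 * w.val := by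
      rw [← c1]
      simp only [mul_assoc]
      rw [show g.valᴴ * g.val = 1 from hg, mul_one]
    rcases d1 with d1 | d1
    · rw [d1, d3] at d2
      obtain ⟨z, q, hz, hq, e⟩ := exists_rq (hW'.uni w hw) d2.symm
      exact ⟨false, z, q, hz, hq, by simpa using e⟩
    · rw [d1, mul_neg, neg_mul, d3] at d2
      obtain ⟨z, q, hz, hq, e⟩ := exists_rq ((hW'.uni w hw).mul hsU) (by
        have d4 : rq (-Complex.I) 1 = -rq Complex.I 1 := by
          ext i j : 1
          fin_cases i <;> fin_cases j <;> simp [rq]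
        rw [mul_assoc, sd_rq, Complex.conj_I, d4, ← mul_assoc, ← mul_assoc, mul_neg, ← d2,
          neg_neg])
      exact ⟨true, z, q, hz, hq, by rw [← e, if_pos rfl, mul_assoc, sd_sd, mul_one]⟩
  by_cases hneg : -1 ∈ cj g⁻¹ W
  · exact Or.inr ((bound_cj g⁻¹ W).1 (bound_rot _ hs c2 hneg hall))
  · exact Or.inl (Cpx.of_cj hgi (cpx_of_rq hneg hs c2 hall ql))

end Pool.Agent.P.MP_97ea17_al.Geo
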