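import Pool.Agent.P.MP_97ea17_al.F.G7a

/-! Normal form of monomial groups. -/

namespace Pool.Agent.P.MP_97ea17_al.Geo.G7Aux

open scoped Quaternion Matrix

attribute [-simp] Matrix.coe_units_inv

variable {n : ℕ} {W : Subgroup (GH n)}

theorem tau_trans {i j k : Fin n} (hij : i ≠ j) (hjk : j ≠ k) (hik : i ≠ k) {l m : UQ}
    (h1 : tau i j l ∈ W) (h2 : tau j k m ∈ W) : tau i k (l * m) ∈ W := by
  have := conj_tau (Equiv.swap i j) (Pi.mulSingle i l * Pi.mulSingle j l⁻¹) hik m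
  rw [Equiv.swap_apply_left, Equiv.swap_apply_of_ne_of_ne hik.symm hjk.symm] at this
  have h3 := W.mul_mem (W.mul_mem h1 h2) (W.inv_mem h1)
  rw [tau, this] at h3
  simpa [hij, hik.symm, hjk.symm] using h3

theorem mono_ind (hW : Std W) (hm : IsM W) (P : GH n → Prop) (h1 : P 1)
    (h2 : ∀ i h, mu 1 (Pi.mulSingle i h) ∈ W → ∀ w, P w → P (mu 1 (Pi.mulSingle i h) * w))
    (h3 : ∀ i j l, i ≠ j → tau i j l ∈ W → ∀ w, P w → P (tau i j l * w)) : ∀ w ∈ W, P w := by
  refine hW.induction P h1 fun r hr a ξ h h' w _ hw => ?_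
  have h4 : IsRefl r := (hW.refl_iff hr).2 ⟨a, ξ, h.1, h.2.1, h.2.2.1, h'⟩
  obtain ⟨π, b, rfl⟩ := hm r hr
  rcases refl_shape h4 with ⟨i, x, -, e⟩ | ⟨i, j, l, hij, e⟩
  · rw [e] at hr ⊢
    exact h2 i x hr w hw
  · rw [e] at hr ⊢
    exact h3 i j l hij.ne hr w hw

theorem conn (hW : Std W) (hm : IsM W) {i j : Fin n} (hij : i ≠ j) : ∃ l, tau i j l ∈ W := by
  let E : Fin n → Prop := fun k => i = k ∨ ∃ l, tau i k l ∈ W
  have hE : ∀ p q l, p ≠ q → tau p q l ∈ W → E p → E q := by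
    intro p q l hpq h hp
    by_cases e : i = q
    · exact Or.inl e
    by_cases e' : i = p
    · exact Or.inr ⟨l, e' ▸ h⟩
    · obtain ⟨m, hm⟩ := hp.resolve_left e'
      exact Or.inr ⟨_, tau_trans e' hpq e hm h⟩
  have hS := hW.irred (fun v => ∀ k, ¬E k → v k = 0) (fun _ _ => rfl)
    (fun u v hu hv k hk => by simp [hu k hk, hv k hk]) (fun v q hv k hk => by simp [rs, hv k hk])
    (mono_ind hW hm _ (fun v hv => by simpa using hv)
      (fun p h _ w hw v hv k hk => by
        rw [Units.val_mul, ← Matrix.mulVec_mulVec, mu_val, mq_mulVec, Equiv.Perm.one_apply,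
          hw v hv k hk, mul_zero])
      fun p q l hpq h w hw v hv k hk => by
        rw [Units.val_mul, ← Matrix.mulVec_mulVec, tau, mu_val, mq_mulVec, hw v hv _ ?_, mul_zero]
        intro h'
        apply hk
        by_cases e : k = p
        · subst e
          rw [Equiv.swap_apply_left] at h'
          exact hE q k l⁻¹ hpq.symm (by rwa [tau_symm k q hpq]) h'
        by_cases e' : k = q
        · subst e'
          rw [Equiv.swap_apply_right] at h'
          exact hE p k l hpq h h'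
        · rwa [Equiv.swap_apply_of_ne_of_ne e e'] at h')
  rcases hS with h | h
  · have := congrFun (h (Pi.single i 1) fun k hk =>
      Pi.single_eq_of_ne (fun e => hk (Or.inl e.symm)) _) i
    simp at this
  · by_contra h'
    have := h (Pi.single j 1) j fun e => h' (e.resolve_left hij)
    simp at this

theorem diag_form {m : ℕ} {W : Subgroup (GH (m + 1))} (hW : Std W) (hm : IsM W) :
    ∃ g : GH (m + 1), IsU g.val ∧ IsM (cj g W) ∧ ∀ π, mu π 1 ∈ cj g W := by
  have h1 : ∀ j, ∃ l : UQ, (j = 0 → l = 1) ∧ (0 ≠ j → tau 0 j l ∈ W) := fun j => by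
    by_cases e : 0 = j
    · exact ⟨1, fun _ => rfl, fun h => absurd e h⟩
    · obtain ⟨l, hl⟩ := conn hW hm e
      exact ⟨l, fun h => absurd h.symm e, fun _ => hl⟩
  choose l hl0 hl using h1
  have h2 : ∀ w ∈ W, mu 1 l * w * (mu 1 l)⁻¹ ∈ cj (mu 1 l) W := fun w hw =>
    mem_cj.2 (by simpa [mul_assoc] using hw)
  refine ⟨mu 1 l, mq_isU _ _, fun w hw => ?_, fun π => ?_⟩
  · obtain ⟨π, a, h⟩ := hm _ (mem_cj.1 hw)
    have : w = mu 1 l * mu π a * (mu 1 l)⁻¹ := by rw [← h]; group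
    rw [this, mu_inv, mu_mul, mu_mul]
    exact ⟨_, _, rfl⟩
  have h3 : ∀ j, 0 ≠ j → tau 0 j 1 ∈ cj (mu 1 l) W := fun j hj => by
    have := h2 _ (hl j hj)
    have h4 := conj_tau 1 l hj (l j)
    rw [Equiv.Perm.one_apply, Equiv.Perm.one_apply] at h4
    rw [h4, hl0 0 rfl] at this
    simpa using this
  have h4 : ∀ i j, i ≠ j → tau i j 1 ∈ cj (mu 1 l) W := fun i j hij => by
    by_cases e : 0 = i
    · exact e ▸ h3 j (e ▸ hij)
    have h5 : ∀ k, 0 ≠ k → tau k 0 1 ∈ cj (mu 1 l) W := fun k hk => by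
      have := tau_symm 0 k hk 1
      rw [inv_one] at this
      exact this ▸ h3 k hk
    by_cases e' : 0 = j
    · exact e' ▸ h5 i e
    · simpa using tau_trans (Ne.symm e) e' hij (h5 i e) (h3 j e')
  induction π using Equiv.Perm.swap_induction_on with
  | one => rw [mu_one]; exact one_mem _
  | swap_mul π i j hij ih =>
    have := mul_mem ih (h4 i j hij)
    rw [tau, mu_mul] at this
    simpa using this

/-- The diagonal subgroup. -/
noncomputable def dg (W : Subgroup (GH n)) : Subgroup (Fin n → UQ) where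
  carrier := {a | mu 1 a ∈ W}
  mul_mem' {a b} ha hb := by
    have := W.mul_mem ha hb
    rw [mu_mul] at this
    simpa using this
  one_mem' := by
    change mu 1 1 ∈ W
    rw [mu_one]
    exact one_mem _
  inv_mem' {a} ha := by
    have := W.inv_mem ha
    rw [mu_inv] at this
    simpa using this

theorem mem_dg (hp : ∀ π, mu π 1 ∈ W) (π : Equiv.Perm (Fin n)) (a : Fin n → UQ) :
    mu π a ∈ W ↔ a ∈ dg W := by
  have : mu π a = mu 1 a * mu π 1 := by rw [mu_mul]; simp
  rw [this, W.mul_mem_cancel_right (hp π)]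
  rfl

theorem dg_comp (hp : ∀ π, mu π 1 ∈ W) (π : Equiv.Perm (Fin n)) {a : Fin n → UQ}
    (ha : a ∈ dg W) : a ∘ π ∈ dg W := by
  have := W.mul_mem (hp π) ha
  rw [mu_mul, one_mul, one_mul] at this
  exact (mem_dg hp π _).1 this

instance [Finite W] : Finite (dg W) :=
  Finite.of_injective (fun a : dg W => (⟨mu 1 a.1, a.2⟩ : W)) fun _ _ e =>
    Subtype.ext (mu_inj (congrArg Subtype.val e))

theorem pair_dg (hp : ∀ π, mu π 1 ∈ W) {i j k l : Fin n} (hij : i ≠ j)
    (hkl : k ≠ l) {x y : UQ} (h : Pi.mulSingle i x * Pi.mulSingle j y ∈ dg W) :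
    Pi.mulSingle k x * Pi.mulSingle l y ∈ dg W := by
  obtain ⟨π, h1, h2⟩ : ∃ π : Equiv.Perm (Fin n), π k = i ∧ π l = j := by
    refine ⟨Equiv.swap j (Equiv.swap i k l) * Equiv.swap i k, ?_, by simp⟩
    rw [Equiv.Perm.mul_apply, Equiv.swap_apply_right, Equiv.swap_apply_of_ne_of_ne hij]
    intro e
    exact hkl (by simpa using congrArg (Equiv.swap i k) e)
  convert dg_comp hp π h using 1
  ext1 m
  simp only [Function.comp_apply, Pi.mul_apply, Pi.mulSingle_apply, ← h1, ← h2,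
    EmbeddingLike.apply_eq_iff_eq]

theorem single_dg (hp : ∀ π, mu π 1 ∈ W) {i : Fin n} (j : Fin n) {x : UQ}
    (h : Pi.mulSingle i x ∈ dg W) : Pi.mulSingle j x ∈ dg W := by
  convert dg_comp hp (Equiv.swap i j) h using 1
  ext1 k
  simp only [Function.comp_apply, Pi.mulSingle_apply, Equiv.swap_apply_eq_iff,
    Equiv.swap_apply_left]

end Pool.Agent.P.MP_97ea17_al.Geo.G7Aux
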