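import Pool.Agent.P.MP_97ea17_al.F.M2b

/-! Uniqueness of the semi-invariant for monomial groups. -/

namespace Pool.Agent.P.MP_97ea17_al.Mo.M2Aux

open MvPolynomial
open scoped Matrix

variable {n : ℕ}

/-- Fix one block. -/
noncomputable def fixN (i : Fin n) (u : Fin 2 → ℂ) : PN n →ₐ[ℂ] PN n :=
  aeval fun p => if p.1 = i then C (u p.2) else X p

theorem eval_fixN (i : Fin n) (u : Fin 2 → ℂ) (y : Fin n × Fin 2 → ℂ) (f : PN n) :
    eval y (fixN i u f) = eval (upd i y u) f := by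
  induction f using MvPolynomial.induction_on with
  | C a => simp [fixN]
  | add p q hp hq => simp [hp, hq]
  | mul_X p j hp =>
    rw [map_mul, map_mul, map_mul, hp]
    congr 1
    simp only [fixN, aeval_X, eval_X, upd]
    split_ifs <;> simp

theorem uniq_of {f v q : PN n} (hv : v ≠ 0) (hq : q ≠ 0) (i : Fin n)
    (h : ∀ y, eval y q ≠ 0 → ∃ c : ℂ, resN i y f = c • resN i y v)
    (hs : ∀ π, ∃ χ : ℂ, χ ≠ 0 ∧ sub (monN π 1) v = χ • v ∧ sub (monN π 1) f = χ • f) :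
    ∃ c : ℂ, c • v = f := by
  have h1 : ∀ x u, eval x f * eval (upd i x u) v = eval (upd i x u) f * eval x v := by
    intro x u
    have : f * fixN i u v - fixN i u f * v = 0 := dense_zero hq fun y hy => by
      obtain ⟨c, hc⟩ := h y hy
      have a1 := congrArg (eval u) hc
      have a2 := congrArg (eval (blN i y)) hc
      rw [smul_eval, eval_resN, eval_resN] at a1 a2
      rw [upd_bl] at a2
      rw [map_sub, map_mul, map_mul, eval_fixN, eval_fixN, a1, a2]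
      ring
    have a3 := congrArg (eval x) this
    rwa [map_sub, map_mul, map_mul, eval_fixN, eval_fixN, map_zero, sub_eq_zero] at a3
  refine prop_of_blocks hv fun j x u => ?_
  obtain ⟨χ, h0, a1, a2⟩ := hs (Equiv.swap i j)
  have b1 : ∀ y, eval (monN (Equiv.swap i j) 1 *ᵥ y) v = χ * eval y v := fun y => by
    rw [← eval_sub', a1, smul_eval]
  have b2 : ∀ y, eval (monN (Equiv.swap i j) 1 *ᵥ y) f = χ * eval y f := fun y => by
    rw [← eval_sub', a2, smul_eval]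
  have b3 : upd i (monN (Equiv.swap i j) 1 *ᵥ x) u = monN (Equiv.swap i j) 1 *ᵥ upd j x u :=
    blN_ext fun k => by
      rw [monN_mulVec, bl_upd, bl_upd, monN_mulVec]
      by_cases e : k = i
      · simp [e]
      · have : Equiv.swap i j k ≠ j := fun e' => e (by
          simpa using congrArg (Equiv.swap i j) e')
        rw [if_neg e, if_neg this]
  have b4 := h1 (monN (Equiv.swap i j) 1 *ᵥ x) u
  rw [b3, b1, b1, b2, b2] at b4
  refine mul_left_cancel₀ (mul_ne_zero h0 h0) ?_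
  linear_combination b4

theorem single_mem {D : Subgroup (Fin n → SL2)}
    (hsw : ∀ π : Equiv.Perm (Fin n), ∀ a ∈ D, a ∘ π ∈ D) {i : Fin n} (j : Fin n) {x : SL2}
    (h : Pi.mulSingle i x ∈ D) : Pi.mulSingle j x ∈ D := by
  convert hsw (Equiv.swap i j) _ h using 1
  ext1 k
  simp only [Function.comp_apply, Pi.mulSingle_apply, Equiv.swap_apply_eq_iff,
    Equiv.swap_apply_left]

theorem pair_mem {D : Subgroup (Fin n → SL2)}
    (hsw : ∀ π : Equiv.Perm (Fin n), ∀ a ∈ D, a ∘ π ∈ D) {i j k l : Fin n} (hij : i ≠ j)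
    (hkl : k ≠ l) {x : SL2} (h : Pi.mulSingle i x * Pi.mulSingle j x⁻¹ ∈ D) :
    Pi.mulSingle k x * Pi.mulSingle l x⁻¹ ∈ D := by
  obtain ⟨π, h1, h2⟩ : ∃ π : Equiv.Perm (Fin n), π k = i ∧ π l = j := by
    refine ⟨Equiv.swap j (Equiv.swap i k l) * Equiv.swap i k, ?_, by simp⟩
    rw [Equiv.Perm.mul_apply, Equiv.swap_apply_right, Equiv.swap_apply_of_ne_of_ne hij]
    intro e
    exact hkl (by simpa using congrArg (Equiv.swap i k) e)
  convert hsw π _ h using 1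
  ext1 m
  simp only [Function.comp_apply, Pi.mul_apply, Pi.mulSingle_apply, ← h1, ← h2,
    EmbeddingLike.apply_eq_iff_eq]

theorem J_semi {D : Subgroup (Fin n → SL2)} (i : Fin n) {J : P2} {k : ℕ} (hJ0 : J ≠ 0)
    (hJh : J.IsHomogeneous k) (hJi : ∀ h, Pi.mulSingle i h ∈ D → sub (h : SL2).1 J = J)
    (hJu : ∀ g : P2, g.IsHomogeneous k → (∀ h, Pi.mulSingle i h ∈ D → sub (h : SL2).1 g = g) →
      ∃ c : ℂ, c • J = g) {a : Fin n → SL2} (ha : a ∈ D) :
    ∃ χ : ℂ, χ ≠ 0 ∧ sub (a i).1 J = χ • J := by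
  obtain ⟨χ, hχ⟩ := hJu _ (sub_hom (a i).1 hJh) fun h hh => by
    have : Pi.mulSingle i (a i * h * (a i)⁻¹) ∈ D := by
      convert D.mul_mem (D.mul_mem ha hh) (D.inv_mem ha) using 1
      ext1 j
      by_cases e : j = i
      · simp [e]
      · simp [e]
    conv_rhs => rw [← hJi _ this]
    rw [← sub_mul, ← sub_mul, ← Matrix.SpecialLinearGroup.coe_mul,
      ← Matrix.SpecialLinearGroup.coe_mul, inv_mul_cancel_right]
  refine ⟨χ, ?_, hχ.symm⟩
  rintro rfl
  apply hJ0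
  rw [← sub_one J, ← Matrix.SpecialLinearGroup.coe_one, ← mul_inv_cancel (a i),
    Matrix.SpecialLinearGroup.coe_mul, sub_mul, ← hχ, zero_smul, map_zero]

theorem exists_L (D : Subgroup (Fin n → SL2)) [Finite D]
    (hsw : ∀ π : Equiv.Perm (Fin n), ∀ a ∈ D, a ∘ π ∈ D)
    (hneg : ∀ i j, i ≠ j → Pi.mulSingle i (-1) * Pi.mulSingle j (-1) ∈ D) :
    ∃ L : Finset SL2,
      (∀ i j, i ≠ j → ∀ x, x ∈ L ↔ Pi.mulSingle i x * Pi.mulSingle j x⁻¹ ∈ D) ∧
      (∀ l ∈ L, -l ∈ L) ∧ (∀ l ∈ L, l⁻¹ ∈ L) ∧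
      ∀ a ∈ D, ∀ i j, i ≠ j → ∀ x ∈ L, (a i)⁻¹ * x * a j ∈ L := by
  classical
  by_cases hn : ∃ i j : Fin n, i ≠ j
  swap
  · exact ⟨∅, fun i j h => absurd ⟨i, j, h⟩ hn, by simp, by simp, by simp⟩
  obtain ⟨i, j, hij⟩ := hn
  have hLf : Finite {x : SL2 // Pi.mulSingle i x * Pi.mulSingle j x⁻¹ ∈ D} :=
    Finite.of_injective (fun l => (⟨_, l.2⟩ : D)) fun a b e =>
      Subtype.ext (by simpa [hij] using congrFun (congrArg Subtype.val e) i)
  obtain ⟨L, hL⟩ : ∃ L : Finset SL2, ∀ x, x ∈ L ↔ Pi.mulSingle i x * Pi.mulSingle j x⁻¹ ∈ D :=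
    ⟨(show Set.Finite {x : SL2 | Pi.mulSingle i x * Pi.mulSingle j x⁻¹ ∈ D} from hLf).toFinset,
      by simp⟩
  have hL' : ∀ k l, k ≠ l → ∀ x, x ∈ L ↔ Pi.mulSingle k x * Pi.mulSingle l x⁻¹ ∈ D :=
    fun k l hkl x => (hL x).trans ⟨pair_mem hsw hij hkl, pair_mem hsw hkl hij⟩
  refine ⟨L, hL', fun l hl => ?_, fun l hl => ?_, fun a ha k l hkl x hx => ?_⟩
  · rw [hL]
    convert D.mul_mem ((hL l).1 hl) (hneg i j hij) using 1
    ext1 k
    by_cases e : k = i
    · simp [e, hij]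
    by_cases e' : k = j
    · simp [e', hij.symm]
    · simp [e, e']
  · rw [hL]
    convert D.inv_mem ((hL l).1 hl) using 1
    ext1 k
    by_cases e : k = i
    · simp [e, hij]
    by_cases e' : k = j
    · simp [e', hij.symm]
    · simp [e, e']
  · rw [hL' k l hkl]
    convert D.mul_mem (D.mul_mem (D.inv_mem ha) ((hL' k l hkl x).1 hx))
      (hsw (Equiv.swap k l) a ha) using 1
    ext1 m
    by_cases e : m = k
    · simp [e, hkl]
    by_cases e' : m = l
    · simp [e', hkl.symm, mul_assoc]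
    · simp [e, e', Equiv.swap_apply_of_ne_of_ne]

theorem decomp {m : ℕ} (S : Finset SL2) {J : P2} (hJ0 : J ≠ 0) :
    ∃ R : PN (m + 1), R ≠ 0 ∧ (∀ y u, eval (upd 0 y u) R = eval y R) ∧
      Phi (m + 1) S * ∏ i, onN i J =
        (∏ p ∈ Finset.Ioi 0 ×ˢ S, omN 0 p.1 1 p.2) * (onN 0 J * R) := by
  refine ⟨(∏ i ∈ Finset.univ.erase 0, ∏ j ∈ Finset.Ioi i, ∏ x ∈ S, omN i j 1 x) *
    ∏ i ∈ Finset.univ.erase 0, onN i J, mul_ne_zero ?_ ?_, fun y u => ?_, ?_⟩
  · exact Finset.prod_ne_zero_iff.2 fun _ _ => Finset.prod_ne_zero_iff.2 fun _ hj =>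
      Finset.prod_ne_zero_iff.2 fun _ _ => omN_ne fun e => absurd e (Finset.mem_Ioi.1 hj).ne
  · exact Finset.prod_ne_zero_iff.2 fun _ _ => onN_ne _ hJ0
  · simp only [map_mul, map_prod, eval_omN, eval_onN]
    congr 1
    · refine Finset.prod_congr rfl fun i hi => Finset.prod_congr rfl fun j hj => ?_
      rw [bl_upd_ne (Finset.mem_erase.1 hi).1, bl_upd_ne (Finset.mem_Ioi.1 hj).ne_zero]
    · refine Finset.prod_congr rfl fun i hi => ?_
      rw [bl_upd_ne (Finset.mem_erase.1 hi).1]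
  · rw [Phi, ← Finset.mul_prod_erase _ _ (Finset.mem_univ 0),
      ← Finset.mul_prod_erase _ (fun i => onN i J) (Finset.mem_univ 0), Finset.prod_product]
    ring

end Pool.Agent.P.MP_97ea17_al.Mo.M2Aux
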