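import Pool.Agent.P.MP_97ea17_al.F.M1
import Pool.Agent.P.MP_97ea17_al.F.M2c

/-! The bound for monomial groups, in abstract form. -/

namespace Pool.Agent.P.MP_97ea17_al.Mo

open MvPolynomial
open scoped Matrix

open M2Aux in
theorem caseM {n : ℕ} {G : Type} [Group G] [Finite G]
    (c : G →* Matrix (Fin n × Fin 2) (Fin n × Fin 2) ℂ) (D : Subgroup (Fin n → SL2)) [Finite D]
    (hsw : ∀ π : Equiv.Perm (Fin n), ∀ a ∈ D, a ∘ π ∈ D)
    (hneg : ∀ i j, i ≠ j → Pi.mulSingle i (-1) * Pi.mulSingle j (-1) ∈ D)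
    (h1 : ∀ g, ∃ π, ∃ a ∈ D, c g = monN π a) (h2 : ∀ π, ∀ a ∈ D, ∃ g, c g = monN π a)
    (h l : ℕ) (hh : ∀ i, Nat.card {x // Pi.mulSingle i x ∈ D} = h)
    (hl : ∀ i j, i ≠ j → Nat.card {x // Pi.mulSingle i x * Pi.mulSingle j x⁻¹ ∈ D} = l) :
    (2 * h - 1 + (n - 1) * l) ^ n ≤ Module.finrank ℂ (PN n ⧸ invI c) := by
  classical
  rcases n with _ | m
  · rw [pow_zero]
    exact one_le_finrank c
  let H : Subgroup SL2 := D.comap (MonoidHom.mulSingle (fun _ => SL2) 0)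
  have hHf : Finite H := Finite.of_injective (fun h : H => (⟨_, h.2⟩ : D)) fun a b e =>
    Subtype.ext (Pi.mulSingle_injective (M := fun _ => SL2) 0 (congrArg Subtype.val e))
  obtain ⟨k, b, J, hJ0, hJh, hJi, hJu, hk, hJz⟩ := rank_one H
  replace hk : k + 2 = h + if b then 1 else 0 := by rw [← hh 0]; exact hk
  have hJs : ∀ a ∈ D, ∀ i, ∃ χ : ℂ, χ ≠ 0 ∧ sub (a i).1 J = χ • J := fun a ha i => by
    have := J_semi 0 hJ0 hJh hJi hJu (hsw (Equiv.swap 0 i) a ha)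
    rwa [Function.comp_apply, Equiv.swap_apply_left] at this
  obtain ⟨L, hL, hLn, hLi, hLa⟩ := exists_L D hsw hneg
  obtain ⟨S, hS1, hS2, hS3⟩ := exists_half L hLn
  have hLS : L.card ≤ S.card + S.card := by
    refine (Finset.card_le_card (show L ⊆ S ∪ S.image Neg.neg from fun l hl => ?_)).trans
      ((Finset.card_union_le _ _).trans (Nat.add_le_add_left Finset.card_image_le _))
    rcases hS2 l hl with h | h
    · exact Finset.mem_union_left _ h
    · exact Finset.mem_union_right _ (Finset.mem_image.2 ⟨_, h, neg_neg l⟩)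
  have hml : m * l ≤ m * S.card + m * S.card := by
    rcases m with _ | m
    · simp
    · have := hl 0 1 Fin.zero_ne_one
      rw [Nat.subtype_card L (hL 0 1 Fin.zero_ne_one)] at this
      rw [← mul_add, ← this]
      exact Nat.mul_le_mul_left _ hLS
  rw [Nat.add_sub_cancel]
  by_cases hsm : m * S.card + k < if b then 1 else 0
  · refine le_trans ?_ (one_le_finrank c)
    refine (Nat.pow_le_pow_left (show _ ≤ 1 from ?_) _).trans (one_pow _).le
    split_ifs at hsm hk <;> omega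
  obtain ⟨e, he⟩ : ∃ e, e + (if b then 1 else 0) = m * S.card + k :=
    ⟨m * S.card + k - if b then 1 else 0, by omega⟩
  refine (Nat.pow_le_pow_left (show _ ≤ 2 * e + 3 by split_ifs at he hk <;> omega) _).trans ?_
  set v : PN (m + 1) := Phi (m + 1) S * ∏ i, onN i J with hv
  have hv0 : v ≠ 0 := mul_ne_zero (Phi_ne S) (Finset.prod_ne_zero_iff.2 fun _ _ => onN_ne _ hJ0)
  have hcast : ∀ t : Bool, ((e : ℂ) + if t then 1 else 0) = ((e + if t then 1 else 0 : ℕ) : ℂ) :=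
    fun t => by cases t <;> simp
  have hve : ∀ i, euN i v = ((e + if b then 1 else 0 : ℕ) : ℂ) • v := fun i => by
    rw [hv, der_mul (euN_Phi S i) (der_prod _ fun j _ => euN_onN i j hJh), he]
    simp
  have hs : ∀ π, ∀ a ∈ D, ∃ χ : ℂ, χ ≠ 0 ∧ sub (monN π a) v = χ • v := by
    intro π a ha
    obtain ⟨χ, a1, a2⟩ := semiPhi hS1 hS2 hS3 hLn hLi π a (hLa a ha)
    choose χ' a3 a4 using hJs a ha
    refine ⟨χ * ∏ i, χ' i, mul_ne_zero a1 (Finset.prod_ne_zero_iff.2 fun i _ => a3 i), ?_⟩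
    rw [hv, map_mul, a2, map_prod]
    simp only [sub_onN, a4, map_smul, Finset.prod_smul, Equiv.prod_comp π fun i => onN i J]
    rw [smul_mul_smul_comm]
  have hs' := hs
  let ι := {q : G × Equiv.Perm (Fin (m + 1)) × (Fin (m + 1) → SL2) //
    q.2.2 ∈ D ∧ c q.1 = monN q.2.1 q.2.2}
  choose! ψ hψ0 hψ using hs'
  refine modM c (fun q : ι => q.1.1) (fun g => ?_) (fun q => q.1.2.1) (fun q => q.1.2.2)
    (fun q => q.2.2) e b hv0 (fun i => by rw [hcast, hve]) (fun q => ψ q.1.2.1 q.1.2.2)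
    (fun q => hψ0 _ _ q.2.1) (fun q => hψ _ _ q.2.1) fun t f hf hq => ?_
  · obtain ⟨π, a, h⟩ := h1 g
    exact ⟨⟨⟨g, π, a⟩, h⟩, rfl⟩
  have hfs : ∀ π : Equiv.Perm (Fin (m + 1)), t ∘ π = t → ∀ a ∈ D, ∀ χ : ℂ,
      sub (monN π a) v = χ • v → sub (monN π a) f = χ • f := by
    intro π hπ a ha χ h
    obtain ⟨g, hg⟩ := h2 π a ha
    rw [hq ⟨⟨g, π, a⟩, ha, hg⟩ hπ, smul_left_injective ℂ hv0 ((hψ π a ha).symm.trans h)]
  simp only [hcast] at hf
  by_cases hc : ∃ i j, t i ≠ t j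
  · obtain ⟨i, j, hij⟩ := hc
    rw [if_neg fun e => hij (by rw [e])]
    have a1 := hfs 1 rfl _ (hneg i j fun e => hij (by rw [e])) _ (sub_neg_pair (hve i) (hve j))
    rw [sub_neg_pair (hf i) (hf j), Even.neg_one_pow (Even.add_self _),
      Odd.neg_one_pow (by
        revert hij
        cases t i <;> cases t j <;> simp [Nat.odd_iff]), neg_one_smul, one_smul,
      neg_eq_iff_add_eq_zero, ← two_smul ℂ, smul_eq_zero] at a1
    exact a1.resolve_left two_ne_zero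
  push Not at hc
  obtain ⟨b', rfl⟩ : ∃ b', t = fun _ => b' := ⟨t 0, funext fun i => hc i 0⟩
  obtain ⟨R, hR0, hR, hdec⟩ := decomp (m := m) S hJ0
  obtain ⟨q, hq0, hkey⟩ := key D 0 (Finset.Ioi 0 ×ˢ S)
    (fun p hp => (Finset.mem_Ioi.1 (Finset.mem_product.1 hp).1).ne')
    (fun p hp p' hp' a1 a2 => ⟨fun e => a1 (Prod.ext a2.symm e), fun e =>
      hS3 _ (Finset.mem_product.1 hp).2 (e ▸ (Finset.mem_product.1 hp').2)⟩)
    (fun p hp => (hL 0 p.1 (Finset.mem_Ioi.1 (Finset.mem_product.1 hp).1).ne p.2).1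
      (hS1 (Finset.mem_product.1 hp).2))
    hJ0 hJi hR0 hR (hv.trans hdec) hs (hf 0) fun π => hfs π rfl
  have hI : (Finset.Ioi (0 : Fin (m + 1)) ×ˢ S).card = m * S.card := by simp
  rw [hI] at hkey
  by_cases hb : b' = b
  · subst hb
    rw [if_pos rfl]
    refine Submodule.mem_span_singleton.2 (uniq_of hv0 hq0 0 (fun y hy => ?_) fun π => ?_)
    · obtain ⟨g, Θ, κ, a1, a2, a3, a4, a5⟩ := hkey y hy
      obtain ⟨c, hc⟩ := hJu g (hom_of_eu (by rw [a2, he]; simp)) a3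
      exact ⟨c * κ⁻¹, by
        rw [a4, smul_smul, mul_assoc, inv_mul_cancel₀ a1, mul_one, a5, ← hc, mul_smul_comm]⟩
    · obtain ⟨χ, a1, a2⟩ := hs π 1 D.one_mem
      exact ⟨χ, a1, a2, hfs π rfl 1 D.one_mem χ a2⟩
  · rw [if_neg fun e => hb (congrFun e 0)]
    refine dense_zero hq0 fun y hy => ?_
    obtain ⟨g, Θ, κ, a1, a2, a3, a4, a5⟩ := hkey y hy
    have a6 : g = 0 := by
      by_contra a6
      obtain ⟨d, a7, a8⟩ := exists_hom a2 a6
      refine a6 (hJz g d a8 a3 ?_)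
      have a9 : e + (if b' then 1 else 0) = d + m * S.card := by
        exact_mod_cast sub_eq_iff_eq_add.1 a7
      revert hb he a9
      cases b <;> cases b' <;> simp <;> omega
    rw [← upd_bl 0 y, ← eval_resN, a5, a6]
    simp

end Pool.Agent.P.MP_97ea17_al.Mo
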