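import Pool.Agent.P.MP_97ea17_al.F.G6
import Pool.Agent.P.MP_97ea17_al.F.M2
import Pool.Agent.P.MP_97ea17_al.F.G7b

/-! Monomial groups. -/

namespace Pool.Agent.P.MP_97ea17_al.Geo

open scoped Quaternion Matrix

namespace G7Aux

attribute [-simp] Matrix.coe_units_inv

variable {n : ℕ} {W : Subgroup (GH n)}

theorem cpx_case (hW : Std W) (hm : IsM W) (hp : ∀ π, mu π 1 ∈ W) {i j : Fin n} (hij : i ≠ j)
    (hn : Pi.mulSingle i (-1) * Pi.mulSingle j (-1) ∉ dg W) : Cpx W := by
  have := hW.finite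
  let L' : Set UQ := {l | Pi.mulSingle i l * Pi.mulSingle j l⁻¹ ∈ dg W}
  have hf : L'.Finite := Finite.of_injective (fun l : L' => (⟨_, l.2⟩ : dg W)) fun a b e =>
    Subtype.ext (by simpa [hij] using congrFun (congrArg Subtype.val e) i)
  obtain ⟨u, hu, hc⟩ := ql (Subtype.val '' L') (hf.image _)
    (by rintro _ ⟨l, -, rfl⟩; exact normSq_U l) ⟨1, by simp [L'], rfl⟩
    (by
      rintro _ ⟨l, hl, rfl⟩ _ ⟨m, hm, rfl⟩
      refine ⟨l * m⁻¹ * l, ?_, by simp [Unitary.coe_inv]⟩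
      change _ ∈ dg W
      convert (dg W).mul_mem ((dg W).mul_mem hl ((dg W).inv_mem hm)) hl using 1
      ext1 k
      by_cases e : k = i
      · simp [e, hij]
      by_cases e' : k = j
      · simp [e', hij.symm, mul_assoc]
      · simp [e, e'])
    (by
      rintro _ ⟨l, hl, rfl⟩ ⟨m, hm, e⟩
      obtain rfl : m = -l := Subtype.ext e
      apply hn
      convert (dg W).mul_mem hl ((dg W).inv_mem hm) using 1
      ext1 k
      by_cases e : k = i
      · simp [e, hij]
      by_cases e' : k = j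
      · simp [e', hij.symm]
      · simp [e, e'])
  have hu1 : Quaternion.normSq u = 1 := by
    have h1 := congrArg Quaternion.normSq hu
    rw [map_mul, Quaternion.normSq_neg, map_one] at h1
    have h2 : 0 ≤ Quaternion.normSq u := Quaternion.normSq_nonneg
    nlinarith
  let U : UQ := ⟨u, mem_U hu1⟩
  have hL : ∀ l ∈ L', l * U = U * l := fun l hl => Subtype.ext (hc _ ⟨l, hl, rfl⟩).eq.symm
  have key : ∀ π a (w : GH n), (∀ k, a k * U = U * a k) →
      w.val * mq 1 (fun _ => U) = mq 1 (fun _ => U) * w.val →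
      (mu π a * w).val * mq 1 (fun _ => U) = mq 1 (fun _ => U) * (mu π a * w).val := by
    intro π a w h1 h2
    rw [Units.val_mul, mul_assoc, h2, ← mul_assoc, ← mul_assoc, mu_val, mq_mul, mq_mul, one_mul,
      mul_one]
    congr 2
    exact funext h1
  refine ⟨mq 1 fun _ => U, mq_isU _ _, ?_, mono_ind hW hm _ (by simp)
    (fun k h hh w => key _ _ w fun k' => ?_) fun p q l hpq hl w => key _ _ w fun k => ?_⟩
  · refine ext_mulVec fun v => funext fun k => ?_
    rw [← Matrix.mulVec_mulVec, mq_mulVec, mq_mulVec, ← mul_assoc]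
    simp [U, hu, Matrix.neg_mulVec]
  · have h1 : h ∈ L' := (dg W).mul_mem (single_dg hp i hh) (by
      have := (dg W).inv_mem (single_dg hp j hh)
      rwa [← Pi.mulSingle_inv] at this)
    by_cases e : k' = k
    · simp [e, hL h h1]
    · simp [e]
  · have h1 : l ∈ L' := pair_dg hp hpq hij ((mem_dg hp _ _).1 hl)
    by_cases e : k = p
    · simp [e, hpq, hL l h1]
    by_cases e' : k = q
    · have := (show Commute l U from hL l h1).inv_left.eq
      simpa [e', hpq.symm] using this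
    · simp [e, e']

/-- The unimodular matrix of a unit quaternion, as a homomorphism. -/
noncomputable def sU : UQ →* SL2 where
  toFun q := slq q.1 (normSq_U q)
  map_one' := Subtype.ext blk_one
  map_mul' p q := Subtype.ext (blk_mul p.1 q.1)

theorem sU_inj : Function.Injective sU := fun _ _ e =>
  Subtype.ext (blk_inj (congrArg Subtype.val e))

theorem sU_neg : sU (-1) = -1 := Subtype.ext (by
  change blk (-1) = -1
  rw [blk_neg, blk_one])

theorem cm_mq (π : Equiv.Perm (Fin n)) (a : Fin n → UQ) : cm (mq π a) = Mo.monN π (sU ∘ a) := by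
  ext ⟨i, x⟩ ⟨j, y⟩
  rw [cm_apply, mq_apply, Mo.monN, Matrix.of_apply]
  split_ifs
  · rfl
  · simp [blk_zero]

theorem sU_single (i : Fin n) (x : UQ) : sU ∘ Pi.mulSingle i x = Pi.mulSingle i (sU x) := by
  ext1 k
  by_cases e : k = i <;> simp [e]

theorem sU_pair (i j : Fin n) (x y : UQ) : sU ∘ (Pi.mulSingle i x * Pi.mulSingle j y) =
    Pi.mulSingle i (sU x) * Pi.mulSingle j (sU y) := by
  rw [← sU_single, ← sU_single]
  ext1 k
  simp

theorem bound_case {m : ℕ} {W : Subgroup (GH (m + 1))} (hW : Std W) (hm : IsM W)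
    (hp : ∀ π, mu π 1 ∈ W)
    (hn : ∀ i j, i ≠ j → Pi.mulSingle i (-1) * Pi.mulSingle j (-1) ∈ dg W) : Bound W := by
  classical
  have := hW.finite
  let D : Subgroup (Fin (m + 1) → SL2) := (dg W).map (MonoidHom.compLeft sU (Fin (m + 1)))
  have hDf : Finite D := Finite.of_surjective _ (MonoidHom.subgroupMap_surjective _ _)
  have hD : ∀ a ∈ dg W, sU ∘ a ∈ D := fun a ha => ⟨a, ha, rfl⟩
  have hsw : ∀ π : Equiv.Perm (Fin (m + 1)), ∀ a ∈ D, a ∘ π ∈ D := by
    rintro π _ ⟨a, ha, rfl⟩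
    exact hD _ (dg_comp hp π ha)
  have hneg : ∀ i j, i ≠ j → Pi.mulSingle i (-1) * Pi.mulSingle j (-1) ∈ D := fun i j hij => by
    have := hD _ (hn i j hij)
    rwa [sU_pair, sU_neg] at this
  obtain ⟨L, hL, -⟩ := Mo.M2Aux.exists_L D hsw hneg
  have hHf : Set.Finite {x : SL2 | Pi.mulSingle 0 x ∈ D} :=
    Finite.of_injective (fun h : {x : SL2 | Pi.mulSingle 0 x ∈ D} => (⟨_, h.2⟩ : D)) fun a b e =>
      Subtype.ext (Pi.mulSingle_injective (M := fun _ => SL2) 0 (congrArg Subtype.val e))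
  obtain ⟨H, hH⟩ : ∃ H : Finset SL2, ∀ i x, x ∈ H ↔ Pi.mulSingle i x ∈ D :=
    ⟨hHf.toFinset, fun i x => by
      rw [Set.Finite.mem_toFinset]
      exact ⟨Mo.M2Aux.single_mem hsw i, Mo.M2Aux.single_mem hsw 0⟩⟩
  have key := Mo.caseM (cW W) D hsw hneg
    (fun g => by
      obtain ⟨π, a, h⟩ := hm g.1 g.2
      exact ⟨π, _, hD a ((mem_dg hp π a).1 (h ▸ g.2)), by rw [cW_apply, h, mu_val, cm_mq]⟩)
    (by
      rintro π _ ⟨a, ha, rfl⟩
      exact ⟨⟨_, (mem_dg hp π a).2 ha⟩, cm_mq π a⟩)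
    H.card L.card (fun i => Nat.subtype_card H (hH i))
    fun i j hij => Nat.subtype_card L (hL i j hij)
  have h1 : (1 : SL2) ∈ H := by simp [hH 0]
  have h2 := Finset.card_erase_add_one h1
  let T : Finset (Matrix (Fin (m + 1) × Fin 2) (Fin (m + 1) × Fin 2) ℂ) :=
    (Finset.univ ×ˢ H.erase 1).image (fun p => Mo.monN 1 (Pi.mulSingle p.1 p.2)) ∪
      ((Finset.univ.sigma fun i => Finset.Ioi i) ×ˢ L).image fun p =>
        Mo.monN (Equiv.swap p.1.1 p.1.2) (Pi.mulSingle p.1.1 p.2 * Pi.mulSingle p.1.2 p.2⁻¹)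
  have h3 : {g | g ∈ W ∧ IsRefl g}.ncard ≤ T.card := by
    rw [← Set.ncard_coe_finset]
    refine Set.ncard_le_ncard_of_injOn (fun g => cm g.val) ?_
      (fun _ _ _ _ e => Units.ext (cm_inj e)) T.finite_toSet
    rintro g ⟨hg, hg'⟩
    obtain ⟨π, a, rfl⟩ := hm g hg
    rw [Finset.mem_coe, Finset.mem_union]
    rcases refl_shape hg' with ⟨i, x, hx, e⟩ | ⟨i, j, l, hij, e⟩
    · rw [e] at hg ⊢
      refine Or.inl (Finset.mem_image.2 ⟨(i, sU x), Finset.mem_product.2 ⟨Finset.mem_univ _,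
        Finset.mem_erase.2 ⟨fun e' => hx (sU_inj (e'.trans (map_one _).symm)), ?_⟩⟩, ?_⟩)
      · rw [hH i, ← sU_single]
        exact hD _ hg
      · rw [mu_val, cm_mq, sU_single]
    · rw [e] at hg ⊢
      refine Or.inr (Finset.mem_image.2 ⟨(⟨i, j⟩, sU l), Finset.mem_product.2
        ⟨by simpa using hij, ?_⟩, ?_⟩)
      · rw [hL i j hij.ne, ← map_inv, ← sU_pair]
        exact hD _ ((mem_dg hp _ _).1 hg)
      · rw [tau, mu_val, cm_mq, sU_pair, map_inv]
  have h4 := h3.trans ((Finset.card_union_le _ _).trans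
    (Nat.add_le_add Finset.card_image_le Finset.card_image_le))
  have h5 : 2 * (Finset.univ.sigma fun i : Fin (m + 1) => Finset.Ioi i).card = (m + 1) * m := by
    have := Finset.sum_sum_Ioi_add_eq_sum_sum_off_diag (fun _ _ : Fin (m + 1) => 1)
    simp only [Finset.sum_const, smul_eq_mul, Finset.card_compl, Finset.card_singleton,
      Fintype.card_fin, Finset.card_univ, mul_one, Nat.add_sub_cancel] at this
    rw [← this, Finset.card_sigma, Finset.mul_sum]
    exact Finset.sum_congr rfl fun _ _ => by ring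
  rw [Finset.card_product, Finset.card_product, Finset.card_univ, Fintype.card_fin] at h4
  unfold Bound
  rw [invIdeal_eq]
  refine le_trans (pow_le_pow_left₀ (b := ((2 * H.card - 1 + (m + 1 - 1) * L.card : ℕ) : ℚ))
    (by positivity) ?_ _) (by rw [← Nat.cast_pow]; exact Nat.cast_le.2 key)
  · change 2 * (({g | g ∈ W ∧ IsRefl g}.ncard : ℕ) : ℚ) / _ + 1 ≤ _
    rw [← h2, Nat.add_sub_cancel, show 2 * ((H.erase 1).card + 1) - 1 =
      2 * (H.erase 1).card + 1 by omega, ← le_sub_iff_add_le, div_le_iff₀ (by positivity)]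
    have h6 : 2 * {g | g ∈ W ∧ IsRefl g}.ncard ≤
        (2 * (H.erase 1).card + m * L.card) * (m + 1) := by
      calc _ ≤ 2 * ((m + 1) * (H.erase 1).card) +
          2 * (Finset.univ.sigma fun i : Fin (m + 1) => Finset.Ioi i).card * L.card := by
            rw [mul_assoc, ← mul_add]
            exact Nat.mul_le_mul_left 2 h4
        _ = _ := by rw [h5]; ring
    have h7 : ((2 * {g | g ∈ W ∧ IsRefl g}.ncard : ℕ) : ℚ) ≤
        ((2 * (H.erase 1).card + m * L.card) * (m + 1) : ℕ) := Nat.cast_le.2 h6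
    push_cast at h7 ⊢
    linarith

theorem transfer {g : GH n} (hg : IsU g.val) (h : Bound (cj g W) ∨ (2 ≤ n ∧ Cpx (cj g W))) :
    Bound W ∨ (2 ≤ n ∧ Cpx W) :=
  h.imp (bound_cj g W).1 fun h => ⟨h.1, h.2.of_cj hg⟩

end G7Aux

open G7Aux in
theorem mono_cases {n : ℕ} {W : Subgroup (GH n)} (hW : Std W) (h : Mono W) :
    Bound W ∨ (2 ≤ n ∧ Cpx W) := by
  rcases n with _ | m
  · left
    have := hW.finite
    unfold Bound
    rw [invIdeal_eq, pow_zero]
    exact_mod_cast Mo.one_le_finrank (cW W)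
  obtain ⟨g, hg, hm⟩ := frame hW h
  obtain ⟨d, hd, hm', hp⟩ := diag_form (hW.cj hg) hm
  refine transfer hg (transfer hd ?_)
  by_cases hn : ∀ i j, i ≠ j → Pi.mulSingle i (-1) * Pi.mulSingle j (-1) ∈ dg (cj d (cj g W))
  · exact Or.inl (bound_case ((hW.cj hg).cj hd) hm' hp hn)
  · push Not at hn
    obtain ⟨i, j, hij, hn⟩ := hn
    refine Or.inr ⟨?_, cpx_case ((hW.cj hg).cj hd) hm' hp hij hn⟩
    have h1 := i.2
    have h2 := j.2
    have h3 : i.val ≠ j.val := fun e => hij (Fin.ext e)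
    omega

end Pool.Agent.P.MP_97ea17_al.Geo
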