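import Pool.Agent.P.MP_97ea17_al.F.G1b
import Pool.Agent.P.MP_97ea17_al.Rank2a

/-! Quaternionic monomial matrices and their reflections. -/

namespace Pool.Agent.P.MP_97ea17_al.Geo.G7Aux

open scoped Quaternion Matrix

attribute [-simp] Matrix.coe_units_inv

/-- Unit quaternions. -/
noncomputable abbrev UQ := unitary ℍ[ℝ]

theorem normSq_U (q : UQ) : Quaternion.normSq q.1 = 1 := by
  have := Unitary.coe_star_mul_self q
  rw [Quaternion.star_mul_self] at this
  exact congrArg QuaternionAlgebra.re this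

theorem mem_U {q : ℍ[ℝ]} (h : Quaternion.normSq q = 1) : q ∈ unitary ℍ[ℝ] := by
  rw [Unitary.mem_iff, Quaternion.star_mul_self, Quaternion.self_mul_star, h]
  simp

theorem U_ne (q : UQ) : q.1 ≠ 0 := fun e => by simpa [e] using normSq_U q

variable {n : ℕ}

/-- Monomial matrix. -/
noncomputable def mq (π : Equiv.Perm (Fin n)) (a : Fin n → UQ) : Matrix (Fin n) (Fin n) ℍ[ℝ] :=
  Matrix.of fun i j => if j = π i then (a i).1 else 0

theorem mq_apply (π : Equiv.Perm (Fin n)) (a : Fin n → UQ) (i j : Fin n) :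
    mq π a i j = if j = π i then (a i).1 else 0 := rfl

theorem mq_mulVec (π : Equiv.Perm (Fin n)) (a : Fin n → UQ) (v : V n) (i : Fin n) :
    (mq π a *ᵥ v) i = (a i).1 * v (π i) := by
  simp [mq, Matrix.mulVec, dotProduct]

theorem mq_mul (π ρ : Equiv.Perm (Fin n)) (a b : Fin n → UQ) :
    mq π a * mq ρ b = mq (ρ * π) (a * b ∘ π) := by
  refine ext_mulVec fun v => funext fun i => ?_
  rw [← Matrix.mulVec_mulVec, mq_mulVec, mq_mulVec, mq_mulVec, ← mul_assoc]
  rfl

theorem mq_one : mq (1 : Equiv.Perm (Fin n)) 1 = 1 := by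
  ext i j : 1
  simp [mq, Matrix.one_apply, eq_comm]

/-- Monomial matrix as an invertible matrix. -/
noncomputable def mu (π : Equiv.Perm (Fin n)) (a : Fin n → UQ) : GH n where
  val := mq π a
  inv := mq π⁻¹ (a⁻¹ ∘ ⇑π⁻¹)
  val_inv := by
    rw [mq_mul, inv_mul_cancel, ← mq_one]
    congr 1
    ext1 i
    simp
  inv_val := by
    rw [mq_mul, mul_inv_cancel, ← mq_one]
    congr 1
    ext1 i
    simp

theorem mu_val (π : Equiv.Perm (Fin n)) (a : Fin n → UQ) : (mu π a).val = mq π a := rfl

theorem mu_mul (π ρ : Equiv.Perm (Fin n)) (a b : Fin n → UQ) :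
    mu π a * mu ρ b = mu (ρ * π) (a * b ∘ π) := Units.ext (mq_mul ..)

theorem mu_one : mu (1 : Equiv.Perm (Fin n)) 1 = 1 := Units.ext mq_one

theorem mu_inv (π : Equiv.Perm (Fin n)) (a : Fin n → UQ) :
    (mu π a)⁻¹ = mu π⁻¹ (a⁻¹ ∘ ⇑π⁻¹) := Units.ext rfl

theorem mu_inj {π : Equiv.Perm (Fin n)} {a b : Fin n → UQ} (h : mu π a = mu π b) : a = b := by
  ext1 i
  have h1 : mq π a = mq π b := congrArg Units.val h
  simpa [mq_apply] using congrFun (congrFun h1 i) (π i)

theorem mq_isU (π : Equiv.Perm (Fin n)) (a : Fin n → UQ) : IsU (mq π a) := by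
  have : (mq π a)ᴴ = mq π⁻¹ (a⁻¹ ∘ ⇑π⁻¹) := by
    ext i j : 1
    simp only [Matrix.conjTranspose_apply, mq_apply, Function.comp_apply, Pi.inv_apply]
    by_cases h : i = π j
    · subst h
      simp [← Unitary.star_eq_inv]
    · rw [if_neg h, if_neg fun e => h (by simp [e]), star_zero]
  rw [IsU, this]
  exact (mu π a).inv_val

/-- The reflection exchanging two coordinates. -/
noncomputable def tau (i j : Fin n) (l : UQ) : GH n :=
  mu (Equiv.swap i j) (Pi.mulSingle i l * Pi.mulSingle j l⁻¹)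

theorem tau_symm (i j : Fin n) (h : i ≠ j) (l : UQ) : tau j i l⁻¹ = tau i j l := by
  rw [tau, tau, Equiv.swap_comm, inv_inv]
  congr 1
  exact (Pi.mulSingle_commute (f := fun _ => UQ) h l l⁻¹).eq.symm

theorem conj_tau (π : Equiv.Perm (Fin n)) (a : Fin n → UQ) {i j : Fin n} (h : i ≠ j) (l : UQ) :
    mu π a * tau (π i) (π j) l * (mu π a)⁻¹ = tau i j (a i * l * (a j)⁻¹) := by
  rw [mul_inv_eq_iff_eq_mul, tau, tau, mu_mul, mu_mul, Equiv.mul_swap_eq_swap_mul]
  congr 1
  ext1 k
  by_cases e : k = i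
  · simp [e, h]
  by_cases e' : k = j
  · simp [e', h.symm, mul_assoc]
  · simp [e, e', Equiv.swap_apply_of_ne_of_ne]

theorem refl_shape {π : Equiv.Perm (Fin n)} {a : Fin n → UQ} (hr : IsRefl (mu π a)) :
    (∃ i h, h ≠ 1 ∧ mu π a = mu 1 (Pi.mulSingle i h)) ∨
      ∃ i j l, i < j ∧ mu π a = tau i j l := by
  obtain ⟨x, y, hx, -, h⟩ := hr.rank_one
  simp only [mu_val, Matrix.sub_apply, mq_apply, Matrix.one_apply] at h
  by_cases hπ : π = 1
  · subst hπ
    obtain ⟨i, hi⟩ := Function.ne_iff.1 hx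
    have h1 : a = Pi.mulSingle i (a i) := by
      ext1 j
      by_cases e : j = i
      · simp [e]
      · have a1 := h i j
        have a2 := h j j
        rw [if_neg (show j ≠ (1 : Equiv.Perm (Fin n)) i from e), if_neg (Ne.symm e),
          sub_zero] at a1
        rw [(mul_eq_zero.1 a1.symm).resolve_left hi] at a2
        simp only [Equiv.Perm.one_apply, if_true, mul_zero, sub_eq_zero] at a2
        rw [Pi.mulSingle_eq_of_ne e]
        exact Subtype.ext a2
    refine Or.inl ⟨i, a i, fun e => hr.ne_one ?_, by rw [← h1]⟩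
    rw [h1, e, Pi.mulSingle_one, mu_one]
  · right
    suffices ∃ i j l, i ≠ j ∧ mu π a = tau i j l by
      obtain ⟨i, j, l, h1, h2⟩ := this
      rcases lt_or_gt_of_ne h1 with h3 | h3
      · exact ⟨i, j, l, h3, h2⟩
      · exact ⟨j, i, l⁻¹, h3, by rw [tau_symm i j h1, h2]⟩
    obtain ⟨i, hi⟩ : ∃ i, π i ≠ i := by
      by_contra h'
      push Not at h'
      exact hπ (Equiv.ext h')
    obtain ⟨j, hj⟩ : ∃ j, π i = j := ⟨_, rfl⟩
    have hij : j ≠ i := hj ▸ hi
    have hj' : j ≠ π j := fun e => hij (π.injective (e.symm.trans hj.symm))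
    have a1 := h i i
    have a2 := h i j
    have a3 := h j j
    have a4 := h j i
    rw [if_neg hi.symm, if_pos rfl, zero_sub] at a1
    rw [if_pos hj.symm, if_neg hij.symm, sub_zero] at a2
    rw [if_neg hj', if_pos rfl, zero_sub] at a3
    rw [if_neg hij, sub_zero] at a4
    have b1 : x i ≠ 0 := fun e => by simp [e] at a1
    have b2 : y i ≠ 0 := fun e => by simp [e] at a1
    have b3 : x j ≠ 0 := fun e => by simp [e] at a3
    have b4 : i = π j := by
      by_contra e
      rw [if_neg e] at a4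
      exact mul_ne_zero b3 b2 a4.symm
    rw [if_pos b4] at a4
    have b5 : ∀ k, k ≠ i → k ≠ j → π k = k ∧ a k = 1 := by
      intro k c1 c2
      have c3 := h i k
      have c4 := h k k
      rw [if_neg (hj ▸ c2), if_neg c1.symm, sub_zero] at c3
      rw [(mul_eq_zero.1 c3.symm).resolve_left b1, mul_zero, if_pos rfl, sub_eq_zero] at c4
      by_cases e : k = π k
      · rw [if_pos e] at c4
        exact ⟨e.symm, Subtype.ext c4⟩
      · simp [e] at c4
    have b6 : a j = (a i)⁻¹ := by
      refine eq_inv_of_mul_eq_one_right (Subtype.ext ?_)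
      have a5 : y j * -x j = 1 := mul_eq_one_comm.1 (by rw [neg_mul, ← a3, neg_neg])
      rw [mul_neg, neg_eq_iff_eq_neg] at a5
      change (a i).1 * (a j).1 = 1
      rw [a2, a4, mul_assoc, ← mul_assoc (y j), a5, neg_one_mul, mul_neg, ← a1, neg_neg]
    refine ⟨i, j, a i, hij.symm, ?_⟩
    rw [tau]
    congr 1
    · ext1 k
      by_cases e : k = i
      · simp [e, hj]
      by_cases e' : k = j
      · simp [e', ← b4]
      · rw [Equiv.swap_apply_of_ne_of_ne e e', (b5 k e e').1]
    · ext1 k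
      by_cases e : k = i
      · simp [e, hij.symm]
      by_cases e' : k = j
      · simp [e', hij, b6]
      · simp [e, e', (b5 k e e').2]

theorem ip_single (i k : Fin n) (p q : ℍ[ℝ]) :
    ip (Pi.single i p) (Pi.single k q) = if i = k then star p * q else 0 := by
  rw [ip, Finset.sum_eq_single i]
  · simp [Pi.single_apply]
  · simp +contextual
  · simp

/-- All elements are monomial. -/
def IsM (W : Subgroup (GH n)) : Prop := ∀ w ∈ W, ∃ π a, w = mu π a

theorem frame {W : Subgroup (GH n)} (hW : Std W) (h : Mono W) :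
    ∃ g : GH n, IsU g.val ∧ IsM (cj g W) := by
  obtain ⟨f, hf, h⟩ := h
  obtain ⟨g, hg, hg'⟩ := hf.exists_GL
  have hgi : IsU (g⁻¹).val := by
    rw [hg.inv_val, IsU, Matrix.conjTranspose_conjTranspose, hg.mul_star]
  refine ⟨g⁻¹, hgi, fun w hw => ?_⟩
  have hu := (hW.cj hgi).uni w hw
  rw [mem_cj, inv_inv] at hw
  have h1 : ∀ i q, g.val *ᵥ Pi.single i q = rs (f i) q := fun i q => by
    rw [hg', vec, Finset.sum_eq_single i] <;> simp +contextual [rs_zero]
  choose j q hq using h _ hw
  have h2 : ∀ i, w.val *ᵥ Pi.single i 1 = Pi.single (j i) (q i) := fun i => by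
    have := hq i
    rw [← rs_one (f i), ← h1, ← h1, Matrix.mulVec_mulVec, ← Units.val_mul, inv_mul_cancel_right,
      Units.val_mul, ← Matrix.mulVec_mulVec] at this
    have h3 := congrArg ((g⁻¹).val *ᵥ ·) this
    simpa only [Matrix.mulVec_mulVec, ← mul_assoc, ← Units.val_mul, inv_mul_cancel, one_mul,
      Units.val_one, Matrix.one_mulVec] using h3
  have h3 : ∀ i k, (if j i = j k then star (q i) * q k else 0) = if i = k then 1 else 0 := by
    intro i k
    have := hu.ip (Pi.single i 1) (Pi.single k 1)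
    rw [h2, h2] at this
    rw [ip_single, ip_single] at this
    simpa using this
  have h4 : ∀ i, Quaternion.normSq (q i) = 1 := fun i => by
    have := h3 i i
    rw [if_pos rfl, if_pos rfl, Quaternion.star_mul_self] at this
    exact congrArg QuaternionAlgebra.re this
  have h5 : ∀ i, q i ≠ 0 := fun i e => by simpa [e] using h4 i
  have h6 : Function.Injective j := fun i k e => by
    by_contra e'
    have := h3 i k
    rw [if_pos e, if_neg e'] at this
    exact mul_ne_zero (star_ne_zero.2 (h5 i)) (h5 k) this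
  let σ := Equiv.ofBijective j h6.bijective_of_finite
  refine ⟨σ⁻¹, fun k => ⟨q (σ⁻¹ k), mem_U (h4 _)⟩, Units.ext ?_⟩
  ext k i : 1
  have := congrFun (h2 i) k
  rw [Matrix.mulVec_single_one, Matrix.col_apply] at this
  rw [this, mu_val, mq_apply, Pi.single_apply]
  by_cases e : k = j i
  · have e' : i = σ⁻¹ k := by rw [e]; exact (σ.symm_apply_apply i).symm
    rw [if_pos e, if_pos e', ← e']
  · rw [if_neg e, if_neg fun e' => e (by rw [e']; exact (σ.apply_symm_apply k).symm)]

end Pool.Agent.P.MP_97ea17_al.Geo.G7Aux
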