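import Pool.Agent.P.MP_97ea17_al.F.G1b
import Pool.Agent.P.MP_97ea17_al.F.C7b
import Pool.Agent.P.MP_97ea17_al.F.C8

/-! Complex groups. -/

namespace Pool.Agent.P.MP_97ea17_al.G8Aux

open scoped Quaternion Matrix
open Geo

variable {n : ℕ}

/-- The first imaginary unit. -/
def qi : ℍ[ℝ] := ⟨0, 1, 0, 0⟩

/-- The second imaginary unit. -/
def qj : ℍ[ℝ] := ⟨0, 0, 1, 0⟩

theorem qi_mul_qi : qi * qi = -1 := by ext <;> simp [qi]

theorem qi_mul_qj : qi * qj = -(qj * qi) := by ext <;> simp [qi, qj]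

theorem qi_ne : qi ≠ 0 := fun h => by simpa [qi] using congrArg QuaternionAlgebra.imI h

theorem normSq_qj : Quaternion.normSq qj = 1 := by simp [qj, Quaternion.normSq_def']

theorem exists_eig {J : Matrix (Fin n) (Fin n) ℍ[ℝ]} (hU : IsU J) (hJ : J * J = -1) {r : ℕ}
    (h : r < n) (e : Fin r → V n) (he : ∀ k, J *ᵥ e k = rs (e k) qi) :
    ∃ v, nq v = 1 ∧ (∀ k, ip (e k) v = 0) ∧ J *ᵥ v = rs v qi := by
  obtain ⟨v, hv, ho⟩ := exists_orth h e
  have h1 : ∀ k, ip (e k) (J *ᵥ v) = 0 := fun k => by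
    have h2 := hU.ip (e k) v
    rw [he, ip_rs_left, ho, mul_eq_zero, star_eq_zero] at h2
    exact h2.resolve_left qi_ne
  by_cases h0 : v - rs (J *ᵥ v) qi = 0
  · have h3 : J *ᵥ v = -rs v qi := by
      conv_rhs => rw [sub_eq_zero.1 h0, rs_rs, qi_mul_qi, rs_neg, rs_one, neg_neg]
    refine ⟨rs v qj, by rw [nq_rs, hv, normSq_qj, one_mul], fun k => by
      rw [ip_rs_right, ho, zero_mul], ?_⟩
    rw [mulVec_rs, h3, neg_rs, rs_rs, rs_rs, qi_mul_qj, rs_neg, neg_neg]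
  · obtain ⟨t, -, ht⟩ := exists_unit_rs h0
    refine ⟨_, ht, fun k => by
      rw [ip_rs_right, ip_sub_right, ip_rs_right, ho, h1, zero_mul, sub_zero, zero_mul], ?_⟩
    have h4 : J *ᵥ (v - rs (J *ᵥ v) qi) = rs (v - rs (J *ᵥ v) qi) qi := by
      rw [Matrix.mulVec_sub, mulVec_rs, Matrix.mulVec_mulVec, hJ, Matrix.neg_mulVec,
        Matrix.one_mulVec, sub_rs, rs_rs, qi_mul_qi, rs_neg, rs_one, neg_rs]
      abel
    rw [mulVec_rs, h4, rs_rs, rs_rs, Quaternion.coe_commutes]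

theorem exists_frame {J : Matrix (Fin n) (Fin n) ℍ[ℝ]} (hU : IsU J) (hJ : J * J = -1) (r : ℕ)
    (h : r ≤ n) : ∃ e : Fin r → V n, ON e ∧ ∀ k, J *ᵥ e k = rs (e k) qi := by
  induction r with
  | zero => exact ⟨fun _ => 0, fun i => i.elim0, fun i => i.elim0⟩
  | succ r ih =>
    obtain ⟨e, he, hJe⟩ := ih (by omega)
    obtain ⟨v, hv, ho, hJv⟩ := exists_eig hU hJ (by omega : r < n) e hJe
    refine ⟨Fin.cons v e, fun i j => ?_, fun k => ?_⟩
    · refine Fin.cases ?_ (fun i => ?_) i <;> refine Fin.cases ?_ (fun j => ?_) j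
      · simp [ip_self, hv]
      · simp [ip_eq_zero_comm.1 (ho j), (Fin.succ_ne_zero j).symm]
      · simp [ho i]
      · simp [he i j]
    · refine Fin.cases ?_ (fun k => ?_) k
      · simpa using hJv
      · simpa using hJe k

/-- After conjugation all entries are complex. -/
theorem exists_cj {W : Subgroup (GH n)} (h : Cpx W) : ∃ g : GH n, IsU g.val ∧
    ∀ w ∈ cj g W, ∀ i j, (w.val i j).imJ = 0 ∧ (w.val i j).imK = 0 := by
  obtain ⟨J, hU, hJ, hc⟩ := h
  obtain ⟨f, hf, hJf⟩ := exists_frame hU hJ n le_rfl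
  obtain ⟨g, hg, hgf⟩ := hf.exists_GL
  have h1 : J * g.val = g.val * Matrix.diagonal fun _ => qi := by
    refine ext_mulVec fun c => ?_
    rw [← Matrix.mulVec_mulVec, ← Matrix.mulVec_mulVec, hgf, hgf, vec, vec, Matrix.mulVec_sum]
    refine Finset.sum_congr rfl fun i _ => ?_
    rw [mulVec_rs, hJf, rs_rs, Matrix.mulVec_diagonal]
  refine ⟨g⁻¹, ?_, fun w hw i j => ?_⟩
  · rw [hg.inv_val, IsU, Matrix.conjTranspose_conjTranspose, hg.mul_star]
  · have h2 := hc _ (mem_cj.1 hw)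
    rw [inv_inv, Units.val_mul, Units.val_mul] at h2
    have h3 : (g⁻¹).val * g.val = 1 := by rw [← Units.val_mul, inv_mul_cancel, Units.val_one]
    have h4 : g.val * (w.val * Matrix.diagonal fun _ => qi) =
        g.val * ((Matrix.diagonal fun _ => qi) * w.val) := by
      have h5 := congrArg (· * g.val) h2
      simp only [mul_assoc, h1, h3, mul_one] at h5
      rw [← mul_assoc (g⁻¹).val, h3, one_mul, ← mul_assoc J, h1, mul_assoc] at h5
      exact h5
    have h6 := congrFun (congrFun ((Units.mul_right_inj g).1 h4) i) j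
    rw [Matrix.mul_diagonal, Matrix.diagonal_mul] at h6
    have h7 := congrArg QuaternionAlgebra.imJ h6
    have h8 := congrArg QuaternionAlgebra.imK h6
    simp [qi] at h7 h8
    constructor <;> linarith

/-- Complex matrices as quaternionic matrices. -/
noncomputable def up : Matrix (Fin n) (Fin n) ℂ →+* Matrix (Fin n) (Fin n) ℍ[ℝ] :=
  Quaternion.ofComplex.toRingHom.mapMatrix

theorem up_apply (M : Matrix (Fin n) (Fin n) ℂ) (i j : Fin n) : up M i j = (M i j : ℍ[ℝ]) := rfl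

theorem coe_inj {z w : ℂ} (h : (z : ℍ[ℝ]) = w) : z = w :=
  Complex.ext (congrArg QuaternionAlgebra.re h) (congrArg QuaternionAlgebra.imI h)

theorem up_inj : Function.Injective (up (n := n)) := fun M N h => by
  ext i j : 1
  exact coe_inj (congrFun (congrFun h i) j)

theorem coe_star (z : ℂ) : ((star z : ℂ) : ℍ[ℝ]) = star (z : ℍ[ℝ]) := by ext <;> simp

theorem up_star (M : Matrix (Fin n) (Fin n) ℂ) : up Mᴴ = (up M)ᴴ := by
  ext i j : 1
  exact coe_star _

/-- Complex vectors as quaternionic vectors. -/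
noncomputable def uv (x : Fin n → ℂ) : V n := fun i => (x i : ℍ[ℝ])

theorem up_uv (M : Matrix (Fin n) (Fin n) ℂ) (x : Fin n → ℂ) : up M *ᵥ uv x = uv (M *ᵥ x) := by
  ext1 i
  simp only [Matrix.mulVec, dotProduct, uv, up_apply, ← Quaternion.coeComplex_mul]
  exact (map_sum Quaternion.ofComplex _ _).symm

theorem exists_A {W : Subgroup (GH n)}
    (h : ∀ w ∈ W, ∀ i j, (w.val i j).imJ = 0 ∧ (w.val i j).imK = 0) :
    ∃ A : W →* Matrix (Fin n) (Fin n) ℂ, ∀ w, up (A w) = w.val.val := by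
  have h1 : ∀ w : W, ∃ M, up M = w.val.val := fun w =>
    ⟨Matrix.of fun i j => ⟨(w.val.val i j).re, (w.val.val i j).imI⟩, by
      ext i j
      · rfl
      · rfl
      · exact (h w w.2 i j).1.symm
      · exact (h w w.2 i j).2.symm⟩
  choose A hA using h1
  exact ⟨⟨⟨A, up_inj (by rw [hA, map_one]; rfl)⟩, fun a b => up_inj (by
    rw [map_mul, hA, hA, hA]; rfl)⟩, hA⟩

theorem rank_of_isRefl {w : GH n} (hw : IsRefl w) {M : Matrix (Fin n) (Fin n) ℂ}
    (h : up M = w.val) : (M - 1).rank = 1 := by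
  obtain ⟨a, b, ha, hb, hab⟩ := hw.rank_one
  obtain ⟨i0, hi⟩ := Function.ne_iff.1 ha
  obtain ⟨j0, hj⟩ := Function.ne_iff.1 hb
  have h1 : ∀ i j, (((M - 1) i j : ℂ) : ℍ[ℝ]) = a i * b j := fun i j => by
    rw [← hab, ← h, ← map_one up, ← map_sub]; rfl
  have h0 : (M - 1) i0 j0 ≠ 0 := fun e => by
    have := h1 i0 j0
    rw [e, Quaternion.coeComplex_zero, eq_comm, mul_eq_zero] at this
    exact this.elim hi hj
  have h2 : M - 1 = Matrix.vecMulVec (fun i => (M - 1) i j0 * ((M - 1) i0 j0)⁻¹)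
      fun j => (M - 1) i0 j := by
    ext i j : 1
    apply coe_inj
    have h3 : ((((M - 1) i0 j0)⁻¹ : ℂ) : ℍ[ℝ]) = (a i0 * b j0)⁻¹ := by
      rw [← h1]; exact map_inv₀ Quaternion.ofComplex _
    have hi' : a i0 ≠ 0 := hi
    have hj' : b j0 ≠ 0 := hj
    rw [Matrix.vecMulVec_apply, Quaternion.coeComplex_mul, Quaternion.coeComplex_mul, h3, h1, h1,
      h1, mul_inv_rev, mul_assoc, mul_assoc, mul_assoc, inv_mul_cancel_left₀ hi',
      mul_inv_cancel_left₀ hj']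
  refine le_antisymm (h2 ▸ Matrix.rank_vecMulVec_le _ _) ?_
  rw [Nat.one_le_iff_ne_zero]
  intro h4
  have h5 : LinearMap.range (M - 1).mulVecLin = ⊥ := Submodule.finrank_eq_zero.1 h4
  have h6 : (M - 1) *ᵥ Pi.single j0 1 ∈ LinearMap.range (M - 1).mulVecLin := ⟨_, rfl⟩
  rw [h5, Submodule.mem_bot] at h6
  exact h0 (by simpa using congrFun h6 i0)

theorem isRefl_of_rank {w : GH n} (hw : IsOfFinOrder w) {M : Matrix (Fin n) (Fin n) ℂ}
    (h : up M = w.val) (hu : Mᴴ * M = 1) (hr : (M - 1).rank = 1) : IsRefl w := by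
  obtain ⟨a, ha, μ, hμ, hM⟩ := C8Aux.exists_unit hu hr
  have h1 : ∑ k, Quaternion.normSq (uv a k) = 1 := by
    have h2 := congrArg Complex.re ha
    simp only [dotProduct, Complex.re_sum, Complex.one_re] at h2
    rw [← h2]
    refine Finset.sum_congr rfl fun k _ => ?_
    simp [uv, Quaternion.normSq_def', sq]
  refine isRefl_reflMat hw (a := uv a) (ξ := 1 + (μ : ℍ[ℝ])) (fun e => ?_) (fun e => ?_) ?_
  · rw [e] at h1
    simp at h1
  · exact hμ (coe_inj (add_eq_left.1 e))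
  · rw [← h, reflMat, h1, sub_eq_iff_eq_add'.1 hM, map_add, map_one, sub_eq_add_neg]
    congr 1
    ext i j : 1
    rw [up_apply, Matrix.smul_apply, C8Aux.pr, Matrix.vecMulVec_apply, smul_eq_mul, mul_left_comm,
      Quaternion.coeComplex_mul, Quaternion.coeComplex_mul, Pi.star_apply, coe_star]
    simp [uv, mul_assoc]

theorem irred {W : Subgroup (GH n)} (hW : Std W) {A : W →* Matrix (Fin n) (Fin n) ℂ}
    (hA : ∀ w, up (A w) = w.val.val) (U : Submodule ℂ (Fin n → ℂ))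
    (hU : ∀ w, ∀ v ∈ U, A w *ᵥ v ∈ U) : U = ⊥ ∨ U = ⊤ := by
  have h0 : uv (0 : Fin n → ℂ) = 0 := rfl
  have hadd : ∀ x y : Fin n → ℂ, uv (x + y) = uv x + uv y := fun x y => by
    ext1 i; simp [uv]
  rcases hW.irred (fun v => ∃ x ∈ U, ∃ y ∈ U, v = uv x + rs (uv y) qj)
    ⟨0, U.zero_mem, 0, U.zero_mem, by rw [h0, zero_rs, add_zero]⟩
    (by
      rintro _ _ ⟨x, hx, y, hy, rfl⟩ ⟨x', hx', y', hy', rfl⟩
      exact ⟨_, U.add_mem hx hx', _, U.add_mem hy hy', by rw [hadd, hadd, add_rs]; abel⟩)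
    (by
      rintro _ q ⟨x, hx, y, hy, rfl⟩
      refine ⟨_, U.sub_mem (U.smul_mem (⟨q.re, q.imI⟩ : ℂ) hx) (U.smul_mem (⟨q.imJ, -q.imK⟩ : ℂ) hy),
        _, U.add_mem (U.smul_mem (⟨q.imJ, q.imK⟩ : ℂ) hx) (U.smul_mem (⟨q.re, -q.imI⟩ : ℂ) hy), ?_⟩
      ext i <;> simp [uv, rs, qj] <;> ring)
    (by
      rintro w hw _ ⟨x, hx, y, hy, rfl⟩
      refine ⟨_, hU ⟨w, hw⟩ x hx, _, hU ⟨w, hw⟩ y hy, ?_⟩
      rw [Matrix.mulVec_add, mulVec_rs, ← up_uv, ← up_uv, hA]) with h | h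
  · left
    refine eq_bot_iff.2 fun x hx => ?_
    have h1 := h (uv x) ⟨x, hx, 0, U.zero_mem, by rw [h0, zero_rs, add_zero]⟩
    funext i
    exact coe_inj (congrFun h1 i)
  · right
    refine eq_top_iff.2 fun x _ => ?_
    obtain ⟨x', hx', y, -, e⟩ := h (uv x)
    have h1 : x = x' := by
      funext i
      have h2 := congrFun e i
      have h3 := congrArg QuaternionAlgebra.re h2
      have h4 := congrArg QuaternionAlgebra.imI h2
      simp [uv, rs, qj] at h3 h4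
      exact Complex.ext h3 h4
    exact h1 ▸ hx'

theorem blk_coe (z : ℂ) : blk (z : ℍ[ℝ]) = !![z, 0; 0, star z] := by
  ext a b
  fin_cases a <;> fin_cases b <;> simp [blk, Complex.ext_iff]

theorem bound_of_entries {W : Subgroup (GH n)} (hW : Std W) (hn : 2 ≤ n)
    (h : ∀ w ∈ W, ∀ i j, (w.val i j).imJ = 0 ∧ (w.val i j).imK = 0) : Bound W := by
  classical
  have := hW.finite
  let _ : Fintype W := Fintype.ofFinite _
  obtain ⟨A, hA⟩ := exists_A h
  have hu : ∀ w, (A w)ᴴ * A w = 1 := fun w => up_inj (by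
    rw [map_mul, up_star, hA, map_one]; exact hW.uni w w.2)
  have hiff : ∀ w : W, IsRefl w.val ↔ (A w - 1).rank = 1 := fun w =>
    ⟨fun e => rank_of_isRefl e (hA w), fun e =>
      isRefl_of_rank (W.subtype.isOfFinOrder (isOfFinOrder_of_finite w)) (hA w) (hu w) e⟩
  have hgen : Subgroup.closure {w | (A w - 1).rank = 1} = ⊤ := by
    apply Subgroup.map_injective W.subtype_injective
    rw [MonoidHom.map_closure, ← MonoidHom.range_eq_map, Subgroup.range_subtype]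
    conv_rhs => rw [← hW.irr.2.1]
    congr 1
    ext g
    constructor
    · rintro ⟨w, hw, rfl⟩
      exact ⟨w.2, (hiff w).2 hw⟩
    · rintro ⟨hg, hr⟩
      exact ⟨⟨g, hg⟩, (hiff ⟨g, hg⟩).1 hr, rfl⟩
  obtain ⟨ι, _, _, D, hD, hR⟩ := Cx.exists_RD hn A
    (fun a b e => Subtype.ext (Units.ext (by rw [← hA, ← hA, e]))) hu hgen (irred hW hA)
  have hc : ∀ w i j a b, cW W w (i, a) (j, b) = !![A w i j, 0; 0, star (A w i j)] a b :=
    fun w i j a b => by rw [cW_apply, cm_apply, ← hA, up_apply, blk_coe]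
  have hinv : ∀ w, A w⁻¹ = (A w)ᴴ := fun w => by
    calc A w⁻¹ = (A w)ᴴ * A w * A w⁻¹ := by rw [hu, one_mul]
      _ = (A w)ᴴ := by rw [mul_assoc, ← map_mul, mul_inv_cancel, map_one, mul_one]
  have key := D.rd_bound (cW W) (LinearMap.funLeft ℂ ℂ fun i => (i, 0))
    (LinearMap.funLeft ℂ ℂ fun i => (i, 1))
    (fun a b => ⟨fun p => ![a p.1, b p.1] p.2, rfl, rfl⟩)
    (fun w l => by
      funext j
      simp [LinearMap.funLeft_apply, Matrix.vecMul, dotProduct, Fintype.sum_prod_type, hc, hD])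
    (fun w l => by
      funext j
      simp [LinearMap.funLeft_apply, Matrix.vecMul, Matrix.mulVec, dotProduct,
        Fintype.sum_prod_type, hc, hD, hinv, mul_comm])
  have hN : Nat.card {g // g ∈ W ∧ IsRefl g} = D.R.card := by
    rw [← Nat.card_eq_finsetCard]
    exact Nat.card_congr
      { toFun := fun g => ⟨⟨g.1, g.2.1⟩, (hR _).2 ((hiff _).1 g.2.2)⟩
        invFun := fun w => ⟨w.1.1, w.1.2, (hiff _).2 ((hR _).1 w.2)⟩
        left_inv := fun _ => rfl
        right_inv := fun _ => rfl }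
  have hg : 2 * (D.R.card : ℚ) / n = D.g := by
    have h1 : (n : ℚ) ≠ 0 := Nat.cast_ne_zero.2 (by omega)
    have h2 : 2 * (D.R.card : ℚ) = n * D.g := by exact_mod_cast D.card_R
    rw [h2, mul_div_cancel_left₀ _ h1]
  unfold Bound
  rw [hN, hg, invIdeal_eq]
  exact_mod_cast key

end Pool.Agent.P.MP_97ea17_al.G8Aux

namespace Pool.Agent.P.MP_97ea17_al.Geo

open scoped Quaternion Matrix

theorem bound_cpx {n : ℕ} {W : Subgroup (GH n)} (hW : Std W) (hn : 2 ≤ n) (h : Cpx W) :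
    Bound W := by
  obtain ⟨g, hg, hc⟩ := G8Aux.exists_cj h
  exact (bound_cj g W).1 (G8Aux.bound_of_entries (hW.cj hg) hn hc)

end Pool.Agent.P.MP_97ea17_al.Geo
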