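import Pool.Agent.P.MP_97ea17_al.F.G1

/-! Arithmetic and quaternion lemmas for the groups generated by reflections of order three. -/

namespace Pool.Agent.P.MP_97ea17_al.Geo.G9Aux

open scoped Quaternion Matrix

theorem irr5 {A B : ℤ} (h : (A : ℝ) + B * √5 = 0) : A = 0 ∧ B = 0 := by
  have hB : B = 0 := by
    by_contra hB
    have h5 : Irrational √5 := by simpa using Nat.prime_five.irrational_sqrt
    have hB' : (B : ℝ) ≠ 0 := Int.cast_ne_zero.2 hB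
    refine h5.ne_rational (-A) B ?_
    rw [eq_div_iff hB']
    push_cast
    linarith
  rw [hB] at h
  exact ⟨by simpa using h, hB⟩

/-- The additive group generated by the admissible values. -/
def Z5 (x : ℝ) : Prop := ∃ k v : ℤ, 6 * x = v + 2 * k + v * √5

theorem z5_of {t : ℝ} (h : T3 t) : Z5 t := by
  rcases h with rfl | rfl | rfl | rfl | rfl | rfl
  · exact ⟨0, 0, by norm_num⟩
  · exact ⟨1, 0, by norm_num⟩
  · exact ⟨2, 0, by norm_num⟩
  · exact ⟨1, 1, by push_cast; ring⟩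
  · exact ⟨2, -1, by push_cast; ring⟩
  · exact ⟨3, 0, by norm_num⟩

theorem Z5.add {x y : ℝ} (h : Z5 x) (h' : Z5 y) : Z5 (x + y) := by
  obtain ⟨k, v, e⟩ := h
  obtain ⟨k', v', e'⟩ := h'
  exact ⟨k + k', v + v', by push_cast; linarith⟩

theorem Z5.sub {x y : ℝ} (h : Z5 x) (h' : Z5 y) : Z5 (x - y) := by
  obtain ⟨k, v, e⟩ := h
  obtain ⟨k', v', e'⟩ := h'
  exact ⟨k - k', v - v', by push_cast; linarith⟩

theorem rho_cases {ρ : ℝ} (h : Z5 ρ) (h' : T3 ((1 - 2 * ρ) ^ 2)) : ρ = 0 ∨ ρ = 1 := by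
  obtain ⟨k, v, e⟩ := h
  have h5 : (√5 : ℝ) * √5 = 5 := Real.mul_self_sqrt (by norm_num)
  obtain ⟨U, hU⟩ : ∃ U : ℤ, U = 3 - v - 2 * k := ⟨_, rfl⟩
  have hU' : (U : ℝ) = 3 - v - 2 * k := by exact_mod_cast hU
  have e1 : 9 * (1 - 2 * ρ) ^ 2 = U * U + 5 * (v * v) - 2 * (U * v) * √5 := by
    have : 3 * (1 - 2 * ρ) = U - v * √5 := by linarith
    linear_combination (3 * (1 - 2 * ρ) + (U - v * √5)) * this + (v : ℝ) ^ 2 * h5
  have par : (U * U + 5 * (v * v)) % 2 = 1 := by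
    have : U * U + 5 * (v * v) = 2 * (4 - 3 * v - 6 * k + 3 * (v * v) + 2 * (k * k) + 2 * (v * k)) + 1 := by
      rw [hU]; ring
    omega
  rcases h' with h | h | h | h | h | h
  · have := (irr5 (A := U * U + 5 * (v * v)) (B := -(2 * (U * v))) (by push_cast; linarith)).1
    omega
  · obtain ⟨h1, h2⟩ := irr5 (A := U * U + 5 * (v * v) - 3) (B := -(2 * (U * v)))
      (by push_cast; linarith)
    have hv : v = 0 := by nlinarith [mul_self_nonneg U]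
    have h3 : U * U = 3 := by rw [hv] at h1; linarith
    have h4 : U < 2 := by nlinarith
    have h6 : -2 < U := by nlinarith
    interval_cases U <;> omega
  · have := (irr5 (A := U * U + 5 * (v * v) - 6) (B := -(2 * (U * v))) (by push_cast; linarith)).1
    omega
  · have := (irr5 (A := 2 * (U * U + 5 * (v * v)) - 9) (B := -(4 * (U * v)) - 3)
      (by push_cast; linarith)).1
    omega
  · have := (irr5 (A := 2 * (U * U + 5 * (v * v)) - 9) (B := -(4 * (U * v)) + 3)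
      (by push_cast; linarith)).1
    omega
  · have : ρ * (ρ - 1) = 0 := by linarith
    rcases mul_eq_zero.1 this with h | h
    · exact Or.inl h
    · exact Or.inr (by linarith)

theorem rep {t : ℝ} (h : T3 t) (h' : ¬(t = 0 ∨ t = 1)) : ∃ u k e : ℤ, (e = 0 ∨ e = 1) ∧
    6 * t - 3 = u + (e + 2 * k) * √5 ∧ 9 * (2 * t - 1) ^ 2 = 1 + 4 * e := by
  have h5 : (√5 : ℝ) * √5 = 5 := Real.mul_self_sqrt (by norm_num)
  rcases h with rfl | rfl | rfl | rfl | rfl | rfl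
  · exact absurd (Or.inl rfl) h'
  · exact ⟨-1, 0, 0, Or.inl rfl, by norm_num, by norm_num⟩
  · exact ⟨1, 0, 0, Or.inl rfl, by norm_num, by norm_num⟩
  · exact ⟨0, 0, 1, Or.inr rfl, by push_cast; ring, by push_cast; linear_combination h5⟩
  · exact ⟨0, -1, 1, Or.inr rfl, by push_cast; ring, by push_cast; linear_combination h5⟩
  · exact absurd (Or.inr rfl) h'

theorem tetra {t₁ t₂ t₃ t₄ : ℝ} {u₁ u₂ u₃ u₄ k₁ k₂ k₃ k₄ e₁ e₂ e₃ e₄ : ℤ}
    (h : t₁ + t₂ + t₃ + t₄ = 2) (h₁ : 6 * t₁ - 3 = u₁ + (e₁ + 2 * k₁) * √5)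
    (h₂ : 6 * t₂ - 3 = u₂ + (e₂ + 2 * k₂) * √5) (h₃ : 6 * t₃ - 3 = u₃ + (e₃ + 2 * k₃) * √5)
    (h₄ : 6 * t₄ - 3 = u₄ + (e₄ + 2 * k₄) * √5) : (e₁ + e₂ + e₃ + e₄) % 2 = 0 := by
  have := (irr5 (A := u₁ + u₂ + u₃ + u₄) (B := e₁ + e₂ + e₃ + e₄ + 2 * (k₁ + k₂ + k₃ + k₄))
    (by push_cast; linarith)).2
  omega

theorem ten (t : Fin 10 → ℝ) (h : ∀ i, T3 (t i)) (h₀ : t 0 + t 1 + t 3 + t 6 = 2)
    (h₁ : t 0 + t 2 + t 4 + t 7 = 2) (h₂ : t 1 + t 2 + t 5 + t 9 = 2)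
    (h₃ : t 3 + t 4 + t 5 + t 8 = 2) (h₄ : t 6 + t 7 + t 8 + t 9 = 2)
    (hq : (2 * t 0 - 1) ^ 2 + (2 * t 1 - 1) ^ 2 + (2 * t 2 - 1) ^ 2 + (2 * t 3 - 1) ^ 2
      + (2 * t 4 - 1) ^ 2 + (2 * t 5 - 1) ^ 2 + (2 * t 6 - 1) ^ 2 + (2 * t 7 - 1) ^ 2
      + (2 * t 8 - 1) ^ 2 + (2 * t 9 - 1) ^ 2 = 2) : ∃ i, t i = 0 ∨ t i = 1 := by
  by_contra h0
  choose u k e he h1 h2 using fun i => rep (h i) fun h' => h0 ⟨i, h'⟩
  have p₀ := tetra h₀ (h1 0) (h1 1) (h1 3) (h1 6)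
  have p₁ := tetra h₁ (h1 0) (h1 2) (h1 4) (h1 7)
  have p₂ := tetra h₂ (h1 1) (h1 2) (h1 5) (h1 9)
  have p₃ := tetra h₃ (h1 3) (h1 4) (h1 5) (h1 8)
  have p₄ := tetra h₄ (h1 6) (h1 7) (h1 8) (h1 9)
  have s : e 0 + e 1 + e 2 + e 3 + e 4 + e 5 + e 6 + e 7 + e 8 + e 9 = 2 := by
    have : (e 0 + e 1 + e 2 + e 3 + e 4 + e 5 + e 6 + e 7 + e 8 + e 9 : ℝ) = 2 := by
      linarith [h2 0, h2 1, h2 2, h2 3, h2 4, h2 5, h2 6, h2 7, h2 8, h2 9]
    exact_mod_cast this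
  have a0 := he 0
  have a1 := he 1
  have a2 := he 2
  have a3 := he 3
  have a4 := he 4
  have a5 := he 5
  have a6 := he 6
  have a7 := he 7
  have a8 := he 8
  have a9 := he 9
  omega

/-! ### Quaternions -/

theorem sq_eq_star {ξ : ℍ[ℝ]} (h1 : Quaternion.normSq ξ = 1) (h2 : ξ.re = -1 / 2) :
    ξ * ξ = star ξ := by
  rw [Quaternion.normSq_def'] at h1
  ext <;> simp [h2] <;> nlinarith

theorem comm_cases {ξ ζ : ℍ[ℝ]} (h1 : Quaternion.normSq ξ = 1) (h2 : ξ.re = -1 / 2)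
    (h3 : Quaternion.normSq ζ = 1) (h4 : ζ.re = -1 / 2) (h : Commute ξ ζ) :
    ζ = ξ ∨ ζ = star ξ := by
  have a : star ξ = -1 - ξ := by ext <;> simp [h2]; norm_num
  have b : star ζ = -1 - ζ := by ext <;> simp [h4]; norm_num
  have c := (sq_eq_star h1 h2).trans a
  have d := (sq_eq_star h3 h4).trans b
  have e : (ζ - ξ) * (ζ - star ξ) = 0 := by
    rw [a]
    calc (ζ - ξ) * (ζ - (-1 - ξ)) = ζ * ζ + ζ - ξ * ξ - ξ + (ζ * ξ - ξ * ζ) := by noncomm_ring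
      _ = 0 := by rw [c, d, h.eq]; abel
  rcases mul_eq_zero.1 e with e | e
  · exact Or.inl (sub_eq_zero.1 e)
  · exact Or.inr (sub_eq_zero.1 e)

theorem exists_conj {u v p q : ℍ[ℝ]} (hu : u * u = -1) (hv : v * v = -1) (huv : v * u = -(u * v))
    (hp : p * p = -1) (hq : q * q = -1) (hpq : q * p = -(p * q)) :
    ∃ x, x ≠ 0 ∧ u * x = x * p ∧ v * x = x * q := by
  have u2 : ∀ y, u * (u * y) = -y := fun y => by rw [← mul_assoc, hu, neg_one_mul]
  have v2 : ∀ y, v * (v * y) = -y := fun y => by rw [← mul_assoc, hv, neg_one_mul]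
  have uv : ∀ y, v * (u * y) = -(u * (v * y)) := fun y => by
    rw [← mul_assoc, huv, neg_mul, mul_assoc]
  have p2 : ∀ y, p * (p * y) = -y := fun y => by rw [← mul_assoc, hp, neg_one_mul]
  have q2 : ∀ y, q * (q * y) = -y := fun y => by rw [← mul_assoc, hq, neg_one_mul]
  have pq : ∀ y, q * (p * y) = -(p * (q * y)) := fun y => by
    rw [← mul_assoc, hpq, neg_mul, mul_assoc]
  obtain ⟨T, hT⟩ : ∃ T : ℍ[ℝ] → ℍ[ℝ],
      ∀ y, T y = y - u * y * p - v * y * q - u * v * y * (p * q) := ⟨_, fun _ => rfl⟩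
  have h1 : ∀ y, u * T y = T y * p ∧ v * T y = T y * q := fun y => by
    constructor <;>
      simp only [hT, mul_sub, _root_.sub_mul, mul_assoc, u2, v2, uv, hp, hq, hpq, p2, q2, pq, mul_neg,
        neg_mul, neg_neg, mul_one] <;> abel
  by_contra h0
  have h2 : ∀ y, T y = 0 := fun y => by
    by_contra h3
    exact h0 ⟨T y, h3, h1 y⟩
  have h3 : T 1 - T p * p - T q * q - T (p * q) * (p * q) = 1 + 1 + 1 + 1 := by
    simp only [hT, mul_sub, _root_.sub_mul, mul_assoc, hp, hq, hpq, p2, q2, pq, mul_neg,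
      neg_mul, neg_neg, mul_one, one_mul]
    abel
  simp only [h2, zero_mul, sub_zero] at h3
  have := congrArg QuaternionAlgebra.re h3
  simp only [Quaternion.re_add, Quaternion.re_one, Quaternion.re_zero] at this
  norm_num at this

/-- The data of a pair of reflections of order three with perpendicular axes. -/
def Dat (ξ η c : ℍ[ℝ]) : Prop :=
  Quaternion.normSq ξ = 1 ∧ ξ.re = -1 / 2 ∧ Quaternion.normSq η = 1 ∧ η.re = -1 / 2 ∧
    Quaternion.normSq c = 2 / 3 ∧ (ξ.im * (c * η.im * star c)).re = 0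

theorem pure_sq {u : ℍ[ℝ]} (h : u.re = 0) (h1 : Quaternion.normSq u = 1) : u * u = -1 := by
  rw [Quaternion.normSq_def'] at h1
  ext <;> simp [h] <;> nlinarith

theorem pure_anti {u v : ℍ[ℝ]} (h : u.re = 0) (h' : v.re = 0) (h1 : (u * v).re = 0) :
    v * u = -(u * v) := by
  simp only [Quaternion.re_mul, h, h'] at h1
  ext <;> simp [h, h'] <;> linarith

theorem normSq_im {ξ : ℍ[ℝ]} (h1 : Quaternion.normSq ξ = 1) (h2 : ξ.re = -1 / 2) :
    Quaternion.normSq ξ.im = 3 / 4 := by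
  rw [Quaternion.normSq_def'] at h1 ⊢
  simp only [Quaternion.re_im, Quaternion.imI_im, Quaternion.imJ_im, Quaternion.imK_im, h2] at h1 ⊢
  linarith

theorem Dat.axes {ξ η c : ℍ[ℝ]} (h : Dat ξ η c) :
    (2 * √3 / 3 : ℝ) • ξ.im * (2 * √3 / 3 : ℝ) • ξ.im = -1 ∧
    (√3 : ℝ) • (c * η.im * star c) * (√3 : ℝ) • (c * η.im * star c) = -1 ∧
    (√3 : ℝ) • (c * η.im * star c) * (2 * √3 / 3 : ℝ) • ξ.im =
      -((2 * √3 / 3 : ℝ) • ξ.im * (√3 : ℝ) • (c * η.im * star c)) := by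
  obtain ⟨h1, h2, h3, h4, h5, h6⟩ := h
  have hs : (√3 : ℝ) ^ 2 = 3 := Real.sq_sqrt (by norm_num)
  have a : ((2 * √3 / 3 : ℝ) • ξ.im).re = 0 := by simp
  have b : ((√3 : ℝ) • (c * η.im * star c)).re = 0 := by
    simp
    ring
  refine ⟨pure_sq a ?_, pure_sq b ?_, pure_anti a b ?_⟩
  · rw [Quaternion.normSq_smul, normSq_im h1 h2]
    linarith
  · rw [Quaternion.normSq_smul, map_mul, map_mul, Quaternion.normSq_star, normSq_im h3 h4, h5, hs]
    norm_num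
  · rw [smul_mul_smul_comm, Quaternion.re_smul, h6, smul_zero]

theorem conj_of_im {ξ ξ' x : ℍ[ℝ]} (h : ξ.re = ξ'.re) (h' : ξ.im * x = x * ξ'.im) :
    ξ * x = x * ξ' := by
  rw [← Quaternion.re_add_im ξ, ← Quaternion.re_add_im ξ', add_mul, mul_add, h', h,
    Quaternion.coe_commutes]

theorem Dat.normal {ξ η c ξ' η' c' : ℍ[ℝ]} (h : Dat ξ η c) (h' : Dat ξ' η' c') :
    ∃ q q', Quaternion.normSq q = 1 ∧ Quaternion.normSq q' = 1 ∧ q⁻¹ * ξ * q = ξ' ∧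
      q'⁻¹ * η * q' = η' ∧ star q * c * q' = c' := by
  obtain ⟨x, hx, h1, h2⟩ := exists_conj h.axes.1 h.axes.2.1 h.axes.2.2 h'.axes.1 h'.axes.2.1
    h'.axes.2.2
  have hs : (√3 : ℝ) ≠ 0 := by positivity
  rw [smul_mul_assoc, mul_smul_comm] at h1 h2
  replace h1 := smul_right_injective _ (by positivity) h1
  replace h2 := smul_right_injective _ hs h2
  have hN : 0 < Quaternion.normSq x :=
    Quaternion.normSq_nonneg.lt_of_ne' (Quaternion.normSq_ne_zero.2 hx)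
  obtain ⟨q, hq, h3, h4⟩ : ∃ q, Quaternion.normSq q = 1 ∧ ξ.im * q = q * ξ'.im ∧
      c * η.im * star c * q = q * (c' * η'.im * star c') := by
    refine ⟨(√(Quaternion.normSq x))⁻¹ • x, ?_, ?_, ?_⟩
    · rw [Quaternion.normSq_smul, inv_pow, Real.sq_sqrt hN.le, inv_mul_cancel₀ hN.ne']
    · rw [smul_mul_assoc, mul_smul_comm, h1]
    · rw [smul_mul_assoc, mul_smul_comm, h2]
  obtain ⟨-, a2, -, a4, a5, -⟩ := h
  obtain ⟨-, b2, -, b4, b5, -⟩ := h'
  have q0 : q ≠ 0 := by rintro rfl; simp at hq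
  have c0 : c ≠ 0 := by rintro rfl; simp at a5; norm_num at a5
  have c0' : c' ≠ 0 := by rintro rfl; simp at b5; norm_num at b5
  have qs : star q = q⁻¹ := by
    refine (eq_inv_of_mul_eq_one_left ?_)
    rw [Quaternion.star_mul_self, hq, Quaternion.coe_one]
  have cs : star c = (2 / 3 : ℝ) • c⁻¹ := by
    rw [← mul_left_inj' c0, Quaternion.star_mul_self, a5, smul_mul_assoc, inv_mul_cancel₀ c0,
      ← Quaternion.coe_mul_eq_smul, mul_one]
  have cs' : star c' = (2 / 3 : ℝ) • c'⁻¹ := by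
    rw [← mul_left_inj' c0', Quaternion.star_mul_self, b5, smul_mul_assoc, inv_mul_cancel₀ c0',
      ← Quaternion.coe_mul_eq_smul, mul_one]
  rw [cs, cs', mul_smul_comm, mul_smul_comm, smul_mul_assoc, mul_smul_comm] at h4
  replace h4 := smul_right_injective _ (by norm_num) h4
  refine ⟨q, c⁻¹ * q * c', hq, ?_, ?_, ?_, ?_⟩
  · rw [map_mul, map_mul, map_inv₀, hq, a5, b5]
    norm_num
  · rw [mul_assoc, conj_of_im (a2.trans b2.symm) h3, inv_mul_cancel_left₀ q0]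
  · have h5 : η.im * (c⁻¹ * q * c') = c⁻¹ * q * c' * η'.im := by
      calc η.im * (c⁻¹ * q * c') = c⁻¹ * (c * η.im * c⁻¹ * q) * c' := by
            simp only [mul_assoc, inv_mul_cancel_left₀ c0]
        _ = c⁻¹ * q * c' * η'.im := by
            rw [h4]
            simp only [mul_assoc, inv_mul_cancel₀ c0', mul_one]
    rw [mul_assoc, conj_of_im (a4.trans b4.symm) h5,
      inv_mul_cancel_left₀ (mul_ne_zero (mul_ne_zero (inv_ne_zero c0) q0) c0')]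
  · simp only [qs, mul_assoc, mul_inv_cancel_left₀ c0, inv_mul_cancel_left₀ q0]

end Pool.Agent.P.MP_97ea17_al.Geo.G9Aux
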