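import Pool.Agent.P.MP_97ea17_al.F.G4
import Pool.Agent.P.MP_97ea17_al.F.G9a

/-! The ten lines of the group generated by a pair of reflections with perpendicular axes. -/

namespace Pool.Agent.P.MP_97ea17_al.Geo.G9Aux

open scoped Quaternion Matrix

/-- A third root of unity. -/
noncomputable def om : ℍ[ℝ] := ⟨-1 / 2, √3 / 2, 0, 0⟩

/-- The inner product of the two roots in the normal form. -/
noncomputable def cc : ℍ[ℝ] := ⟨1 / 2, √3 / 6, 1 / 2, √3 / 6⟩

/-- Four integers. -/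
abbrev Z4 : Type := ℤ × ℤ × ℤ × ℤ

/-- The quaternion with given coordinates in the basis `1, ω, j, ω j`. -/
noncomputable def qz (m : Z4) : ℍ[ℝ] :=
  ⟨m.1 - m.2.1 / 2, √3 * m.2.1 / 2, m.2.2.1 - m.2.2.2 / 2, √3 * m.2.2.2 / 2⟩

/-- Multiplication by `ω`. -/
def mo (m : Z4) : Z4 := (-m.2.1, m.1 - m.2.1, -m.2.2.2, m.2.2.1 - m.2.2.2)

/-- Multiplication by `j`. -/
def mj (m : Z4) : Z4 := (m.2.2.2 - m.2.2.1, m.2.2.2, m.1 - m.2.1, -m.2.1)

/-- The action of a generator on coordinates. -/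
def stp : Bool → Z4 × Z4 → Z4 × Z4
  | true, v => (mo v.1 - v.2 - mj v.2, v.2)
  | false, v => (v.1, mo v.2 + mo v.1 + mj v.1)

/-- The action of a word. -/
def run : List Bool → Z4 × Z4 → Z4 × Z4
  | [], v => v
  | c :: l, v => stp c (run l v)

/-- The norm form. -/
def nz (m : Z4) : ℤ :=
  m.1 * m.1 - m.1 * m.2.1 + m.2.1 * m.2.1 + m.2.2.1 * m.2.2.1 - m.2.2.1 * m.2.2.2 + m.2.2.2 * m.2.2.2

/-- The coefficients of the squared cosine. -/
def cf : Z4 × Z4 → ℤ × ℤ × Z4
  | ((a, b, c, d), (e, f, g, h)) => (nz (a, b, c, d), nz (e, f, g, h),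
      2 * a * e - a * f - b * e + 2 * b * f + 2 * c * g - c * h - d * g + 2 * d * h,
      -a * f + b * e - c * h + d * g,
      -2 * a * g + a * h + b * g + b * h + 2 * c * e - c * f - d * e - d * f,
      -a * h + b * h - b * g + c * f - d * f + d * e)

theorem hs : (√3 : ℝ) * √3 = 3 := Real.mul_self_sqrt (by norm_num)

theorem dat0 : Dat om om cc := by
  have := hs
  refine ⟨?_, rfl, ?_, rfl, ?_, ?_⟩
  · simp [Quaternion.normSq_def', om]; grind
  · simp [Quaternion.normSq_def', om]; grind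
  · simp [Quaternion.normSq_def', cc]; grind
  · simp [om, cc]

theorem qz_a (m k : Z4) : qz (mo m - k - mj k) = qz m - (1 - om) * (qz m + cc * qz k) := by
  have := hs
  ext <;> simp [qz, mo, mj, om, cc] <;> grind

theorem qz_b (m k : Z4) : qz (mo k + mo m + mj m) = qz k - (1 - om) * (star cc * qz m + qz k) := by
  have := hs
  ext <;> simp [qz, mo, mj, om, cc] <;> grind

theorem normSq_co (α β P Q : ℍ[ℝ]) : Quaternion.normSq (star α * P + star β * Q) =
    Quaternion.normSq α * Quaternion.normSq P + Quaternion.normSq β * Quaternion.normSq Q +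
      2 * ((α * star β).re * (P * star Q).re + (α * star β).imI * (P * star Q).imI +
        (α * star β).imJ * (P * star Q).imJ + (α * star β).imK * (P * star Q).imK) := by
  simp [Quaternion.normSq_def']
  ring

variable {n : ℕ} {W H : Subgroup (GH n)} {a b : V n}

/-- The vector with given coordinates. -/
noncomputable def D (a b : V n) (v : Z4 × Z4) : V n := rs a (qz v.1) + rs b (qz v.2)

/-- The linear form with given coefficients. -/
noncomputable def lf (a b x : V n) (c : ℤ × ℤ × Z4) : ℝ :=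
  c.1 * tt a x + c.2.1 * tt b x + c.2.2.1 * (ip a x * star (ip b x)).re
    + c.2.2.2.1 * (√3 * (ip a x * star (ip b x)).imI) + c.2.2.2.2.1 * (ip a x * star (ip b x)).imJ
    + c.2.2.2.2.2 * (√3 * (ip a x * star (ip b x)).imK)

theorem tt_D (a b x : V n) (v : Z4 × Z4) : tt (D a b v) x = lf a b x (cf v) := by
  obtain ⟨⟨m0, m1, m2, m3⟩, k0, k1, k2, k3⟩ := v
  rw [tt, D, ip_add_left, ip_rs_left, ip_rs_left, normSq_co, lf, tt, tt]
  generalize ip a x * star (ip b x) = R
  generalize Quaternion.normSq (ip a x) = p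
  generalize Quaternion.normSq (ip b x) = q
  have := hs
  simp [Quaternion.normSq_def', qz, cf, nz]
  grind

theorem D_a (a b : V n) : D a b ((1, 0, 0, 0), 0) = a := by
  ext1 i
  simp only [D, rs, Pi.add_apply]
  ext <;> simp [qz]

theorem D_b (a b : V n) : D a b (0, (1, 0, 0, 0)) = b := by
  ext1 i
  simp only [D, rs, Pi.add_apply]
  ext <;> simp [qz]

theorem D_na (a b : V n) : D a b ((-1, 0, 0, 0), 0) = -a := by
  ext1 i
  simp only [D, rs, Pi.add_apply]
  ext <;> simp [qz]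

theorem D_nb (a b : V n) : D a b (0, (-1, 0, 0, 0)) = -b := by
  ext1 i
  simp only [D, rs, Pi.add_apply]
  ext <;> simp [qz]

theorem run_spec (ha : Rl H a om) (hb : Rl H b om) (hc : ip a b = cc) (l : List Bool) :
    ∃ w ∈ H, (∀ y, ip a y = 0 → ip b y = 0 → w.val *ᵥ y = y) ∧
      ∀ v, w.val *ᵥ D a b v = D a b (run l v) := by
  obtain ⟨a1, -, -, r, hr, er⟩ := ha
  obtain ⟨b1, -, -, s, hs, es⟩ := hb
  induction l with
  | nil => exact ⟨1, H.one_mem, fun y _ _ => by simp, fun v => by simp [run]⟩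
  | cons c l ih =>
    obtain ⟨w, hw, h1, h2⟩ := ih
    cases c
    · refine ⟨s * w, H.mul_mem hs hw, fun y ya yb => ?_, fun v => ?_⟩
      · rw [Units.val_mul, ← Matrix.mulVec_mulVec, h1 y ya yb, es, reflMat_orth yb]
      · rw [Units.val_mul, ← Matrix.mulVec_mulVec, h2, es, reflMat_unit b1, run, stp, D, D, qz_b,
          ip_add_right, ip_rs_right, ip_rs_right, ip_self, b1, ← star_ip a b, hc,
          Quaternion.coe_one, one_mul, rs_sub, add_sub_assoc]
    · refine ⟨r * w, H.mul_mem hr hw, fun y ya yb => ?_, fun v => ?_⟩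
      · rw [Units.val_mul, ← Matrix.mulVec_mulVec, h1 y ya yb, er, reflMat_orth ya]
      · rw [Units.val_mul, ← Matrix.mulVec_mulVec, h2, er, reflMat_unit a1, run, stp, D, D, qz_a,
          ip_add_right, ip_rs_right, ip_rs_right, ip_self, a1, hc,
          Quaternion.coe_one, one_mul, rs_sub, add_sub_right_comm]

/-- The projection on the plane of the two roots. -/
noncomputable def pj (a b x : V n) : V n :=
  rs a ((3 : ℝ) • (ip a x - cc * ip b x)) + rs b ((3 : ℝ) • (ip b x - star cc * ip a x))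

theorem pj_perp (ha : nq a = 1) (hb : nq b = 1) (hc : ip a b = cc) (x : V n) :
    ip a (x - pj a b x) = 0 ∧ ip b (x - pj a b x) = 0 := by
  have := hs
  constructor
  · rw [ip_sub_right, pj, ip_add_right, ip_rs_right, ip_rs_right, ip_self, ha, hc]
    ext <;> simp [cc] <;> grind
  · rw [ip_sub_right, pj, ip_add_right, ip_rs_right, ip_rs_right, ip_self, hb, ← star_ip a b, hc]
    ext <;> simp [cc] <;> grind

theorem ip_pj (ha : nq a = 1) (hb : nq b = 1) (hc : ip a b = cc) (x : V n) :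
    ip x (pj a b x) = (nq (pj a b x) : ℝ) := by
  obtain ⟨h1, h2⟩ := pj_perp ha hb hc x
  rw [← ip_self, ← sub_eq_zero, ← ip_sub_left, ip_eq_zero_comm]
  nth_rw 1 [pj]
  rw [ip_add_left, ip_rs_left, ip_rs_left, h1, h2, mul_zero, mul_zero, add_zero]

theorem nq_pj (ha : nq a = 1) (hb : nq b = 1) (hc : ip a b = cc) (x : V n) :
    nq (pj a b x) = lf a b x (3, 3, -3, -1, -3, -1) := by
  have h := congrArg QuaternionAlgebra.re (ip_pj ha hb hc x)
  rw [Quaternion.re_coe] at h
  rw [← h, pj, ip_add_right, ip_rs_right, ip_rs_right, ← star_ip a x, ← star_ip b x, lf, tt, tt]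
  simp [Quaternion.normSq_def', cc]
  ring

theorem nq_sub_pj (ha : nq a = 1) (hb : nq b = 1) (hc : ip a b = cc) (x : V n) :
    nq (x - pj a b x) = nq x - nq (pj a b x) := by
  have h := nq_sub_rs (pj a b x) x 1
  rw [rs_one, mul_one, ip_pj ha hb hc, Quaternion.re_coe, map_one] at h
  linarith

/-- The words that give the ten lines. -/
def wd : Fin 10 → List Bool :=
  ![[], [true], [true, true], [false, true], [false, true, true], [true, false, true],
    [false, false, true], [false, false, true, true], [false, true, false, true],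
    [true, false, false, true]]

/-- The ten linear forms. -/
def co : Fin 10 → ℤ × ℤ × Z4 :=
  ![(0, 1, 0, 0, 0, 0), (2, 1, -2, 0, -2, 0), (2, 1, -1, -1, -1, -1), (2, 2, -1, -1, -3, -1),
    (2, 2, -3, -1, -2, 0), (1, 2, -2, 0, -1, -1), (2, 2, -3, -1, -1, -1), (2, 2, -2, 0, -3, -1),
    (1, 0, 0, 0, 0, 0), (1, 2, -1, -1, -2, 0)]

theorem co_eq : ∀ i, cf (run (wd i) (0, (1, 0, 0, 0))) = co i := by decide

theorem lines (ha : Rl H a om) (hb : Rl H b om) (hc : ip a b = cc) (i : Fin 10) :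
    ∃ w ∈ H, ∀ x, tt (w.val *ᵥ b) x = lf a b x (co i) := by
  obtain ⟨w, hw, -, h⟩ := run_spec ha hb hc (wd i)
  refine ⟨w, hw, fun x => ?_⟩
  rw [← co_eq, ← tt_D, ← h, D_b]

theorem nice_span (hW : Std W) (hM : ¬ Mono W) (ha : Rl W a om) (hb : Rl W b om)
    (hc : ip a b = cc) (v : V n) (va : ip a v = 0) (vb : ip b v = 0) : v = 0 := by
  obtain ⟨z, hz, z1, z2⟩ := run_spec ha hb hc
    [false, true, false, true, true, false, true, false, true, true]
  have za : z.val *ᵥ a = -a := by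
    have := z2 ((1, 0, 0, 0), 0)
    rwa [D_a, show run _ _ = ((-1, 0, 0, 0), 0) by decide, D_na] at this
  have zb : z.val *ᵥ b = -b := by
    have := z2 (0, (1, 0, 0, 0))
    rwa [D_b, show run _ _ = (0, (-1, 0, 0, 0)) by decide, D_nb] at this
  have key : ∀ x ζ, Rl W x ζ → ζ.re = -1 / 2 → nq (pj a b x) = 0 ∨ nq (pj a b x) = 1 := by
    intro x ζ hx hζ
    have t : ∀ i, Z5 (lf a b x (co i)) := fun i => by
      obtain ⟨w, hw, h⟩ := lines ha hb hc i
      rw [← h]
      exact z5_of (order3 hW hM (hb.act hW hw) hx rfl hζ).1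
    refine rho_cases ?_ ?_
    · have := ((((((t 2).add (t 4)).add (t 5)).add (t 7)).add (t 8)).add (t 9)).sub
        ((((t 0).add (t 1)).add (t 3)).add (t 6))
      convert this using 1
      rw [nq_pj ha.1 hb.1 hc]
      simp [lf, co]
      ring
    · have h1 : z.val *ᵥ x = x - pj a b x - pj a b x := by
        obtain ⟨h1, h2⟩ := pj_perp ha.1 hb.1 hc x
        have h3 : z.val *ᵥ pj a b x = -pj a b x := by
          rw [pj, Matrix.mulVec_add, mulVec_rs, mulVec_rs, za, zb, neg_rs, neg_rs, neg_add]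
        have h4 := z1 _ h1 h2
        rw [Matrix.mulVec_sub, h3, sub_neg_eq_add] at h4
        exact eq_sub_of_add_eq h4
      have h2 := (order3 hW hM hx (hx.act hW hz) hζ hζ).1
      rw [h1, tt, ip_sub_right, ip_sub_right, ip_pj ha.1 hb.1 hc, ip_self, ← Quaternion.coe_sub,
        ← Quaternion.coe_sub, Quaternion.normSq_coe, hx.1] at h2
      convert h2 using 2
      ring
  obtain ⟨c1, c2⟩ := comp hW hM (fun x => ∃ ζ, Rl W x ζ ∧ ζ.re = -1 / 2)
    (fun x ⟨_, h, _⟩ => h.1) (fun w hw x ⟨ζ, h, h'⟩ => ⟨ζ, h.act hW hw, h'⟩) ⟨a, om, ha, rfl⟩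
  have c3 := c1 (fun x => ∃ p q, x = rs a p + rs b q) a ⟨om, ha, rfl⟩
    ⟨1, 0, by rw [rs_one, rs_zero, add_zero]⟩ (by
      rintro _ y - ⟨ζ, hy, hζ⟩ ⟨p, q, rfl⟩ h
      rcases key y ζ hy hζ with h1 | h1
      · obtain ⟨h2, h3⟩ := pj_perp ha.1 hb.1 hc y
        rw [nq_eq_zero.1 h1, sub_zero] at h2 h3
        exact absurd (by rw [ip_add_left, ip_rs_left, ip_rs_left, h2, h3]; simp) h
      · have h2 := nq_sub_pj ha.1 hb.1 hc y
        rw [h1, hy.1, sub_self, nq_eq_zero, sub_eq_zero] at h2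
        exact ⟨_, _, h2⟩)
  refine c2 v fun x hx => ?_
  obtain ⟨p, q, rfl⟩ := c3 x hx
  rw [ip_add_left, ip_rs_left, ip_rs_left, va, vb]
  simp

theorem Rl.mono {x : V n} {ζ : ℍ[ℝ]} (hH : H ≤ W) (h : Rl H x ζ) : Rl W x ζ :=
  ⟨h.1, h.2.1, h.2.2.1, h.2.2.2.imp fun _ h' => ⟨hH h'.1, h'.2⟩⟩

theorem nice_line (hW : Std W) (hM : ¬ Mono W) (hH : H ≤ W) (ha : Rl H a om) (hb : Rl H b om)
    (hc : ip a b = cc) {x : V n} {ζ : ℍ[ℝ]} (hx : Rl W x ζ) (hζ : ζ.re = -1 / 2) :
    ∃ w ∈ H, tt (w.val *ᵥ b) x = 0 ∨ tt (w.val *ᵥ b) x = 1 := by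
  have h1 : lf a b x (3, 3, -3, -1, -3, -1) = 1 := by
    obtain ⟨h2, h3⟩ := pj_perp ha.1 hb.1 hc x
    have h4 := nice_span hW hM (Rl.mono hH ha) (Rl.mono hH hb) hc _ h2 h3
    rw [← nq_pj ha.1 hb.1 hc, ← sub_eq_zero.1 h4, hx.1]
  have h2 : Quaternion.normSq (ip a x * star (ip b x)) = tt a x * tt b x := by
    rw [map_mul, Quaternion.normSq_star, tt, tt]
  rw [Quaternion.normSq_def'] at h2
  have h3 := hs
  have t : ∀ i, T3 (lf a b x (co i)) := fun i => by
    obtain ⟨w, hw, h⟩ := lines ha hb hc i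
    rw [← h]
    exact (order3 hW hM ((Rl.mono hH hb).act hW (hH hw)) hx rfl hζ).1
  obtain ⟨i, hi⟩ : ∃ i, lf a b x (co i) = 0 ∨ lf a b x (co i) = 1 := by
    unfold lf at h1 t ⊢
    generalize ip a x * star (ip b x) = R at *
    generalize tt a x = p at *
    generalize tt b x = q at *
    refine ten _ t ?_ ?_ ?_ ?_ ?_ ?_ <;> simp [co] at h1 ⊢
    iterate 5 linarith
    grind
  obtain ⟨w, hw, h⟩ := lines ha hb hc i
  exact ⟨w, hw, by rwa [h]⟩

end Pool.Agent.P.MP_97ea17_al.Geo.G9Aux
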