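import Pool.Agent.P.MP_97ea17_al.F.G4
import Pool.Agent.P.MP_97ea17_al.F.ExcA
import Pool.Agent.P.MP_97ea17_al.F.G9b

/-! A pair of reflections of order three with perpendicular axes. -/

namespace Pool.Agent.P.MP_97ea17_al.Geo

open scoped Quaternion Matrix

variable {n : ℕ} {W : Subgroup (GH n)} {a b : V n} {ξ η : ℍ[ℝ]}

namespace G9Aux

variable {H : Subgroup (GH n)}

theorem normal (ha : Rl H a ξ) (hb : Rl H b η) (hd : Dat ξ η (ip a b)) {ξ' η' c' : ℍ[ℝ]}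
    (h' : Dat ξ' η' c') : ∃ q q', Quaternion.normSq q' = 1 ∧ Rl H (rs a q) ξ' ∧ Rl H (rs b q') η' ∧
      ip (rs a q) (rs b q') = c' := by
  obtain ⟨q, q', h1, h2, h3, h4, h5⟩ := hd.normal h'
  exact ⟨q, q', h2, h3 ▸ ha.rs h1, h4 ▸ hb.rs h2, by rw [ip_rs_left, ip_rs_right, ← mul_assoc, h5]⟩

theorem gen_line (hW : Std W) (hM : ¬ Mono W) (hH : H ≤ W) (ha : Rl H a ξ) (hb : Rl H b η)
    (hd : Dat ξ η (ip a b)) {x : V n} {ζ : ℍ[ℝ]} (hx : Rl W x ζ) (hζ : ζ.re = -1 / 2) :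
    ∃ w ∈ H, tt (w.val *ᵥ b) x = 0 ∨ tt (w.val *ᵥ b) x = 1 := by
  obtain ⟨q, q', h1, h2, h3, h4⟩ := normal ha hb hd dat0
  obtain ⟨w, hw, h⟩ := nice_line hW hM hH h2 h3 h4 hx hζ
  rw [mulVec_rs, tt_rs_left, h1, one_mul] at h
  exact ⟨w, hw, h⟩

theorem act' (hW : Std W) (hH : H ≤ W) (h : Rl H a ξ) {w : GH n} (hw : w ∈ H) :
    Rl H (w.val *ᵥ a) ξ := by
  obtain ⟨h1, h2, h3, r, hr, h4⟩ := h
  refine ⟨((hW.uni w (hH hw)).nq a).trans h1, h2, h3, w * r * w⁻¹,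
    H.mul_mem (H.mul_mem hw hr) (H.inv_mem hw), ?_⟩
  rw [Units.val_mul, Units.val_mul, h4, ← reflMat_conj (hW.uni w (hH hw)), mul_assoc,
    ← Units.val_mul, mul_inv_cancel, Units.val_one, mul_one]

theorem star' (h : Rl H a ξ) (h2 : ξ.re = -1 / 2) : Rl H a (star ξ) := by
  rw [← sq_eq_star h.2.1 h2]
  refine h.mul h fun e => ?_
  rw [sq_eq_star h.2.1 h2] at e
  have := congrArg QuaternionAlgebra.re e
  rw [Quaternion.re_star, h2, Quaternion.re_one] at this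
  norm_num at this

theorem re_conj (q ζ : ℍ[ℝ]) : (q * ζ * star q).re = Quaternion.normSq q * ζ.re := by
  simp [Quaternion.normSq_def']
  ring

theorem conj_back {q : ℍ[ℝ]} (hq : Quaternion.normSq q = 1) (ζ : ℍ[ℝ]) :
    q⁻¹ * (q * ζ * star q) * q = ζ := by
  have q0 : q ≠ 0 := by rintro rfl; simp at hq
  rw [mul_assoc, mul_assoc, Quaternion.star_mul_self, hq, Quaternion.coe_one, mul_one,
    inv_mul_cancel_left₀ q0]

theorem on_line (hW : Std W) (hM : ¬ Mono W) (hH : H ≤ W) (ha : Rl H a ξ) (hξ : ξ.re = -1 / 2)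
    {x : V n} {ζ : ℍ[ℝ]} (hx : Rl W x ζ) (hζ : ζ.re = -1 / 2) (ht : tt a x = 1) : Rl H x ζ := by
  have h1 := eq_rs_of_tt (a := a) (b := x) (by rw [ha.1]; exact one_ne_zero)
    (by rw [ht, ha.1, hx.1, mul_one])
  rw [ha.1, inv_one, one_smul] at h1
  have h2 : Par a ξ x ζ := (order3 hW hM (Rl.mono hH ha) hx hξ hζ).2.resolve_right fun h => by
    rw [ht] at h
    norm_num at h
  rw [Par, ← star_ip a x] at h2
  rw [tt] at ht
  generalize ip a x = q at h1 h2 ht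
  have h3 : Rl H a (q * ζ * star q) := by
    rcases comm_cases ha.2.1 hξ (by rw [map_mul, map_mul, Quaternion.normSq_star, ht, hx.2.1]; simp)
      (by rw [re_conj, ht, hζ, one_mul]) h2 with e | e <;> rw [e]
    exacts [ha, star' ha hξ]
  have h4 := h3.rs ht
  rwa [conj_back ht, ← h1] at h4

theorem le_of_rl (hW : Std W) (h : ∀ x ζ, Rl W x ζ → Rl H x ζ) : W ≤ H :=
  hW.le_of_refl H fun w _ x ζ hx e => by
    obtain ⟨-, -, -, r, hr, e'⟩ := h x ζ hx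
    rwa [Units.ext (e.trans e'.symm)]

theorem on_pair {e f : V 2} (he : nq e = 1) (hf : nq f = 1) (h : ip e f = 0) : ON ![e, f] := by
  intro i j
  fin_cases i <;> fin_cases j <;> simp [ip_self, he, hf, h, ip_eq_zero_comm.1 h]

theorem vec_two (e f : V 2) (c : Fin 2 → ℍ[ℝ]) : vec ![e, f] c = rs e (c 0) + rs f (c 1) := by
  simp [vec, Fin.sum_univ_two]

theorem perp_line {e f x : V 2} (he : nq e = 1) (hf : nq f = 1) (hx : nq x = 1) (h : ip e f = 0)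
    (h' : ip e x = 0) : tt f x = 1 := by
  have h1 := (on_pair he hf h).expand x
  rw [vec_two] at h1
  simp only [Matrix.cons_val_zero, Matrix.cons_val_one, h', rs_zero, zero_add] at h1
  rw [h1, nq_rs, hf, one_mul] at hx
  exact hx

theorem frame {x y : V 2} (hx : nq x = 1) (hy : nq y = 1) (ht : tt x y = 2 / 3) :
    ∃ g : GH 2, IsU g.val ∧ g.val *ᵥ ![1, 0] = y ∧
      g.val *ᵥ ![star (ip x y), ((√3)⁻¹ : ℝ)] = x := by
  have h3 : (√3 : ℝ) ≠ 0 := by positivity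
  have h1 : nq (rs (x - rs y (ip y x)) (√3 : ℝ)) = 1 := by
    rw [nq_rs, nq_sub_rs, ip_mul_ip, Quaternion.re_coe, Quaternion.normSq_coe, hx, hy, ← tt,
      tt_comm y x, ht, Real.sq_sqrt (by norm_num)]
    norm_num
  have h2 : ip y (rs (x - rs y (ip y x)) (√3 : ℝ)) = 0 := by
    rw [ip_rs_right, ip_sub_right, ip_rs_right, ip_self, hy, Quaternion.coe_one, one_mul, sub_self,
      zero_mul]
  obtain ⟨g, hg, h⟩ := (on_pair hy h1 h2).exists_GL
  refine ⟨g, hg, ?_, ?_⟩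
  · rw [h, vec_two]
    simp [rs_one, rs_zero]
  · rw [h, vec_two]
    simp only [Matrix.cons_val_zero, Matrix.cons_val_one]
    rw [rs_rs, ← Quaternion.coe_mul, mul_inv_cancel₀ h3, Quaternion.coe_one, rs_one, star_ip,
      add_sub_cancel]

theorem exists_pair {x y x' y' : V 2} (hx : nq x = 1) (hy : nq y = 1) (hx' : nq x' = 1)
    (hy' : nq y' = 1) (ht : tt x y = 2 / 3) (h : ip x' y' = ip x y) :
    ∃ g : GH 2, IsU g.val ∧ g.val *ᵥ x = x' ∧ g.val *ᵥ y = y' := by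
  obtain ⟨g, hg, h1, h2⟩ := frame hx hy ht
  obtain ⟨g', hg', h1', h2'⟩ := frame hx' hy' (by rw [tt, h, ← ht, tt])
  have hi : IsU (g⁻¹).val := by
    rw [hg.inv_val, IsU, Matrix.conjTranspose_conjTranspose]
    exact hg.mul_star
  refine ⟨g' * g⁻¹, hg'.mul hi, ?_, ?_⟩
  · rw [← h2, ← h2', h, Matrix.mulVec_mulVec, ← Units.val_mul, inv_mul_cancel_right]
  · rw [← h1, ← h1', Matrix.mulVec_mulVec, ← Units.val_mul, inv_mul_cancel_right]

/-- The first generator. -/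
def r1 : List ℤ × List (List ℤ) := ([-1, 1, 1, 1], [[-1, 0, -1, 1, 1], [-1, 1, 0, -1, 0, 0, 0, -1]])

/-- The second generator. -/
def r2 : List ℤ × List (List ℤ) :=
  ([-1, 1, 1, 1], [[0, 0, 0, -3, 0, 0, 1], [-2, -2, -1, 0, 0, 0, 0, 1]])

/-- The third generator. -/
def r3 : List ℤ × List (List ℤ) :=
  ([-1, 1, 1, 1], [[0, 0, 0, -3, 0, 0, 1], [2, 2, 1, 0, 0, 0, 0, -1]])

/-- The value of the generators. -/
noncomputable def x0 : ℍ[ℝ] := ⟨-1 / 2, 1 / 2, 1 / 2, 1 / 2⟩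

theorem xi1 : xi 3 r1 = x0 := by ext <;> simp [xi, r1, x0, quat] <;> norm_num

theorem rt1 : rt 2 3 r1 = ![⟨-1 + √3, 0, -1, 1⟩, ⟨-1, 1, 0, -1 - √3⟩] := by
  ext1 i
  fin_cases i <;> ext <;> simp [rt, r1, quat] <;> ring

theorem rt2 : rt 2 3 r2 = ![⟨0, 0, √3, -3⟩, ⟨-2, -2, -1, √3⟩] := by
  ext1 i
  fin_cases i <;> ext <;> simp [rt, r2, quat]

theorem rt3 : rt 2 3 r3 = ![⟨0, 0, √3, -3⟩, ⟨2, 2, 1, -√3⟩] := by
  ext1 i
  fin_cases i <;> ext <;> simp [rt, r3, quat]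

theorem nq1 : nq (rt 2 3 r1) = 12 := by
  have := hs
  simp [rt1, nq, Quaternion.normSq_def']
  grind

theorem nq2 : nq (rt 2 3 r2) = 24 := by
  have := hs
  simp [rt2, nq, Quaternion.normSq_def']
  grind

theorem nq3 : nq (rt 2 3 r3) = 24 := by
  have := hs
  simp [rt3, nq, Quaternion.normSq_def']
  grind

theorem ip12 : ip (rt 2 3 r1) (rt 2 3 r2) = ⟨-6 - 2 * √3, 2 + 2 * √3, 2 - 2 * √3, 2 - 6 * √3⟩ := by
  have := hs
  ext <;> simp [rt1, rt2, ip] <;> grind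

theorem ip13 : ip (rt 2 3 r1) (rt 2 3 r3) = ⟨0, -8, 4, 4⟩ := by
  have := hs
  ext <;> simp [rt1, rt3, ip] <;> grind

theorem ip23 : ip (rt 2 3 r2) (rt 2 3 r3) = 0 := by
  have := hs
  ext <;> simp [rt2, rt3, ip] <;> grind

theorem comm_x0 {p q : ℍ[ℝ]} (hp : Commute x0 p) (hq : Commute x0 q) : Commute p q := by
  have key : ∀ p : ℍ[ℝ], Commute x0 p → p.imJ = p.imI ∧ p.imK = p.imI := fun p hp => by
    have h1 := congrArg QuaternionAlgebra.imI hp.eq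
    have h2 := congrArg QuaternionAlgebra.imJ hp.eq
    simp [x0] at h1 h2
    constructor <;> linarith
  obtain ⟨h1, h2⟩ := key p hp
  obtain ⟨h3, h4⟩ := key q hq
  ext <;> simp [h1, h2, h3, h4] <;> ring

theorem refl_real (v : V n) (ζ : ℍ[ℝ]) {r : ℝ} (hr : 0 < r) : reflMat (rs v r) ζ = reflMat v ζ := by
  have h0 : (r : ℍ[ℝ]) ≠ 0 := fun h => hr.ne' (by simpa using congrArg QuaternionAlgebra.re h)
  rw [← reflMat_rs v ζ h0, mul_assoc, ← Quaternion.coe_commutes, inv_mul_cancel_left₀ h0]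

theorem model : ∃ A B C : V 2, nq A = 1 ∧ nq B = 1 ∧ nq C = 1 ∧ Dat x0 x0 (ip A B) ∧ ip B C = 0 ∧
    tt A C = 1 / 3 ∧ Par A x0 C x0 ∧ ∀ g : GH 2,
      reflMat (g.val *ᵥ A) x0 = reflMat (g.val *ᵥ rt 2 3 r1) (xi 3 r1) ∧
      reflMat (g.val *ᵥ B) x0 = reflMat (g.val *ᵥ rt 2 3 r2) (xi 3 r2) ∧
      reflMat (g.val *ᵥ C) x0 = reflMat (g.val *ᵥ rt 2 3 r3) (xi 3 r3) := by
  obtain ⟨α, hα, h1⟩ := exists_unit_rs (v := rt 2 3 r1) (by
    rw [Ne, ← nq_eq_zero, nq1]; norm_num)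
  obtain ⟨β, hβ, h2⟩ := exists_unit_rs (v := rt 2 3 r2) (by
    rw [Ne, ← nq_eq_zero, nq2]; norm_num)
  have h3 : nq (rs (rt 2 3 r3) β) = 1 := by rwa [nq_rs, nq3, ← nq2, ← nq_rs]
  have e1 := h1
  have e2 := h2
  rw [nq_rs, nq1, Quaternion.normSq_coe] at e1
  rw [nq_rs, nq2, Quaternion.normSq_coe] at e2
  have := hs
  have n0 : Quaternion.normSq x0 = 1 := by
    simp [Quaternion.normSq_def', x0]
    norm_num
  refine ⟨_, _, _, h1, h2, h3, ⟨n0, rfl, n0, rfl, ?_, ?_⟩, ?_, ?_, ?_, fun g => ?_⟩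
  · rw [ip_rs_left, ip_rs_right, ip12]
    simp [Quaternion.normSq_def']
    grind
  · rw [ip_rs_left, ip_rs_right, ip12]
    simp [x0]
    grind
  · rw [ip_rs_left, ip_rs_right, ip23, zero_mul, mul_zero]
  · rw [tt, ip_rs_left, ip_rs_right, ip13]
    simp [Quaternion.normSq_def']
    grind
  · rw [Par, ← star_ip (rs (rt 2 3 r1) α), ip_rs_left, ip_rs_right, ip13]
    ext <;> simp [x0] <;> ring
  · simp only [mulVec_rs, refl_real _ _ hα, refl_real _ _ hβ, xi1, true_and]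
    exact ⟨by rw [← xi1]; rfl, by rw [← xi1]; rfl⟩

theorem bound2 {W : Subgroup (GH 2)} {a b : V 2} (hW : Std W) (hM : ¬ Mono W) (ha : Rl W a ξ)
    (hb : Rl W b η) (hd : Dat ξ η (ip a b)) (h3 : ∀ x ζ, Rl W x ζ → ζ.re = -1 / 2) : Bound W := by
  obtain ⟨A, B, C, nA, nB, nC, dAB, hBC, hAC, pAC, hg⟩ := model
  obtain ⟨q, q', -, hA, hB, hAB⟩ := normal ha hb hd dAB
  obtain ⟨g, gU, gA, gB⟩ := exists_pair nA nB hA.1 hB.1 dAB.2.2.2.2.1 hAB
  rw [← gA] at hA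
  rw [← gB] at hB
  obtain ⟨g1, g2, g3⟩ := hg g
  have dd : Dat x0 x0 (ip (g.val *ᵥ A) (g.val *ᵥ B)) := by rwa [gU.ip]
  have mem : ∀ (R : List (List ℤ × List (List ℤ))) (r) (x : V 2), r ∈ R → Rl W x x0 →
      reflMat x x0 = reflMat (g.val *ᵥ rt 2 3 r) (xi 3 r) → Rl (cj g (grp 2 3 R)) x x0 :=
    fun R r x hr h e => ⟨h.1, h.2.1, h.2.2.1,
      h.2.2.2.imp fun w hw => ⟨gen_mem_cj gU hr (hw.2.trans e), hw.2⟩⟩
  by_cases h0 : ∃ x ζ, Rl W x ζ ∧ ip (g.val *ᵥ B) x = 0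
  · obtain ⟨x, ζ, hx, hBx⟩ := h0
    have nC' : nq (g.val *ᵥ C) = 1 := (gU.nq C).trans nC
    have hBC' : ip (g.val *ᵥ B) (g.val *ᵥ C) = 0 := (gU.ip B C).trans hBC
    have hC : Rl W (g.val *ᵥ C) x0 := by
      have h1 := perp_line hB.1 hx.1 nC' hBx hBC'
      have h2 := eq_rs_of_tt (a := x) (b := g.val *ᵥ C) (by rw [hx.1]; exact one_ne_zero)
        (by rw [h1, hx.1, nC', mul_one])
      rw [hx.1, inv_one, one_smul] at h2
      have h4 := hx.rs h1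
      rw [← h2] at h4
      generalize (ip x (g.val *ᵥ C))⁻¹ * ζ * ip x (g.val *ᵥ C) = ν at h4
      have h5 : Par (g.val *ᵥ A) x0 (g.val *ᵥ C) ν :=
        (order3 hW hM hA h4 rfl (h3 _ _ h4)).2.resolve_right fun h => by
          rw [gU.tt, hAC] at h
          norm_num at h
      rw [Par, gU.ip, gU.ip] at h5
      have h6 := (comm_x0 pAC h5).eq
      have c0 : ip A C ≠ 0 := fun e => by
        rw [tt_eq_zero.2 e] at hAC
        norm_num at hAC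
      have c1 : ip C A ≠ 0 := fun e => c0 (ip_eq_zero_comm.1 e)
      simp only [mul_assoc] at h6
      simp only [← mul_assoc (ip C A), ip_mul_ip, tt_comm C A, hAC, Quaternion.coe_mul_eq_smul,
        mul_smul_comm] at h6
      have h7 := mul_left_cancel₀ c0 (smul_right_injective _ (by norm_num) h6)
      rw [← mul_assoc, ← mul_assoc] at h7
      rcases comm_cases hA.2.1 rfl h4.2.1 (h3 _ _ h4) (mul_right_cancel₀ c1 h7) with e | e <;>
        rw [e] at h4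
      · exact h4
      · simpa using h4.star hW
    have h1 : ∀ r ∈ rO2, ∃ w ∈ W, w.val = reflMat (g.val *ᵥ rt 2 3 r) (xi 3 r) := by
      intro r hr
      have : r = r1 ∨ r = r2 ∨ r = r3 := by simpa [rO2, r1, r2, r3] using hr
      rcases this with rfl | rfl | rfl
      exacts [g1 ▸ hA.2.2.2, g2 ▸ hB.2.2.2, g3 ▸ hC.2.2.2]
    have hH := cj_grp_le gU h1
    have a2 := mem rO2 r1 _ (by simp [rO2, r1]) hA g1
    have b2 := mem rO2 r2 _ (by simp [rO2, r2]) hB g2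
    have c2 := mem rO2 r3 _ (by simp [rO2, r3]) hC g3
    refine bound_of_grp bd_O2 gU h1 (le_of_rl hW fun y μ hy => ?_)
    obtain ⟨w, hw, h | h⟩ := gen_line hW hM hH a2 b2 dd hy (h3 _ _ hy)
    · have wU := hW.uni w (hH hw)
      exact on_line hW hM hH (act' hW hH c2 hw) rfl hy (h3 _ _ hy)
        (perp_line ((wU.nq _).trans hB.1) ((wU.nq _).trans nC') hy.1 ((wU.ip _ _).trans hBC')
          (tt_eq_zero.1 h))
    · exact on_line hW hM hH (act' hW hH b2 hw) rfl hy (h3 _ _ hy) h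
  · have h1 : ∀ r ∈ rO1, ∃ w ∈ W, w.val = reflMat (g.val *ᵥ rt 2 3 r) (xi 3 r) := by
      intro r hr
      have : r = r1 ∨ r = r2 := by simpa [rO1, r1, r2] using hr
      rcases this with rfl | rfl
      exacts [g1 ▸ hA.2.2.2, g2 ▸ hB.2.2.2]
    have hH := cj_grp_le gU h1
    have a2 := mem rO1 r1 _ (by simp [rO1, r1]) hA g1
    have b2 := mem rO1 r2 _ (by simp [rO1, r2]) hB g2
    refine bound_of_grp bd_O1 gU h1 (le_of_rl hW fun y μ hy => ?_)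
    obtain ⟨w, hw, h | h⟩ := gen_line hW hM hH a2 b2 dd hy (h3 _ _ hy)
    · refine absurd ⟨_, μ, hy.act hW (W.inv_mem (hH hw)), ?_⟩ h0
      rw [← (hW.uni w (hH hw)).ip, Matrix.mulVec_mulVec y, ← Units.val_mul, mul_inv_cancel,
        Units.val_one, Matrix.one_mulVec]
      exact tt_eq_zero.1 h
    · exact on_line hW hM hH (act' hW hH b2 hw) rfl hy (h3 _ _ hy) h

end G9Aux

theorem caseO (hW : Std W) (hM : ¬ Mono W) (ha : Rl W a ξ) (hb : Rl W b η)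
    (hξ : ξ.re = -1 / 2) (hη : η.re = -1 / 2) (ht : tt a b = 2 / 3) (hp : Perp a ξ b η) :
    n = 2 ∧ ((∀ x ζ, Rl W x ζ → ζ.re = -1 / 2) → Bound W) := by
  have hd : G9Aux.Dat ξ η (ip a b) := ⟨ha.2.1, hξ, hb.2.1, hη, ht, by rwa [star_ip]⟩
  have hn : n = 2 := by
    obtain ⟨q, q', -, h2, h3, h4⟩ := G9Aux.normal ha hb hd G9Aux.dat0
    by_contra h0
    rcases Nat.lt_or_gt_of_ne h0 with h | h
    · exact hM (mono_small hW (by omega))
    · obtain ⟨v, hv, h1⟩ := exists_orth h ![rs a q, rs b q']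
      rw [G9Aux.nice_span hW hM h2 h3 h4 v (h1 0) (h1 1), nq_eq_zero.2 rfl] at hv
      exact zero_ne_one hv
  subst hn
  exact ⟨rfl, G9Aux.bound2 hW hM ha hb hd⟩

end Pool.Agent.P.MP_97ea17_al.Geo
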