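import Pool.Agent.P.MP_97ea17_al.Link
import Pool.Agent.P.MP_97ea17_al.DefsE

/-! Geometry of unitary quaternionic reflection groups: definitions. -/

namespace Pool.Agent.P.MP_97ea17_al.Geo

open scoped Quaternion Matrix

/-- Column vectors. -/
abbrev V (n : ℕ) := Fin n → ℍ[ℝ]

/-- Invertible matrices. -/
abbrev GH (n : ℕ) := GL (Fin n) ℍ[ℝ]

variable {n : ℕ}

/-- Hermitian inner product. -/
noncomputable def ip (u v : V n) : ℍ[ℝ] := ∑ i, star (u i) * v i

/-- Square of the norm. -/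
noncomputable def nq (v : V n) : ℝ := ∑ i, Quaternion.normSq (v i)

/-- Multiplication by a scalar, on the right. -/
noncomputable def rs (v : V n) (q : ℍ[ℝ]) : V n := fun i => v i * q

/-- Square of the absolute value of the inner product. -/
noncomputable def tt (a b : V n) : ℝ := Quaternion.normSq (ip a b)

/-- Linear combination with coefficients on the right. -/
noncomputable def vec {r : ℕ} (e : Fin r → V n) (c : Fin r → ℍ[ℝ]) : V n := ∑ i, rs (e i) (c i)

/-- Orthonormal families. -/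
def ON {r : ℕ} (e : Fin r → V n) : Prop := ∀ i j, ip (e i) (e j) = if i = j then 1 else 0

/-- Unitary matrices. -/
def IsU (g : Matrix (Fin n) (Fin n) ℍ[ℝ]) : Prop := gᴴ * g = 1

/-- Irreducible reflection groups of unitary matrices. -/
structure Std (W : Subgroup (GH n)) : Prop where
  irr : IsIrredReflGroup W
  uni : ∀ w ∈ W, IsU w.val

/-- `W` contains the reflection with unit root `a` and value `ξ`. -/
def Rl (W : Subgroup (GH n)) (a : V n) (ξ : ℍ[ℝ]) : Prop :=
  nq a = 1 ∧ Quaternion.normSq ξ = 1 ∧ ξ ≠ 1 ∧ ∃ w ∈ W, w.val = reflMat a ξ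

/-- `W` permutes the lines of an orthonormal basis. -/
def Mono (W : Subgroup (GH n)) : Prop :=
  ∃ f : Fin n → V n, ON f ∧ ∀ w ∈ W, ∀ i, ∃ j q, w.val *ᵥ f i = rs (f j) q

/-- `W` commutes with a complex structure. -/
def Cpx (W : Subgroup (GH n)) : Prop :=
  ∃ J : Matrix (Fin n) (Fin n) ℍ[ℝ], IsU J ∧ J * J = -1 ∧ ∀ w ∈ W, w.val * J = J * w.val

/-- `W` normalises a complex structure up to sign. -/
def NJ (W : Subgroup (GH n)) : Prop :=
  ∃ J : Matrix (Fin n) (Fin n) ℍ[ℝ], IsU J ∧ J * J = -1 ∧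
    ∀ w ∈ W, w.val * J = J * w.val ∨ w.val * J = -(J * w.val)

/-- The set `S` is connected under non-orthogonality and spans the space. -/
def Conn (S : V n → Prop) : Prop :=
  (∀ P : V n → Prop, ∀ a, S a → P a → (∀ x y, S x → S y → P x → ip x y ≠ 0 → P y) →
    ∀ x, S x → P x) ∧ ∀ v, (∀ x, S x → ip x v = 0) → v = 0

/-- The values of two reflections commute after transport. -/
def Par (a : V n) (ξ : ℍ[ℝ]) (b : V n) (η : ℍ[ℝ]) : Prop := Commute ξ (ip a b * η * ip b a)

/-- The axes of two reflections are perpendicular after transport. -/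
def Perp (a : V n) (ξ : ℍ[ℝ]) (b : V n) (η : ℍ[ℝ]) : Prop :=
  (ξ.im * (ip a b * η.im * ip b a)).re = 0

/-- The admissible values of four times the squared cosine. -/
def S4 (x : ℝ) : Prop :=
  x = 0 ∨ x = 1 ∨ x = 2 ∨ x = (3 + √5) / 2 ∨ x = (3 - √5) / 2 ∨ x = 4

/-- The admissible real parts. -/
def Re5 (x : ℝ) : Prop :=
  x = -1 ∨ x = -1 / 2 ∨ x = 0 ∨ x = (√5 - 1) / 4 ∨ x = (-√5 - 1) / 4

/-- The admissible squared cosines for reflections of order three. -/
def T3 (x : ℝ) : Prop :=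
  x = 0 ∨ x = 1 / 3 ∨ x = 2 / 3 ∨ x = (3 + √5) / 6 ∨ x = (3 - √5) / 6 ∨ x = 1

/-- Triangles with a common edge have commuting holonomy. -/
def H4 (S : V n → Prop) : Prop :=
  ∀ a b x y, S a → S b → S x → S y →
    Commute (ip a b * ip b x * ip x a) (ip a b * ip b y * ip y a)

end Pool.Agent.P.MP_97ea17_al.Geo
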