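import Pool.Agent.P.MP_97ea17_al.F.KDefs
import Pool.Agent.P.MP_97ea17_al.F.E3

/-! Correctness of the computations with vectors. -/

namespace Pool.Agent.P.MP_97ea17_al.Geo

open scoped Quaternion
open Ck Finset

variable {n m : ℕ} {W H : Subgroup (GH n)} {e : ℕ → V n} {U : V n → Prop}
  {a b c u v : List Q4} {B C M : List (List Q4)}

theorem val_z : R4.z.val 5 = 0 := by
  simp [R4.z, R4.val]

theorem val_o : R4.o.val 5 = 1 := by
  simp [R4.o, R4.val]

theorem val_wv {s : ℕ} (hs : s < 6) : (wv s).val 5 = vl s := by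
  have h : ∀ a b c d : ℕ, (R4.mk a b c d).val 5 = a - b + (c - d) * √5 := fun a b c d => by
    simp only [R4.val, Nat.cast_ofNat]
  interval_cases s
  · exact (h 0 0 0 0).trans (by simp [vl])
  · exact (h 2 0 0 0).trans (by simp [vl])
  · exact (h 4 0 0 0).trans (by simp [vl])
  · exact (h 3 0 0 1).trans (by simp [vl, sub_eq_add_neg])
  · exact (h 3 0 1 0).trans (by simp [vl])
  · exact (h 8 0 0 0).trans (by simp [vl])

theorem val_ng (x : Q4) : x.ng.val 5 = -x.val 5 := by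
  obtain ⟨a, b, c, d⟩ := x
  ext <;> simp [Q4.ng, Q4.val, R4.val_neg]

theorem val_rQ4 (r : R4) : (rQ4 r).val 5 = (r.val 5 : ℝ) := by
  ext <;> simp [rQ4, Q4.val, val_z]

theorem val_a (x : Q4) : x.a.val 5 = (x.val 5).re := rfl

theorem val_nqR (x : Q4) : (nqR x).val 5 = Quaternion.normSq (x.val 5) := by
  obtain ⟨a, b, c, d⟩ := x
  simp only [nqR, Q4.val, R4.val_add, R4.val_mul, Quaternion.normSq_def']
  ring

theorem val_sumR (k : ℕ) (f : ℕ → R4) : (sumR k f).val 5 = ∑ i ∈ range k, (f i).val 5 := by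
  induction k with
  | zero => exact val_z
  | succ k ih => rw [Finset.sum_range_succ_comm, ← ih, ← R4.val_add]; rfl

theorem val_ipL : (ipL m u v).val 5 = ipc m (qv u) (qv v) := by
  simp only [ipL, val_sumQ, Q4.val_mul, Q4.val_cnj, ipc, qv]

theorem val_nqL : (nqL m u).val 5 = nqc m (qv u) := by
  simp only [nqL, val_sumR, val_nqR, nqc, qv]

theorem beqR_iff {x y : R4} : x.beq y = true ↔ x.val 5 = y.val 5 := by
  exact ⟨R4.val_beq, R4.beq_val Nat.prime_five⟩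

theorem beqQ_iff {x y : Q4} : x.beq y = true ↔ x.val 5 = y.val 5 := by
  refine ⟨Q4.val_beq, fun h => ?_⟩
  obtain ⟨a, b, c, d⟩ := x
  obtain ⟨e, f, g, k⟩ := y
  simp only [Q4.beq, nd_iff, beqR_iff]
  exact ⟨congrArg QuaternionAlgebra.re h, congrArg QuaternionAlgebra.imI h,
    congrArg QuaternionAlgebra.imJ h, congrArg QuaternionAlgebra.imK h⟩

theorem nzR_iff {x : R4} : nzR x = true ↔ x.val 5 ≠ 0 := by
  rw [nzR, nt_iff, beqR_iff, val_z]

theorem ngR_spec {x : R4} (h : ngR x = true) : x.val 5 < 0 := by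
  rw [ngR, frcR4_eq] at h
  rw [← val_nrR]
  generalize nrR x = y at h
  obtain ⟨a, b, c, d⟩ := y
  have h1 : a * 1000000000 + c * 2236067978 < b * 1000000000 + d * 2236067977 := Nat.blt_eq.mp h
  have h2 : (a : ℝ) * 1000000000 + c * 2236067978 < b * 1000000000 + d * 2236067977 := by
    exact_mod_cast h1
  have h3 : √5 ≤ (2.236067978 : ℝ) := Real.sqrt_le_iff.2 ⟨by norm_num, by norm_num⟩
  have h4 : (2.236067977 : ℝ) ≤ √5 := Real.le_sqrt_of_sq_le (by norm_num)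
  have h5 := mul_le_mul_of_nonneg_left h3 (Nat.cast_nonneg (α := ℝ) c)
  have h6 := mul_le_mul_of_nonneg_left h4 (Nat.cast_nonneg (α := ℝ) d)
  simp only [R4.val, Nat.cast_ofNat]
  linarith

theorem cmQ_iff {x y : Q4} : cmQ x y = true ↔ Commute (x.val 5) (y.val 5) := by
  rw [cmQ, beqQ_iff, Q4.val_mul, Q4.val_mul]
  rfl

theorem tb_iff (s t u v : ℕ) :
    tb s t u v = true ↔ TT / 2 ^ (s + 8 * t + 64 * u + 512 * v) % 2 = 1 := by
  rw [tb, Nat.beq_eq, ← Nat.shiftRight_eq_div_pow, add_assoc (s + 8 * t)]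
  rfl

theorem qv_short {i : ℕ} (h : c.length ≤ i) : qv c i = 0 := by
  rw [qv, qt, nth_eq, List.getD_eq_default _ _ h, Q4.val_zero]

theorem qv_nil : qv [] = fun _ => 0 := by
  exact funext fun i => qv_short (Nat.zero_le i)

theorem qv_zQ (l : List (List ℤ)) : qv (l.map zQ) = fun i => quat 5 (l.getD i []) := by
  ext1 i
  have h : Q4.zero = zQ [] := rfl
  rw [qv, qt, nth_eq, h, List.getD_map, val_zQ]

theorem mkV_spec {f : ℕ → Q4} {k : List Q4 → Bool} (h : mkV m f k = true) :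
    ∃ z, (∀ i < m, qv z i = (f i).val 5) ∧ k z = true := by
  rw [mkV, frcQ_eq] at h
  refine ⟨_, fun i hi => ?_, h⟩
  rw [qv_nrQ, qv, qt, nth_eq, List.getD_eq_getElem _ _ (by simpa using hi), List.getElem_map,
    List.getElem_range]

theorem srL_spec (he : On m e) {k : List Q4 → Bool} (h : srL m u v k = true) :
    ∃ z, vc m e (qv z) = sr (vc m e (qv u)) (vc m e (qv v)) ∧ k z = true := by
  rw [srL, frcQ4_eq, frcR4_eq] at h
  obtain ⟨z, hz, hk⟩ := mkV_spec h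
  refine ⟨z, ?_, hk⟩
  rw [← he.vc_sr]
  refine vc_congr (fun _ _ => rfl) fun i hi => ?_
  rw [hz i hi, Q4.val_add, Q4.val_rm, Q4.val_mul, val_nrR, val_nrQ, val_ng, Q4.val_sm, val_ipL,
    val_nqL, neg_smul, Nat.cast_ofNat]
  rfl

theorem k1_rtK (he : On m e) {k : R4 → R4 → Bool} (h : rtK m u v k = true) :
    vc m e (qv u) ≠ 0 ∧ vc m e (qv v) ≠ 0 ∧ ∃ p q, (∀ s < 6, (q.beq (R4.mul 5 (wv s) p) = true ↔
      rat (vc m e (qv u)) (vc m e (qv v)) = vl s)) ∧ k p q = true := by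
  rw [rtK, frcR4_eq, frcR4_eq, frcQ4_eq, nd_iff, nd_iff, nzR_iff, nzR_iff, frcR4_eq, frcR4_eq,
    val_nrR, val_nrR, val_nqL, val_nqL, ← he.nq_vc, ← he.nq_vc] at h
  obtain ⟨h1, h2, h3⟩ := h
  have h4 := mt nq_eq_zero.2 h1
  have h5 := mt nq_eq_zero.2 h2
  refine ⟨h4, h5, _, _, fun s hs => ?_, h3⟩
  rw [beqR_iff, rat_eq h4 h5, tt, he.ip_vc, he.nq_vc, he.nq_vc]
  simp only [val_nrR, R4.val_sm, R4.val_mul, val_nqR, val_nrQ, val_ipL, val_nqL, val_wv hs,
    Nat.cast_ofNat]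

theorem ratL_spec (he : On m e) {s : ℕ} (hs : s < 6) (h : ratL m u v s = true) :
    vc m e (qv u) ≠ 0 ∧ vc m e (qv v) ≠ 0 ∧ rat (vc m e (qv u)) (vc m e (qv v)) = vl s := by
  obtain ⟨h1, h2, p, q, h3, h4⟩ := k1_rtK he h
  exact ⟨h1, h2, (h3 s hs).1 h4⟩

theorem parL_spec (he : On m e) (h : ratL m u v 5 = true) :
    vc m e (qv v) ≠ 0 ∧ Pl (vc m e (qv u)) (vc m e (qv v)) := by
  obtain ⟨h1, h2, h3⟩ := ratL_spec he (by norm_num) h
  refine ⟨h2, pl_of_tt h1 h2 ?_⟩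
  have h4 := (rat_eq h1 h2).1 h3
  have h5 : vl 5 = 8 := rfl
  rw [h5] at h4
  linarith

theorem badL_spec (he : On m e) (h : badL m u v = true) :
    vc m e (qv u) ≠ 0 ∧ vc m e (qv v) ≠ 0 ∧
      ∀ s < 6, rat (vc m e (qv u)) (vc m e (qv v)) ≠ vl s := by
  obtain ⟨h1, h2, p, q, h3, h4⟩ := k1_rtK he h
  exact ⟨h1, h2, fun s hs h5 => (nt_iff _).1 ((allN_iff _ _).1 h4 s hs) ((h3 s hs).2 h5)⟩

theorem mirL_spec (he : On m e) (h : mirL m a b c = true) :
    Pl (vc m e (qv c)) (sr (vc m e (qv a)) (vc m e (qv b))) := by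
  obtain ⟨z, hz, h1⟩ := srL_spec he h
  exact hz ▸ (parL_spec he h1).2

theorem triL_spec (he : On m e) {s : ℕ} (h : triL m a b c s = true) :
    s < 6 ∧ rat (vc m e (qv a)) (vc m e (qv b)) = vl s ∧
      Pl (vc m e (qv c)) (sr (vc m e (qv a)) (vc m e (qv b))) := by
  obtain ⟨h1, h2⟩ := (nd_iff _ _).1 h
  obtain ⟨h3, h4⟩ := (nd_iff _ _).1 h2
  have h5 : s < 6 := Nat.blt_eq.mp h1
  exact ⟨h5, (ratL_spec he h5 h3).2.2, mirL_spec he h4⟩

theorem wd_spec (he : On m e) (hB : Ro H m e B) {w : List ℕ} {k : List Q4 → Bool}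
    (h : wd m B w k = true) :
    ∃ z, (vc m e (qv z) = 0 ∨ Sg H (vc m e (qv z))) ∧ k z = true := by
  have h0 : ∀ j, vc m e (qv (nth [] B j)) = 0 ∨ Sg H (vc m e (qv (nth [] B j))) := fun j => by
    rcases List.mem_cons.1 (nth_mem [] B j) with h1 | h1
    · left
      rw [h1, qv_nil]
      exact Finset.sum_eq_zero fun i _ => rs_zero _
    · exact Or.inr (hB _ h1)
  have key : ∀ (r : List ℕ) (v : List Q4), (vc m e (qv v) = 0 ∨ Sg H (vc m e (qv v))) →
      wdA m B r v k = true → ∃ z, (vc m e (qv z) = 0 ∨ Sg H (vc m e (qv z))) ∧ k z = true := by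
    intro r
    induction r with
    | nil => exact fun v hv h => ⟨v, hv, h⟩
    | cons g r ih =>
      intro v hv h
      obtain ⟨z, hz, h1⟩ := srL_spec he (u := nth [] B g) (v := v) (k := fun u => wdA m B r u k) h
      refine ih z ?_ h1
      rw [hz]
      rcases h0 g with h2 | h2
      · exact Or.inl (by rw [h2, sr_zero_left])
      · rcases hv with h3 | h3
        · exact Or.inl (by rw [h3, sr_zero_right])
        · exact Or.inr (h2.sr h3)
  cases w with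
  | nil => cases h
  | cons j r => exact key r _ (h0 j) h

theorem chkW_spec (he : On m e) (hB : Ro H m e B) {w : List ℕ} (h : chkW m B c w = true) :
    Sg H (vc m e (qv c)) := by
  obtain ⟨z, hz, h1⟩ := wd_spec he hB h
  obtain ⟨h2, h3⟩ := parL_spec he h1
  exact (hz.resolve_left h2).pl h3

theorem chkL_spec (he : On m e) (hB : Ro H m e B) {ws : List (List ℕ)}
    (h : chkL m B C ws = true) : Ro H m e C := by
  rw [chkL, frcL_eq, frcL_eq] at h
  refine ro_nrQ.1 fun c hc => ?_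
  obtain ⟨w, -, hw⟩ := all2_spec h c hc
  exact chkW_spec he (ro_nrQ.2 hB) hw

theorem mvL_spec {r : ℕ} {k : List Q4 → Bool} (h : mvL m r M c k = true) :
    ∃ z, (∀ i < m, qv z i = ∑ j ∈ range r, qv (nth [] M j) i * qv c j) ∧ k z = true := by
  obtain ⟨z, hz, h1⟩ := mkV_spec h
  refine ⟨z, fun i hi => ?_, h1⟩
  rw [hz i hi, val_sumQ]
  exact Finset.sum_congr rfl fun j _ => Q4.val_mul _ _

theorem trW_spec (hB : Has W U m B) {ws : List (List ℕ)} (h : trW m B M C ws = true) :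
    Has W U m C := by
  obtain ⟨e, he, hB, hU⟩ := hB
  rw [trW, frcR4_eq, nd_iff, nd_iff, nzR_iff] at h
  obtain ⟨h1, h2, h3⟩ := h
  obtain ⟨e', he', h4, h5⟩ := trans_frame he (fun j => qv (nth [] M j)) h1 fun i hi j hj => by
    have h6 := beqQ_iff.1 ((allN_iff _ _).1 ((allN_iff _ _).1 h2 i hi) j hj)
    rw [val_ipL, cnd_eq] at h6
    rw [h6]
    simp only [Nat.beq_eq]
    split_ifs
    · exact val_rQ4 _
    · exact Q4.val_zero
  refine ⟨e', he', fun c hc => ?_, fun v hv => h5 v (hU v hv)⟩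
  obtain ⟨w, -, hw⟩ := all2_spec h3 c hc
  obtain ⟨z, hz, h7⟩ := mvL_spec hw
  refine Sg.pl ?_ (h4 (qv c))
  rw [← vc_congr (fun _ _ => rfl) hz]
  exact chkW_spec he hB h7

theorem kil_spec (hA : Ang W) {tg : List (ℕ × List (List Q4))}
    (htg : ∀ t ∈ tg, ¬ Has W U t.1 t.2) {p : Po} (h : kil tg m B p = true) : ¬ Has W U m B := by
  intro hB
  cases p with
  | bad u v =>
    obtain ⟨e, he, hB, -⟩ := hB
    obtain ⟨a, ha, h1⟩ := wd_spec he hB h
    obtain ⟨b, hb, h2⟩ := wd_spec he hB h1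
    obtain ⟨h3, h4, h5⟩ := badL_spec he h2
    obtain ⟨s, hs, h6⟩ := hA _ _ (ha.resolve_left h3) (hb.resolve_left h4)
    exact h5 s hs h6
  | tr t M ws =>
    rw [kil, nd_iff, nd_iff, frcL_eq, frcL_eq, Nat.blt_eq, Nat.beq_eq] at h
    obtain ⟨h1, h2, h3⟩ := h
    obtain ⟨e, he, h4, h5⟩ := trW_spec hB h3
    rcases List.mem_cons.1 (nth_mem (0, []) tg t) with h6 | h6
    · rw [h6] at h2
      exact h1.ne h2
    · exact htg _ h6 (h2 ▸ ⟨e, he, ro_nrQ.1 h4, h5⟩)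
  | non => cases h
  | mem _ => cases h
  | uu => cases h

theorem chkS_spec {s t k l : ℕ} (hs : s < 6) (ht : t < 6) (hk : k < 6) (hl : l < 6)
    (h : chkS m s t k l M C = true) {a b x : V n} (ha : Sg W a) (hb : Sg W b) (hx : Sg W x)
    (hT : Tr a b x s t k l) : Has W (fun y => y = a ∨ y = b ∨ y = x) m M := by
  rw [chkS, frcL_eq, frcL_eq] at h
  simp only [nd_iff, nzR_iff, Nat.beq_eq, allN_iff] at h
  obtain ⟨h1, h2, h3, h4, h5, h6, h7, h8⟩ := h
  suffices Has W (fun y => y = a ∨ y = b ∨ y = x) m (M.map (List.map nrQ)) by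
    obtain ⟨e, he, h9, h10⟩ := this
    exact ⟨e, he, ro_nrQ.1 h9, h10⟩
  generalize M.map (List.map nrQ) = M' at h1 h2 h3 h4 h7 h8 ⊢
  obtain ⟨α, β, γ, rfl⟩ := List.length_eq_three.1 h7
  obtain ⟨f, hf⟩ := exists_on m
  obtain ⟨a1, a2, a3⟩ := ratL_spec (u := α) (v := β) hf hs h1
  obtain ⟨-, a4, a5⟩ := ratL_spec (u := α) (v := γ) hf ht h2
  obtain ⟨-, -, a6⟩ := ratL_spec (u := β) (v := γ) hf hk h3
  obtain ⟨z, hz, a7⟩ := srL_spec (u := α) (v := β) hf h4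
  obtain ⟨-, -, a8⟩ := ratL_spec (v := γ) hf hl a7
  rw [hz] at a8
  rw [val_wv hs] at h5
  rw [val_wv ht] at h6
  obtain ⟨e, he, p1, p2, p3⟩ := tri_frame hf ha.1 hb.1 hx.1 a1 a2 a4 (hT.1.trans a3.symm)
    (hT.2.1.trans a5.symm) (hT.2.2.1.trans a6.symm) (hT.2.2.2.trans a8.symm) (hT.1 ▸ h5)
    (hT.2.1 ▸ h6) fun i hi => by
      obtain ⟨y, hy, b1⟩ := mvL_spec (h8 i hi)
      rw [allN_iff] at b1
      simp only [Finset.sum_range_succ, Finset.range_zero, Finset.sum_empty, zero_add] at hy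
      refine ⟨_, _, _, fun b2 => ?_, fun j hj hji => (hy j hj).symm.trans ?_⟩
      · have b3 := b1 i hi
        rw [cnd_eq, if_pos (Nat.beq_refl i), nzR_iff, val_nqR] at b3
        exact b3 (Quaternion.normSq_eq_zero.2 ((hy i hi).trans b2))
      · have b3 := b1 j hj
        rw [cnd_eq, if_neg (mt Nat.eq_of_beq_eq_true hji), beqQ_iff, Q4.val_zero] at b3
        exact b3
  refine ⟨e, he, ?_, ?_⟩
  · simp only [Ro, List.forall_mem_cons, List.not_mem_nil, false_imp_iff, implies_true, and_true]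
    exact ⟨ha.pl p1, hb.pl p2, hx.pl p3⟩
  · rintro v (rfl | rfl | rfl)
    · exact Sp.pl ⟨_, rfl⟩ p1.symm
    · exact Sp.pl ⟨_, rfl⟩ p2.symm
    · exact Sp.pl ⟨_, rfl⟩ p3.symm

end Pool.Agent.P.MP_97ea17_al.Geo
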