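import Pool.Agent.P.MP_97ea17_al.F.K1
import Pool.Agent.P.MP_97ea17_al.F.E1
import Pool.Agent.P.MP_97ea17_al.F.E4

/-! Correctness of the analysis of a list of angles. -/

namespace Pool.Agent.P.MP_97ea17_al.Geo

open scoped Quaternion
open Ck

variable {n : ℕ} {W : Subgroup (GH n)} {e : ℕ → V n} {S : Sr} {x : V n}

namespace K2

theorem qv_rt (L : List (List Q4)) (k : ℕ) :
    qv (nth [] (L.map (List.map nrQ)) k) = qv (nth [] L k) := by
  rw [nth_nrQ, qv_nrQ]

theorem rv_eq (S : Sr) (e : ℕ → V n) (k : ℕ) :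
    vc S.m e (qv (nth [] ((dL S.rt).map (List.map nrQ)) k)) = rv S e k := by
  rw [qv_rt, rv]

theorem nth_lt {α : Type} (d : α) {l : List α} {k : ℕ} (h : k < l.length) : nth d l k ∈ l := by
  rw [nth_eq, List.getD_eq_getElem _ _ h]
  exact List.getElem_mem h

theorem val_qt (c : List Q4) (i : ℕ) : (qt c i).val 5 = qv c i := rfl

theorem val_lnr (A : ℕ) (r : List ℕ) :
    (lnr A r).val 5 = (r.map fun t => (dM t).val 5 * (wv (dg A (b0 t))).val 5).sum := by
  induction r with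
  | nil => exact val_z
  | cons t r ih =>
    rw [List.map_cons, List.sum_cons, ← ih, ← R4.val_mul, ← R4.val_add]
    rfl

theorem val_rec (f : ℕ → Q4) (r : List ℕ) :
    (List.rec (motive := fun _ => Q4) Q4.zero (fun t _ ih => (f t).add ih) r).val 5 =
      (r.map fun t => (f t).val 5).sum := by
  induction r with
  | nil => exact Q4.val_zero
  | cons t r ih => rw [List.map_cons, List.sum_cons, ← ih, ← Q4.val_add]

theorem val_cnd (a i b j : ℕ) (β : Q4) :
    (cnd (nd (Nat.beq a i) (Nat.beq b j)) β Q4.zero).val 5 =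
      if a = i ∧ b = j then β.val 5 else 0 := by
  rw [cnd_eq]
  simp only [nd_iff, Nat.beq_eq]
  split_ifs
  · rfl
  · exact Q4.val_zero

theorem val_la (S : Sr) : S.la.val 5 = 2 * S.L * Quaternion.normSq (S.om.val 5) := by
  rw [Sr.la, R4.val_sm, val_nqR, Nat.mul_eq]
  push_cast
  rfl

theorem val_mnr (X : List (List Q4)) (i j : ℕ) : (mnr X i j).val 5 =
    ((xe X i i).val 5).re * ((xe X j j).val 5).re - Quaternion.normSq ((xe X i j).val 5) := by
  rw [mnr, R4.val_add, R4.val_mul, R4.val_neg, val_nqR, val_a, val_a, sub_eq_add_neg]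

theorem val_ent (f : ℕ → ℕ → Q4) {m i j : ℕ} (hj : j < m) (hij : i ≤ j) :
    (qt (nth [] (((List.range m).map fun j => (List.range (Nat.succ j)).map fun i => f i j).map
      (List.map nrQ)) j) i).val 5 = (f i j).val 5 := by
  rw [val_qt, qv_rt, nth_eq, List.getD_eq_getElem _ _ (by simpa using hj)]
  simp only [List.getElem_map, List.getElem_range, qv, qt]
  rw [nth_eq, List.getD_eq_getElem _ _ (by simpa using Nat.lt_succ_of_le hij)]
  simp only [List.getElem_map, List.getElem_range]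

end K2

open K2

theorem c1_spec (h : S.c1 = true) (he : On S.m e) :
    0 < S.m ∧ 0 < S.n0 ∧ S.rt.length = S.R ∧ S.la.val 5 ≠ 0 ∧ (S.fl = false → (S.om.val 5).re = 0) ∧
      (∀ c ∈ dL S.rt, c.length ≤ S.m ∧ nqc S.m (qv c) = S.n0 ∧
        (S.fl = false → ∀ i < S.m, Commute (qv c i) (S.om.val 5))) ∧
      ∀ g ∈ S.mv, g.1 < S.R ∧ ∀ k < S.R, byt g.2 k < S.R ∧
        Pl (rv S e (byt g.2 k)) (sr (rv S e g.1) (rv S e k)) := by
  rw [Sr.c1, frcL_eq] at h
  simp only [nd_iff, allL_iff, allN_iff, orr_iff, Nat.blt_eq, Nat.beq_eq, Nat.ble_eq,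
    List.forall_mem_map, List.length_map, nzR_iff, beqR_iff, cmQ_iff, val_nqL, val_qt, qv_nrQ,
    R4.val_sm, val_o, val_z, val_a, mul_one] at h
  obtain ⟨h1, h2, h3, h4, h5, h6, h7⟩ := h
  refine ⟨h1, h2, by simpa [dL] using h3, h4, fun hf => h5.resolve_left (by simp [hf]),
    fun c hc => ⟨(h6 c hc).1, (h6 c hc).2.1, fun hf => (h6 c hc).2.2.resolve_left (by simp [hf])⟩,
    fun g hg => ⟨(h7 g hg).1, fun k hk => ⟨((h7 g hg).2 k hk).1, ?_⟩⟩⟩
  have := mirL_spec he ((h7 g hg).2 k hk).2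
  simpa only [rv_eq] using this

theorem K2.rt_mem (h1 : S.c1 = true) (he : On S.m e) {k : ℕ} (hk : k < S.R) :
    nth [] (dL S.rt) k ∈ dL S.rt :=
  nth_lt _ (by rw [dL, List.length_map, (c1_spec h1 he).2.2.1]; exact hk)

theorem K2.rv_sg (h1 : S.c1 = true) (he : On S.m e) (hR : Ro W S.m e (dL S.rt)) {k : ℕ}
    (hk : k < S.R) : Sg W (rv S e k) := hR _ (rt_mem h1 he hk)

theorem chkM_spec (h1 : S.c1 = true) (he : On S.m e) (hR : Ro W S.m e (dL S.rt)) (hx : x ≠ 0)
    {r : List ℕ} {i j A : ℕ} {β : Q4} (hi : i < S.m) (hj : j < S.m)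
    (h : chkM S ((dL S.rt).map (List.map nrQ)) r i j β = true)
    (hA : ∀ t ∈ r, dg A (b0 t) < 6 ∧ rat (rv S e (b0 t)) x = vl (dg A (b0 t))) :
    (lnr A r).val 5 * nq x = 2 * (star (ip (e i) x) * β.val 5 * ip (e j) x).re := by
  obtain ⟨-, hn0, -, -, -, hc, -⟩ := c1_spec h1 he
  rw [chkM] at h
  simp only [nd_iff, allL_iff, allN_iff, Nat.blt_eq, beqQ_iff, Q4.val_sm, val_rec, Q4.val_add,
    val_cnd, Q4.val_rm, Q4.val_mul, Q4.val_cnj, val_qt, qv_rt] at h
  obtain ⟨hb, hM⟩ := h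
  have key := sum_tt (m := S.m) (e := e) r (fun t => 8 * (dM t).val 5)
    (fun t => qv (nth [] (dL S.rt) (b0 t)))
    (fun a b => (S.n0 : ℝ) • ((if a = i ∧ b = j then β.val 5 else 0) +
      (if a = j ∧ b = i then star (β.val 5) else 0)))
    (fun a b => by
      simp only [Quaternion.star_smul, star_add, apply_ite star, star_star, star_zero,
        and_comm (a := b = i), and_comm (a := b = j)]
      rw [add_comm])
    (fun b hb a ha => by
      rw [← hM b hb a (Nat.lt_succ_of_le ha), List.smul_sum, List.map_map]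
      simp only [Function.comp_def, smul_smul, Nat.cast_ofNat]) x
  simp only [mul_smul_comm, smul_mul_assoc, Quaternion.re_smul, smul_eq_mul,
    ← Finset.mul_sum] at key
  rw [sum_single (fun a => ip (e a) x) _ hi hj] at key
  have h2 : (r.map fun t => 8 * (dM t).val 5 * tt (vc S.m e (qv (nth [] (dL S.rt) (b0 t)))) x).sum =
      S.n0 * ((lnr A r).val 5 * nq x) := by
    rw [val_lnr, ← List.sum_map_mul_right, ← List.sum_map_mul_left]
    refine congrArg List.sum (List.map_congr_left fun t ht => ?_)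
    have h3 := (rat_eq (rv_sg h1 he hR (hb t ht)).1 hx).1 (hA t ht).2
    rw [rv, he.nq_vc, (hc _ (rt_mem h1 he (hb t ht))).2.1] at h3
    rw [val_wv (hA t ht).1]
    linear_combination (dM t).val 5 * h3
  rw [h2] at key
  exact mul_left_cancel₀ (Nat.cast_ne_zero.2 hn0.ne') key

theorem K2.chkM_lt {Rt : List (List Q4)} {r : List ℕ} {i j : ℕ} {β : Q4}
    (h : chkM S Rt r i j β = true) : ∀ t ∈ r, b0 t < S.R := by
  rw [chkM, nd_iff, allL_iff] at h
  simpa only [Nat.blt_eq] using h.1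

theorem rel_spec (h1 : S.c1 = true) (h3 : S.c3 = true) (he : On S.m e)
    (hR : Ro W S.m e (dL S.rt)) (hx : x ≠ 0) {v : Lv} (hv : v ∈ S.ls) {r : List ℕ} (hr : r ∈ v.rs)
    {A : ℕ} (hA : ∀ t ∈ r, b0 t < S.R → dg A (b0 t) < 6 ∧ rat (rv S e (b0 t)) x = vl (dg A (b0 t))) :
    (lnr A r).beq R4.z = true := by
  rw [Sr.c3, frcL_eq] at h3
  simp only [allL_iff] at h3
  have hm := (c1_spec h1 he).1
  have := chkM_spec h1 he hR hx hm hm (h3 v hv r hr) fun t ht => hA t ht (chkM_lt (h3 v hv r hr) t ht)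
  rw [Q4.val_zero, mul_zero, zero_mul, Quaternion.re_zero, mul_zero] at this
  rw [beqR_iff, val_z]
  exact (mul_eq_zero.1 this).resolve_right (nq_pos hx).ne'

namespace K2

theorem kn_x0 (h1 : S.c1 = true) (h4 : S.c4 = true) (he : On S.m e) (hR : Ro W S.m e (dL S.rt))
    (hx : x ≠ 0) {A : ℕ} (hν : ∀ k < S.R, dg A k < 6 ∧ rat (rv S e k) x = vl (dg A k))
    {i j : ℕ} (hj : j < S.m) (hij : i ≤ j) :
    Kn (S.om.val 5) (S.la.val 5 / nq x) ((S.x0 A i j).val 5) (ip (e i) x * star (ip (e j) x)) := by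
  have hi := hij.trans_lt hj
  have hρ := (nq_pos hx).ne'
  have sp : ∀ {r : List ℕ} {β : Q4}, chkM S ((dL S.rt).map (List.map nrQ)) r i j (β.sm S.L) = true →
      (lnr A r).val 5 * nq x =
        2 * (star (ip (e i) x) * ((S.L : ℝ) • β.val 5) * ip (e j) x).re := fun h => by
    rw [← Q4.val_sm]
    exact chkM_spec h1 he hR hx hi hj h fun t ht => hν _ (chkM_lt h t ht)
  have one : (rQ4 R4.o).val 5 = 1 := by rw [val_rQ4, val_o]; rfl
  rw [Sr.c4, frcL_eq] at h4
  simp only [allN_iff, nd_iff] at h4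
  obtain ⟨a1, a2⟩ := h4 j hj i (Nat.lt_succ_of_le hij)
  rw [val_la]
  cases hf : S.fl
  · have hω := (c1_spec h1 he).2.2.2.2.1 hf
    rw [hf, cnd_eq, if_neg Bool.false_ne_true] at a2
    have := kn_cx hρ hω one (sp a1) (sp a2)
    rw [Sr.x0, hf, cnd_eq, if_neg Bool.false_ne_true, Q4.val_add, val_rQ4, R4.val_mul, val_nqR,
      Q4.val_rm]
    exact this
  · have hω : S.om.val 5 = 1 := by rw [Sr.om, hf, cnd_eq, if_pos rfl, one]
    rw [hf, cnd_eq, if_pos rfl] at a2
    obtain ⟨a2, a3⟩ := (nd_iff _ _).1 a2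
    obtain ⟨a3, a4⟩ := (nd_iff _ _).1 a3
    have := kn_full hρ one (by simp only [Q4.val, val_z, val_o]) (by simp only [Q4.val, val_z, val_o])
      (by simp only [Q4.val, val_z, val_o]) (sp a1) (sp a2) (sp a3) (sp a4)
    rw [Sr.x0, hf, hω, map_one, mul_one, cnd_eq, if_pos rfl, Q4.val]
    exact this

theorem drv_spec (h1 : S.c1 = true) (he : On S.m e) (hR : Ro W S.m e (dL S.rt)) (hx : x ≠ 0)
    {A : ℕ} (hν : ∀ k < S.R, dg A k < 6 ∧ rat (rv S e k) x = vl (dg A k)) {b c p : ℕ}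
    (hb : b < S.R) (h : drv S ((dL S.rt).map (List.map nrQ)) A b c p = true) :
    c < S.R ∧ b2 p < 6 ∧ rat (rv S e c) (sr x (rv S e b)) = vl (b2 p) := by
  rw [drv] at h
  simp only [nd_iff, Nat.blt_eq, beqR_iff, R4.val_add, R4.val_sm, R4.val_mul] at h
  obtain ⟨hc, hp1, hp2, ht, hq⟩ := h
  obtain ⟨t1, t2, t3⟩ := triL_spec he ht
  simp only [rv_eq] at t2 t3
  rw [val_wv hp2, val_wv t1, val_wv (hν c hc).1, val_wv (hν b hb).1, val_wv (hν _ hp1).1] at hq
  have hd := rat_der (rv_sg h1 he hR hb).1 (rv_sg h1 he hR hc).1 hx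
  rw [t2, (hν b hb).2, (hν c hc).2, ← t3.rat_left, (hν _ hp1).2] at hd
  refine ⟨hc, hp2, ?_⟩
  push_cast at hq
  linarith

theorem chkH_spec (hA : Ang W) (h1 : S.c1 = true) (he : On S.m e) (hR : Ro W S.m e (dL S.rt))
    (hx : Sg W x) {A : ℕ} (hν : ∀ k < S.R, dg A k < 6 ∧ rat (rv S e k) x = vl (dg A k))
    {X : List (List Q4)}
    (hX : ∀ i < S.m, ∀ j < S.m, Kn (S.om.val 5) (S.la.val 5 / nq x) ((xe X i j).val 5)
      (ip (e i) x * star (ip (e j) x))) {H : Hd}
    (h : chkH S ((dL S.rt).map (List.map nrQ)) A X H = true) : Out W S e x H := by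
  have hρ := nq_pos hx.1
  obtain ⟨-, -, -, hla, hre, -, -⟩ := c1_spec h1 he
  have hω : S.om.val 5 ≠ 0 := fun h0 => hla (by rw [val_la, h0, map_zero, mul_zero])
  have hla' : 0 < S.la.val 5 := by
    refine lt_of_le_of_ne ?_ hla.symm
    rw [val_la]
    exact mul_nonneg (by positivity) Quaternion.normSq_nonneg
  have hl : 0 < S.la.val 5 / nq x := div_pos hla' hρ
  have hlρ : S.la.val 5 / nq x * nq x = S.la.val 5 := div_mul_cancel₀ _ hρ.ne'
  have hd : ∀ i < S.m, ((xe X i i).val 5).re =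
      S.la.val 5 / nq x * Quaternion.normSq (ip (e i) x) := fun i hi => (hX i hi i hi).diag hω
  have hs : (sumR S.m fun i => (xe X i i).a).val 5 =
      S.la.val 5 / nq x * nqc S.m fun i => ip (e i) x := by
    rw [val_sumR, nqc, Finset.mul_sum]
    exact Finset.sum_congr rfl fun i hi => hd i (Finset.mem_range.1 hi)
  cases H with
  | neg i j =>
    simp only [chkH, nd_iff, Nat.blt_eq] at h
    obtain ⟨hi, hj, h⟩ := h
    have a := ngR_spec h
    have b := ((hX i hi i hi).minor hω (hX j hj j hj) (hX i hi j hj)).1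
    rw [val_mnr] at a
    exact absurd b (by linarith)
  | ful i j =>
    simp only [chkH, nd_iff, Nat.blt_eq, nzR_iff] at h
    obtain ⟨hi, hj, hf, h⟩ := h
    have h1 : S.om.val 5 = 1 := by
      rw [Sr.om, hf, cnd_eq, if_pos rfl, val_rQ4, val_o]; rfl
    have a := hX i hi j hj
    rw [h1] at a
    refine h ?_
    rw [val_mnr, hd i hi, hd j hj, a.full, Quaternion.normSq_smul, map_mul,
      Quaternion.normSq_star]
    ring
  | tri i j k =>
    simp only [chkH, nd_iff, Nat.blt_eq, frcQ4_eq, frcR4_eq, nt_iff, beqR_iff, val_nqR, val_nrQ,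
      val_nrR, R4.val_mul, val_mnr, Q4.val_add, Q4.val_mul, val_ng, Q4.val_rm, val_a] at h
    obtain ⟨hi, hj, hk, h⟩ := h
    refine h ?_
    rw [← sub_eq_add_neg]
    exact (hX i hi i hi).triple hω (hX j hj j hj) (hX k hk k hk) (hX i hi j hj) (hX j hj k hk)
      (hX i hi k hk)
  | bes =>
    rw [chkH] at h
    have a := ngR_spec h
    rw [R4.val_add, R4.val_neg, hs] at a
    have b := mul_le_mul_of_nonneg_left (he.bessel x) hl.le
    exact absurd b (by linarith)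
  | der b t p q r =>
    simp only [chkH, nd_iff, Nat.blt_eq, nt_iff, tb_iff] at h
    obtain ⟨hb, ht, hp, hq, hr, h⟩ := h
    obtain ⟨t1, t2, t3⟩ := triL_spec he ht
    simp only [rv_eq] at t2 t3
    obtain ⟨p1, p2, p3⟩ := drv_spec h1 he hR hx.1 hν hb hp
    obtain ⟨q1, q2, q3⟩ := drv_spec h1 he hR hx.1 hν hb hq
    obtain ⟨-, r2, r3⟩ := drv_spec h1 he hR hx.1 hν hb hr
    exact h (tri_ok hA (rv_sg h1 he hR p1) (rv_sg h1 he hR q1) (hx.sr (rv_sg h1 he hR hb))
      t1 p2 q2 r2 ⟨t2, p3, q3, (t3.rat_left _).symm.trans r3⟩)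
  | zer =>
    simp only [chkH, allN_iff, beqR_iff, val_z, val_a] at h
    intro i hi
    have a := h i hi
    rw [hd i hi] at a
    exact Quaternion.normSq_eq_zero.1 ((mul_eq_zero.1 a).resolve_left hl.ne')
  | cx =>
    simp only [chkH, allN_iff, beqR_iff, val_z, val_mnr] at h
    intro i hi j hj
    have a := ((hX i hi i hi).minor hω (hX j hj j hj) (hX i hi j hj)).2
      (sub_eq_zero.1 (h i hi j hj)).symm
    have b := (hX i hi j hj).1
    rw [a] at b
    have c := b.smul_left (S.la.val 5 / nq x)⁻¹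
    rwa [smul_smul, inv_mul_cancel₀ hl.ne', one_smul] at c
  | spn =>
    rw [chkH, beqR_iff, hs] at h
    have a := h
    exact ⟨_, he.eq_vc (mul_left_cancel₀ hl.ne' (a.trans hlρ.symm))⟩
  | dig =>
    simp only [chkH, nd_iff, allN_iff, orr_iff, nt_iff, Nat.ble_eq, Nat.beq_eq] at h
    intro k hk
    have a := (hν k (hk.trans_le h.1)).2
    rcases h.2 k hk with b | b | ⟨b, c⟩
    · rw [b] at a; exact Or.inl a
    · rw [b] at a; exact Or.inr (Or.inl a)
    · rw [b] at a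
      push Not at c
      obtain ⟨j, hj, c⟩ := c
      have d := (hν j hj).2
      rw [c] at d
      exact Or.inr (Or.inr ⟨a, _, rv_sg h1 he hR hj, d⟩)
  | m1 y j =>
    simp only [chkH, frcQ_eq, frcR4_eq, nd_iff, allN_iff, Nat.blt_eq, nzR_iff, beqR_iff, beqQ_iff,
      val_nrR, val_nqL, val_nqR, val_qt, qv_nrQ, Q4.val_rm, Q4.val_mul, Q4.val_cnj, R4.val_mul,
      val_a] at h
    obtain ⟨hN, hj, hy, h⟩ := h
    exact match_one hω hl.ne' hρ.ne' hN hX hj (Quaternion.normSq_ne_zero.1 hy)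
      (fun i hi => by rw [hlρ]; exact (h i hi).1) (fun i hi => by rw [hlρ]; exact (h i hi).2)
  | m2 y i j =>
    simp only [chkH, frcQ_eq, frcR4_eq, frcQ4_eq, nd_iff, allN_iff, Nat.blt_eq, nzR_iff, beqQ_iff,
      nt_iff, cmQ_iff, val_nrR, val_nrQ, val_nqL, val_qt, qv_nrQ, Q4.val_rm, Q4.val_mul,
      Q4.val_cnj, Q4.val_add, val_ng, Q4.val_zero, Bool.not_eq_true] at h
    obtain ⟨hN, hi, hj, hf, hy, h⟩ := h
    obtain ⟨θ, q, a1, a2, a3, a4, a5⟩ := match_two hω (hre hf) hl.ne' hρ.ne' hN hX hi hj hy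
      (fun b hb a ha => by
        rw [hlρ, sub_eq_add_neg]
        exact h b hb a (Nat.lt_succ_of_le ha))
    exact ⟨hf, θ, a1, a2, q, a3, fun i hi => by rw [ip_rs_left]; exact a4 i hi, a5⟩

end K2

theorem out_spec (hA : Ang W) (hS : Good S) (he : On S.m e) (hR : Ro W S.m e (dL S.rt))
    (hx : Sg W x) {p : ℕ × Hd} (hp : p ∈ S.rp)
    (hν : ∀ k < S.R, dg p.1 k < 6 ∧ rat (rv S e k) x = vl (dg p.1 k)) : Out W S e x p.2 := by
  have h6 := hS.h6
  rw [Sr.c6, frcL_eq, allL_iff] at h6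
  have h := h6 p hp
  rw [frcL_eq] at h
  refine chkH_spec hA hS.h1 he hR hx hν (fun i hi j hj => ?_) h
  rw [xe, cnd_eq]
  split_ifs with hij
  · have hij' := Nat.le_of_ble_eq_true hij
    rw [val_ent _ hj hij']
    exact kn_x0 hS.h1 hS.h4 he hR hx.1 hν hj hij'
  · have hij' : j ≤ i := (not_le.1 fun h => hij (Nat.ble_eq_true_of_le h)).le
    rw [Q4.val_cnj, val_ent _ hi hij']
    have := (kn_x0 hS.h1 hS.h4 he hR hx.1 hν hi hij').star
    rwa [star_mul, star_star] at this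

end Pool.Agent.P.MP_97ea17_al.Geo
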