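import Pool.Agent.P.MP_97ea17_al.F.KDefs

/-! Correctness of the search. -/

namespace Pool.Agent.P.MP_97ea17_al.Geo

open Ck

namespace L1

theorem apg_spec (mt : List ℕ) (g : ℕ) :
    (∀ i, apg mt g i = i) ∨ ∃ T ∈ mt, ∀ i, apg mt g i = byt T i := by
  induction mt generalizing g with
  | nil => exact Or.inl fun _ => rfl
  | cons T l ih =>
    cases g with
    | zero => exact Or.inr ⟨T, List.mem_cons_self, fun _ => rfl⟩
    | succ g =>
      rcases ih g with h | ⟨U, hU, h⟩
      · exact Or.inl h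
      · exact Or.inr ⟨U, List.mem_cons_of_mem _ hU, h⟩

theorem apw_spec {X : Type} (S Q : X → Prop) (ν : X → ℕ → ℕ) {R : ℕ} {mt : List ℕ}
    (hm : ∀ T ∈ mt, (∀ i < R, byt T i < R) ∧
      ∀ x, S x → ∃ y, S y ∧ (∀ i < R, ν y i = ν x (byt T i)) ∧ (Q y → Q x)) (w : List ℕ) :
    (∀ i < R, apw mt w i < R) ∧
      ∀ x, S x → ∃ y, S y ∧ (∀ i < R, ν y i = ν x (apw mt w i)) ∧ (Q y → Q x) := by
  induction w with
  | nil => exact ⟨fun _ h => h, fun x hx => ⟨x, hx, fun _ _ => rfl, id⟩⟩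
  | cons g w ih =>
    have e : ∀ i, apw mt (g :: w) i = apg mt g (apw mt w i) := fun _ => rfl
    rcases apg_spec mt g with h | ⟨T, hT, h⟩
    · simp only [e, h]
      exact ih
    · simp only [e, h]
      refine ⟨fun i hi => (hm T hT).1 _ (ih.1 i hi), fun x hx => ?_⟩
      obtain ⟨x1, h1, h2, h3⟩ := (hm T hT).2 x hx
      obtain ⟨y, h4, h5, h6⟩ := ih.2 x1 h1
      exact ⟨y, h4, fun i hi => (h5 i hi).trans (h2 _ (ih.1 i hi)), fun h => h3 (h6 h)⟩

/-- The number with the given leading digits. -/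
def be (f : ℕ → ℕ) : ℕ → ℕ
  | 0 => 0
  | k + 1 => 8 * be f k + f k

theorem be_lt {f : ℕ → ℕ} {k : ℕ} (h : ∀ i < k, f i < 6) : be f k < 8 ^ k := by
  induction k with
  | zero => simp [be]
  | succ k ih =>
    have h1 := ih fun i hi => h i (by omega)
    have h2 := h k (by omega)
    rw [be, pow_succ]
    omega

theorem be_congr {f g : ℕ → ℕ} {k : ℕ} (h : ∀ i < k, f i = g i) : be f k = be g k := by
  induction k with
  | zero => rfl
  | succ k ih => rw [be, be, ih fun i hi => h i (by omega), h k (by omega)]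

theorem be_lt_be {f g : ℕ → ℕ} {j k : ℕ} (hj : j < k) (h : ∀ i < j, f i = g i) (hl : f j < g j)
    (h6 : ∀ i < k, f i < 6) : be f k < be g k := by
  induction k with
  | zero => omega
  | succ k ih =>
    rw [be, be]
    rcases Nat.lt_succ_iff_lt_or_eq.1 hj with hj | rfl
    · have h1 := ih hj fun i hi => h6 i (by omega)
      have h2 := h6 k (by omega)
      omega
    · rw [be_congr h]
      omega

theorem dg_eq (A i : ℕ) : dg A i = A / 8 ^ i % 8 := by
  change (A >>> (3 * i)) % 8 = _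
  rw [Nat.shiftRight_eq_div_pow, pow_mul, show 2 ^ 3 = 8 from rfl]

theorem dg_lt {A c k i : ℕ} (hi : i < k) : dg (A + c * 8 ^ k) i = dg A i := by
  obtain ⟨j, rfl⟩ := Nat.exists_eq_add_of_lt hi
  rw [dg_eq, dg_eq, show c * 8 ^ (i + j + 1) = 8 ^ i * (8 * (c * 8 ^ j)) by ring,
    Nat.add_mul_div_left _ _ (by positivity), Nat.add_mul_mod_self_left]

theorem dg_top {A c k : ℕ} (hA : A < 8 ^ k) (hc : c < 6) : dg (A + c * 8 ^ k) k = c := by
  rw [dg_eq, Nat.add_mul_div_right _ _ (by positivity), Nat.div_eq_of_lt hA]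
  omega

theorem lexg_spec {A : ℕ} {f : ℕ → ℕ} {n j : ℕ} (h : lexg A f n j = true) :
    ∃ t, j ≤ t ∧ t < j + n ∧ (∀ i, j ≤ i → i < t → dg A (f i) = dg A i) ∧
      dg A t < dg A (f t) := by
  induction n generalizing j with
  | zero => cases h
  | succ n ih =>
    change orr (Nat.blt (dg A j) (dg A (f j)))
      (nd (Nat.beq (dg A (f j)) (dg A j)) (lexg A f n (j + 1))) = true at h
    rw [orr_iff, nd_iff, Nat.blt_eq, Nat.beq_eq] at h
    rcases h with h | ⟨h1, h2⟩
    · exact ⟨j, le_rfl, by omega, fun i h1 h2 => by omega, h⟩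
    · obtain ⟨t, h3, h4, h5, h6⟩ := ih h2
      refine ⟨t, by omega, by omega, fun i h7 h8 => ?_, h6⟩
      rcases h7.eq_or_lt with rfl | h7
      · exact h1
      · exact h5 i h7 h8

theorem stat_cons {R : ℕ} {mt : List ℕ} {v : Lv} {ls : List Lv} {k : ℕ}
    (h : stat R mt (v :: ls) k = true) :
    (∀ s ∈ v.ss, apw mt s.2 s.1 = k ∧ s.1 < k ∧ ∀ i < s.1, apw mt s.2 i = i) ∧
    (∀ t ∈ v.ts, b1 t ≤ k ∧ b2 t ≤ k ∧ b3 t ≤ k) ∧ (∀ r ∈ v.rs, ∀ t ∈ r, b0 t ≤ k) ∧
    stat R mt ls (k + 1) = true := by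
  change nd (allL v.ss fun s => nd (Nat.beq (apw mt s.2 s.1) k) <| nd (Nat.blt s.1 k) <|
        allN s.1 fun i => Nat.beq (apw mt s.2 i) i) (
      nd (allL v.ts fun t => nd (Nat.ble (b1 t) k) <| nd (Nat.ble (b2 t) k) (Nat.ble (b3 t) k)) <|
      nd (allL v.rs fun r => allL r fun t => Nat.ble (b0 t) k) (stat R mt ls (k + 1))) = true at h
  simpa only [nd_iff, allL_iff, allN_iff, Nat.beq_eq, Nat.blt_eq, Nat.ble_eq] using h

theorem stat_le {R : ℕ} {mt : List ℕ} {ls : List Lv} {k : ℕ} (h : stat R mt ls k = true) :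
    k ≤ R := by
  induction ls generalizing k with
  | nil => exact (Nat.eq_of_beq_eq_true h).le
  | cons v ls ih => exact (Nat.le_succ k).trans (ih (stat_cons h).2.2.2)

theorem dfs_cons {lf : ℕ → Bool} {v : Lv} {ls : List Lv} {k A c : ℕ}
    (h : dfs lf (v :: ls) (3 * k) A = true) (hc : c < 6)
    (hv : v.ok (A + c * 8 ^ k) c = true) : dfs lf ls (3 * (k + 1)) (A + c * 8 ^ k) = true := by
  change allN 6 (fun c => (Bool.rec true (dfs lf ls (3 * k + 3) (A + c <<< (3 * k)))
    (v.ok (A + c <<< (3 * k)) c) : Bool)) = true at h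
  have h1 := (allN_iff _ _).1 h c hc
  rw [Nat.shiftLeft_eq, pow_mul, show 2 ^ 3 = 8 from rfl, hv] at h1
  exact h1

end L1

theorem dfs_sound {X α : Type} (S Q : X → Prop) (ν : X → ℕ → ℕ) {R : ℕ} {mt : List ℕ}
    {rp : List (ℕ × α)} {ds : List (ℕ × List ℕ)} {ls : List Lv}
    (h6 : ∀ x, S x → ∀ i < R, ν x i < 6)
    (hm : ∀ T ∈ mt, (∀ i < R, byt T i < R) ∧
      ∀ x, S x → ∃ y, S y ∧ (∀ i < R, ν y i = ν x (byt T i)) ∧ (Q y → Q x))
    (ht : ∀ v ∈ ls, ∀ t ∈ v.ts, b1 t < R → b2 t < R → b3 t < R → ∀ x, S x →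
      tb (b0 t) (ν x (b1 t)) (ν x (b2 t)) (ν x (b3 t)) = true)
    (hr : ∀ v ∈ ls, ∀ r ∈ v.rs, ∀ x, S x → ∀ A, (∀ t ∈ r, dg A (b0 t) = ν x (b0 t)) →
      (lnr A r).beq R4.z = true)
    (hs : stat R mt ls 0 = true) (hd : dfs (lfk R mt rp ds) ls (nat_lit 0) (nat_lit 0) = true)
    (hl : ∀ p ∈ rp, ∀ x, S x → (∀ i < R, dg p.1 i = ν x i) → Q x) : ∀ x, S x → Q x := by
  suffices H : ∀ N x, S x → 8 ^ R - L1.be (ν x) R ≤ N → Q x from fun x hx => H _ x hx le_rfl
  intro N
  induction N with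
  | zero =>
    intro x hx h
    have := L1.be_lt (h6 x hx)
    omega
  | succ N ihN =>
    intro x hx hN
    have step : ∀ (w : List ℕ) (j : ℕ), j < R → (∀ i < j, ν x (apw mt w i) = ν x i) →
        ν x j < ν x (apw mt w j) → Q x := by
      intro w j hj h1 h2
      obtain ⟨y, hy, h3, h4⟩ := (L1.apw_spec S Q ν hm w).2 x hx
      have h5 : L1.be (ν x) R < L1.be (ν y) R :=
        L1.be_lt_be hj (fun i hi => by rw [h3 i (by omega), h1 i hi]) (by rw [h3 j hj]; exact h2)
          (h6 x hx)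
      have h7 := L1.be_lt (h6 y hy)
      exact h4 (ihN y hy (by omega))
    have main : ∀ (l : List Lv) (k A : ℕ), (∀ v ∈ l, v ∈ ls) → stat R mt l k = true →
        dfs (lfk R mt rp ds) l (3 * k) A = true → A < 8 ^ k → (∀ i < k, dg A i = ν x i) →
        Q x := by
      intro l
      induction l with
      | nil =>
        intro k A _ h1 h2 _ h4
        obtain rfl : k = R := Nat.eq_of_beq_eq_true h1
        change lfk k mt rp ds A = true at h2
        simp only [lfk, orr_iff, anyL_iff, nd_iff, Nat.beq_eq] at h2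
        rcases h2 with ⟨p, hp, rfl⟩ | ⟨p, -, -, h⟩
        · exact hl p hp x hx h4
        · obtain ⟨t, -, h5, h7, h8⟩ := L1.lexg_spec h
          have h9 : t < k := by simpa using h5
          have hw := (L1.apw_spec S Q ν hm p.2).1
          refine step p.2 t h9 (fun i hi => ?_) ?_
          · rw [← h4 _ (hw i (by omega)), ← h4 i (by omega)]
            exact h7 i (Nat.zero_le _) hi
          · rw [← h4 _ (hw t h9), ← h4 t h9]
            exact h8
      | cons v l ih =>
        intro k A hsub h1 h2 h3 h4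
        obtain ⟨s1, s2, s3, s4⟩ := L1.stat_cons h1
        have hk : k < R := L1.stat_le s4
        have hc := h6 x hx k hk
        have hv := hsub v List.mem_cons_self
        have hA : ∀ i < k + 1, dg (A + ν x k * 8 ^ k) i = ν x i := by
          intro i hi
          rcases Nat.lt_succ_iff_lt_or_eq.1 hi with hi | rfl
          · rw [L1.dg_lt hi, h4 i hi]
          · exact L1.dg_top h3 hc
        by_cases hss : ∀ s ∈ v.ss, ν x k ≤ ν x s.1
        · refine ih (k + 1) _ (fun u hu => hsub u (List.mem_cons_of_mem _ hu)) s4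
            (L1.dfs_cons h2 hc ?_) ?_ hA
          · simp only [Lv.ok, nd_iff, allL_iff, Nat.ble_eq]
            refine ⟨fun s hs => ?_, fun t htv => ?_, fun r hrv => ?_⟩
            · rw [hA _ (by have := (s1 s hs).2.1; omega)]
              exact hss s hs
            · obtain ⟨t1, t2, t3⟩ := s2 t htv
              rw [hA _ (by omega), hA _ (by omega), hA _ (by omega)]
              exact ht v hv t htv (by omega) (by omega) (by omega) x hx
            · exact hr v hv r hrv x hx _ fun t htr => hA _ (by have := s3 r hrv t htr; omega)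
          · rw [pow_succ]
            nlinarith
        · push Not at hss
          obtain ⟨s, hs1, hs2⟩ := hss
          obtain ⟨e1, e2, e3⟩ := s1 s hs1
          exact step s.2 s.1 (by omega) (fun i hi => by rw [e3 i hi]) (by rw [e1]; exact hs2)
    exact main ls 0 0 (fun _ h => h) hs hd (by simp) (fun i hi => by omega)

end Pool.Agent.P.MP_97ea17_al.Geo
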