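import Pool.Agent.P.MP_97ea17_al.F.K2
import Pool.Agent.P.MP_97ea17_al.F.L1

/-! All positions of a root relative to a given system. -/

namespace Pool.Agent.P.MP_97ea17_al.Geo

open scoped Quaternion
open Ck

variable {n : ℕ} {W H : Subgroup (GH n)} {e : ℕ → V n} {U : V n → Prop} {S : Sr} {T : Sa}

namespace K3

open Classical in
/-- The code of an admissible value. -/
noncomputable def cd (r : ℝ) : ℕ := if h : ∃ s < 6, r = vl s then h.choose else 0

theorem cd_lt (r : ℝ) : cd r < 6 := by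
  unfold cd
  split_ifs with h
  · exact h.choose_spec.1
  · norm_num

theorem cd_val {r : ℝ} (h : ∃ s < 6, r = vl s) : r = vl (cd r) := by
  unfold cd
  rw [dif_pos h]
  exact h.choose_spec.2

theorem nth_mem {L : List (List Q4)} {k : ℕ} (h : k < L.length) : nth [] L k ∈ L := by
  rw [nth_eq, List.getD_eq_getElem _ _ h]
  exact List.getElem_mem h

theorem rv_eq (k : ℕ) :
    vc S.m e (qv (nth [] ((dL S.rt).map (List.map nrQ)) k)) = rv S e k := by
  rw [nth_nrQ, qv_nrQ, rv]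

theorem dV_short {y : List ℕ} {m : ℕ} (h : Nat.ble y.length m = true) :
    ∀ i, m ≤ i → qv (dV y) i = 0 := fun i hi =>
  qv_short (by
    rw [dV, List.length_map]
    exact (Nat.le_of_ble_eq_true h).trans hi)

theorem kix_spec (hA : Ang W) (htg : ∀ t ∈ T.tg, ¬ Has W U t.1 t.2) (he : On T.k e)
    (hk : S.m ≤ T.k) {B : List (List Q4)} (hB : Ro W T.k e B) (hU : ∀ v, U v → Sp T.k e v)
    {x : V n} (hx : Sg W x) {y : List ℕ} (hM : Mt S.m e (qv (dV y)) x) {p : Po}
    (h : kix S T B y p = true) : False := by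
  rw [kix, frcQ_eq, cnd_eq] at h
  split_ifs at h with hy
  · refine kil_spec hA htg h ⟨e, he, List.forall_mem_cons.2 ⟨?_, hB⟩, hU⟩
    rw [qv_nrQ]
    exact hx.pl (ext_short he hk hM (dV_short hy))
  · simp only [nd_iff, allL_iff] at h
    obtain ⟨h1, h2, h3, h4⟩ := h
    have h1' : T.k = S.m := Nat.eq_of_beq_eq_true h1
    rw [h1'] at he hB hU
    have h5 : qv (dV y) S.m ≠ 0 := by
      rw [← qv_nrQ]
      have h6 := nzR_iff.1 h2
      rw [val_nqR] at h6
      exact Quaternion.normSq_ne_zero.1 h6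
    obtain ⟨f, hf, hfe, hp⟩ := ext_long he hM h5
    refine kil_spec hA htg h4 ⟨f, hf, List.forall_mem_cons.2 ⟨?_, fun c hc => ?_⟩,
      fun v hv => (hU v hv).mono (Nat.le_succ _) hfe⟩
    · rw [qv_nrQ]
      exact hx.pl hp
    · rw [vc_short (Nat.le_succ S.m)
        fun i hi => qv_short ((Nat.le_of_ble_eq_true (h3 c hc)).trans hi),
        vc_congr hfe fun _ _ => rfl]
      exact hB c hc

theorem om_im (h1 : S.la.val 5 ≠ 0) (h2 : (S.om.val 5).re = 0) : (S.om.val 5).im ≠ 0 := by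
  intro h
  apply h1
  have h3 : S.om.val 5 = 0 := by
    rw [← Quaternion.re_add_im (S.om.val 5), h, h2, Quaternion.coe_zero, add_zero]
  rw [Sr.la, R4.val_sm, val_nqR, h3, map_zero, mul_zero]

end K3

open K3

theorem master (hA : Ang W) (hH : H ≤ W) (hS : Good S) (hT : T.ok S = true) (he : On T.k e)
    (hB : Ro H T.k e (dL S.rt ++ T.ex)) (hU : ∀ v, U v → Sp S.m e v)
    (htg : ∀ t ∈ T.tg, ¬ Has W U t.1 t.2) (P : V n → Prop)
    (hi : ∀ g ∈ S.mv, ∀ c ∈ dL S.rt, rv S e g.1 = vc S.m e (qv c) → Sg H (rv S e g.1) →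
      (∀ k < S.R, ∀ x, rat (rv S e k) (sr (rv S e g.1) x) = rat (rv S e (byt g.2 k)) x) →
      ∀ x, Sg W x → P (sr (rv S e g.1) x) → P x)
    (h0 : T.al 0 = true → ∀ x, Sg W x → Zr S.m e x → P x)
    (h1 : T.al 1 = true → ∀ x, Sg W x → Cr (S.om.val 5) S.m e x → P x)
    (h2 : T.al 2 = true → ∀ x, Sg W x → Sp S.m e x → P x)
    (h3 : T.al 3 = true → ∀ x, Sg W x → (∀ k < 3, Ax W (rv S e k) x) → P x)
    (h4 : T.al 4 = true → ∀ x, Sg W x → Sp T.k e x → Sg H x → P x)
    (h5 : T.al 5 = true → ∀ x, Sg W x → Mt S.m e (qv (dV T.z)) x → P x) :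
    ∀ x, Sg W x → P x := by
  rw [Sa.ok, nd_iff, frcL_eq] at hT
  obtain ⟨hk, hT⟩ := hT
  replace hk : S.m ≤ T.k := Nat.le_of_ble_eq_true hk
  have he' : On S.m e := he.mono hk
  obtain ⟨-, -, hlen, hla, hre, hc, hmv⟩ := c1_spec hS.h1 he'
  have hRH : Ro H S.m e (dL S.rt) := fun c h => by
    rw [← vc_short hk fun i hi => qv_short ((hc c h).1.trans hi)]
    exact hB c (List.mem_append_left _ h)
  have hRW : Ro W S.m e (dL S.rt) := fun c h => (hRH c h).mono hH
  have hmem : ∀ k < S.R, nth [] (dL S.rt) k ∈ dL S.rt := fun k h =>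
    nth_mem (by rwa [dL, List.length_map, hlen])
  have hrv : ∀ k < S.R, Sg H (rv S e k) := fun k h => hRH _ (hmem k h)
  have hval : ∀ x, Sg W x → ∀ k < S.R, rat (rv S e k) x = vl (cd (rat (rv S e k) x)) :=
    fun x hx k h => cd_val (hA _ _ ((hrv k h).mono hH) hx)
  have hBH := ro_nrQ.2 hB
  have hBW : Ro W T.k e ((dL S.rt ++ T.ex).map (List.map nrQ)) := fun c h => (hBH c h).mono hH
  have hU' : ∀ v, U v → Sp T.k e v := fun v hv => (hU v hv).mono hk fun _ _ => rfl
  have h55 := hS.h5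
  rw [Sr.c5, nd_iff] at h55
  refine dfs_sound (Sg W) P (fun x k => cd (rat (rv S e k) x)) (fun x _ i _ => cd_lt _) ?_ ?_ ?_
    h55.1 h55.2 ?_
  · intro t ht
    obtain ⟨g, hg, rfl⟩ := List.mem_map.1 ht
    obtain ⟨g1, g2⟩ := hmv g hg
    have key : ∀ k < S.R, ∀ x,
        rat (rv S e k) (sr (rv S e g.1) x) = rat (rv S e (byt g.2 k)) x := fun k h x => by
      rw [← rat_sr, (g2 k h).2.rat_left]
    refine ⟨fun i h => (g2 i h).1, fun x hx => ⟨sr (rv S e g.1) x,
      ((hrv _ g1).mono hH).sr hx, fun i h => ?_, hi g hg _ (hmem _ g1) rfl (hrv _ g1) key x hx⟩⟩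
    exact congrArg cd (key i h x)
  · intro v hv t ht t1 t2 t3 x hx
    have h22 := hS.h2
    rw [Sr.c2, frcL_eq] at h22
    simp only [allL_iff] at h22
    obtain ⟨a1, a2, a3⟩ := triL_spec he' (h22 v hv t ht)
    simp only [rv_eq] at a2 a3
    refine (tb_iff _ _ _ _).2 (tri_ok hA ((hrv _ t1).mono hH) ((hrv _ t2).mono hH) hx a1
      (cd_lt _) (cd_lt _) (cd_lt _) ⟨a2, hval x hx _ t1, hval x hx _ t2, ?_⟩)
    rw [← a3.rat_left]
    exact hval x hx _ t3
  · intro v hv r hr x hx A hA'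
    refine rel_spec hS.h1 hS.h3 he' hRW hx.1 hv hr fun t ht h => ?_
    rw [hA' t ht]
    exact ⟨cd_lt _, hval x hx _ h⟩
  · intro p hp x hx hν
    have ho : Out W S e x p.2 := out_spec hA hS he' hRW hx hp fun k h => by
      rw [hν k h]
      exact ⟨cd_lt _, hval x hx _ h⟩
    obtain ⟨q, -, hq⟩ := all2_spec hT p hp
    generalize p.2 = d at ho hq
    cases d with
    | zer => exact h0 (by cases q <;> exact hq) x hx ho
    | cx => exact h1 (by cases q <;> exact hq) x hx ho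
    | spn => exact h2 (by cases q <;> exact hq) x hx ho
    | dig => exact h3 (by cases q <;> exact hq) x hx ho
    | m1 y j =>
      have ho' : Mt S.m e (qv (dV y)) x := ho
      cases q with
      | mem w =>
        obtain ⟨q1, q2⟩ := (nd_iff _ _).1 hq
        obtain ⟨q2, q3⟩ := (nd_iff _ _).1 q2
        rw [frcQ_eq] at q3
        have q4 := chkW_spec he hBH q3
        rw [qv_nrQ] at q4
        have q5 := (ext_short he hk ho' (dV_short q2)).symm
        exact h4 q1 x hx (Sp.pl ⟨_, rfl⟩ q5) (q4.pl q5)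
      | uu =>
        obtain ⟨q1, q2⟩ := (nd_iff _ _).1 hq
        rw [eqL_iff] at q2
        exact h5 q1 x hx (q2 ▸ ho')
      | non => exact (kix_spec hA htg he hk hBW hU' hx ho' hq).elim
      | bad u v => exact (kix_spec hA htg he hk hBW hU' hx ho' hq).elim
      | tr t M ws => exact (kix_spec hA htg he hk hBW hU' hx ho' hq).elim
    | m2 y i j =>
      obtain ⟨hfl, θ, θ1, θ2, ho'⟩ := ho
      have hq' : nd (Nat.beq T.k S.m) (nd (Nat.beq T.ex.length 0)
          (kix S T ((dL S.rt ++ T.ex).map (List.map nrQ)) y q)) = true := by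
        cases q <;> exact hq
      obtain ⟨q1, q2⟩ := (nd_iff _ _).1 hq'
      obtain ⟨q2, q3⟩ := (nd_iff _ _).1 q2
      replace q1 : T.k = S.m := Nat.eq_of_beq_eq_true q1
      replace q2 : T.ex = [] := List.length_eq_zero_iff.1 (Nat.eq_of_beq_eq_true q2)
      obtain ⟨f1, f2, f3⟩ := theta_frame he' θ1
      rw [q2, List.append_nil] at q3
      refine (kix_spec hA htg (q1 ▸ f1) hk (ro_nrQ.2 ?_) (fun v hv => ?_) hx ho' q3).elim
      · rw [q1]
        exact fun c h => (hRW c h).pl (f2 _ fun i hi => G5Aux.commute_trans (om_im hla (hre hfl))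
          ((hc c h).2.2 hfl i hi).symm θ2.symm)
      · rw [q1]
        exact f3 v (hU v hv)
    | neg i j => exact ho.elim
    | ful i j => exact ho.elim
    | tri i j k => exact ho.elim
    | bes => exact ho.elim
    | der b t p q r => exact ho.elim

end Pool.Agent.P.MP_97ea17_al.Geo
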