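import Pool.Agent.P.MP_97ea17_al.F.K3
import Pool.Agent.P.MP_97ea17_al.F.E5

/-! Consequences of a complete search. -/

namespace Pool.Agent.P.MP_97ea17_al.Geo

open scoped Quaternion
open Ck

variable {n : ℕ} {W : Subgroup (GH n)} {U : V n → Prop} {S : Sr} {T : Sa} {ws : List (List ℕ)}

theorem quat_short {D : ℕ} {R : List (List ℤ × List (List ℤ))}
    (h : D = 5 ∨ ∀ r ∈ R, ∀ l ∈ r.2, l.length ≤ 4) :
    ∀ r ∈ R, (fun i => quat D (r.2.getD i [])) = qv (r.2.map zQ) := by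
  intro r hr
  rw [qv_zQ]
  ext1 i
  rcases h with rfl | h
  · rfl
  have h1 : (r.2.getD i []).length ≤ 4 := by
    rcases List.mem_cons.1 (nth_eq [] r.2 i ▸ nth_mem [] r.2 i) with e | e
    · rw [e]; simp
    · exact h r hr _ e
  have h2 : ∀ k, 4 ≤ k → (r.2.getD i []).getD k 0 = 0 := fun k hk =>
    List.getD_eq_default _ _ (h1.trans hk)
  simp only [quat, h2 4 le_rfl, h2 5 (by norm_num), h2 6 (by norm_num), h2 7 (by norm_num),
    Int.cast_zero, zero_mul]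

theorem fin_gen (hW : Std W) (hM : ¬ Mono W) (h2 : ∀ a ξ, Rl W a ξ → ξ = -1) (hA : Ang W)
    (hB : ¬ Bound W) {D : ℕ} {R : List (List ℤ × List (List ℤ))} (hS : Good S)
    (hT : T.ok S = true) (hg : chkL T.k (zL R) (dL S.rt ++ T.ex) ws = true)
    (hb : Bound (grp T.k D R))
    (hd : S.m ≤ T.k ∧ T.al 1 = false ∧ T.al 2 = false ∧ T.al 3 = false ∧ R ≠ [] ∧
      (∀ r ∈ R, r.1 = [-2]) ∧ (D = 5 ∨ ∀ r ∈ R, ∀ l ∈ r.2, l.length ≤ 4))
    (htg : ∀ t ∈ T.tg, ∀ U, ¬ Has W U t.1 t.2)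
    (hZ : ∀ e H, On T.k e → H ≤ W → Ro H T.k e T.ex → ∀ x, Sg W x →
      Zr S.m e x ∨ (T.al 5 = true ∧ Mt S.m e (qv (dV T.z)) x) →
        Zr T.k e x ∨ (Sp T.k e x ∧ Sg H x)) (U : V n → Prop) :
    ¬ Has W U T.k (zL R) := by
  rintro ⟨e, he, hR, -⟩
  obtain ⟨hk, f1, f2, f3, h0, hr, hD⟩ := hd
  refine hB (fin_grp hW hM h2 hb hr h0 he (fun r h => ?_) fun H hH h1 => ?_)
  · rw [quat_short hD r h]
    exact hR _ (List.mem_map_of_mem h)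
  have h3 : Ro H T.k e (dL S.rt ++ T.ex) := chkL_spec he (fun c hc => by
    obtain ⟨r, h, rfl⟩ := List.mem_map.1 hc
    exact quat_short hD r h ▸ h1 r h) hg
  have h4 := hZ e H he hH fun c hc => h3 c (List.mem_append_right _ hc)
  refine master (U := fun _ => False) hA hH hS hT he h3 (fun _ => False.elim)
    (fun t ht => htg t ht _) _ (fun g _ c _ _ h5 _ x _ h => ?_)
    (fun _ x hx h => h4 x hx (Or.inl h)) (by simp [f1]) (by simp [f2]) (by simp [f3])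
    (fun _ x _ h h' => Or.inr ⟨h, h'⟩) fun f x hx h => h4 x hx (Or.inr ⟨f, h⟩)
  have h6 : Sp T.k e (rv S e g.1) := Sp.mono ⟨_, rfl⟩ hk fun _ _ => rfl
  exact h.imp (Zr.of_sr h6 h5.1) fun h => ⟨Sp.of_sr h6 h5.1 h.1, h5.of_sr h.2⟩

theorem fin_full (hW : Std W) (hM : ¬ Mono W) (h2 : ∀ a ξ, Rl W a ξ → ξ = -1) (hA : Ang W)
    (hB : ¬ Bound W) {D : ℕ} {R : List (List ℤ × List (List ℤ))} (hS : Good S)
    (hT : T.ok S = true) (hg : chkL T.k (zL R) (dL S.rt ++ T.ex) ws = true)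
    (hb : Bound (grp T.k D R))
    (hd : S.m = T.k ∧ T.al 5 = false ∧ T.al 1 = false ∧ T.al 2 = false ∧ T.al 3 = false ∧ R ≠ [] ∧
      (∀ r ∈ R, r.1 = [-2]) ∧ (D = 5 ∨ ∀ r ∈ R, ∀ l ∈ r.2, l.length ≤ 4))
    (htg : ∀ t ∈ T.tg, ∀ U, ¬ Has W U t.1 t.2) (U : V n → Prop) : ¬ Has W U T.k (zL R) :=
  fin_gen hW hM h2 hA hB hS hT hg hb ⟨hd.1.le, hd.2.2⟩ htg
    (fun e H _ _ _ x _ h => Or.inl (hd.1 ▸ h.resolve_right (by simp [hd.2.1]))) U

/-- All roots are complex with respect to a frame whose span contains `U`. -/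
def Gd (W : Subgroup (GH n)) (U : V n → Prop) : Prop :=
  ∃ (ω : ℍ[ℝ]) (m : ℕ) (e : ℕ → V n), On m e ∧ ω.im ≠ 0 ∧ (∀ y, Sg W y → Cr ω m e y) ∧
    ∀ v, U v → Sp m e v

theorem cx_gen (hA : Ang W) (hS : Good S) (hT : T.ok S = true) {G : List (List Q4)}
    (hg : chkL S.m G (dL S.rt ++ T.ex) ws = true)
    (hd : T.k = S.m ∧ S.fl = false ∧ T.al 0 = false ∧ T.al 2 = false ∧ T.al 3 = false ∧
      T.al 4 = false ∧ T.al 5 = false)
    (htg : ∀ t ∈ T.tg, ∀ U, ¬ Has W U t.1 t.2) (h : Has W U S.m G) : Gd W U := by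
  obtain ⟨e, he, hR, hU⟩ := h
  obtain ⟨hk, hf, f0, f2, f3, f4, f5⟩ := hd
  obtain ⟨-, -, -, h1, h2, h3, -⟩ := c1_spec hS.h1 he
  refine ⟨S.om.val 5, S.m, e, he, fun h => h1 ?_, ?_, hU⟩
  · have : S.om.val 5 = 0 := by rw [← Quaternion.re_add_im (S.om.val 5), h, h2 hf]; simp
    rw [Sr.la, R4.val_sm, val_nqR, this, map_zero, mul_zero]
  exact master hA le_rfl hS hT (hk ▸ he) (hk ▸ chkL_spec he hR hg) hU (fun t ht => htg t ht _) _
    (fun g _ c hc e1 h5 _ x _ h => Cr.of_sr he ((h3 c hc).2.2 hf) (e1 ▸ h5.1) (e1 ▸ h))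
    (by simp [f0]) (fun _ _ _ h => h) (by simp [f2]) (by simp [f3]) (by simp [f4]) (by simp [f5])

theorem plane_gen (hW : Std W) (hM : ¬ Mono W) (hA : Ang W) (hS : Good S) (hT : T.ok S = true)
    {G : List (List Q4)} (hg : chkL S.m G (dL S.rt ++ T.ex) ws = true)
    (hd : T.k = S.m ∧ S.rt ≠ [] ∧ T.al 1 = false ∧ T.al 3 = false ∧ T.al 4 = false ∧
      T.al 5 = false)
    (htg : ∀ t ∈ T.tg, ¬ Has W U t.1 t.2) (h : Has W U S.m G) : S.m = n := by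
  obtain ⟨e, he, hR, hU⟩ := h
  obtain ⟨hk, h0, f1, f3, f4, f5⟩ := hd
  have h1 := chkL_spec he hR hg
  obtain ⟨c, hc⟩ := List.exists_mem_of_ne_nil _ h0
  refine (fin_span hW hM he (h1 _ (List.mem_append_left _ (List.mem_map_of_mem hc))) ⟨_, rfl⟩
    (master hA le_rfl hS hT (hk ▸ he) (hk ▸ h1) hU htg _ (fun g _ c _ _ h5 _ x _ h => ?_)
      (fun _ _ _ => Or.inl) (by simp [f1]) (fun _ _ _ => Or.inr) (by simp [f3]) (by simp [f4])
      (by simp [f5]))).1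
  exact h.imp (Zr.of_sr ⟨_, rfl⟩ h5.1) (Sp.of_sr ⟨_, rfl⟩ h5.1)

theorem axis_gen (hW : Std W) (hA : Ang W) (hS : Good S) (hT : T.ok S = true)
    {G : List (List Q4)} (hg : chkL S.m G (dL S.rt ++ T.ex) ws = true)
    (hd : T.k = S.m ∧ 3 ≤ S.R ∧ (∀ g ∈ S.mv, ∀ k < 3, byt g.2 k < 3) ∧ T.al 0 = false ∧
      T.al 1 = false ∧ T.al 2 = false ∧ T.al 4 = false ∧ T.al 5 = false)
    (htg : ∀ t ∈ T.tg, ∀ U, ¬ Has W U t.1 t.2) {e : ℕ → V n} (he : On S.m e)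
    (hR : Ro W S.m e G) : Mono W := by
  obtain ⟨hk, h0, hv, f0, f1, f2, f4, f5⟩ := hd
  have h1 := chkL_spec he hR hg
  have h2 : Ro W S.m e (dL S.rt) := fun c hc => h1 c (List.mem_append_left _ hc)
  refine mono_of_axis hW (K2.rv_sg hS.h1 he h2 (k := 0) (by omega)) fun x hx =>
    master (U := fun _ => False) hA le_rfl hS hT (hk ▸ he) (hk ▸ h1) (fun _ => False.elim)
      (fun t ht => htg t ht _) (fun x => ∀ k < 3, Ax W (rv S e k) x)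
      (fun g hg c _ _ h5 h6 x _ h k hk => ?_) (by simp [f0]) (by simp [f1]) (by simp [f2])
      (fun _ _ _ h => h) (by simp [f4]) (by simp [f5]) x hx 0 (by norm_num)
  rw [Ax, (pl_sr_sr h5.1 x).rat_right, h6 k (by omega)]
  refine (h _ (hv g hg k hk)).imp_right (Or.imp_right fun ⟨h7, z, hz, h8⟩ => ⟨h7, _, h5.sr hz, ?_⟩)
  rw [rat_sr, h8]

end Pool.Agent.P.MP_97ea17_al.Geo
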