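import Pool.Agent.P.MP_97ea17_al.Arith
import Pool.Agent.P.MP_97ea17_al.F.EChk
import Pool.Agent.P.MP_97ea17_al.F.EDefs

/-! Meaning of the checkers: definitions. -/

namespace Pool.Agent.P.MP_97ea17_al.Geo

open scoped Quaternion
open Ck

variable {n : ℕ}

/-- Coordinates given by a list. -/
noncomputable def qv (c : List Q4) : ℕ → ℍ[ℝ] := fun i => (qt c i).val 5

/-- All members of `L` are roots of `H`. -/
def Ro (H : Subgroup (GH n)) (m : ℕ) (e : ℕ → V n) (L : List (List Q4)) : Prop :=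
  ∀ c ∈ L, Sg H (vc m e (qv c))

/-- `W` contains a copy of `L` whose span contains `U`. -/
def Has (W : Subgroup (GH n)) (U : V n → Prop) (m : ℕ) (L : List (List Q4)) : Prop :=
  ∃ e, On m e ∧ Ro W m e L ∧ ∀ v, U v → Sp m e v

/-- Root number `k` of a search. -/
noncomputable def rv (S : Sr) (e : ℕ → V n) (k : ℕ) : V n :=
  vc S.m e (qv (nth [] (dL S.rt) k))

/-- Conclusion of the analysis. -/
def Out (W : Subgroup (GH n)) (S : Sr) (e : ℕ → V n) (x : V n) : Hd → Prop
  | .zer => Zr S.m e x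
  | .cx => Cr (S.om.val 5) S.m e x
  | .spn => Sp S.m e x
  | .dig => ∀ k < 3, Ax W (rv S e k) x
  | .m1 y _ => Mt S.m e (qv (dV y)) x
  | .m2 y _ _ => S.fl = false ∧ ∃ θ, Quaternion.normSq θ = 1 ∧ Commute θ (S.om.val 5) ∧
      Mt S.m (fun i => rs (e i) θ) (qv (dV y)) x
  | _ => False

/-- All checks of a search succeed. -/
structure Good (S : Sr) : Prop where
  h1 : S.c1 = true
  h2 : S.c2 = true
  h3 : S.c3 = true
  h4 : S.c4 = true
  h5 : S.c5 = true
  h6 : S.c6 = true

/-- Normal form. -/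
def nrR (x : R4) : R4 := ⟨x.p0 - x.n0, x.n0 - x.p0, x.p1 - x.n1, x.n1 - x.p1⟩

/-- Normal form. -/
def nrQ (x : Q4) : Q4 := ⟨nrR x.a, nrR x.b, nrR x.c, nrR x.d⟩

theorem frcR4_eq (x : R4) (k : R4 → Bool) : x.frc k = k (nrR x) := by cases x; rfl

theorem frcQ4_eq (x : Q4) (k : Q4 → Bool) : x.frc k = k (nrQ x) := by
  cases x
  simp only [Q4.frc, frcR4_eq, nrQ]

theorem frcQ_eq (l : List Q4) (k : List Q4 → Bool) : frcQ l k = k (l.map nrQ) := by
  induction l generalizing k with
  | nil => rfl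
  | cons x l ih => exact (frcQ4_eq x fun y => frcQ l fun ys => k (y :: ys)).trans (ih fun ys => k (nrQ x :: ys))

theorem frcL_eq (L : List (List Q4)) (k : List (List Q4) → Bool) :
    frcL L k = k (L.map (List.map nrQ)) := by
  induction L generalizing k with
  | nil => rfl
  | cons x L ih => exact (frcQ_eq x _).trans (ih fun ys => k (x.map nrQ :: ys))

theorem val_nrR (x : R4) : (nrR x).val 5 = x.val 5 :=
  R4.val_beq ((R4.beq_iff _ _).2 (by simp only [nrR]; omega))

theorem val_nrQ (x : Q4) : (nrQ x).val 5 = x.val 5 := by simp only [nrQ, Q4.val, val_nrR]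

theorem qv_nrQ (c : List Q4) : qv (c.map nrQ) = qv c := by
  ext1 i
  simp only [qv, qt, val_nth, List.map_map]
  congr 2
  ext1 x
  exact val_nrQ x

theorem nth_nrQ (L : List (List Q4)) (k : ℕ) :
    nth [] (L.map (List.map nrQ)) k = (nth [] L k).map nrQ := by
  rw [nth_eq, nth_eq, ← List.getD_map (f := List.map nrQ), List.map_nil]

theorem ro_nrQ {H : Subgroup (GH n)} {m : ℕ} {e : ℕ → V n} {L : List (List Q4)} :
    Ro H m e (L.map (List.map nrQ)) ↔ Ro H m e L := by
  simp only [Ro, List.forall_mem_map, qv_nrQ]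

@[simp] theorem orr_iff (a b : Bool) : orr a b = true ↔ a = true ∨ b = true := by
  cases a <;> simp [orr]

@[simp] theorem nt_iff (a : Bool) : nt a = true ↔ ¬ a = true := by cases a <;> simp [nt]

theorem cnd_eq {α : Type} (c : Bool) (a b : α) : cnd c a b = if c = true then a else b := by
  cases c <;> rfl

@[simp] theorem anyL_iff {α : Type} (l : List α) (f : α → Bool) :
    anyL l f = true ↔ ∃ x ∈ l, f x = true := by
  induction l with
  | nil => simp [anyL]
  | cons x l ih =>
    change orr (f x) (anyL l f) = true ↔ _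
    simp [ih]

theorem all2_spec {α β : Type} {f : α → β → Bool} {l : List α} {l' : List β}
    (h : all2 f l l' = true) : ∀ x ∈ l, ∃ y ∈ l', f x y = true := by
  induction l generalizing l' with
  | nil => simp
  | cons x l ih =>
    cases l' with
    | nil => cases h
    | cons y l' =>
      obtain ⟨h1, h2⟩ := (nd_iff (f x y) (all2 f l l')).1 h
      refine List.forall_mem_cons.2 ⟨⟨y, List.mem_cons_self, h1⟩, fun z hz => ?_⟩
      obtain ⟨w, hw, h3⟩ := ih h2 z hz
      exact ⟨w, List.mem_cons_of_mem _ hw, h3⟩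

end Pool.Agent.P.MP_97ea17_al.Geo
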