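import Pool.Agent.P.MP_97ea17_al.F.MDefs

/-! Operators on the tensor power of the rank-one module. -/

namespace Pool.Agent.P.MP_97ea17_al.Mo.M1Aux

open MvPolynomial
open scoped Matrix

variable {n : ℕ}

/-- Linear form on a block. -/
noncomputable abbrev mlN (i : Fin n) (l : Fin 2 → ℂ) : PN n := ml (i, 0) (i, 1) l

/-- Bracket on a block. -/
noncomputable abbrev dlN (i : Fin n) (l : Fin 2 → ℂ) : Derivation ℂ (PN n) (PN n) :=
  dl (i, 0) (i, 1) l

theorem hb (i : Fin n) : ((i, 0) : Fin n × Fin 2) ≠ (i, 1) := by simp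

theorem eval_mlN (i : Fin n) (l : Fin 2 → ℂ) (x : Fin n × Fin 2 → ℂ) :
    eval x (mlN i l) = l ⬝ᵥ blN i x := by
  simp [mlN, ml, dotProduct, blN_apply, smul_eval]

theorem sub_mlN (π : Equiv.Perm (Fin n)) (a : Fin n → SL2) (i : Fin n) (l : Fin 2 → ℂ) :
    sub (monN π a) (mlN i l) = mlN (π i) (l ᵥ* (a i).1) := by
  apply MvPolynomial.funext
  intro x
  rw [eval_sub', eval_mlN, eval_mlN, monN_mulVec, Matrix.dotProduct_mulVec]

theorem X_eq_mlN (i : Fin n) (α : Fin 2) : (X (i, α) : PN n) = mlN i (Pi.single α 1) := by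
  fin_cases α <;> simp [ml]

theorem dlN_mlN (i j : Fin n) (l l' : Fin 2 → ℂ) (f : PN n) :
    dlN i l (mlN j l' * f) = mlN j l' * dlN i l f + if i = j then om l l' • f else 0 := by
  split_ifs with h
  · subst h; exact dl_mul_ml (hb i) l l' f
  · rw [add_zero]
    exact dl_mul_ml' (by simp [Ne.symm h]) (by simp) (by simp) (by simp [Ne.symm h]) l l' f

theorem euN_mlN (i j : Fin n) (l : Fin 2 → ℂ) (f : PN n) :
    euN i (mlN j l * f) = mlN j l * euN i f + if i = j then mlN j l * f else 0 := by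
  split_ifs with h
  · subst h; exact eu_mul_ml (hb i) l f
  · rw [add_zero]
    exact eu_mul_ml' (by simp [Ne.symm h]) (by simp) (by simp) (by simp [Ne.symm h]) l f

theorem euN_dlN (i j : Fin n) (l : Fin 2 → ℂ) (f : PN n) :
    euN i (dlN j l f) = dlN j l (euN i f) - if i = j then dlN j l f else 0 := by
  split_ifs with h
  · subst h; exact eu_dl (hb i) l f
  · rw [sub_zero]
    exact eu_dl' (by simp [h]) (by simp) (by simp) (by simp [h]) l f

theorem sub_dlN (π : Equiv.Perm (Fin n)) (a : Fin n → SL2) (i : Fin n) (l : Fin 2 → ℂ)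
    (f : PN n) :
    dlN (π i) (l ᵥ* (a i).1) (sub (monN π a) f) = sub (monN π a) (dlN i l f) := by
  refine der_sub _ _ _ (fun ⟨j, α⟩ => ?_) f
  rw [X_eq_mlN, sub_mlN, ← mul_one (mlN _ _), ← mul_one (mlN j _), dlN_mlN, dlN_mlN]
  by_cases h : i = j
  · subst h
    rw [if_pos rfl, if_pos rfl, om_vecMul]
    simp
  · simp [h]

/-- Flip of a tag. -/
def flN (i : Fin n) (t : Fin n → Bool) : Fin n → Bool := Function.update t i (!t i)

theorem flN_self (i : Fin n) (t : Fin n → Bool) : flN i t i = !t i := by simp [flN]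

theorem flN_ne {i j : Fin n} (h : j ≠ i) (t : Fin n → Bool) : flN i t j = t j := by
  simp [flN, h]

theorem flN_flN (i : Fin n) (t : Fin n → Bool) : flN i (flN i t) = t := by simp [flN]

theorem flN_comm {i j : Fin n} (h : i ≠ j) (t : Fin n → Bool) :
    flN i (flN j t) = flN j (flN i t) := by
  funext k
  by_cases h1 : k = i
  · subst h1; rw [flN_self, flN_ne h, flN_ne h, flN_self]
  · by_cases h2 : k = j
    · subst h2; rw [flN_ne h1, flN_self, flN_self, flN_ne h1]
    · rw [flN_ne h1, flN_ne h2, flN_ne h2, flN_ne h1]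

theorem flN_comp (π : Equiv.Perm (Fin n)) (i : Fin n) (t : Fin n → Bool) :
    flN (π i) t ∘ π = flN i (t ∘ π) := by
  funext k
  by_cases h : k = i
  · subst h; simp [flN_self]
  · rw [Function.comp_apply, flN_ne h, flN_ne (fun e => h (π.injective e))]; rfl

/-- The operator of a covector on one block. -/
noncomputable def xaN (i : Fin n) :
    (Fin 2 → ℂ) →ₗ[ℂ] Module.End ℂ ((Fin n → Bool) → PN n) :=
  LinearMap.mk₂ ℂ (fun l f t => if t i then mlN i l * f (flN i t) else dlN i l (f (flN i t)))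
    (fun l l' f => by
      ext1 t
      simp only [ml_add, dl_add, Pi.add_apply, add_mul]
      split_ifs <;> rfl)
    (fun c l f => by
      ext1 t
      simp only [ml_smul, dl_smul, Pi.smul_apply, smul_mul_assoc]
      split_ifs <;> rfl)
    (fun l f g => by
      ext1 t
      simp only [map_add, Pi.add_apply, mul_add]
      split_ifs <;> rfl)
    (fun c l f => by
      ext1 t
      simp only [Derivation.map_smul, Pi.smul_apply, mul_smul_comm]
      split_ifs <;> rfl)

theorem xaN_apply (i : Fin n) (l : Fin 2 → ℂ) (f : (Fin n → Bool) → PN n) (t : Fin n → Bool) :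
    xaN i l f t = if t i then mlN i l * f (flN i t) else dlN i l (f (flN i t)) := rfl

/-- The finite-dimensional part. -/
noncomputable def LN (n e : ℕ) : Submodule ℂ ((Fin n → Bool) → PN n) where
  carrier := {f | ∀ t i, euN i (f t) = ((e : ℂ) + if t i then 1 else 0) • f t}
  add_mem' ha hb t i := by simp [ha t i, hb t i]
  zero_mem' t i := by simp
  smul_mem' c f hf t i := by simp [hf t i, smul_comm c]

theorem xaN_mem {e : ℕ} (j : Fin n) (l : Fin 2 → ℂ) {f : (Fin n → Bool) → PN n}
    (hf : f ∈ LN n e) : xaN j l f ∈ LN n e := by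
  intro t i
  rw [xaN_apply]
  by_cases h : i = j
  · subst h
    cases h1 : t i <;>
      simp [-Derivation.leibniz, euN_mlN, euN_dlN, hf _ i, flN_self, h1, add_smul]
  · cases h1 : t j <;> simp [-Derivation.leibniz, euN_mlN, euN_dlN, hf _ i, flN_ne h, h]

theorem xaN_comm {i j : Fin n} (h : i ≠ j) (l l' : Fin 2 → ℂ) (f : (Fin n → Bool) → PN n) :
    xaN i l (xaN j l' f) = xaN j l' (xaN i l f) := by
  ext1 t
  simp only [xaN_apply, flN_ne h, flN_ne h.symm, flN_comm h]
  cases t i <;> cases t j <;> simp [-Derivation.leibniz, dlN_mlN, h, h.symm, mul_left_comm]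
  exact dl_comm ..

theorem xaN_brk {e : ℕ} (i : Fin n) (l l' : Fin 2 → ℂ) {f : (Fin n → Bool) → PN n}
    (hf : f ∈ LN n e) (t : Fin n → Bool) :
    (xaN i l (xaN i l' f) - xaN i l' (xaN i l f)) t =
      (om l l' * if t i then -(e + 1 : ℂ) else e + 2) • f t := by
  have h1 := ml_dl_key (i, 0) (i, 1) l l' (f t)
  have h2 : eu (i, 0) (i, 1) (f t) = _ := hf t i
  have h3 : om l' l = -om l l' := by simp [om]; ring
  rw [h2] at h1
  simp only [Pi.sub_apply, xaN_apply, flN_self, flN_flN]
  cases h4 : t i <;> simp [-Derivation.leibniz, dlN_mlN, h1, h3, h4] <;> module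

theorem xaN_self (i : Fin n) (l : Fin 2 → ℂ) (f : (Fin n → Bool) → PN n) (t : Fin n → Bool) :
    xaN i l (xaN i l f) t = mlN i l * dlN i l (f t) := by
  simp only [xaN_apply, flN_self, flN_flN]
  cases t i <;> simp [-Derivation.leibniz, dlN_mlN, om_self]

/-- Action of a monomial matrix. -/
noncomputable def tN (π : Equiv.Perm (Fin n)) (a : Fin n → SL2) :
    Module.End ℂ ((Fin n → Bool) → PN n) :=
  LinearMap.pi fun t => (sub (monN π a)).toLinearMap ∘ₗ LinearMap.proj (t ∘ π)

theorem tN_apply (π : Equiv.Perm (Fin n)) (a : Fin n → SL2) (f : (Fin n → Bool) → PN n)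
    (t : Fin n → Bool) : tN π a f t = sub (monN π a) (f (t ∘ π)) := rfl

theorem tN_xaN (π : Equiv.Perm (Fin n)) (a : Fin n → SL2) (i : Fin n) (l : Fin 2 → ℂ)
    (f : (Fin n → Bool) → PN n) :
    tN π a (xaN i l f) = xaN (π i) (l ᵥ* (a i).1) (tN π a f) := by
  ext1 t
  simp only [tN_apply, xaN_apply, flN_comp, Function.comp_apply]
  split_ifs
  · rw [map_mul, sub_mlN]
  · rw [sub_dlN]

/-- Sign operator of a block. -/
noncomputable def qN (i : Fin n) : Module.End ℂ ((Fin n → Bool) → PN n) :=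
  LinearMap.pi fun t => (if t i then (-1 : ℂ) else 1) • LinearMap.proj t

theorem qN_apply (i : Fin n) (f : (Fin n → Bool) → PN n) (t : Fin n → Bool) :
    qN i f t = (if t i then (-1 : ℂ) else 1) • f t := rfl

theorem qN_xaN (i j : Fin n) (l : Fin 2 → ℂ) (f : (Fin n → Bool) → PN n) :
    qN i (xaN j l f) = (if j = i then (-1 : ℂ) else 1) • xaN j l (qN i f) := by
  ext1 t
  rw [Pi.smul_apply, qN_apply, xaN_apply, xaN_apply, qN_apply]
  by_cases h : j = i
  · subst h
    rw [flN_self]
    cases t j <;> simp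
  · rw [flN_ne (Ne.symm h), if_neg h]
    cases t i <;> cases t j <;> simp

theorem mono_split (i : Fin n) (w : Fin n × Fin 2 →₀ ℕ) : (monomial w (1 : ℂ) : PN n) =
    X (i, 0) ^ w (i, 0) * X (i, 1) ^ w (i, 1) *
      monomial ((w.erase (i, 0)).erase (i, 1)) (1 : ℂ) := by
  rw [X_pow_eq_monomial, X_pow_eq_monomial, monomial_mul, monomial_mul]
  congr 2
  · ext ⟨j, α⟩
    by_cases h : j = i
    · subst h
      fin_cases α <;> simp
    · simp [h]
  · simp

theorem all_monomialsN (N : Submodule ℂ (PN n))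
    (hN : ∀ i l, ∀ f ∈ N, mlN i l * dlN i l f ∈ N) {f : PN n} (hf : f ∈ N) (h0 : f ≠ 0)
    {e : Fin n → ℕ} (he : ∀ i, euN i f = (e i : ℂ) • f) (s : Fin n × Fin 2 →₀ ℕ)
    (hs : ∀ i, s (i, 0) + s (i, 1) = e i) : monomial s (1 : ℂ) ∈ N := by
  classical
  have hE : ∀ i, ∀ f ∈ N, X (i, 0) * pderiv (i, 1) f ∈ N := fun i f hf => by
    simpa [ml, dl_apply] using hN i ![1, 0] f hf
  have hF : ∀ i, ∀ f ∈ N, X (i, 1) * pderiv (i, 0) f ∈ N := fun i f hf => by
    simpa [ml, dl_apply] using hN i ![0, 1] f hf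
  have hdeg : ∀ s ∈ f.support, ∀ i, s (i, 0) + s (i, 1) = e i := fun s hs i => by
    exact_mod_cast deg_of_eu (he i) hs
  obtain ⟨u, hu, h1⟩ := exists_monomial N
    (fun (i : Fin n) f => X (i, 0) * pderiv (i, 0) f - X (i, 1) * pderiv (i, 1) f)
    (fun i s => (s (i, 0) : ℂ) - s (i, 1))
    (fun _ f s => by rw [coeff_sub, coeff_X_pderiv, coeff_X_pderiv]; ring)
    (fun i f hf => by rw [← EF_comm]; exact sub_mem (hE i _ (hF i _ hf)) (hF i _ (hE i _ hf)))
    _ f hf h0 le_rfl (fun s hs t ht h => by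
      ext ⟨i, α⟩
      have h1 := hdeg s hs i
      have h2 := hdeg t ht i
      have h3 : (s (i, 0) : ℤ) - s (i, 1) = t (i, 0) - t (i, 1) := by exact_mod_cast h i
      fin_cases α <;> simp <;> omega)
  let w : Finset (Fin n) → Fin n × Fin 2 →₀ ℕ := fun F =>
    Finsupp.equivFunOnFinite.symm fun p => if p.1 ∈ F then s p else u p
  have hw : ∀ F p, w F p = if p.1 ∈ F then s p else u p := fun F p => rfl
  have key : ∀ F, monomial (w F) (1 : ℂ) ∈ N := by
    intro F
    induction F using Finset.induction_on with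
    | empty =>
      have : w ∅ = u := by ext p; simp [hw]
      rwa [this]
    | insert i F hi ih =>
      have e1 : ((w (insert i F)).erase (i, 0)).erase (i, 1)
          = ((w F).erase (i, 0)).erase (i, 1) := by
        ext ⟨j, α⟩
        by_cases h : j = i
        · subst h
          fin_cases α <;> simp
        · simp [h, hw]
      rw [mono_split i] at ih ⊢
      rw [e1]
      refine conn (hb i) N (e i) ?_ ?_ (fun a b _ h => ⟨hE _ _ h, hF _ _ h⟩) ?_ ih _ _ ?_
      · simp [pderiv_monomial]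
      · simp [pderiv_monomial]
      · simp only [hw, if_neg hi]; exact hdeg u hu i
      · simp only [hw, Finset.mem_insert_self, if_true]; exact hs i
  have : w Finset.univ = s := by ext p; simp [hw]
  rw [← this]
  exact key _

end Pool.Agent.P.MP_97ea17_al.Mo.M1Aux
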