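import Pool.Agent.P.MP_97ea17_al.F.MDefs
import Pool.Agent.P.MP_97ea17_al.F.M1a

/-! The tensor power of the rank-one module. -/

namespace Pool.Agent.P.MP_97ea17_al.Mo

open MvPolynomial
open scoped Matrix

theorem one_le_finrank {σ G : Type} [Fintype σ] [DecidableEq σ] [Group G] [Finite G]
    (c : G →* Matrix σ σ ℂ) : 1 ≤ Module.finrank ℂ (MvPolynomial σ ℂ ⧸ invI c) := by
  have := finite_quot c
  have hle : invI c ≤ RingHom.ker (constantCoeff : MvPolynomial σ ℂ →+* ℂ) := by
    refine Ideal.span_le.2 ?_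
    rintro p ⟨⟨d, hd, hp⟩, -⟩
    change constantCoeff p = 0
    rw [constantCoeff_eq]
    exact hp.coeff_eq_zero (by simpa using hd.ne)
  have hne : invI c ≠ ⊤ := by
    intro h
    have : (1 : MvPolynomial σ ℂ) ∈ RingHom.ker (constantCoeff : MvPolynomial σ ℂ →+* ℂ) :=
      hle (h ▸ Submodule.mem_top)
    simp at this
  have : Nontrivial (MvPolynomial σ ℂ ⧸ invI c) := Ideal.Quotient.nontrivial_iff.2 hne
  exact Module.finrank_pos

namespace M1Aux

variable {n : ℕ}

theorem mlN_ne (i : Fin n) : mlN i ![1, 0] ≠ 0 := by simp [ml]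

theorem exists_dlN {i : Fin n} {p : PN n} (hp : p ≠ 0) {e : ℕ}
    (h : euN i p = ((e : ℂ) + 1) • p) : ∃ l, dlN i l p ≠ 0 := by
  by_contra hc
  push Not at hc
  have h1 : pderiv (i, 1) p = 0 := by simpa [dl_apply] using hc ![1, 0]
  have h2 : pderiv (i, 0) p = 0 := by simpa [dl_apply] using hc ![0, 1]
  rw [eu_apply, h1, h2, mul_zero, mul_zero, add_zero] at h
  exact smul_ne_zero (Nat.cast_add_one_ne_zero e) hp h.symm

theorem xaN_single (i : Fin n) (l : Fin 2 → ℂ) (t : Fin n → Bool) (p : PN n) :
    xaN i l (Pi.single t p) =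
      Pi.single (flN i t) (if t i then dlN i l p else mlN i l * p) := by
  ext1 t'
  rw [xaN_apply]
  by_cases e : t' = flN i t
  · subst e
    rw [flN_self, flN_flN, Pi.single_eq_same, Pi.single_eq_same]
    cases t i <;> simp
  · have : flN i t' ≠ t := fun e' => e (by rw [← e', flN_flN])
    simp [e, this]

theorem genN {e : ℕ} (N : Submodule ℂ ((Fin n → Bool) → PN n)) (hN : N ≤ LN n e) {v : PN n}
    (hv0 : v ≠ 0) {b : Bool} (hv : Pi.single (fun _ => b) v ∈ N)
    (hX : ∀ i l, ∀ y ∈ N, xaN i l y ∈ N) (t : Fin n → Bool) (s : Fin n × Fin 2 →₀ ℕ)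
    (hs : ∀ i, s (i, 0) + s (i, 1) = e + if t i then 1 else 0) :
    Pi.single t (monomial s (1 : ℂ)) ∈ N := by
  classical
  have h1 : ∀ i (t : Fin n → Bool), (∃ p : PN n, p ≠ 0 ∧ Pi.single t p ∈ N) →
      ∃ p : PN n, p ≠ 0 ∧ Pi.single (flN i t) p ∈ N := by
    rintro i t ⟨p, hp, h⟩
    cases ht : t i
    · have := hX i ![1, 0] _ h
      rw [xaN_single, ht] at this
      exact ⟨_, mul_ne_zero (mlN_ne i) hp, this⟩
    · have h2 := hN h t i
      rw [Pi.single_eq_same, ht, if_pos rfl] at h2
      obtain ⟨l, hl⟩ := exists_dlN hp h2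
      have := hX i l _ h
      rw [xaN_single, ht] at this
      exact ⟨_, hl, this⟩
  have h2 : ∀ F : Finset (Fin n),
      ∃ p : PN n, p ≠ 0 ∧ Pi.single (fun i => if i ∈ F then !b else b) p ∈ N := by
    intro F
    induction F using Finset.induction_on with
    | empty => exact ⟨v, hv0, by simpa using hv⟩
    | insert i F hi ih =>
      have : (fun j => if j ∈ insert i F then !b else b)
          = flN i (fun j => if j ∈ F then !b else b) := by
        funext j
        by_cases h : j = i
        · subst h; simp [flN_self, hi]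
        · simp [flN_ne h, h]
      rw [this]
      exact h1 i _ ih
  obtain ⟨p, hp, h⟩ : ∃ p : PN n, p ≠ 0 ∧ Pi.single t p ∈ N := by
    have := h2 (Finset.univ.filter fun i => t i ≠ b)
    have e1 : (fun i => if i ∈ Finset.univ.filter (fun i => t i ≠ b) then !b else b) = t := by
      funext i
      cases h : t i <;> cases b <;> simp [h]
    rwa [e1] at this
  refine all_monomialsN (N.comap (LinearMap.single ℂ (fun _ => PN n) t)) (fun i l f hf => ?_) h hp
    (e := fun i => e + if t i then 1 else 0) (fun i => ?_) s hs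
  · change Pi.single t _ ∈ N
    convert hX i l _ (hX i l _ hf) using 1
    ext1 t'
    rw [xaN_self]
    by_cases e : t' = t <;> simp [e]
  · have := hN h t i
    rw [Pi.single_eq_same] at this
    rw [this]
    split_ifs <;> simp

/-- The operator of a covector. -/
noncomputable def xhN (n : ℕ) :
    (Fin n × Fin 2 → ℂ) →ₗ[ℂ] Module.End ℂ ((Fin n → Bool) → PN n) :=
  ∑ i, xaN i ∘ₗ blN i

theorem xhN_apply (l : Fin n × Fin 2 → ℂ) (y : (Fin n → Bool) → PN n) :
    xhN n l y = ∑ i, xaN i (blN i l) y := by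
  simp [xhN, LinearMap.sum_apply]

theorem xhN_block (i : Fin n) (l : Fin 2 → ℂ) (y : (Fin n → Bool) → PN n) :
    xhN n (fun p => if p.1 = i then l p.2 else 0) y = xaN i l y := by
  rw [xhN_apply, Finset.sum_eq_single i]
  · congr 2
    ext α; simp [blN_apply]
  · intro j _ hj
    have : blN j (fun p : Fin n × Fin 2 => if p.1 = i then l p.2 else 0) = 0 := by
      ext α; simp [blN_apply, hj]
    rw [this]; simp
  · simp

theorem xhN_brk (l l' : Fin n × Fin 2 → ℂ) (y : (Fin n → Bool) → PN n) :
    xhN n l (xhN n l' y) - xhN n l' (xhN n l y) =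
      ∑ i, (xaN i (blN i l) (xaN i (blN i l') y) - xaN i (blN i l') (xaN i (blN i l) y)) := by
  simp only [xhN_apply, map_sum]
  rw [Finset.sum_comm, ← Finset.sum_sub_distrib]
  refine Finset.sum_congr rfl fun i _ => ?_
  rw [← Finset.sum_sub_distrib, Finset.sum_eq_single i]
  · intro j _ hj
    rw [xaN_comm hj, sub_self]
  · simp

end M1Aux

open M1Aux in
theorem modM {n : ℕ} {G : Type} [Group G] [Finite G]
    (c : G →* Matrix (Fin n × Fin 2) (Fin n × Fin 2) ℂ) {ι : Type} (γ : ι → G)
    (hγ : Function.Surjective γ) (π : ι → Equiv.Perm (Fin n)) (a : ι → Fin n → SL2)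
    (hc : ∀ q, c (γ q) = monN (π q) (a q)) (e : ℕ) (b : Bool) {v : PN n} (hv : v ≠ 0)
    (hve : ∀ i, euN i v = ((e : ℂ) + if b then 1 else 0) • v) (ψ : ι → ℂ) (hψ : ∀ q, ψ q ≠ 0)
    (hs : ∀ q, sub (monN (π q) (a q)) v = ψ q • v)
    (hu : ∀ (t : Fin n → Bool) (f : PN n),
      (∀ i, euN i f = ((e : ℂ) + if t i then 1 else 0) • f) →
      (∀ q, t ∘ π q = t → sub (monN (π q) (a q)) f = ψ q • f) →
      if t = fun _ => b then f ∈ Submodule.span ℂ {v} else f = 0) :
    (2 * e + 3) ^ n ≤ Module.finrank ℂ (PN n ⧸ invI c) := by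
  classical
  set lo : Fin n → Bool := fun _ => b with hlo
  let tg : Fin (2 * e + 3) → Bool := fun a => decide (e < a.val)
  let ex : Fin (2 * e + 3) → Fin 2 → ℕ := fun a =>
    if e < a.val then ![a.val - (e + 1), 2 * e + 2 - a.val] else ![a.val, e - a.val]
  let fam : (Fin n → Fin (2 * e + 3)) → (Fin n → Bool) → PN n := fun a => Pi.single (tg ∘ a)
    (monomial (Finsupp.equivFunOnFinite.symm fun p => ex (a p.1) p.2) (1 : ℂ))
  have hdim : Module.finrank ℂ (Submodule.span ℂ (Set.range fam)) = (2 * e + 3) ^ n := by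
    rw [finrank_span_single]
    · simp
    · intro a b a1 a2
      ext i
      have a3 := congrFun a1 i
      have a4 := DFunLike.congr_fun a2 (i, 0)
      simp only [tg, ex, Function.comp_apply, decide_eq_decide,
        Finsupp.equivFunOnFinite_symm_apply_apply] at a3 a4
      split_ifs at a4 <;> simp at a4 <;> omega
  rw [← hdim]
  obtain ⟨N, hN, hvN, hX, -, -, hfin, hle⟩ := filt_bound2 c (LN n e) γ hγ (xhN n)
    (fun q => tN (π q) (a q)) ψ (Pi.single lo v)
    (fun t i => by
      by_cases h : t = lo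
      · simp [h, hlo, hve]
      · simp [h])
    (fun l y hy => by
      rw [xhN_apply]
      exact Submodule.sum_mem _ fun i _ => xaN_mem _ _ hy)
    (fun q l y _ => by
      rw [xhN_apply, xhN_apply, map_sum, hc, ← Equiv.sum_comp (π q)
        (fun i => xaN i (blN i (l ᵥ* monN (π q) (a q))) (tN (π q) (a q) y))]
      refine Finset.sum_congr rfl fun i _ => ?_
      rw [tN_xaN, vecMul_monN])
    (fun q => by
      ext1 t
      rw [tN_apply, Pi.smul_apply]
      by_cases h : t = lo
      · rw [h, show lo ∘ π q = lo from rfl, Pi.single_eq_same, hs q]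
      · rw [Pi.single_eq_of_ne h, Pi.single_eq_of_ne fun e' => h (funext fun i => by
          simpa using congrFun e' ((π q).symm i))]
        simp)
    hψ qN (fun i l p => if p.1 = i then -l p else l p)
    (fun i l y _ => by
      rw [xhN_apply, xhN_apply, map_sum]
      refine Finset.sum_congr rfl fun j _ => ?_
      rw [qN_xaN]
      have : blN j (fun p : Fin n × Fin 2 => if p.1 = i then -l p else l p)
          = (if j = i then (-1 : ℂ) else 1) • blN j l := by
        ext α
        by_cases h : j = i <;> simp [blN_apply, h]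
      rw [this, map_smul, LinearMap.smul_apply])
    (fun i => Submodule.mem_span_singleton.2 ⟨if b then -1 else 1, by
      ext1 t
      rw [qN_apply, Pi.smul_apply]
      by_cases h : t = lo
      · rw [h]
      · simp [h]⟩)
    (fun l l' y hy => by
      rw [xhN_brk]
      refine Submodule.sum_mem _ fun i _ => ?_
      set U := Submodule.span ℂ (insert y (Set.range (fun q => tN (π q) (a q) y) ∪
        Set.range fun k => qN k y))
      have a1 : y ∈ U := Submodule.subset_span (Or.inl rfl)
      have a2 : qN i y ∈ U := Submodule.subset_span (Or.inr (Or.inr ⟨i, rfl⟩))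
      convert add_mem (U.smul_mem (om (blN i l) (blN i l') / 2) a1)
        (U.smul_mem (om (blN i l) (blN i l') * (2 * e + 3) / 2) a2) using 1
      ext1 t
      rw [xaN_brk i _ _ hy, Pi.add_apply, Pi.smul_apply, Pi.smul_apply, qN_apply, smul_smul,
        ← add_smul]
      congr 1
      split_ifs <;> ring)
    (fun y hy hT => by
      have h3 : ∀ t, if t = lo then y t ∈ Submodule.span ℂ {v} else y t = 0 := fun t =>
        hu t (y t) (hy t) fun q hq => by
          have := congrFun (hT q) t
          rwa [tN_apply, hq] at this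
      have h4 := h3 lo
      rw [if_pos rfl] at h4
      obtain ⟨χ, hχ⟩ := Submodule.mem_span_singleton.1 h4
      refine Submodule.mem_span_singleton.2 ⟨χ, funext fun t => ?_⟩
      by_cases h : t = lo
      · rw [h, Pi.smul_apply, Pi.single_eq_same, hχ]
      · have := h3 t
        rw [if_neg h] at this
        rw [this, Pi.smul_apply, Pi.single_eq_of_ne h, smul_zero])
  refine le_trans (Submodule.finrank_mono ?_) hle
  rw [Submodule.span_le]
  rintro _ ⟨a, rfl⟩
  refine genN N hN hv hvN (fun i l y hy => ?_) _ _ fun i => ?_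
  · rw [← xhN_block]
    exact hX _ y hy
  · have := (a i).2
    simp only [tg, ex, Function.comp_apply, decide_eq_true_eq,
      Finsupp.equivFunOnFinite_symm_apply_apply]
    split_ifs <;> simp <;> omega

end Pool.Agent.P.MP_97ea17_al.Mo
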