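import Pool.Agent.P.MP_97ea17_al.F.MDefs

/-! Rank-one invariants and block calculus for monomial groups. -/

namespace Pool.Agent.P.MP_97ea17_al.Mo.M2Aux

open MvPolynomial
open scoped Matrix

theorem trH_pred {M : Matrix (Fin 2) (Fin 2) ℂ} (hdet : M.det = 1) {k : ℕ}
    (hM : M ^ (k + 1) = 1) (h1 : M ≠ 1) (h2 : M ≠ -1) : trH M k = 0 := by
  obtain ⟨z, hz⟩ := IsAlgClosed.exists_pow_nat_eq (M.trace ^ 2 - 4) two_pos
  have e1 : M.trace = (M.trace + z) / 2 + (M.trace - z) / 2 := by ring
  have e2 : M.det = (M.trace + z) / 2 * ((M.trace - z) / 2) := by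
    rw [hdet]; linear_combination hz / 4
  generalize (M.trace + z) / 2 = α at e1 e2
  generalize (M.trace - z) / 2 = β at e1 e2
  have h3 := trace_pow_two M e1 e2 (k + 1)
  rw [hM, Matrix.trace_one, Fintype.card_fin] at h3
  have h4 : α * β = 1 := e2.symm.trans hdet
  have h5 : α ^ (k + 1) * β ^ (k + 1) = 1 := by rw [← mul_pow, h4, one_pow]
  have h6 : α ^ (k + 1) = 1 := by
    have : (α ^ (k + 1) - 1) ^ 2 = 0 := by
      push_cast at h3
      linear_combination (-α ^ (k + 1)) * h3 - h5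
    exact sub_eq_zero.1 (pow_eq_zero_iff two_ne_zero |>.1 this)
  have h7 : β ^ (k + 1) = 1 := by rwa [h6, one_mul] at h5
  have h8 : ∀ N : Matrix (Fin 2) (Fin 2) ℂ, N.det = 1 → N ^ (2 * (k + 1)) = 1 → N.trace = 2 →
      N = 1 := by
    intro N a1 a2 a3
    obtain ⟨y, hy0, hy⟩ := Matrix.exists_mulVec_eq_zero_iff.2 (show (N - 1).det = 0 by
      rw [Matrix.det_fin_two] at a1 ⊢
      rw [Matrix.trace_fin_two] at a3
      simp
      linear_combination a1 - a3)
    rw [Matrix.sub_mulVec, Matrix.one_mulVec, sub_eq_zero] at hy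
    exact eq_one_of_det hy0 hy a1 (by omega) a2
  have h9 : M ^ (2 * (k + 1)) = 1 := by rw [mul_comm, pow_mul, hM, one_pow]
  have h10 : α - β ≠ 0 := by
    intro h
    have : (α - 1) * (α + 1) = 0 := by linear_combination h4 + α * h
    rcases mul_eq_zero.1 this with h' | h'
    · exact h1 (h8 M hdet h9 (by linear_combination e1 + 2 * h' - h))
    · refine h2 (neg_eq_iff_eq_neg.1 (h8 (-M) (by simp [Matrix.det_neg, hdet])
        (by rw [Even.neg_pow (by simp), h9]) ?_))
      rw [Matrix.trace_neg]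
      linear_combination -e1 - 2 * h' + h
  refine mul_left_cancel₀ h10 ?_
  rw [trH_two M e1 e2, h6, h7]
  simp

theorem rank_one (H : Subgroup SL2) [Finite H] :
    ∃ (k : ℕ) (b : Bool) (J : P2), J ≠ 0 ∧ J.IsHomogeneous k ∧ (∀ h ∈ H, sub h.1 J = J) ∧
      (∀ g : P2, g.IsHomogeneous k → (∀ h ∈ H, sub h.1 g = g) → ∃ c : ℂ, c • J = g) ∧
      k + 2 = Nat.card H + (if b then 1 else 0) ∧
      ∀ (g : P2) (d : ℕ), g.IsHomogeneous d → (∀ h ∈ H, sub h.1 g = g) →
        d + (if b then 1 else 0) = k + (if b then 0 else 1) → g = 0 := by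
  classical
  let aH : H →* Matrix (Fin 2) (Fin 2) ℂ :=
    (Units.coeHom _).comp (Matrix.SpecialLinearGroup.toGL.comp H.subtype)
  have ha : Function.Injective aH := fun a b e => Subtype.ext (Subtype.ext e)
  have hdet : ∀ h, (aH h).det = 1 := fun h => h.1.det_coe
  have main : ∀ k, Module.finrank ℂ (invH aH k) = 1 → ∃ J : P2, J ≠ 0 ∧ J.IsHomogeneous k ∧
      (∀ h ∈ H, sub h.1 J = J) ∧
      (∀ g : P2, g.IsHomogeneous k → (∀ h ∈ H, sub h.1 g = g) → ∃ c : ℂ, c • J = g) := by
    intro k hk1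
    obtain ⟨⟨J, hJ⟩, hJ0, hJu⟩ := finrank_eq_one_iff'.1 hk1
    obtain ⟨hJh, hJi⟩ := mem_invH.1 hJ
    exact ⟨J, fun e => hJ0 (Subtype.ext e), hJh, fun h hh => hJi ⟨h, hh⟩, fun g a b =>
      (hJu ⟨g, mem_invH.2 ⟨a, fun h => b h.1 h.2⟩⟩).imp fun _ e => congrArg Subtype.val e⟩
  by_cases hn : (-1 : SL2) ∈ H
  · obtain ⟨k, hk, hk1⟩ := klein aH ha hdet ⟨-1, hn⟩ rfl
    obtain ⟨J, a1, a2, a3, a4⟩ := main _ hk1
    refine ⟨2 * k, false, J, a1, a2, a3, a4, by simp [hk], fun g d hg hi hd => ?_⟩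
    have h1 := hi _ hn
    have h2 : d = 2 * k + 1 := by simpa using hd
    rw [Matrix.SpecialLinearGroup.coe_neg, Matrix.SpecialLinearGroup.coe_one, ← neg_one_smul ℂ,
      sub_smul _ _ hg, sub_one, h2, Odd.neg_one_pow (by simp), neg_one_smul,
      neg_eq_iff_add_eq_zero, ← two_smul ℂ, smul_eq_zero] at h1
    exact h1.resolve_left two_ne_zero
  · have := Fintype.ofFinite H
    obtain ⟨k, hk⟩ : ∃ k, Fintype.card H = k + 1 :=
      ⟨Fintype.card H - 1, by have := Fintype.card_pos (α := H); omega⟩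
    have hne : ∀ h : H, h ≠ 1 → aH h ≠ 1 ∧ aH h ≠ -1 := fun h hh =>
      ⟨fun e => hh (ha (by simp [e])), fun e => hn (by
        have : h.1 = -1 := Subtype.ext e
        exact this ▸ h.2)⟩
    have hk0 : ((k + 1 : ℕ) : ℂ) ≠ 0 := by exact_mod_cast (show k + 1 ≠ 0 by omega)
    have hk1 : Module.finrank ℂ (invH aH k) = 1 := by
      have h1 := molien aH k
      have h2 : ∀ h, trH (aH h) k = if h = 1 then (k + 1 : ℂ) else 0 := by
        intro h
        split_ifs with e1
        · rw [e1, map_one, trH_id_two]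
        · exact trH_pred (hdet h) (by rw [← map_pow, ← hk]; simp) (hne h e1).1 (hne h e1).2
      simp only [h2, hk, Finset.sum_ite_eq', Finset.mem_univ, if_true] at h1
      have h4 : (Module.finrank ℂ (invH aH k) : ℂ) = 1 := by
        refine mul_left_cancel₀ hk0 ?_
        rw [h1]
        simp
      exact_mod_cast h4
    obtain ⟨J, a1, a2, a3, a4⟩ := main _ hk1
    refine ⟨k, true, J, a1, a2, a3, a4, by simp [hk], fun g d hg hi hd => ?_⟩
    have h0 : k = d + 1 := by simpa using hd.symm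
    subst h0
    have h1 := molien aH d
    have h2 : ∀ h, trH (aH h) d = -1 + if h = 1 then (d + 2 : ℂ) else 0 := by
      intro h
      split_ifs with e1
      · rw [e1, map_one, trH_id_two]; ring
      · rw [trH_fin_order (hdet h) (by rw [← map_pow, ← hk]; simp) (hne h e1).1 (hne h e1).2]
        simp
    simp only [h2, Finset.sum_add_distrib, Finset.sum_const, Finset.card_univ, hk,
      Finset.sum_ite_eq', Finset.mem_univ, if_true] at h1
    have h4 : (Module.finrank ℂ (invH aH d) : ℂ) = 0 := by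
      refine mul_left_cancel₀ hk0 ?_
      rw [h1]
      simp
      ring
    have h5 : invH aH d = ⊥ := Submodule.finrank_eq_zero.1 (by exact_mod_cast h4)
    have h6 : g ∈ invH aH d := mem_invH.2 ⟨hg, fun h => hi h.1 h.2⟩
    rwa [h5, Submodule.mem_bot] at h6

variable {n : ℕ}

/-- Replace a block of a vector. -/
def upd (i : Fin n) (y : Fin n × Fin 2 → ℂ) (u : Fin 2 → ℂ) : Fin n × Fin 2 → ℂ :=
  fun p => if p.1 = i then u p.2 else y p

theorem bl_upd (i j : Fin n) (y : Fin n × Fin 2 → ℂ) (u : Fin 2 → ℂ) :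
    blN j (upd i y u) = if j = i then u else blN j y := by
  ext α
  simp only [blN_apply, upd]
  split_ifs <;> rfl

theorem bl_upd_self (i : Fin n) (y : Fin n × Fin 2 → ℂ) (u : Fin 2 → ℂ) :
    blN i (upd i y u) = u := by rw [bl_upd, if_pos rfl]

theorem bl_upd_ne {i j : Fin n} (h : j ≠ i) (y : Fin n × Fin 2 → ℂ) (u : Fin 2 → ℂ) :
    blN j (upd i y u) = blN j y := by rw [bl_upd, if_neg h]

theorem upd_bl (i : Fin n) (y : Fin n × Fin 2 → ℂ) : upd i y (blN i y) = y :=
  blN_ext fun j => by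
    rw [bl_upd]
    split_ifs with h
    · rw [h]
    · rfl

theorem upd_upd (i : Fin n) (y : Fin n × Fin 2 → ℂ) (u u' : Fin 2 → ℂ) :
    upd i (upd i y u) u' = upd i y u' :=
  blN_ext fun j => by
    simp only [bl_upd]
    split_ifs <;> rfl

/-- Restriction to one block, the other blocks being fixed. -/
noncomputable def resN (i : Fin n) (y : Fin n × Fin 2 → ℂ) : PN n →ₐ[ℂ] P2 :=
  aeval fun p => if p.1 = i then X p.2 else C (y p)

theorem eval_resN (i : Fin n) (y : Fin n × Fin 2 → ℂ) (u : Fin 2 → ℂ) (f : PN n) :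
    eval u (resN i y f) = eval (upd i y u) f := by
  induction f using MvPolynomial.induction_on with
  | C a => simp [resN]
  | add p q hp hq => simp [hp, hq]
  | mul_X p j hp =>
    rw [map_mul, map_mul, map_mul, hp]
    congr 1
    simp only [resN, aeval_X, eval_X, upd]
    split_ifs <;> simp

theorem eu_resN (i : Fin n) (y : Fin n × Fin 2 → ℂ) (f : PN n) :
    eu 0 1 (resN i y f) = resN i y (euN i f) := by
  refine der_sub _ _ _ (fun ⟨j, α⟩ => ?_) f
  by_cases h : j = i
  · subst h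
    fin_cases α <;> simp [resN, eu_apply, pderiv_X]
  · simp [resN, eu_apply, pderiv_X, h]

/-- A binary form placed on a block. -/
noncomputable def onN (i : Fin n) : P2 →ₐ[ℂ] PN n := rename fun α => (i, α)

theorem eval_onN (i : Fin n) (J : P2) (x : Fin n × Fin 2 → ℂ) :
    eval x (onN i J) = eval (blN i x) J := eval_rename ..

theorem onN_ne (i : Fin n) {J : P2} (h : J ≠ 0) : onN i J ≠ 0 := fun e =>
  h (rename_injective _ (Prod.mk_right_injective i) (e.trans (map_zero _).symm))

theorem euN_onN (i j : Fin n) {J : P2} {d : ℕ} (h : J.IsHomogeneous d) :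
    euN i (onN j J) = (if i = j then (d : ℂ) else 0) • onN j J := by
  split_ifs with e
  · subst e
    rw [der_sub (onN i) (eu 0 1) (euN i), eu_of_hom h, map_smul]
    intro α
    fin_cases α <;> simp [onN, eu_apply, pderiv_X]
  · rw [der_sub (onN j) 0 (euN i)]
    · simp
    · intro α
      simp [onN, eu_apply, pderiv_X, Ne.symm e]

theorem sub_onN (π : Equiv.Perm (Fin n)) (a : Fin n → SL2) (i : Fin n) (J : P2) :
    sub (monN π a) (onN i J) = onN (π i) (sub (a i).1 J) := by
  apply MvPolynomial.funext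
  intro x
  rw [eval_sub', eval_onN, eval_onN, eval_sub', monN_mulVec]

theorem der_mul {D : Derivation ℂ (PN n) (PN n)} {f g : PN n} {c c' : ℂ} (hf : D f = c • f)
    (hg : D g = c' • g) : D (f * g) = (c + c') • (f * g) := by
  rw [Derivation.leibniz, hf, hg]
  simp only [smul_eq_C_mul, smul_eq_mul, map_add]
  ring

theorem der_prod {D : Derivation ℂ (PN n) (PN n)} {ι : Type} (s : Finset ι) {f : ι → PN n}
    {c : ι → ℂ} (hf : ∀ i ∈ s, D (f i) = c i • f i) :
    D (∏ i ∈ s, f i) = (∑ i ∈ s, c i) • ∏ i ∈ s, f i := by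
  classical
  induction s using Finset.induction_on with
  | empty => simp
  | insert a s ha ih =>
    rw [Finset.prod_insert ha, Finset.sum_insert ha, der_mul (hf a (Finset.mem_insert_self _ _))
      (ih fun i hi => hf i (Finset.mem_insert_of_mem hi))]

/-- The form `ω(A uᵢ, B uⱼ)`. -/
noncomputable def omN (i j : Fin n) (A B : SL2) : PN n :=
  onN i (lin (A.1 0)) * onN j (lin (B.1 1)) - onN i (lin (A.1 1)) * onN j (lin (B.1 0))

theorem eval_omN (i j : Fin n) (A B : SL2) (x : Fin n × Fin 2 → ℂ) :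
    eval x (omN i j A B) = om (A.1 *ᵥ blN i x) (B.1 *ᵥ blN j x) := by
  simp only [omN, map_sub, map_mul, eval_onN, eval_lin]
  rfl

theorem euN_omN (k i j : Fin n) (A B : SL2) : euN k (omN i j A B) =
    ((if k = i then 1 else 0) + if k = j then 1 else 0 : ℂ) • omN i j A B := by
  rw [omN, map_sub, der_mul (euN_onN k i (lin_hom _)) (euN_onN k j (lin_hom _)),
    der_mul (euN_onN k i (lin_hom _)) (euN_onN k j (lin_hom _)), smul_sub]
  simp

theorem omN_ne {i j : Fin n} {A B : SL2} (h : i = j → B ≠ A ∧ B ≠ -A) : omN i j A B ≠ 0 := by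
  by_cases e : i = j
  · subst e
    obtain ⟨u, hu⟩ := exists_eval_ne (omP_ne (h rfl).1 (h rfl).2)
    intro h0
    have := congrArg (eval (upd i 0 u)) h0
    rw [eval_omN, bl_upd_self, ← eval_omP, map_zero] at this
    exact hu this
  · intro h0
    have := congrArg (eval (upd i (upd j 0 ((B⁻¹).1 *ᵥ ![0, 1])) ((A⁻¹).1 *ᵥ ![1, 0]))) h0
    rw [eval_omN, bl_upd_self, bl_upd_ne (Ne.symm e), bl_upd_self, sl_inv, sl_inv] at this
    simp [om] at this

theorem mon_single (i : Fin n) (h : SL2) (x : Fin n × Fin 2 → ℂ) :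
    monN 1 (Pi.mulSingle i h) *ᵥ x = upd i x (h.1 *ᵥ blN i x) :=
  blN_ext fun j => by
    rw [monN_mulVec, bl_upd]
    split_ifs with e
    · subst e; simp
    · simp [e]

theorem sub_resN (i : Fin n) (h : SL2) (y : Fin n × Fin 2 → ℂ) (f : PN n) :
    sub h.1 (resN i y f) = resN i y (sub (monN 1 (Pi.mulSingle i h)) f) := by
  apply MvPolynomial.funext
  intro x
  rw [eval_sub', eval_resN, eval_resN, eval_sub', mon_single, bl_upd_self, upd_upd]

theorem sub_neg_blockN {f : PN n} {i : Fin n} {d : ℕ} (h : euN i f = (d : ℂ) • f) :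
    sub (monN 1 (Pi.mulSingle i (-1))) f = (-1 : ℂ) ^ d • f := by
  apply MvPolynomial.funext
  intro x
  have h1 : (resN i x f).IsHomogeneous d := hom_of_eu (by rw [eu_resN, h, map_smul])
  rw [eval_sub', smul_eval, mon_single, ← eval_resN, Matrix.SpecialLinearGroup.coe_neg,
    Matrix.SpecialLinearGroup.coe_one, Matrix.neg_mulVec, Matrix.one_mulVec, ← neg_one_smul ℂ,
    eval_smul_hom h1, eval_resN, upd_bl]

theorem sub_neg_pair {f : PN n} {i j : Fin n} {d d' : ℕ} (h : euN i f = (d : ℂ) • f)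
    (h' : euN j f = (d' : ℂ) • f) :
    sub (monN 1 (Pi.mulSingle i (-1) * Pi.mulSingle j (-1))) f = (-1 : ℂ) ^ (d + d') • f := by
  have := monN_mul (1 : Equiv.Perm (Fin n)) 1 (Pi.mulSingle i (-1)) (Pi.mulSingle j (-1))
  rw [mul_one, Equiv.Perm.coe_one, Function.comp_id] at this
  rw [← this, sub_mul, sub_neg_blockN h, map_smul, sub_neg_blockN h', smul_smul, pow_add]

/-- A quotient that does not depend on any block is constant. -/
theorem prop_of_blocks {f v : PN n} (hv : v ≠ 0)
    (h : ∀ i x u, eval x f * eval (upd i x u) v = eval (upd i x u) f * eval x v) :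
    ∃ c : ℂ, c • v = f := by
  classical
  let ρ : Finset (Fin n) → Fin n × Fin 2 → (Fin n × Fin 2) × Bool :=
    fun A p => (p, decide (p.1 ∈ A))
  have hρ : ∀ A, Function.Injective (ρ A) := fun A p q e => congrArg Prod.fst e
  have h1 : ∀ A i, rename (ρ A) f * rename (ρ (insert i A)) v =
      rename (ρ (insert i A)) f * rename (ρ A) v := by
    intro A i
    apply MvPolynomial.funext
    intro z
    have : z ∘ ρ (insert i A) = upd i (z ∘ ρ A) fun α => z ((i, α), true) := by
      ext ⟨j, α⟩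
      by_cases e : j = i <;> simp [ρ, upd, e]
    simp only [map_mul, eval_rename, this, h]
  have h2 : ∀ A, rename (ρ ∅) f * rename (ρ A) v = rename (ρ A) f * rename (ρ ∅) v := by
    intro A
    induction A using Finset.induction_on with
    | empty => rfl
    | insert i A _ ih =>
      have h3 : rename (ρ A) v ≠ 0 := fun e =>
        hv (rename_injective _ (hρ A) (e.trans (map_zero _).symm))
      refine mul_left_cancel₀ h3 ?_
      linear_combination rename (ρ (insert i A)) v * ih + rename (ρ ∅) v * h1 A i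
  obtain ⟨y, hy⟩ := exists_eval_ne hv
  refine ⟨eval y f / eval y v, MvPolynomial.funext fun x => ?_⟩
  have h4 := congrArg (eval fun q : (Fin n × Fin 2) × Bool => if q.2 then y q.1 else x q.1)
    (h2 Finset.univ)
  have e1 : (fun q : (Fin n × Fin 2) × Bool => if q.2 then y q.1 else x q.1) ∘ ρ ∅ = x := by
    ext p; simp [ρ]
  have e2 : (fun q : (Fin n × Fin 2) × Bool => if q.2 then y q.1 else x q.1) ∘ ρ Finset.univ =
      y := by
    ext p; simp [ρ]
  simp only [map_mul, eval_rename, e1, e2] at h4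
  rw [smul_eval]
  field_simp
  linear_combination -h4

end Pool.Agent.P.MP_97ea17_al.Mo.M2Aux
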