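import Pool.Agent.P.MP_97ea17_al.F.M2a

/-! Semi-invariance and uniqueness for monomial groups. -/

namespace Pool.Agent.P.MP_97ea17_al.Mo.M2Aux

open MvPolynomial
open scoped Matrix

variable {n : ℕ}

theorem omN_neg (i j : Fin n) (x : SL2) : omN i j 1 (-x) = -omN i j 1 x := by
  apply MvPolynomial.funext
  intro y
  simp [eval_omN, om, Matrix.neg_mulVec]
  ring

theorem omN_inv (i j : Fin n) (x : SL2) : omN j i 1 x⁻¹ = -omN i j 1 x := by
  apply MvPolynomial.funext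
  intro y
  rw [map_neg, eval_omN, eval_omN, Matrix.SpecialLinearGroup.coe_one, Matrix.one_mulVec,
    Matrix.one_mulVec]
  have := om_sl x⁻¹ (blN i y) (blN j y)
  rw [inv_inv] at this
  have h2 := om_sl x (blN j y) (blN i y)
  simp only [om] at this h2 ⊢
  linear_combination -h2

theorem sub_omN (π : Equiv.Perm (Fin n)) (a : Fin n → SL2) (i j : Fin n) (x : SL2) :
    sub (monN π a) (omN i j 1 x) = omN (π i) (π j) 1 ((a i)⁻¹ * x * a j) := by
  apply MvPolynomial.funext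
  intro y
  rw [eval_sub', eval_omN, eval_omN, monN_mulVec, monN_mulVec, Matrix.SpecialLinearGroup.coe_one,
    Matrix.one_mulVec, Matrix.one_mulVec, om_sl]
  simp only [Matrix.mulVec_mulVec, Matrix.SpecialLinearGroup.coe_mul, mul_assoc]

/-- The product of the forms over pairs of blocks. -/
noncomputable def Phi (n : ℕ) (S : Finset SL2) : PN n :=
  ∏ i, ∏ j ∈ Finset.Ioi i, ∏ x ∈ S, omN i j 1 x

theorem Phi_ne (S : Finset SL2) : Phi n S ≠ 0 :=
  Finset.prod_ne_zero_iff.2 fun _ _ => Finset.prod_ne_zero_iff.2 fun _ hj =>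
    Finset.prod_ne_zero_iff.2 fun _ _ => omN_ne fun e => absurd e (Finset.mem_Ioi.1 hj).ne

theorem euN_Phi (S : Finset SL2) (k : Fin n) :
    euN k (Phi n S) = (((n - 1) * S.card : ℕ) : ℂ) • Phi n S := by
  rw [Phi, der_prod _ fun i _ => der_prod _ fun j _ => der_prod _ fun x _ => euN_omN k i j 1 x]
  congr 1
  have := Finset.sum_sum_Ioi_add_eq_sum_sum_off_diag
    (fun _ i : Fin n => (if k = i then (S.card : ℂ) else 0))
  simp only [Finset.sum_const, nsmul_eq_mul, mul_add, mul_ite, mul_one, mul_zero] at this ⊢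
  rw [this]
  simp [Finset.card_compl]

theorem semiPhi {L S : Finset SL2} (h1 : S ⊆ L) (h2 : ∀ l ∈ L, l ∈ S ∨ -l ∈ S)
    (h3 : ∀ l ∈ S, -l ∉ S) (hLn : ∀ l ∈ L, -l ∈ L) (hLi : ∀ l ∈ L, l⁻¹ ∈ L)
    (π : Equiv.Perm (Fin n)) (a : Fin n → SL2)
    (hLa : ∀ i j, i ≠ j → ∀ x ∈ L, (a i)⁻¹ * x * a j ∈ L) :
    ∃ χ : ℂ, χ ≠ 0 ∧ sub (monN π a) (Phi n S) = χ • Phi n S := by
  classical
  set F : Fin n → Fin n → PN n := fun i j => ∏ x ∈ L, omN i j 1 x with hF
  have hA : ∀ i j, Associated ((∏ x ∈ S, omN i j 1 x) ^ 2) (F i j) := by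
    intro i j
    have e : L = S ∪ S.image Neg.neg := by
      ext l
      simp only [Finset.mem_union, Finset.mem_image]
      constructor
      · intro hl
        exact (h2 l hl).imp id fun h => ⟨_, h, neg_neg l⟩
      · rintro (h | ⟨l, h, rfl⟩)
        exacts [h1 h, hLn _ (h1 h)]
    have hd : Disjoint S (S.image Neg.neg) := by
      rw [Finset.disjoint_right]
      intro l hl
      obtain ⟨l, h, rfl⟩ := Finset.mem_image.1 hl
      exact h3 l h
    simp only [hF]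
    rw [e, Finset.prod_union hd, Finset.prod_image fun _ _ _ _ h => neg_injective h, sq]
    refine Associated.mul_left _ (Associated.prod _ _ _ fun x _ => ?_)
    rw [omN_neg]
    exact Associated.rfl.neg_right
  have hB : ∀ i j, Associated (F i j) (F j i) := by
    intro i j
    have : F j i = ∏ x ∈ L, omN j i 1 x⁻¹ :=
      Finset.prod_nbij' (fun x => x⁻¹) (fun x => x⁻¹) hLi hLi (by simp) (by simp) (by simp)
    rw [this]
    refine Associated.prod _ _ _ fun x _ => ?_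
    rw [omN_inv]
    exact Associated.rfl.neg_right
  have hW : Associated (Phi n S ^ 4) (∏ i, ∏ j ∈ {i}ᶜ, F i j) := by
    rw [← Finset.prod_prod_Ioi_mul_eq_prod_prod_off_diag (fun j i => F i j), Phi,
      ← Finset.prod_pow]
    refine Associated.prod _ _ _ fun i _ => ?_
    rw [← Finset.prod_pow]
    refine Associated.prod _ _ _ fun j _ => ?_
    rw [show 4 = 2 + 2 from rfl, pow_add]
    exact (hA i j).mul_mul ((hA i j).trans (hB i j))
  have hS : sub (monN π a) (∏ i, ∏ j ∈ {i}ᶜ, F i j) = ∏ i, ∏ j ∈ {i}ᶜ, F i j := by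
    rw [map_prod]
    refine Fintype.prod_equiv π _ _ fun i => ?_
    rw [map_prod]
    refine Finset.prod_equiv π (by simp) fun j hj => ?_
    have hij : i ≠ j := fun e => by simp [e] at hj
    simp only [hF, map_prod, sub_omN]
    refine Finset.prod_bij (fun x _ => (a i)⁻¹ * x * a j) (hLa i j hij)
      (fun _ _ _ _ e => by simpa using e) (fun b hb => ?_) fun _ _ => rfl
    exact (Finset.surj_on_of_inj_on_of_card_le (fun x _ => (a i)⁻¹ * x * a j) (hLa i j hij)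
      (fun _ _ _ _ e => by simpa using e) le_rfl b hb).imp fun _ => .imp fun _ => Eq.symm
  have h4 : Associated (Phi n S ^ 4) (sub (monN π a) (Phi n S) ^ 4) := by
    have := hW.map (sub (monN π a))
    rw [hS, map_pow] at this
    exact hW.trans this.symm
  obtain ⟨u, hu⟩ := (Associated.pow_iff (by norm_num)).1 h4
  obtain ⟨r, hr, hr'⟩ := isUnit_iff_eq_C_of_isReduced.1 u.isUnit
  exact ⟨r, hr.ne_zero, by rw [← hu, hr', smul_eq_C_mul, mul_comm]⟩

theorem fix_pair {i j : Fin n} (hij : j ≠ i) (x : SL2) (y : Fin n × Fin 2 → ℂ) :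
    monN (Equiv.swap i j) (Pi.mulSingle i x * Pi.mulSingle j x⁻¹) *ᵥ upd i y (x.1 *ᵥ blN j y) =
      upd i y (x.1 *ᵥ blN j y) :=
  blN_ext fun k => by
    rw [monN_mulVec]
    by_cases e : k = i
    · subst e
      simp [hij.symm, bl_upd_self, bl_upd_ne hij]
    by_cases e' : k = j
    · subst e'
      have := sl_inv x⁻¹ (blN k y)
      rw [inv_inv] at this
      rw [Equiv.swap_apply_right, bl_upd_self, bl_upd_ne e, Pi.mul_apply,
        Pi.mulSingle_eq_of_ne e, Pi.mulSingle_eq_same, one_mul, this]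
    · simp [e, e', Equiv.swap_apply_of_ne_of_ne]

theorem key (D : Subgroup (Fin n → SL2)) (i : Fin n) (I : Finset (Fin n × SL2))
    (hI1 : ∀ p ∈ I, p.1 ≠ i)
    (hI2 : ∀ p ∈ I, ∀ q ∈ I, q ≠ p → p.1 = q.1 → q.2 ≠ p.2 ∧ q.2 ≠ -p.2)
    (hID : ∀ p ∈ I, Pi.mulSingle i p.2 * Pi.mulSingle p.1 p.2⁻¹ ∈ D)
    {J : P2} (hJ0 : J ≠ 0) (hJi : ∀ h, Pi.mulSingle i h ∈ D → sub (h : SL2).1 J = J)
    {R : PN n} (hR0 : R ≠ 0) (hR : ∀ y u, eval (upd i y u) R = eval y R)
    {v : PN n} (hv : v = (∏ p ∈ I, omN i p.1 1 p.2) * (onN i J * R))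
    (hs : ∀ π, ∀ a ∈ D, ∃ χ : ℂ, χ ≠ 0 ∧ sub (monN π a) v = χ • v) {f : PN n} {d : ℂ}
    (hf : euN i f = d • f)
    (hfs : ∀ π, ∀ a ∈ D, ∀ χ : ℂ, sub (monN π a) v = χ • v → sub (monN π a) f = χ • f) :
    ∃ q : PN n, q ≠ 0 ∧ ∀ y, eval y q ≠ 0 → ∃ (g Θ : P2) (κ : ℂ), κ ≠ 0 ∧
      eu 0 1 g = (d - I.card) • g ∧ (∀ h, Pi.mulSingle i h ∈ D → sub (h : SL2).1 g = g) ∧
      resN i y v = κ • (Θ * J) ∧ resN i y f = Θ * g := by
  classical
  set q : PN n := R * ∏ p ∈ I, X (p.1, 0) * onN p.1 (sub p.2.1 J) *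
    ∏ p' ∈ I.erase p, omN p.1 p'.1 p.2 p'.2 with hq
  have hq0 : q ≠ 0 := by
    refine mul_ne_zero hR0 (Finset.prod_ne_zero_iff.2 fun p hp =>
      mul_ne_zero (mul_ne_zero (X_ne_zero _) (onN_ne _ fun e => hJ0 ?_))
        (Finset.prod_ne_zero_iff.2 fun p' hp' => omN_ne
          (hI2 p hp p' (Finset.mem_erase.1 hp').2 (Finset.mem_erase.1 hp').1)))
    rw [← sub_one J, ← Matrix.SpecialLinearGroup.coe_one, ← mul_inv_cancel p.2,
      Matrix.SpecialLinearGroup.coe_mul, sub_mul, e, map_zero]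
  have hgen : ∀ y, eval y q ≠ 0 → eval y R ≠ 0 ∧ ∀ p ∈ I, p.2.1 *ᵥ blN p.1 y ≠ 0 ∧
      eval (p.2.1 *ᵥ blN p.1 y) J ≠ 0 ∧
      ∀ p' ∈ I, p' ≠ p → om (p.2.1 *ᵥ blN p.1 y) (p'.2.1 *ᵥ blN p'.1 y) ≠ 0 := by
    intro y hy
    simp only [hq, map_mul, map_prod, mul_ne_zero_iff, Finset.prod_ne_zero_iff, eval_sub',
      eval_omN, eval_onN, eval_X, Finset.mem_erase] at hy
    refine ⟨hy.1, fun p hp => ⟨fun e => (hy.2 p hp).1.1 ?_, (hy.2 p hp).1.2,
      fun p' h h' => (hy.2 p hp).2 p' ⟨h', h⟩⟩⟩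
    have := sl_inv p.2⁻¹ (blN p.1 y)
    rw [inv_inv, e, Matrix.mulVec_zero] at this
    exact (congrFun this 0).symm
  have hanti : ∀ p ∈ I, sub (monN (Equiv.swap i p.1)
      (Pi.mulSingle i p.2 * Pi.mulSingle p.1 p.2⁻¹)) v = (-1 : ℂ) • v := by
    intro p hp
    obtain ⟨χ, -, hχ⟩ := hs (Equiv.swap i p.1) _ (hID p hp)
    obtain ⟨y, hy⟩ := exists_eval_ne hq0
    obtain ⟨a1, a2⟩ := hgen y hy
    have a3 : sub (monN (Equiv.swap i p.1) (Pi.mulSingle i p.2 * Pi.mulSingle p.1 p.2⁻¹))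
        (omN i p.1 1 p.2) = -omN i p.1 1 p.2 := by
      rw [sub_omN, ← omN_inv]
      simp [hI1 p hp, (hI1 p hp).symm]
    have a4 := hχ
    rw [hv, ← Finset.mul_prod_erase I _ hp, mul_assoc, map_mul, a3, smul_eq_C_mul,
      mul_left_comm (C χ), neg_mul, ← mul_neg] at a4
    have a5 := congrArg (eval (upd i y (p.2.1 *ᵥ blN p.1 y)))
      (mul_left_cancel₀ (omN_ne fun e => absurd e (hI1 p hp).symm) a4)
    rw [map_neg, eval_sub', fix_pair (hI1 p hp), map_mul (eval _) (C χ), eval_C,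
      ← neg_one_mul] at a5
    rw [hχ, ← mul_right_cancel₀ ?_ a5]
    simp only [map_mul, map_prod, eval_onN, bl_upd_self, hR]
    refine mul_ne_zero (Finset.prod_ne_zero_iff.2 fun p' hp' => ?_)
      (mul_ne_zero (a2 p hp).2.1 a1)
    rw [eval_omN, bl_upd_self, bl_upd_ne (hI1 p' (Finset.mem_erase.1 hp').2),
      Matrix.SpecialLinearGroup.coe_one, Matrix.one_mulVec]
    exact (a2 p hp).2.2 p' (Finset.mem_erase.1 hp').2 (Finset.mem_erase.1 hp').1
  refine ⟨q, hq0, fun y hy => ?_⟩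
  obtain ⟨a1, a2⟩ := hgen y hy
  have b0 : ∀ p ∈ I, p.2.1 *ᵥ blN p.1 y ≠ 0 := fun p hp => (a2 p hp).1
  have b1 : eu 0 1 (resN i y f) = d • resN i y f := by rw [eu_resN, hf, map_smul]
  obtain ⟨g, hg⟩ := prod_ell_dvd (fun p : Fin n × SL2 => p.2.1 *ᵥ blN p.1 y) I b0 (resN i y f)
    fun p hp => by
      have : I.filter (fun p' : Fin n × SL2 =>
          om (p.2.1 *ᵥ blN p.1 y) (p'.2.1 *ᵥ blN p'.1 y) = 0) = {p} := by
        ext j
        simp only [Finset.mem_filter, Finset.mem_singleton]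
        exact ⟨fun h => by_contra fun e => (a2 p hp).2.2 j h.1 e h.2,
          fun e => by rw [e]; exact ⟨hp, om_self _⟩⟩
      rw [this, Finset.card_singleton, pow_one]
      refine ell_dvd (b0 p hp) b1 ?_
      have := congrArg (eval (upd i y (p.2.1 *ᵥ blN p.1 y))) (hfs _ _ (hID p hp) _ (hanti p hp))
      rw [eval_sub', fix_pair (hI1 p hp), smul_eval] at this
      rw [eval_resN]
      linear_combination this / 2
  set Θ := ∏ p ∈ I, ell (p.2.1 *ᵥ blN p.1 y) with hΘ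
  have b2 : Θ ≠ 0 := Finset.prod_ne_zero_iff.2 fun l hl => ell_ne_zero (b0 l hl)
  have b3 : Θ.IsHomogeneous I.card := by
    have := IsHomogeneous.prod I (fun p : Fin n × SL2 => ell (p.2.1 *ᵥ blN p.1 y)) (fun _ => 1)
      fun h _ => lin_hom _
    simpa only [Finset.sum_const, smul_eq_mul, mul_one] using this
  have b4 : resN i y v = ((-1) ^ I.card * eval y R) • (Θ * J) := by
    apply MvPolynomial.funext
    intro x
    simp only [eval_resN, hv, hΘ, map_mul, map_prod, eval_onN, bl_upd_self, hR,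
      smul_eval, eval_ell]
    rw [Finset.prod_congr rfl (g := fun p : Fin n × SL2 => -om (p.2.1 *ᵥ blN p.1 y) x)
      fun p hp => by
        rw [eval_omN, bl_upd_self, bl_upd_ne (hI1 p hp), Matrix.SpecialLinearGroup.coe_one,
          Matrix.one_mulVec]
        simp only [om]; ring, Finset.prod_neg]
    ring
  have b5 : (-1 : ℂ) ^ I.card * eval y R ≠ 0 := by simp [a1]
  rw [hg] at b1
  refine ⟨g, Θ, _, b5, eu_of_mul b3 b2 b1, fun h hh => ?_, b4, hg⟩
  obtain ⟨χ, hχ0, hχ⟩ := hs 1 _ hh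
  have c1 := sub_resN i h y v
  have c2 := sub_resN i h y f
  rw [hχ, map_smul, b4, map_smul, smul_comm χ, map_mul, hJi h hh, ← smul_mul_assoc χ] at c1
  have c3 : sub h.1 Θ = χ • Θ := mul_right_cancel₀ hJ0 (smul_right_injective _ b5 c1)
  rw [hfs _ _ hh _ hχ, map_smul, hg, map_mul, c3, ← smul_mul_assoc χ] at c2
  exact mul_left_cancel₀ (smul_ne_zero hχ0 b2) c2

end Pool.Agent.P.MP_97ea17_al.Mo.M2Aux
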