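import Pool.Agent.P.MP_97ea17_al.CaseA
import Pool.Agent.P.MP_97ea17_al.F.Filt2

/-! Block monomial matrices of any rank. -/

namespace Pool.Agent.P.MP_97ea17_al.Mo

open MvPolynomial
open scoped Matrix

variable {n : ℕ}

/-- Polynomials in `n` blocks of two variables. -/
abbrev PN (n : ℕ) := MvPolynomial (Fin n × Fin 2) ℂ

/-- Block monomial matrix. -/
def monN (π : Equiv.Perm (Fin n)) (a : Fin n → SL2) : Matrix (Fin n × Fin 2) (Fin n × Fin 2) ℂ :=
  Matrix.of fun p q => if q.1 = π p.1 then (a p.1).1 p.2 q.2 else 0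

/-- A block of a vector. -/
def blN (i : Fin n) : (Fin n × Fin 2 → ℂ) →ₗ[ℂ] (Fin 2 → ℂ) :=
  LinearMap.funLeft ℂ ℂ fun α => (i, α)

/-- Euler operator of a block. -/
noncomputable abbrev euN (i : Fin n) : Derivation ℂ (PN n) (PN n) := eu (i, 0) (i, 1)

theorem blN_apply (i : Fin n) (x : Fin n × Fin 2 → ℂ) (α : Fin 2) : blN i x α = x (i, α) := rfl

theorem monN_mulVec (π : Equiv.Perm (Fin n)) (a : Fin n → SL2) (x : Fin n × Fin 2 → ℂ)
    (i : Fin n) : blN i (monN π a *ᵥ x) = (a i).1 *ᵥ blN (π i) x := by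
  ext α
  simp [blN_apply, monN, Matrix.mulVec, dotProduct, Fintype.sum_prod_type]

theorem vecMul_monN (π : Equiv.Perm (Fin n)) (a : Fin n → SL2) (l : Fin n × Fin 2 → ℂ)
    (i : Fin n) : blN (π i) (l ᵥ* monN π a) = blN i l ᵥ* (a i).1 := by
  ext α
  simp only [blN_apply, monN, Matrix.vecMul, dotProduct, Fintype.sum_prod_type, Matrix.of_apply,
    EmbeddingLike.apply_eq_iff_eq]
  rw [Finset.sum_eq_single i] <;> simp +contextual [eq_comm]

theorem blN_ext {x y : Fin n × Fin 2 → ℂ} (h : ∀ i, blN i x = blN i y) : x = y :=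
  funext fun p => congrFun (h p.1) p.2

theorem monN_mul (π ρ : Equiv.Perm (Fin n)) (a b : Fin n → SL2) :
    monN π a * monN ρ b = monN (ρ * π) (a * b ∘ π) := by
  refine Matrix.ext_of_mulVec_single fun j => blN_ext fun i => ?_
  rw [← Matrix.mulVec_mulVec, monN_mulVec, monN_mulVec, monN_mulVec, Matrix.mulVec_mulVec]
  rfl

theorem monN_one : monN (1 : Equiv.Perm (Fin n)) 1 = 1 := by
  ext ⟨i, a⟩ ⟨j, b⟩
  simp [monN, Matrix.one_apply, ite_and, eq_comm]

theorem monN_inj {π : Equiv.Perm (Fin n)} {a b : Fin n → SL2} (h : monN π a = monN π b) :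
    a = b := by
  ext i x y
  simpa [monN] using congrFun (congrFun h (i, x)) (π i, y)

end Pool.Agent.P.MP_97ea17_al.Mo
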