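import Pool.Agent.P.MP_97ea17_al.F.R1
import Pool.Agent.P.MP_97ea17_al.F.G3

/-! The root system of the reflections of order two in rank two. -/

namespace Pool.Agent.P.MP_97ea17_al.Geo

open scoped Quaternion Matrix

variable {W : Subgroup (GH 2)}

namespace R2Aux

open Submodule Module

theorem rho_mul' (hW : Std W) (w : GH 2) {w' : GH 2} (hw' : w' ∈ W) (y : E5) :
    rho (w * w').val y = rho w.val (rho w'.val y) := by
  rw [Units.val_mul, rho_mul (hW.uni w' hw')]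

theorem rho_inv_left (hW : Std W) {w : GH 2} (hw : w ∈ W) (y : E5) :
    rho (w⁻¹).val (rho w.val y) = y := by
  rw [← rho_mul' hW _ hw, inv_mul_cancel, Units.val_one, rho_one]

theorem rho_inv_right (hW : Std W) {w : GH 2} (hw : w ∈ W) (y : E5) :
    rho w.val (rho (w⁻¹).val y) = y := by
  rw [← rho_mul' hW _ (W.inv_mem hw), mul_inv_cancel, Units.val_one, rho_one]

theorem rho_neg' (g : Matrix (Fin 2) (Fin 2) ℍ[ℝ]) (y : E5) : rho g (-y) = -rho g y :=
  map_neg (rhoL g) y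

theorem rho_sub' (g : Matrix (Fin 2) (Fin 2) ℍ[ℝ]) (y z : E5) :
    rho g (y - z) = rho g y - rho g z := map_sub (rhoL g) y z

theorem dot_nonneg (v : E5) : 0 ≤ v ⬝ᵥ v := Finset.sum_nonneg fun _ _ => mul_self_nonneg _

theorem ne_zero_of_unit {a : E5} (h : a ⬝ᵥ a = 1) : a ≠ 0 := by
  rintro rfl
  simp at h

theorem span_top (hI : Irr5 W) {T : Set E5} (hT : ∀ w ∈ W, ∀ x ∈ T, rho w.val x ∈ T) {a : E5}
    (ha : a ∈ T) (h0 : a ≠ 0) : span ℝ T = ⊤ := by
  refine (hI (span ℝ T) fun w hw y hy => ?_).resolve_left fun h => h0 ?_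
  · have : (span ℝ T).map (rhoL w.val) ≤ span ℝ T :=
      (map_span_le _ _ _).2 fun x hx => subset_span (hT w hw x hx)
    exact this ⟨y, hy, rfl⟩
  · exact (Submodule.eq_bot_iff _).1 h a (subset_span ha)

theorem dot_span {A B : Set E5} (h : ∀ x ∈ A, ∀ y ∈ B, x ⬝ᵥ y = 0) :
    ∀ x ∈ span ℝ A, ∀ y ∈ span ℝ B, x ⬝ᵥ y = 0 := by
  have h1 : ∀ x ∈ A, ∀ y ∈ span ℝ B, x ⬝ᵥ y = 0 := fun x hx y hy => by
    induction hy using span_induction with
    | mem y hy => exact h x hx y hy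
    | zero => simp
    | add u v _ _ hu hv => rw [dotProduct_add, hu, hv, add_zero]
    | smul c u _ hu => rw [dotProduct_smul, hu, smul_zero]
  intro x hx y hy
  induction hx using span_induction with
  | mem x hx => exact h1 x hx y hy
  | zero => simp
  | add u v _ _ hu hv => rw [add_dotProduct, hu, hv, add_zero]
  | smul c u _ hu => rw [smul_dotProduct, hu, smul_zero]

theorem eq_zero_of_top {T : Set E5} (hT : span ℝ T = ⊤) {v : E5} (h : ∀ x ∈ T, x ⬝ᵥ v = 0) :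
    v = 0 :=
  dotProduct_self_eq_zero.1 (dot_span (B := {v}) (fun x hx y hy => by
    rw [Set.mem_singleton_iff.1 hy]
    exact h x hx) v (hT ▸ mem_top) v (subset_span rfl))

theorem finrank_union {A B : Set E5} (h : ∀ x ∈ A, ∀ y ∈ B, x ⬝ᵥ y = 0) :
    finrank ℝ (span ℝ (A ∪ B)) = finrank ℝ (span ℝ A) + finrank ℝ (span ℝ B) := by
  have e : span ℝ A ⊓ span ℝ B = ⊥ := (Submodule.eq_bot_iff _).2 fun v hv =>
    dotProduct_self_eq_zero.1 (dot_span h v hv.1 v hv.2)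
  have := finrank_sup_add_finrank_inf_eq (span ℝ A) (span ℝ B)
  rw [e, finrank_bot, add_zero] at this
  rw [span_union, this]

theorem finrank_le5 (U : Submodule ℝ E5) : finrank ℝ U ≤ 5 := by
  simpa using U.finrank_le

theorem finrank_top5 {U : Submodule ℝ E5} (h : U = ⊤) : finrank ℝ U = 5 := by
  rw [h, finrank_top]
  simp

/-- Reachability under non-orthogonality. -/
def Rch (S : E5 → Prop) : E5 → E5 → Prop :=
  Relation.ReflTransGen fun x y => S x ∧ S y ∧ x ⬝ᵥ y ≠ 0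

variable {S : E5 → Prop} {x y z : E5}

theorem Rch.rfl : Rch S x x := Relation.ReflTransGen.refl

theorem Rch.trans (h : Rch S x y) (h' : Rch S y z) : Rch S x z := Relation.ReflTransGen.trans h h'

theorem Rch.single (hx : S x) (hy : S y) (h : x ⬝ᵥ y ≠ 0) : Rch S x y :=
  Relation.ReflTransGen.single ⟨hx, hy, h⟩

theorem Rch.symm (h : Rch S x y) : Rch S y x := by
  induction h with
  | refl => exact Rch.rfl
  | tail _ h ih => exact (Rch.single h.2.1 h.1 (by rw [dotProduct_comm]; exact h.2.2)).trans ih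

theorem Rch.mem (h : Rch S x y) (hx : S x) : S y := by
  induction h with
  | refl => exact hx
  | tail _ h _ => exact h.2.1

theorem Rch.act (hW : Std W) (hst : ∀ w ∈ W, ∀ x, S x → S (rho w.val x)) {w : GH 2} (hw : w ∈ W)
    (h : Rch S x y) : Rch S (rho w.val x) (rho w.val y) := by
  induction h with
  | refl => exact Rch.rfl
  | tail _ h ih =>
    exact ih.trans (Rch.single (hst w hw _ h.1) (hst w hw _ h.2.1)
      (by rw [rho_dot (hW.uni w hw)]; exact h.2.2))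

theorem Rch.orth (hx : S x) (hy : S y) (h : ¬ Rch S x y) :
    ∀ u ∈ {u | Rch S x u}, ∀ v ∈ {v | Rch S y v}, u ⬝ᵥ v = 0 := fun u hu v hv => by
  by_contra e
  exact h (Rch.trans hu ((Rch.single (Rch.mem hu hx) (Rch.mem hv hy) e).trans (Rch.symm hv)))

theorem finrank_act (hW : Std W) (hst : ∀ w ∈ W, ∀ x, S x → S (rho w.val x)) {w : GH 2}
    (hw : w ∈ W) (x : E5) :
    finrank ℝ (span ℝ {u | Rch S (rho w.val x) u}) = finrank ℝ (span ℝ {u | Rch S x u}) := by
  have e : {u | Rch S (rho w.val x) u} = rhoL w.val '' {u | Rch S x u} := by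
    ext u
    constructor
    · intro hu
      refine ⟨rho (w⁻¹).val u, ?_, rho_inv_right hW hw u⟩
      have := Rch.act hW hst (W.inv_mem hw) hu
      rwa [rho_inv_left hW hw] at this
    · rintro ⟨v, hv, rfl⟩
      exact Rch.act hW hst hw hv
  have inj : Function.Injective (rhoL w.val) :=
    Function.LeftInverse.injective (g := rho (w⁻¹).val) (rho_inv_left hW hw)
  rw [e, ← map_span]
  exact (equivMapOfInjective _ inj _).finrank_eq.symm

theorem span_S (hI : Irr5 W) (hS : ∀ x, S x → x ⬝ᵥ x = 1)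
    (hst : ∀ w ∈ W, ∀ x, S x → S (rho w.val x)) (hne : ∃ a, S a) (v : E5)
    (hv : ∀ x, S x → x ⬝ᵥ v = 0) : v = 0 := by
  obtain ⟨a, ha⟩ := hne
  exact eq_zero_of_top (span_top hI (T := {x | S x}) hst ha (ne_zero_of_unit (hS a ha))) hv

theorem axes (hW : Std W) (hI : Irr5 W) (hS : ∀ x, S x → x ⬝ᵥ x = 1)
    (hst : ∀ w ∈ W, ∀ x, S x → S (rho w.val x)) {a : E5} (ha : S a)
    (h1 : ∀ u, Rch S a u → u = a ∨ u = -a) : Axes S := by
  have hT : span ℝ {u | ∃ w ∈ W, u = rho w.val a} = ⊤ := by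
    refine span_top hI (a := a) ?_ ⟨1, W.one_mem, (rho_one a).symm⟩ (ne_zero_of_unit (hS a ha))
    rintro w hw _ ⟨w', hw', rfl⟩
    exact ⟨w * w', W.mul_mem hw hw', (rho_mul' hW w hw' a).symm⟩
  have key : ∀ u ∈ {u | ∃ w ∈ W, u = rho w.val a}, ∀ y, S y → u ⬝ᵥ y ≠ 0 → y = u ∨ y = -u := by
    rintro _ ⟨w, hw, rfl⟩ y hy h
    have := h1 (rho (w⁻¹).val y) (Rch.single ha (hst _ (W.inv_mem hw) y hy) (by
      rwa [← rho_dot (hW.uni w hw), rho_inv_right hW hw]))
    rw [← rho_neg', ← rho_inv_right hW hw y]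
    exact this.imp (congrArg _) (congrArg _)
  have ex := exists_fun_fin_finrank_span_eq ℝ {u | ∃ w ∈ W, u = rho w.val a}
  rw [finrank_top5 hT, hT] at ex
  obtain ⟨ε, e1, e2, e3⟩ := ex
  have hε : ∀ i, S (ε i) := fun i => by
    obtain ⟨w, hw, e⟩ := e1 i
    exact e ▸ hst w hw a ha
  refine ⟨ε, fun i j => ?_, fun i => Or.inl (hε i), fun y hy => ?_⟩
  · split_ifs with hij
    · rw [hij]
      exact hS _ (hε j)
    · by_contra h
      rcases key _ (e1 i) _ (hε j) h with e | e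
      · exact hij (e3.eq_of_smul_apply_eq_smul_apply 1 1 i j one_ne_zero (by rw [e]))
      · exact hij (e3.eq_of_smul_apply_eq_smul_apply (-1) 1 i j (by norm_num) (by simp [e]))
  · by_contra h
    refine ne_zero_of_unit (hS y hy) (eq_zero_of_top e2 ?_)
    rintro _ ⟨i, rfl⟩
    by_contra h'
    exact h ⟨i, key _ (e1 i) y hy h'⟩

theorem comp5' (hW : Std W) (hI : Irr5 W) (S : E5 → Prop) (hS : ∀ x, S x → x ⬝ᵥ x = 1)
    (hst : ∀ w ∈ W, ∀ x, S x → S (rho w.val x)) (hne : ∃ a, S a) : Conn5 S ∨ Axes S := by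
  have hsp := span_S hI hS hst hne
  obtain ⟨a, ha⟩ := hne
  have a0 := ne_zero_of_unit (hS a ha)
  by_cases h1 : ∀ u, Rch S a u → u = a ∨ u = -a
  · exact Or.inr (axes hW hI hS hst ha h1)
  refine Or.inl ⟨?_, hsp⟩
  have d2 : 2 ≤ finrank ℝ (span ℝ {u | Rch S a u}) := by
    have am : a ∈ span ℝ {u | Rch S a u} := subset_span Rch.rfl
    have n0 : (⟨a, am⟩ : span ℝ {u | Rch S a u}) ≠ 0 := fun e => a0 (congrArg Subtype.val e)
    have d0 : 0 < finrank ℝ (span ℝ {u | Rch S a u}) :=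
      finrank_pos_iff_exists_ne_zero.2 ⟨_, n0⟩
    by_contra h
    have d1 : finrank ℝ (span ℝ {u | Rch S a u}) = 1 := by omega
    refine h1 fun u hu => ?_
    obtain ⟨c, hc⟩ := (finrank_eq_one_iff_of_nonzero' _ n0).1 d1 ⟨u, subset_span hu⟩
    have e : c • a = u := congrArg Subtype.val hc
    have := hS u (hu.mem ha)
    rw [← e, smul_dotProduct, dotProduct_smul, hS a ha, smul_eq_mul, smul_eq_mul, mul_one,
      mul_self_eq_one_iff] at this
    rcases this with rfl | rfl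
    · exact Or.inl (by rw [← e, one_smul])
    · exact Or.inr (by rw [← e, neg_one_smul])
  have h2 : ∀ w ∈ W, Rch S a (rho w.val a) := by
    by_contra h
    push Not at h
    obtain ⟨w0, hw0, h0⟩ := h
    have o1 := Rch.orth ha (hst w0 hw0 a ha) h0
    have f1 := finrank_union o1
    rw [finrank_act hW hst hw0] at f1
    by_cases h3 : ∀ w ∈ W, Rch S a (rho w.val a) ∨ Rch S (rho w0.val a) (rho w.val a)
    · have := span_top hI (T := {u | Rch S a u} ∪ {u | Rch S (rho w0.val a) u}) (a := a)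
        (fun w hw x hx => by
          rcases hx with hx | hx
          · exact (h3 w hw).imp (fun e => e.trans (Rch.act hW hst hw hx))
              fun e => e.trans (Rch.act hW hst hw hx)
          · have := Rch.act hW hst hw hx
            rw [← rho_mul' hW w hw0] at this
            exact (h3 _ (W.mul_mem hw hw0)).imp (fun e => e.trans this) fun e => e.trans this)
        (Or.inl Rch.rfl) a0
      rw [finrank_top5 this] at f1
      omega
    · push Not at h3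
      obtain ⟨w1, hw1, h4, h5⟩ := h3
      have f2 := finrank_union (A := {u | Rch S a u} ∪ {u | Rch S (rho w0.val a) u})
        (B := {u | Rch S (rho w1.val a) u}) fun x hx y hy => by
          rcases hx with hx | hx
          · exact Rch.orth ha (hst w1 hw1 a ha) h4 x hx y hy
          · exact Rch.orth (hst w0 hw0 a ha) (hst w1 hw1 a ha) h5 x hx y hy
      rw [f1, finrank_act hW hst hw1] at f2
      have := finrank_le5 (span ℝ (({u | Rch S a u} ∪ {u | Rch S (rho w0.val a) u}) ∪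
        {u | Rch S (rho w1.val a) u}))
      omega
  have top := span_top hI (T := {u | Rch S a u}) (a := a)
    (fun w hw x hx => (h2 w hw).trans (Rch.act hW hst hw hx)) Rch.rfl a0
  have all : ∀ x, S x → Rch S a x := fun x hx => by
    by_contra h
    exact ne_zero_of_unit (hS x hx)
      (eq_zero_of_top top fun u hu => Rch.orth ha hx h u hu x Rch.rfl)
  intro P b hb hP hc x hx
  have : Rch S b x := (all b hb).symm.trans (all x hx)
  clear hx
  induction this with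
  | refl => exact hP
  | tail _ h ih => exact hc _ _ h.1 h.2.1 ih h.2.2

theorem rho_phi {y : E5} (hy : y ⬝ᵥ y = 1) {w : GH 2} (h : w.val = hm y ∨ w.val = -hm y) (v : E5) :
    rho w.val v = (2 * (y ⬝ᵥ v)) • y - v := by
  rcases h with h | h
  · rw [h, rho_hm hy]
  · rw [h, rho_neg, rho_hm hy]

theorem sq_cases (hst : ∀ w ∈ W, ∀ x, S x → S (rho w.val x)) {ε : Fin 5 → E5}
    (h2 : ∀ i, S (ε i) ∨ S (-ε i)) (h3 : ∀ y, S y → ∃ i, y = ε i ∨ y = -ε i) {y : E5}
    (hy : Phi W y) (i : Fin 5) :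
    ∃ (j : Fin 5) (s : ℝ), (s = 1 ∨ s = -1) ∧ (2 * (y ⬝ᵥ ε i)) • y = ε i + s • ε j := by
  obtain ⟨h1, w, hw, e⟩ := hy
  have key : ∃ j, rho w.val (ε i) = ε j ∨ rho w.val (ε i) = -ε j := by
    rcases h2 i with h | h
    · exact h3 _ (hst w hw _ h)
    · obtain ⟨j, hj⟩ := h3 _ (hst w hw _ h)
      rw [rho_neg', neg_eq_iff_eq_neg, neg_inj] at hj
      exact ⟨j, hj.symm⟩
  obtain ⟨j, hj⟩ := key
  rw [rho_phi h1 e, sub_eq_iff_eq_add', sub_eq_iff_eq_add'] at hj
  rcases hj with hj | hj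
  · exact ⟨j, 1, Or.inl rfl, by rw [hj, one_smul]⟩
  · exact ⟨j, -1, Or.inr rfl, by rw [hj, neg_one_smul]⟩

theorem ang_axes (hI : Irr5 W) (hS : ∀ x, S x → x ⬝ᵥ x = 1)
    (hst : ∀ w ∈ W, ∀ x, S x → S (rho w.val x)) (hne : ∃ a, S a) (hA : Axes S) {y z : E5}
    (hy : Phi W y) (hz : Phi W z) : S4 (4 * (y ⬝ᵥ z) ^ 2) := by
  obtain ⟨ε, h1, h2, h3⟩ := hA
  have sq : ∀ {y}, Phi W y → ∀ i, (y ⬝ᵥ ε i) ^ 2 = 0 ∨ (y ⬝ᵥ ε i) ^ 2 = 1 / 2 ∨
      (y ⬝ᵥ ε i) ^ 2 = 1 := fun {y} hy i => by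
    obtain ⟨j, s, hs, e⟩ := sq_cases hst h2 h3 hy i
    have := congrArg (· ⬝ᵥ ε i) e
    simp only [smul_dotProduct, add_dotProduct, h1, smul_eq_mul, if_true] at this
    split_ifs at this
    · rcases hs with rfl | rfl
      · exact Or.inr (Or.inr (by linarith))
      · exact Or.inl (by linarith)
    · exact Or.inr (Or.inl (by linarith))
  obtain ⟨i, hi⟩ : ∃ i, y ⬝ᵥ ε i ≠ 0 := by
    by_contra h
    push Not at h
    refine ne_zero_of_unit hy.1 (span_S hI hS hst hne y fun x hx => ?_)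
    obtain ⟨i, e | e⟩ := h3 x hx
    · rw [e, dotProduct_comm, h]
    · rw [e, neg_dotProduct, dotProduct_comm, h, neg_zero]
  obtain ⟨j, s, hs, e⟩ := sq_cases hst h2 h3 hy i
  have e1 := congrArg (· ⬝ᵥ ε i) e
  have e2 := congrArg (· ⬝ᵥ z) e
  simp only [smul_dotProduct, add_dotProduct, h1, smul_eq_mul, if_true] at e1 e2
  rw [dotProduct_comm (ε i), dotProduct_comm (ε j)] at e2
  have a1 := sq hz i
  have a2 := sq hz j
  have hi2 : 0 < (y ⬝ᵥ ε i) ^ 2 := by positivity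
  unfold S4
  split_ifs at e1 with hij
  · subst hij
    rcases hs with rfl | rfl
    · have e3 : (y ⬝ᵥ ε j) ^ 2 = 1 := by linarith
      have e4 : (y ⬝ᵥ z) ^ 2 = (z ⬝ᵥ ε j) ^ 2 := by
        have : y ⬝ᵥ ε j * (y ⬝ᵥ z) = z ⬝ᵥ ε j := by linarith
        rw [← this, mul_pow, e3, one_mul]
      rw [e4]
      rcases a1 with a | a | a <;> rw [a] <;> norm_num
    · exfalso
      linarith
  · have e3 : (y ⬝ᵥ ε i) ^ 2 = 1 / 2 := by linarith
    have s2 : s ^ 2 = 1 := by rcases hs with rfl | rfl <;> norm_num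
    have e4 : 4 * (y ⬝ᵥ z) ^ 2 = 2 * (z ⬝ᵥ ε i + s * (z ⬝ᵥ ε j)) ^ 2 := by
      rw [← e2]
      linear_combination (-8 * (y ⬝ᵥ z) ^ 2) * e3
    have bes := dot_nonneg (z - (z ⬝ᵥ ε i) • ε i - (z ⬝ᵥ ε j) • ε j)
    simp only [sub_dotProduct, dotProduct_sub, smul_dotProduct, dotProduct_smul, h1, smul_eq_mul,
      if_true, if_neg hij, if_neg (Ne.symm hij), hz.1, dotProduct_comm (ε _) z] at bes
    rw [e4]
    generalize z ⬝ᵥ ε i = p at a1 bes
    generalize z ⬝ᵥ ε j = q at a2 bes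
    have b1 : p ^ 2 + q ^ 2 ≤ 1 := by linarith
    have b2 : (p + s * q) ^ 2 = p ^ 2 + q ^ 2 + 2 * (s * (p * q)) := by
      linear_combination q ^ 2 * s2
    have b3 : (s * (p * q)) ^ 2 = p ^ 2 * q ^ 2 := by linear_combination (p * q) ^ 2 * s2
    rw [b2]
    generalize s * (p * q) = t at b3
    rcases a1 with a | a | a <;> rcases a2 with b | b | b <;> rw [a, b] at b1 b3 ⊢
    · rw [pow_eq_zero_iff two_ne_zero |>.1 (b3.trans (by norm_num))]; norm_num
    · rw [pow_eq_zero_iff two_ne_zero |>.1 (b3.trans (by norm_num))]; norm_num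
    · rw [pow_eq_zero_iff two_ne_zero |>.1 (b3.trans (by norm_num))]; norm_num
    · rw [pow_eq_zero_iff two_ne_zero |>.1 (b3.trans (by norm_num))]; norm_num
    · have : (t - 1 / 2) * (t + 1 / 2) = 0 := by linear_combination b3
      rcases mul_eq_zero.1 this with h | h
      · rw [sub_eq_zero.1 h]; norm_num
      · rw [eq_neg_of_add_eq_zero_left h]; norm_num
    · norm_num at b1
    · rw [pow_eq_zero_iff two_ne_zero |>.1 (b3.trans (by norm_num))]; norm_num
    · norm_num at b1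
    · norm_num at b1

/-- The action as a homomorphism. -/
noncomputable def rhoH (hW : Std W) : W →* Module.End ℝ E5 where
  toFun w := rhoL w.1.val
  map_one' := LinearMap.ext fun y => rho_one y
  map_mul' w w' := LinearMap.ext fun y => rho_mul' hW w.1 w'.2 y

theorem rhoH_apply (hW : Std W) (w : W) (y : E5) : rhoH hW w y = rho w.1.val y := rfl

/-- The case of a small rotation. -/
theorem ang_small (hW : Std W) (hI : Irr5 W) {g : GH 2} (hg : g ∈ W)
    (h : ∀ v, v ⬝ᵥ v ≤ 2 * (rho g.val v ⬝ᵥ v)) (h1 : ∃ v, v ≠ 0 ∧ rho g.val v = v)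
    (h2 : ∃ v, rho g.val v ≠ v) {y z : E5} (hy : Phi W y) (hz : Phi W z) :
    S4 (4 * (y ⬝ᵥ z) ^ 2) := by
  have := hW.finite
  obtain ⟨x, x0, hx⟩ := atoms (dotProductBilin ℝ ℝ) (fun x y => dotProduct_comm x y)
    (fun x hx => (dot_nonneg x).lt_of_ne fun e => hx (dotProduct_self_eq_zero.1 e.symm))
    (rhoH hW) (fun w x y => rho_dot (hW.uni _ w.2) x y) ⟨g, hg⟩ h (ne_zero_of_unit hy.1)
  let S : E5 → Prop := fun u => u ⬝ᵥ u = 1 ∧ ∀ w ∈ W, rho g.val (rho w.val u) = rho w.val u ∨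
    ∀ v, rho g.val v = v → v ⬝ᵥ rho w.val u = 0
  have hS : ∀ x, S x → x ⬝ᵥ x = 1 := fun x hx => hx.1
  have hst : ∀ w ∈ W, ∀ x, S x → S (rho w.val x) := fun w hw x hx =>
    ⟨by rw [rho_dot (hW.uni w hw), hx.1], fun w' hw' => by
      rw [← rho_mul' hW w' hw]
      exact hx.2 _ (W.mul_mem hw' hw)⟩
  have hne : ∃ a, S a := by
    have xp : 0 < x ⬝ᵥ x := (dot_nonneg x).lt_of_ne fun e => x0 (dotProduct_self_eq_zero.1 e.symm)
    refine ⟨(√(x ⬝ᵥ x))⁻¹ • x, ?_, fun w hw => ?_⟩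
    · rw [smul_dotProduct, dotProduct_smul, smul_eq_mul, smul_eq_mul, ← mul_assoc, ← mul_inv,
        Real.mul_self_sqrt xp.le, inv_mul_cancel₀ xp.ne']
    · rw [rho_smul, rho_smul]
      refine (hx ⟨w, hw⟩).imp (fun e => congrArg _ e) fun e v hv => ?_
      rw [dotProduct_smul, show v ⬝ᵥ rho w.val x = 0 from e v hv, smul_zero]
  refine (comp5' hW hI S hS hst hne).elim (fun hC => ?_) fun hA => ang_axes hI hS hst hne hA hy hz
  exfalso
  have alt : ∀ u, S u → rho g.val u = u ∨ ∀ v, rho g.val v = v → v ⬝ᵥ u = 0 := fun u hu => by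
    simpa only [Units.val_one, rho_one] using hu.2 1 W.one_mem
  by_cases hf : ∃ a, S a ∧ rho g.val a = a
  · obtain ⟨a, ha, ha'⟩ := hf
    have all := hC.1 (fun u => rho g.val u = u) a ha ha'
      fun u v _ hv hu e => (alt v hv).resolve_right fun e' => e (e' u hu)
    obtain ⟨v, hv⟩ := h2
    refine hv (sub_eq_zero.1 (hC.2 _ fun u hu => ?_))
    rw [dotProduct_sub, ← rho_dot (hW.uni g hg) u v, all u hu, sub_self]
  · obtain ⟨v, v0, hv⟩ := h1
    refine v0 (hC.2 _ fun u hu => ?_)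
    rw [dotProduct_comm]
    exact (alt u hu).resolve_left (fun e => hf ⟨u, hu, e⟩) v hv

theorem ang (hW : Std W) (hI : Irr5 W) {y z : E5} (hy : Phi W y) (hz : Phi W z) :
    S4 (4 * (y ⬝ᵥ z) ^ 2) := by
  have := hW.finite
  obtain ⟨y1, wy, hwy, ey⟩ := id hy
  obtain ⟨z1, wz, hwz, ez⟩ := id hz
  obtain ⟨c, hc⟩ : ∃ c, y ⬝ᵥ z = c := ⟨_, rfl⟩
  have hc' : z ⬝ᵥ y = c := by rw [dotProduct_comm, hc]
  have c1 : c ^ 2 ≤ 1 := by
    have := dot_nonneg (z - c • y)
    simp only [sub_dotProduct, dotProduct_sub, smul_dotProduct, dotProduct_smul, smul_eq_mul,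
      y1, z1, hc, hc'] at this
    linarith
  rcases c1.eq_or_lt with c2 | c2
  · rw [hc, c2]
    unfold S4
    norm_num
  let g : W := ⟨wy * wz, W.mul_mem hwy hwz⟩
  let A := rhoH hW g
  have hA : ∀ v, A v = v - (2 * (z ⬝ᵥ v)) • z + (4 * c * (z ⬝ᵥ v) - 2 * (y ⬝ᵥ v)) • y := by
    intro v
    change rho (wy * wz).val v = _
    rw [rho_mul' hW wy hwz, rho_phi z1 ez, rho_phi y1 ey, dotProduct_sub, dotProduct_smul, hc,
      smul_eq_mul]
    module
  have hAk : ∀ (k : ℕ) v, (A ^ k) v = rho (g ^ k).1.val v := fun k v => by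
    rw [← map_pow, rhoH_apply]
  have Adot : ∀ (k : ℕ) u v, (A ^ k) u ⬝ᵥ (A ^ k) v = u ⬝ᵥ v := fun k u v => by
    rw [hAk, hAk, rho_dot (hW.uni _ (g ^ k).2)]
  have Afix : ∀ v, y ⬝ᵥ v = 0 → z ⬝ᵥ v = 0 → ∀ k : ℕ, (A ^ k) v = v := fun v h1 h2 k => by
    induction k with
    | zero => rfl
    | succ k ih => rw [pow_succ, Module.End.mul_apply, hA, h1, h2]; simpa using ih
  have Ay : A y = (4 * c ^ 2 - 1) • y - (2 * c) • z := by
    rw [hA, y1, hc']
    module
  have Az : A z = (2 * c) • y - z := by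
    rw [hA, z1, hc]
    module
  have rec2 : ∀ α β : ℝ, A (A (α • y + β • z)) =
      (2 * (2 * c ^ 2 - 1)) • A (α • y + β • z) - (α • y + β • z) := fun α β => by
    simp only [map_add, map_sub, map_smul, Ay, Az]
    module
  have reck : ∀ (α β : ℝ) (u : E5) (k : ℕ), (A ^ (k + 2)) (α • y + β • z) ⬝ᵥ u =
      2 * (2 * c ^ 2 - 1) * ((A ^ (k + 1)) (α • y + β • z) ⬝ᵥ u) - (A ^ k) (α • y + β • z) ⬝ᵥ u := by
    intro α β u k
    rw [pow_succ, pow_succ, Module.End.mul_apply, Module.End.mul_apply, Module.End.mul_apply, rec2,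
      map_sub, map_smul, sub_dotProduct, smul_dotProduct, smul_eq_mul]
  let x : ℕ → ℝ := fun k => (A ^ k) y ⬝ᵥ y
  have x0 : x 0 = 1 := y1
  have x1 : x 1 = 2 * c ^ 2 - 1 := by
    simp only [x, pow_one, Ay, sub_dotProduct, smul_dotProduct, smul_eq_mul, y1, hc']
    ring
  have x2 : ∀ k, x (k + 2) = 2 * x 1 * x (k + 1) - x k := fun k => by
    have := reck 1 0 y k
    simp only [one_smul, zero_smul, add_zero] at this
    rw [x1]
    exact this
  have plane : ∀ (α β : ℝ) (k : ℕ), (A ^ k) (α • y + β • z) ⬝ᵥ (α • y + β • z) =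
      x k * ((α • y + β • z) ⬝ᵥ (α • y + β • z)) := fun α β k => by
    induction k using Nat.twoStepInduction with
    | zero => rw [x0, one_mul]; rfl
    | one =>
      simp only [x1, pow_one, map_add, map_smul, Ay, Az, sub_dotProduct, add_dotProduct,
        dotProduct_add, smul_dotProduct, dotProduct_smul, smul_eq_mul, y1, z1, hc, hc']
      ring
    | more k h1 h2 => rw [reck, h1, h2, x2, x1]; ring
  by_cases hk : ∀ k, 1 / 2 ≤ x k → x k = 1
  · rw [hc]
    refine s4_of_seq c1 x x0 x1 x2 ⟨orderOf g, orderOf_pos g, ?_⟩ hk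
    simp only [x, A]
    rw [← map_pow, pow_orderOf_eq_one, map_one]
    exact y1
  push Not at hk
  obtain ⟨k, k1, k2⟩ := hk
  refine ang_small hW hI (g ^ k).2 (fun v => ?_) ?_ ⟨y, fun e => k2 ?_⟩ hy hz
  · rw [← hAk]
    have c3 : 1 - c ^ 2 ≠ 0 := by linarith
    obtain ⟨e, he⟩ : ∃ e, e = ((y ⬝ᵥ v - c * (z ⬝ᵥ v)) / (1 - c ^ 2)) • y +
        ((z ⬝ᵥ v - c * (y ⬝ᵥ v)) / (1 - c ^ 2)) • z := ⟨_, rfl⟩
    have n1 : y ⬝ᵥ (v - e) = 0 := by
      simp only [he, dotProduct_sub, dotProduct_add, dotProduct_smul, smul_eq_mul, y1, hc]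
      field_simp
      ring
    have n2 : z ⬝ᵥ (v - e) = 0 := by
      simp only [he, dotProduct_sub, dotProduct_add, dotProduct_smul, smul_eq_mul, z1, hc']
      field_simp
      ring
    have p1 : (A ^ k) e ⬝ᵥ e = x k * (e ⬝ᵥ e) := he ▸ plane _ _ k
    obtain ⟨m, rfl⟩ : ∃ m, v = e + m := ⟨v - e, by abel⟩
    rw [add_sub_cancel_left] at n1 n2
    have n3 : e ⬝ᵥ m = 0 := by
      rw [he, add_dotProduct, smul_dotProduct, smul_dotProduct, n1, n2]
      simp
    have n4 : m ⬝ᵥ e = 0 := by rw [dotProduct_comm, n3]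
    have n5 : (A ^ k) e ⬝ᵥ m = 0 := by rw [← n3, ← Adot k e m, Afix m n1 n2]
    simp only [map_add, Afix m n1 n2, add_dotProduct, dotProduct_add, p1, n3, n4, n5]
    nlinarith [dot_nonneg e, dot_nonneg m]
  · obtain ⟨v, hv, v0⟩ := (Submodule.ne_bot_iff _).1 (LinearMap.ker_ne_bot_of_finrank_lt
      (f := LinearMap.prod (dotProductBilin ℝ ℝ y) (dotProductBilin ℝ ℝ z)) (by simp))
    refine ⟨v, v0, ?_⟩
    rw [← hAk]
    exact Afix v (congrArg Prod.fst hv) (congrArg Prod.snd hv) k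
  · simp only [x]
    rw [hAk, e, y1]

end R2Aux

open R2Aux

theorem comp5 (hW : Std W) (hI : Irr5 W) (S : E5 → Prop) (hS : ∀ x, S x → x ⬝ᵥ x = 1)
    (hst : ∀ w ∈ W, ∀ x, S x → S (rho w.val x)) (hne : ∃ a, S a) : Conn5 S ∨ Axes S :=
  comp5' hW hI S hS hst hne

theorem rs5 (hW : Std W) (hI : Irr5 W) : RS5 (Phi W) := by
  have := hW.finite
  refine ⟨?_, fun y hy => hy.1, fun y hy => hy.neg, fun y z hy hz => ?_,
    fun y z hy hz => ang hW hI hy hz⟩
  · refine ((Set.finite_range fun w : W => uh w.1.val).union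
      (Set.finite_range fun w : W => -uh w.1.val)).subset ?_
    rintro y ⟨-, w, hw, e | e⟩
    · exact Or.inl ⟨⟨w, hw⟩, by simp only [e, uh_hm]⟩
    · exact Or.inr ⟨⟨w, hw⟩, by simp only [e, ← hm_neg, uh_hm, neg_neg]⟩
  · obtain ⟨y1, w, hw, e⟩ := hy
    have := (hz.act hW hw).neg
    rwa [rho_phi y1 e, neg_sub] at this

end Pool.Agent.P.MP_97ea17_al.Geo
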