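import Pool.Agent.P.MP_97ea17_al.F.R3a

/-! Connected root systems of rank five contain `A₅` or `D₅`. -/

namespace Pool.Agent.P.MP_97ea17_al.Geo

open scoped Quaternion Matrix

namespace R3Aux

/-- The symmetric adjacency table of ten bits. -/
def adj (b01 b02 b03 b04 b12 b13 b14 b23 b24 b34 : Bool) (i j : Fin 5) : Bool :=
  match i, j with
  | 0, 1 => b01 | 0, 2 => b02 | 0, 3 => b03 | 0, 4 => b04
  | 1, 0 => b01 | 1, 2 => b12 | 1, 3 => b13 | 1, 4 => b14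
  | 2, 0 => b02 | 2, 1 => b12 | 2, 3 => b23 | 2, 4 => b24
  | 3, 0 => b03 | 3, 1 => b13 | 3, 2 => b23 | 3, 4 => b34
  | 4, 0 => b04 | 4, 1 => b14 | 4, 2 => b24 | 4, 3 => b34
  | _, _ => false

/-- Subsets as five bits. -/
def sel (s0 s1 s2 s3 s4 : Bool) (i : Fin 5) : Bool :=
  match i with
  | 0 => s0 | 1 => s1 | 2 => s2 | 3 => s3 | 4 => s4

/-- The three trees on five vertices. -/
def shape (A : Fin 5 → Fin 5 → Bool) (a b c d e : Fin 5) : Bool :=
  (a != b && a != c && a != d && a != e && b != c && b != d && b != e && c != d && c != e &&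
    d != e) &&
  ((A a b && A b c && A c d && A d e && !A a c && !A a d && !A a e && !A b d && !A b e &&
    !A c e) ||
   (A a b && A b c && A c d && A c e && !A a c && !A a d && !A a e && !A b d && !A b e &&
    !A d e) ||
   (A a b && A a c && A a d && A a e && !A b c && !A b d && !A b e && !A c d && !A c e &&
    !A d e))

/-- A table of witnesses. -/
def tab : ℕ :=
  0xe000000000000000e0000000e00010000000000000000000000000000000000000000000000000000000000000000000000000000000000000000000000000000000000000000000000000000000000000000000000000000000000000000000000000000000000000000000000000000000000000000000000000000000086af0000000000005d2f000083ef8b6f000000000000000000000000000000000000000000000000000000000000000000000000000000000000000000000000556f0000000000002d2f0000456f726f000000000000000000000000000000007c2f0000000000003def00002baf97ef0000000000000000000e0000000e8b2f000e0000000e722f000e97af000e000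1000000000000000000000000000000000000000000000000000000000000000000000000000000000000000000000000000000000000000000000000000000000000000000000000000000000000000000000000000000000000000000000000000000000000000000000000000000002e6f000000000000542f00004baf6c2f0000000000000000000000000000000000000000000000000000000000000000000000000000000000000000000000005bef000000000000adaf0000a96fb0ef000000000000000000000000000000003caf000000000000a1af00002b6fb72f0000000000000000000e0000000e6bef000e0000000eb0af000eb6ef000e0001000000000000000000000000000000000000000000000000000000000000000000000000000000000000000000000000000d000000000000000d00000002000d000000000000000000000000000000007bef0000000000005d2f000096af512f0000000000000000000d0000836f000d000d0000542f000d000d962f0002000d000000000000000000000000000000005bef000000000000a16f0000b5ef50ef0000000000000000000d0000556f000d000d0000a8ef000d000db56f0002000d0000000000000000000c0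000952f94ef000c0000b46fb42f000c00030003000300000000000e000d000c576f000e000d000c572f000e000d000c000300020001000000000000000000000000000000000000000000000000000000000000000000000000000000000000000000000000000000000000000000000000000000000000000000000000000000000000000000000000000000000000000000000000000000000000000000000000000000002e2f0000000000004a6f000079af8b6f00000000000000000000000000000000000000000000000000000000000000000000000000000000000000000000000042ef0000000000002caf0000a06fb0ef00000000000000000000000000000000816f000000000000a82f0000b56fb72f0000000000000000000e0000000e8b2f000e0000000eb0af000eb6ef000e000100000000000000000000000000000000000000000000000000000000000000000000000000000000000000000000000054ef0000000000006fef000083ef782f00000000000000000000000000000000000b00000000000000040000000b000b00000000000000005c6f0000000b000b000b000079af782f0004000b000b000b00000000000000000000000000000000816f0000000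00000ae6f00009fef77af00000000000000006e6f0000000a7e6f000a0000acef00050005ac6f000a000500000000000000007c2f0000000b000b000b0000a76fadaf0004000b000b000b00000000000e7e6f000e000b000a000b000a7def000e00050004000b000a0001000000000000000000000000000000000000000000000000000000000000000000000000000000000000000000000000686f000000000000536f0000a96f9eef0000000000000000000000000000000087af000000000000a82f000078ef9eaf000000000000000066ef0000862f0009000900000006a52f0006a4ef00060009000000000000000000000000000000000008000000000000000700000007000700000000000000005aef0000a06f9eef000800000007000700070007000700070000000000000000a1af0000806f9eaf0008000000070007000700070007000700000000000ea52f000ea4ef000e0009000800070006000700060007000600010000000000000000000000000000000087af000000000000ae6f0000b5efb6ef0000000000000000000d0000836f000d000d0000a8ef000d000db56f0002000d00000000000000007bef0000000b000b000b0000a76fadaf0004000b000b000b00000000862f000d000d000b000b00090009856f0006000d0004000b000200090000000000000000a16f00009fef86af0008000000070007000700070007000700000000acef000d000dac6f000a000d0008000700070005000500070002000500000000b46fb42f000c000b000b000b000800070007000700040003000300030000b72f000e000d000c000b000a0009000800070006000500040003000200010000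

/-- The witness of a table of bits. -/
def wit (b01 b02 b03 b04 b12 b13 b14 b23 b24 b34 : Bool) : ℕ :=
  (tab >>> (16 * (b01.toNat + 2 * b02.toNat + 4 * b03.toNat + 8 * b04.toNat + 16 * b12.toNat +
    32 * b13.toNat + 64 * b14.toNat + 128 * b23.toNat + 256 * b24.toNat +
    512 * b34.toNat))) % 65536

/-- A proper subset without crossing edges. -/
def noCross (A : Fin 5 → Fin 5 → Bool) (s1 s2 s3 s4 : Bool) : Bool :=
  !(s1 && s2 && s3 && s4) && (List.finRange 5).all fun i => (List.finRange 5).all fun j =>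
    !(sel true s1 s2 s3 s4 i && !sel true s1 s2 s3 s4 j && A i j)

/-- The check of a witness. -/
def chk (A : Fin 5 → Fin 5 → Bool) (w : ℕ) : Bool :=
  noCross A (w.testBit 0) (w.testBit 1) (w.testBit 2) (w.testBit 3) ||
    shape A (Fin.ofNat 5 (w / 16)) (Fin.ofNat 5 (w / 80)) (Fin.ofNat 5 (w / 400))
      (Fin.ofNat 5 (w / 2000)) (Fin.ofNat 5 (w / 10000))

theorem chk_all : ∀ b01 b02 b03 b04 b12 b13 b14 b23 b24 b34 : Bool,
    b01.toNat + b02.toNat + b03.toNat + b04.toNat + b12.toNat + b13.toNat + b14.toNat +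
      b23.toNat + b24.toNat + b34.toNat ≤ 4 →
    chk (adj b01 b02 b03 b04 b12 b13 b14 b23 b24 b34)
      (wit b01 b02 b03 b04 b12 b13 b14 b23 b24 b34) = true := by
  decide +kernel

theorem tree5 (b01 b02 b03 b04 b12 b13 b14 b23 b24 b34 : Bool)
    (h1 : b01.toNat + b02.toNat + b03.toNat + b04.toNat + b12.toNat + b13.toNat + b14.toNat +
      b23.toNat + b24.toNat + b34.toNat ≤ 4)
    (h2 : ∀ s1 s2 s3 s4 : Bool, (s1 && s2 && s3 && s4) = false →
      ∃ i j, sel true s1 s2 s3 s4 i = true ∧ sel true s1 s2 s3 s4 j = false ∧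
        adj b01 b02 b03 b04 b12 b13 b14 b23 b24 b34 i j = true) :
    ∃ a b c d e, shape (adj b01 b02 b03 b04 b12 b13 b14 b23 b24 b34) a b c d e = true := by
  have h := chk_all _ _ _ _ _ _ _ _ _ _ h1
  rw [chk, Bool.or_eq_true] at h
  rcases h with h | h
  · exfalso
    rw [noCross, Bool.and_eq_true, Bool.not_eq_true', List.all_eq_true] at h
    obtain ⟨i, j, e1, e2, e3⟩ := h2 _ _ _ _ h.1
    have := List.all_eq_true.1 (h.2 i (List.mem_finRange i)) j (List.mem_finRange j)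
    rw [e1, e2, e3] at this
    exact absurd this (by decide)
  · exact ⟨_, _, _, _, _, h⟩

theorem posdef {v : Fin 5 → E5} (li : LinearIndependent ℝ v) (c : Fin 5 → ℝ) (k : Fin 5)
    (hk : c k ≠ 0) : 0 < ∑ i, ∑ j, c i * c j * (v i ⬝ᵥ v j) := by
  have h1 : (∑ i, c i • v i) ⬝ᵥ (∑ i, c i • v i) = ∑ i, ∑ j, c i * c j * (v i ⬝ᵥ v j) := by
    rw [sum_dotProduct]
    refine Finset.sum_congr rfl fun i _ => ?_
    rw [dotProduct_sum]
    refine Finset.sum_congr rfl fun j _ => ?_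
    rw [smul_dotProduct, dotProduct_smul, smul_eq_mul, smul_eq_mul, mul_assoc]
  rw [← h1]
  refine lt_of_le_of_ne (dot_nonneg _) fun h0 => hk ?_
  exact Fintype.linearIndependent_iff.1 li c (dotProduct_self_eq_zero.1 h0.symm) k

/-- The quadratic form in five named vectors. -/
theorem pos5 {v : Fin 5 → E5} (li : LinearIndependent ℝ v) (hu : ∀ i, v i ⬝ᵥ v i = 1)
    (c0 c1 c2 c3 c4 : ℝ) (hk : c0 ≠ 0 ∨ c2 ≠ 0) :
    0 < c0 ^ 2 + c1 ^ 2 + c2 ^ 2 + c3 ^ 2 + c4 ^ 2 +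
      2 * (c0 * c1 * (v 0 ⬝ᵥ v 1) + c0 * c2 * (v 0 ⬝ᵥ v 2) + c0 * c3 * (v 0 ⬝ᵥ v 3) +
        c0 * c4 * (v 0 ⬝ᵥ v 4) + c1 * c2 * (v 1 ⬝ᵥ v 2) + c1 * c3 * (v 1 ⬝ᵥ v 3) +
        c1 * c4 * (v 1 ⬝ᵥ v 4) + c2 * c3 * (v 2 ⬝ᵥ v 3) + c2 * c4 * (v 2 ⬝ᵥ v 4) +
        c3 * c4 * (v 3 ⬝ᵥ v 4)) := by
  have h : 0 < ∑ i, ∑ j, ![c0, c1, c2, c3, c4] i * ![c0, c1, c2, c3, c4] j * (v i ⬝ᵥ v j) := by
    rcases hk with hk | hk
    · exact posdef li _ 0 hk
    · exact posdef li _ 2 hk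
  simp only [Fin.sum_univ_five, hu, dotProduct_comm (v 1) (v 0), dotProduct_comm (v 2) (v 0),
    dotProduct_comm (v 3) (v 0), dotProduct_comm (v 4) (v 0), dotProduct_comm (v 2) (v 1),
    dotProduct_comm (v 3) (v 1), dotProduct_comm (v 4) (v 1), dotProduct_comm (v 3) (v 2),
    dotProduct_comm (v 4) (v 2), dotProduct_comm (v 4) (v 3), Matrix.cons_val] at h
  linarith

theorem Q3.cases {x : ℝ} (h : Q3 x) : x = 1 ∨ x = 2 ∨ (2.6 < x ∧ x < 2.7) := by
  rcases h with h | h | h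
  · exact Or.inl h
  · exact Or.inr (Or.inl h)
  · refine Or.inr (Or.inr ?_)
    have h1 : 2.2 < √5 := by
      rw [Real.lt_sqrt (by norm_num)]; norm_num
    have h2 : √5 < 2.4 := by
      rw [Real.sqrt_lt' (by norm_num)]; norm_num
    constructor <;> linarith

theorem Q3.weak {x : ℝ} (h : Q3 x) : x = 1 ∨ (2 ≤ x ∧ x < 3) := by
  rcases h.cases with h | h | h
  · exact Or.inl h
  · right; constructor <;> linarith
  · right; constructor <;> linarith [h.1, h.2]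

theorem Q3.ge {x : ℝ} (h : Q3 x) : 1 ≤ x := by
  rcases h.weak with h | h <;> linarith [h]

theorem Q3.lt {x : ℝ} (h : Q3 x) : x < 3 := by
  rcases h.weak with h | h <;> linarith [h]

theorem half {g : ℝ} (h1 : g < 0) (h2 : 4 * g ^ 2 = 1) : g = -1 / 2 := by
  have : (2 * g + 1) * (2 * g - 1) = 0 := by linarith
  rcases mul_eq_zero.1 this with h | h <;> linarith

/-- The conclusion. -/
def Goal (Φ : E5 → Prop) : Prop := ∃ y : Fin 5 → E5, (∀ k, Φ (y k)) ∧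
    ((∀ i j, 2 * (y i ⬝ᵥ y j) = cA5 i j) ∨ ∀ i j, 2 * (y i ⬝ᵥ y j) = cD5 i j)

theorem goalA {Φ : E5 → Prop} (h : RS5 Φ) {a b c d e : E5} (ha : Φ a) (hb : Φ b) (hc : Φ c)
    (hd : Φ d) (he : Φ e) (hab : a ⬝ᵥ b = -1 / 2) (hbc : b ⬝ᵥ c = -1 / 2)
    (hcd : c ⬝ᵥ d = -1 / 2) (hde : d ⬝ᵥ e = -1 / 2) (hac : a ⬝ᵥ c = 0) (had : a ⬝ᵥ d = 0)
    (hae : a ⬝ᵥ e = 0) (hbd : b ⬝ᵥ d = 0) (hbe : b ⬝ᵥ e = 0) (hce : c ⬝ᵥ e = 0) : Goal Φ := by
  refine ⟨![a, b, c, d, e], fun k => by fin_cases k <;> assumption, Or.inl fun i j => ?_⟩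
  have := h.unit a ha
  have := h.unit b hb
  have := h.unit c hc
  have := h.unit d hd
  have := h.unit e he
  have := dotProduct_comm b a
  have := dotProduct_comm c a
  have := dotProduct_comm d a
  have := dotProduct_comm e a
  have := dotProduct_comm c b
  have := dotProduct_comm d b
  have := dotProduct_comm e b
  have := dotProduct_comm d c
  have := dotProduct_comm e c
  have := dotProduct_comm e d
  fin_cases i <;> fin_cases j <;> simp [cA5] <;> linarith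

theorem goalD {Φ : E5 → Prop} (h : RS5 Φ) {a b c d e : E5} (ha : Φ a) (hb : Φ b) (hc : Φ c)
    (hd : Φ d) (he : Φ e) (hab : a ⬝ᵥ b = -1 / 2) (hbc : b ⬝ᵥ c = -1 / 2)
    (hcd : c ⬝ᵥ d = -1 / 2) (hce : c ⬝ᵥ e = -1 / 2) (hac : a ⬝ᵥ c = 0) (had : a ⬝ᵥ d = 0)
    (hae : a ⬝ᵥ e = 0) (hbd : b ⬝ᵥ d = 0) (hbe : b ⬝ᵥ e = 0) (hde : d ⬝ᵥ e = 0) : Goal Φ := by
  refine ⟨![a, b, c, d, e], fun k => by fin_cases k <;> assumption, Or.inr fun i j => ?_⟩
  have := h.unit a ha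
  have := h.unit b hb
  have := h.unit c hc
  have := h.unit d hd
  have := h.unit e he
  have := dotProduct_comm b a
  have := dotProduct_comm c a
  have := dotProduct_comm d a
  have := dotProduct_comm e a
  have := dotProduct_comm c b
  have := dotProduct_comm d b
  have := dotProduct_comm e b
  have := dotProduct_comm d c
  have := dotProduct_comm e c
  have := dotProduct_comm e d
  fin_cases i <;> fin_cases j <;> simp [cD5] <;> linarith

theorem goalB {Φ : E5 → Prop} (h : RS5 Φ) {a b c d e : E5} (ha : Φ a) (hb : Φ b) (hc : Φ c)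
    (hd : Φ d) (he : Φ e) (hab : a ⬝ᵥ b = -1 / 2) (hbc : b ⬝ᵥ c = -1 / 2)
    (hcd : c ⬝ᵥ d = -1 / 2) (hde : 4 * (d ⬝ᵥ e) ^ 2 = 2) (hac : a ⬝ᵥ c = 0) (had : a ⬝ᵥ d = 0)
    (hae : a ⬝ᵥ e = 0) (hbd : b ⬝ᵥ d = 0) (hbe : b ⬝ᵥ e = 0) (hce : c ⬝ᵥ e = 0) : Goal Φ := by
  refine goalD h ha hb hc hd (h.refl e d he hd) hab hbc hcd ?_ hac had ?_ hbd ?_ ?_
  · rw [dotProduct_sub, dotProduct_smul, hce, hcd]; simp
  · rw [dotProduct_sub, dotProduct_smul, hae, had]; simp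
  · rw [dotProduct_sub, dotProduct_smul, hbe, hbd]; simp
  · rw [dotProduct_sub, dotProduct_smul, h.unit d hd, dotProduct_comm e d, smul_eq_mul]
    linarith

theorem path_arith {A B C D : ℝ} (hA : Q3 A) (hB : Q3 B) (hC : Q3 C) (hD : Q3 D)
    (h : 0 < 32 - 8 * (A + B + C + D) + 2 * (A * C + A * D + B * D)) :
    B = 1 ∧ C = 1 ∧ ((A = 1 ∧ D = 1) ∨ (A = 1 ∧ D = 2) ∨ (A = 2 ∧ D = 1)) := by
  have a1 := hA.ge
  have b1 := hB.ge
  have c1 := hC.ge
  have d1 := hD.ge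
  have a3 := hA.lt
  have b3 := hB.lt
  have c3 := hC.lt
  have d3 := hD.lt
  have hB1 : B = 1 := by
    rcases hB.weak with h1 | h1
    · exact h1
    · exfalso
      nlinarith [mul_nonneg (sub_nonneg.2 a1) (sub_nonneg.2 d3.le),
        mul_nonneg (sub_nonneg.2 c1) (sub_nonneg.2 a3.le),
        mul_nonneg (sub_nonneg.2 h1.1) (sub_nonneg.2 d3.le)]
  have hC1 : C = 1 := by
    rcases hC.weak with h1 | h1
    · exact h1
    · exfalso
      subst hB1
      nlinarith [mul_nonneg (sub_nonneg.2 d1) (sub_nonneg.2 a3.le),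
        mul_nonneg (sub_nonneg.2 h1.1) (sub_nonneg.2 a3.le)]
  subst hB1 hC1
  refine ⟨rfl, rfl, ?_⟩
  rcases hA.weak with h1 | h1
  · rcases hD.cases with h2 | h2 | h2
    · exact Or.inl ⟨h1, h2⟩
    · exact Or.inr (Or.inl ⟨h1, h2⟩)
    · exfalso; subst h1; linarith [h2.1]
  · rcases hD.weak with h2 | h2
    · rcases hA.cases with h3 | h3 | h3
      · exfalso; linarith [h1.1]
      · exact Or.inr (Or.inr ⟨h3, h2⟩)
      · exfalso; subst h2; linarith [h3.1]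
    · exfalso
      nlinarith [mul_nonneg (sub_nonneg.2 h1.1) (sub_nonneg.2 d3.le), h1.1, h2.1]

theorem path {Φ : E5 → Prop} (h : RS5 Φ) {v : Fin 5 → E5} (hv : ∀ i, Φ (v i))
    (li : LinearIndependent ℝ v) (l01 : v 0 ⬝ᵥ v 1 < 0) (l12 : v 1 ⬝ᵥ v 2 < 0)
    (l23 : v 2 ⬝ᵥ v 3 < 0) (l34 : v 3 ⬝ᵥ v 4 < 0) (q01 : Q3 (4 * (v 0 ⬝ᵥ v 1) ^ 2))
    (q12 : Q3 (4 * (v 1 ⬝ᵥ v 2) ^ 2)) (q23 : Q3 (4 * (v 2 ⬝ᵥ v 3) ^ 2))
    (q34 : Q3 (4 * (v 3 ⬝ᵥ v 4) ^ 2)) (z02 : v 0 ⬝ᵥ v 2 = 0) (z03 : v 0 ⬝ᵥ v 3 = 0)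
    (z04 : v 0 ⬝ᵥ v 4 = 0) (z13 : v 1 ⬝ᵥ v 3 = 0) (z14 : v 1 ⬝ᵥ v 4 = 0)
    (z24 : v 2 ⬝ᵥ v 4 = 0) : Goal Φ := by
  have hu : ∀ i, v i ⬝ᵥ v i = 1 := fun i => h.unit _ (hv i)
  have key := pos5 li hu
  rw [z02, z03, z04, z13, z14, z24] at key
  obtain ⟨a, ha⟩ : ∃ a, v 0 ⬝ᵥ v 1 = -a / 2 := ⟨-2 * (v 0 ⬝ᵥ v 1), by ring⟩
  obtain ⟨b, hb⟩ : ∃ b, v 1 ⬝ᵥ v 2 = -b / 2 := ⟨-2 * (v 1 ⬝ᵥ v 2), by ring⟩
  obtain ⟨c, hc⟩ : ∃ c, v 2 ⬝ᵥ v 3 = -c / 2 := ⟨-2 * (v 2 ⬝ᵥ v 3), by ring⟩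
  obtain ⟨d, hd⟩ : ∃ d, v 3 ⬝ᵥ v 4 = -d / 2 := ⟨-2 * (v 3 ⬝ᵥ v 4), by ring⟩
  have ha0 : a ≠ 0 := by intro h0; rw [ha, h0] at l01; norm_num at l01
  have hb0 : b ≠ 0 := by intro h0; rw [hb, h0] at l12; norm_num at l12
  have hc0 : c ≠ 0 := by intro h0; rw [hc, h0] at l23; norm_num at l23
  have hd0 : d ≠ 0 := by intro h0; rw [hd, h0] at l34; norm_num at l34
  have eA : 4 * (v 0 ⬝ᵥ v 1) ^ 2 = a ^ 2 := by rw [ha]; ring
  have eB : 4 * (v 1 ⬝ᵥ v 2) ^ 2 = b ^ 2 := by rw [hb]; ring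
  have eC : 4 * (v 2 ⬝ᵥ v 3) ^ 2 = c ^ 2 := by rw [hc]; ring
  have eD : 4 * (v 3 ⬝ᵥ v 4) ^ 2 = d ^ 2 := by rw [hd]; ring
  rw [ha, hb, hc, hd] at key
  have d2 : 0 < 4 - a ^ 2 := by have := q01.lt; rw [eA] at this; linarith
  have d3 : 0 < 8 - 2 * a ^ 2 - 2 * b ^ 2 := by
    have := key (a * b) (2 * b) (4 - a ^ 2) 0 0 (Or.inl (mul_ne_zero ha0 hb0))
    refine (mul_pos_iff_of_pos_left d2).1 ?_
    linarith
  have d4 : 0 < 2 * (8 - 2 * a ^ 2 - 2 * b ^ 2) - c ^ 2 * (4 - a ^ 2) := by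
    have := key (a * b * c) (2 * b * c) (c * (4 - a ^ 2)) (8 - 2 * a ^ 2 - 2 * b ^ 2) 0
      (Or.inl (mul_ne_zero (mul_ne_zero ha0 hb0) hc0))
    refine (mul_pos_iff_of_pos_left d3).1 ?_
    linarith
  have d5 : 0 < 2 * (2 * (8 - 2 * a ^ 2 - 2 * b ^ 2) - c ^ 2 * (4 - a ^ 2)) -
      d ^ 2 * (8 - 2 * a ^ 2 - 2 * b ^ 2) := by
    have := key (a * b * c * d) (2 * b * c * d) (c * d * (4 - a ^ 2))
      (d * (8 - 2 * a ^ 2 - 2 * b ^ 2)) (2 * (8 - 2 * a ^ 2 - 2 * b ^ 2) - c ^ 2 * (4 - a ^ 2))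
      (Or.inl (mul_ne_zero (mul_ne_zero (mul_ne_zero ha0 hb0) hc0) hd0))
    refine (mul_pos_iff_of_pos_left d4).1 ?_
    linarith
  obtain ⟨hB, hC, hAD⟩ := path_arith q01 q12 q23 q34 (by rw [eA, eB, eC, eD]; linarith)
  have e12 := half l12 hB
  have e23 := half l23 hC
  rcases hAD with ⟨h1, h2⟩ | ⟨h1, h2⟩ | ⟨h1, h2⟩
  · exact goalA h (hv 0) (hv 1) (hv 2) (hv 3) (hv 4) (half l01 h1) e12 e23 (half l34 h2)
      z02 z03 z04 z13 z14 z24
  · exact goalB h (hv 0) (hv 1) (hv 2) (hv 3) (hv 4) (half l01 h1) e12 e23 h2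
      z02 z03 z04 z13 z14 z24
  · refine goalB h (hv 4) (hv 3) (hv 2) (hv 1) (hv 0) ?_ ?_ ?_ ?_ ?_ ?_ ?_ ?_ ?_ ?_ <;>
      rw [dotProduct_comm]
    exacts [half l34 h2, e23, e12, h1, z24, z14, z04, z13, z03, z02]

theorem fork {Φ : E5 → Prop} (h : RS5 Φ) {v : Fin 5 → E5} (hv : ∀ i, Φ (v i))
    (li : LinearIndependent ℝ v) (l01 : v 0 ⬝ᵥ v 1 < 0) (l12 : v 1 ⬝ᵥ v 2 < 0)
    (l23 : v 2 ⬝ᵥ v 3 < 0) (l24 : v 2 ⬝ᵥ v 4 < 0) (q01 : Q3 (4 * (v 0 ⬝ᵥ v 1) ^ 2))
    (q12 : Q3 (4 * (v 1 ⬝ᵥ v 2) ^ 2)) (q23 : Q3 (4 * (v 2 ⬝ᵥ v 3) ^ 2))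
    (q24 : Q3 (4 * (v 2 ⬝ᵥ v 4) ^ 2)) (z02 : v 0 ⬝ᵥ v 2 = 0) (z03 : v 0 ⬝ᵥ v 3 = 0)
    (z04 : v 0 ⬝ᵥ v 4 = 0) (z13 : v 1 ⬝ᵥ v 3 = 0) (z14 : v 1 ⬝ᵥ v 4 = 0)
    (z34 : v 3 ⬝ᵥ v 4 = 0) : Goal Φ := by
  have hu : ∀ i, v i ⬝ᵥ v i = 1 := fun i => h.unit _ (hv i)
  have key := pos5 li hu
  rw [z02, z03, z04, z13, z14, z34] at key
  have k1 := key 0 (-(v 1 ⬝ᵥ v 2)) 1 (-(v 2 ⬝ᵥ v 3)) (-(v 2 ⬝ᵥ v 4)) (Or.inr one_ne_zero)
  have b1 := q12.ge
  have c1 := q23.ge
  have d1 := q24.ge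
  have e12 : v 1 ⬝ᵥ v 2 = -1 / 2 := half l12 (by
    rcases q12.weak with h1 | h1
    · exact h1
    · exfalso; linarith [h1.1])
  have e23 : v 2 ⬝ᵥ v 3 = -1 / 2 := half l23 (by
    rcases q23.weak with h1 | h1
    · exact h1
    · exfalso; linarith [h1.1])
  have e24 : v 2 ⬝ᵥ v 4 = -1 / 2 := half l24 (by
    rcases q24.weak with h1 | h1
    · exact h1
    · exfalso; linarith [h1.1])
  rw [e12, e23, e24] at key
  have k2 := key (-2 * (v 0 ⬝ᵥ v 1)) 2 2 1 1 (Or.inr two_ne_zero)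
  have e01 : v 0 ⬝ᵥ v 1 = -1 / 2 := half l01 (by
    rcases q01.weak with h1 | h1
    · exact h1
    · exfalso; linarith [h1.1])
  exact goalD h (hv 0) (hv 1) (hv 2) (hv 3) (hv 4) e01 e12 e23 e24 z02 z03 z04 z13 z14 z34

theorem star {Φ : E5 → Prop} (h : RS5 Φ) {v : Fin 5 → E5} (hv : ∀ i, Φ (v i))
    (li : LinearIndependent ℝ v) (q01 : Q3 (4 * (v 0 ⬝ᵥ v 1) ^ 2))
    (q02 : Q3 (4 * (v 0 ⬝ᵥ v 2) ^ 2)) (q03 : Q3 (4 * (v 0 ⬝ᵥ v 3) ^ 2))
    (q04 : Q3 (4 * (v 0 ⬝ᵥ v 4) ^ 2)) (z12 : v 1 ⬝ᵥ v 2 = 0) (z13 : v 1 ⬝ᵥ v 3 = 0)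
    (z14 : v 1 ⬝ᵥ v 4 = 0) (z23 : v 2 ⬝ᵥ v 3 = 0) (z24 : v 2 ⬝ᵥ v 4 = 0)
    (z34 : v 3 ⬝ᵥ v 4 = 0) : False := by
  have hu : ∀ i, v i ⬝ᵥ v i = 1 := fun i => h.unit _ (hv i)
  have key := pos5 li hu 1 (-(v 0 ⬝ᵥ v 1)) (-(v 0 ⬝ᵥ v 2)) (-(v 0 ⬝ᵥ v 3)) (-(v 0 ⬝ᵥ v 4))
    (Or.inl one_ne_zero)
  rw [z12, z13, z14, z23, z24, z34] at key
  linarith [q01.ge, q02.ge, q03.ge, q04.ge]

theorem main {Φ : E5 → Prop} (h : RS5 Φ) (hc : Conn5 Φ) : Goal Φ := by
  classical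
  obtain ⟨y, f, s⟩ := exists_simple h hc
  have hu : ∀ i, y i ⬝ᵥ y i = 1 := fun i => h.unit _ (s.mem i)
  let B : Fin 5 → Fin 5 → Bool := fun i j => decide (y i ⬝ᵥ y j < 0)
  have hA : ∀ i j, adj (B 0 1) (B 0 2) (B 0 3) (B 0 4) (B 1 2) (B 1 3) (B 1 4) (B 2 3) (B 2 4)
      (B 3 4) i j = B i j := by
    have hd : ∀ i, B i i = false := fun i => by simp [B, hu i]
    have hs : ∀ i j, B i j = B j i := fun i j => by simp only [B, dotProduct_comm (y i)]
    intro i j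
    fin_cases i <;> fin_cases j <;> first | rfl | exact hs _ _ | exact (hd _).symm
  have hw : ∀ i j, i ≠ j → ((B i j).toNat : ℝ) ≤ -2 * (y i ⬝ᵥ y j) := by
    intro i j hij
    by_cases h1 : y i ⬝ᵥ y j < 0
    · have := (s.q3 h hij h1).ge
      have h2 : B i j = true := by simp [B, h1]
      rw [h2]
      simp only [Bool.toNat_true, Nat.cast_one]
      nlinarith
    · have h2 : B i j = false := by simp [B, h1]
      rw [h2]
      simp only [Bool.toNat_false, Nat.cast_zero]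
      linarith [s.obt i j hij]
  obtain ⟨a, b, c, d, e, hsh⟩ := tree5 (B 0 1) (B 0 2) (B 0 3) (B 0 4) (B 1 2) (B 1 3) (B 1 4)
    (B 2 3) (B 2 4) (B 3 4) (by
      have key := pos5 s.li hu 1 1 1 1 1 (Or.inl one_ne_zero)
      have : (((B 0 1).toNat + (B 0 2).toNat + (B 0 3).toNat + (B 0 4).toNat + (B 1 2).toNat +
          (B 1 3).toNat + (B 1 4).toNat + (B 2 3).toNat + (B 2 4).toNat + (B 3 4).toNat : ℕ) : ℝ)
          < (5 : ℕ) := by
        push_cast
        linarith [hw 0 1 (by decide), hw 0 2 (by decide), hw 0 3 (by decide), hw 0 4 (by decide),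
          hw 1 2 (by decide), hw 1 3 (by decide), hw 1 4 (by decide), hw 2 3 (by decide),
          hw 2 4 (by decide), hw 3 4 (by decide)]
      have := Nat.cast_lt.1 this
      omega) (by
      intro s1 s2 s3 s4 hs
      obtain ⟨j0, hj0⟩ : ∃ j0, ¬ sel true s1 s2 s3 s4 j0 = true := by
        by_contra hn
        push Not at hn
        have h1 : s1 = true := hn 1
        have h2 : s2 = true := hn 2
        have h3 : s3 = true := hn 3
        have h4 : s4 = true := hn 4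
        simp [h1, h2, h3, h4] at hs
      obtain ⟨i, j, h1, h2, h3⟩ := s.conn h hc (fun i => sel true s1 s2 s3 s4 i = true) 0 j0
        rfl hj0
      exact ⟨i, j, h1, by simpa using h2, by rw [hA]; simp [B, h3]⟩)
  simp only [shape, hA, Bool.and_eq_true, Bool.or_eq_true, bne_iff_ne, Bool.not_eq_true', B,
    decide_eq_true_eq, decide_eq_false_iff_not] at hsh
  obtain ⟨⟨⟨⟨⟨⟨⟨⟨⟨⟨nab, nac⟩, nad⟩, nae⟩, nbc⟩, nbd⟩, nbe⟩, ncd⟩, nce⟩, nde⟩, hsh⟩ := hsh
  have hinj : Function.Injective ![a, b, c, d, e] := by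
    intro i j hij
    fin_cases i <;> fin_cases j <;> simp at hij ⊢ <;> omega
  have li := s.li.comp _ hinj
  have hv : ∀ i, Φ ((y ∘ ![a, b, c, d, e]) i) := fun i => s.mem _
  have z : ∀ {i j}, i ≠ j → ¬ y i ⬝ᵥ y j < 0 → y i ⬝ᵥ y j = 0 := fun {i j} h1 h2 =>
    le_antisymm (s.obt i j h1) (not_lt.1 h2)
  rcases hsh with (hsh | hsh) | hsh <;>
    obtain ⟨⟨⟨⟨⟨⟨⟨⟨⟨h1, h2⟩, h3⟩, h4⟩, h5⟩, h6⟩, h7⟩, h8⟩, h9⟩, h10⟩ := hsh
  · exact path h hv li h1 h2 h3 h4 (s.q3 h nab h1) (s.q3 h nbc h2) (s.q3 h ncd h3)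
      (s.q3 h nde h4) (z nac h5) (z nad h6) (z nae h7) (z nbd h8) (z nbe h9) (z nce h10)
  · exact fork h hv li h1 h2 h3 h4 (s.q3 h nab h1) (s.q3 h nbc h2) (s.q3 h ncd h3)
      (s.q3 h nce h4) (z nac h5) (z nad h6) (z nae h7) (z nbd h8) (z nbe h9) (z nde h10)
  · exact (star h hv li (s.q3 h nab h1) (s.q3 h nac h2) (s.q3 h nad h3)
      (s.q3 h nae h4) (z nbc h5) (z nbd h6) (z nbe h7) (z ncd h8) (z nce h9) (z nde h10)).elim

end R3Aux

theorem simple5 {Φ : E5 → Prop} (h : RS5 Φ) (hc : Conn5 Φ) : ∃ y : Fin 5 → E5, (∀ k, Φ (y k)) ∧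
    ((∀ i j, 2 * (y i ⬝ᵥ y j) = cA5 i j) ∨ ∀ i j, 2 * (y i ⬝ᵥ y j) = cD5 i j) :=
  R3Aux.main h hc

end Pool.Agent.P.MP_97ea17_al.Geo
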