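import Pool.Agent.P.MP_97ea17_al.F.RDefs

/-! Root systems that contain `A₅` or `D₅`. -/

namespace Pool.Agent.P.MP_97ea17_al.Geo

open scoped Quaternion Matrix

namespace R3bAux

/-- The admissible values of twice the cosine; `s` and `t` stand for the roots of five and two. -/
def TT (s t x : ℝ) : Prop :=
  x = 0 ∨ x = (s - 1) / 2 ∨ x = 1 ∨ x = t ∨ x = (s + 1) / 2 ∨ x = 2

/-- The properties of the two square roots that are used. -/
structure St (s t : ℝ) : Prop where
  hs : s ^ 2 = 5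
  ht : t ^ 2 = 2
  s1 : 2.236 < s
  s2 : s < 2.237
  t1 : 1.414 < t
  t2 : t < 1.415

theorem st : St √5 √2 where
  hs := Real.sq_sqrt (by norm_num)
  ht := Real.sq_sqrt (by norm_num)
  s1 := Real.lt_sqrt_of_sq_lt (by norm_num)
  s2 := (Real.sqrt_lt' (by norm_num)).2 (by norm_num)
  t1 := Real.lt_sqrt_of_sq_lt (by norm_num)
  t2 := (Real.sqrt_lt' (by norm_num)).2 (by norm_num)

theorem tt_of {x : ℝ} (h0 : 0 ≤ x) (h : S4 (x ^ 2)) : TT √5 √2 x := by
  obtain ⟨hs, ht, s1, s2, t1, t2⟩ := st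
  have key : ∀ y : ℝ, 0 ≤ y → x ^ 2 = y ^ 2 → x = y := fun y hy e =>
    (pow_left_inj₀ h0 hy two_ne_zero).1 e
  rcases h with h | h | h | h | h | h
  · exact Or.inl (key _ le_rfl (by linarith))
  · exact Or.inr (Or.inr (Or.inl (key _ (by norm_num) (by linarith))))
  · exact Or.inr (Or.inr (Or.inr (Or.inl (key _ (by linarith) (by linarith)))))
  · exact Or.inr (Or.inr (Or.inr (Or.inr (Or.inl (key _ (by linarith) (by linarith))))))
  · exact Or.inr (Or.inl (key _ (by linarith) (by linarith)))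
  · exact Or.inr (Or.inr (Or.inr (Or.inr (Or.inr (key _ (by norm_num) (by linarith))))))

variable {s t : ℝ}

theorem TT.small (H : St s t) {x : ℝ} (h : TT s t x) (hx : x < 0.6) : x = 0 := by
  obtain ⟨hs, ht, s1, s2, t1, t2⟩ := H
  rcases h with h | h | h | h | h | h <;> linarith

theorem TT.small' (H : St s t) {x : ℝ} (h : TT s t x) (hx : x < 1) :
    x = 0 ∨ x = (s - 1) / 2 := by
  obtain ⟨hs, ht, s1, s2, t1, t2⟩ := H
  rcases h with h | h | h | h | h | h
  · exact Or.inl h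
  · exact Or.inr h
  all_goals linarith

theorem TT.small'' (H : St s t) {x : ℝ} (h : TT s t x) (hx : x < 1.4) :
    x = 0 ∨ x = (s - 1) / 2 ∨ x = 1 := by
  obtain ⟨hs, ht, s1, s2, t1, t2⟩ := H
  rcases h with h | h | h | h | h | h
  · exact Or.inl h
  · exact Or.inr (Or.inl h)
  · exact Or.inr (Or.inr h)
  all_goals linarith

theorem TT.gap (H : St s t) {x : ℝ} (h : TT s t x) (h1 : 1 < x) (h2 : x < 1.4) : False := by
  obtain ⟨hs, ht, s1, s2, t1, t2⟩ := H
  rcases h with h | h | h | h | h | h <;> linarith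

theorem lt_sq {x y : ℝ} (hy : 0 ≤ y) (h : x ^ 2 < y ^ 2) : x < y :=
  lt_of_pow_lt_pow_left₀ 2 hy h

theorem sortD (H : St s t) {a b c d e : ℝ} (h0 : 0 ≤ a) (h1 : a ≤ b) (h2 : b ≤ c) (h3 : c ≤ d)
    (h4 : d ≤ e) (hq : a ^ 2 + b ^ 2 + c ^ 2 + d ^ 2 + e ^ 2 = 2)
    (ab : TT s t (b - a)) (ab' : TT s t (b + a)) (ac : TT s t (c - a)) (ac' : TT s t (c + a))
    (ad : TT s t (d - a)) (ad' : TT s t (d + a)) (ae : TT s t (e - a))
    (bc' : TT s t (c + b)) (cd : TT s t (d - c)) (cd' : TT s t (d + c)) :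
    c = 0 ∧ (d = 0 ∨ (d = 1 ∧ e = 1)) := by
  have ⟨hs, ht, s1, s2, t1, t2⟩ := H
  have q0 := sq_nonneg a
  have q1 : a ^ 2 ≤ b ^ 2 := pow_le_pow_left₀ h0 h1 2
  have q2 : b ^ 2 ≤ c ^ 2 := pow_le_pow_left₀ (h0.trans h1) h2 2
  have q3 : c ^ 2 ≤ d ^ 2 := pow_le_pow_left₀ ((h0.trans h1).trans h2) h3 2
  have q4 : d ^ 2 ≤ e ^ 2 := pow_le_pow_left₀ (((h0.trans h1).trans h2).trans h3) h4 2
  have he : 0 ≤ e := (((h0.trans h1).trans h2).trans h3).trans h4
  have ha : a < 0.64 := lt_sq (by norm_num) (by linarith)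
  have hb : b < 0.71 := lt_sq (by norm_num) (by linarith)
  have hc : c < 0.82 := lt_sq (by norm_num) (by linarith)
  have hd : d ≤ 1 := le_of_pow_le_pow_left₀ two_ne_zero zero_le_one (by linarith)
  rcases ab.small' H (by linarith) with e1 | e1
  · obtain rfl : b = a := by linarith
    rcases ab'.small'' H (by linarith) with e2 | e2 | e2
    · obtain rfl : b = 0 := by linarith
      rw [sub_zero] at ac ad ae
      rcases ac.small' H (by linarith) with e3 | e3
      · refine ⟨e3, ?_⟩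
        subst e3
        rcases ad.small'' H (by linarith) with e4 | e4 | e4
        · exact Or.inl e4
        · subst e4
          exact (ae.gap H (lt_sq he (by linarith)) (lt_sq (by norm_num) (by linarith))).elim
        · subst e4
          exact Or.inr ⟨rfl, (pow_left_inj₀ he zero_le_one two_ne_zero).1 (by linarith)⟩
      · have e4 := cd.small H (by linarith)
        exact (cd'.gap H (by linarith) (by linarith)).elim
    · have e3 := ac.small H (by linarith)
      obtain rfl : c = b := by linarith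
      obtain rfl : c = (s - 1) / 4 := by linarith
      rcases ad.small' H (by linarith) with e4 | e4
      · obtain rfl : d = (s - 1) / 4 := by linarith
        have e5 : e ^ 2 = (s + 1) / 2 := by linarith
        have e6 : 1.27 < e := lt_sq he (by linarith)
        have e7 : e < 1.28 := lt_sq (by norm_num) (by linarith)
        rcases ae.small' H (by linarith) with e8 | e8 <;> linarith
      · exact (ad'.gap H (by linarith) (by linarith)).elim
    · obtain rfl : b = 1 / 2 := by linarith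
      have e3 := ac.small H (by linarith)
      have e4 := ad.small H (by linarith)
      obtain rfl : c = 1 / 2 := by linarith
      obtain rfl : d = 1 / 2 := by linarith
      obtain rfl : e = 1 := (pow_left_inj₀ he zero_le_one two_ne_zero).1 (by linarith)
      have e5 := ae.small H (by norm_num)
      linarith
  · rcases ab'.small' H (by linarith) with e2 | e2
    · linarith
    · obtain rfl : a = 0 := by linarith
      rw [sub_zero] at ac
      rcases ac.small' H (by linarith) with e3 | e3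
      · linarith
      · exact (bc'.gap H (by linarith) (by linarith)).elim

theorem pairA (H : St s t) {x D : ℝ} (hx : TT s t x) (hD : TT s t D) (h : TT s t (D - x)) :
    x = 0 ∨ x = D ∨ (D = 2 ∧ x = 1) ∨ (D = (s + 1) / 2 ∧ (x = 1 ∨ x = (s - 1) / 2)) := by
  have ⟨hs, ht, s1, s2, t1, t2⟩ := H
  rcases hx with hx | hx
  · exact Or.inl hx
  rcases h with h | h
  · exact Or.inr (Or.inl (by linarith))
  refine Or.inr (Or.inr ?_)
  rcases hD with hD | hD | hD | hD | hD | hD
  · exfalso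
    rcases hx with hx | hx | hx | hx | hx <;> rcases h with h | h | h | h | h <;> linarith
  · exfalso
    rcases hx with hx | hx | hx | hx | hx <;> rcases h with h | h | h | h | h <;> linarith
  · exfalso
    rcases hx with hx | hx | hx | hx | hx <;> rcases h with h | h | h | h | h <;> linarith
  · exfalso
    rcases hx with hx | hx | hx | hx | hx <;> rcases h with h | h | h | h | h <;> linarith
  · refine Or.inr ⟨hD, ?_⟩
    rcases hx with hx | hx | hx
    · exact Or.inr hx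
    · exact Or.inl hx
    · exfalso
      rcases hx with hx | hx | hx <;> rcases h with h | h | h | h | h <;> linarith
  · refine Or.inl ⟨hD, ?_⟩
    rcases hx with hx | hx | hx
    · exfalso
      rcases h with h | h | h | h | h <;> linarith
    · exact hx
    · exfalso
      rcases hx with hx | hx | hx <;> rcases h with h | h | h | h | h <;> linarith

theorem twoA {a b c d D : ℝ} (ha : a = 0 ∨ a = D) (hb : b = 0 ∨ b = D) (hc : c = 0 ∨ c = D)
    (hd : d = 0 ∨ d = D)
    (hq : 6 * (a ^ 2 + b ^ 2 + c ^ 2 + d ^ 2 + D ^ 2) - (a + b + c + d + D) ^ 2 = 12) :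
    D ^ 2 = 12 / 5 ∨ D ^ 2 = 3 / 2 ∨ D ^ 2 = 4 / 3 := by
  rcases ha with ha | ha <;> rcases hb with hb | hb <;> rcases hc with hc | hc <;>
    rcases hd with hd | hd <;> rw [ha, hb, hc, hd] at hq <;>
    first
      | exact Or.inl (by linarith)
      | exact Or.inr (Or.inl (by linarith))
      | exact Or.inr (Or.inr (by linarith))

/-- Rational parts of four golden numbers. -/
def g0 : Fin 4 → ℤ := ![0, 0, 1, -1]

/-- Irrational parts of four golden numbers. -/
def g1 : Fin 4 → ℤ := ![0, 1, 0, 1]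

/-- Rational part of the quadratic relation. -/
def gu (i j k l : Fin 4) : ℤ :=
  6 * (g0 i ^ 2 + g1 i ^ 2 + g0 j ^ 2 + g1 j ^ 2 + g0 k ^ 2 + g1 k ^ 2 + g0 l ^ 2 + g1 l ^ 2 + 1) -
    (g0 i + g0 j + g0 k + g0 l) ^ 2 - (g1 i + g1 j + g1 k + g1 l + 1) ^ 2 - 12

/-- Irrational part of the quadratic relation. -/
def gv (i j k l : Fin 4) : ℤ :=
  6 * (2 * g0 i * g1 i + g1 i ^ 2 + 2 * g0 j * g1 j + g1 j ^ 2 + 2 * g0 k * g1 k + g1 k ^ 2 +
    2 * g0 l * g1 l + g1 l ^ 2 + 1) -
    2 * (g0 i + g0 j + g0 k + g0 l) * (g1 i + g1 j + g1 k + g1 l + 1) -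
    (g1 i + g1 j + g1 k + g1 l + 1) ^ 2

theorem g_ne : ∀ i j k l, gu i j k l ^ 2 + gu i j k l * gv i j k l - gv i j k l ^ 2 ≠ 0 := by
  decide +kernel

theorem tauA (H : St s t) {a b c d : ℝ}
    (ha : a = 0 ∨ a = (s + 1) / 2 ∨ a = 1 ∨ a = (s - 1) / 2)
    (hb : b = 0 ∨ b = (s + 1) / 2 ∨ b = 1 ∨ b = (s - 1) / 2)
    (hc : c = 0 ∨ c = (s + 1) / 2 ∨ c = 1 ∨ c = (s - 1) / 2)
    (hd : d = 0 ∨ d = (s + 1) / 2 ∨ d = 1 ∨ d = (s - 1) / 2)
    (hq : 6 * (a ^ 2 + b ^ 2 + c ^ 2 + d ^ 2 + ((s + 1) / 2) ^ 2) -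
      (a + b + c + d + (s + 1) / 2) ^ 2 = 12) : False := by
  have hτ : ((s + 1) / 2) ^ 2 = (s + 1) / 2 + 1 := by linear_combination H.hs / 4
  have key : ∀ x : ℝ, (x = 0 ∨ x = (s + 1) / 2 ∨ x = 1 ∨ x = (s - 1) / 2) →
      ∃ i, x = g0 i + g1 i * ((s + 1) / 2) := by
    rintro x (rfl | rfl | rfl | rfl)
    · exact ⟨0, by simp [g0, g1]⟩
    · exact ⟨1, by simp [g0, g1]⟩
    · exact ⟨2, by simp [g0, g1]⟩
    · exact ⟨3, by simp [g0, g1]; ring⟩
  obtain ⟨i, rfl⟩ := key a ha
  obtain ⟨j, rfl⟩ := key b hb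
  obtain ⟨k, rfl⟩ := key c hc
  obtain ⟨l, rfl⟩ := key d hd
  generalize (s + 1) / 2 = τ at hq hτ
  have h1 : (gu i j k l : ℝ) + gv i j k l * τ = 0 := by
    simp only [gu, gv]
    push_cast
    linear_combination hq - (6 * ((g1 i : ℝ) ^ 2 + g1 j ^ 2 + g1 k ^ 2 + g1 l ^ 2 + 1) -
      (g1 i + g1 j + g1 k + g1 l + 1) ^ 2) * hτ
  refine g_ne i j k l ?_
  have : (gu i j k l : ℝ) ^ 2 + gu i j k l * gv i j k l - gv i j k l ^ 2 = 0 := by
    linear_combination (gu i j k l + gv i j k l - gv i j k l * τ) * h1 + (gv i j k l : ℝ) ^ 2 * hτ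
  exact_mod_cast this

theorem intA {a b c d : ℝ} (ha : a = 0 ∨ a = 2 ∨ a = 1) (hb : b = 0 ∨ b = 2 ∨ b = 1)
    (hc : c = 0 ∨ c = 2 ∨ c = 1) (hd : d = 0 ∨ d = 2 ∨ d = 1)
    (hq : 6 * (a ^ 2 + b ^ 2 + c ^ 2 + d ^ 2 + 2 ^ 2) - (a + b + c + d + 2) ^ 2 = 12) :
    a = 1 ∧ b = 1 ∧ c = 1 ∧ d = 1 := by
  rcases ha with rfl | rfl | rfl <;> rcases hb with rfl | rfl | rfl <;>
    rcases hc with rfl | rfl | rfl <;> rcases hd with rfl | rfl | rfl <;>
    first
      | exact ⟨rfl, rfl, rfl, rfl⟩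
      | (exfalso; norm_num at hq)

theorem sortA (H : St s t) {a b c d D : ℝ} (hD : TT s t D) (ha : TT s t a) (hb : TT s t b)
    (hc : TT s t c) (hd : TT s t d) (ha' : TT s t (D - a)) (hb' : TT s t (D - b))
    (hc' : TT s t (D - c)) (hd' : TT s t (D - d))
    (hq : 6 * (a ^ 2 + b ^ 2 + c ^ 2 + d ^ 2 + D ^ 2) - (a + b + c + d + D) ^ 2 = 12) :
    D = 2 ∧ a = 1 ∧ b = 1 ∧ c = 1 ∧ d = 1 := by
  have ⟨hs, ht, s1, s2, t1, t2⟩ := H
  have pa := pairA H ha hD ha'
  have pb := pairA H hb hD hb'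
  have pc := pairA H hc hD hc'
  have pd := pairA H hd hD hd'
  by_cases h2 : D = 2
  · have h3 : D ≠ (s + 1) / 2 := fun h => by linarith
    simp only [h3, false_and, or_false] at pa pb pc pd
    subst h2
    simp only [true_and] at pa pb pc pd
    exact ⟨rfl, intA pa pb pc pd hq⟩
  by_cases h3 : D = (s + 1) / 2
  · simp only [h2, false_and, false_or] at pa pb pc pd
    subst h3
    simp only [true_and] at pa pb pc pd
    exact (tauA H pa pb pc pd hq).elim
  simp only [h2, h3, false_and, or_false] at pa pb pc pd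
  have := twoA pa pb pc pd hq
  exfalso
  rcases hD with rfl | rfl | rfl | rfl | hD | hD
  · rcases this with h | h | h <;> linarith
  · rcases this with h | h | h <;> linarith
  · rcases this with h | h | h <;> linarith
  · rcases this with h | h | h <;> linarith
  · exact h3 hD
  · exact h2 hD

theorem dual_zero {u v : Fin 5 → E5} (h : ∀ i j, u i ⬝ᵥ v j = if i = j then 1 else 0) {w : E5}
    (hw : ∀ j, w ⬝ᵥ v j = 0) : w = 0 := by
  have h1 : Matrix.of u * (Matrix.of v)ᵀ = 1 := by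
    ext i j
    rw [Matrix.one_apply, ← h i j]
    rfl
  have h2 := mul_eq_one_comm.1 h1
  have h3 : w ᵥ* (Matrix.of v)ᵀ = 0 := by
    funext j
    exact hw j
  rw [← Matrix.vecMul_one w, ← h2, ← Matrix.vecMul_vecMul, h3, Matrix.zero_vecMul]

theorem gram {m : ℕ} {y : Fin 5 → E5} {G : Matrix (Fin 5) (Fin 5) ℤ}
    (hg : ∀ i j, 2 * (y i ⬝ᵥ y j) = G i j) (C : Matrix (Fin m) (Fin 5) ℤ) (i j : Fin m) :
    2 * ((∑ k, (C i k : ℝ) • y k) ⬝ᵥ (∑ k, (C j k : ℝ) • y k)) = ((C * G * Cᵀ) i j : ℤ) := by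
  simp only [sum_dotProduct, dotProduct_sum, smul_dotProduct, dotProduct_smul, smul_eq_mul,
    Matrix.mul_apply, Matrix.transpose_apply, Finset.mul_sum, Finset.sum_mul]
  push_cast
  refine Finset.sum_congr rfl fun k _ => Finset.sum_congr rfl fun l _ => ?_
  rw [← hg]
  ring

variable {Φ : E5 → Prop}

theorem add_mem (h : RS5 Φ) {y z : E5} (hy : Φ y) (hz : Φ z) (e : 2 * (y ⬝ᵥ z) = -1) :
    Φ (y + z) := by
  have := h.refl y z hy hz
  rwa [e, neg_smul, one_smul, sub_neg_eq_add, add_comm] at this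

theorem sub_mem (h : RS5 Φ) {n : ℕ} {v : Fin (n + 1) → E5} {c : ℝ}
    (hv : ∀ i j, v i ⬝ᵥ v j = (if i = j then 1 / 2 else 0) - c)
    (hs : ∀ k : Fin n, Φ (v k.castSucc - v k.succ)) (i j : Fin (n + 1)) (hij : i ≠ j) :
    Φ (v i - v j) := by
  have sy : ∀ i j, (i = j ∨ Φ (v i - v j)) → (j = i ∨ Φ (v j - v i)) := fun i j hh =>
    hh.imp Eq.symm fun hh => by simpa using h.neg _ hh
  have tr : ∀ i j k, (i = j ∨ Φ (v i - v j)) → (j = k ∨ Φ (v j - v k)) →
      (i = k ∨ Φ (v i - v k)) := by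
    intro i j k h1 h2
    by_cases e1 : i = j
    · rwa [e1]
    by_cases e2 : j = k
    · rwa [← e2]
    by_cases e3 : i = k
    · exact Or.inl e3
    refine Or.inr ?_
    have := add_mem h (h1.resolve_left e1) (h2.resolve_left e2) (by
      simp only [sub_dotProduct, dotProduct_sub, hv, e1, e2, e3, if_true, if_false]
      ring)
    rwa [sub_add_sub_cancel] at this
  have z : ∀ i, (0 = i ∨ Φ (v 0 - v i)) := fun i => by
    induction i using Fin.induction with
    | zero => exact Or.inl rfl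
    | succ k ih => exact tr _ _ _ ih (Or.inr (hs k))
  exact (tr _ _ _ (sy _ _ (z i)) (z j)).resolve_left hij

theorem classA (h : RS5 Φ) {v : Fin 6 → E5}
    (hv : ∀ i j, v i ⬝ᵥ v j = (if i = j then 1 / 2 else 0) - 1 / 12)
    (hs : ∀ i j, i ≠ j → Φ (v i - v j)) {x : E5} (hx : Φ x) :
    ∃ i j, i ≠ j ∧ x = v i - v j := by
  have hz : ∀ w : E5, (∀ j, w ⬝ᵥ v j = 0) → w = 0 := fun w hw =>
    dual_zero (u := fun i => (2 : ℝ) • (v i.castSucc - v (Fin.last 5)))
      (v := fun j => v j.castSucc) (fun i j => by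
        simp only [smul_dotProduct, sub_dotProduct, hv, Fin.castSucc_inj,
          (Fin.castSucc_ne_last j).symm, if_false, smul_eq_mul]
        split_ifs <;> ring) fun j => hw _
  have hsum : ∑ i, v i = 0 := hz _ fun j => by
    simp only [sum_dotProduct, hv, Finset.sum_sub_distrib, Finset.sum_ite_eq', Finset.mem_univ,
      if_true, Finset.sum_const, Finset.card_univ, Fintype.card_fin]
    norm_num
  set a : Fin 6 → ℝ := fun i => 2 * (x ⬝ᵥ v i) with ha
  have a0 : ∑ i, a i = 0 := by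
    simp only [ha]
    rw [← Finset.mul_sum, ← dotProduct_sum, hsum, dotProduct_zero, mul_zero]
  have hxa : x = ∑ i, a i • v i := by
    refine sub_eq_zero.1 (hz _ fun j => ?_)
    simp only [sub_dotProduct, sum_dotProduct, smul_dotProduct, hv, smul_eq_mul, mul_sub,
      Finset.sum_sub_distrib, mul_ite, mul_zero, Finset.sum_ite_eq', Finset.mem_univ, if_true]
    rw [← Finset.sum_mul, a0]
    simp only [ha]
    ring
  have a2 : ∑ i, a i ^ 2 = 2 := by
    have := h.unit x hx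
    nth_rewrite 2 [hxa] at this
    simp only [dotProduct_sum, dotProduct_smul, smul_eq_mul] at this
    rw [← mul_one (2 : ℝ), ← this, Finset.mul_sum]
    refine Finset.sum_congr rfl fun i _ => ?_
    simp only [ha]
    ring
  have hT : ∀ i j, a j ≤ a i → TT √5 √2 (a i - a j) := fun i j hij => by
    by_cases e : i = j
    · exact Or.inl (by rw [e, sub_self])
    refine tt_of (sub_nonneg.2 hij) ?_
    have := h.ang _ _ hx (hs i j e)
    rw [dotProduct_sub] at this
    convert this using 1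
    simp only [ha]
    ring
  set σ := Tuple.sort a
  have hm : ∀ i j, i ≤ j → a (σ i) ≤ a (σ j) := fun i j hij => Tuple.monotone_sort a hij
  rw [← Equiv.sum_comp σ, Fin.sum_univ_six] at a0 a2 hxa
  have e : ∀ i, a (σ 5) - a (σ 0) - (a (σ i) - a (σ 0)) = a (σ 5) - a (σ i) := fun i => by ring
  obtain ⟨k5, k1, k2, k3, k4⟩ := sortA st (hT _ _ (hm 0 5 (by decide)))
    (hT _ _ (hm 0 1 (by decide))) (hT _ _ (hm 0 2 (by decide))) (hT _ _ (hm 0 3 (by decide)))
    (hT _ _ (hm 0 4 (by decide))) (e 1 ▸ hT _ _ (hm 1 5 (by decide)))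
    (e 2 ▸ hT _ _ (hm 2 5 (by decide))) (e 3 ▸ hT _ _ (hm 3 5 (by decide)))
    (e 4 ▸ hT _ _ (hm 4 5 (by decide)))
    (by linear_combination 6 * a2 - (a (σ 0) + a (σ 1) + a (σ 2) + a (σ 3) + a (σ 4) + a (σ 5)) * a0)
  refine ⟨σ 5, σ 0, σ.injective.ne (by decide), ?_⟩
  rw [hxa, show a (σ 0) = -1 by linarith, show a (σ 1) = 0 by linarith,
    show a (σ 2) = 0 by linarith, show a (σ 3) = 0 by linarith, show a (σ 4) = 0 by linarith,
    show a (σ 5) = 1 by linarith]
  module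

theorem classD (h : RS5 Φ) {η : Fin 5 → E5}
    (hv : ∀ i j, η i ⬝ᵥ η j = if i = j then 1 / 2 else 0)
    (hs : ∀ i j, i ≠ j → Φ (η i - η j) ∧ Φ (η i + η j)) {x : E5} (hx : Φ x) :
    (∃ (i : Fin 5) (c : ℝ), x = c • η i) ∨
      ∃ i j, i ≠ j ∧ (x = η i - η j ∨ x = η i + η j ∨ x = -η i - η j) := by
  have hz : ∀ w : E5, (∀ j, w ⬝ᵥ η j = 0) → w = 0 := fun w hw =>
    dual_zero (u := fun i => (2 : ℝ) • η i) (v := η) (fun i j => by
        simp only [smul_dotProduct, hv, smul_eq_mul]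
        split_ifs <;> ring) hw
  set a : Fin 5 → ℝ := fun i => 2 * (x ⬝ᵥ η i) with ha
  have hxa : x = ∑ i, a i • η i := by
    refine sub_eq_zero.1 (hz _ fun j => ?_)
    simp only [sub_dotProduct, sum_dotProduct, smul_dotProduct, hv, smul_eq_mul,
      mul_ite, mul_zero, Finset.sum_ite_eq', Finset.mem_univ, if_true]
    simp only [ha]
    ring
  have a2 : ∑ i, |a i| ^ 2 = 2 := by
    have := h.unit x hx
    nth_rewrite 2 [hxa] at this
    simp only [dotProduct_sum, dotProduct_smul, smul_eq_mul] at this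
    rw [← mul_one (2 : ℝ), ← this, Finset.mul_sum]
    refine Finset.sum_congr rfl fun i _ => ?_
    simp only [ha, sq_abs]
    ring
  have hS : ∀ i j, i ≠ j → S4 ((|a i| - |a j|) ^ 2) ∧ S4 ((|a i| + |a j|) ^ 2) := fun i j e => by
    have h1 : S4 ((a i - a j) ^ 2) := by
      have := h.ang _ _ hx (hs i j e).1
      rw [dotProduct_sub] at this
      convert this using 1
      simp only [ha]
      ring
    have h2 : S4 ((a i + a j) ^ 2) := by
      have := h.ang _ _ hx (hs i j e).2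
      rw [dotProduct_add] at this
      convert this using 1
      simp only [ha]
      ring
    rcases abs_choice (a i) with e1 | e1 <;> rcases abs_choice (a j) with e2 | e2 <;> rw [e1, e2]
    · exact ⟨h1, h2⟩
    · exact ⟨by convert h2 using 1; ring, by convert h1 using 1; ring⟩
    · exact ⟨by convert h2 using 1; ring, by convert h1 using 1; ring⟩
    · exact ⟨by convert h1 using 1; ring, by convert h2 using 1; ring⟩
  set σ := Tuple.sort fun i => |a i|
  have hm : ∀ i j, i ≤ j → |a (σ i)| ≤ |a (σ j)| := fun i j hij =>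
    Tuple.monotone_sort (fun i => |a i|) hij
  have hT : ∀ i j, i < j → TT √5 √2 (|a (σ j)| - |a (σ i)|) := fun i j hij =>
    tt_of (sub_nonneg.2 (hm i j hij.le)) (hS _ _ (σ.injective.ne hij.ne')).1
  have hT' : ∀ i j, i < j → TT √5 √2 (|a (σ j)| + |a (σ i)|) := fun i j hij =>
    tt_of (by positivity) (hS _ _ (σ.injective.ne hij.ne')).2
  rw [← Equiv.sum_comp σ, Fin.sum_univ_five] at a2 hxa
  obtain ⟨k2, k⟩ := sortD st (abs_nonneg _) (hm 0 1 (by decide)) (hm 1 2 (by decide))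
    (hm 2 3 (by decide)) (hm 3 4 (by decide)) a2 (hT 0 1 (by decide)) (hT' 0 1 (by decide))
    (hT 0 2 (by decide)) (hT' 0 2 (by decide)) (hT 0 3 (by decide)) (hT' 0 3 (by decide))
    (hT 0 4 (by decide)) (hT' 1 2 (by decide)) (hT 2 3 (by decide)) (hT' 2 3 (by decide))
  have k1 : a (σ 1) = 0 := abs_nonpos_iff.1 (k2 ▸ hm 1 2 (by decide))
  have k0 : a (σ 0) = 0 := abs_nonpos_iff.1 (k2 ▸ hm 0 2 (by decide))
  rw [k0, k1, abs_eq_zero.1 k2] at hxa
  have h34 : σ 3 ≠ σ 4 := σ.injective.ne (by decide)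
  rcases k with k3 | ⟨k3, k4⟩
  · refine Or.inl ⟨σ 4, a (σ 4), ?_⟩
    rw [abs_eq_zero.1 k3] at hxa
    refine hxa.trans ?_
    module
  · refine Or.inr ?_
    rcases (abs_eq zero_le_one).1 k3 with k3 | k3 <;>
      rcases (abs_eq zero_le_one).1 k4 with k4 | k4 <;> rw [k3, k4] at hxa
    · exact ⟨_, _, h34, Or.inr (Or.inl (hxa.trans (by module)))⟩
    · exact ⟨_, _, h34, Or.inl (hxa.trans (by module))⟩
    · exact ⟨_, _, h34.symm, Or.inl (hxa.trans (by module))⟩
    · exact ⟨_, _, h34, Or.inr (Or.inr (hxa.trans (by module)))⟩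

/-- Six times the coordinates of the weights of type `A₅`. -/
def mA : Matrix (Fin 6) (Fin 5) ℤ :=
  !![5, 4, 3, 2, 1; -1, 4, 3, 2, 1; -1, -2, 3, 2, 1; -1, -2, -3, 2, 1; -1, -2, -3, -4, 1;
    -1, -2, -3, -4, -5]

/-- Twice the coordinates of the weights of type `D₅`. -/
def mD : Matrix (Fin 5) (Fin 5) ℤ :=
  !![2, 2, 2, 1, 1; 0, 2, 2, 1, 1; 0, 0, 2, 1, 1; 0, 0, 0, 1, 1; 0, 0, 0, -1, 1]

theorem mA_gram : ∀ i j, (mA * cA5 * mAᵀ) i j = if i = j then 30 else -6 := by
  decide +kernel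

theorem mD_gram : ∀ i j, (mD * cD5 * mDᵀ) i j = if i = j then 4 else 0 := by
  decide +kernel

end R3bAux

open R3bAux

theorem isA5 {Φ : E5 → Prop} (h : RS5 Φ) {y : Fin 5 → E5} (hy : ∀ k, Φ (y k))
    (hg : ∀ i j, 2 * (y i ⬝ᵥ y j) = cA5 i j) : IsA5 Φ := by
  set v : Fin 6 → E5 := fun i => (1 / 6 : ℝ) • ∑ k, (mA i k : ℝ) • y k with hv
  have hG : ∀ i j, v i ⬝ᵥ v j = (if i = j then 1 / 2 else 0) - 1 / 12 := fun i j => by
    have := gram hg mA i j
    rw [mA_gram] at this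
    simp only [hv, smul_dotProduct, dotProduct_smul, smul_eq_mul]
    split_ifs at this ⊢ <;> push_cast at this <;> linarith
  have hs := sub_mem h hG fun k => by
    convert hy k using 1
    fin_cases k <;> simp [hv, mA, Fin.sum_univ_five] <;> module
  refine ⟨v, hG, fun x => ⟨fun hx => classA h hG hs hx, ?_⟩⟩
  rintro ⟨i, j, hij, rfl⟩
  exact hs i j hij

theorem isD5 {Φ : E5 → Prop} (h : RS5 Φ) {y : Fin 5 → E5} (hy : ∀ k, Φ (y k))
    (hg : ∀ i j, 2 * (y i ⬝ᵥ y j) = cD5 i j) : IsD5 Φ := by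
  set η : Fin 5 → E5 := fun i => (1 / 2 : ℝ) • ∑ k, (mD i k : ℝ) • y k with hη
  have hG : ∀ i j, η i ⬝ᵥ η j = if i = j then 1 / 2 else 0 := fun i j => by
    have := gram hg mD i j
    rw [mD_gram] at this
    simp only [hη, smul_dotProduct, dotProduct_smul, smul_eq_mul]
    split_ifs at this ⊢ <;> push_cast at this <;> linarith
  have hs := sub_mem h (v := η) (c := 0) (fun i j => by rw [hG, sub_zero]) fun k => by
    convert hy k.castSucc using 1
    fin_cases k <;> simp [hη, mD, Fin.sum_univ_five] <;> module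
  have mv : ∀ i j k, i ≠ k → j ≠ k → Φ (η j + η k) → Φ (η i + η k) := fun i j k e1 e2 hh => by
    by_cases e3 : i = j
    · rwa [e3]
    have := add_mem h (hs i j e3) hh (by
      simp only [sub_dotProduct, dotProduct_add, hG, e1, e2, e3, if_true, if_false]
      ring)
    rwa [← add_assoc, sub_add_cancel] at this
  have h34 : Φ (η 3 + η 4) := by
    convert hy 4 using 1
    simp [hη, mD, Fin.sum_univ_five]
    module
  have h4 : ∀ i, i ≠ 4 → Φ (η 4 + η i) := fun i hi => by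
    rw [add_comm]
    exact mv i 3 4 hi (by decide) h34
  have hp : ∀ i j, i ≠ j → Φ (η i + η j) := fun i j hij => by
    by_cases e : j = 4
    · subst e
      rw [add_comm]
      exact h4 i hij
    · exact mv i 4 j hij (Ne.symm e) (h4 j e)
  exact ⟨η, hG, fun i j hij => ⟨hs i j hij, hp i j hij⟩,
    fun x hx => classD h hG (fun i j hij => ⟨hs i j hij, hp i j hij⟩) hx⟩

end Pool.Agent.P.MP_97ea17_al.Geo
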