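import Pool.Agent.P.MP_97ea17_al.F.R4b
import Pool.Agent.P.MP_97ea17_al.F.ExcA

/-! The groups of order 1440 and 3840. -/

namespace Pool.Agent.P.MP_97ea17_al.Geo

open scoped Quaternion Matrix

variable {W : Subgroup (GH 2)}

namespace R4Aux

/-- The points of the generators of the group of order 1440. -/
noncomputable def pA : Fin 5 → E5 :=
  ![![1, 0, 0, 0, 0], ![-1 / 2, -1 / 2, 0, 1 / 2, 1 / 2], ![0, 1, 0, 0, 0],
    ![0, -1 / 2, -1 / 2, (√3 - 1) / 4, (-√3 - 1) / 4], ![0, 0, 1, 0, 0]]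

/-- The points of the generators of the group of order 3840. -/
noncomputable def pD : Fin 5 → E5 :=
  ![![√2 / 2, -√2 / 2, 0, 0, 0], ![0, √2 / 2, -√2 / 2, 0, 0], ![0, 0, √2 / 2, -√2 / 2, 0],
    ![0, 0, 0, √2 / 2, -√2 / 2], ![0, 0, 0, √2 / 2, √2 / 2]]

theorem pt5_eq (a : V 2) : pt5 a = ![Quaternion.normSq (a 0) - Quaternion.normSq (a 1),
    2 * (a 0 * star (a 1)).re, 2 * (a 0 * star (a 1)).imI, 2 * (a 0 * star (a 1)).imJ,
    2 * (a 0 * star (a 1)).imK] := by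
  ext i
  fin_cases i <;> simp [pt5, uh, nq, Quaternion.normSq_def']
  ring

theorem norm_pt {a : V 2} {p : E5} {c : ℝ} (hc : c ≠ 0) (h1 : nq a = c) (h2 : pt5 a = c • p) :
    a ≠ 0 ∧ (nq a)⁻¹ • pt5 a = p :=
  ⟨fun e => hc (by rw [← h1, nq_eq_zero.2 e]), by
    rw [h1, h2, smul_smul, inv_mul_cancel₀ hc, one_smul]⟩

theorem s3 : √(3 : ℝ) ^ 2 = 3 := Real.sq_sqrt (by norm_num)

theorem s2 : √(2 : ℝ) ^ 2 = 2 := Real.sq_sqrt (by norm_num)

theorem pA_spec (k : Fin 5) : rt 2 3 (rA5.getD k ([], [])) ≠ 0 ∧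
    (nq (rt 2 3 (rA5.getD k ([], []))))⁻¹ • pt5 (rt 2 3 (rA5.getD k ([], []))) = pA k := by
  have h := s3
  refine norm_pt (c := ![1, 4, 2, 32, 2] k) ?_ ?_ ?_
  · fin_cases k <;> simp
  · fin_cases k <;> simp [nq, rt, rA5, quat, Quaternion.normSq_def'] <;> nlinarith
  · rw [pt5_eq]
    ext i
    fin_cases k <;> fin_cases i <;> simp [rt, rA5, quat, Quaternion.normSq_def', pA] <;> nlinarith

theorem pD_spec (k : Fin 5) : rt 2 2 (rD5.getD k ([], [])) ≠ 0 ∧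
    (nq (rt 2 2 (rD5.getD k ([], []))))⁻¹ • pt5 (rt 2 2 (rD5.getD k ([], []))) = pD k := by
  have h := s2
  have h' : (0 : ℝ) < √2 := by positivity
  refine norm_pt (c := ![4 + 2 * √2, 4, 4, 4, 4] k) ?_ ?_ ?_
  · fin_cases k <;> simp
    positivity
  · fin_cases k <;> simp [nq, rt, rD5, quat, Quaternion.normSq_def'] <;> nlinarith
  · rw [pt5_eq]
    ext i
    fin_cases k <;> fin_cases i <;> simp [rt, rD5, quat, Quaternion.normSq_def', pD] <;> nlinarith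

theorem pA_gram (i j : Fin 5) : pA i ⬝ᵥ pA j = (cA5 i j : ℝ) / 2 := by
  have h := s3
  fin_cases i <;> fin_cases j <;> simp [pA, cA5, dotProduct, Fin.sum_univ_five] <;> nlinarith

theorem pD_gram (i j : Fin 5) : pD i ⬝ᵥ pD j = (cD5 i j : ℝ) / 2 := by
  have h := s2
  fin_cases i <;> fin_cases j <;> simp [pD, cD5, dotProduct, Fin.sum_univ_five] <;> nlinarith

theorem pA_span (v : E5) (h : ∀ i, pA i ⬝ᵥ v = 0) : v = 0 := by
  refine span5 pA (fun c hc => ?_) v h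
  have e0 := hc 0
  have e1 := hc 1
  have e2 := hc 2
  have e3 := hc 3
  have e4 := hc 4
  simp only [pA_gram] at e0 e1 e2 e3 e4
  simp [Fin.sum_univ_five, cA5] at e0 e1 e2 e3 e4
  ext i
  fin_cases i <;> simp <;> linarith

theorem pD_span (v : E5) (h : ∀ i, pD i ⬝ᵥ v = 0) : v = 0 := by
  refine span5 pD (fun c hc => ?_) v h
  have e0 := hc 0
  have e1 := hc 1
  have e2 := hc 2
  have e3 := hc 3
  have e4 := hc 4
  simp only [pD_gram] at e0 e1 e2 e3 e4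
  simp [Fin.sum_univ_five, cD5] at e0 e1 e2 e3 e4
  ext i
  fin_cases i <;> simp <;> linarith

theorem xi_neg_two (D : ℕ) (a : List (List ℤ)) : xi D ([-2], a) = -1 := by
  ext <;> simp [xi, quat]

end R4Aux

open R4Aux

theorem bound_A5 (hW : Std W) (h : IsA5 (Phi W)) : Bound W := by
  obtain ⟨v, hv, hΦ⟩ := h
  refine bound_of_model bd_A5 (fun k => rA5.getD k ([], [])) (fun x => ?_) (fun k => ?_)
    (fun k => (pA_spec k).1) (fun k => (pA_spec k).2) (y := fun k => v k.castSucc - v k.succ)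
    (fun k => (hΦ _).2 ⟨_, _, k.castSucc_lt_succ.ne, rfl⟩) (fun i j => ?_) pA_span
    (neg_one_mem ((hΦ _).2 ⟨0, 1, by decide, rfl⟩) ((hΦ _).2 ⟨2, 3, by decide, rfl⟩) ?_)
    fun G hG h => le_A5 hW hv hΦ hG h
  · simp [rA5, Fin.exists_fin_succ, eq_comm]
  · fin_cases k <;> exact xi_neg_two _ _
  · rw [pA_gram]
    simp only [sub_dotProduct, dotProduct_sub, hv]
    fin_cases i <;> fin_cases j <;> simp [cA5] <;> norm_num
  · simp [sub_dotProduct, dotProduct_sub, hv]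

theorem bound_D5 (hW : Std W) (h : IsD5 (Phi W)) : Bound W := by
  obtain ⟨η, hη, hΦ, hΦ'⟩ := h
  refine bound_of_model bd_D5 (fun k => rD5.getD k ([], [])) (fun x => ?_) (fun k => ?_)
    (fun k => (pD_spec k).1) (fun k => (pD_spec k).2)
    (y := ![η 0 - η 1, η 1 - η 2, η 2 - η 3, η 3 - η 4, η 3 + η 4])
    (fun k => ?_) (fun i j => ?_) pD_span
    (neg_one_mem (hΦ 0 1 (by decide)).1 (hΦ 2 3 (by decide)).1 ?_)
    fun G hG h => le_D5 hη hW hΦ hΦ' hG (fun k => ?_) (h 4)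
  · simp [rD5, Fin.exists_fin_succ, eq_comm]
  · fin_cases k <;> exact xi_neg_two _ _
  · fin_cases k
    exacts [(hΦ 0 1 (by decide)).1, (hΦ 1 2 (by decide)).1, (hΦ 2 3 (by decide)).1,
      (hΦ 3 4 (by decide)).1, (hΦ 3 4 (by decide)).2]
  · rw [pD_gram]
    fin_cases i <;> fin_cases j <;>
      simp [cD5, sub_dotProduct, dotProduct_sub, add_dotProduct, dotProduct_add, hη] <;> norm_num
  · simp [sub_dotProduct, dotProduct_sub, hη]
  · fin_cases k
    exacts [h 0, h 1, h 2, h 3]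

end Pool.Agent.P.MP_97ea17_al.Geo
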