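import Mathlib

/-! Conjugation-closed sets of double transpositions of five points. -/

namespace Pool.Agent.P.MP_97ea17_al.Geo.R5Aux

/-- The fifteen double transpositions. -/
def dt (k : ℕ) : Fin 5 → Fin 5 :=
  [![0, 2, 1, 4, 3], ![0, 3, 4, 1, 2], ![0, 4, 3, 2, 1], ![2, 1, 0, 4, 3], ![3, 1, 4, 0, 2],
   ![4, 1, 3, 2, 0], ![1, 0, 2, 4, 3], ![3, 4, 2, 0, 1], ![4, 3, 2, 1, 0], ![1, 0, 4, 3, 2],
   ![2, 4, 0, 3, 1], ![4, 2, 1, 3, 0], ![1, 0, 3, 2, 4], ![2, 3, 0, 1, 4],
   ![3, 2, 1, 0, 4]].getD k id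

/-- The conjugation table. -/
def cx (i j : ℕ) : ℕ :=
  Nat.mod (Nat.shiftRight
    (nat_lit 0xedc0123456789abedc4351029ba687edc786ab9201534021ba9534867dce534ba9021ecd768876ba9edc012345210543876ba9edc453120876decab9ab9dec876120453102867b9a543ced768201ced543b9a9abcde2105438763456789abcde210687354dcea9b210b9aecd453786210)
    (Nat.mul (nat_lit 4) (Nat.add (Nat.mul (nat_lit 15) i) j))) (nat_lit 16)

/-- Relabellings of the six pentagons. -/
def sg : List (Fin 5 → Fin 5) :=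
  [![0, 1, 2, 3, 4], ![0, 1, 3, 2, 4], ![0, 1, 2, 4, 3], ![0, 1, 4, 3, 2], ![0, 1, 4, 2, 3],
   ![0, 1, 3, 4, 2]]

/-- The standard pentagon. -/
def P0 (k : ℕ) : Prop := k = 0 ∨ k = 4 ∨ k = 8 ∨ k = 10 ∨ k = 12

instance : DecidablePred P0 := fun k => by unfold P0; infer_instance

theorem cx_spec : ∀ i < 15, ∀ j < 15, cx i j < 15 ∧ ∀ x, dt i (dt j (dt i x)) = dt (cx i j) x := by
  decide +kernel

theorem exists_dt' : ∀ a b c d e : Fin 5,
    (∀ i, (![a, b, c, d, e] : Fin 5 → Fin 5) (![a, b, c, d, e] i) = i) →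
    (∃ j, (![a, b, c, d, e] : Fin 5 → Fin 5) j = j ∧
      ∀ i, (![a, b, c, d, e] : Fin 5 → Fin 5) i = i → i = j) →
    ∃ k < 15, ∀ i, (![a, b, c, d, e] : Fin 5 → Fin 5) i = dt k i := by
  decide +kernel

theorem exists_dt {π : Fin 5 → Fin 5} (h1 : ∀ i, π (π i) = i)
    (h2 : ∃ j, π j = j ∧ ∀ i, π i = i → i = j) : ∃ k < 15, π = dt k := by
  have e : π = ![π 0, π 1, π 2, π 3, π 4] := by
    ext1 i
    fin_cases i <;> rfl
  obtain ⟨k, hk, h⟩ := exists_dt' (π 0) (π 1) (π 2) (π 3) (π 4) (e ▸ h1) (e ▸ h2)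
  exact ⟨k, hk, funext fun i => by rw [← h, ← e]⟩

/-- Closed under conjugation. -/
def Cl (n : ℕ) : Prop :=
  ∀ i < 15, n.testBit i = true → ∀ j < 15, n.testBit j = true → n.testBit (cx i j) = true

/-- The list of indices. -/
def l15 : List ℕ :=
  [nat_lit 0, nat_lit 1, nat_lit 2, nat_lit 3, nat_lit 4, nat_lit 5, nat_lit 6, nat_lit 7,
   nat_lit 8, nat_lit 9, nat_lit 10, nat_lit 11, nat_lit 12, nat_lit 13, nat_lit 14]

/-- One bit. -/
def bt (n i : ℕ) : Bool := Nat.beq (Nat.mod (Nat.shiftRight n i) (nat_lit 2)) (nat_lit 1)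

/-- Fast conjunction over a list. -/
noncomputable def allL (f : ℕ → Bool) (l : List ℕ) : Bool :=
  List.rec true (fun a _ r => Bool.rec false r (f a)) l

theorem allL_of {f : ℕ → Bool} : ∀ {l : List ℕ}, (∀ a ∈ l, f a = true) → allL f l = true
  | [], _ => rfl
  | a :: l, h => by
    have h1 := h a (by simp)
    have h2 : allL f l = true := allL_of fun b hb => h b (by simp [hb])
    change Bool.rec false (allL f l) (f a) = true
    rw [h1, h2]

/-- Fast test of closedness. -/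
noncomputable def clB (n : ℕ) : Bool :=
  allL (fun i => Bool.rec true
    (allL (fun j => Bool.rec true (bt n (cx i j)) (bt n j)) l15) (bt n i)) l15

theorem bit_iff (n i : ℕ) : bt n i = n.testBit i := by
  rw [Nat.testBit, Nat.one_and_eq_mod_two, Bool.eq_iff_iff, bt, Nat.beq_eq]
  change (n >>> i) % 2 = 1 ↔ _
  simp

theorem clB_of {n : ℕ} (h : Cl n) : clB n = true := by
  have hl : ∀ i ∈ l15, i < 15 := by decide
  refine allL_of fun i hi => ?_
  cases h1 : bt n i
  · rfl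
  refine allL_of fun j hj => ?_
  cases h2 : bt n j
  · rfl
  rw [bit_iff] at h1 h2
  exact (bit_iff _ _).trans (h i (hl i hi) h1 j (hl j hj) h2)

/-- No invariant subset. -/
def Tr (n : ℕ) : Prop :=
  ∀ A < 31, 0 < A → ∃ k < 15, n.testBit k = true ∧
    ∃ i : Fin 5, A.testBit i = true ∧ A.testBit (dt k i) = false

instance : DecidablePred Tr := fun n => by unfold Tr; infer_instance

/-- Intertwining. -/
def Iw (σ : Fin 5 → Fin 5) (l k : ℕ) : Prop := ∀ i, σ (dt l i) = dt k (σ i)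

instance (σ : Fin 5 → Fin 5) (l k : ℕ) : Decidable (Iw σ l k) := by unfold Iw; infer_instance

/-- The set is a relabelled pentagon. -/
def Pe (n : ℕ) (σ : Fin 5 → Fin 5) : Prop :=
  (∀ i j, σ i = σ j → i = j) ∧
    (∀ k < 15, n.testBit k = true → ∃ l < 15, P0 l ∧ Iw σ l k) ∧
    (∀ l < 15, P0 l → ∃ k < 15, n.testBit k = true ∧ Iw σ l k)

instance (n : ℕ) : DecidablePred (Pe n) := fun σ => by unfold Pe; infer_instance

/-- The set is everything. -/
def Al (n : ℕ) : Prop := ∀ k < 15, n.testBit k = true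

instance : DecidablePred Al := fun n => by unfold Al; infer_instance

/-- The conclusion of the classification. -/
def Con (n : ℕ) : Prop :=
  (Tr n → Al n ∨ ∃ σ ∈ sg, Pe n σ) ∧
  (n.testBit 0 = true → n.testBit 4 = true → ∀ k < 15, P0 k → n.testBit k = true) ∧
  (n.testBit 0 = true → n.testBit 1 = true → n.testBit 3 = true → Al n)

instance : DecidablePred Con := fun n => by unfold Con; infer_instance

/-- Binary enumeration. -/
noncomputable def allR (f : ℕ → Bool) (k : ℕ) : ℕ → Bool :=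
  Nat.rec f (fun _ r b => Bool.rec false (r (Nat.succ (Nat.mul (nat_lit 2) b)))
    (r (Nat.mul (nat_lit 2) b))) k

theorem allR_spec (f : ℕ → Bool) : ∀ k b, allR f k b = true → ∀ r < 2 ^ k,
    f (b * 2 ^ k + r) = true
  | 0, b, h, r, hr => by
    obtain rfl : r = 0 := by omega
    simpa [allR] using h
  | k + 1, b, h, r, hr => by
    change Bool.rec false (allR f k (2 * b + 1)) (allR f k (2 * b)) = true at h
    have h0 : allR f k (2 * b) = true := by
      by_contra h0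
      rw [Bool.not_eq_true] at h0
      rw [h0] at h
      exact Bool.false_ne_true h
    rw [h0] at h
    rw [pow_succ] at hr ⊢
    by_cases h1 : r < 2 ^ k
    · have := allR_spec f k _ h0 r h1
      rwa [show 2 * b * 2 ^ k + r = b * (2 ^ k * 2) + r by ring] at this
    · obtain ⟨s, rfl⟩ := Nat.exists_eq_add_of_le (not_lt.1 h1)
      have := allR_spec f k _ h s (by omega)
      rwa [show (2 * b + 1) * 2 ^ k + s = b * (2 ^ k * 2) + (2 ^ k + s) by ring] at this

theorem check : allR (fun n => Bool.rec true (decide (Con n)) (clB n)) 15 0 = true := by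
  decide +kernel

theorem con_of_cl {n : ℕ} (hn : n < 2 ^ 15) (h : Cl n) : Con n := by
  have := allR_spec _ _ _ check n hn
  simp only [zero_mul, zero_add, clB_of h] at this
  exact of_decide_eq_true this

open Classical in
/-- The bit mask of a predicate. -/
noncomputable def mask (D : ℕ → Prop) : ℕ := Nat.ofBits fun i : Fin 15 => decide (D i)

theorem mask_bit (D : ℕ → Prop) {k : ℕ} (hk : k < 15) : (mask D).testBit k = true ↔ D k := by
  rw [mask, Nat.testBit_ofBits_lt _ _ hk]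
  simp

theorem con_mask {D : ℕ → Prop} (hc : ∀ i < 15, ∀ j < 15, D i → D j → D (cx i j)) :
    Con (mask D) :=
  con_of_cl (Nat.ofBits_lt_two_pow _) fun i hi h1 j hj h2 =>
    (mask_bit D (cx_spec i hi j hj).1).2
      (hc i hi j hj ((mask_bit D hi).1 h1) ((mask_bit D hj).1 h2))

theorem classify {D : ℕ → Prop} (hc : ∀ i < 15, ∀ j < 15, D i → D j → D (cx i j))
    (ht : ∀ A : Fin 5 → Prop, (∀ k < 15, D k → ∀ i, A i → A (dt k i)) →
      (∀ i, ¬ A i) ∨ ∀ i, A i) :
    (∀ k < 15, D k) ∨ ∃ σ : Fin 5 → Fin 5, Function.Injective σ ∧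
      (∀ k < 15, D k → ∃ l < 15, P0 l ∧ ∀ i, σ (dt l i) = dt k (σ i)) ∧
      (∀ l < 15, P0 l → ∃ k < 15, D k ∧ ∀ i, σ (dt l i) = dt k (σ i)) := by
  have htr : Tr (mask D) := by
    intro A hA hA0
    by_contra hcon
    have h1 := ht (fun i => A.testBit i = true) fun k hk hD i hi => by
      by_contra h2
      exact hcon ⟨k, hk, (mask_bit D hk).2 hD, i, hi, by simpa using h2⟩
    have h3 : ∀ A < 31, 0 < A → ¬ ((∀ i : Fin 5, ¬ A.testBit i = true) ∨
        ∀ i : Fin 5, A.testBit i = true) := by decide +kernel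
    exact h3 A hA hA0 h1
  rcases (con_mask hc).1 htr with h | ⟨σ, -, h1, h2, h3⟩
  · exact Or.inl fun k hk => (mask_bit D hk).1 (h k hk)
  · refine Or.inr ⟨σ, fun i j => h1 i j, fun k hk hD => h2 k hk ((mask_bit D hk).2 hD),
      fun l hl hP => ?_⟩
    obtain ⟨k, hk, h4, h5⟩ := h3 l hl hP
    exact ⟨k, hk, (mask_bit D hk).1 h4, h5⟩

theorem pent_of {D : ℕ → Prop} (hc : ∀ i < 15, ∀ j < 15, D i → D j → D (cx i j))
    (h0 : D 0) (h4 : D 4) : ∀ k < 15, P0 k → D k := fun k hk hP =>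
  (mask_bit D hk).1 ((con_mask hc).2.1 ((mask_bit D (by norm_num)).2 h0)
    ((mask_bit D (by norm_num)).2 h4) k hk hP)

theorem all_of {D : ℕ → Prop} (hc : ∀ i < 15, ∀ j < 15, D i → D j → D (cx i j))
    (h0 : D 0) (h1 : D 1) (h3 : D 3) : ∀ k < 15, D k := fun k hk =>
  (mask_bit D hk).1 ((con_mask hc).2.2 ((mask_bit D (by norm_num)).2 h0)
    ((mask_bit D (by norm_num)).2 h1) ((mask_bit D (by norm_num)).2 h3) k hk)

end Pool.Agent.P.MP_97ea17_al.Geo.R5Aux
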