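import Pool.Agent.P.MP_97ea17_al.F.R1
import Pool.Agent.P.MP_97ea17_al.F.G2
import Pool.Agent.P.MP_97ea17_al.F.R5a

/-! Signed permutations of an orthonormal frame. -/

namespace Pool.Agent.P.MP_97ea17_al.Geo.R5Aux

open scoped Quaternion Matrix

/-- Orthonormal frames. -/
def Fr (ε : Fin 5 → E5) : Prop := ∀ i j, ε i ⬝ᵥ ε j = if i = j then 1 else 0

/-- The matrix permutes the frame up to sign. -/
def SP (ε : Fin 5 → E5) (m : Matrix (Fin 2) (Fin 2) ℍ[ℝ]) (π : Fin 5 → Fin 5) : Prop :=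
  ∀ i, rho m (ε i) = ε (π i) ∨ rho m (ε i) = -ε (π i)

/-- The permutation is realised in the group. -/
def Gm (ε : Fin 5 → E5) (H : Subgroup (GH 2)) (π : Fin 5 → Fin 5) : Prop :=
  ∃ w ∈ H, IsU w.val ∧ SP ε w.val π

variable {ε : Fin 5 → E5} {H W : Subgroup (GH 2)} {g h m : Matrix (Fin 2) (Fin 2) ℍ[ℝ]}
  {π σ : Fin 5 → Fin 5}

theorem rho_negv (g : Matrix (Fin 2) (Fin 2) ℍ[ℝ]) (y : E5) : rho g (-y) = -rho g y :=
  map_neg (rhoL g) y

theorem Fr.expand (hε : Fr ε) (y : E5) : y = ∑ i, (ε i ⬝ᵥ y) • ε i := by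
  have h1 : Matrix.of ε * (Matrix.of ε)ᵀ = 1 := by
    ext i j
    rw [Matrix.one_apply, ← hε i j]
    rfl
  have h2 : (Matrix.of ε)ᵀ * Matrix.of ε = 1 := mul_eq_one_comm.1 h1
  have h3 : y = (Matrix.of ε)ᵀ *ᵥ (Matrix.of ε *ᵥ y) := by
    rw [Matrix.mulVec_mulVec, h2, Matrix.one_mulVec]
  ext k
  conv_lhs => rw [h3]
  simp only [Matrix.mulVec, Finset.sum_apply, Pi.smul_apply, smul_eq_mul]
  refine Finset.sum_congr rfl fun i _ => ?_
  rw [mul_comm]
  rfl

theorem Fr.parseval (hε : Fr ε) (y : E5) : ∑ i, (y ⬝ᵥ ε i) ^ 2 = y ⬝ᵥ y := by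
  conv_rhs => enter [2]; rw [hε.expand y]
  rw [dotProduct_sum]
  refine Finset.sum_congr rfl fun i _ => ?_
  rw [dotProduct_smul, dotProduct_comm (ε i), smul_eq_mul, sq]

theorem SP.mul (hh : IsU h) (h1 : SP ε g π) (h2 : SP ε h σ) :
    SP ε (g * h) fun i => π (σ i) := by
  intro i
  rw [rho_mul hh]
  rcases h2 i with e | e <;> rcases h1 (σ i) with e' | e' <;> simp [e, e', rho_negv]

theorem SP.dot (hε : Fr ε) (h1 : SP ε g π) (i : Fin 5) :
    (π i = i ∧ (rho g (ε i) ⬝ᵥ ε i = 1 ∨ rho g (ε i) ⬝ᵥ ε i = -1)) ∨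
      (π i ≠ i ∧ rho g (ε i) ⬝ᵥ ε i = 0) := by
  by_cases e : π i = i
  · left
    rcases h1 i with e' | e' <;> simp [e, e', hε i i]
  · right
    rcases h1 i with e' | e' <;> simp [e, e', hε (π i) i]

theorem Gm.mul (h1 : Gm ε H π) (h2 : Gm ε H σ) : Gm ε H fun i => π (σ i) := by
  obtain ⟨w, hw, hu, h1⟩ := h1
  obtain ⟨w', hw', hu', h2⟩ := h2
  exact ⟨w * w', H.mul_mem hw hw', hu.mul hu', h1.mul hu' h2⟩

theorem Gm.conj (ε : Fin 5 → E5) (H : Subgroup (GH 2)) : ∀ i < 15, ∀ j < 15,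
    Gm ε H (dt i) → Gm ε H (dt j) → Gm ε H (dt (cx i j)) := by
  intro i hi j hj h1 h2
  have := h1.mul (h2.mul h1)
  rwa [funext (cx_spec i hi j hj).2] at this

theorem isU_star (hg : IsU g) : IsU gᴴ := by
  rw [IsU, Matrix.conjTranspose_conjTranspose, hg.mul_star]

theorem phi_act {w : GH 2} (hw : w ∈ H) (hu : IsU w.val) {y : E5} (hy : Phi H y) :
    Phi H (rho w.val y) := by
  obtain ⟨h1, v, hv, h2⟩ := hy
  refine ⟨by rw [rho_dot hu, h1], w * v * w⁻¹, H.mul_mem (H.mul_mem hw hv) (H.inv_mem hw), ?_⟩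
  rw [Units.val_mul, Units.val_mul, hu.inv_val, hm_rho hu]
  rcases h2 with e | e <;> simp [e]

theorem Gm.phi (h1 : Gm ε H π) {i : Fin 5} (hi : Phi H (ε i)) : Phi H (ε (π i)) := by
  obtain ⟨w, hw, hu, h1⟩ := h1
  have := phi_act hw hu hi
  rcases h1 i with e | e
  · rwa [e] at this
  · rw [e] at this
    have h2 := this.neg
    rwa [neg_neg] at h2

theorem exists_sign (hε : Fr ε) (hE : ∀ i, Phi H (ε i)) (S : Finset (Fin 5)) :
    ∃ w ∈ H, IsU w.val ∧ ∀ i, rho w.val (ε i) =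
      ((-1) ^ S.card * if i ∈ S then -1 else 1 : ℝ) • ε i := by
  induction S using Finset.induction_on with
  | empty => exact ⟨1, H.one_mem, by simp [IsU], fun i => by simp [rho_one]⟩
  | insert j S hj ih =>
    obtain ⟨w, hw, hu, h1⟩ := ih
    obtain ⟨h2, v, hv, h3⟩ := hE j
    have hvU : IsU v.val := by
      rcases h3 with e | e
      · exact e ▸ hm_isU h2
      · rw [e, ← hm_neg]
        exact hm_isU (by simpa using h2)
    have h4 : ∀ z, rho v.val z = (2 * (ε j ⬝ᵥ z)) • ε j - z := by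
      intro z
      rcases h3 with e | e
      · rw [e, rho_hm h2]
      · rw [e, rho_neg, rho_hm h2]
    refine ⟨v * w, H.mul_mem hv hw, hvU.mul hu, fun i => ?_⟩
    rw [Units.val_mul, rho_mul hu, h1, rho_smul, h4, hε j i, Finset.card_insert_of_notMem hj,
      pow_succ]
    by_cases e : j = i
    · subst e
      simp only [if_true, hj, if_false, Finset.mem_insert_self]
      module
    · simp only [e, if_false, Finset.mem_insert, Ne.symm e, false_or]
      module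

theorem mem_of_id (hε : Fr ε) (hE : ∀ i, Phi H (ε i)) {u : GH 2} (hu : IsU u.val)
    (h1 : SP ε u.val id) : u ∈ H := by
  classical
  set S : Finset (Fin 5) := Finset.univ.filter fun i => rho u.val (ε i) = -ε i with hS
  have h2 : ∀ i, rho u.val (ε i) = (if i ∈ S then -1 else 1 : ℝ) • ε i := by
    intro i
    by_cases e : i ∈ S
    · rw [if_pos e, (Finset.mem_filter.1 e).2, neg_one_smul]
    · rw [if_neg e, one_smul]
      exact (h1 i).resolve_right fun e' => e (Finset.mem_filter.2 ⟨Finset.mem_univ _, e'⟩)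
  have h3 := sign_even hu hε h2
  rw [Finset.prod_ite_mem, Finset.univ_inter, Finset.prod_const] at h3
  obtain ⟨w, hw, hwU, h4⟩ := exists_sign hε hE S
  have h5 : ∀ y, rho u.val y = rho w.val y := by
    intro y
    rw [hε.expand y, ← rhoL_apply, ← rhoL_apply, map_sum, map_sum]
    refine Finset.sum_congr rfl fun i _ => ?_
    rw [rhoL_apply, rhoL_apply, rho_smul, rho_smul, h2, h4, h3, one_mul]
  rcases eq_of_rho_eq hu hwU h5 with e | e
  · exact (Units.ext e : u = w) ▸ hw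
  · have h6 : (-1 : GH 2) ∈ H := neg_one_mem (hE 0) (hE 1) (by rw [hε 0 1]; simp)
    have h7 : u = -1 * w := Units.ext (by simp [e])
    exact h7 ▸ H.mul_mem h6 hw

theorem mem_of_gm (hε : Fr ε) (hE : ∀ i, Phi H (ε i)) {u : GH 2} (hu : IsU u.val)
    (h1 : SP ε u.val π) (h2 : Gm ε H π) : u ∈ H := by
  obtain ⟨w, hw, hwU, h2⟩ := h2
  have h3 : ∀ y, rho w.valᴴ (rho w.val y) = y := fun y => by
    rw [← rho_mul hwU, hwU, rho_one]
  have h4 : w⁻¹ * u ∈ H := by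
    refine mem_of_id hε hE (by rw [Units.val_mul, hwU.inv_val]; exact (isU_star hwU).mul hu)
      fun i => ?_
    rw [Units.val_mul, hwU.inv_val, rho_mul hu]
    have h5 := h3 (ε i)
    have h6 : rho w.valᴴ (ε (π i)) = ε i ∨ rho w.valᴴ (ε (π i)) = -ε i := by
      rcases h2 i with e' | e' <;> rw [e'] at h5
      · exact Or.inl h5
      · rw [rho_negv, neg_eq_iff_eq_neg] at h5
        exact Or.inr h5
    rcases h1 i with e | e <;> rcases h6 with e' | e' <;> simp [e, e', rho_negv]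
  simpa using H.mul_mem hw h4

theorem exists_sp (hW : Std W) (hE : ∀ i, Phi W (ε i))
    (hA : ∀ y, Phi W y → ∃ i, y = ε i ∨ y = -ε i) {w : GH 2} (hw : w ∈ W) :
    ∃ π, SP ε w.val π := by
  choose π hπ using fun i => hA _ ((hE i).act hW hw)
  exact ⟨π, hπ⟩

theorem pt5_unit {a : V 2} (ha : nq a = 1) : pt5 a ⬝ᵥ pt5 a = 1 := by
  rw [pt5_dot, tt, ip_self, ha]
  norm_num

theorem sp_neg_one (hε : Fr ε) (hA : ∀ y, Phi W y → ∃ i, y = ε i ∨ y = -ε i) {a : V 2}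
    (ha : Rl W a (-1)) (h1 : SP ε (reflMat a (-1)) π) (i : Fin 5) : π i = i := by
  obtain ⟨j, hj⟩ := hA _ (Phi.of_rl ha)
  have h2 := rho_refl_dot ha.1 ha.2.1 (ε i)
  have h3 : (pt5 a ⬝ᵥ ε i) ^ 2 = 0 ∨ (pt5 a ⬝ᵥ ε i) ^ 2 = 1 := by
    rcases hj with e | e <;> simp only [e, neg_dotProduct, hε j i] <;> split_ifs <;> simp
  rcases h1.dot hε i with h4 | h4
  · exact h4.1
  · rw [h4.2, hε i i] at h2
    simp only [if_true, Quaternion.re_neg, Quaternion.re_one] at h2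
    rcases h3 with e | e <;> rw [e] at h2 <;> norm_num at h2

theorem refl_sp (hW : Std W) (hM : ¬ Mono W) (hε : Fr ε) (hE : ∀ i, Phi W (ε i))
    (hA : ∀ y, Phi W y → ∃ i, y = ε i ∨ y = -ε i) {a : V 2} {ξ : ℍ[ℝ]} (ha : Rl W a ξ) :
    SP ε (reflMat a ξ) id ∨ ∃ k < 15, SP ε (reflMat a ξ) (dt k) := by
  obtain ⟨w, hw, hw'⟩ := ha.2.2.2
  obtain ⟨π, hπ⟩ := exists_sp hW hE hA hw
  have hU := hW.uni w hw
  rw [hw'] at hπ hU
  have h1 := hε.parseval (pt5 a)
  rw [pt5_unit ha.1] at h1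
  have h2 : ∀ i, (π i = i ∧ ((pt5 a ⬝ᵥ ε i) ^ 2 + ξ.re * (1 - (pt5 a ⬝ᵥ ε i) ^ 2) = 1 ∨
      (pt5 a ⬝ᵥ ε i) ^ 2 + ξ.re * (1 - (pt5 a ⬝ᵥ ε i) ^ 2) = -1)) ∨
      (π i ≠ i ∧ (pt5 a ⬝ᵥ ε i) ^ 2 + ξ.re * (1 - (pt5 a ⬝ᵥ ε i) ^ 2) = 0) := by
    intro i
    have h3 := rho_refl_dot ha.1 ha.2.1 (ε i)
    rw [hε i i, if_pos rfl] at h3
    rw [← h3]
    exact hπ.dot hε i
  have h5 : (2.2 : ℝ) < √5 := Real.lt_sqrt_of_sq_lt (by norm_num)
  have h6 : √5 < (2.3 : ℝ) := (Real.sqrt_lt' (by norm_num)).2 (by norm_num)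
  have hbig : (∀ i, (1 / 3 : ℝ) ≤ (pt5 a ⬝ᵥ ε i) ^ 2) → False := by
    intro h
    have := Finset.sum_le_sum fun i (_ : i ∈ Finset.univ) => h i
    rw [h1] at this
    norm_num at this
  rcases re_cases hW hM ha with e | e | e | e | e
  · left
    obtain rfl := eq_neg_one_of_re ha.2.1 e
    rwa [show π = id from funext (sp_neg_one hε hA ha hπ)] at hπ
  · refine (hbig fun i => ?_).elim
    have := sq_nonneg (pt5 a ⬝ᵥ ε i)
    rcases h2 i with ⟨-, h | h⟩ | ⟨-, h⟩ <;> rw [e] at h <;> linarith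
  · right
    have h7 : ξ * ξ = -1 := by
      have h8 := ha.2.1
      rw [Quaternion.normSq_def'] at h8
      ext <;> simp [e] <;> nlinarith
    have h8 : Rl W a (-1) := h7 ▸ ha.mul ha (by
      rw [h7]
      intro e'
      have := congrArg QuaternionAlgebra.re e'
      norm_num at this)
    have h9 := hπ.mul hU hπ
    rw [reflMat_mul' (by rw [ha.1]; exact one_ne_zero), h7] at h9
    have h10 : ∀ i, (π i = i ∧ (pt5 a ⬝ᵥ ε i) ^ 2 = 1) ∨ (π i ≠ i ∧ (pt5 a ⬝ᵥ ε i) ^ 2 = 0) := by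
      intro i
      have := sq_nonneg (pt5 a ⬝ᵥ ε i)
      rcases h2 i with ⟨h0, h | h⟩ | ⟨h0, h⟩ <;> rw [e] at h
      · exact Or.inl ⟨h0, by linarith⟩
      · linarith
      · exact Or.inr ⟨h0, by linarith⟩
    have h11 : ∃ j, π j = j := by
      by_contra hc
      rw [Finset.sum_eq_zero fun i _ => ((h10 i).resolve_left fun h => hc ⟨i, h.1⟩).2] at h1
      exact zero_ne_one h1
    obtain ⟨j, hj⟩ := h11
    obtain ⟨k, hk, rfl⟩ := exists_dt (π := π) (sp_neg_one hε hA h8 h9) ⟨j, hj, fun i hi => by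
      by_contra hne
      have h12 := Finset.sum_le_sum_of_subset_of_nonneg (Finset.subset_univ {i, j})
        fun l _ _ => sq_nonneg (pt5 a ⬝ᵥ ε l)
      rw [Finset.sum_pair hne, h1, ((h10 i).resolve_right fun h => h.1 hi).2,
        ((h10 j).resolve_right fun h => h.1 hj).2] at h12
      norm_num at h12⟩
    exact ⟨k, hk, hπ⟩
  · refine (hbig fun i => ?_).elim
    have := sq_nonneg (pt5 a ⬝ᵥ ε i)
    rcases h2 i with ⟨-, h | h⟩ | ⟨-, h⟩ <;> rw [e] at h <;> nlinarith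
  · refine (hbig fun i => ?_).elim
    have := sq_nonneg (pt5 a ⬝ᵥ ε i)
    rcases h2 i with ⟨-, h | h⟩ | ⟨-, h⟩ <;> rw [e] at h <;> nlinarith

theorem trans_of_irr (hW : Std W) (hM : ¬ Mono W) (hI : Irr5 W) (hε : Fr ε)
    (hE : ∀ i, Phi W (ε i)) (hA : ∀ y, Phi W y → ∃ i, y = ε i ∨ y = -ε i) (A : Fin 5 → Prop)
    (h : ∀ k < 15, Gm ε W (dt k) → ∀ i, A i → A (dt k i)) : (∀ i, ¬ A i) ∨ ∀ i, A i := by
  set U := Submodule.span ℝ (ε '' {i | A i}) with hU
  have h1 : ∀ w ∈ W, ∀ y ∈ U, rho w.val y ∈ U := by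
    refine hW.induction (fun w => ∀ y ∈ U, rho w.val y ∈ U) (fun y hy => by simpa [rho_one])
      fun r hr a ξ ha e w hw ih y hy => ?_
    rw [Units.val_mul, rho_mul (hW.uni w hw)]
    obtain ⟨π, hπ, h2⟩ : ∃ π, SP ε r.val π ∧ ∀ i, A i → A (π i) := by
      rcases refl_sp hW hM hε hE hA ha with h2 | ⟨k, hk, h2⟩
      · exact ⟨id, e ▸ h2, fun i hi => hi⟩
      · exact ⟨dt k, e ▸ h2, h k hk ⟨r, hr, hW.uni r hr, e ▸ h2⟩⟩
    have h3 : U ≤ U.comap (rhoL r.val) := by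
      rw [hU, Submodule.span_le]
      rintro _ ⟨i, hi, rfl⟩
      have h4 : ε (π i) ∈ U := Submodule.subset_span ⟨π i, h2 i hi, rfl⟩
      rw [SetLike.mem_coe, Submodule.mem_comap, rhoL_apply]
      rcases hπ i with e' | e' <;> rw [e']
      · exact h4
      · exact U.neg_mem h4
    have h5 := h3 (ih y hy)
    rwa [Submodule.mem_comap, rhoL_apply] at h5
  rcases hI U h1 with e | e
  · refine Or.inl fun i hi => ?_
    have h4 : ε i ∈ U := Submodule.subset_span ⟨i, hi, rfl⟩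
    rw [e, Submodule.mem_bot] at h4
    have := hε i i
    rw [h4] at this
    simp at this
  · refine Or.inr fun i => ?_
    by_contra hi
    have h4 : ∀ y ∈ U, y ⬝ᵥ ε i = 0 := by
      intro y hy
      induction hy using Submodule.span_induction with
      | mem x hx =>
        obtain ⟨j, hj, rfl⟩ := hx
        rw [hε j i, if_neg]
        rintro rfl
        exact hi hj
      | zero => simp
      | add x y _ _ hx hy => rw [add_dotProduct, hx, hy, add_zero]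
      | smul c x _ hx => rw [smul_dotProduct, hx, smul_zero]
    have := h4 (ε i) (e ▸ Submodule.mem_top)
    rw [hε i i] at this
    simp at this

end Pool.Agent.P.MP_97ea17_al.Geo.R5Aux
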