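import Pool.Agent.P.MP_97ea17_al.F.R1
import Pool.Agent.P.MP_97ea17_al.F.G2
import Pool.Agent.P.MP_97ea17_al.F.ExcA
import Pool.Agent.P.MP_97ea17_al.F.R5b

/-! The groups of order 320 and 1920. -/

namespace Pool.Agent.P.MP_97ea17_al.Geo

open scoped Quaternion Matrix

namespace R5Aux

/-- The standard frame. -/
def e5 (i : Fin 5) : E5 := Pi.single i 1

theorem e5_fr : Fr e5 := fun i j => by
  simp [e5, Pi.single_apply, eq_comm]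

theorem final {W : Subgroup (GH 2)} (hW : Std W) {R : List (List ℤ × List (List ℤ))}
    (D : ℕ → Prop) (hB : Bound (grp 2 2 R)) (hP1 : ∀ i, Phi (grp 2 2 R) (e5 i))
    (hP2 : ∀ k < 15, D k → Gm e5 (grp 2 2 R) (dt k))
    (hP3 : ∀ r ∈ R, IsU (reflMat (rt 2 2 r) (xi 2 r)) ∧
      ∃ k < 15, D k ∧ SP e5 (reflMat (rt 2 2 r) (xi 2 r)) (dt k))
    {ε : Fin 5 → E5} (hε : Fr ε) (hW1 : ∀ i, Phi W (ε i))
    (hW2 : ∀ k < 15, D k → Gm ε W (dt k))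
    (hW3 : ∀ a ξ, Rl W a ξ → SP ε (reflMat a ξ) id ∨
      ∃ k < 15, D k ∧ SP ε (reflMat a ξ) (dt k)) : Bound W := by
  obtain ⟨g, hg, hg'⟩ := exists_lift_gram e5 ε (fun i j => by rw [e5_fr i j, hε i j])
    (fun v hv => by rw [e5_fr.expand v]; simp [hv])
  have h1 : ∀ i, rho g.val (e5 i) = ε i ∨ rho g.val (e5 i) = -ε i := fun i =>
    hg'.imp (fun h => h i) fun h => h i
  have h2 : ∀ i, rho g.valᴴ (ε i) = e5 i ∨ rho g.valᴴ (ε i) = -e5 i := by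
    intro i
    have h3 : rho g.valᴴ (rho g.val (e5 i)) = e5 i := by rw [← rho_mul hg, hg, rho_one]
    rcases h1 i with e | e <;> rw [e] at h3
    · exact Or.inl h3
    · rw [rho_negv, neg_eq_iff_eq_neg] at h3
      exact Or.inr h3
  have h3 : ∀ m π, IsU m → SP e5 m π → SP ε (g.val * m * g.valᴴ) π := by
    intro m π hm h i
    rw [rho_mul (isU_star hg), rho_mul hm]
    rcases h2 i with e | e <;> rcases h i with e' | e' <;> rcases h1 (π i) with e'' | e'' <;>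
      simp [e, e', e'', rho_negv]
  have h4 : ∀ π, Gm e5 (grp 2 2 R) π → Gm ε (cj g (grp 2 2 R)) π := by
    rintro π ⟨w, hw, hu, h⟩
    have e : (g * w * g⁻¹).val = g.val * w.val * g.valᴴ := by
      rw [Units.val_mul, Units.val_mul, hg.inv_val]
    exact ⟨g * w * g⁻¹, mem_cj.2 (by simpa [mul_assoc] using hw),
      e ▸ (hg.mul hu).mul (isU_star hg), e ▸ h3 _ _ hu h⟩
  have h5 : ∀ i, Phi (cj g (grp 2 2 R)) (ε i) := by
    intro i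
    have h := (phi_cj hg).2 (hP1 i)
    rcases h1 i with e | e <;> rw [e] at h
    · exact h
    · have h' := h.neg
      rwa [neg_neg] at h'
  refine bound_of_grp hB hg (fun r hr => ?_) (hW.le_of_refl _ fun w hw a ξ ha e => ?_)
  · obtain ⟨hu, k, hk, hD, h⟩ := hP3 r hr
    have hu' := (hg.mul hu).mul (isU_star hg)
    obtain ⟨w, hw⟩ := hu'.exists_GL
    refine ⟨w, mem_of_gm hε hW1 (hw ▸ hu') (hw ▸ h3 _ _ hu h) (hW2 k hk hD), ?_⟩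
    rw [hw, ← reflMat_conj hg, mul_assoc, hg.mul_star, mul_one]
  · rcases hW3 a ξ ha with h | ⟨k, hk, hD, h⟩
    · exact mem_of_id hε h5 (hW.uni w hw) (e ▸ h)
    · exact mem_of_gm hε h5 (hW.uni w hw) (e ▸ h) (h4 _ (hP2 k hk hD))

theorem m1 : reflMat (rt 2 2 ([0, 2], [[1], [0]])) (xi 2 ([0, 2], [[1], [0]])) =
    !![⟨0, 1, 0, 0⟩, 0; 0, 1] := by
  ext i j : 1
  fin_cases i <;> fin_cases j <;> ext <;>
    simp [reflMat, rt, xi, quat, Fin.sum_univ_two, Quaternion.normSq_def']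

theorem m2 : reflMat (rt 2 2 ([0, 0, 2], [[1], [1]])) (xi 2 ([0, 0, 2], [[1], [1]])) =
    !![⟨1 / 2, 0, 1 / 2, 0⟩, ⟨-1 / 2, 0, 1 / 2, 0⟩; ⟨-1 / 2, 0, 1 / 2, 0⟩, ⟨1 / 2, 0, 1 / 2, 0⟩] := by
  ext i j : 1
  fin_cases i <;> fin_cases j <;> ext <;>
    simp [reflMat, rt, xi, quat, Fin.sum_univ_two, Quaternion.normSq_def'] <;> norm_num

theorem m3 : reflMat (rt 2 2 ([0, 0, 2], [[1], [0]])) (xi 2 ([0, 0, 2], [[1], [0]])) =
    !![⟨0, 0, 1, 0⟩, 0; 0, 1] := by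
  ext i j : 1
  fin_cases i <;> fin_cases j <;> ext <;>
    simp [reflMat, rt, xi, quat, Fin.sum_univ_two, Quaternion.normSq_def']

theorem m4 : reflMat (rt 2 2 ([0, 2], [[1], [1]])) (xi 2 ([0, 2], [[1], [1]])) =
    !![⟨1 / 2, 1 / 2, 0, 0⟩, ⟨-1 / 2, 1 / 2, 0, 0⟩; ⟨-1 / 2, 1 / 2, 0, 0⟩, ⟨1 / 2, 1 / 2, 0, 0⟩] := by
  ext i j : 1
  fin_cases i <;> fin_cases j <;> ext <;>
    simp [reflMat, rt, xi, quat, Fin.sum_univ_two, Quaternion.normSq_def'] <;> norm_num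

theorem rho1 (y : E5) : rho !![⟨0, 1, 0, 0⟩, 0; 0, 1] y = ![y 0, -y 2, y 1, -y 4, y 3] := by
  ext i
  fin_cases i <;> simp [rho, uh, hm, Matrix.mul_apply, Fin.sum_univ_two]

theorem rho2 (y : E5) : rho !![⟨1 / 2, 0, 1 / 2, 0⟩, ⟨-1 / 2, 0, 1 / 2, 0⟩;
    ⟨-1 / 2, 0, 1 / 2, 0⟩, ⟨1 / 2, 0, 1 / 2, 0⟩] y = ![y 3, y 1, y 4, -y 0, -y 2] := by
  ext i
  fin_cases i <;> simp [rho, uh, hm, Matrix.mul_apply, Fin.sum_univ_two] <;> ring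

theorem rho3 (y : E5) : rho !![⟨0, 0, 1, 0⟩, 0; 0, 1] y = ![y 0, -y 3, y 4, y 1, -y 2] := by
  ext i
  fin_cases i <;> simp [rho, uh, hm, Matrix.mul_apply, Fin.sum_univ_two]

theorem rho4 (y : E5) : rho !![⟨1 / 2, 1 / 2, 0, 0⟩, ⟨-1 / 2, 1 / 2, 0, 0⟩;
    ⟨-1 / 2, 1 / 2, 0, 0⟩, ⟨1 / 2, 1 / 2, 0, 0⟩] y = ![y 2, y 1, -y 0, -y 4, y 3] := by
  ext i
  fin_cases i <;> simp [rho, uh, hm, Matrix.mul_apply, Fin.sum_univ_two] <;> ring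

theorem e5_eq : e5 0 = ![1, 0, 0, 0, 0] ∧ e5 1 = ![0, 1, 0, 0, 0] ∧ e5 2 = ![0, 0, 1, 0, 0] ∧
    e5 3 = ![0, 0, 0, 1, 0] ∧ e5 4 = ![0, 0, 0, 0, 1] := by
  refine ⟨?_, ?_, ?_, ?_, ?_⟩ <;> ext i <;> fin_cases i <;> simp [e5]

theorem sp_of {m : Matrix (Fin 2) (Fin 2) ℍ[ℝ]} {π : Fin 5 → Fin 5} {a b c d e : Fin 5}
    (h : π = ![a, b, c, d, e])
    (h0 : rho m (e5 0) = e5 a ∨ rho m (e5 0) = -e5 a)
    (h1 : rho m (e5 1) = e5 b ∨ rho m (e5 1) = -e5 b)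
    (h2 : rho m (e5 2) = e5 c ∨ rho m (e5 2) = -e5 c)
    (h3 : rho m (e5 3) = e5 d ∨ rho m (e5 3) = -e5 d)
    (h4 : rho m (e5 4) = e5 e ∨ rho m (e5 4) = -e5 e) : SP e5 m π := by
  subst h
  intro i
  fin_cases i
  exacts [h0, h1, h2, h3, h4]

theorem g1 : IsU (reflMat (rt 2 2 ([0, 2], [[1], [0]])) (xi 2 ([0, 2], [[1], [0]]))) ∧
    SP e5 (reflMat (rt 2 2 ([0, 2], [[1], [0]])) (xi 2 ([0, 2], [[1], [0]]))) (dt 0) := by
  refine ⟨reflMat_isU (by simp [nq, rt, quat, Quaternion.normSq_def'])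
    (by simp [xi, quat, Quaternion.normSq_def']), ?_⟩
  rw [m1]
  refine sp_of (rfl : dt 0 = ![0, 2, 1, 4, 3]) ?_ ?_ ?_ ?_ ?_ <;> simp [rho1, e5_eq]

theorem g2 : IsU (reflMat (rt 2 2 ([0, 0, 2], [[1], [1]])) (xi 2 ([0, 0, 2], [[1], [1]]))) ∧
    SP e5 (reflMat (rt 2 2 ([0, 0, 2], [[1], [1]])) (xi 2 ([0, 0, 2], [[1], [1]]))) (dt 4) := by
  refine ⟨reflMat_isU (by simp [nq, rt, quat, Quaternion.normSq_def'])
    (by simp [xi, quat, Quaternion.normSq_def']), ?_⟩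
  rw [m2]
  refine sp_of (rfl : dt 4 = ![3, 1, 4, 0, 2]) ?_ ?_ ?_ ?_ ?_ <;> rw [rho2] <;> simp [e5_eq]

theorem g3 : IsU (reflMat (rt 2 2 ([0, 0, 2], [[1], [0]])) (xi 2 ([0, 0, 2], [[1], [0]]))) ∧
    SP e5 (reflMat (rt 2 2 ([0, 0, 2], [[1], [0]])) (xi 2 ([0, 0, 2], [[1], [0]]))) (dt 1) := by
  refine ⟨reflMat_isU (by simp [nq, rt, quat, Quaternion.normSq_def'])
    (by simp [xi, quat, Quaternion.normSq_def']), ?_⟩
  rw [m3]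
  refine sp_of (rfl : dt 1 = ![0, 3, 4, 1, 2]) ?_ ?_ ?_ ?_ ?_ <;> simp [rho3, e5_eq]

theorem g4 : IsU (reflMat (rt 2 2 ([0, 2], [[1], [1]])) (xi 2 ([0, 2], [[1], [1]]))) ∧
    SP e5 (reflMat (rt 2 2 ([0, 2], [[1], [1]])) (xi 2 ([0, 2], [[1], [1]]))) (dt 3) := by
  refine ⟨reflMat_isU (by simp [nq, rt, quat, Quaternion.normSq_def'])
    (by simp [xi, quat, Quaternion.normSq_def']), ?_⟩
  rw [m4]
  refine sp_of (rfl : dt 3 = ![2, 1, 0, 4, 3]) ?_ ?_ ?_ ?_ ?_ <;> rw [rho4] <;> simp [e5_eq]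

theorem gen_in {R : List (List ℤ × List (List ℤ))} {r : List ℤ × List (List ℤ)} (hr : r ∈ R)
    (hu : IsU (reflMat (rt 2 2 r) (xi 2 r))) :
    ∃ w ∈ grp 2 2 R, w.val = reflMat (rt 2 2 r) (xi 2 r) := by
  obtain ⟨w, hw⟩ := hu.exists_GL
  exact ⟨w, Subgroup.subset_closure ⟨r, hr, hw⟩, hw⟩

theorem gm_gen {R : List (List ℤ × List (List ℤ))} {r : List ℤ × List (List ℤ)} (hr : r ∈ R)
    {π : Fin 5 → Fin 5}
    (h : IsU (reflMat (rt 2 2 r) (xi 2 r)) ∧ SP e5 (reflMat (rt 2 2 r) (xi 2 r)) π) :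
    Gm e5 (grp 2 2 R) π := by
  obtain ⟨w, hw, e⟩ := gen_in hr h.1
  exact ⟨w, hw, e ▸ h.1, e ▸ h.2⟩

theorem phi0 {R : List (List ℤ × List (List ℤ))} (hr : ([0, 2], [[1], [0]]) ∈ R) :
    Phi (grp 2 2 R) (e5 0) := by
  obtain ⟨w, hw, e⟩ := gen_in hr g1.1
  refine ⟨by simpa using e5_fr 0 0, w * w, Subgroup.mul_mem _ hw hw, Or.inr ?_⟩
  rw [Units.val_mul, e, m1]
  ext i j : 1
  fin_cases i <;> fin_cases j <;> ext <;>
    simp [hm, e5_eq, Matrix.mul_apply, Fin.sum_univ_two]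

theorem bound_pent {W : Subgroup (GH 2)} (hW : Std W) {ε : Fin 5 → E5} (hε : Fr ε)
    (hW1 : ∀ i, Phi W (ε i)) (hW2 : ∀ k < 15, P0 k → Gm ε W (dt k))
    (hW3 : ∀ a ξ, Rl W a ξ → SP ε (reflMat a ξ) id ∨
      ∃ k < 15, P0 k ∧ SP ε (reflMat a ξ) (dt k)) : Bound W := by
  have G0 : Gm e5 (grp 2 2 rP1) (dt 0) := gm_gen (by simp [rP1]) g1
  have G4 : Gm e5 (grp 2 2 rP1) (dt 4) := gm_gen (by simp [rP1]) g2
  have p0 : Phi (grp 2 2 rP1) (e5 0) := phi0 (by simp [rP1])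
  have p3 : Phi (grp 2 2 rP1) (e5 3) := G4.phi p0
  have p4 : Phi (grp 2 2 rP1) (e5 4) := G0.phi p3
  have p2 : Phi (grp 2 2 rP1) (e5 2) := G4.phi p4
  have p1 : Phi (grp 2 2 rP1) (e5 1) := G0.phi p2
  refine final hW P0 bd_P1 (fun i => ?_) (pent_of (Gm.conj e5 _) G0 G4) (fun r hr => ?_)
    hε hW1 hW2 hW3
  · fin_cases i
    exacts [p0, p1, p2, p3, p4]
  · simp only [rP1, List.mem_cons, List.not_mem_nil, or_false] at hr
    rcases hr with rfl | rfl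
    · exact ⟨g1.1, 0, by norm_num, by decide, g1.2⟩
    · exact ⟨g2.1, 4, by norm_num, by decide, g2.2⟩

theorem bound_all {W : Subgroup (GH 2)} (hW : Std W) {ε : Fin 5 → E5} (hε : Fr ε)
    (hW1 : ∀ i, Phi W (ε i)) (hW2 : ∀ k < 15, Gm ε W (dt k))
    (hW3 : ∀ a ξ, Rl W a ξ → SP ε (reflMat a ξ) id ∨
      ∃ k < 15, SP ε (reflMat a ξ) (dt k)) : Bound W := by
  have G0 : Gm e5 (grp 2 2 rP2) (dt 0) := gm_gen (by simp [rP2]) g1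
  have G1 : Gm e5 (grp 2 2 rP2) (dt 1) := gm_gen (by simp [rP2]) g3
  have G3 : Gm e5 (grp 2 2 rP2) (dt 3) := gm_gen (by simp [rP2]) g4
  have p0 : Phi (grp 2 2 rP2) (e5 0) := phi0 (by simp [rP2])
  have p2 : Phi (grp 2 2 rP2) (e5 2) := G3.phi p0
  have p1 : Phi (grp 2 2 rP2) (e5 1) := G0.phi p2
  have p3 : Phi (grp 2 2 rP2) (e5 3) := G1.phi p1
  have p4 : Phi (grp 2 2 rP2) (e5 4) := G0.phi p3
  refine final hW (fun _ => True) bd_P2 (fun i => ?_)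
    (fun k hk _ => all_of (Gm.conj e5 _) G0 G1 G3 k hk) (fun r hr => ?_)
    hε hW1 (fun k hk _ => hW2 k hk) fun a ξ ha =>
      (hW3 a ξ ha).imp id fun ⟨k, hk, h⟩ => ⟨k, hk, trivial, h⟩
  · fin_cases i
    exacts [p0, p1, p2, p3, p4]
  · simp only [rP2, List.mem_cons, List.not_mem_nil, or_false] at hr
    rcases hr with rfl | rfl | rfl
    · exact ⟨g1.1, 0, by norm_num, trivial, g1.2⟩
    · exact ⟨g3.1, 1, by norm_num, trivial, g3.2⟩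
    · exact ⟨g4.1, 3, by norm_num, trivial, g4.2⟩

theorem SP.relabel {ε : Fin 5 → E5} {m : Matrix (Fin 2) (Fin 2) ℍ[ℝ]} {π π' σ : Fin 5 → Fin 5}
    (h : SP ε m π) (e : ∀ i, σ (π' i) = π (σ i)) : SP (fun i => ε (σ i)) m π' := fun i => by
  simpa only [e] using h (σ i)

end R5Aux

open R5Aux in
theorem bound_axes {W : Subgroup (GH 2)} (hW : Std W) (hM : ¬ Mono W) (hI : Irr5 W)
    (h : Axes (Phi W)) : Bound W := by
  obtain ⟨ε, hε, h1, hA⟩ := h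
  have hE : ∀ i, Phi W (ε i) := fun i => (h1 i).elim id fun h => by
    have h' := h.neg
    rwa [neg_neg] at h'
  rcases classify (D := fun k => Gm ε W (dt k)) (Gm.conj ε W)
    (trans_of_irr hW hM hI hε hE hA) with h2 | ⟨σ, hσ, h2, h3⟩
  · exact bound_all hW hε hE h2 fun a ξ ha => refl_sp hW hM hε hE hA ha
  · refine bound_pent hW (ε := fun i => ε (σ i)) (fun i j => ?_) (fun i => hE _)
      (fun l hl hP => ?_) fun a ξ ha => ?_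
    · simp only [hε (σ i) (σ j), hσ.eq_iff]
    · obtain ⟨k, -, ⟨w, hw, hu, h4⟩, h5⟩ := h3 l hl hP
      exact ⟨w, hw, hu, h4.relabel h5⟩
    · rcases refl_sp hW hM hε hE hA ha with h4 | ⟨k, hk, h4⟩
      · exact Or.inl (h4.relabel fun _ => rfl)
      · obtain ⟨w, hw, e⟩ := ha.2.2.2
        obtain ⟨l, hl, hP, h5⟩ := h2 k hk ⟨w, hw, hW.uni w hw, e ▸ h4⟩
        exact Or.inr ⟨l, hl, hP, h4.relabel h5⟩

end Pool.Agent.P.MP_97ea17_al.Geo
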