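import Pool.Agent.P.MP_97ea17_al.F.G5
import Pool.Agent.P.MP_97ea17_al.F.G7
import Pool.Agent.P.MP_97ea17_al.F.G8
import Pool.Agent.P.MP_97ea17_al.F.G9
import Pool.Agent.P.MP_97ea17_al.F.R2
import Pool.Agent.P.MP_97ea17_al.F.R3
import Pool.Agent.P.MP_97ea17_al.F.R3b
import Pool.Agent.P.MP_97ea17_al.F.R4
import Pool.Agent.P.MP_97ea17_al.F.R5
import Pool.Agent.P.MP_97ea17_al.F.Eng

/-! The bound for all irreducible quaternionic reflection groups. -/

namespace Pool.Agent.P.MP_97ea17_al.Geo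

open scoped Quaternion Matrix

theorem bound_std {n : ℕ} {W : Subgroup (GH n)} (hW : Std W) : Bound W := by
  by_cases hM : Mono W
  · rcases mono_cases hW hM with h | ⟨h1, h2⟩
    exacts [h, bound_cpx hW h1 h2]
  have hn : 2 ≤ n := by
    by_contra h
    exact hM (mono_small hW (by omega))
  by_cases hJ : NJ W
  · rcases hn.eq_or_lt with rfl | h
    · exact (nj_two hW hJ).elim (bound_cpx hW hn) id
    · exact bound_cpx hW hn (cpx_of_nj hW h hJ)
  have h5 : (√5 : ℝ) ^ 2 = 5 := Real.sq_sqrt (by norm_num)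
  have h5' : (0 : ℝ) ≤ √5 := Real.sqrt_nonneg _
  have sq : ∀ a ξ, Rl W a ξ → ξ.re ≠ -1 →
      Rl W a (ξ ^ 2) ∧ (ξ ^ 2).re = 2 * ξ.re ^ 2 - 1 := fun a ξ h hr => by
    have h1 := h.2.1
    rw [Quaternion.normSq_def'] at h1
    refine ⟨h.pow 2 fun e => ?_, by simp [pow_two]; linarith⟩
    have e1 : (ξ - 1) * (ξ + 1) = 0 := by rw [← sub_eq_zero.2 e]; noncomm_ring
    rcases mul_eq_zero.1 e1 with e | e
    · exact h.2.2.1 (sub_eq_zero.1 e)
    · exact hr (by simp [eq_neg_of_add_eq_zero_left e])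
  have n5 : ∀ a ξ, Rl W a ξ → ξ.re ≠ (√5 - 1) / 4 := fun a ξ h e =>
    hJ (nj_of_par hW hM (t := (√5 - 1) / 4) (by linarith) ⟨a, ξ, h, e⟩
      fun _ _ _ _ => order5 hW hM)
  have re3 : ∀ a ξ, Rl W a ξ → ξ = -1 ∨ ξ.re = -1 / 2 ∨ ξ.re = 0 := fun a ξ h => by
    rcases re_cases hW hM h with e | e | e | e | e
    · exact Or.inl (eq_neg_one_of_re h.2.1 e)
    · exact Or.inr (Or.inl e)
    · exact Or.inr (Or.inr e)
    · exact absurd e (n5 a ξ h)
    · obtain ⟨h1, h2⟩ := sq a ξ h (by rw [e]; nlinarith)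
      exact absurd (by rw [h2, e]; nlinarith) (n5 _ _ h1)
  have o3 : ∀ a ξ, Rl W a ξ → ξ.re = -1 / 2 →
      n = 2 ∧ ((∀ x ζ, Rl W x ζ → ζ.re = -1 / 2) → Bound W) := fun a ξ h e => by
    by_contra hc
    exact hJ (nj_of_par hW hM (t := -1 / 2) (by norm_num) ⟨a, ξ, h, e⟩
      fun _ _ _ _ h1 h2 h3 h4 => (order3 hW hM h1 h2 h3 h4).2.resolve_right fun h5 =>
        hc (caseO hW hM h1 h2 h3 h4 h5.1 h5.2))
  rcases hn.eq_or_lt with rfl | h
  · by_cases h2 : ∃ a, Rl W a (-1)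
    · obtain ⟨a, ha⟩ := h2
      have hI := irr5 hW hM hJ
      have hR := rs5 hW hI
      rcases comp5 hW hI _ hR.unit (fun w hw x hx => hx.act hW hw) ⟨_, Phi.of_rl ha⟩ with h | h
      · obtain ⟨y, hy, h1 | h1⟩ := simple5 hR h
        exacts [bound_A5 hW (isA5 hR hy h1), bound_D5 hW (isD5 hR hy h1)]
      · exact bound_axes hW hM hI h
    · have h3 : ∀ x ζ, Rl W x ζ → ζ.re = -1 / 2 := fun x ζ hx => by
        rcases re3 x ζ hx with e | e | e
        · exact absurd ⟨x, e ▸ hx⟩ h2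
        · exact e
        · obtain ⟨h1, h3⟩ := sq x ζ hx (by rw [e]; norm_num)
          exact absurd ⟨x, eq_neg_one_of_re h1.2.1 (by rw [h3, e]; norm_num) ▸ h1⟩ h2
      obtain ⟨a, ξ, ha⟩ := exists_refl hW hM
      exact (o3 a ξ ha (h3 a ξ ha)).2 h3
  · have h2 : ∀ a ξ, Rl W a ξ → ξ = -1 := fun a ξ ha => by
      rcases re3 a ξ ha with e | e | e
      · exact e
      · exact absurd (o3 a ξ ha e).1 (by omega)
      · exact absurd e (order4 hW hM h ha)
    exact engine hW hM h h2 (fun a b => s4 hW hM h) fun h4 => hJ (cpx_of_h4 hW hM h2 h4).nj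

theorem bound_all {n : ℕ} {W : Subgroup (GH n)} (h : IsIrredReflGroup W) : Bound W := by
  obtain ⟨g, hg⟩ := exists_std h
  exact (bound_cj g W).1 (bound_std hg)

end Pool.Agent.P.MP_97ea17_al.Geo
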