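import Pool.Agent.P.MP_97ea17_al.F.RDefs
import Pool.Agent.P.MP_97ea17_al.F.G1b

/-! The five-dimensional model. -/

namespace Pool.Agent.P.MP_97ea17_al.Geo

open scoped Quaternion Matrix

variable {g h : Matrix (Fin 2) (Fin 2) ℍ[ℝ]} {W : Subgroup (GH 2)}

namespace R1Aux

theorem hm00 (y : E5) : hm y 0 0 = (y 0 : ℍ[ℝ]) := rfl
theorem hm11 (y : E5) : hm y 1 1 = -(y 0 : ℍ[ℝ]) := rfl
theorem hm01r (y : E5) : (hm y 0 1).re = y 1 := rfl
theorem hm01i (y : E5) : (hm y 0 1).imI = y 2 := rfl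
theorem hm01j (y : E5) : (hm y 0 1).imJ = y 3 := rfl
theorem hm01k (y : E5) : (hm y 0 1).imK = y 4 := rfl
theorem hm10r (y : E5) : (hm y 1 0).re = y 1 := rfl
theorem hm10i (y : E5) : (hm y 1 0).imI = -y 2 := rfl
theorem hm10j (y : E5) : (hm y 1 0).imJ = -y 3 := rfl
theorem hm10k (y : E5) : (hm y 1 0).imK = -y 4 := rfl

theorem ext4 {A B : Matrix (Fin 2) (Fin 2) ℍ[ℝ]} (h1 : A 0 0 = B 0 0) (h2 : A 0 1 = B 0 1)
    (h3 : A 1 0 = B 1 0) (h4 : A 1 1 = B 1 1) : A = B := by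
  ext i j : 1
  fin_cases i <;> fin_cases j <;> assumption

end R1Aux

open R1Aux

attribute [local simp] hm00 hm11 hm01r hm01i hm01j hm01k hm10r hm10i hm10j hm10k

theorem uh_hm (y : E5) : uh (hm y) = y := by
  ext i; fin_cases i <;> simp [uh]

theorem hm_add (y z : E5) : hm (y + z) = hm y + hm z := by
  apply ext4 <;> ext <;> simp <;> ring

theorem hm_smul (c : ℝ) (y : E5) : hm (c • y) = c • hm y := by
  apply ext4 <;> ext <;> simp

theorem hm_neg (y : E5) : hm (-y) = -hm y := by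
  rw [← neg_one_smul ℝ y, hm_smul, neg_one_smul]

theorem hm_sub (y z : E5) : hm (y - z) = hm y - hm z := by
  rw [sub_eq_add_neg, hm_add, hm_neg, sub_eq_add_neg]

theorem hm_star (y : E5) : (hm y)ᴴ = hm y := by
  apply ext4 <;> ext <;> simp

theorem hm_cliff (y z : E5) : hm y * hm z + hm z * hm y = (2 * (y ⬝ᵥ z)) • 1 := by
  apply ext4 <;> ext <;> simp [Matrix.mul_apply, dotProduct, Fin.sum_univ_five] <;> ring

theorem hm_sq (y : E5) : hm y * hm y = (y ⬝ᵥ y) • 1 := by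
  have h := hm_cliff y y
  rw [← two_smul ℝ, mul_smul] at h
  exact smul_right_injective _ (two_ne_zero' ℝ) h

theorem hm_isU {y : E5} (hy : y ⬝ᵥ y = 1) : IsU (hm y) := by
  rw [IsU, hm_star, hm_sq, hy, one_smul]

namespace R1Aux

/-- The real part of the trace. -/
def tr (M : Matrix (Fin 2) (Fin 2) ℍ[ℝ]) : ℝ := (M 0 0).re + (M 1 1).re

theorem tr_comm (A B : Matrix (Fin 2) (Fin 2) ℍ[ℝ]) : tr (A * B) = tr (B * A) := by
  simp [tr, Matrix.mul_apply]; ring

theorem tr_hm (y : E5) : tr (hm y) = 0 := by simp [tr]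

theorem tr_hm_mul (y z : E5) : tr (hm y * hm z) = 2 * (y ⬝ᵥ z) := by
  simp [tr, Matrix.mul_apply, dotProduct, Fin.sum_univ_five]; ring

theorem hm_uh {M : Matrix (Fin 2) (Fin 2) ℍ[ℝ]} (h1 : Mᴴ = M) (h2 : tr M = 0) : hm (uh M) = M := by
  have e := fun i j => congrFun (congrFun h1 i) j
  have a := e 0 0
  have b := e 1 0
  have c := e 1 1
  simp only [Matrix.conjTranspose_apply, Quaternion.ext_iff, Quaternion.re_star,
    Quaternion.imI_star, Quaternion.imJ_star, Quaternion.imK_star] at a b c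
  unfold tr at h2
  apply ext4 <;> ext <;> simp [uh] <;> linarith [a.1, a.2.1, a.2.2.1, a.2.2.2,
    b.1, b.2.1, b.2.2.1, b.2.2.2, c.1, c.2.1, c.2.2.1, c.2.2.2]

theorem uh_add (A B : Matrix (Fin 2) (Fin 2) ℍ[ℝ]) : uh (A + B) = uh A + uh B := by
  ext i; fin_cases i <;> simp [uh]

theorem uh_smul (c : ℝ) (A : Matrix (Fin 2) (Fin 2) ℍ[ℝ]) : uh (c • A) = c • uh A := by
  ext i; fin_cases i <;> simp [uh]

theorem hm_inj {y z : E5} (h : hm y = hm z) : y = z := by rw [← uh_hm y, h, uh_hm]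

end R1Aux

theorem hm_rho (hg : IsU g) (y : E5) : hm (rho g y) = g * hm y * gᴴ := by
  refine hm_uh ?_ ?_
  · rw [Matrix.conjTranspose_mul, Matrix.conjTranspose_mul, Matrix.conjTranspose_conjTranspose,
      hm_star, mul_assoc]
  · rw [tr_comm, ← mul_assoc, hg, one_mul, tr_hm]

theorem rho_add (g : Matrix (Fin 2) (Fin 2) ℍ[ℝ]) (y z : E5) :
    rho g (y + z) = rho g y + rho g z := by
  rw [rho, hm_add, mul_add, add_mul, uh_add, rho, rho]

theorem rho_smul (g : Matrix (Fin 2) (Fin 2) ℍ[ℝ]) (c : ℝ) (y : E5) :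
    rho g (c • y) = c • rho g y := by
  rw [rho, hm_smul, mul_smul_comm, smul_mul_assoc, uh_smul, rho]

/-- The action as a linear map. -/
noncomputable def rhoL (g : Matrix (Fin 2) (Fin 2) ℍ[ℝ]) : Module.End ℝ E5 :=
  ⟨⟨rho g, rho_add g⟩, rho_smul g⟩

theorem rhoL_apply (g : Matrix (Fin 2) (Fin 2) ℍ[ℝ]) (y : E5) : rhoL g y = rho g y := rfl

theorem rho_one (y : E5) : rho 1 y = y := by
  rw [rho, Matrix.conjTranspose_one, one_mul, mul_one, uh_hm]

theorem rho_mul (hh : IsU h) (y : E5) : rho (g * h) y = rho g (rho h y) := by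
  rw [rho, rho, hm_rho hh, Matrix.conjTranspose_mul]
  simp only [mul_assoc]

theorem rho_neg (g : Matrix (Fin 2) (Fin 2) ℍ[ℝ]) (y : E5) : rho (-g) y = rho g y := by
  rw [rho, rho, Matrix.conjTranspose_neg, neg_mul, neg_mul_neg]

theorem rho_dot (hg : IsU g) (y z : E5) : rho g y ⬝ᵥ rho g z = y ⬝ᵥ z := by
  have h := tr_hm_mul (rho g y) (rho g z)
  have e : g * hm y * gᴴ * (g * hm z * gᴴ) = g * (hm y * hm z * gᴴ) := by
    calc _ = g * hm y * (gᴴ * g) * hm z * gᴴ := by simp only [mul_assoc]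
      _ = _ := by rw [hg]; simp only [mul_assoc, one_mul]
  rw [hm_rho hg, hm_rho hg, e, tr_comm, mul_assoc, hg, mul_one, tr_hm_mul] at h
  linarith

theorem rho_hm {y : E5} (hy : y ⬝ᵥ y = 1) (z : E5) : rho (hm y) z = (2 * (y ⬝ᵥ z)) • y - z := by
  apply hm_inj
  rw [hm_rho (hm_isU hy), hm_star, hm_sub, hm_smul, eq_sub_of_add_eq (hm_cliff y z), _root_.sub_mul,
    mul_assoc, hm_sq, hy, one_smul, mul_one, smul_mul_assoc, one_mul]

namespace R1Aux

theorem scalar_of_comm {k : Matrix (Fin 2) (Fin 2) ℍ[ℝ]} (h : ∀ y, k * hm y = hm y * k) :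
    ∃ c : ℝ, k = c • 1 := by
  have e := fun (l : Fin 5) i j => congrFun (congrFun (h (Pi.single l 1)) i) j
  have a := e 0 0 1
  have b := e 0 1 0
  have c := e 1 0 1
  have d := e 2 0 1
  have f := e 3 0 1
  simp [Matrix.mul_apply, Quaternion.ext_iff] at a b c d f
  refine ⟨(k 0 0).re, ?_⟩
  apply ext4 <;> ext <;> simp <;> linarith [a.1, a.2.1, a.2.2.1, a.2.2.2,
    b.1, b.2.1, b.2.2.1, b.2.2.2, c.1, c.2.1, c.2.2.1, c.2.2.2, d.1, d.2.1, d.2.2.1, d.2.2.2,
    f.1, f.2.1, f.2.2.1, f.2.2.2]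

theorem isU_star (hg : IsU g) : IsU gᴴ := by
  rw [IsU, Matrix.conjTranspose_conjTranspose, hg.mul_star]

theorem sq_of_isU {c : ℝ} (h : IsU (c • (1 : Matrix (Fin 2) (Fin 2) ℍ[ℝ]))) : c * c = 1 := by
  have := congrArg QuaternionAlgebra.re (congrFun (congrFun h 0) 0)
  simpa [Matrix.mul_apply] using this

theorem expand5 {ε : Fin 5 → E5} (hε : ∀ i j, ε i ⬝ᵥ ε j = if i = j then 1 else 0) (y : E5) :
    y = ∑ i, (ε i ⬝ᵥ y) • ε i := by
  have h1 : Matrix.of ε * (Matrix.of ε)ᵀ = 1 := by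
    ext i j
    rw [Matrix.one_apply, ← hε]
    rfl
  have h2 := congrArg (· *ᵥ y) (mul_eq_one_comm.1 h1)
  simp only [← Matrix.mulVec_mulVec, Matrix.one_mulVec] at h2
  ext k
  conv_lhs => rw [← h2]
  simp [Matrix.mulVec, dotProduct, mul_comm]

theorem comm5 {R : Type} [Ring R] (a : Fin 5 → R) (h : ∀ i j, i ≠ j → a i * a j = -(a j * a i))
    (i : Fin 5) : a 0 * a 1 * a 2 * a 3 * a 4 * a i = a i * (a 0 * a 1 * a 2 * a 3 * a 4) := by
  have h' : ∀ i j, i ≠ j → ∀ x, a i * (a j * x) = -(a j * (a i * x)) := fun i j e x => by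
    rw [← mul_assoc, h i j e, neg_mul, mul_assoc]
  have e40 := h 4 0 (by decide)
  have e41 := h 4 1 (by decide)
  have e42 := h 4 2 (by decide)
  have e43 := h 4 3 (by decide)
  have f10 := h' 1 0 (by decide)
  have f20 := h' 2 0 (by decide)
  have f30 := h' 3 0 (by decide)
  have f40 := h' 4 0 (by decide)
  have f21 := h' 2 1 (by decide)
  have f31 := h' 3 1 (by decide)
  have f41 := h' 4 1 (by decide)
  have f32 := h' 3 2 (by decide)
  have f42 := h' 4 2 (by decide)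
  have f43 := h' 4 3 (by decide)
  fin_cases i <;>
    simp only [Fin.zero_eta, Fin.mk_one, Fin.reduceFinMk, mul_assoc, mul_neg, neg_neg,
      e40, e41, e42, e43, f10, f20, f30, f40, f21, f31, f41, f32, f42, f43]

theorem hm_sum (c : Fin 5 → ℝ) (ε : Fin 5 → E5) :
    hm (∑ i, c i • ε i) = ∑ i, c i • hm (ε i) := by
  simp only [Fin.sum_univ_five, hm_add, hm_smul]

end R1Aux

theorem eq_of_rho_eq (hg : IsU g) (hh : IsU h) (e : ∀ y, rho g y = rho h y) : g = h ∨ g = -h := by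
  obtain ⟨c, hc⟩ := scalar_of_comm (k := hᴴ * g) fun y => by
    have e1 := congrArg hm (e y)
    rw [hm_rho hg, hm_rho hh] at e1
    calc _ = hᴴ * (g * hm y * gᴴ) * g := by
          simp only [mul_assoc]; rw [hg, mul_one]
      _ = _ := by
          rw [e1]; simp only [← mul_assoc]; rw [hh, one_mul]
  have h1 : c * c = 1 := sq_of_isU (hc ▸ (isU_star hh).mul hg)
  have h2 : g = c • h := by
    rw [← one_mul g, ← hh.mul_star, mul_assoc, hc, mul_smul_comm, mul_one]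
  rcases mul_self_eq_one_iff.1 h1 with h3 | h3
  · left; rw [h2, h3, one_smul]
  · right; rw [h2, h3, neg_one_smul]

/-- The number of sign changes is even. -/
theorem sign_even (hg : IsU g) {ε : Fin 5 → E5}
    (hε : ∀ i j, ε i ⬝ᵥ ε j = if i = j then 1 else 0) {s : Fin 5 → ℝ}
    (hs : ∀ i, rho g (ε i) = s i • ε i) : ∏ i, s i = 1 := by
  have hu : ∀ i, IsU (hm (ε i)) := fun i => hm_isU (by rw [hε, if_pos rfl])
  obtain ⟨c, hc⟩ := scalar_of_comm
    (k := hm (ε 0) * hm (ε 1) * hm (ε 2) * hm (ε 3) * hm (ε 4)) fun y => by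
    rw [expand5 hε y, hm_sum, Finset.mul_sum, Finset.sum_mul]
    refine Finset.sum_congr rfl fun i _ => ?_
    rw [mul_smul_comm, smul_mul_assoc, comm5 (fun i => hm (ε i)) fun i j e => ?_]
    have := hm_cliff (ε i) (ε j)
    rw [hε, if_neg e, mul_zero, zero_smul] at this
    exact eq_neg_of_add_eq_zero_left this
  have h1 : c * c = 1 := sq_of_isU (hc ▸ ((((hu 0).mul (hu 1)).mul (hu 2)).mul (hu 3)).mul (hu 4))
  have h2 : ∀ i x, g * (hm (ε i) * x) = s i • (hm (ε i) * (g * x)) := fun i x => by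
    have := congrArg hm (hs i)
    rw [hm_rho hg, hm_smul] at this
    rw [← smul_mul_assoc, ← this]
    simp only [mul_assoc]
    rw [← mul_assoc gᴴ, hg, one_mul]
  have h3 := congrArg (fun x => g * (x * gᴴ)) hc
  simp only [mul_assoc, h2, mul_smul_comm, smul_smul, smul_mul_assoc, one_mul, hg.mul_star,
    mul_one] at h3
  simp only [← mul_assoc] at h3
  rw [hc, smul_smul] at h3
  have h4 := congrArg QuaternionAlgebra.re (congrFun (congrFun h3 0) 0)
  simp only [Matrix.smul_apply, Matrix.one_apply_eq, Quaternion.re_smul, Quaternion.re_one,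
    smul_eq_mul, mul_one] at h4
  rw [Fin.prod_univ_five]
  linear_combination c * h4 + (1 - s 0 * s 1 * s 2 * s 3 * s 4) * h1

theorem rho_ne_neg (hg : IsU g) : ¬ ∀ y, rho g y = -y := by
  intro h
  have := sign_even hg (ε := fun i => Pi.single i 1) (s := fun _ => -1)
    (fun i j => by simp [Pi.single_apply, eq_comm]) fun i => by rw [h, neg_one_smul]
  norm_num at this

namespace R1Aux

/-- The matrix `a a*`. -/
noncomputable def pr (a : V 2) : Matrix (Fin 2) (Fin 2) ℍ[ℝ] := Matrix.of fun i j => a i * star (a j)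

theorem hm_pt5 (a : V 2) : hm (pt5 a) = (2 : ℝ) • pr a - nq a • 1 := by
  refine hm_uh ?_ ?_
  · apply ext4 <;> ext <;> simp
  · simp [tr, nq, Quaternion.normSq_def']
    ring

theorem pr_mulVec (g : Matrix (Fin 2) (Fin 2) ℍ[ℝ]) (a : V 2) : pr (g *ᵥ a) = g * pr a * gᴴ := by
  ext i j : 1
  simp [pr, Matrix.mul_apply, Matrix.mulVec, dotProduct, add_mul, mul_add, mul_assoc]

theorem tt_self (a : V 2) : tt a a = nq a * nq a := by
  rw [tt, ip_self, Quaternion.normSq_coe, sq]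

end R1Aux

theorem pt5_dot (a b : V 2) : pt5 a ⬝ᵥ pt5 b = 2 * tt a b - nq a * nq b := by
  simp [pt5, uh, tt, ip, nq, dotProduct, Fin.sum_univ_five, Quaternion.normSq_def']
  ring

theorem pt5_rs (a : V 2) (q : ℍ[ℝ]) : pt5 (rs a q) = Quaternion.normSq q • pt5 a := by
  have h : pr (rs a q) = Quaternion.normSq q • pr a := by
    ext i j : 1
    simp only [pr, rs, Matrix.of_apply, Matrix.smul_apply, star_mul]
    rw [mul_assoc, ← mul_assoc q, Quaternion.self_mul_star, Quaternion.coe_mul_eq_smul,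
      mul_smul_comm]
  apply hm_inj
  rw [hm_smul, hm_pt5, hm_pt5, h, nq_rs, smul_sub, smul_comm, mul_comm, mul_smul]

theorem rho_pt5 (hg : IsU g) (a : V 2) : rho g (pt5 a) = pt5 (g *ᵥ a) := by
  apply hm_inj
  rw [hm_rho hg, hm_pt5, hm_pt5, pr_mulVec, hg.nq, mul_sub, _root_.sub_mul, mul_smul_comm,
    mul_smul_comm, smul_mul_assoc, smul_mul_assoc, mul_one, hg.mul_star]

theorem exists_pt5 {y : E5} (hy : y ⬝ᵥ y = 1) : ∃ a, nq a = 1 ∧ pt5 a = y := by
  simp only [dotProduct, Fin.sum_univ_five] at hy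
  by_cases h0 : y 0 = -1
  · have h1 : y 1 = 0 := by nlinarith [sq_nonneg (y 1), sq_nonneg (y 2), sq_nonneg (y 3), sq_nonneg (y 4)]
    have h2 : y 2 = 0 := by nlinarith [sq_nonneg (y 1), sq_nonneg (y 2), sq_nonneg (y 3), sq_nonneg (y 4)]
    have h3 : y 3 = 0 := by nlinarith [sq_nonneg (y 1), sq_nonneg (y 2), sq_nonneg (y 3), sq_nonneg (y 4)]
    have h4 : y 4 = 0 := by nlinarith [sq_nonneg (y 1), sq_nonneg (y 2), sq_nonneg (y 3), sq_nonneg (y 4)]
    refine ⟨![0, 1], by simp [nq], ?_⟩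
    ext i
    fin_cases i <;> simp [pt5, uh, nq, h0, h1, h2, h3, h4]
  · have h1 : 0 < (1 + y 0) / 2 := by
      have : -1 ≤ y 0 := by
        nlinarith [sq_nonneg (y 1), sq_nonneg (y 2), sq_nonneg (y 3), sq_nonneg (y 4)]
      have := lt_of_le_of_ne this (Ne.symm h0)
      linarith
    obtain ⟨r, hr, e⟩ : ∃ r : ℝ, 0 < r ∧ r * r = (1 + y 0) / 2 :=
      ⟨√((1 + y 0) / 2), Real.sqrt_pos.2 h1, Real.mul_self_sqrt h1.le⟩
    have hn : nq ![(r : ℍ[ℝ]), (2 * r)⁻¹ • hm y 1 0] = 1 := by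
      simp [nq, Quaternion.normSq_def']
      field_simp
      linear_combination (4 * r ^ 2 + 2 * y 0 - 2) * e + hy
    refine ⟨_, hn, ?_⟩
    rw [pt5, hn]
    ext i
    fin_cases i <;> simp [uh] <;> field_simp
    linarith

theorem reflMat_neg_one {a : V 2} (ha : a ≠ 0) :
    reflMat a (-1) = -hm ((nq a)⁻¹ • pt5 a) := by
  rw [hm_smul, hm_pt5, smul_sub, smul_smul _ (nq a), inv_mul_cancel₀ (nq_pos ha).ne', one_smul,
    neg_sub, reflMat]
  congr 1
  ext i j : 1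
  simp only [pr, nq, Matrix.of_apply, Matrix.smul_apply, sub_neg_eq_add, mul_add, mul_one, add_mul,
    two_smul, Matrix.add_apply]

theorem rho_refl_dot {a : V 2} (ha : nq a = 1) {ξ : ℍ[ℝ]} (hξ : Quaternion.normSq ξ = 1)
    (v : E5) : rho (reflMat a ξ) v ⬝ᵥ v =
      (pt5 a ⬝ᵥ v) ^ 2 + ξ.re * (v ⬝ᵥ v - (pt5 a ⬝ᵥ v) ^ 2) := by
  have hp : pt5 a ⬝ᵥ pt5 a = 1 := by rw [pt5_dot, tt_self, ha]; norm_num
  obtain ⟨b, hb, hab⟩ := exists_orth (n := 2) (r := 1) (by norm_num) ![a]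
  have hab' : ip a b = 0 := hab 0
  have hf : ON ![a, b] := by
    intro i j
    fin_cases i <;> fin_cases j <;> simp [ip_self, ha, hb, hab', ip_eq_zero_comm.1 hab']
  obtain ⟨k, hk, hk'⟩ := hf.exists_GL
  have e1 : k.val *ᵥ ![1, 0] = a := by
    rw [hk']; simp [vec, rs_one, rs_zero]
  have e2 : rho k.val (rho k.valᴴ v) = v := by
    rw [← rho_mul (isU_star hk), hk.mul_star, rho_one]
  have hn : nq (![1, 0] : V 2) = 1 := by simp [nq]
  have e3 : reflMat (![1, 0] : V 2) ξ = Matrix.diagonal ![ξ, 1] := by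
    apply ext4 <;> simp [reflMat]
  rw [← e2, ← e1, ← rho_mul hk, reflMat_conj hk,
    rho_mul (reflMat_isU (by rw [hn]; exact one_ne_zero) hξ), ← rho_pt5 hk, rho_dot hk, rho_dot hk,
    rho_dot hk, e3]
  generalize rho k.valᴴ v = u
  rw [Quaternion.normSq_def'] at hξ
  simp [rho, pt5, uh, hn, dotProduct, Fin.sum_univ_five, Matrix.mul_apply]
  linear_combination (u 0) ^ 2 * hξ

namespace R1Aux

theorem exists_unit5 {x : E5} (hx : x ≠ 0) : ∃ c : ℝ, c ≠ 0 ∧ (c • x) ⬝ᵥ (c • x) = 1 := by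
  have h : 0 < x ⬝ᵥ x := by
    have h1 : 0 ≤ x ⬝ᵥ x := Finset.sum_nonneg fun i _ => mul_self_nonneg _
    exact h1.lt_of_ne fun e => hx (dotProduct_self_eq_zero.1 e.symm)
  refine ⟨(√(x ⬝ᵥ x))⁻¹, by positivity, ?_⟩
  rw [smul_dotProduct, dotProduct_smul, smul_eq_mul, smul_eq_mul, ← mul_assoc, ← mul_inv,
    Real.mul_self_sqrt h.le, inv_mul_cancel₀ h.ne']

theorem lift_fin {ι : Type} (y z : ι → E5) (h : ∀ i j, y i ⬝ᵥ y j = z i ⬝ᵥ z j) (s : Finset ι) :
    ∃ (g : Matrix (Fin 2) (Fin 2) ℍ[ℝ]) (σ : ℝ), IsU g ∧ σ * σ = 1 ∧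
      ∀ i ∈ s, rho g (y i) = σ • z i := by
  classical
  induction s using Finset.induction_on with
  | empty => exact ⟨1, 1, by simp [IsU], by simp, by simp⟩
  | insert i s _ ih =>
    obtain ⟨g, σ, hg, hσ, e⟩ := ih
    have hz : ∀ j k, (σ • z j) ⬝ᵥ (σ • z k) = y j ⬝ᵥ y k := fun j k => by
      rw [smul_dotProduct, dotProduct_smul, smul_eq_mul, smul_eq_mul, ← mul_assoc, hσ, one_mul, h]
    by_cases hi : rho g (y i) - σ • z i = 0
    · exact ⟨g, σ, hg, hσ, by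
        simpa only [Finset.forall_mem_insert] using ⟨sub_eq_zero.1 hi, e⟩⟩
    obtain ⟨c, -, hc⟩ := exists_unit5 hi
    refine ⟨hm (c • (rho g (y i) - σ • z i)) * g, -σ, (hm_isU hc).mul hg, by linarith, ?_⟩
    simp only [Finset.forall_mem_insert, rho_mul hg, rho_hm hc]
    refine ⟨?_, fun j hj => ?_⟩
    · have h1 := rho_dot hg (y i) (y i)
      have h2 := hz i i
      generalize rho g (y i) = u at *
      rw [neg_smul]
      generalize σ • z i = w at *
      have h3 : 2 * ((c • (u - w)) ⬝ᵥ u) * c = 1 := by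
        simp only [smul_dotProduct, dotProduct_smul, sub_dotProduct, dotProduct_sub,
          smul_eq_mul, dotProduct_comm w u] at hc ⊢
        linear_combination hc + c * c * (h1 - h2)
      rw [smul_smul, h3, one_smul]
      abel
    · have h1 : (rho g (y i) - σ • z i) ⬝ᵥ rho g (y j) = 0 := by
        rw [sub_dotProduct, rho_dot hg, e j hj, hz, sub_self]
      rw [smul_dotProduct, h1, smul_zero, mul_zero, zero_smul, zero_sub, e j hj, neg_smul]

theorem exists_orth5 {U : Submodule ℝ E5} (hU : U ≠ ⊤) : ∃ v : E5, v ≠ 0 ∧ ∀ u ∈ U, u ⬝ᵥ v = 0 := by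
  obtain ⟨f, hf, hf'⟩ := U.exists_le_ker_of_lt_top hU.lt_top
  have e : ∀ u : E5, u ⬝ᵥ (fun k => f (Pi.single k 1)) = f u := fun u => by
    conv_rhs => rw [pi_eq_sum_univ' u, map_sum]
    simp [dotProduct]
  refine ⟨fun k => f (Pi.single k 1), fun h0 => hf ?_, fun u hu => (e u).trans (hf' hu)⟩
  refine LinearMap.ext fun u => ?_
  rw [← e, h0, dotProduct_zero, LinearMap.zero_apply]

theorem rho_star_rho (hg : IsU g) (v : E5) : rho gᴴ (rho g v) = v := by
  rw [← rho_mul hg, hg, rho_one]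

theorem rho_rho_star (hg : IsU g) (v : E5) : rho g (rho gᴴ v) = v := by
  rw [← rho_mul (isU_star hg), hg.mul_star, rho_one]

end R1Aux

/-- Families with the same Gram matrix, one of which spans. -/
theorem exists_lift_gram {ι : Type} (y z : ι → E5) (h : ∀ i j, y i ⬝ᵥ y j = z i ⬝ᵥ z j)
    (hs : ∀ v, (∀ i, y i ⬝ᵥ v = 0) → v = 0) :
    ∃ g : GH 2, IsU g.val ∧ ((∀ i, rho g.val (y i) = z i) ∨ ∀ i, rho g.val (y i) = -z i) := by
  classical
  have h1 : Submodule.span ℝ (Set.range y) = ⊤ := by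
    by_contra h0
    obtain ⟨v, hv, hv'⟩ := exists_orth5 h0
    exact hv (hs v fun i => hv' _ (Submodule.subset_span ⟨i, rfl⟩))
  have h2 : ∀ k : Fin 5, ∃ c : ι →₀ ℝ, (c.sum fun i a => a • y i) = Pi.single k 1 := fun k =>
    Finsupp.mem_span_range_iff_exists_finsupp.1 (h1 ▸ Submodule.mem_top)
  choose c hc using h2
  obtain ⟨g, σ, hg, hσ, e⟩ := lift_fin y z h (Finset.univ.biUnion fun k => (c k).support)
  have h3 : ∀ i, rho g (y i) = σ • z i := fun i => by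
    have h4 : rho gᴴ (rho g (y i) - σ • z i) = 0 := by
      ext k
      rw [← single_one_dotProduct k (rho _ _), ← hc, Finsupp.sum, sum_dotProduct]
      refine Finset.sum_eq_zero fun j hj => ?_
      have hj' := e j (Finset.mem_biUnion.2 ⟨k, Finset.mem_univ _, hj⟩)
      rw [smul_dotProduct, ← rho_dot hg, rho_rho_star hg, dotProduct_sub, rho_dot hg, hj',
        smul_dotProduct, dotProduct_smul, smul_smul, hσ, one_smul, h, sub_self, smul_zero]
    rw [← sub_eq_zero, ← rho_rho_star hg (_ - _), h4]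
    exact map_zero (rhoL g)
  obtain ⟨w, rfl⟩ := hg.exists_GL
  refine ⟨w, hg, ?_⟩
  rcases mul_self_eq_one_iff.1 hσ with rfl | rfl
  · exact Or.inl fun i => by rw [h3, one_smul]
  · exact Or.inr fun i => by rw [h3, neg_one_smul]

theorem exists_lift (A : Module.End ℝ E5) (hA : ∀ y z, A y ⬝ᵥ A z = y ⬝ᵥ z) :
    ∃ g : GH 2, IsU g.val ∧ ((∀ y, rho g.val y = A y) ∨ ∀ y, rho g.val y = -A y) :=
  exists_lift_gram (fun y => y) A (fun y z => (hA y z).symm) fun v hv =>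
    dotProduct_self_eq_zero.1 (hv v)

namespace R1Aux

theorem rs_of_pt5 {a b : V 2} (ha : nq a = 1) (hb : nq b = 1) (h : pt5 b = pt5 a) :
    ∃ q, b = rs a q := by
  have h1 := pt5_dot a b
  rw [h, pt5_dot, tt_self, ha, hb] at h1
  exact ⟨_, eq_rs_of_tt (by rw [ha]; exact one_ne_zero) (by rw [ha, hb]; linarith)⟩

theorem line_case (hW : Std W) {y : E5} (hy : y ⬝ᵥ y = 1)
    (h : ∀ w ∈ W, rho w.val y - (y ⬝ᵥ rho w.val y) • y = 0) : Mono W := by
  obtain ⟨a, ha, ea⟩ := exists_pt5 hy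
  obtain ⟨b, hb, eb⟩ := exists_pt5 (y := -y) (by rw [neg_dotProduct_neg, hy])
  have hab : ip a b = 0 := by
    have := pt5_dot a b
    rw [ea, eb, dotProduct_neg, hy, ha, hb] at this
    exact tt_eq_zero.1 (by linarith)
  refine ⟨![a, b], fun i j => ?_, fun w hw => ?_⟩
  · fin_cases i <;> fin_cases j <;> simp [ip_self, ha, hb, hab, ip_eq_zero_comm.1 hab]
  have hu := hW.uni w hw
  have h1 := sub_eq_zero.1 (h w hw)
  generalize y ⬝ᵥ rho w.val y = c at h1
  have h2 := rho_dot hu y y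
  rw [h1, smul_dotProduct, dotProduct_smul, hy, smul_eq_mul, smul_eq_mul, mul_one] at h2
  have h3 : pt5 (w.val *ᵥ a) = c • y := by rw [← rho_pt5 hu, ea, h1]
  have h4 : pt5 (w.val *ᵥ b) = -(c • y) := by
    rw [← rho_pt5 hu, eb, ← h1]; exact map_neg (rhoL w.val) y
  have ha' := (hu.nq a).trans ha
  have hb' := (hu.nq b).trans hb
  rw [Fin.forall_fin_two]
  rcases mul_self_eq_one_iff.1 h2 with rfl | rfl
  · rw [one_smul] at h3 h4
    exact ⟨⟨0, rs_of_pt5 ha ha' (h3.trans ea.symm)⟩, ⟨1, rs_of_pt5 hb hb' (h4.trans eb.symm)⟩⟩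
  · rw [neg_one_smul] at h3 h4
    rw [neg_neg] at h4
    exact ⟨⟨1, rs_of_pt5 hb ha' (h3.trans eb.symm)⟩, ⟨0, rs_of_pt5 ha hb' (h4.trans ea.symm)⟩⟩

theorem anti {y z : E5} (h : y ⬝ᵥ z = 0) : hm z * hm y = -(hm y * hm z) := by
  have := hm_cliff y z
  rw [h, mul_zero, zero_smul] at this
  exact eq_neg_of_add_eq_zero_right this

theorem sq_neg {y z : E5} (hy : y ⬝ᵥ y = 1) (hz : z ⬝ᵥ z = 1) (h : y ⬝ᵥ z = 0) :
    hm y * hm z * (hm y * hm z) = -1 := by
  rw [mul_assoc, ← mul_assoc (hm z), anti h, neg_mul, mul_assoc, hm_sq, hz, one_smul, mul_one,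
    mul_neg, hm_sq, hy, one_smul]

theorem plane_mul {R : Type} [Ring R] [Algebra ℝ R] {Y Z : R} (hY : Y * Y = 1) (hZ : Z * Z = 1)
    (h : Z * Y = -(Y * Z)) {α β γ δ : ℝ} (e : α * γ + β * δ = 0) :
    (α • Y + β • Z) * (γ • Y + δ • Z) = (α * δ - β * γ) • (Y * Z) := by
  simp only [add_mul, mul_add, smul_mul_assoc, mul_smul_comm, hY, hZ, h]
  linear_combination (norm := module) e • (1 : R)

theorem plane_case (hW : Std W) {y z : E5} (hy : y ⬝ᵥ y = 1) (hz : z ⬝ᵥ z = 1) (h : y ⬝ᵥ z = 0)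
    (h1 : ∀ w ∈ W, ∀ x, x = y ∨ x = z →
      rho w.val x - (y ⬝ᵥ rho w.val x) • y - (z ⬝ᵥ rho w.val x) • z = 0) : NJ W := by
  refine ⟨hm y * hm z, (hm_isU hy).mul (hm_isU hz), sq_neg hy hz h, fun w hw => ?_⟩
  have hu := hW.uni w hw
  have e1 := h1 w hw y (Or.inl rfl)
  have e2 := h1 w hw z (Or.inr rfl)
  rw [sub_sub, sub_eq_zero] at e1 e2
  generalize y ⬝ᵥ rho w.val y = α, z ⬝ᵥ rho w.val y = β at e1
  generalize y ⬝ᵥ rho w.val z = γ, z ⬝ᵥ rho w.val z = δ at e2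
  have d1 := rho_dot hu y y
  have d2 := rho_dot hu z z
  have d3 := rho_dot hu y z
  simp only [e1, e2, add_dotProduct, dotProduct_add, smul_dotProduct, dotProduct_smul, hy, hz, h,
    dotProduct_comm z y, smul_eq_mul] at d1 d2 d3
  have e3 : w.val * (hm y * hm z) = hm (rho w.val y) * hm (rho w.val z) * w.val := by
    rw [hm_rho hu, hm_rho hu]
    simp only [mul_assoc]
    rw [hu, mul_one, ← mul_assoc w.valᴴ, hu, one_mul]
  have e4 : hm (rho w.val y) * hm (rho w.val z) = (α * δ - β * γ) • (hm y * hm z) := by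
    rw [e1, e2, hm_add, hm_add, hm_smul, hm_smul, hm_smul, hm_smul]
    exact plane_mul (by rw [hm_sq, hy, one_smul]) (by rw [hm_sq, hz, one_smul]) (anti h)
      (by linarith)
  have e5 : (α * δ - β * γ) * (α * δ - β * γ) = 1 := by
    linear_combination (γ * γ + δ * δ) * d1 + d2 - (α * γ + β * δ) * d3
  rw [e3, e4]
  rcases mul_self_eq_one_iff.1 e5 with e | e
  · left; rw [e, one_smul]
  · right; rw [e, neg_one_smul, neg_mul]

theorem three (hW : Std W) (hM : ¬ Mono W) (hJ : ¬ NJ W) {U : Submodule ℝ E5}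
    (hU : ∀ w ∈ W, ∀ y ∈ U, rho w.val y ∈ U) {x : E5} (hx : x ∈ U) (h0 : x ≠ 0) :
    ∃ y ∈ U, ∃ z ∈ U, ∃ t ∈ U, y ⬝ᵥ y = 1 ∧ z ⬝ᵥ z = 1 ∧ t ⬝ᵥ t = 1 ∧ y ⬝ᵥ z = 0 ∧ y ⬝ᵥ t = 0 ∧
      z ⬝ᵥ t = 0 := by
  obtain ⟨c, -, hy⟩ := exists_unit5 h0
  have hyU := U.smul_mem c hx
  generalize c • x = y at hy hyU
  have h1 := mt (line_case hW hy) hM
  push Not at h1
  obtain ⟨w, hw, h1⟩ := h1
  obtain ⟨d, -, hz⟩ := exists_unit5 h1
  have hzU := U.smul_mem d (U.sub_mem (hU w hw y hyU) (U.smul_mem (y ⬝ᵥ rho w.val y) hyU))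
  have hyz : y ⬝ᵥ (d • (rho w.val y - (y ⬝ᵥ rho w.val y) • y)) = 0 := by
    simp [hy]
  generalize d • (rho w.val y - (y ⬝ᵥ rho w.val y) • y) = z at hz hzU hyz
  have h2 := mt (plane_case hW hy hz hyz) hJ
  push Not at h2
  obtain ⟨v, hv, s, hs, h2⟩ := h2
  obtain ⟨e, -, ht⟩ := exists_unit5 h2
  have hsU : s ∈ U := by rcases hs with rfl | rfl <;> assumption
  refine ⟨y, hyU, z, hzU, _, U.smul_mem e (U.sub_mem (U.sub_mem (hU v hv s hsU)
    (U.smul_mem _ hyU)) (U.smul_mem _ hzU)), hy, hz, ht, hyz, ?_, ?_⟩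
  · simp [hy, hyz]
  · simp [hz, dotProduct_comm z y, hyz]

end R1Aux

theorem irr5 (hW : Std W) (hM : ¬ Mono W) (hJ : ¬ NJ W) : Irr5 W := by
  intro U hU
  by_contra hne
  push Not at hne
  obtain ⟨x, hx, h0⟩ := U.ne_bot_iff.1 hne.1
  obtain ⟨x', h0', hx'⟩ := exists_orth5 hne.2
  let U' : Submodule ℝ E5 :=
    { carrier := {v | ∀ u ∈ U, u ⬝ᵥ v = 0}
      add_mem' := fun ha hb u hu => by rw [dotProduct_add, ha u hu, hb u hu, add_zero]
      zero_mem' := fun u _ => dotProduct_zero u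
      smul_mem' := fun c v hv u hu => by rw [dotProduct_smul, hv u hu, smul_zero] }
  have hU' : ∀ w ∈ W, ∀ y ∈ U', rho w.val y ∈ U' := fun w hw v hv u hu => by
    have h1 := hW.uni w hw
    have h2 := hU w⁻¹ (W.inv_mem hw) u hu
    rw [h1.inv_val] at h2
    rw [← rho_rho_star h1 u, rho_dot h1]
    exact hv _ h2
  obtain ⟨y, hy, z, hz, t, ht, a1, a2, a3, a4, a5, a6⟩ := three hW hM hJ hU hx h0
  obtain ⟨y', hy', z', hz', t', ht', b1, b2, b3, b4, b5, b6⟩ := three hW hM hJ hU' (x := x') hx' h0'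
  have h1 := expand5 (ε := ![y, z, t, y', z']) (fun i j => by
    fin_cases i <;> fin_cases j <;>
      simp [a1, a2, a3, a4, a5, a6, b1, b2, b4, hy' y hy, hy' z hz, hy' t ht, hz' y hy, hz' z hz,
        hz' t ht, dotProduct_comm z y, dotProduct_comm t y, dotProduct_comm t z,
        dotProduct_comm z' y', dotProduct_comm y' y, dotProduct_comm y' z, dotProduct_comm y' t,
        dotProduct_comm z' y, dotProduct_comm z' z, dotProduct_comm z' t]) t'
  simp [Fin.sum_univ_five, ht' y hy, ht' z hz, ht' t ht, b5, b6] at h1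
  simp [h1] at b3

theorem Phi.act (hW : Std W) {y : E5} (hy : Phi W y) {w : GH 2} (hw : w ∈ W) :
    Phi W (rho w.val y) := by
  obtain ⟨h1, r, hr, h2⟩ := hy
  have hu := hW.uni w hw
  refine ⟨(rho_dot hu y y).trans h1, w * r * w⁻¹, W.mul_mem (W.mul_mem hw hr) (W.inv_mem hw), ?_⟩
  rw [Units.val_mul, Units.val_mul, hu.inv_val, hm_rho hu]
  exact h2.imp (fun e => by rw [e]) fun e => by rw [e, mul_neg, neg_mul]

theorem Phi.neg {y : E5} (hy : Phi W y) : Phi W (-y) := by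
  obtain ⟨h1, r, hr, h2⟩ := hy
  refine ⟨by rw [neg_dotProduct_neg, h1], r, hr, ?_⟩
  rw [hm_neg, neg_neg]
  exact h2.symm

theorem Phi.of_rl {a : V 2} (ha : Rl W a (-1)) : Phi W (pt5 a) := by
  obtain ⟨h1, -, -, r, hr, h2⟩ := ha
  refine ⟨by rw [pt5_dot, tt_self, h1]; norm_num, r, hr, Or.inr ?_⟩
  rw [h2, reflMat_neg_one (nq_eq_zero.not.1 (by rw [h1]; exact one_ne_zero)), h1, inv_one, one_smul]

theorem neg_one_mem {y z : E5} (hy : Phi W y) (hz : Phi W z) (h : y ⬝ᵥ z = 0) : -1 ∈ W := by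
  obtain ⟨h1, r, hr, h2⟩ := hy
  obtain ⟨h3, s, hs, h4⟩ := hz
  have : r * s * (r * s) = -1 := by
    apply Units.ext
    rw [Units.val_mul, Units.val_mul, Units.val_neg, Units.val_one, ← sq_neg h1 h3 h]
    rcases h2 with e | e <;> rcases h4 with f | f <;> simp [e, f]
  exact this ▸ W.mul_mem (W.mul_mem hr hs) (W.mul_mem hr hs)

theorem phi_cj {k : GH 2} (hk : IsU k.val) {y : E5} :
    Phi (cj k W) (rho k.val y) ↔ Phi W y := by
  have e : k.valᴴ * (k.val * hm y * k.valᴴ) * k.val = hm y := by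
    simp only [mul_assoc]
    rw [hk, mul_one, ← mul_assoc, hk, one_mul]
  unfold Phi
  rw [rho_dot hk, hm_rho hk]
  refine and_congr_right fun _ => ⟨?_, ?_⟩
  · rintro ⟨w, hw, h⟩
    refine ⟨_, mem_cj.1 hw, ?_⟩
    rw [Units.val_mul, Units.val_mul, hk.inv_val]
    exact h.imp (fun f => by rw [f, e]) fun f => by rw [f, mul_neg, neg_mul, e]
  · rintro ⟨w, hw, h⟩
    refine ⟨k * w * k⁻¹, mem_cj.2 (by simpa [mul_assoc] using hw), ?_⟩
    rw [Units.val_mul, Units.val_mul, hk.inv_val]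
    exact h.imp (fun f => by rw [f]) fun f => by rw [f, mul_neg, neg_mul]

theorem Irr5.cj (h : Irr5 W) (hW : Std W) {k : GH 2} (hk : IsU k.val) : Irr5 (cj k W) := by
  intro U hU
  have h1 := h (U.comap (rhoL k.val)) fun w hw y hy => by
    rw [Submodule.mem_comap, rhoL_apply] at hy ⊢
    have h2 := hU (k * w * k⁻¹) (mem_cj.2 (by simpa [mul_assoc] using hw)) _ hy
    rw [← rho_mul hk, ← Units.val_mul, inv_mul_cancel_right, Units.val_mul,
      rho_mul (hW.uni w hw)] at h2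
    exact h2
  refine h1.imp (fun e => ?_) fun e => ?_
  · rw [eq_bot_iff]
    intro u hu
    have h3 : rho k.valᴴ u ∈ U.comap (rhoL k.val) := by
      rw [Submodule.mem_comap, rhoL_apply, rho_rho_star hk]; exact hu
    rw [e, Submodule.mem_bot] at h3
    rw [Submodule.mem_bot, ← rho_rho_star hk u, h3]
    exact map_zero (rhoL k.val)
  · rw [eq_top_iff]
    intro u _
    have h3 : rho k.valᴴ u ∈ U.comap (rhoL k.val) := e ▸ Submodule.mem_top
    rwa [Submodule.mem_comap, rhoL_apply, rho_rho_star hk] at h3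

end Pool.Agent.P.MP_97ea17_al.Geo
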