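import Pool.Agent.P.MP_97ea17_al.F.RDefs

/-! Simple systems of finite root systems in dimension five. -/

namespace Pool.Agent.P.MP_97ea17_al.Geo.R3Aux

open scoped Matrix
open Finset

/-- Membership in the cone spanned by a finite set. -/
def InCone (D : Finset E5) (x : E5) : Prop :=
  ∃ c : E5 → ℝ, (∀ v, 0 ≤ c v) ∧ x = ∑ v ∈ D, c v • v

theorem InCone.erase {D : Finset E5} {b x : E5} (hb : b ∈ D) (h1 : InCone (D.erase b) b)
    (h2 : InCone D x) : InCone (D.erase b) x := by
  obtain ⟨c, hc, e1⟩ := h1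
  obtain ⟨d, hd, e2⟩ := h2
  refine ⟨fun v => d v + d b * c v, fun v => add_nonneg (hd v) (mul_nonneg (hd b) (hc v)), ?_⟩
  rw [e2, ← Finset.add_sum_erase D _ hb]
  simp only [add_smul, Finset.sum_add_distrib, mul_smul]
  rw [← Finset.smul_sum, ← e1, add_comm]

theorem cone_f {D : Finset E5} (f : Module.Dual ℝ E5) (hD : ∀ v ∈ D, 0 < f v) {c : E5 → ℝ}
    (hc : ∀ v, 0 ≤ c v) : 0 ≤ f (∑ v ∈ D, c v • v) := by
  rw [map_sum]
  exact Finset.sum_nonneg fun v hv => by
    rw [map_smul]; exact mul_nonneg (hc v) (hD v hv).le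

/-- If `t • b` plus a cone element of the others equals `s • b` then `b` is redundant or the
relation is impossible. -/
theorem redundant {D : Finset E5} (f : Module.Dual ℝ E5) (hD : ∀ v ∈ D, 0 < f v) {a b : E5}
    (ha : a ∈ D) (hb : b ∈ D) (hab : a ≠ b) {s t : ℝ} (ht : 0 < t)
    (h : InCone D (s • b - t • a)) : InCone (D.erase b) b := by
  classical
  obtain ⟨c, hc, e⟩ := h
  rw [← Finset.add_sum_erase D _ hb] at e
  have ha' : a ∈ D.erase b := Finset.mem_erase.2 ⟨hab, ha⟩
  have key : (s - c b) • b = t • a + ∑ v ∈ D.erase b, c v • v := by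
    rw [_root_.sub_smul]
    have := e
    calc s • b - c b • b = (s • b - t • a) + t • a - c b • b := by abel
      _ = _ := by rw [this]; abel
  have hpos : 0 < s - c b := by
    have h1 := congrArg f key
    rw [map_smul, map_add, map_smul] at h1
    have h2 := cone_f f (D := D.erase b) (fun v hv => hD v (Finset.mem_of_mem_erase hv)) hc
    have h3 : 0 < t * f a := mul_pos ht (hD a ha)
    simp only [smul_eq_mul] at h1
    by_contra hn
    push Not at hn
    have := mul_nonpos_of_nonpos_of_nonneg hn (hD b hb).le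
    linarith
  refine ⟨fun v => (s - c b)⁻¹ * (c v + if v = a then t else 0), fun v => ?_, ?_⟩
  · refine mul_nonneg (inv_nonneg.2 hpos.le) (add_nonneg (hc v) ?_)
    split_ifs
    · exact ht.le
    · exact le_rfl
  · simp only [mul_smul, add_smul, ← Finset.smul_sum, Finset.sum_add_distrib, ite_smul, zero_smul,
      Finset.sum_ite_eq', ha', if_true]
    rw [add_comm, ← key, smul_smul, inv_mul_cancel₀ hpos.ne', one_smul]

/-- Simple systems. -/
structure Simple (Φ : E5 → Prop) (y : Fin 5 → E5) (f : Module.Dual ℝ E5) : Prop where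
  mem : ∀ i, Φ (y i)
  li : LinearIndependent ℝ y
  pos : ∀ i, 0 < f (y i)
  obt : ∀ i j, i ≠ j → y i ⬝ᵥ y j ≤ 0
  sgn : ∀ x, Φ x → ∃ c : Fin 5 → ℝ, x = ∑ i, c i • y i ∧ ((∀ i, 0 ≤ c i) ∨ ∀ i, c i ≤ 0)

theorem exists_simple {Φ : E5 → Prop} (h : RS5 Φ) (hc : Conn5 Φ) :
    ∃ y f, Simple Φ y f := by
  classical
  have hfin : Finite {y // Φ y} := h.fin.to_subtype
  obtain ⟨f, hf⟩ := Module.exists_dual_forall_apply_ne_zero (K := ℝ)
    (fun y : {y // Φ y} => y.1) (fun y hy => by
      have := h.unit y.1 y.2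
      rw [hy] at this
      simp at this)
  have hf' : ∀ y, Φ y → f y ≠ 0 := fun y hy => hf ⟨y, hy⟩
  set P : Finset E5 := h.fin.toFinset.filter fun y => 0 < f y with hP
  have hPm : ∀ y, y ∈ P ↔ Φ y ∧ 0 < f y := fun y => by simp [hP]
  have hex : ∃ n, ∃ D : Finset E5, D.card = n ∧ D ⊆ P ∧ ∀ x ∈ P, InCone D x := by
    refine ⟨P.card, P, rfl, subset_rfl, fun x hx => ⟨fun v => if v = x then 1 else 0, fun v => ?_, ?_⟩⟩
    · dsimp only
      split_ifs
      · exact zero_le_one
      · exact le_rfl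
    · simp [ite_smul, hx]
  obtain ⟨D, hDn, hDP, hD⟩ := Nat.find_spec hex
  have hmin : ∀ b ∈ D, ¬ InCone (D.erase b) b := by
    intro b hb h1
    have hlt : (D.erase b).card < Nat.find hex := by
      rw [← hDn]; exact Finset.card_erase_lt_of_mem hb
    exact Nat.find_min hex hlt ⟨D.erase b, rfl, (Finset.erase_subset _ _).trans hDP,
      fun x hx => h1.erase hb (hD x hx)⟩
  have hDΦ : ∀ v ∈ D, Φ v := fun v hv => ((hPm v).1 (hDP hv)).1
  have hDf : ∀ v ∈ D, 0 < f v := fun v hv => ((hPm v).1 (hDP hv)).2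
  have hsg : ∀ x, Φ x → InCone D x ∨ InCone D (-x) := by
    intro x hx
    rcases lt_or_gt_of_ne (hf' x hx) with h1 | h1
    · right
      exact hD _ ((hPm _).2 ⟨h.neg x hx, by rw [map_neg]; linarith⟩)
    · left
      exact hD _ ((hPm _).2 ⟨hx, h1⟩)
  have hobt : ∀ a ∈ D, ∀ b ∈ D, a ≠ b → a ⬝ᵥ b ≤ 0 := by
    intro a ha b hb hab
    by_contra hn
    push Not at hn
    have ht : 0 < 2 * (a ⬝ᵥ b) := by linarith
    rcases hsg _ (h.refl a b (hDΦ a ha) (hDΦ b hb)) with h1 | h1
    · refine hmin b hb (redundant f hDf ha hb hab ht (s := 1) ?_)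
      rwa [one_smul]
    · refine hmin a ha (redundant f hDf hb ha hab.symm one_pos (s := 2 * (a ⬝ᵥ b)) ?_)
      rwa [one_smul, ← neg_sub]
  have hli : LinearIndependent ℝ (fun v : D => (v : E5)) := by
    refine LinearMap.BilinForm.linearIndependent_of_pairwise_le_zero
      (dotProductBilin ℝ ℝ) ?_ f _ (fun v => hDf v v.2) ?_
    · intro x hx
      have h1 : 0 ≤ x ⬝ᵥ x := Finset.sum_nonneg fun i _ => mul_self_nonneg _
      have h2 : x ⬝ᵥ x ≠ 0 := fun h0 => hx (dotProduct_self_eq_zero.1 h0)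
      simpa using lt_of_le_of_ne h1 h2.symm
    · intro a b hab
      simpa using hobt a a.2 b b.2 (fun e => hab (Subtype.ext e))
  have hcard : D.card = 5 := by
    apply le_antisymm
    · simpa using hli.fintype_card_le_finrank
    · let L : E5 →ₗ[ℝ] (D → ℝ) := LinearMap.pi fun v : D => dotProductBilin ℝ ℝ (v : E5)
      have hL : Function.Injective L := by
        rw [← LinearMap.ker_eq_bot, LinearMap.ker_eq_bot']
        intro w hw
        have hw' : ∀ v ∈ D, v ⬝ᵥ w = 0 := fun v hv => by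
          simpa [L] using congrFun hw ⟨v, hv⟩
        have hcone : ∀ x, InCone D x → x ⬝ᵥ w = 0 := by
          rintro x ⟨c, -, rfl⟩
          rw [sum_dotProduct]
          exact Finset.sum_eq_zero fun v hv => by rw [smul_dotProduct, hw' v hv, smul_zero]
        refine hc.2 w fun x hx => ?_
        rcases hsg x hx with h1 | h1
        · exact hcone x h1
        · simpa using hcone _ h1
      simpa using LinearMap.finrank_le_finrank_of_injective hL
  let e : Fin 5 ≃ D := (D.equivFinOfCardEq hcard).symm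
  have hsum : ∀ c : E5 → ℝ, ∑ v ∈ D, c v • v = ∑ i, c (e i) • (e i : E5) := by
    intro c
    rw [← Finset.sum_coe_sort D fun v => c v • v]
    exact (Equiv.sum_comp e fun v : D => c v • (v : E5)).symm
  refine ⟨fun i => e i, f, fun i => hDΦ _ (e i).2, hli.comp e e.injective,
    fun i => hDf _ (e i).2, fun i j hij => hobt _ (e i).2 _ (e j).2
      (fun h0 => hij (e.injective (Subtype.ext h0))), fun x hx => ?_⟩
  rcases hsg x hx with ⟨c, hc0, e1⟩ | ⟨c, hc0, e1⟩
  · exact ⟨fun i => c (e i), by rw [e1, hsum], Or.inl fun i => hc0 _⟩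
  · refine ⟨fun i => -c (e i), ?_, Or.inr fun i => neg_nonpos.2 (hc0 _)⟩
    simp only [neg_smul, Finset.sum_neg_distrib]
    rw [← hsum, ← e1, neg_neg]

theorem Simple.uniq {Φ : E5 → Prop} {y : Fin 5 → E5} {f : Module.Dual ℝ E5} (s : Simple Φ y f)
    {c d : Fin 5 → ℝ} (h : ∑ i, c i • y i = ∑ i, d i • y i) : c = d := by
  have := Fintype.linearIndependent_iff.1 s.li (fun i => c i - d i) (by
    simp only [_root_.sub_smul, Finset.sum_sub_distrib, h, sub_self])
  funext i
  exact sub_eq_zero.1 (this i)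

theorem dot_nonneg (u : E5) : 0 ≤ u ⬝ᵥ u := Finset.sum_nonneg fun _ _ => mul_self_nonneg _

/-- A root is supported on one side of an orthogonal splitting of a simple system. -/
theorem Simple.dich_pos {Φ : E5 → Prop} {y : Fin 5 → E5} {f : Module.Dual ℝ E5} (h : RS5 Φ)
    (s : Simple Φ y f) (S : Fin 5 → Prop) (hS : ∀ i j, S i → ¬ S j → y i ⬝ᵥ y j = 0) {x : E5}
    (hx : Φ x) (c0 : Fin 5 → ℝ) (e0 : x = ∑ i, c0 i • y i) (h0 : ∀ i, 0 ≤ c0 i) :
    (∀ i, S i → x ⬝ᵥ y i = 0) ∨ ∀ j, ¬ S j → x ⬝ᵥ y j = 0 := by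
  classical
  by_cases hz : ∀ j, ¬ S j → c0 j = 0
  · right
    intro j hj
    rw [e0, sum_dotProduct]
    refine Finset.sum_eq_zero fun i _ => ?_
    rw [smul_dotProduct]
    by_cases hi : S i
    · rw [hS i j hi hj, smul_zero]
    · rw [hz i hi, zero_smul]
  left
  push Not at hz
  obtain ⟨j0, hj0, hc0⟩ := hz
  have hc0' : 0 < c0 j0 := lt_of_le_of_ne (h0 j0) hc0.symm
  let Z : Set E5 := {z | Φ z ∧ ∃ c : Fin 5 → ℝ, z = ∑ i, c i • y i ∧ ∀ j, ¬ S j → c j = c0 j}
  have hZf : Z.Finite := h.fin.subset fun z hz => hz.1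
  obtain ⟨z, ⟨hz, c, ez, hcz⟩, hmin⟩ := Set.exists_min_image Z f hZf ⟨x, hx, c0, e0, fun _ _ => rfl⟩
  have hcp : ∀ i, 0 ≤ c i := by
    obtain ⟨d, ed, hd⟩ := s.sgn z hz
    have : c = d := s.uniq (ez.symm.trans ed)
    subst this
    rcases hd with hd | hd
    · exact hd
    · have := hd j0
      rw [hcz j0 hj0] at this
      linarith
  have hzy : ∀ i, S i → y i ⬝ᵥ z ≤ 0 := by
    intro i hi
    by_contra hn
    push Not at hn
    have hmem : z - (2 * (y i ⬝ᵥ z)) • y i ∈ Z := by
      refine ⟨h.refl _ _ (s.mem i) hz, fun k => c k - if k = i then 2 * (y i ⬝ᵥ z) else 0, ?_, ?_⟩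
      · simp only [_root_.sub_smul, Finset.sum_sub_distrib, ite_smul, zero_smul, Finset.sum_ite_eq',
          Finset.mem_univ, if_true]
        rw [← ez]
      · intro j hj
        have : j ≠ i := fun e => hj (e ▸ hi)
        simp [this, hcz j hj]
    have h1 := hmin _ hmem
    rw [map_sub, map_smul, smul_eq_mul] at h1
    have := mul_pos (mul_pos two_pos hn) (s.pos i)
    linarith
  set t : E5 := ∑ i, (if S i then 0 else c0 i) • y i with ht
  have hyt : ∀ i, S i → y i ⬝ᵥ t = 0 := by
    intro i hi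
    rw [ht, dotProduct_sum]
    refine Finset.sum_eq_zero fun j _ => ?_
    rw [dotProduct_smul]
    by_cases hj : S j
    · simp [hj]
    · rw [hS i j hi hj, smul_zero]
  have hsplit : ∀ d : Fin 5 → ℝ, (∀ j, ¬ S j → d j = c0 j) →
      ∑ i, d i • y i = ∑ i, (if S i then d i else 0) • y i + t := by
    intro d hd
    rw [ht, ← Finset.sum_add_distrib]
    refine Finset.sum_congr rfl fun i _ => ?_
    by_cases hi : S i
    · simp [hi]
    · simp [hi, hd i hi]
  have hut : ∀ d : Fin 5 → ℝ, (∑ i, (if S i then d i else 0) • y i) ⬝ᵥ t = 0 := by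
    intro d
    rw [sum_dotProduct]
    refine Finset.sum_eq_zero fun i _ => ?_
    rw [smul_dotProduct]
    by_cases hi : S i
    · rw [hyt i hi, smul_zero]
    · simp [hi]
  set u : E5 := ∑ i, (if S i then c i else 0) • y i with hu
  set u0 : E5 := ∑ i, (if S i then c0 i else 0) • y i with hu0
  have ez' : z = u + t := ez.trans (hsplit c hcz)
  have ex' : x = u0 + t := e0.trans (hsplit c0 fun _ _ => rfl)
  have huz : u ⬝ᵥ z ≤ 0 := by
    rw [hu, sum_dotProduct]
    refine Finset.sum_nonpos fun i _ => ?_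
    rw [smul_dotProduct, smul_eq_mul]
    by_cases hi : S i
    · simp only [hi, if_true]
      exact mul_nonpos_of_nonneg_of_nonpos (hcp i) (hzy i hi)
    · simp [hi]
  have hu_t : u ⬝ᵥ t = 0 := hut c
  have hu0_t : u0 ⬝ᵥ t = 0 := hut c0
  have huu : u = 0 := by
    rw [ez', dotProduct_add, hu_t, add_zero] at huz
    exact dotProduct_self_eq_zero.1 (le_antisymm huz (dot_nonneg u))
  have htt : t ⬝ᵥ t = 1 := by
    have := h.unit z hz
    rwa [ez', huu, zero_add] at this
  have hu00 : u0 = 0 := by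
    have := h.unit x hx
    rw [ex', add_dotProduct, dotProduct_add, dotProduct_add, hu0_t, dotProduct_comm t u0, hu0_t,
      htt] at this
    exact dotProduct_self_eq_zero.1 (by linarith)
  intro i hi
  rw [ex', hu00, zero_add, dotProduct_comm, hyt i hi]

theorem Simple.dich {Φ : E5 → Prop} {y : Fin 5 → E5} {f : Module.Dual ℝ E5} (h : RS5 Φ)
    (s : Simple Φ y f) (S : Fin 5 → Prop) (hS : ∀ i j, S i → ¬ S j → y i ⬝ᵥ y j = 0) {x : E5}
    (hx : Φ x) : (∀ i, S i → x ⬝ᵥ y i = 0) ∨ ∀ j, ¬ S j → x ⬝ᵥ y j = 0 := by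
  obtain ⟨c, e, hc | hc⟩ := s.sgn x hx
  · exact s.dich_pos h S hS hx c e hc
  · have := s.dich_pos h S hS (h.neg x hx) (fun i => -c i)
      (by rw [e]; simp) (fun i => neg_nonneg.2 (hc i))
    simpa using this

/-- The graph of a simple system of a connected root system is connected. -/
theorem Simple.conn {Φ : E5 → Prop} {y : Fin 5 → E5} {f : Module.Dual ℝ E5} (h : RS5 Φ)
    (hc : Conn5 Φ) (s : Simple Φ y f) (S : Fin 5 → Prop) (i0 j0 : Fin 5) (hi : S i0)
    (hj : ¬ S j0) : ∃ i j, S i ∧ ¬ S j ∧ y i ⬝ᵥ y j < 0 := by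
  classical
  by_contra hn
  push Not at hn
  have hS : ∀ i j, S i → ¬ S j → y i ⬝ᵥ y j = 0 := fun i j h1 h2 =>
    le_antisymm (s.obt i j fun e => h2 (e ▸ h1)) (hn i j h1 h2)
  have key := hc.1 (fun x => ∀ j, ¬ S j → x ⬝ᵥ y j = 0) (y i0) (s.mem i0)
    (fun j h2 => hS i0 j hi h2) (by
      intro x x' hx hx' hP hne
      rcases s.dich h S hS hx' with h1 | h1
      · exfalso
        apply hne
        obtain ⟨c, e, -⟩ := s.sgn x hx
        set t : E5 := ∑ i, (if S i then 0 else c i) • y i with ht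
        set u : E5 := ∑ i, (if S i then c i else 0) • y i with hu
        have ex : x = u + t := by
          rw [e, hu, ht, ← Finset.sum_add_distrib]
          refine Finset.sum_congr rfl fun i _ => ?_
          by_cases h3 : S i <;> simp [h3]
        have hdt : ∀ w : E5, (∀ j, ¬ S j → w ⬝ᵥ y j = 0) → w ⬝ᵥ t = 0 := by
          intro w hw
          rw [ht, dotProduct_sum]
          refine Finset.sum_eq_zero fun j _ => ?_
          rw [dotProduct_smul]
          by_cases h3 : S j
          · simp [h3]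
          · rw [hw j h3, smul_zero]
        have hdu : ∀ w : E5, (∀ j, S j → w ⬝ᵥ y j = 0) → w ⬝ᵥ u = 0 := by
          intro w hw
          rw [hu, dotProduct_sum]
          refine Finset.sum_eq_zero fun j _ => ?_
          rw [dotProduct_smul]
          by_cases h3 : S j
          · rw [hw j h3, smul_zero]
          · simp [h3]
        have hut : u ⬝ᵥ t = 0 := hdt u fun j h3 => by
          rw [dotProduct_comm]
          rw [hu, dotProduct_sum]
          refine Finset.sum_eq_zero fun k _ => ?_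
          rw [dotProduct_smul]
          by_cases h4 : S k
          · rw [dotProduct_comm, hS k j h4 h3, smul_zero]
          · simp [h4]
        have hxt : x ⬝ᵥ t = 0 := hdt x hP
        rw [ex, add_dotProduct, hut, zero_add] at hxt
        have ht0 : t = 0 := dotProduct_self_eq_zero.1 hxt
        rw [ex, ht0, add_zero, dotProduct_comm]
        exact hdu x' h1
      · exact h1) (y j0) (s.mem j0) j0 hj
  rw [h.unit _ (s.mem j0)] at key
  exact one_ne_zero key

/-- The admissible squares of nonzero weights. -/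
def Q3 (x : ℝ) : Prop := x = 1 ∨ x = 2 ∨ x = (3 + √5) / 2

theorem Simple.q3 {Φ : E5 → Prop} {y : Fin 5 → E5} {f : Module.Dual ℝ E5} (h : RS5 Φ)
    (s : Simple Φ y f) {i j : Fin 5} (hij : i ≠ j) (hlt : y i ⬝ᵥ y j < 0) :
    Q3 (4 * (y i ⬝ᵥ y j) ^ 2) := by
  classical
  have hi := h.unit _ (s.mem i)
  have hj := h.unit _ (s.mem j)
  have two : ∀ a b : ℝ, a • y i + b • y j =
      ∑ k, ((if k = i then a else 0) + if k = j then b else 0) • y k := by
    intro a b
    simp [add_smul, Finset.sum_add_distrib, ite_smul]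
  rcases h.ang _ _ (s.mem i) (s.mem j) with h1 | h1 | h1 | h1 | h1 | h1
  · exfalso
    nlinarith
  · exact Or.inl h1
  · exact Or.inr (Or.inl h1)
  · exact Or.inr (Or.inr h1)
  · exfalso
    have h5 : √5 ^ 2 = 5 := Real.sq_sqrt (by norm_num)
    have h5' : 2 < √5 := by
      rw [Real.lt_sqrt (by norm_num)]; norm_num
    set σ : ℝ := (√5 - 1) / 2 with hσ
    have hσ0 : 0 < σ := by rw [hσ]; linarith
    have hσ2 : σ ^ 2 = 1 - σ := by rw [hσ]; nlinarith
    have hp : 2 * (y i ⬝ᵥ y j) = -σ := by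
      have : (2 * (y i ⬝ᵥ y j) + σ) * (2 * (y i ⬝ᵥ y j) - σ) = 0 := by
        rw [hσ] at hσ2 ⊢; nlinarith
      rcases mul_eq_zero.1 this with h2 | h2 <;> linarith
    have hc1 := h.refl _ _ (s.mem i) (s.mem j)
    rw [hp] at hc1
    have hc2 := h.refl _ _ hc1 (s.mem i)
    have e1 : 2 * ((y j - -σ • y i) ⬝ᵥ y i) = σ := by
      rw [sub_dotProduct, smul_dotProduct, hi, dotProduct_comm, smul_eq_mul]; linarith
    rw [e1] at hc2
    have e2 : y i - σ • (y j - -σ • y i) = σ • y i + (-σ) • y j := by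
      have : y i - σ • (y j - -σ • y i) = (1 - σ ^ 2) • y i + (-σ) • y j := by
        module
      rw [this, hσ2, sub_sub_cancel]
    rw [e2, two] at hc2
    obtain ⟨d, ed, hd⟩ := s.sgn _ hc2
    have := s.uniq ed
    subst this
    rcases hd with hd | hd
    · have := hd j
      simp [hij.symm] at this
      linarith
    · have := hd i
      simp [hij] at this
      linarith
  · exfalso
    have hp : y i ⬝ᵥ y j = -1 := by nlinarith
    have h0 : (1 : ℝ) • y i + (1 : ℝ) • y j = 0 := by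
      apply dotProduct_self_eq_zero.1
      rw [one_smul, one_smul, add_dotProduct, dotProduct_add, dotProduct_add, hi, hj,
        dotProduct_comm (y j), hp]
      norm_num
    rw [two] at h0
    have := Fintype.linearIndependent_iff.1 s.li _ h0 i
    simp [hij] at this

end Pool.Agent.P.MP_97ea17_al.Geo.R3Aux
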