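import Pool.Agent.P.MP_97ea17_al.F.R1

/-! Subgroups that contain the reflections of a root system in dimension five. -/

namespace Pool.Agent.P.MP_97ea17_al.Geo.R4Aux

open scoped Quaternion Matrix

variable {G W : Subgroup (GH 2)}

theorem span5 (y : Fin 5 → E5)
    (h : ∀ c : Fin 5 → ℝ, (∀ j, ∑ i, c i * (y i ⬝ᵥ y j) = 0) → c = 0) (v : E5)
    (hv : ∀ i, y i ⬝ᵥ v = 0) : v = 0 := by
  by_contra h0
  have h1 : (Matrix.of y).det = 0 :=
    Matrix.exists_mulVec_eq_zero_iff.1 ⟨v, h0, funext hv⟩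
  obtain ⟨c, hc, h2⟩ := Matrix.exists_vecMul_eq_zero_iff.2 h1
  refine hc (h c fun j => ?_)
  have h3 : c ᵥ* Matrix.of y ⬝ᵥ y j = 0 := by rw [h2, zero_dotProduct]
  rw [← Matrix.dotProduct_mulVec] at h3
  exact h3

theorem rho_inv {w : GH 2} (hw : IsU w.val) (y : E5) : rho (w⁻¹).val (rho w.val y) = y := by
  rw [← rho_mul hw, ← Units.val_mul, inv_mul_cancel, Units.val_one, rho_one]

theorem rho_sub (g : Matrix (Fin 2) (Fin 2) ℍ[ℝ]) (y z : E5) :
    rho g (y - z) = rho g y - rho g z := map_sub (rhoL g) y z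

theorem rho_neg' (g : Matrix (Fin 2) (Fin 2) ℍ[ℝ]) (y : E5) : rho g (-y) = -rho g y :=
  map_neg (rhoL g) y

theorem phi_act (hG : ∀ w ∈ G, IsU w.val) {y : E5} (hy : Phi G y) {w : GH 2} (hw : w ∈ G) :
    Phi G (rho w.val y) := by
  obtain ⟨h1, u, hu, h2⟩ := hy
  refine ⟨(rho_dot (hG w hw) y y).trans h1, w * u * w⁻¹,
    G.mul_mem (G.mul_mem hw hu) (G.inv_mem hw), ?_⟩
  rw [Units.val_mul, Units.val_mul, (hG w hw).inv_val, hm_rho (hG w hw)]
  rcases h2 with h2 | h2 <;> rw [h2]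
  · exact Or.inl rfl
  · exact Or.inr (by rw [mul_neg, neg_mul])

theorem phi_rho {y : E5} (hy : Phi G y) :
    ∃ w ∈ G, ∀ z, rho w.val z = (2 * (y ⬝ᵥ z)) • y - z := by
  obtain ⟨h1, u, hu, h2⟩ := hy
  refine ⟨u, hu, fun z => ?_⟩
  rcases h2 with h2 | h2
  · rw [h2, rho_hm h1]
  · rw [h2, rho_neg, rho_hm h1]

theorem phi_refl (hG : ∀ w ∈ G, IsU w.val) {y z : E5} (hy : Phi G y) (hz : Phi G z) :
    Phi G ((2 * (y ⬝ᵥ z)) • y - z) := by
  obtain ⟨w, hw, h⟩ := phi_rho hy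
  exact h z ▸ phi_act hG hz hw

theorem phi_add (hG : ∀ w ∈ G, IsU w.val) {y z : E5} (hy : Phi G y) (hz : Phi G z)
    (h : y ⬝ᵥ z = -1 / 2) : Phi G (y + z) := by
  have h1 := (phi_refl hG hy hz).neg
  rw [h] at h1
  convert h1 using 1
  module

theorem exists_val (h1 : -1 ∈ G) {y : E5} (hy : Phi G y) :
    (∃ w ∈ G, w.val = hm y) ∧ ∃ w ∈ G, w.val = -hm y := by
  obtain ⟨-, u, hu, h2⟩ := hy
  have h3 : -1 * u ∈ G := G.mul_mem h1 hu
  rcases h2 with h2 | h2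
  · exact ⟨⟨u, hu, h2⟩, _, h3, by simp [h2]⟩
  · exact ⟨⟨_, h3, by simp [h2]⟩, u, hu, h2⟩

/-- Two unitary matrices that agree up to sign on a spanning family. -/
theorem mem_of_rho (hG : ∀ w ∈ G, IsU w.val) (h1 : -1 ∈ G) {ι : Type} {y : ι → E5}
    (hs : ∀ v, (∀ i, y i ⬝ᵥ v = 0) → v = 0) {w g : GH 2} (hw : IsU w.val) (hg : g ∈ G) {t : ℝ}
    (ht : t = 1 ∨ t = -1) (h : ∀ i, rho w.val (y i) = t • rho g.val (y i)) : w ∈ G := by
  have hu : IsU (g⁻¹ * w).val := (hG _ (G.inv_mem hg)).mul hw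
  have h2 : ∀ i, rho (g⁻¹ * w).val (y i) = t • y i := fun i => by
    rw [Units.val_mul, rho_mul hw, h, rho_smul, rho_inv (hG g hg)]
  have h3 : ∀ z, rho (g⁻¹ * w).val z = t • z := fun z => by
    refine sub_eq_zero.1 (hs _ fun i => ?_)
    have h4 := rho_dot hu (y i) z
    rw [h2, smul_dotProduct, smul_eq_mul] at h4
    rw [dotProduct_sub, dotProduct_smul, smul_eq_mul, ← h4]
    rcases ht with rfl | rfl <;> ring
  rcases ht with rfl | rfl
  · have h4 : g⁻¹ * w ∈ G := by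
      rcases eq_of_rho_eq hu (h := 1) (by simp [IsU]) (fun z => by
        rw [h3, one_smul, rho_one]) with e | e
      · rw [Units.ext (v := 1) e]
        exact G.one_mem
      · rw [Units.ext (v := -1) e]
        exact h1
    simpa using G.mul_mem hg h4
  · exact absurd (fun z => by rw [h3, neg_one_smul]) (rho_ne_neg hu)

/-- All differences are roots if the consecutive ones are. -/
theorem phi_diff (hG : ∀ w ∈ G, IsU w.val) {m : ℕ} {v : Fin (m + 1) → E5} {c : ℝ}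
    (hv : ∀ i j, v i ⬝ᵥ v j = (if i = j then 1 / 2 else 0) - c)
    (h : ∀ k : Fin m, Phi G (v k.castSucc - v k.succ)) (i j : Fin (m + 1)) (hij : i ≠ j) :
    Phi G (v i - v j) := by
  have tr : ∀ i j k, i ≠ k → (i = j ∨ Phi G (v i - v j)) → (j = k ∨ Phi G (v j - v k)) →
      Phi G (v i - v k) := fun i j k hik h1 h2 => by
    by_cases e1 : i = j
    · subst e1
      exact h2.resolve_left hik
    by_cases e2 : j = k
    · subst e2
      exact h1.resolve_left hik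
    have h3 := phi_add hG (h1.resolve_left e1) (h2.resolve_left e2) (by
      simp only [sub_dotProduct, dotProduct_sub, hv, e1, e2, hik, if_true, if_false]
      ring)
    rwa [sub_add_sub_cancel] at h3
  have h0 : ∀ i, 0 = i ∨ Phi G (v 0 - v i) := fun i => by
    induction i using Fin.induction with
    | zero => exact Or.inl rfl
    | succ k ih => exact Or.inr (tr _ _ _ (Fin.succ_ne_zero k).symm ih (Or.inr (h k)))
  refine tr i 0 j hij ((h0 i).imp Eq.symm fun h1 => ?_) (h0 j)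
  simpa using h1.neg

/-- All permutations are realised up to sign. -/
theorem exists_perm (hG : ∀ w ∈ G, IsU w.val) {m : ℕ} {v : Fin m → E5} {c : ℝ}
    (hv : ∀ i j, v i ⬝ᵥ v j = (if i = j then 1 / 2 else 0) - c)
    (h : ∀ i j, i ≠ j → Phi G (v i - v j)) (π : Equiv.Perm (Fin m)) :
    ∃ g ∈ G, ∃ t : ℝ, (t = 1 ∨ t = -1) ∧ ∀ i, rho g.val (v i) = t • v (π i) := by
  induction π using Equiv.Perm.swap_induction_on with
  | one => exact ⟨1, G.one_mem, 1, Or.inl rfl, fun i => by simp [rho_one]⟩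
  | swap_mul f a b hab ih =>
    obtain ⟨g, hg, t, ht, h1⟩ := ih
    obtain ⟨u, hu, h2⟩ := phi_rho (h a b hab)
    refine ⟨u * g, G.mul_mem hu hg, -t, by rcases ht with rfl | rfl <;> simp, fun i => ?_⟩
    rw [Units.val_mul, rho_mul (hG g hg), h1, rho_smul, h2, sub_dotProduct, hv, hv,
      Equiv.Perm.mul_apply]
    by_cases ha : f i = a
    · rw [ha, Equiv.swap_apply_left, if_pos rfl, if_neg hab.symm]
      module
    by_cases hb : f i = b
    · rw [hb, Equiv.swap_apply_right, if_pos rfl, if_neg hab]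
      module
    rw [Equiv.swap_apply_of_ne_of_ne ha hb, if_neg (Ne.symm ha), if_neg (Ne.symm hb)]
    module

/-- Comparison with a group given by listed generators. -/
theorem bound_of_model {D : ℕ} {R : List (List ℤ × List (List ℤ))}
    (hB : Bound (grp 2 D R)) (r : Fin 5 → List ℤ × List (List ℤ))
    (hR : ∀ x, x ∈ R ↔ ∃ k, r k = x) (hx : ∀ k, xi D (r k) = -1) (h0 : ∀ k, rt 2 D (r k) ≠ 0)
    {p y : Fin 5 → E5} (hp : ∀ k, (nq (rt 2 D (r k)))⁻¹ • pt5 (rt 2 D (r k)) = p k)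
    (hy : ∀ k, Phi W (y k)) (hg : ∀ i j, p i ⬝ᵥ p j = y i ⬝ᵥ y j)
    (hs : ∀ v, (∀ i, p i ⬝ᵥ v = 0) → v = 0) (h1 : -1 ∈ W)
    (h : ∀ G : Subgroup (GH 2), G ≤ W → (∀ k, Phi G (y k)) → W ≤ G) : Bound W := by
  obtain ⟨g, hu, h2⟩ := exists_lift_gram p y hg hs
  have h3 : ∀ k, reflMat (g.val *ᵥ rt 2 D (r k)) (xi D (r k)) = -hm (rho g.val (p k)) := fun k => by
    have h4 : g.val *ᵥ rt 2 D (r k) ≠ 0 := fun e => h0 k (by
      rw [← nq_eq_zero, ← hu.nq, e, nq_eq_zero])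
    rw [hx, reflMat_neg_one h4, hu.nq, ← rho_pt5 hu, ← rho_smul, hp]
  have h4 : ∀ k, ∃ w ∈ W, w.val = reflMat (g.val *ᵥ rt 2 D (r k)) (xi D (r k)) ∧
      (w.val = hm (y k) ∨ w.val = -hm (y k)) := fun k => by
    rcases h2 with h2 | h2
    · obtain ⟨w, hw, e⟩ := (exists_val h1 (hy k)).2
      exact ⟨w, hw, by rw [h3, h2, e], Or.inr e⟩
    · obtain ⟨w, hw, e⟩ := (exists_val h1 (hy k)).1
      exact ⟨w, hw, by rw [h3, h2, hm_neg, neg_neg, e], Or.inl e⟩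
  have h5 : ∀ x ∈ R, ∃ w ∈ W, w.val = reflMat (g.val *ᵥ rt 2 D x) (xi D x) := fun x hx => by
    obtain ⟨k, rfl⟩ := (hR x).1 hx
    obtain ⟨w, hw, e, -⟩ := h4 k
    exact ⟨w, hw, e⟩
  refine bound_of_grp hB hu h5 (h _ (cj_grp_le hu h5) fun k => ?_)
  obtain ⟨w, -, e, e'⟩ := h4 k
  exact ⟨(hy k).1, w, gen_mem_cj hu ((hR _).2 ⟨k, rfl⟩) e, e'⟩

end Pool.Agent.P.MP_97ea17_al.Geo.R4Aux
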