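import Pool.Agent.P.MP_97ea17_al.F.R4a

/-! A group with root system of type `A₅` or `D₅`, `B₅` is generated by the simple reflections. -/

namespace Pool.Agent.P.MP_97ea17_al.Geo.R4Aux

open scoped Quaternion Matrix

variable {G W : Subgroup (GH 2)}

theorem share {α : Type} {a b : Fin 5 → α}
    (h : ∀ k l, k ≠ l → (a k = a l ∧ b k ≠ b l) ∨ (a k ≠ a l ∧ b k = b l)) :
    ((∀ k, a k = a 0) ∧ Function.Injective b) ∨ ((∀ k, b k = b 0) ∧ Function.Injective a) := by
  have key : ∀ {a b : Fin 5 → α},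
      (∀ k l, k ≠ l → (a k = a l ∧ b k ≠ b l) ∨ (a k ≠ a l ∧ b k = b l)) → a 0 = a 1 →
      b 0 ≠ b 1 → (∀ k, a k = a 0) ∧ Function.Injective b := fun {a b} h h0 h1 => by
    have h2 : ∀ k, a k = a 0 := fun k => by
      by_contra hk
      have k0 : k ≠ 0 := fun e => hk (by rw [e])
      have k1 : k ≠ 1 := fun e => hk (by rw [e, h0])
      have e0 := ((h k 0 k0).resolve_left fun e => hk e.1).2
      have e1 := ((h k 1 k1).resolve_left fun e => hk (e.1.trans h0.symm)).2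
      exact h1 (e0.symm.trans e1)
    refine ⟨h2, fun k l e => by_contra fun hkl => ?_⟩
    rcases h k l hkl with e' | e'
    · exact e'.2 e
    · exact e'.1 ((h2 k).trans (h2 l).symm)
  rcases h 0 1 (by decide) with e | e
  · exact Or.inl (key h e.1 e.2)
  · exact Or.inr (key (fun k l hkl => (h k l hkl).symm.imp And.symm And.symm) e.2 e.1)

theorem exists_perm6 (c : Fin 6) {b : Fin 5 → Fin 6} (hb : Function.Injective b)
    (hc : ∀ k, c ≠ b k) : ∃ π : Equiv.Perm (Fin 6), π 0 = c ∧ ∀ k : Fin 5, π k.succ = b k := by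
  have h : Function.Injective (Fin.cons c b : Fin 6 → Fin 6) :=
    Fin.cons_injective_iff.2 ⟨fun ⟨k, hk⟩ => hc k hk.symm, hb⟩
  exact ⟨Equiv.ofBijective _ (Finite.injective_iff_bijective.1 h), rfl, fun _ => rfl⟩

theorem le_A5 (hW : Std W) {v : Fin 6 → E5}
    (hv : ∀ i j, v i ⬝ᵥ v j = (if i = j then 1 / 2 else 0) - 1 / 12)
    (hΦ : ∀ y, Phi W y ↔ ∃ i j, i ≠ j ∧ y = v i - v j) (hG : G ≤ W)
    (h : ∀ k : Fin 5, Phi G (v k.castSucc - v k.succ)) : W ≤ G := by
  have hU : ∀ w ∈ G, IsU w.val := fun w hw => hW.uni w (hG hw)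
  have hd := phi_diff hU hv h
  have h1 : -1 ∈ G := neg_one_mem (hd 0 1 (by decide)) (hd 2 3 (by decide)) (by
    simp [sub_dotProduct, dotProduct_sub, hv])
  have hy : ∀ k l : Fin 5, (v 0 - v k.succ) ⬝ᵥ (v 0 - v l.succ) =
      1 / 2 + if k = l then 1 / 2 else 0 := fun k l => by
    simp only [sub_dotProduct, dotProduct_sub, hv, Fin.succ_ne_zero, (Fin.succ_ne_zero _).symm,
      Fin.succ_inj, if_true, if_false]
    ring
  have hs := span5 (fun k => v 0 - v k.succ) fun c hc => by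
    have e0 := hc 0
    have e1 := hc 1
    have e2 := hc 2
    have e3 := hc 3
    have e4 := hc 4
    simp only [hy] at e0 e1 e2 e3 e4
    simp [Fin.sum_univ_five] at e0 e1 e2 e3 e4
    ext i
    fin_cases i <;> simp <;> linarith
  intro w hw
  have hu := hW.uni w hw
  have h2 : ∀ k : Fin 5, ∃ i j, i ≠ j ∧ rho w.val (v 0 - v k.succ) = v i - v j := fun k =>
    (hΦ _).1 (((hΦ _).2 ⟨0, k.succ, (Fin.succ_ne_zero k).symm, rfl⟩).act hW hw)
  choose a b hab h3 using h2
  have h4 : ∀ k l, k ≠ l → (a k = a l ∧ b k ≠ b l) ∨ (a k ≠ a l ∧ b k = b l) := fun k l hkl => by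
    have e := rho_dot hu (v 0 - v k.succ) (v 0 - v l.succ)
    rw [h3, h3, hy, if_neg hkl] at e
    simp only [sub_dotProduct, dotProduct_sub, hv] at e
    have n1 := hab k
    by_cases e1 : a k = a l <;> by_cases e2 : b k = b l
    · rw [← e1, ← e2, if_pos rfl, if_pos rfl, if_neg n1, if_neg n1.symm] at e
      linarith
    · exact Or.inl ⟨e1, e2⟩
    · exact Or.inr ⟨e1, e2⟩
    · rw [if_neg e1, if_neg e2] at e
      split_ifs at e <;> linarith
  rcases share h4 with ⟨e, hb⟩ | ⟨e, ha⟩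
  · obtain ⟨π, p0, p1⟩ := exists_perm6 (a 0) hb fun k => e k ▸ hab k
    obtain ⟨g, hg, t, ht, h5⟩ := exists_perm hU hv hd π
    refine mem_of_rho hU h1 hs hu hg ht fun k => ?_
    rw [h3, rho_sub, h5, h5, p0, p1, e]
    rcases ht with rfl | rfl <;> module
  · obtain ⟨π, p0, p1⟩ := exists_perm6 (b 0) ha fun k => e k ▸ (hab k).symm
    obtain ⟨g, hg, t, ht, h5⟩ := exists_perm hU hv hd π
    refine mem_of_rho hU h1 hs hu hg (t := -t) (by rcases ht with rfl | rfl <;> simp) fun k => ?_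
    rw [h3, rho_sub, h5, h5, p0, p1, e]
    rcases ht with rfl | rfl <;> module

/-- The values `0`, `1 / 2`, `-1 / 2`. -/
def T (x : ℝ) : Prop := x = 0 ∨ x = 1 / 2 ∨ x = -1 / 2

theorem coords {a : Fin 5 → ℝ} (h : ∀ j k, j ≠ k → T (a j + a k) ∧ T (a j - a k))
    (hs : ∑ j, a j ^ 2 = 1 / 4) : ∃ j, a j ^ 2 = 1 / 4 ∧ ∀ k, k ≠ j → a k = 0 := by
  have P : ∀ j k, j ≠ k → (a j ^ 2 = 1 / 16 ∧ a k ^ 2 = 1 / 16) ∨ (a j = 0 ∧ a k = 0) ∨
      (a j ^ 2 = 1 / 4 ∧ a k = 0) ∨ (a j = 0 ∧ a k ^ 2 = 1 / 4) := fun j k hjk => by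
    obtain ⟨h1, h2⟩ := h j k hjk
    have e1 : a j = (a j + a k + (a j - a k)) / 2 := by ring
    have e2 : a k = (a j + a k - (a j - a k)) / 2 := by ring
    generalize a j + a k = x at h1 e1 e2
    generalize a j - a k = y at h2 e1 e2
    rw [e1, e2]
    rcases h1 with rfl | rfl | rfl <;> rcases h2 with rfl | rfl | rfl <;> norm_num
  by_cases h1 : ∃ j, a j ^ 2 = 1 / 4
  · obtain ⟨j, hj⟩ := h1
    refine ⟨j, hj, fun k hk => ?_⟩
    rcases P j k hk.symm with e | e | e | e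
    · linarith [e.1]
    · exact e.2
    · exact e.2
    · rw [e.1] at hj
      norm_num at hj
  · have h2 : ∀ k, a k ^ 2 = a 0 ^ 2 := fun k => by
      by_cases hk : 0 = k
      · rw [hk]
      rcases P 0 k hk with e | e | e | e
      · rw [e.1, e.2]
      · rw [e.1, e.2]
      · exact absurd ⟨_, e.1⟩ h1
      · exact absurd ⟨_, e.2⟩ h1
    rw [Fin.sum_univ_five, h2 1, h2 2, h2 3, h2 4] at hs
    rcases P 0 1 (by decide) with e | e | e | e
    · linarith [e.1]
    · rw [e.1] at hs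
      norm_num at hs
    · exact absurd ⟨_, e.1⟩ h1
    · exact absurd ⟨_, e.2⟩ h1

section D5

variable {η : Fin 5 → E5} (hη : ∀ i j, η i ⬝ᵥ η j = if i = j then 1 / 2 else 0)
include hη

theorem span_D5 (v : E5) (hv : ∀ i, η i ⬝ᵥ v = 0) : v = 0 :=
  span5 η (fun c hc => funext fun j => by simpa [hη] using hc j) v hv

theorem expand_D5 (u : E5) : u = ∑ j, (2 * (η j ⬝ᵥ u)) • η j := by
  refine sub_eq_zero.1 (span_D5 hη _ fun i => ?_)
  simp [dotProduct_sub, dotProduct_sum, hη]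
  ring

theorem long_D5 (hΦ : ∀ y, Phi W y → (∃ (i : Fin 5) (c : ℝ), y = c • η i) ∨
      ∃ i j, i ≠ j ∧ (y = η i - η j ∨ y = η i + η j ∨ y = -η i - η j))
    {y z : E5} (hy : Phi W y) (hz : Phi W z) (h : y ⬝ᵥ z = 1 / 2) (k : Fin 5) :
    T (η k ⬝ᵥ y) := by
  have key : ∀ y, Phi W y → (∃ (i : Fin 5) (c : ℝ), c ^ 2 = 2 ∧ y = c • η i) ∨
      ∀ k, T (η k ⬝ᵥ y) := fun y hy => by
    rcases hΦ y hy with ⟨i, c, rfl⟩ | ⟨i, j, hij, e⟩
    · have h1 := hy.1
      rw [smul_dotProduct, dotProduct_smul, hη, if_pos rfl, smul_eq_mul, smul_eq_mul] at h1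
      exact Or.inl ⟨i, c, by linarith, rfl⟩
    · refine Or.inr fun k => ?_
      have h1 : ¬ (k = i ∧ k = j) := fun e => hij (e.1.symm.trans e.2)
      rcases e with rfl | rfl | rfl <;>
        simp only [dotProduct_sub, dotProduct_add, dotProduct_neg, hη, T] <;>
        by_cases e1 : k = i <;> by_cases e2 : k = j <;> simp_all <;> norm_num
  rcases key y hy with ⟨i, c, hc, rfl⟩ | h1
  · exfalso
    rw [smul_dotProduct, smul_eq_mul] at h
    rcases key z hz with ⟨j, d, hd, rfl⟩ | h2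
    · rw [dotProduct_smul, hη, smul_eq_mul] at h
      split_ifs at h
      · have h3 : c * d = 1 := by linarith
        have h4 : (c * d) ^ 2 = 4 := by rw [mul_pow, hc, hd]; norm_num
        rw [h3] at h4
        norm_num at h4
      · norm_num at h
    · rcases h2 i with e | e | e <;> rw [e] at h <;> nlinarith
  · exact h1 k

theorem perm_D5 (hW : Std W) (hΦ : ∀ i j, i ≠ j → Phi W (η i - η j) ∧ Phi W (η i + η j))
    (hΦ' : ∀ y, Phi W y → (∃ (i : Fin 5) (c : ℝ), y = c • η i) ∨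
      ∃ i j, i ≠ j ∧ (y = η i - η j ∨ y = η i + η j ∨ y = -η i - η j))
    {w : GH 2} (hw : w ∈ W) (i : Fin 5) :
    ∃ (j : Fin 5) (s : ℝ), s ^ 2 = 1 ∧ rho w.val (η i) = s • η j := by
  have hu := hW.uni w hw
  have hw' := W.inv_mem hw
  have hu' := hW.uni _ hw'
  have h1 : ∀ y z, Phi W y → Phi W z → y ⬝ᵥ z = 1 / 2 → T (y ⬝ᵥ rho w.val (η i)) :=
    fun y z hy hz h => by
      have h2 := long_D5 hη hΦ' (hy.act hW hw') (hz.act hW hw') ((rho_dot hu' y z).trans h) i
      rwa [← rho_inv hu (η i), rho_dot hu', dotProduct_comm] at h2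
  have h2 : ∀ j k : Fin 5, ∃ l, j ≠ l ∧ k ≠ l := by decide
  have h3 := expand_D5 hη (rho w.val (η i))
  obtain ⟨j, hj, hk⟩ := coords (a := fun j => η j ⬝ᵥ rho w.val (η i)) (fun j k hjk => by
    obtain ⟨l, hl, hl'⟩ := h2 j k
    rw [← add_dotProduct, ← sub_dotProduct]
    constructor
    · refine h1 _ _ (hΦ j k hjk).2 (hΦ j l hl).1 ?_
      simp [add_dotProduct, dotProduct_sub, hη, hl, hl', hjk.symm]
    · refine h1 _ _ (hΦ j k hjk).1 (hΦ j l hl).1 ?_
      simp [sub_dotProduct, dotProduct_sub, hη, hl, hl', hjk.symm]) (by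
    have h4 := rho_dot hu (η i) (η i)
    rw [hη, if_pos rfl] at h4
    nth_rewrite 1 [h3] at h4
    simp only [add_dotProduct, smul_dotProduct, smul_eq_mul, Fin.sum_univ_five] at h4 ⊢
    linarith)
  refine ⟨j, 2 * (η j ⬝ᵥ rho w.val (η i)), by rw [mul_pow, hj]; norm_num, h3.trans ?_⟩
  exact Finset.sum_eq_single j (fun k _ h => by rw [hk k h, mul_zero, zero_smul]) (by simp)

theorem flip_D5 (hU : ∀ w ∈ G, IsU w.val) {i j : Fin 5} (hij : i ≠ j) (h : Phi G (η i - η j))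
    (h' : Phi G (η i + η j)) {σ : ℝ} (hσ : σ = 1 ∨ σ = -1) :
    ∃ f ∈ G, ∀ k, rho f.val (η k) = (if k = i ∨ k = j then σ else 1) • η k := by
  rcases hσ with rfl | rfl
  · exact ⟨1, G.one_mem, fun k => by simp [rho_one]⟩
  obtain ⟨u, hu, e⟩ := phi_rho h
  obtain ⟨u', hu', e'⟩ := phi_rho h'
  refine ⟨u * u', G.mul_mem hu hu', fun k => ?_⟩
  rw [Units.val_mul, rho_mul (hU _ hu'), e', e]
  simp only [dotProduct_sub, dotProduct_smul, sub_dotProduct, add_dotProduct, dotProduct_add, hη,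
    smul_eq_mul, if_true, hij, hij.symm, if_false]
  by_cases e1 : k = i
  · subst e1
    simp only [hij.symm, if_true, if_false, true_or]
    module
  by_cases e2 : k = j
  · subst e2
    simp only [hij, if_true, if_false, or_true]
    module
  simp only [e1, e2, Ne.symm e1, Ne.symm e2, if_false, or_self]
  module

theorem le_D5 (hW : Std W) (hΦ : ∀ i j, i ≠ j → Phi W (η i - η j) ∧ Phi W (η i + η j))
    (hΦ' : ∀ y, Phi W y → (∃ (i : Fin 5) (c : ℝ), y = c • η i) ∨
      ∃ i j, i ≠ j ∧ (y = η i - η j ∨ y = η i + η j ∨ y = -η i - η j))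
    (hG : G ≤ W) (h : ∀ k : Fin 4, Phi G (η k.castSucc - η k.succ)) (h' : Phi G (η 3 + η 4)) :
    W ≤ G := by
  have hU : ∀ w ∈ G, IsU w.val := fun w hw => hW.uni w (hG hw)
  have hv : ∀ i j, η i ⬝ᵥ η j = (if i = j then 1 / 2 else 0) - 0 := fun i j => by
    rw [hη, sub_zero]
  have hd := phi_diff hU hv h
  have h1 : -1 ∈ G := neg_one_mem (hd 0 1 (by decide)) (hd 2 3 (by decide)) (by
    simp [sub_dotProduct, dotProduct_sub, hη])
  have h2 : ∀ i, i ≠ 4 → Phi G (η i + η 4) := fun i hi => by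
    by_cases e : i = 3
    · exact e ▸ h'
    have h3 := phi_add hU (hd i 3 e) h' (by
      simp [sub_dotProduct, dotProduct_add, hη, hi, e]
      norm_num)
    rwa [← add_assoc, sub_add_cancel] at h3
  intro w hw
  have hu := hW.uni w hw
  choose π s hs h3 using perm_D5 hη hW hΦ hΦ' hw
  have hπ : Function.Injective π := fun i j e => by_contra fun hij => by
    have h4 := rho_dot hu (η i) (η j)
    rw [h3, h3, smul_dotProduct, dotProduct_smul, hη, hη, if_pos e, if_neg hij, smul_eq_mul,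
      smul_eq_mul] at h4
    have h5 : s i * s j = 0 := by linarith
    have h6 : (s i * s j) ^ 2 = 1 := by rw [mul_pow, hs, hs, one_mul]
    rw [h5] at h6
    norm_num at h6
  obtain ⟨g, hg, t, ht, h4⟩ :=
    exists_perm hU hv hd (Equiv.ofBijective π (Finite.injective_iff_bijective.1 hπ))
  have ht2 : t * t = 1 := by rcases ht with rfl | rfl <;> norm_num
  have h5 : ∀ i, rho w.val (η i) = (s i * t) • rho g.val (η i) := fun i => by
    rw [h3, h4, smul_smul, mul_assoc, ht2, mul_one]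
    rfl
  have h6 : ∀ i, s i * t = 1 ∨ s i * t = -1 := fun i =>
    sq_eq_one_iff.1 (by rw [mul_pow, hs, one_mul, pow_two, ht2])
  have h7 : ∏ i, s i * t = 1 := by
    refine sign_even ((hU _ (G.inv_mem hg)).mul hu) (ε := fun i => √2 • η i) (fun i j => ?_)
      fun i => ?_
    · rw [smul_dotProduct, dotProduct_smul, hη, smul_eq_mul, smul_eq_mul, ← mul_assoc,
        Real.mul_self_sqrt (by norm_num)]
      split_ifs <;> norm_num
    · rw [rho_smul, rho_mul hu, h5, rho_smul, rho_inv (hU g hg), smul_comm]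
  obtain ⟨f0, m0, e0⟩ := flip_D5 hη hU (i := 0) (j := 4) (by decide) (hd _ _ (by decide))
    (h2 _ (by decide)) (h6 0)
  obtain ⟨f1, m1, e1⟩ := flip_D5 hη hU (i := 1) (j := 4) (by decide) (hd _ _ (by decide))
    (h2 _ (by decide)) (h6 1)
  obtain ⟨f2, m2, e2⟩ := flip_D5 hη hU (i := 2) (j := 4) (by decide) (hd _ _ (by decide))
    (h2 _ (by decide)) (h6 2)
  obtain ⟨f3, m3, e3⟩ := flip_D5 hη hU (i := 3) (j := 4) (by decide) (hd _ _ (by decide))
    (h2 _ (by decide)) (h6 3)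
  have m4 := G.mul_mem m0 (G.mul_mem m1 (G.mul_mem m2 m3))
  have h8 : ∀ k, rho (f0 * (f1 * (f2 * f3))).val (η k) = (s k * t) • η k := fun k => by
    rw [Units.val_mul, rho_mul (hU _ (G.mul_mem m1 (G.mul_mem m2 m3))), Units.val_mul,
      rho_mul (hU _ (G.mul_mem m2 m3)), Units.val_mul, rho_mul (hU _ m3)]
    simp only [e0, e1, e2, e3, rho_smul, smul_smul]
    congr 1
    rw [Fin.prod_univ_five] at h7
    fin_cases k
    · simp
    · simp
    · simp
    · simp
    · have h9 : s 4 * t * (s 4 * t) = 1 := by rcases h6 4 with e | e <;> rw [e] <;> norm_num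
      simp only [Fin.reduceFinMk, or_true, if_true]
      linear_combination (s 4 * t) * h7 -
        (s 0 * t * (s 1 * t) * (s 2 * t) * (s 3 * t)) * h9
  refine mem_of_rho hU h1 (span_D5 hη) hu (G.mul_mem hg m4) (Or.inl rfl) fun i => ?_
  rw [one_smul, Units.val_mul, rho_mul (hU _ m4), h8, rho_smul, h5]

end D5

end Pool.Agent.P.MP_97ea17_al.Geo.R4Aux
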