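import Pool.Agent.P.MP_97ea17_al.F.GDefs

/-! The action of unitary matrices of size two on the five-dimensional space of Hermitian
matrices of trace zero: definitions. -/

namespace Pool.Agent.P.MP_97ea17_al.Geo

open scoped Quaternion Matrix

/-- Euclidean space of dimension five. -/
abbrev E5 := Fin 5 → ℝ

/-- The Hermitian matrix of a vector. -/
noncomputable def hm (y : E5) : Matrix (Fin 2) (Fin 2) ℍ[ℝ] :=
  !![(y 0 : ℍ[ℝ]), ⟨y 1, y 2, y 3, y 4⟩; ⟨y 1, -y 2, -y 3, -y 4⟩, -(y 0 : ℍ[ℝ])]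

/-- The vector of a Hermitian matrix. -/
def uh (M : Matrix (Fin 2) (Fin 2) ℍ[ℝ]) : E5 :=
  ![(M 0 0).re, (M 0 1).re, (M 0 1).imI, (M 0 1).imJ, (M 0 1).imK]

/-- The point of a line. -/
noncomputable def pt5 (a : V 2) : E5 :=
  uh ((2 : ℝ) • Matrix.of (fun i j => a i * star (a j)) - nq a • 1)

/-- The action. -/
noncomputable def rho (g : Matrix (Fin 2) (Fin 2) ℍ[ℝ]) (y : E5) : E5 := uh (g * hm y * gᴴ)

/-- Points of reflections of order two, and their negatives. -/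
def Phi (W : Subgroup (GH 2)) (y : E5) : Prop :=
  y ⬝ᵥ y = 1 ∧ ∃ w ∈ W, w.val = hm y ∨ w.val = -hm y

/-- Connected and spanning. -/
def Conn5 (S : E5 → Prop) : Prop :=
  (∀ P : E5 → Prop, ∀ a, S a → P a → (∀ x y, S x → S y → P x → x ⬝ᵥ y ≠ 0 → P y) →
    ∀ x, S x → P x) ∧ ∀ v, (∀ x, S x → x ⬝ᵥ v = 0) → v = 0

/-- The set consists of five orthogonal axes. -/
def Axes (S : E5 → Prop) : Prop :=
  ∃ ε : Fin 5 → E5, (∀ i j, ε i ⬝ᵥ ε j = if i = j then 1 else 0) ∧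
    (∀ i, S (ε i) ∨ S (-ε i)) ∧ ∀ y, S y → ∃ i, y = ε i ∨ y = -ε i

/-- Irreducibility on the five-dimensional space. -/
def Irr5 (W : Subgroup (GH 2)) : Prop :=
  ∀ U : Submodule ℝ E5, (∀ w ∈ W, ∀ y ∈ U, rho w.val y ∈ U) → U = ⊥ ∨ U = ⊤

/-- Finite root systems with admissible angles. -/
structure RS5 (Φ : E5 → Prop) : Prop where
  fin : {y | Φ y}.Finite
  unit : ∀ y, Φ y → y ⬝ᵥ y = 1
  neg : ∀ y, Φ y → Φ (-y)
  refl : ∀ y z, Φ y → Φ z → Φ (z - (2 * (y ⬝ᵥ z)) • y)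
  ang : ∀ y z, Φ y → Φ z → S4 (4 * (y ⬝ᵥ z) ^ 2)

/-- Cartan matrix of type `A₅`. -/
def cA5 : Matrix (Fin 5) (Fin 5) ℤ :=
  !![2, -1, 0, 0, 0; -1, 2, -1, 0, 0; 0, -1, 2, -1, 0; 0, 0, -1, 2, -1; 0, 0, 0, -1, 2]

/-- Cartan matrix of type `D₅`. -/
def cD5 : Matrix (Fin 5) (Fin 5) ℤ :=
  !![2, -1, 0, 0, 0; -1, 2, -1, 0, 0; 0, -1, 2, -1, -1; 0, 0, -1, 2, 0; 0, 0, -1, 0, 2]

/-- The root system of type `A₅`. -/
def IsA5 (Φ : E5 → Prop) : Prop :=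
  ∃ v : Fin 6 → E5, (∀ i j, v i ⬝ᵥ v j = (if i = j then 1 / 2 else 0) - 1 / 12) ∧
    ∀ y, Φ y ↔ ∃ i j, i ≠ j ∧ y = v i - v j

/-- A root system between `D₅` and `B₅`. -/
def IsD5 (Φ : E5 → Prop) : Prop :=
  ∃ η : Fin 5 → E5, (∀ i j, η i ⬝ᵥ η j = if i = j then 1 / 2 else 0) ∧
    (∀ i j, i ≠ j → Φ (η i - η j) ∧ Φ (η i + η j)) ∧
    ∀ y, Φ y → (∃ (i : Fin 5) (c : ℝ), y = c • η i) ∨
      ∃ i j, i ≠ j ∧ (y = η i - η j ∨ y = η i + η j ∨ y = -η i - η j)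

end Pool.Agent.P.MP_97ea17_al.Geo
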