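import Pool.Agent.P.MP_97ea17_al.DefsE
import Pool.Agent.P.MP_97ea17_al.F.EChk

/-! Generators of three small systems. -/

namespace Pool.Agent.P.MP_97ea17_al.Ck

set_option maxRecDepth 100000
set_option exponentiation.threshold 100000
set_option linter.all false

def gC : List (List Q4) := dL [[2, 3], [2, 768], [0, 2, 3]]

def gM : List (List Q4) := dL [[2, 3], [2, 768], [2, 0, 3], [2, 0, 0x30000]]

def zU : List ℕ := [514, 0x30003, 0x30200, 0, 0x2000002]

end Pool.Agent.P.MP_97ea17_al.Ck
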