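import Pool.Agent.P.MP_97ea17_al.F.X0

/-! Data and kernel checks. -/

namespace Pool.Agent.P.MP_97ea17_al.Ck

set_option maxRecDepth 100000
set_option exponentiation.threshold 100000
set_option linter.all false

def rtB : List (List ℕ) := [[4, 0, 5], [4, 0x3030302], [0, 4, 0x2020202], [4, 0, 0x2020202], [4,
    0, 0x3030302], [0, 4, 0x3030302], [4, 0x2020202], [0, 4, 5], [4, 5]]

def lsB : List Lv := [⟨[], [], []⟩, ⟨[(nat_lit 0, [0, 2, 1])], [], []⟩, ⟨[(nat_lit 0, [0, 1, 0]),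
    (nat_lit 1, [2])], [nat_lit 33619969], []⟩, ⟨[(nat_lit 0, [2, 1])], [], []⟩, ⟨[(nat_lit 0,
    [1])], [nat_lit 67305473], []⟩, ⟨[(nat_lit 0, [2, 0])], [nat_lit 84082945], []⟩, ⟨[(nat_lit 0,
    [0])], [nat_lit 100990977, nat_lit 100925953], []⟩, ⟨[(nat_lit 0, [1, 0])], [nat_lit 117702913,
    nat_lit 117834497, nat_lit 117768705], []⟩, ⟨[(nat_lit 0, [0, 1])], [nat_lit 134676481,
    nat_lit 134611201, nat_lit 134546433, nat_lit 134414849], []⟩]

def dsB : List (ℕ × List ℕ) := [(nat_lit 0x1249209, [0]), (nat_lit 0x1009049, [2]), (nat_lit 0x1249049,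
    [2]), (nat_lit 0x1248249, [0]), (nat_lit 0x1241249, [2]), (nat_lit 0x1209249, [1]), (nat_lit 0x1049249,
    [2]), (nat_lit 0x124a04a, [2]), (nat_lit 0x148a04a, [2]), (nat_lit 0x128124a, [2]), (nat_lit 0x204924a,
    [2]), (nat_lit 0x224924a, [2]), (nat_lit 0x128924a, [2]), (nat_lit 0x228924a, [0]), (nat_lit 0x148924a,
    [0]), (nat_lit 0x225124a, [0, 1]), (nat_lit 0x145124a, [1, 0]), (nat_lit 0x228224a, [2]),
    (nat_lit 0x124a24a, [2]), (nat_lit 0x224a24a, [1]), (nat_lit 0x144a24a, [1]), (nat_lit 0x128a24a,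
    [2]), (nat_lit 0x228a24a, [1]), (nat_lit 0x148a24a, [0]), (nat_lit 0x125224a, [1]), (nat_lit 0x45224a,
    [1]), (nat_lit 0x145224a, [1]), (nat_lit 0x225044a, [0, 1]), (nat_lit 0x224944a, [1, 2, 1]),
    (nat_lit 0x144944a, [1, 0]), (nat_lit 0x208944a, [0]), (nat_lit 0x128944a, [0]), (nat_lit 0x228944a,
    [0]), (nat_lit 0x141144a, [1, 0]), (nat_lit 0x225144a, [0, 1]), (nat_lit 0x145144a, [1, 0]),
    (nat_lit 0x1252052, [2, 0]), (nat_lit 0x2249252, [0, 2, 1]), (nat_lit 0x1449252, [0, 2, 1]),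
    (nat_lit 0x1289252, [0, 2, 1]), (nat_lit 0x1489252, [0, 2]), (nat_lit 0x2211252, [0, 1]),
    (nat_lit 0x2251252, [0, 1]), (nat_lit 0x204a252, [1, 2]), (nat_lit 0x224a252, [1, 2]),
    (nat_lit 0x124b04b, [2]), (nat_lit 0x148b04b, [2]), (nat_lit 0x12c124b, [2]), (nat_lit 0x304924b,
    [2]), (nat_lit 0x224924b, [2]), (nat_lit 0x128924b, [2]), (nat_lit 0x228924b, [2]), (nat_lit 0x148924b,
    [2]), (nat_lit 0x22c224b, [2]), (nat_lit 0x124a24b, [2]), (nat_lit 0x224a24b, [2]), (nat_lit 0x144a24b,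
    [2]), (nat_lit 0x128a24b, [2]), (nat_lit 0x228a24b, [2]), (nat_lit 0x148a24b, [2]), (nat_lit 0x125224b,
    [2]), (nat_lit 0x145224b, [2]), (nat_lit 0x65224b, [2]), (nat_lit 0x124c04c, [2]), (nat_lit 0x148c04c,
    [2]), (nat_lit 0x16cc04c, [2]), (nat_lit 0x130124c, [2]), (nat_lit 0x404924c, [2]), (nat_lit 0x224924c,
    [2]), (nat_lit 0x324924c, [2]), (nat_lit 0x344924c, [2]), (nat_lit 0x128924c, [2]), (nat_lit 0x228924c,
    [2]), (nat_lit 0x328924c, [2]), (nat_lit 0x148924c, [2]), (nat_lit 0x348924c, [2]), (nat_lit 0x168924c,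
    [2]), (nat_lit 0x268924c, [2]), (nat_lit 0x12c924c, [2]), (nat_lit 0x22c924c, [2]), (nat_lit 0x14c924c,
    [2]), (nat_lit 0x12d124c, [2]), (nat_lit 0x22d124c, [2]), (nat_lit 0x14d124c, [2]), (nat_lit 0x230224c,
    [2]), (nat_lit 0x124a24c, [2]), (nat_lit 0x224a24c, [2]), (nat_lit 0x324a24c, [2]), (nat_lit 0x144a24c,
    [2]), (nat_lit 0x344a24c, [2]), (nat_lit 0x164a24c, [2]), (nat_lit 0x264a24c, [2]), (nat_lit 0x128a24c,
    [2]), (nat_lit 0x228a24c, [2]), (nat_lit 0x328a24c, [2]), (nat_lit 0x148a24c, [2]), (nat_lit 0x348a24c,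
    [2]), (nat_lit 0x168a24c, [2]), (nat_lit 0x268a24c, [2]), (nat_lit 0x12ca24c, [2]), (nat_lit 0x22ca24c,
    [2]), (nat_lit 0x14ca24c, [2]), (nat_lit 0x125224c, [2]), (nat_lit 0x145224c, [2]), (nat_lit 0x165224c,
    [2]), (nat_lit 0x85224c, [2]), (nat_lit 0x12d224c, [2]), (nat_lit 0x14d224c, [2]), (nat_lit 0x125a24c,
    [2]), (nat_lit 0x145a24c, [2]), (nat_lit 0x129a24c, [2]), (nat_lit 0x149a24c, [2]), (nat_lit 0x330324c,
    [2]), (nat_lit 0x124b24c, [2]), (nat_lit 0x224b24c, [2]), (nat_lit 0x144b24c, [2]), (nat_lit 0x128b24c,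
    [2]), (nat_lit 0x228b24c, [2]), (nat_lit 0x148b24c, [2]), (nat_lit 0x125324c, [2]), (nat_lit 0x145324c,
    [2]), (nat_lit 0x85b24c, [2]), (nat_lit 0x124b44c, [2]), (nat_lit 0x224b44c, [2]), (nat_lit 0x144b44c,
    [2]), (nat_lit 0x128b44c, [2]), (nat_lit 0x228b44c, [2]), (nat_lit 0x125344c, [2]), (nat_lit 0x145344c,
    [2])]

def rpB : List (ℕ × Hd) := [(nat_lit 0, .cx), (nat_lit 0x249009, .cx), (nat_lit 0x1208209, .cx),
    (nat_lit 0x1041209, .cx), (nat_lit 0x240249, .cx), (nat_lit 0x249249, .m2 [2, 2, 0x20300, 514]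
    0 2), (nat_lit 0x1249249, .tri 0 1 2), (nat_lit 0x124924a, .tri 0 1 2), (nat_lit 0x44924a, .m2
    [2, 2, 0x20303, 2] 0 2), (nat_lit 0x144924a, .tri 0 1 2), (nat_lit 0x121124a, .m2 [514,
    0x30300, 0x3020500, 514] 0 2), (nat_lit 0x125124a, .tri 0 1 2), (nat_lit 0x124844a, .m2
    [0x2000002, 0x20000, 515, 2] 0 1), (nat_lit 0x124944a, .tri 0 1 2), (nat_lit 0x125144a, .tri 0
    1 2), (nat_lit 0x1249212, .m2 [0x2000403, 514, 0x30300, 514] 0 1), (nat_lit 0x1451212, .m2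
    [0x40306030605, 0x40400000404, 0x5050000050500] 0 1), (nat_lit 0x128a212, .m2
    [0x203000200040604, 0x40004, 0x5050000] 0 1), (nat_lit 0x2249412, .m2 [0x203000204000605,
    0x40004, 0x5050000] 0 1), (nat_lit 0x1249252, .tri 0 1 2), (nat_lit 0x489252, .m2
    [0x40400000404, 0x40400000404, 0x2050007040702] 0 2), (nat_lit 0x1251252, .tri 0 1 2),
    (nat_lit 0x1451252, .bes), (nat_lit 0x124a252, .tri 0 1 2), (nat_lit 0x128a252, .bes),
    (nat_lit 0x1252252, .bes), (nat_lit 0x1448452, .m2 [0x40400000404, 0x30407020506,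
    0x4000500040005] 0 1), (nat_lit 0x1281452, .m2 [0x203000200040604, 0x40004, 0x4000005] 0 1),
    (nat_lit 0x1249452, .tri 0 1 2), (nat_lit 0x2249452, .bes), (nat_lit 0x1449452, .bes),
    (nat_lit 0x1289452, .bes), (nat_lit 0x124924b, .tri 0 1 2), (nat_lit 0x144924b, .tri 0 1 2),
    (nat_lit 0x64924b, .m2 [0x4000004, 0x4000004, 0x202000205000200, 0x202020204] 0 2), (nat_lit 0x125124b,
    .tri 0 1 2), (nat_lit 0x225124b, .tri 0 1 2), (nat_lit 0x145124b, .tri 0 1 2), (nat_lit 0x121924b,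
    .m2 [0x4000004, 0x5000500, 0x202000205000200, 0x202020204] 0 2), (nat_lit 0x124944b, .tri 0 1
    2), (nat_lit 0x224944b, .tri 0 1 2), (nat_lit 0x144944b, .tri 0 1 2), (nat_lit 0x308944b, .der
    0 134611201 66049 197889 198401), (nat_lit 0x128944b, .tri 0 1 2), (nat_lit 0x228944b, .neg 0
    2), (nat_lit 0x125144b, .tri 0 1 2), (nat_lit 0x225144b, .tri 0 1 2), (nat_lit 0x145144b, .neg
    0 2), (nat_lit 0x141944b, .der 0 84082945 66049 197633 198145), (nat_lit 0x124864b, .m2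
    [0x20200000303, 0x300000005020302, 0x2000300030002, 0x202020204] 0 1), (nat_lit 0x225064b,
    .der 0 84082945 66049 197633 198145), (nat_lit 0x1253053, .der 0 84082945 197121 66561
    198145), (nat_lit 0x1249253, .tri 0 1 2), (nat_lit 0x2249253, .tri 0 1 2), (nat_lit 0x1449253,
    .tri 0 1 2), (nat_lit 0x1289253, .tri 0 1 2), (nat_lit 0x1489253, .tri 0 1 2), (nat_lit 0x689253,
    .der 0 117702913 197121 66305 198657), (nat_lit 0x1251253, .tri 0 1 2), (nat_lit 0x2251253,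
    .tri 0 1 2), (nat_lit 0x1451253, .tri 0 1 2), (nat_lit 0x2219253, .der 0 84082945 197121 66561
    198145), (nat_lit 0x304a253, .der 0 117702913 197121 197377 67585), (nat_lit 0x124a253, .tri 0
    1 2), (nat_lit 0x224a253, .neg 0 2), (nat_lit 0x128a253, .neg 0 2), (nat_lit 0x1252253, .tri 0
    1 2), (nat_lit 0x12c1453, .der 0 84082945 197121 197633 67073), (nat_lit 0x1249453, .tri 0 1
    2), (nat_lit 0x2249453, .neg 0 2), (nat_lit 0x1449453, .tri 0 1 2), (nat_lit 0x1289453, .neg 0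
    2), (nat_lit 0x1448653, .der 0 84082945 197121 197633 67073), (nat_lit 0x124921b, .m2
    [0x303030004000003, 0x4000004, 0x5000500, 0x202020204] 0 1), (nat_lit 0x145121b, .der 0
    84082945 197121 66561 198145), (nat_lit 0x128a21b, .der 0 84082945 197121 132097 132609),
    (nat_lit 0x224941b, .der 0 84082945 197121 197633 67073), (nat_lit 0x124924c, .tri 0 1 2),
    (nat_lit 0x144924c, .tri 0 1 2), (nat_lit 0x164924c, .m2 [0x202020202020202, 0x3020005060300,
    0x302000007070005, 8] 0 1), (nat_lit 0x264924c, .tri 0 1 2), (nat_lit 0x84924c, .m2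
    [0x4000004, 0x4000004, 0x302000305000200, 0x202020205] 0 2), (nat_lit 0x125124c, .tri 0 1 2),
    (nat_lit 0x225124c, .bes), (nat_lit 0x325124c, .tri 0 1 2), (nat_lit 0x145124c, .bes),
    (nat_lit 0x345124c, .m2 [0x4040404, 0x4020205050203, 0x503000300070003] 0 1), (nat_lit 0x165124c,
    .tri 0 1 2), (nat_lit 0x265124c, .m2 [0x202020202020202, 0x300050303040402, 0x302000007070005]
    0 1), (nat_lit 0x125924c, .m2 [0x4000004, 0x300020204020505, 0x303000304040300, 0x202020205] 0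
    1), (nat_lit 0x225924c, .tri 0 1 2), (nat_lit 0x145924c, .tri 0 1 2), (nat_lit 0x129924c, .tri
    0 1 2), (nat_lit 0x229924c, .m2 [0x302000305000200, 0x303030004000003, 0x4000004] 0 1),
    (nat_lit 0x149924c, .m2 [0x20200000202, 0x302020000000502, 0x200000000030307] 0 1), (nat_lit 0x122124c,
    .m2 [0x4000004, 0x5000500, 0x302000305000200, 0x202020205] 0 2), (nat_lit 0x124944c, .tri 0 1
    2), (nat_lit 0x224944c, .bes), (nat_lit 0x324944c, .neg 0 1), (nat_lit 0x144944c, .bes),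
    (nat_lit 0x344944c, .m2 [0x300020006000604, 0x202020203030303, 0x500030305050203] 0 1),
    (nat_lit 0x164944c, .neg 0 1), (nat_lit 0x264944c, .m2 [0x300050302050503, 0x202020203030303,
    0x200030006000604] 0 1), (nat_lit 0x408944c, .bes), (nat_lit 0x128944c, .bes), (nat_lit 0x228944c,
    .bes), (nat_lit 0x328944c, .neg 0 1), (nat_lit 0x12c944c, .neg 0 1), (nat_lit 0x22c944c, .neg
    0 1), (nat_lit 0x125144c, .bes), (nat_lit 0x225144c, .bes), (nat_lit 0x325144c, .tri 0 1 2),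
    (nat_lit 0x145144c, .bes), (nat_lit 0x345144c, .bes), (nat_lit 0x165144c, .neg 1 2), (nat_lit 0x265144c,
    .bes), (nat_lit 0x12d144c, .m2 [0x200030006000605, 0x400000005, 0x5030205050202] 0 1),
    (nat_lit 0x22d144c, .bes), (nat_lit 0x125944c, .neg 0 1), (nat_lit 0x225944c, .tri 0 1 2),
    (nat_lit 0x145944c, .neg 1 2), (nat_lit 0x129944c, .m2 [0x500030205050202, 0x400000005,
    0x2030000060605] 0 1), (nat_lit 0x229944c, .bes), (nat_lit 0x142144c, .bes), (nat_lit 0x124964c,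
    .m2 [0x4040404, 0x5040000, 0x303030000000003, 1028] 0 1), (nat_lit 0x224964c, .neg 0 2),
    (nat_lit 0x144964c, .neg 0 2), (nat_lit 0x128964c, .neg 0 2), (nat_lit 0x228964c, .neg 0 2),
    (nat_lit 0x40c964c, .neg 0 1), (nat_lit 0x125164c, .neg 0 2), (nat_lit 0x225164c, .tri 0 1 2),
    (nat_lit 0x145164c, .neg 0 2), (nat_lit 0x162164c, .neg 0 2), (nat_lit 0x124a64c, .tri 0 1 2),
    (nat_lit 0x224a64c, .m2 [0x4050009, 1028, 0x2030202000000] 0 1), (nat_lit 0x144a64c, .m2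
    [0x4040404, 0x5040000, 0x303030004050002] 0 1), (nat_lit 0x128a64c, .m2 [0x4090400, 1028,
    0x2030202000000] 0 1), (nat_lit 0x228a64c, .bes), (nat_lit 0x125264c, .m2 [0x4040404,
    0x5040000, 0x303030005000402] 0 1), (nat_lit 0x145264c, .bes), (nat_lit 0x124884c, .m2
    [0x2000200020002, 0x20003020503, 0x200000302000003, 0x202020205] 0 1), (nat_lit 0x225084c,
    .bes), (nat_lit 0x325884c, .neg 0 1), (nat_lit 0x1254054, .bes), (nat_lit 0x16d4054, .cx),
    (nat_lit 0x1249254, .tri 0 1 2), (nat_lit 0x2249254, .bes), (nat_lit 0x3249254, .tri 0 1 2),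
    (nat_lit 0x1449254, .bes), (nat_lit 0x3449254, .m2 [0x203000007070005, 0x3050304030402,
    0x202020202020202] 0 1), (nat_lit 0x1649254, .tri 0 1 2), (nat_lit 0x2649254, .m2
    [0x305000302050503, 0x400020200000703, 0x4040404] 0 1), (nat_lit 0x1289254, .bes), (nat_lit 0x1489254,
    .bes), (nat_lit 0x1689254, .tri 0 1 2), (nat_lit 0x889254, .bes), (nat_lit 0x12c9254, .tri 0 1
    2), (nat_lit 0x14c9254, .tri 0 1 2), (nat_lit 0x1251254, .bes), (nat_lit 0x2251254, .bes),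
    (nat_lit 0x3251254, .tri 0 1 2), (nat_lit 0x1451254, .bes), (nat_lit 0x3451254, .bes),
    (nat_lit 0x1651254, .tri 0 1 2), (nat_lit 0x2651254, .bes), (nat_lit 0x12d1254, .m2
    [0x3020000070705, 0x400020300000702, 0x202020202020202] 0 1), (nat_lit 0x14d1254, .bes),
    (nat_lit 0x1259254, .tri 0 1 2), (nat_lit 0x2259254, .tri 0 1 2), (nat_lit 0x1459254, .tri 0 1
    2), (nat_lit 0x1299254, .m2 [0x5030305050203, 0x3050204030403, 0x4040404] 0 1), (nat_lit 0x1499254,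
    .bes), (nat_lit 0x2221254, .bes), (nat_lit 0x404a254, .bes), (nat_lit 0x124a254, .bes),
    (nat_lit 0x224a254, .bes), (nat_lit 0x324a254, .neg 0 1), (nat_lit 0x128a254, .bes), (nat_lit 0x12ca254,
    .neg 0 1), (nat_lit 0x1252254, .bes), (nat_lit 0x12d2254, .bes), (nat_lit 0x125a254, .tri 0 1
    2), (nat_lit 0x129a254, .bes), (nat_lit 0x124b254, .neg 0 2), (nat_lit 0x224b254, .neg 0 2),
    (nat_lit 0x128b254, .neg 0 2), (nat_lit 0x1253254, .tri 0 1 2), (nat_lit 0x89b254, .cx),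
    (nat_lit 0x1301454, .bes), (nat_lit 0x1249454, .bes), (nat_lit 0x2249454, .bes), (nat_lit 0x3249454,
    .neg 0 1), (nat_lit 0x1449454, .bes), (nat_lit 0x3449454, .bes), (nat_lit 0x1649454, .tri 0 1
    2), (nat_lit 0x2649454, .bes), (nat_lit 0x1289454, .bes), (nat_lit 0x12c9454, .neg 0 1),
    (nat_lit 0x3303454, .cx), (nat_lit 0x124b454, .m2 [0x8000404, 0x40004, 0x302000300000200] 0
    1), (nat_lit 0x224b454, .bes), (nat_lit 0x128b454, .bes), (nat_lit 0x1249654, .neg 0 2),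
    (nat_lit 0x2249654, .neg 0 2), (nat_lit 0x1449654, .tri 0 1 2), (nat_lit 0x1289654, .neg 0 2),
    (nat_lit 0x2621654, .cx), (nat_lit 0x124a654, .m2 [0x4000805, 1028, 0x2030202000000] 0 1),
    (nat_lit 0x224a654, .bes), (nat_lit 0x128a654, .bes), (nat_lit 0x40ca654, .cx), (nat_lit 0x1448854,
    .bes), (nat_lit 0x3458854, .cx), (nat_lit 0x125c05c, .neg 0 1), (nat_lit 0x149c05c, .cx),
    (nat_lit 0x124925c, .m2 [0x302000304050300, 0x300020204030505, 0x4000004, 0x202020205] 0 1),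
    (nat_lit 0x224925c, .tri 0 1 2), (nat_lit 0x144925c, .tri 0 1 2), (nat_lit 0x128925c, .tri 0 1
    2), (nat_lit 0x148925c, .tri 0 1 2), (nat_lit 0x8c925c, .neg 0 2), (nat_lit 0x125125c, .tri 0
    1 2), (nat_lit 0x225125c, .tri 0 1 2), (nat_lit 0x145125c, .tri 0 1 2), (nat_lit 0x322125c,
    .neg 0 2), (nat_lit 0x124a25c, .neg 0 1), (nat_lit 0x224a25c, .neg 0 1), (nat_lit 0x128a25c,
    .neg 0 1), (nat_lit 0x125225c, .tri 0 1 2), (nat_lit 0x8d225c, .cx), (nat_lit 0x404b25c, .neg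
    0 1), (nat_lit 0x124945c, .neg 0 1), (nat_lit 0x224945c, .neg 0 1), (nat_lit 0x144945c, .tri 0
    1 2), (nat_lit 0x128945c, .neg 0 1), (nat_lit 0x342145c, .cx), (nat_lit 0x408b45c, .cx),
    (nat_lit 0x130165c, .neg 0 1), (nat_lit 0x230265c, .cx), (nat_lit 0x164885c, .neg 0 1),
    (nat_lit 0x265085c, .cx), (nat_lit 0x225c09c, .cx), (nat_lit 0x124929c, .tri 0 1 2), (nat_lit 0x224929c,
    .m2 [0x2000007000203, 0x3030202000005, 0x200000202000002] 0 1), (nat_lit 0x144929c, .m2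
    [0x4000004, 0x2020303000004, 0x303000300000305] 0 1), (nat_lit 0x128929c, .m2
    [0x2030000070705, 0x200030402050205, 0x202020202020202] 0 1), (nat_lit 0x148929c, .bes),
    (nat_lit 0x125129c, .m2 [0x4040404, 0x302000502020504, 0x503000305020503] 0 1), (nat_lit 0x225129c,
    .bes), (nat_lit 0x124a29c, .m2 [0x400000203070305, 0x3000403040207, 0x4000400000000] 0 1),
    (nat_lit 0x224a29c, .bes), (nat_lit 0x125229c, .bes), (nat_lit 0x322229c, .cx), (nat_lit 0x405329c,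
    .cx), (nat_lit 0x124949c, .m2 [0x302000007070005, 0x400000005, 0x204000203040402] 0 1),
    (nat_lit 0x144949c, .bes), (nat_lit 0x128949c, .bes), (nat_lit 0x8c949c, .cx), (nat_lit 0x150169c,
    .cx), (nat_lit 0x168889c, .cx), (nat_lit 0x1249224, .m2 [0x203020004000003, 0x4000004,
    0x5000500, 0x202020205] 0 1), (nat_lit 0x1451224, .bes), (nat_lit 0x1659224, .neg 0 1),
    (nat_lit 0x128a224, .bes), (nat_lit 0x169a224, .cx), (nat_lit 0x12cb224, .neg 0 1), (nat_lit 0x14d3224,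
    .cx), (nat_lit 0x2249424, .bes), (nat_lit 0x2659424, .cx), (nat_lit 0x22cb424, .cx), (nat_lit 0x3249624,
    .neg 0 1), (nat_lit 0x3451624, .cx), (nat_lit 0x328a624, .cx), (nat_lit 0x124924d, .cx)]

def ceB : List (List (List (List ℕ))) := [[[[nat_lit 512, nat_lit 513, nat_lit 770, nat_lit 515,
    nat_lit 520, nat_lit 773, nat_lit 518, nat_lit 775, nat_lit 516], []]], [[[nat_lit 1288,
    nat_lit 513, nat_lit 518], [nat_lit 1537, nat_lit 1798]], [[nat_lit 513, nat_lit 514, nat_lit 768,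
    nat_lit 520, nat_lit 517, nat_lit 771, nat_lit 518, nat_lit 772, nat_lit 519], []]],
    [[[nat_lit 1280, nat_lit 515, nat_lit 516], [nat_lit 1795, nat_lit 1540]], [[nat_lit 1287,
    nat_lit 514, nat_lit 517], [nat_lit 1794, nat_lit 1541]], [[nat_lit 512, nat_lit 514, nat_lit 769,
    nat_lit 515, nat_lit 519, nat_lit 774, nat_lit 517, nat_lit 776, nat_lit 516], []]]]

def sB : Sr := ⟨3, 9, false, 0x2020200, 8, 12, rtB, [(5, nat_lit 0x40200050801070306), (3, nat_lit 0x20607010003080504),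
    (0, nat_lit 0x70805060304010200)], lsB, dsB, rpB, ceB⟩

theorem sB_1 : sB.c1 = true := by decide +kernel

theorem sB_2 : sB.c2 = true := by decide +kernel

theorem sB_3 : sB.c3 = true := by decide +kernel

theorem sB_4 : sB.c4 = true := by decide +kernel

theorem sB_5 : sB.c5 = true := by decide +kernel

theorem sB_6 : sB.c6 = true := by decide +kernel

end Pool.Agent.P.MP_97ea17_al.Ck
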