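import Pool.Agent.P.MP_97ea17_al.F.XS

/-! Data and kernel checks. -/

namespace Pool.Agent.P.MP_97ea17_al.Ck

set_option maxRecDepth 100000
set_option exponentiation.threshold 100000
set_option linter.all false

def aS1 : Sa := ⟨4, [], [(4, zL rS2), (4, zL rT), (5, zL rU)], 0x10001, [], [.non, .tr 2 [[2], [0,
    2], [0, 0, 2], [0, 0, 0, 2], [0, 0, 0, 0, 2]] [[24], [27], [28], [15], [1], [0, 2, 20]], .non,
    .non, .non, .non, .non, .non, .tr 0 [[771, 515, 0x2030000, 0x2020000], [0x2030000, 0x3030000,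
    771, 770], [515, 771, 0x3030000, 0x3020000], [0x2020000, 0x3020000, 770, 771]] [[0], [0, 2,
    14], [11], [30], [2]], .tr 0 [[0x3030202, 0x2030302, 0x3020302, 0x3030303], [0x2020303,
    0x2030302, 0x2030203, 0x3030303], [0x2020303, 0x2030302, 0x3020302, 0x2020202], [0x3030202,
    0x2030302, 0x2030203, 0x2020202]] [[0], [0, 2, 13], [11], [23], [2]], .tr 0 [[0x3000002,
    0x30300, 0x30200, 0x2000002], [0x20200, 0x2000003, 0x3000003, 0x20300], [0x3000003, 0x20300,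
    0x20200, 0x2000003], [0x20300, 0x3000003, 0x2000003, 0x20200]] [[0], [0, 2, 21], [12], [15],
    [2]], .non, .tr 0 [[2], [0, 2], [0, 0, 2], [0, 0, 0, 2]] [[0, 35], [0, 23], [28], [30], [1]],
    .non, .non, .non, .non, .non, .non, .non, .tr 1 [[0x202020203030603, 0x80008, 0x504050500,
    0x202020302020206], [0x8000009, 0x500000000050504, 0x203020303020602, 0x303020306030203],
    [0x302030303020603, 0x302030303020603, 0x302030303020603, 0x203020202030702],
    [0x4000004000504, 0x303020202020603, 0x9090000, 0x302020203070202]] [[0], [33], [12], [0, 2,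
    20], [3]], .tr 1 [[0, 0x405050409, 0x202020203060606, 0x303030203060302], [0,
    0x202030202020307, 0x500000008050505, 0x302030207030706], [0x405040404050d04], [0,
    0x202030306060702, 0x302020206020202, 0x5000004080405]] [[0], [22], [12], [0, 2, 35], [3]],
    .tr 1 [[0x40004040005, 0x302030202030206, 0x8000800, 0x302020203020702], [0x404050400,
    0x302020203020207, 0x302020302060302, 0x8000008], [0x400000000050505, 0x50005040005,
    0x505050400, 0x5000005000504], [0x4000004000504, 0x8080000, 0x302020203070202,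
    0x303020202020603]] [[0], [14], [12], [0, 3, 27], [2]], .non, .tr 1 [[0x302000003060005,
    0x3020005070200, 0x202030302020303, 0x2000305020007], [0x303020303030203, 0x302000007020400,
    0x200000202000506, 0x300020007000204], [0x200020002040600, 0x200020002040600,
    0x200020002040600, 0x300030003050700], [0x200000302000507, 0x400000004, 0x302000003060004,
    0x2000200060502]] [[0], [33], [11], [0, 3, 23], [2]], .tr 1 [[0, 0x202000007030004,
    0x300000303000402, 0x3000200070402], [0, 0x200000303050003, 0x300020007000205, 0x20300040702],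
    [0x5050009040500], [0, 0x3000304030007, 0x30304000206, 0x3020000030304]] [[0], [22], [11], [0,
    3, 19], [2]], .tr 1 [[0x203030203020203, 0x2020004030700, 0x2000204070003, 0x203000003060500],
    [0x202000003070400, 0x200000307000502, 0x303030202020203, 0x300020006040300],
    [0x200000303040006, 0x2030000070204, 0x300000306000502, 0x3030004020600], [0x300030002000604,
    0x300000302040006, 0x30300050602, 0x500000004]] [[0], [14], [11], [0, 2, 31], [3]], .non,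
    .non, .non, .non, .non, .non, .tr 1 [[0x9000009, 0x5000004000505, 0x302030202030703,
    0x202020302020703], [0x50004050005, 0x203030203020206, 0x8080000, 0x203020202030207],
    [0x303030203060302, 0x303020303030206, 0x203020202030702, 0x203030307030303],
    [0x202030303060202, 0x9000900, 0x405040400, 0x202030202070302]] [[0], [5], [6], [0, 13, 32],
    [14]], .tr 1 [[2], [0, 2], [0, 0, 2], [0, 0, 0, 2]] [[24], [27], [15], [0, 2, 14], [1]], .mem
    [0]]⟩

theorem aS1_ok : aS1.ok sS = true := by decide +kernel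

theorem aS1_g : chkL 4 (zL rS1) (dL sS.rt ++ aS1.ex) [[4], [3, 4, 0], [0, 4, 3], [1, 4, 3], [3, 4,
    1], [0, 3, 4, 2], [0, 3, 1, 4, 0], [2, 4, 3], [3, 4, 2], [1, 4, 2], [0, 4, 1], [0, 4, 2], [0,
    3, 1], [0, 3, 1, 4], [3], [0, 3, 2], [1, 3, 2], [0, 4, 1, 3], [0, 3, 2, 4], [3, 4], [0, 4, 1,
    2], [0, 3, 1, 2, 3], [2, 4], [0], [0, 4], [1, 4], [1], [2], [2, 3, 4], [0, 3, 1, 2], [0, 3],
    [1, 3], [2, 3], [0, 4, 3, 1], [1, 3, 4], [0, 3, 4]] = true := by decide +kernel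

def aS2 : Sa := ⟨4, zL rS2, [(4, zL rS3)], 0x10001, [], [.non, .bad [0] [37], .non, .non, .non,
    .non, .non, .non, .tr 0 [[2], [0, 2], [0, 0, 2], [0, 0, 0, 2]] [[37], [38], [28], [30], [1],
    [0, 2, 37, 14]], .tr 0 [[2], [0, 2], [0, 0, 2], [0, 0, 0, 2]] [[37], [38], [28], [30], [1],
    [0, 1]], .tr 0 [[2], [0, 2], [0, 0, 2], [0, 0, 0, 2]] [[37], [38], [28], [30], [1], [0, 31,
    37]], .non, .mem [22, 37], .non, .non, .non, .non, .non, .non, .non, .bad [0] [37], .bad [0]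
    [37], .bad [0] [37], .non, .bad [0] [37], .bad [0] [37], .bad [0] [37], .non, .non, .non,
    .non, .non, .non, .bad [37] [0, 14], .bad [37] [0, 14], .mem [0]]⟩

theorem aS2_ok : aS2.ok sS = true := by decide +kernel

theorem aS2_g : chkL 4 (zL rS2) (dL sS.rt ++ aS2.ex) [[4], [2, 1, 4, 3], [1, 2, 4, 0], [3, 4, 2],
    [2, 4, 3], [1, 4, 0], [0, 4, 1], [0, 4, 2, 1, 3], [1, 4, 0, 3, 2], [1, 2, 4, 1], [0, 4, 1, 3,
    2], [0, 4, 3, 2, 1], [2, 3], [2, 3, 4], [1, 4, 0, 3, 4], [2, 1, 3], [2, 1, 0, 3], [0, 4, 2,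
    1], [0, 4, 1, 2], [1, 4, 0, 3], [0, 4, 1, 3], [0, 4, 1, 3, 4], [2, 4], [2, 1, 0], [2, 1, 0,
    4], [2, 1, 4], [2, 1], [2], [0, 1, 4, 2, 1], [3], [2, 1, 3, 2], [2, 1, 0, 3, 2], [0, 1, 4, 2,
    1, 4], [3, 4], [2, 4, 1, 0], [1, 4, 0, 2], [0], [1], [2], [3], [4]] = true := by decide +kernel

def aS3 : Sa := ⟨4, zL rS3, [], 0x10001, [], [.non, .bad [0] [37], .non, .non, .non, .non, .non,
    .non, .mem [1, 36, 41, 18], .mem [41, 0], .mem [31, 41, 36], .non, .mem [22, 37], .non, .non,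
    .non, .non, .non, .non, .non, .bad [0] [37], .bad [0] [37], .bad [0] [37], .non, .bad [0]
    [37], .bad [0] [37], .bad [0] [37], .non, .non, .non, .non, .non, .non, .bad [0] [42], .bad
    [0] [42], .mem [0]]⟩

theorem aS3_ok : aS3.ok sS = true := by decide +kernel

theorem aS3_g : chkL 4 (zL rS3) (dL sS.rt ++ aS3.ex) [[4], [2, 1, 4, 3], [1, 2, 4, 0], [3, 4, 2],
    [2, 4, 3], [1, 4, 0], [0, 4, 1], [4, 5, 3, 2], [4, 5, 0, 1], [4, 5], [0, 4, 1, 3, 2], [0, 4,
    3, 2, 1], [2, 3], [2, 3, 4], [1, 4, 0, 3, 4], [2, 1, 3], [2, 1, 0, 3], [0, 4, 2, 1], [0, 4, 1,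
    2], [1, 4, 0, 3], [0, 4, 1, 3], [2, 1, 0, 5], [2, 4], [2, 1, 0], [2, 1, 0, 4], [2, 1, 4], [2,
    1], [2], [4, 5, 3], [3], [2, 1, 3, 2], [2, 1, 0, 3, 2], [4, 5, 3, 4], [3, 4], [2, 4, 1, 0],
    [1, 4, 0, 2], [0], [1], [2], [3], [4], [5]] = true := by decide +kernel

def aT : Sa := ⟨4, zL rT, [], 0x10001, [], [.non, .bad [40] [0, 1], .non, .non, .non, .non, .non,
    .non, .bad [0] [40], .bad [0] [40], .bad [0] [40], .non, .bad [40] [0, 14], .non, .non, .non,
    .non, .non, .non, .non, .bad [0] [40], .bad [0] [40], .bad [0] [40], .non, .bad [0] [40], .bad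
    [0] [40], .bad [0] [40], .non, .non, .non, .non, .non, .non, .bad [40] [0, 14], .mem [1, 39,
    21], .mem [0]]⟩

theorem aT_ok : aT.ok sS = true := by decide +kernel

theorem aT_g : chkL 4 (zL rT) (dL sS.rt ++ aT.ex) [[4], [2, 4, 0], [0, 4, 2], [1, 4, 2], [2, 4,
    1], [1, 2, 4, 0], [0, 2, 1, 4, 0], [0, 2, 4, 1], [0, 2, 1, 4, 1], [0, 3, 2, 4, 3], [0, 4, 1],
    [0, 2, 1, 4, 2], [0, 2, 1], [0, 2, 1, 4], [2], [2, 4, 0, 1, 4], [0, 4, 1, 2, 4], [0, 4, 1, 2],
    [2, 4, 0, 1], [2, 4], [1, 2, 4, 0, 2], [0, 4, 2, 1, 4, 2], [0, 2, 4, 1, 2], [0], [0, 4], [1,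
    4], [1], [0, 2, 4, 1, 2, 4], [1, 4, 2, 0], [0, 4, 2, 1, 4], [0, 2], [1, 2], [1, 4, 2, 0, 4],
    [0, 4, 2, 1], [1, 2, 4], [0, 2, 4], [0], [1], [2], [3], [4]] = true := by decide +kernel

def aU : Sa := ⟨5, dL [zU, [0, 0, 0, 0, 2]] ++ zL rU, [], 0x110001, zU, [.non, .uu, .non, .non,
    .non, .non, .non, .non, .bad [0] [37], .bad [0] [37], .bad [0] [37], .non, .bad [0] [37],
    .non, .non, .non, .non, .non, .non, .non, .bad [0] [37], .bad [0] [37], .bad [0] [37], .non,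
    .bad [0] [37], .bad [0] [37], .bad [0] [37], .non, .non, .non, .non, .non, .non, .bad [0]
    [37], .bad [0] [44], .mem [0]]⟩

theorem aU_ok : aU.ok sS = true := by decide +kernel

theorem aU_g : chkL 5 (zL rU) (dL sS.rt ++ aU.ex) [[4], [3, 4, 0], [0, 4, 3], [1, 4, 3], [3, 4,
    1], [0, 3, 4, 2], [0, 3, 1, 4, 0], [2, 4, 3], [3, 4, 2], [1, 4, 2], [0, 4, 1], [0, 4, 2], [0,
    3, 1], [0, 3, 1, 4], [3], [0, 3, 2], [1, 3, 2], [0, 4, 1, 3], [0, 3, 2, 4], [3, 4], [0, 4, 1,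
    2], [0, 3, 1, 2, 3], [2, 4], [0], [0, 4], [1, 4], [1], [2], [2, 3, 4], [0, 3, 1, 2], [0, 3],
    [1, 3], [2, 3], [0, 4, 3, 1], [1, 3, 4], [0, 3, 4], [0, 5, 3, 4, 3], [0, 5, 1, 2, 5], [0],
    [1], [2], [3], [4], [5]] = true := by decide +kernel

end Pool.Agent.P.MP_97ea17_al.Ck
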